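import Pool.Agent.P.MP_7eacff_nt.Rig.Create

/-!
The truncated exponential against completely multiplicative functions.
-/

open Complex Filter Topology MeasureTheory Set ArithmeticFunction
open scoped Real ENNReal ComplexConjugate

namespace Pool.Agent.P.MP_7eacff_nt.Rig

namespace ExpAAux

theorem sub_app (f g : ArithmeticFunction ℂ) (n : ℕ) : (f - g) n = f n - g n := by
  rw [sub_eq_add_neg, ArithmeticFunction.add_apply, ArithmeticFunction.neg_apply, sub_eq_add_neg]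

theorem sum_app {ι : Type*} (s : Finset ι) (f : ι → ArithmeticFunction ℂ) (n : ℕ) :
    (∑ i ∈ s, f i) n = ∑ i ∈ s, f i n := by
  classical
  induction s using Finset.induction_on with
  | empty => simp
  | insert i s hi ih => rw [Finset.sum_insert hi, Finset.sum_insert hi, ArithmeticFunction.add_apply, ih]

theorem exists_of_mul {f g : ArithmeticFunction ℂ} {n : ℕ} (h : (f * g) n ≠ 0) :
    ∃ a b, a * b = n ∧ n ≠ 0 ∧ f a ≠ 0 ∧ g b ≠ 0 := by
  rw [mul_apply] at h
  obtain ⟨x, hx, h0⟩ := Finset.exists_ne_zero_of_sum_ne_zero h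
  rw [Nat.mem_divisorsAntidiagonal] at hx
  exact ⟨x.1, x.2, hx.1, hx.2, left_ne_zero_of_mul h0, right_ne_zero_of_mul h0⟩

/-- Supported on integers which are at least `x`. -/
def Sup (x : ℝ) (f : ArithmeticFunction ℂ) : Prop := ∀ q, f q ≠ 0 → x ≤ q

theorem sup_one (f : ArithmeticFunction ℂ) : Sup 1 f := fun q hq => by
  have : q ≠ 0 := by rintro rfl; exact hq map_zero
  exact_mod_cast Nat.one_le_iff_ne_zero.2 this

theorem Sup.mul {x y : ℝ} {f g : ArithmeticFunction ℂ} (hy : 0 ≤ y) (hf : Sup x f)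
    (hg : Sup y g) : Sup (x * y) (f * g) := fun n hn => by
  obtain ⟨a, b, rfl, -, ha, hb⟩ := exists_of_mul hn
  rw [Nat.cast_mul]
  exact mul_le_mul (hf a ha) (hg b hb) hy (Nat.cast_nonneg _)

theorem Sup.pow {x : ℝ} {f : ArithmeticFunction ℂ} (hx : 0 ≤ x) (hf : Sup x f) (k : ℕ) :
    Sup (x ^ k) (f ^ k) := by
  induction k with
  | zero => rw [pow_zero]; exact sup_one _
  | succ k ih => rw [pow_succ, pow_succ]; exact ih.mul hx hf

theorem Sup.mul_any {x : ℝ} {f : ArithmeticFunction ℂ} (hf : Sup x f) (g : ArithmeticFunction ℂ) :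
    Sup x (f * g) := by
  simpa using hf.mul zero_le_one (sup_one g)

theorem Sup.eq_zero {x : ℝ} {f : ArithmeticFunction ℂ} (hf : Sup x f) {n : ℕ} (hn : (n : ℝ) < x) :
    f n = 0 := by
  by_contra h
  exact absurd (hf n h) (not_le.2 hn)

theorem mul_congr {N : ℕ} (f : ArithmeticFunction ℂ) {g g' : ArithmeticFunction ℂ}
    (h : ∀ n ∈ Finset.Icc 1 N, g n = g' n) : ∀ n ∈ Finset.Icc 1 N, (f * g) n = (f * g') n := by
  intro n hn
  rw [mul_apply, mul_apply]
  refine Finset.sum_congr rfl fun x hx => ?_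
  have h1 := Nat.snd_mem_divisors_of_mem_antidiagonal hx
  rw [h x.2 (Finset.mem_Icc.2 ⟨Nat.pos_of_mem_divisors h1,
    (Nat.divisor_le h1).trans (Finset.mem_Icc.1 hn).2⟩)]

/-- The derivation given by multiplication with the logarithm. -/
noncomputable def DD : ArithmeticFunction ℂ →ₗ[ℂ] ArithmeticFunction ℂ where
  toFun f := ⟨fun n => (Real.log n : ℝ) * f n, by simp⟩
  map_add' f g := by ext n; exact mul_add _ _ _
  map_smul' c f := by ext n; exact mul_left_comm _ _ _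

theorem DD_apply (f : ArithmeticFunction ℂ) (n : ℕ) : DD f n = (Real.log n : ℝ) * f n := rfl

theorem DD_mul (f g : ArithmeticFunction ℂ) : DD (f * g) = DD f * g + f * DD g := by
  ext n
  rw [ArithmeticFunction.add_apply, DD_apply, mul_apply, mul_apply, mul_apply, Finset.mul_sum,
    ← Finset.sum_add_distrib]
  refine Finset.sum_congr rfl fun x hx => ?_
  obtain ⟨h1, h2⟩ := Nat.mem_divisorsAntidiagonal.1 hx
  rw [← h1] at h2
  rw [DD_apply, DD_apply, ← h1, Nat.cast_mul,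
    Real.log_mul (Nat.cast_ne_zero.2 (left_ne_zero_of_mul h2))
      (Nat.cast_ne_zero.2 (right_ne_zero_of_mul h2))]
  push_cast
  ring

theorem DD_one : DD 1 = 0 := by
  ext n
  rw [DD_apply, one_apply]
  split_ifs with h <;> simp [h]

theorem DD_pow (f : ArithmeticFunction ℂ) (k : ℕ) :
    DD (f ^ (k + 1)) = ((k + 1 : ℕ) : ℂ) • (DD f * f ^ k) := by
  induction k with
  | zero => simp
  | succ k ih =>
    rw [pow_succ, DD_mul, ih, Nat.cast_succ (k + 1), add_smul, one_smul, smul_mul_assoc,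
      mul_assoc, ← pow_succ, mul_comm (f ^ (k + 1))]

theorem DD_expA (m : ℕ) (f : ArithmeticFunction ℂ) :
    DD (expA m f) = DD f * expA m f - ((m.factorial : ℂ)⁻¹) • (DD f * f ^ m) := by
  induction m with
  | zero => simp [expA, DD_one]
  | succ m ih =>
    have h : expA (m + 1) f = expA m f + (((m + 1).factorial : ℂ)⁻¹) • f ^ (m + 1) :=
      Finset.sum_range_succ _ _
    have h1 : (((m + 1).factorial : ℂ)⁻¹) * ((m + 1 : ℕ) : ℂ) = (m.factorial : ℂ)⁻¹ := by
      rw [Nat.factorial_succ, Nat.cast_mul, mul_inv, mul_right_comm,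
        inv_mul_cancel₀ (Nat.cast_ne_zero.2 (Nat.succ_ne_zero m)), one_mul]
    rw [h, map_add, map_smul, ih, DD_pow, smul_smul, h1, mul_add, mul_smul_comm]
    abel

/-- The von Mangoldt function twisted by `A`. -/
noncomputable def LA (A : ArithmeticFunction ℂ) : ArithmeticFunction ℂ :=
  ⟨fun n => (vonMangoldt n : ℝ) * A n, by simp⟩

theorem LA_apply (A : ArithmeticFunction ℂ) (n : ℕ) : LA A n = (vonMangoldt n : ℝ) * A n := rfl

theorem DD_CM {A : ArithmeticFunction ℂ} (hA : CM A) : DD A = LA A * A := by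
  ext n
  rw [DD_apply, mul_apply, ← vonMangoldt_sum, ofReal_sum, Finset.sum_mul,
    ← Nat.sum_divisorsAntidiagonal fun a _ => ((vonMangoldt a : ℝ) : ℂ) * A n]
  refine Finset.sum_congr rfl fun x hx => ?_
  rw [LA_apply, mul_assoc, ← hA.mul, (Nat.mem_divisorsAntidiagonal.1 hx).1]

theorem nu1_apply (A A' : ArithmeticFunction ℂ) (q : ℕ) :
    nu1 A A' q = (vonMangoldt q : ℝ) * (A' q - A q) / (Real.log q : ℝ) := by
  change (if q = 0 then 0 else _) = _
  split_ifs with h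
  · simp [h]
  · rfl

theorem DD_nu1 (A A' : ArithmeticFunction ℂ) : DD (nu1 A A') = LA A' - LA A := by
  ext q
  rw [DD_apply, nu1_apply, sub_app, LA_apply, LA_apply, ← mul_sub]
  by_cases h : vonMangoldt q = 0
  · simp [h]
  · have h1 : (1 : ℝ) < q := by exact_mod_cast (vonMangoldt_ne_zero_iff.1 h).one_lt
    have h2 : ((Real.log q : ℝ) : ℂ) ≠ 0 := ofReal_ne_zero.2 (Real.log_pos h1).ne'
    exact mul_div_cancel₀ _ h2

theorem nu1_one (A A' : ArithmeticFunction ℂ) : nu1 A A' 1 = 0 := by simp [nu1_apply]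

theorem expA_one {f : ArithmeticFunction ℂ} (hf : f 1 = 0) (m : ℕ) : expA m f 1 = 1 := by
  rw [expA, Finset.sum_range_succ', ArithmeticFunction.add_apply, sum_app, Finset.sum_eq_zero]
  · simp
  · intro k _
    rw [smul_map, pow_succ, mul_apply_one, hf, mul_zero, smul_zero]

theorem nu1_pp (A A' : ArithmeticFunction ℂ) : PP (nu1 A A') := fun q hq => by
  rw [← vonMangoldt_ne_zero_iff]
  intro h
  exact hq (by simp [nu1_apply, h])

theorem nu1_ne {A A' : ArithmeticFunction ℂ} (hn : ∀ n, ‖A' n‖ = ‖A n‖) {q : ℕ}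
    (hq : nu1 A A' q ≠ 0) : A q ≠ 0 := fun h => by
  have h1 : A' q = 0 := by simpa [h] using hn q
  exact hq (by simp [nu1_apply, h, h1])

/-- Supported on integers without small prime factors. -/
def Ro (z : ℝ) (f : ArithmeticFunction ℂ) : Prop := ∀ n, f n ≠ 0 → ∀ p ∈ n.primeFactors, z ≤ p

theorem Ro.mul {z : ℝ} {f g : ArithmeticFunction ℂ} (hf : Ro z f) (hg : Ro z g) :
    Ro z (f * g) := fun n hn p hp => by
  obtain ⟨a, b, rfl, h0, ha, hb⟩ := exists_of_mul hn
  rw [Nat.primeFactors_mul (left_ne_zero_of_mul h0) (right_ne_zero_of_mul h0),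
    Finset.mem_union] at hp
  exact hp.elim (hf a ha p) (hg b hb p)

theorem Ro.sub {z : ℝ} {f g : ArithmeticFunction ℂ} (hf : Ro z f) (hg : Ro z g) :
    Ro z (f - g) := fun n hn => by
  by_cases h : f n = 0
  · exact hg n fun h' => hn (by rw [sub_app, h, h', sub_zero])
  · exact hf n h

theorem Ro.pow {z : ℝ} {f : ArithmeticFunction ℂ} (hf : Ro z f) (k : ℕ) : Ro z (f ^ k) := by
  induction k with
  | zero =>
    intro n hn p hp
    have : n = 1 := by
      by_contra h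
      exact hn (by rw [pow_zero, one_apply_ne h])
    simp [this] at hp
  | succ k ih => rw [pow_succ]; exact ih.mul hf

theorem Ro.exp {z : ℝ} {f : ArithmeticFunction ℂ} (hf : Ro z f) (m : ℕ) : Ro z (expA m f) := by
  intro n hn
  rw [expA, sum_app] at hn
  obtain ⟨k, -, hk⟩ := Finset.exists_ne_zero_of_sum_ne_zero hn
  exact hf.pow k n fun h => hk (by rw [smul_map, h, smul_zero])

theorem Ro.card {z : ℝ} {f : ArithmeticFunction ℂ} {N K : ℕ} (hf : Ro z f) (hz : 1 ≤ z)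
    (hN : (N : ℝ) < z ^ (K + 1)) : ∀ n ∈ Finset.Icc 1 N, f n ≠ 0 → n.primeFactors.card ≤ K := by
  intro n hn h
  obtain ⟨h1, h2⟩ := Finset.mem_Icc.1 hn
  by_contra hc
  have h3 : z ^ (K + 1) ≤ z ^ n.primeFactors.card := pow_le_pow_right₀ hz (by omega)
  have h4 : z ^ n.primeFactors.card ≤ ∏ p ∈ n.primeFactors, (p : ℝ) := by
    rw [← Finset.prod_const]
    exact Finset.prod_le_prod (fun _ _ => by linarith) (hf n h)
  have h5 : ∏ p ∈ n.primeFactors, (p : ℝ) ≤ N := by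
    rw [← Nat.cast_prod]
    exact Nat.cast_le.2 ((Nat.le_of_dvd h1 (Nat.prod_primeFactors_dvd n)).trans h2)
  linarith

theorem Ro.le {z : ℝ} {f : ArithmeticFunction ℂ} (hf : Ro z f) {q : ℕ} (hq : f q ≠ 0)
    (h1 : q ≠ 1) : z ≤ q := by
  have h0 : q ≠ 0 := by rintro rfl; exact hq map_zero
  refine (hf q hq q.minFac (Nat.mem_primeFactors.2 ⟨Nat.minFac_prime h1, Nat.minFac_dvd q, h0⟩)).trans ?_
  exact_mod_cast Nat.minFac_le (Nat.pos_of_ne_zero h0)

theorem geom {σ : ℝ} (h0 : 0 ≤ σ) (h : σ ≤ 1 / 2) (m : ℕ) :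
    ∑ j ∈ Finset.range m, σ ^ (j + 1) ≤ 2 * σ := by
  have h1 := geom_sum_Ico_le_of_lt_one (m := 1) (n := m + 1) h0 (by linarith)
  rw [Finset.sum_Ico_eq_sum_range, Nat.add_sub_cancel, pow_one] at h1
  simp only [add_comm 1] at h1
  refine h1.trans ?_
  rw [div_le_iff₀ (by linarith)]
  nlinarith

theorem geom_tail {K m : ℕ} (hm : K ≤ m) :
    ∑ j ∈ Finset.range (m + 1), (if j ≤ m - K then (0 : ℝ) else (1 / 2) ^ j) ≤ 2 ^ K / 2 ^ m := by
  have h1 := geom_sum_Ico_le_of_lt_one (x := (1 / 2 : ℝ)) (m := m - K + 1) (n := m + 1)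
    (by norm_num) (by norm_num)
  have h2 : ((1 / 2 : ℝ) ^ (m - K + 1)) / (1 - 1 / 2) = 2 ^ K / 2 ^ m := by
    obtain ⟨d, rfl⟩ := Nat.exists_eq_add_of_le hm
    rw [Nat.add_sub_cancel_left, pow_succ, pow_add, one_div, inv_pow]
    field_simp
    norm_num
  rw [h2] at h1
  refine le_trans (le_of_eq ?_) h1
  rw [Finset.sum_ite, Finset.sum_const_zero, zero_add]
  refine Finset.sum_congr ?_ fun _ _ => rfl
  ext j
  simp only [Finset.mem_filter, Finset.mem_range, Finset.mem_Ico]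
  omega

/-- Pointwise multiplication by a completely multiplicative function. -/
noncomputable def tw {A : ArithmeticFunction ℂ} (hA : CM A) :
    ArithmeticFunction ℂ →* ArithmeticFunction ℂ where
  toFun f := ⟨fun n => f n * A n, by simp⟩
  map_one' := by
    ext n
    change (1 : ArithmeticFunction ℂ) n * A n = _
    rw [one_apply]
    split_ifs with h <;> simp [h, hA.one]
  map_mul' f g := by
    ext n
    change (f * g) n * A n = ∑ x ∈ n.divisorsAntidiagonal, f x.1 * A x.1 * (g x.2 * A x.2)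
    rw [mul_apply, Finset.sum_mul]
    refine Finset.sum_congr rfl fun x hx => ?_
    rw [← (Nat.mem_divisorsAntidiagonal.1 hx).1, hA.mul]
    ring

theorem tw_apply {A : ArithmeticFunction ℂ} (hA : CM A) (f : ArithmeticFunction ℂ) (n : ℕ) :
    tw hA f n = f n * A n := rfl

theorem l1_mul (N : ℕ) (f g : ArithmeticFunction ℂ) : ∑ n ∈ Finset.Icc 1 N, ‖(f * g) n‖ ≤
    (∑ n ∈ Finset.Icc 1 N, ‖f n‖) * ∑ n ∈ Finset.Icc 1 N, ‖g n‖ := by
  rw [Finset.sum_mul_sum, ← Finset.sum_product']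
  refine le_trans (Finset.sum_le_sum (g := fun n => ∑ x ∈ n.divisorsAntidiagonal,
    ‖f x.1‖ * ‖g x.2‖) fun n _ => ?_) ?_
  · rw [mul_apply]
    exact (norm_sum_le _ _).trans (Finset.sum_le_sum fun x _ => (norm_mul _ _).le)
  · rw [← Finset.sum_biUnion]
    · refine Finset.sum_le_sum_of_subset_of_nonneg (fun x hx => ?_) fun _ _ _ => by positivity
      obtain ⟨n, hn, hx⟩ := Finset.mem_biUnion.1 hx
      have h1 := Nat.fst_mem_divisors_of_mem_antidiagonal hx
      have h2 := Nat.snd_mem_divisors_of_mem_antidiagonal hx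
      have h3 := (Finset.mem_Icc.1 hn).2
      exact Finset.mem_product.2
        ⟨Finset.mem_Icc.2 ⟨Nat.pos_of_mem_divisors h1, (Nat.divisor_le h1).trans h3⟩,
          Finset.mem_Icc.2 ⟨Nat.pos_of_mem_divisors h2, (Nat.divisor_le h2).trans h3⟩⟩
    · intro a _ b _ hab
      refine Finset.disjoint_left.2 fun x hx hx' => hab ?_
      rw [← (Nat.mem_divisorsAntidiagonal.1 hx).1, (Nat.mem_divisorsAntidiagonal.1 hx').1]

theorem l1_pow {N : ℕ} {f : ArithmeticFunction ℂ} {σ : ℝ} (h : ∑ n ∈ Finset.Icc 1 N, ‖f n‖ ≤ σ)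
    (g : ArithmeticFunction ℂ) (j : ℕ) :
    ∑ n ∈ Finset.Icc 1 N, ‖(f ^ j * g) n‖ ≤ σ ^ j * ∑ n ∈ Finset.Icc 1 N, ‖g n‖ := by
  have h0 : 0 ≤ σ := (Finset.sum_nonneg fun _ _ => norm_nonneg _).trans h
  induction j with
  | zero => simp only [pow_zero, one_mul, le_refl]
  | succ j ih =>
    rw [pow_succ', pow_succ', mul_assoc, mul_assoc]
    exact (l1_mul N _ _).trans
      (mul_le_mul h ih (Finset.sum_nonneg fun _ _ => norm_nonneg _) h0)

end ExpAAux

open ExpAAux

theorem expA_add (m : ℕ) (ν e : ArithmeticFunction ℂ) : expA m (ν + e) =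
    ∑ j ∈ Finset.range (m + 1), ((j.factorial : ℂ)⁻¹) • e ^ j * expA (m - j) ν := by
  have h := Finset.sum_range_diag_flip (m + 1)
    fun j i => ((j.factorial : ℂ)⁻¹) • e ^ j * (((i.factorial : ℂ)⁻¹) • ν ^ i)
  refine Eq.trans (Finset.sum_congr rfl fun k _ => ?_) (h.trans
    (Finset.sum_congr rfl fun j hj => ?_))
  · rw [add_comm ν e, add_pow, Finset.smul_sum]
    refine Finset.sum_congr rfl fun j hj => ?_
    have hj' : j ≤ k := Nat.lt_succ_iff.1 (Finset.mem_range.1 hj)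
    have h1 : ((k.choose j : ℕ) : ℂ) * j.factorial * (k - j).factorial = k.factorial := by
      exact_mod_cast Nat.choose_mul_factorial_mul_factorial hj'
    have h2 : (j.factorial : ℂ) ≠ 0 := Nat.cast_ne_zero.2 j.factorial_ne_zero
    have h3 : ((k - j).factorial : ℂ) ≠ 0 := Nat.cast_ne_zero.2 (k - j).factorial_ne_zero
    have h4 : ((k.choose j : ℕ) : ℂ) ≠ 0 := Nat.cast_ne_zero.2 (Nat.choose_pos hj').ne'
    rw [smul_mul_smul_comm, mul_comm _ ((k.choose j : ℕ) : ArithmeticFunction ℂ), ← nsmul_eq_mul,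
      ← Nat.cast_smul_eq_nsmul ℂ, smul_smul, ← h1]
    congr 1
    field_simp
  · rw [expA, Finset.mul_sum, Nat.succ_sub (Nat.lt_succ_iff.1 (Finset.mem_range.1 hj))]

theorem pow_mul_eq_zero {ν : ArithmeticFunction ℂ} {z : ℝ} (hz : 1 ≤ z)
    (hν : ∀ q, ν q ≠ 0 → z ≤ q) (k : ℕ) (f : ArithmeticFunction ℂ) {n : ℕ} (hn : (n : ℝ) < z ^ k) :
    (ν ^ k * f) n = 0 :=
  ((Sup.pow (by linarith) hν k).mul_any f).eq_zero hn

variable {A A' ν : ArithmeticFunction ℂ} {N K m : ℕ} {z σ σ1 : ℝ}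

theorem expA_nu1 (hA : CM A) (hA' : CM A') (hz : 1 ≤ z) (hν : ∀ q, nu1 A A' q ≠ 0 → z ≤ q)
    (hN : (N : ℝ) < z ^ (K + 1)) (hm : K ≤ m) :
    ∀ n ∈ Finset.Icc 1 N, (expA m (nu1 A A') * A) n = A' n := by
  have hD : Sup z (DD (nu1 A A')) := fun q hq => hν q (right_ne_zero_of_mul hq)
  have hR : Sup (z * z ^ m) (DD (nu1 A A') * nu1 A A' ^ m * A) :=
    (hD.mul (by positivity) (Sup.pow (by linarith) hν m)).mul_any A
  have h1 : DD (expA m (nu1 A A') * A - A') = LA A' * (expA m (nu1 A A') * A - A') -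
      ((m.factorial : ℂ)⁻¹) • (DD (nu1 A A') * nu1 A A' ^ m * A) := by
    rw [map_sub, DD_mul, DD_expA, DD_CM hA, DD_CM hA', sub_mul, smul_mul_assoc]
    generalize ((m.factorial : ℂ)⁻¹) • (DD (nu1 A A') * nu1 A A' ^ m * A) = R
    rw [DD_nu1]
    ring
  intro n
  induction n using Nat.strong_induction_on with
  | _ n ih =>
    intro hn
    obtain ⟨hn1, hn2⟩ := Finset.mem_Icc.1 hn
    rcases hn1.eq_or_lt with rfl | hn1
    · rw [mul_apply_one, expA_one (nu1_one A A'), hA.one, hA'.one, one_mul]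
    have h2 : (n : ℝ) < z * z ^ m := by
      rw [← pow_succ']
      exact lt_of_le_of_lt (by exact_mod_cast hn2)
        (hN.trans_le (pow_le_pow_right₀ hz (Nat.succ_le_succ hm)))
    have h3 := congrArg (fun f : ArithmeticFunction ℂ => f n) h1
    simp only
      [DD_apply, sub_app _ (_ • _), smul_map, hR.eq_zero h2, smul_zero, sub_zero] at h3
    have h4 : (LA A' * (expA m (nu1 A A') * A - A')) n = 0 := by
      by_contra h
      obtain ⟨a, b, rfl, h0, ha, hb⟩ := exists_of_mul h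
      have ha1 : 1 < a := by
        refine (vonMangoldt_ne_zero_iff.1 fun h' => ha ?_).one_lt
        rw [LA_apply, h', ofReal_zero, zero_mul]
      have hb0 : 0 < b := Nat.pos_of_ne_zero (right_ne_zero_of_mul h0)
      have hb1 : b < a * b := lt_mul_of_one_lt_left hb0 ha1
      exact hb (by rw [sub_app, ih b hb1 (Finset.mem_Icc.2 ⟨hb0, by omega⟩), sub_self])
    have h5 : ((Real.log n : ℝ) : ℂ) ≠ 0 :=
      ofReal_ne_zero.2 (Real.log_pos (by exact_mod_cast hn1)).ne'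
    rw [h4, mul_eq_zero, sub_app] at h3
    exact sub_eq_zero.1 (h3.resolve_left h5)

theorem ExpAAux.split (m : ℕ) (A A' ν μ : ArithmeticFunction ℂ) : expA m ν * A - A' =
    ∑ j ∈ Finset.range m, (((j + 1).factorial : ℂ)⁻¹) • (ν - μ) ^ (j + 1) * A' +
    ∑ j ∈ Finset.range (m + 1),
      ((j.factorial : ℂ)⁻¹) • (ν - μ) ^ j * (expA (m - j) μ * A - A') := by
  have h := expA_add m μ (ν - μ)
  rw [add_sub_cancel] at h
  simp only [mul_sub, Finset.sum_sub_distrib, ← mul_assoc]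
  rw [← Finset.sum_mul (Finset.range (m + 1)) _ A, ← h, Finset.sum_range_succ']
  simp only [Nat.factorial_zero, Nat.cast_one, inv_one, pow_zero, one_smul, one_mul]
  ring

theorem l2_main (hA : CM A) (hA' : CM A') (hn : ∀ n, ‖A' n‖ = ‖A n‖) (hz : 1 ≤ z)
    (hr : ∀ n, A n ≠ 0 → ∀ p ∈ n.primeFactors, z ≤ p) (hN : (N : ℝ) < z ^ (K + 1)) (hν : PP ν)
    (h1 : 2 * (K + 1) * wn N (nu1 A A') ≤ σ1 ^ 2) (hσ1 : 1 ≤ σ1)
    (h2 : 2 * (K + 1) * wn N (ν - nu1 A A') ≤ σ ^ 2) (hσ0 : 0 ≤ σ) (hσ : σ ≤ 1 / 2)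
    (hm : K ≤ m) :
    √(nsq N (expA m ν * A - A')) ≤
      (2 * σ + (K + 1) * σ1 ^ K * 2 ^ K / 2 ^ m) * √(nsq N A) := by
  have rA : Ro z A := hr
  have rA' : Ro z A' := fun n h => hr n fun h' => h (by simpa [h'] using hn n)
  have rν : Ro z (nu1 A A') := fun n h => hr n (nu1_ne hn h)
  have sν : ∀ q, nu1 A A' q ≠ 0 → z ≤ q := fun q hq => rν.le hq (nu1_pp A A' q hq).ne_one
  have pe : PP (ν - nu1 A A') := fun q hq => by
    by_cases h : ν q = 0
    · exact nu1_pp A A' q fun h' => hq (by rw [sub_app, h, h', sub_zero])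
    · exact hν q h
  have eA : nsq N A' = nsq N A := Finset.sum_congr rfl fun n _ => by rw [hn]
  have a0 : 0 ≤ √(nsq N A) := Real.sqrt_nonneg _
  have s0 : 1 ≤ σ1 ^ K := one_le_pow₀ hσ1
  have b1 : ∀ j, √(nsq N ((((j + 1).factorial : ℂ)⁻¹) • (ν - nu1 A A') ^ (j + 1) * A')) ≤
      σ ^ (j + 1) * √(nsq N A) := fun j => eA ▸ create_pow pe (rA'.card hz hN) hσ0 h2 (j + 1)
  have b2 : ∀ i, i < K → √(nsq N (expA i (nu1 A A') * A - A')) ≤
      (K + 1) * σ1 ^ K * √(nsq N A) := fun i hi => by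
    refine (sqrt_nsq_sub _ _ _).trans ?_
    rw [eA, expA, Finset.sum_mul]
    have h3 := (sqrt_nsq_sum N _ _).trans (Finset.sum_le_card_nsmul (Finset.range (i + 1))
      (fun k => √(nsq N (((k.factorial : ℂ)⁻¹) • nu1 A A' ^ k * A))) (σ1 ^ K * √(nsq N A))
      fun k hk => (create_pow (nu1_pp A A') (rA.card hz hN) (by linarith) h1 k).trans
        (mul_le_mul_of_nonneg_right (pow_le_pow_right₀ hσ1
          (by have := Finset.mem_range.1 hk; omega)) a0))
    rw [Finset.card_range, nsmul_eq_mul] at h3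
    have h4 : ((i + 1 : ℕ) : ℝ) ≤ K := by exact_mod_cast hi
    have h5 := mul_le_mul_of_nonneg_right h4 (mul_nonneg (by linarith : 0 ≤ σ1 ^ K) a0)
    have h6 := mul_le_mul_of_nonneg_right s0 a0
    linarith
  have b3 : ∀ j ∈ Finset.range (m + 1), √(nsq N (((j.factorial : ℂ)⁻¹) • (ν - nu1 A A') ^ j *
      (expA (m - j) (nu1 A A') * A - A'))) ≤
      (if j ≤ m - K then (0 : ℝ) else (1 / 2) ^ j) * ((K + 1) * σ1 ^ K * √(nsq N A)) := by
    intro j hj
    refine (create_pow pe ((((rν.exp _).mul rA).sub rA').card hz hN) hσ0 h2 j).trans ?_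
    split_ifs with h
    · have h3 : nsq N (expA (m - j) (nu1 A A') * A - A') = 0 :=
        Finset.sum_eq_zero fun n hn' => by
          rw [sub_app, expA_nu1 hA hA' hz sν hN (by omega) n hn', sub_self]
          simp
      rw [h3, Real.sqrt_zero, mul_zero, zero_mul]
    · have := Finset.mem_range.1 hj
      exact mul_le_mul (pow_le_pow_left₀ hσ0 hσ j) (b2 _ (by omega)) (Real.sqrt_nonneg _)
        (by positivity)
  rw [ExpAAux.split m A A' ν (nu1 A A')]
  refine (sqrt_nsq_add _ _ _).trans ?_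
  have c1 := (sqrt_nsq_sum N (Finset.range m) _).trans (Finset.sum_le_sum fun j _ => b1 j)
  have c2 := (sqrt_nsq_sum N _ _).trans (Finset.sum_le_sum b3)
  have c3 := mul_le_mul_of_nonneg_right (geom hσ0 hσ m) a0
  have c4 := mul_le_mul_of_nonneg_right (geom_tail hm)
    (by positivity : 0 ≤ ((K : ℝ) + 1) * σ1 ^ K * √(nsq N A))
  rw [Finset.sum_mul] at c3 c4
  refine (add_le_add (c1.trans c3) (c2.trans c4)).trans (le_of_eq ?_)
  ring

theorem l1_main (hA : CM A) (hA' : CM A') (hn : ∀ n, ‖A' n‖ = ‖A n‖) (hz : 1 ≤ z)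
    (hr : ∀ n, A n ≠ 0 → ∀ p ∈ n.primeFactors, z ≤ p) (hN : (N : ℝ) < z ^ (K + 1)) (hν : ν 1 = 0)
    (h2 : ∑ q ∈ Finset.Icc 1 N, ‖(ν q - nu1 A A' q) * A q‖ ≤ σ) (hσ : σ ≤ 1 / 2)
    (hm : 2 * K ≤ m) :
    ∑ n ∈ Finset.Icc 1 N, ‖((expA m ν * A) n - A' n) * A n‖ ≤ 2 * σ * nsq N A := by
  have rA : Ro z A := hr
  have rν : Ro z (nu1 A A') := fun n h => hr n (nu1_ne hn h)
  have sν : ∀ q, nu1 A A' q ≠ 0 → z ≤ q := fun q hq => rν.le hq (nu1_pp A A' q hq).ne_one
  have hσ0 : 0 ≤ σ := (Finset.sum_nonneg fun _ _ => norm_nonneg _).trans h2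
  have se : ∀ q, tw hA (ν - nu1 A A') q ≠ 0 → z ≤ q := fun q hq => by
    refine rA.le (right_ne_zero_of_mul hq) ?_
    rintro rfl
    exact hq (by rw [tw_apply, sub_app, hν, nu1_one, sub_zero, zero_mul])
  have le : ∑ q ∈ Finset.Icc 1 N, ‖tw hA (ν - nu1 A A') q‖ ≤ σ := by
    simpa only [tw_apply, sub_app] using h2
  have eA : ∑ n ∈ Finset.Icc 1 N, ‖tw hA A' n‖ = nsq N A :=
    Finset.sum_congr rfl fun n _ => by rw [tw_apply, norm_mul, hn, sq]
  have key : ∀ n ∈ Finset.Icc 1 N, ((expA m ν * A) n - A' n) * A n =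
      ∑ j ∈ Finset.range m,
        (((j + 1).factorial : ℂ)⁻¹) * (tw hA (ν - nu1 A A') ^ (j + 1) * tw hA A') n := by
    intro n hn'
    rw [← sub_app, ExpAAux.split m A A' ν (nu1 A A'), ArithmeticFunction.add_apply, sum_app, sum_app, add_mul,
      Finset.sum_mul, Finset.sum_mul, Finset.sum_eq_zero (s := Finset.range (m + 1)), add_zero]
    · refine Finset.sum_congr rfl fun j _ => ?_
      rw [← map_pow, ← map_mul, tw_apply, smul_mul_assoc, smul_map, smul_eq_mul, mul_assoc]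
    · intro j _
      rw [smul_mul_assoc, smul_map, smul_eq_mul, mul_assoc]
      refine mul_eq_zero_of_right _ ?_
      by_cases h : j ≤ K
      · rw [mul_congr (g' := 0) _ (fun b hb => by
          rw [sub_app, expA_nu1 hA hA' hz sν hN (by omega) b hb, sub_self, ArithmeticFunction.zero_apply]) n hn',
          mul_zero, ArithmeticFunction.zero_apply, zero_mul]
      · rw [← tw_apply hA, map_mul, map_pow]
        exact pow_mul_eq_zero hz se j _ (lt_of_le_of_lt
          (by exact_mod_cast (Finset.mem_Icc.1 hn').2)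
          (hN.trans_le (pow_le_pow_right₀ hz (by omega))))
  have c1 : ∑ n ∈ Finset.Icc 1 N, ‖((expA m ν * A) n - A' n) * A n‖ ≤
      ∑ n ∈ Finset.Icc 1 N, ∑ j ∈ Finset.range m,
        ‖(tw hA (ν - nu1 A A') ^ (j + 1) * tw hA A') n‖ := by
    refine Finset.sum_le_sum fun n hn' => ?_
    rw [key n hn']
    refine (norm_sum_le _ _).trans (Finset.sum_le_sum fun j _ => ?_)
    rw [norm_mul, norm_inv, Complex.norm_natCast]
    refine mul_le_of_le_one_left (norm_nonneg _) (inv_le_one_of_one_le₀ ?_)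
    exact_mod_cast Nat.factorial_pos (j + 1)
  rw [Finset.sum_comm] at c1
  have c2 := c1.trans (Finset.sum_le_sum fun j _ => l1_pow le (tw hA A') (j + 1))
  rw [← Finset.sum_mul, eA] at c2
  exact c2.trans (mul_le_mul_of_nonneg_right (geom hσ0 hσ m) (nsq_nonneg N A))

end Pool.Agent.P.MP_7eacff_nt.Rig
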