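import Pool.Agent.P.MP_7eacff_nt.Rig.Defs

/-!
Equidistribution on the logarithmic scale of completely multiplicative weights.
-/

open Complex Filter Topology MeasureTheory Set ArithmeticFunction
open scoped Real ENNReal ComplexConjugate

namespace Pool.Agent.P.MP_7eacff_nt.Rig

theorem sum_mul_log {g : ℕ → ℝ} (hg : ∀ m n, m ≠ 0 → n ≠ 0 → g (m * n) = g m * g n) (N : ℕ)
    (ψ : ℕ → ℂ) : ∑ n ∈ Finset.Icc 1 N, (g n * Real.log n : ℝ) * ψ n =
      ∑ m ∈ Finset.Icc 1 N, ∑ k ∈ Finset.Icc 1 (N / m),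
        (g m * (vonMangoldt k * g k) : ℝ) * ψ (m * k) := by
  have e : ∀ n ∈ Finset.Icc 1 N, ((g n * Real.log n : ℝ) : ℂ) * ψ n =
      ∑ p ∈ n.divisorsAntidiagonal, ((g p.1 * (vonMangoldt p.2 * g p.2) : ℝ) : ℂ) *
        ψ (p.1 * p.2) := fun n _ => by
    rw [← vonMangoldt_sum, ← Nat.sum_divisorsAntidiagonal' (fun _ k => vonMangoldt k),
      Finset.mul_sum, Complex.ofReal_sum, Finset.sum_mul]
    refine Finset.sum_congr rfl fun p hp => ?_
    obtain ⟨h1, h2⟩ := Nat.mem_divisorsAntidiagonal.1 hp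
    rw [← h1] at h2
    rw [← h1, hg _ _ (left_ne_zero_of_mul h2) (right_ne_zero_of_mul h2)]
    congr 2
    ring
  rw [Finset.sum_congr rfl e, Finset.sum_sigma', Finset.sum_sigma']
  refine Finset.sum_nbij' (fun x => ⟨x.2.1, x.2.2⟩) (fun x => ⟨x.1 * x.2, (x.1, x.2)⟩) ?_ ?_ ?_ ?_
    fun _ _ => rfl
  · rintro ⟨n, m, k⟩ hx
    simp only [Finset.mem_sigma, Finset.mem_Icc, Nat.mem_divisorsAntidiagonal] at hx ⊢
    obtain ⟨⟨-, h2⟩, h3, h4⟩ := hx
    subst h3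
    have hm := Nat.pos_of_ne_zero (left_ne_zero_of_mul h4)
    have hk := Nat.pos_of_ne_zero (right_ne_zero_of_mul h4)
    exact ⟨⟨hm, (Nat.le_mul_of_pos_right m hk).trans h2⟩, hk,
      (Nat.le_div_iff_mul_le hm).2 (by rwa [mul_comm])⟩
  · rintro ⟨m, k⟩ hx
    simp only [Finset.mem_sigma, Finset.mem_Icc, Nat.mem_divisorsAntidiagonal] at hx ⊢
    obtain ⟨⟨h1, -⟩, h3, h4⟩ := hx
    have hp : 0 < m * k := Nat.mul_pos h1 h3
    exact ⟨⟨hp, by rw [mul_comm]; exact (Nat.le_div_iff_mul_le h1).1 h4⟩, trivial, hp.ne'⟩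
  · rintro ⟨n, m, k⟩ hx
    simp only [Finset.mem_sigma, Nat.mem_divisorsAntidiagonal] at hx
    obtain ⟨-, h3, -⟩ := hx
    subst h3
    rfl
  · rintro ⟨m, k⟩ _
    rfl

theorem LF_sum_real {g : ℕ → ℝ} (hg : ∀ m n, m ≠ 0 → n ≠ 0 → g (m * n) = g m * g n) (N : ℕ)
    (ψ : ℕ → ℝ) : ∑ n ∈ Finset.Icc 1 N, g n * Real.log n * ψ n =
      ∑ m ∈ Finset.Icc 1 N, ∑ k ∈ Finset.Icc 1 (N / m),
        g m * (vonMangoldt k * g k) * ψ (m * k) := by
  have h := sum_mul_log hg N fun n => (ψ n : ℂ)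
  exact_mod_cast h

theorem LF_scale {ι : Type*} (S : Finset ι) (w x : ι → ℝ) {z ε α : ℝ} (β : ℝ) (hz : 0 ≤ z)
    (hα : 0 ≤ α) (hx : ∀ k ∈ S, x k ∈ Icc (0 : ℝ) z)
    (h : ∀ y ∈ Icc (0 : ℝ) z, |∑ k ∈ S, (if x k ≤ y then w k else 0) - y| ≤ ε) :
    |α * ∑ k ∈ S, w k * Real.sin (α * (β + x k)) -
      (Real.cos (α * β) - Real.cos (α * (β + z)))| ≤ ε * (α + α ^ 2 * z) := by
  rcases hz.eq_or_lt with rfl | hz
  · have h0 := h 0 ⟨le_rfl, le_rfl⟩
    have e : ∑ k ∈ S, w k * Real.sin (α * (β + x k)) =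
        (∑ k ∈ S, (if x k ≤ 0 then w k else 0) - 0) * Real.sin (α * β) := by
      rw [sub_zero, Finset.sum_mul]
      refine Finset.sum_congr rfl fun k hk => ?_
      rw [if_pos (hx k hk).2, le_antisymm (hx k hk).2 (hx k hk).1, add_zero]
    rw [e, add_zero, sub_self, sub_zero, mul_zero, add_zero, abs_mul, abs_mul, abs_of_nonneg hα,
      mul_comm ε]
    exact mul_le_mul_of_nonneg_left ((mul_le_of_le_one_right (abs_nonneg _)
      (Real.abs_sin_le_one _)).trans h0) hα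
  have hε : 0 ≤ ε := (abs_nonneg _).trans (h 0 ⟨le_rfl, hz.le⟩)
  have hd : ∀ t : ℝ, HasDerivAt (fun t : ℝ => α * (β + z * t)) (α * z) t := fun t => by
    simpa using (((hasDerivAt_id t).const_mul z).const_add β).const_mul α
  have key := abs_sum_sub_integral_le S (fun k => w k / z) (fun k => x k / z)
    (F := fun t => α * z * Real.sin (α * (β + z * t))) (by fun_prop)
    (fun k hk => ⟨div_nonneg (hx k hk).1 hz.le, (div_le_one hz).2 (hx k hk).2⟩) (ε := ε / z)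
    (fun y hy => by
      have h1 := h (y * z) ⟨mul_nonneg hy.1 hz.le, mul_le_of_le_one_left hz.le hy.2⟩
      have e : ∑ k ∈ S, (if x k / z ≤ y then w k / z else 0) - y =
          (∑ k ∈ S, (if x k ≤ y * z then w k else 0) - y * z) / z := by
        rw [sub_div, Finset.sum_div, mul_div_cancel_right₀ _ hz.ne']
        congr 1
        refine Finset.sum_congr rfl fun k _ => ?_
        simp only [div_le_iff₀ hz]
        split_ifs <;> simp
      rw [e, abs_div, abs_of_pos hz]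
      exact div_le_div_of_nonneg_right h1 hz.le)
  have e1 : ∑ k ∈ S, w k / z * (α * z * Real.sin (α * (β + z * (x k / z)))) =
      α * ∑ k ∈ S, w k * Real.sin (α * (β + x k)) := by
    rw [Finset.mul_sum]
    refine Finset.sum_congr rfl fun k _ => ?_
    rw [mul_div_cancel₀ _ hz.ne']
    field_simp
  have e2 : ∫ t in (0 : ℝ)..1, α * z * Real.sin (α * (β + z * t)) =
      Real.cos (α * β) - Real.cos (α * (β + z)) := by
    rw [intervalIntegral.integral_eq_sub_of_hasDerivAt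
      (f := fun t => -Real.cos (α * (β + z * t)))
      (fun t _ => ((hd t).cos.neg).congr_deriv (by ring))
      (Continuous.intervalIntegrable (by fun_prop) _ _)]
    simp only [mul_one, mul_zero, add_zero]
    ring
  have hαz : 0 ≤ α * z := mul_nonneg hα hz.le
  have e3 : |α * z * Real.sin (α * (β + z * 1))| ≤ α * z := by
    rw [abs_mul, abs_of_nonneg hαz]
    exact mul_le_of_le_one_right hαz (Real.abs_sin_le_one _)
  have e4 : ∫ u in (0 : ℝ)..1, |deriv (fun t => α * z * Real.sin (α * (β + z * t))) u| ≤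
      (α * z) ^ 2 := by
    have hb := intervalIntegral.norm_integral_le_of_norm_le_const (a := 0) (b := 1)
      (f := fun u => |deriv (fun t => α * z * Real.sin (α * (β + z * t))) u|) (C := (α * z) ^ 2)
      fun u _ => by
        rw [((hd u).sin.const_mul (α * z)).deriv, Real.norm_eq_abs, abs_abs, abs_mul (α * z),
          abs_mul _ (α * z), abs_of_nonneg hαz, sq]
        exact mul_le_mul_of_nonneg_left
          (mul_le_of_le_one_left hαz (Real.abs_cos_le_one _)) hαz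
    rw [sub_zero, abs_one, mul_one] at hb
    exact (le_abs_self _).trans hb
  rw [e1, e2] at key
  refine key.trans ((mul_le_mul_of_nonneg_left (add_le_add e3 e4)
    (div_nonneg hε hz.le)).trans (le_of_eq ?_))
  field_simp

theorem LF_le_iff {T y : ℝ} (hT : 1 < T) {k : ℕ} (hk : 1 ≤ k) : uu T k ≤ y ↔ k ≤ ⌊T ^ y⌋₊ := by
  have h0 : 0 < T := zero_lt_one.trans hT
  rw [div_le_iff₀ (Real.log_pos hT), Nat.le_floor_iff (Real.rpow_nonneg h0.le _),
    Real.le_rpow_iff_log_le (by exact_mod_cast hk) h0]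

theorem LF_uu_nonneg {T : ℝ} (hT : 1 < T) (k : ℕ) : 0 ≤ uu T k :=
  div_nonneg (Real.log_natCast_nonneg k) (Real.log_pos hT).le

theorem LF_floor {T : ℝ} (hT : 1 < T) (θ : ℝ) {m : ℕ} (hm : 1 ≤ m) :
    ⌊T ^ (θ - uu T m)⌋₊ = ⌊T ^ θ⌋₊ / m := by
  have h0 : 0 < T := zero_lt_one.trans hT
  have hm0 : (0 : ℝ) < m := by exact_mod_cast hm
  have e : T ^ uu T m = m := Real.rpow_logb h0 hT.ne' hm0
  rw [Real.rpow_sub h0, e, Nat.floor_div_natCast]

theorem LF_deriv {g : ℕ → ℝ} (h0 : ∀ n, 0 ≤ g n)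
    (hg : ∀ m n, m ≠ 0 → n ≠ 0 → g (m * n) = g m * g n) {T θ e α : ℝ} (hT : 1 < T)
    (hθ1 : θ ≤ 1) (hα : 0 ≤ α) (hα4 : α ≤ 4) (he : 0 ≤ e)
    (h : ∀ x ∈ Icc (0 : ℝ) θ,
      |∑ k ∈ Finset.Icc 1 ⌊T ^ x⌋₊, vonMangoldt k * g k / Real.log T - x| ≤ e) :
    |∑ n ∈ Finset.Icc 1 ⌊T ^ θ⌋₊, g n * (Real.cos (α * uu T n) -
      α * uu T n * Real.sin (α * uu T n) - Real.cos (α * θ))| ≤
      20 * e * ∑ n ∈ Finset.Icc 1 ⌊T ^ θ⌋₊, g n := by
  have hL := Real.log_pos hT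
  have hs := LF_sum_real hg ⌊T ^ θ⌋₊ fun n => α / Real.log T * Real.sin (α * uu T n)
  have e1 : ∑ n ∈ Finset.Icc 1 ⌊T ^ θ⌋₊, g n * (Real.cos (α * uu T n) -
      α * uu T n * Real.sin (α * uu T n) - Real.cos (α * θ)) =
      -∑ m ∈ Finset.Icc 1 ⌊T ^ θ⌋₊, g m * (α * ∑ k ∈ Finset.Icc 1 ⌊T ^ (θ - uu T m)⌋₊,
        vonMangoldt k * g k / Real.log T * Real.sin (α * (uu T m + uu T k)) -
        (Real.cos (α * uu T m) - Real.cos (α * (uu T m + (θ - uu T m))))) := by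
    have e2 : ∀ m ∈ Finset.Icc 1 ⌊T ^ θ⌋₊, ∑ k ∈ Finset.Icc 1 (⌊T ^ θ⌋₊ / m),
        g m * (vonMangoldt k * g k) * (α / Real.log T * Real.sin (α * uu T (m * k))) =
        g m * (α * ∑ k ∈ Finset.Icc 1 ⌊T ^ (θ - uu T m)⌋₊,
          vonMangoldt k * g k / Real.log T * Real.sin (α * (uu T m + uu T k))) := by
      intro m hm
      have hm1 := (Finset.mem_Icc.1 hm).1
      rw [LF_floor hT θ hm1, Finset.mul_sum, Finset.mul_sum]
      refine Finset.sum_congr rfl fun k hk => ?_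
      have hk1 := (Finset.mem_Icc.1 hk).1
      have e3 : uu T (m * k) = uu T m + uu T k := by
        unfold uu
        rw [Nat.cast_mul, Real.log_mul (by positivity) (by positivity), add_div]
      rw [e3]
      ring
    rw [Finset.sum_congr rfl e2] at hs
    simp only [mul_sub, add_sub_cancel, Finset.sum_sub_distrib]
    rw [← hs]
    have e4 : ∑ n ∈ Finset.Icc 1 ⌊T ^ θ⌋₊, g n * (α * uu T n * Real.sin (α * uu T n)) =
        ∑ n ∈ Finset.Icc 1 ⌊T ^ θ⌋₊,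
          g n * Real.log n * (α / Real.log T * Real.sin (α * uu T n)) :=
      Finset.sum_congr rfl fun n _ => by unfold uu; ring
    rw [e4]
    ring
  rw [e1, abs_neg, Finset.mul_sum]
  refine (Finset.abs_sum_le_sum_abs _ _).trans (Finset.sum_le_sum fun m hm => ?_)
  obtain ⟨hm1, hm2⟩ := Finset.mem_Icc.1 hm
  have hz : 0 ≤ θ - uu T m := sub_nonneg.2 ((LF_le_iff hT hm1).2 hm2)
  have hz1 : θ - uu T m ≤ θ := sub_le_self _ (LF_uu_nonneg hT m)
  have key := LF_scale (Finset.Icc 1 ⌊T ^ (θ - uu T m)⌋₊)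
    (fun k => vonMangoldt k * g k / Real.log T) (fun k => uu T k) (ε := e) (uu T m) hz hα
    (fun k hk => ⟨LF_uu_nonneg hT k,
      (LF_le_iff hT (Finset.mem_Icc.1 hk).1).2 (Finset.mem_Icc.1 hk).2⟩)
    (fun y hy => by
      have e5 : (Finset.Icc 1 ⌊T ^ (θ - uu T m)⌋₊).filter (fun k => uu T k ≤ y) =
          Finset.Icc 1 ⌊T ^ y⌋₊ := by
        ext k
        simp only [Finset.mem_filter, Finset.mem_Icc]
        refine ⟨fun hk => ⟨hk.1.1, (LF_le_iff hT hk.1.1).1 hk.2⟩, fun hk => ?_⟩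
        have h1 := (LF_le_iff hT hk.1).2 hk.2
        exact ⟨⟨hk.1, (LF_le_iff hT hk.1).1 (h1.trans hy.2)⟩, h1⟩
      rw [← Finset.sum_filter, e5]
      exact h y ⟨hy.1, hy.2.trans hz1⟩)
  rw [abs_mul, abs_of_nonneg (h0 m), mul_comm (20 * e)]
  refine mul_le_mul_of_nonneg_left (key.trans ?_) (h0 m)
  have h1 : α ^ 2 * (θ - uu T m) ≤ 16 :=
    (mul_le_of_le_one_right (sq_nonneg α) (hz1.trans hθ1)).trans (by nlinarith only [hα, hα4])
  rw [mul_comm 20 e]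
  exact mul_le_mul_of_nonneg_left (by linarith only [h1, hα4]) he

theorem lf_cos {g : ℕ → ℝ} (h0 : ∀ n, 0 ≤ g n)
    (hg : ∀ m n, m ≠ 0 → n ≠ 0 → g (m * n) = g m * g n) {T θ c e : ℝ} (hT : 1 < T) (hθ : 0 < θ)
    (hθ1 : θ ≤ 1) (hc : 0 < c) (hc1 : c ≤ 1 / 2)
    (h : ∀ x ∈ Icc (0 : ℝ) θ,
      |∑ k ∈ Finset.Icc 1 ⌊T ^ x⌋₊, vonMangoldt k * g k / Real.log T - x| ≤ e) :
    (∑ n ∈ Finset.Icc 1 ⌊T ^ θ⌋₊, (g n : ℂ) * ee (-(c * uu T n))).re ≤
      (Real.sin (2 * π * c * θ) / (2 * π * c * θ) + 30 * e) *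
        ∑ n ∈ Finset.Icc 1 ⌊T ^ θ⌋₊, g n := by
  have he : 0 ≤ e := (abs_nonneg _).trans (h 0 ⟨le_rfl, hθ.le⟩)
  have hκ : 0 < 2 * π * c := by positivity
  have hκ4 : 2 * π * c ≤ 4 := by nlinarith only [Real.pi_le_four, Real.pi_pos, hc1]
  have hre : (∑ n ∈ Finset.Icc 1 ⌊T ^ θ⌋₊, (g n : ℂ) * ee (-(c * uu T n))).re =
      ∑ n ∈ Finset.Icc 1 ⌊T ^ θ⌋₊, g n * Real.cos (2 * π * c * uu T n) := by
    rw [Complex.re_sum]
    refine Finset.sum_congr rfl fun n _ => ?_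
    rw [Complex.re_ofReal_mul, ee, Complex.exp_ofReal_mul_I_re, mul_neg, Real.cos_neg, mul_assoc,
      mul_assoc, mul_assoc]
  rw [hre]
  generalize 2 * π * c = κ at hκ hκ4 ⊢
  have hd : ∀ (a r : ℝ), HasDerivAt (fun r : ℝ => κ * r * a) (κ * a) r := fun a r => by
    simpa using ((hasDerivAt_id r).const_mul κ).mul_const a
  have hD : ∀ r : ℝ, HasDerivAt (fun r : ℝ => ∑ n ∈ Finset.Icc 1 ⌊T ^ θ⌋₊,
      g n * (r * Real.cos (κ * r * uu T n) - Real.sin (κ * r * θ) / (κ * θ)))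
      (∑ n ∈ Finset.Icc 1 ⌊T ^ θ⌋₊, g n * (Real.cos (κ * r * uu T n) -
        κ * r * uu T n * Real.sin (κ * r * uu T n) - Real.cos (κ * r * θ))) r := fun r => by
    refine HasDerivAt.fun_sum fun n _ => HasDerivAt.const_mul _ ?_
    refine (((hasDerivAt_id' r).fun_mul (hd _ r).cos).fun_sub
      ((hd θ r).sin.div_const _)).congr_deriv ?_
    field_simp
    ring
  have hm := norm_image_sub_le_of_norm_deriv_le_segment_01' (fun r _ => (hD r).hasDerivWithinAt)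
    (C := 20 * e * ∑ n ∈ Finset.Icc 1 ⌊T ^ θ⌋₊, g n) fun r hr =>
      LF_deriv h0 hg hT hθ1 (mul_nonneg hκ.le hr.1)
        ((mul_le_of_le_one_right hκ.le hr.2.le).trans hκ4) he h
  simp only [mul_one, one_mul, mul_zero, zero_mul, Real.sin_zero, zero_div, sub_zero,
    Finset.sum_const_zero, mul_sub, Finset.sum_sub_distrib, ← Finset.sum_mul] at hm
  have h2 := (le_abs_self _).trans hm
  have h3 : 0 ≤ e * ∑ n ∈ Finset.Icc 1 ⌊T ^ θ⌋₊, g n :=
    mul_nonneg he (Finset.sum_nonneg fun n _ => h0 n)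
  linarith only [h2, h3]

theorem LF_mertens {x x' : ℝ} (hx : 0 < x) (hx' : 1 ≤ x') (hxx : x ≤ x') :
    ∑ k ∈ Finset.Ioc ⌊x⌋₊ ⌊x'⌋₊, vonMangoldt k / (k : ℝ) ≤ Real.log x' - Real.log x + 12 := by
  have h4 : Real.log 4 ≤ 2 := by
    have h : Real.log 4 = 2 * Real.log 2 := by
      rw [show (4 : ℝ) = 2 ^ 2 by norm_num, Real.log_pow]; norm_num
    linarith [Real.log_two_lt_d9]
  have h1 := (abs_le.1 (Pool.Agent.Lib.Mertens.abs_sum_vonMangoldt_div_sub_log_le hx')).2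
  have h2 : Real.log x - 6 ≤ ∑ k ∈ Finset.Ioc 0 ⌊x⌋₊, vonMangoldt k / (k : ℝ) := by
    rcases le_or_gt 1 x with h | h
    · linarith [(abs_le.1 (Pool.Agent.Lib.Mertens.abs_sum_vonMangoldt_div_sub_log_le h)).1]
    · have h5 : 0 ≤ ∑ k ∈ Finset.Ioc 0 ⌊x⌋₊, vonMangoldt k / (k : ℝ) :=
        Finset.sum_nonneg fun k _ => div_nonneg vonMangoldt_nonneg (Nat.cast_nonneg k)
      linarith [Real.log_neg hx h]
  have h3 := Finset.sum_Ioc_consecutive (fun k : ℕ => vonMangoldt k / (k : ℝ))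
    (Nat.zero_le ⌊x⌋₊) (Nat.floor_le_floor hxx)
  linarith

theorem window_mass {g : ℕ → ℝ} (h0 : ∀ n, 0 ≤ g n) (h1 : ∀ n, n ≠ 0 → g n ≤ 1 / n)
    (hg : ∀ m n, m ≠ 0 → n ≠ 0 → g (m * n) = g m * g n) {T θ θ' : ℝ} (hT : 1 < T) (hθ : 0 < θ)
    (hθ' : θ ≤ θ') : ∑ n ∈ Finset.Ioc ⌊T ^ θ⌋₊ ⌊T ^ θ'⌋₊, g n ≤
      (θ' - θ + 12 / Real.log T) / θ * ∑ n ∈ Finset.Icc 1 ⌊T ^ θ'⌋₊, g n := by
  have hL := Real.log_pos hT
  have hT0 : 0 < T := zero_lt_one.trans hT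
  have hle : T ^ θ ≤ T ^ θ' := Real.rpow_le_rpow_of_exponent_le hT.le hθ'
  have hs := LF_sum_real hg ⌊T ^ θ'⌋₊ fun n => if ⌊T ^ θ⌋₊ < n then 1 else 0
  have a1 : θ * Real.log T * ∑ n ∈ Finset.Ioc ⌊T ^ θ⌋₊ ⌊T ^ θ'⌋₊, g n ≤
      ∑ n ∈ Finset.Icc 1 ⌊T ^ θ'⌋₊, g n * Real.log n * if ⌊T ^ θ⌋₊ < n then 1 else 0 := by
    have e : (Finset.Icc 1 ⌊T ^ θ'⌋₊).filter (fun n => ⌊T ^ θ⌋₊ < n) =
        Finset.Ioc ⌊T ^ θ⌋₊ ⌊T ^ θ'⌋₊ := by
      ext n
      simp only [Finset.mem_filter, Finset.mem_Icc, Finset.mem_Ioc]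
      omega
    simp only [mul_ite, mul_one, mul_zero]
    rw [← Finset.sum_filter, e, Finset.mul_sum]
    refine Finset.sum_le_sum fun n hn => ?_
    have h2 := (Finset.mem_Ioc.1 hn).1
    have h3 : ¬ uu T n ≤ θ := fun h => absurd ((LF_le_iff hT (by omega)).1 h) (by omega)
    rw [mul_comm]
    exact mul_le_mul_of_nonneg_left ((lt_div_iff₀ hL).1 (not_le.1 h3)).le (h0 n)
  have a2 : ∀ m ∈ Finset.Icc 1 ⌊T ^ θ'⌋₊, ∑ k ∈ Finset.Icc 1 (⌊T ^ θ'⌋₊ / m),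
      g m * (vonMangoldt k * g k) * (if ⌊T ^ θ⌋₊ < m * k then 1 else 0) ≤
      ((θ' - θ) * Real.log T + 12) * g m := by
    intro m hm
    obtain ⟨hm1, hm2⟩ := Finset.mem_Icc.1 hm
    have hm0 : (0 : ℝ) < m := by exact_mod_cast hm1
    have hx' : 1 ≤ T ^ θ' / m :=
      (one_le_div hm0).2 ((Nat.le_floor_iff (Real.rpow_nonneg hT0.le _)).1 hm2)
    have hme := LF_mertens (div_pos (Real.rpow_pos_of_pos hT0 θ) hm0) hx'
      (div_le_div_of_nonneg_right hle hm0.le)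
    rw [Nat.floor_div_natCast, Nat.floor_div_natCast,
      Real.log_div (Real.rpow_pos_of_pos hT0 _).ne' hm0.ne',
      Real.log_div (Real.rpow_pos_of_pos hT0 _).ne' hm0.ne', Real.log_rpow hT0,
      Real.log_rpow hT0] at hme
    have e : (Finset.Icc 1 (⌊T ^ θ'⌋₊ / m)).filter (fun k => ⌊T ^ θ⌋₊ < m * k) =
        Finset.Ioc (⌊T ^ θ⌋₊ / m) (⌊T ^ θ'⌋₊ / m) := by
      ext k
      simp only [Finset.mem_filter, Finset.mem_Icc, Finset.mem_Ioc, Nat.div_lt_iff_lt_mul hm1,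
        mul_comm k m]
      refine ⟨fun hk => ⟨hk.2, hk.1.2⟩, fun hk => ⟨⟨Nat.pos_of_ne_zero ?_, hk.2⟩, hk.1⟩⟩
      rintro rfl
      simp at hk
    simp only [mul_ite, mul_one, mul_zero]
    rw [← Finset.sum_filter, e, ← Finset.mul_sum, mul_comm]
    refine mul_le_mul_of_nonneg_right (le_trans (Finset.sum_le_sum fun k hk => ?_)
      (hme.trans (le_of_eq (by ring)))) (h0 m)
    have hk0 : k ≠ 0 := Nat.ne_zero_of_lt (Finset.mem_Ioc.1 hk).1
    rw [div_eq_mul_one_div]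
    exact mul_le_mul_of_nonneg_left (h1 k hk0) vonMangoldt_nonneg
  have a3 := a1.trans (hs.le.trans (Finset.sum_le_sum a2))
  rw [← Finset.mul_sum] at a3
  have e : (θ' - θ + 12 / Real.log T) / θ = ((θ' - θ) * Real.log T + 12) / (θ * Real.log T) := by
    field_simp
  rw [e, div_mul_eq_mul_div, le_div_iff₀ (mul_pos hθ hL), mul_comm]
  exact a3

end Pool.Agent.P.MP_7eacff_nt.Rig
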