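import Pool.Agent.P.MP_7eacff_nt.Rig.Eps
import Pool.Agent.P.MP_7eacff_nt.Rig.ExpA
import Pool.Agent.P.MP_7eacff_nt.Rig.LF

/-!
The arithmetic bounds for the defect.
-/

open Complex Filter Topology MeasureTheory Set ArithmeticFunction
open scoped Real ENNReal ComplexConjugate

namespace Pool.Agent.P.MP_7eacff_nt.Rig

namespace ARAux

theorem ph_eq (c : ℝ) : ph c = ee ((1 / 2 - c) / 2) := by
  have h : (((2 * π * ((1 / 2 - c) / 2) : ℝ) : ℂ) * I) = (π / 2 : ℂ) * I + -(π * c : ℝ) * I := by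
    push_cast; ring
  rw [ph, ee, h, Complex.exp_add, Complex.exp_pi_div_two_mul_I]

theorem norm_ph (c : ℝ) : ‖ph c‖ = 1 := by rw [ph_eq, norm_ee]

theorem norm_ph_sub {c β : ℝ} (h1 : 1 / 2 - β ≤ c) (h2 : c ≤ 1 / 2) : ‖ph c - 1‖ ≤ 4 * β := by
  have h := norm_ee_sub ((1 / 2 - c) / 2) 0
  rw [ee_zero, sub_zero, abs_of_nonneg (by linarith), ← ph_eq] at h
  have hπ := Real.pi_le_four
  have h0 : 0 ≤ 1 / 2 - c := by linarith
  have : 2 * π * ((1 / 2 - c) / 2) ≤ 4 * (1 / 2 - c) := by nlinarith only [hπ, h0]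
  linarith

theorem card_le {z : ℝ} (hz : 1 ≤ z) {n K : ℕ} (hn : n ≠ 0)
    (h : ∀ p ∈ n.primeFactors, z ≤ p) (hK : (n : ℝ) < z ^ (K + 1)) :
    n.primeFactors.card ≤ K := by
  by_contra hc
  have h1 : z ^ (K + 1) ≤ z ^ n.primeFactors.card := pow_le_pow_right₀ hz (by omega)
  have h2 : z ^ n.primeFactors.card ≤ ∏ p ∈ n.primeFactors, (p : ℝ) := by
    rw [← Finset.prod_const]
    exact Finset.prod_le_prod (fun _ _ => by linarith) h
  have h3 : ∏ p ∈ n.primeFactors, p ≤ n :=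
    Nat.le_of_dvd (Nat.pos_of_ne_zero hn) (Nat.prod_primeFactors_dvd n)
  have h4 : ∏ p ∈ n.primeFactors, (p : ℝ) ≤ n := by
    rw [← Nat.cast_prod]; exact Nat.cast_le.2 h3
  linarith

theorem sub_ap (f g : ArithmeticFunction ℂ) (n : ℕ) : (f - g) n = f n - g n := by
  rw [sub_eq_add_neg, ArithmeticFunction.add_apply, ArithmeticFunction.neg_apply, sub_eq_add_neg]

theorem af_apply (f : ℕ → ℂ) {n : ℕ} (hn : n ≠ 0) : af f n = f n := by simp [af, hn]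

theorem AF_apply (w : ℝ → ℝ) (T : ℝ) {n : ℕ} (hn : n ≠ 0) :
    AF w T n = (cm (aw w T) n : ℝ) := af_apply _ hn

theorem AF'_apply (w : ℝ → ℝ) (c T : ℝ) (n : ℕ) :
    AF' w c T n = AF w T n * ch n (c / lam T) := by
  rcases eq_or_ne n 0 with rfl | hn
  · simp
  · rw [AF_apply w T hn]; exact af_apply _ hn

theorem norm_AF' (w : ℝ → ℝ) (c T : ℝ) (n : ℕ) : ‖AF' w c T n‖ = ‖AF w T n‖ := by
  rw [AF'_apply, norm_mul, norm_ch, mul_one]

theorem AN_apply (b : ℕ) (w : ℝ → ℝ) (T : ℝ) (n : ℕ) :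
    AN b w T n = if n ∈ Nset b T then AF w T n else 0 := by
  rcases eq_or_ne n 0 with rfl | hn
  · simp
  · rw [AF_apply w T hn]; exact af_apply _ hn

theorem ch_eq {T : ℝ} (hT : 1 < T) (c : ℝ) (n : ℕ) : ch n (c / lam T) = ee (-(c * uu T n)) := by
  have hl : Real.log T ≠ 0 := (Real.log_pos hT).ne'
  have hπ : π ≠ 0 := Real.pi_ne_zero
  rw [ch]; congr 1; simp only [lam, uu]; field_simp

theorem nsq_AF (w : ℝ → ℝ) (T : ℝ) (N : ℕ) :
    nsq N (AF w T) = ∑ n ∈ Finset.Icc 1 N, cm (aw w T) n ^ 2 := by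
  refine Finset.sum_congr rfl fun n hn => ?_
  rw [AF_apply w T (by have := (Finset.mem_Icc.1 hn).1; omega), Complex.norm_real,
    Real.norm_eq_abs, sq_abs]

theorem uu_le {T θ : ℝ} (hT : 1 < T) {n : ℕ} (hn : n ≠ 0) (h : n ≤ ⌊T ^ θ⌋₊) : uu T n ≤ θ := by
  have hl := Real.log_pos hT
  have h0 : (0 : ℝ) < T := by linarith
  have h1 : (n : ℝ) ≤ T ^ θ :=
    le_trans (by exact_mod_cast h) (Nat.floor_le (Real.rpow_nonneg h0.le θ))
  have h2 := Real.log_le_log (by exact_mod_cast Nat.pos_of_ne_zero hn) h1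
  rw [Real.log_rpow h0] at h2
  rw [uu, div_le_iff₀ hl]
  exact h2

/-- Outside the support of the mollifier only large integers carry weight. -/
theorem lt_of_notMem {b : ℕ} {w : ℝ → ℝ} (hw : Wt b w) (hb : 4 ≤ b) {T : ℝ} (hT : 1 < T) {n : ℕ}
    (hn : n ≠ 0) (h0 : cm (aw w T) n ≠ 0) (h : n ∉ Nset b T) : ⌊T ^ (1 - 3 / (b : ℝ))⌋₊ < n := by
  by_contra hc
  exact h (hw.mem_Nset hb hT hn h0 (uu_le hT hn (not_lt.1 hc)))

theorem floor_le_floor {T θ θ' : ℝ} (hT : 1 < T) (h : θ ≤ θ') : ⌊T ^ θ⌋₊ ≤ ⌊T ^ θ'⌋₊ :=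
  Nat.floor_le_floor (Real.rpow_le_rpow_of_exponent_le hT.le h)

theorem sum_le_total {x : ℕ → ℝ} {T θ B : ℝ} (hT : 1 < T) (h : θ ≤ 1)
    (hB : ∑ n ∈ Finset.Icc 1 ⌊T⌋₊, cm x n ^ 2 ≤ B) :
    ∑ n ∈ Finset.Icc 1 ⌊T ^ θ⌋₊, cm x n ^ 2 ≤ B := by
  refine le_trans (Finset.sum_le_sum_of_subset_of_nonneg (Finset.Icc_subset_Icc le_rfl ?_)
    fun _ _ _ => sq_nonneg _) hB
  simpa using floor_le_floor hT h

theorem sq_mul (x : ℕ → ℝ) : ∀ m n, m ≠ 0 → n ≠ 0 →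
    cm x (m * n) ^ 2 = cm x m ^ 2 * cm x n ^ 2 := fun m n hm hn => by
  rw [cm_mul x hm hn, mul_pow]

theorem window_le {b : ℕ} {w : ℝ → ℝ} (hw : Wt b w) (hb : 1000 ≤ b) {T : ℝ} (hT : 1 < T)
    (hl : 12 / Real.log T ≤ 1 / b)
    (hB : ∑ n ∈ Finset.Icc 1 ⌊T⌋₊, cm (aw w T) n ^ 2 ≤ 8 * b) :
    ∑ n ∈ Finset.Ioc ⌊T ^ (1 - 3 / (b : ℝ))⌋₊ ⌊T ^ (1 - 3 / (2 * (b : ℝ)))⌋₊,
      cm (aw w T) n ^ 2 ≤ 49 := by
  have hb' : (1000 : ℝ) ≤ b := by exact_mod_cast hb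
  have hb0 : (0 : ℝ) < b := by linarith
  have e1 : 3 / (b : ℝ) = 3 * (1 / b) := by ring
  have e2 : 3 / (2 * (b : ℝ)) = 3 / 2 * (1 / b) := by ring
  have hβ0 : (0 : ℝ) < 1 / b := by positivity
  have hβ : (1 : ℝ) / b ≤ 1 / 1000 := one_div_le_one_div_of_le (by norm_num) hb'
  have h := window_mass (g := fun n => cm (aw w T) n ^ 2) (fun _ => sq_nonneg _)
    (fun n hn => hw.sq_le T hn) (sq_mul _) (θ := 1 - 3 / (b : ℝ))
    (θ' := 1 - 3 / (2 * (b : ℝ))) hT (by rw [e1]; linarith) (by rw [e1, e2]; linarith)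
  have h2 := sum_le_total (θ := 1 - 3 / (2 * (b : ℝ))) hT (by rw [e2]; linarith) hB
  have h3 : (1 - 3 / (2 * (b : ℝ)) - (1 - 3 / (b : ℝ)) + 12 / Real.log T) / (1 - 3 / (b : ℝ)) ≤
      5 * (1 / b) := by
    rw [div_le_iff₀ (by rw [e1]; linarith), e1, e2]
    nlinarith only [hβ0, hβ, hl]
  have h4 := mul_le_mul h3 h2 (Finset.sum_nonneg fun _ _ => sq_nonneg _) (by positivity)
  have h5 : 5 * (1 / (b : ℝ)) * (8 * b) = 40 := by field_simp; norm_num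
  linarith

theorem floor_lt_pow {b : ℕ} (hb : 1000 ≤ b) {T : ℝ} (hT : 1 < T) :
    (⌊T ^ (1 - 3 / (2 * (b : ℝ)))⌋₊ : ℝ) < (T ^ (1 / (b : ℝ))) ^ (b + 1) := by
  have hb' : (1000 : ℝ) ≤ b := by exact_mod_cast hb
  have hb0 : (0 : ℝ) < b := by linarith
  have h0 : (0 : ℝ) < T := by linarith
  refine lt_of_le_of_lt (Nat.floor_le (Real.rpow_nonneg h0.le _)) ?_
  rw [← Real.rpow_natCast, ← Real.rpow_mul h0.le]
  refine Real.rpow_lt_rpow_of_exponent_lt hT ?_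
  have e : 1 / (b : ℝ) * ((b + 1 : ℕ) : ℝ) = 1 + 1 / b := by push_cast; field_simp
  have : (0 : ℝ) < 3 / (2 * b) := by positivity
  have : (0 : ℝ) < 1 / b := by positivity
  rw [e]; linarith

theorem rough {b : ℕ} {w : ℝ → ℝ} (hw : Wt b w) {T : ℝ} (hT : 1 < T) :
    ∀ n, AF w T n ≠ 0 → ∀ p ∈ n.primeFactors, T ^ (1 / (b : ℝ)) ≤ p := by
  intro n hn p hp
  have hn0 : n ≠ 0 := by rintro rfl; simp at hp
  rw [AF_apply w T hn0] at hn
  exact (hw.rough hT (by exact_mod_cast hn) hp).le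

theorem sqrt_le {x B : ℝ} (hB : 0 ≤ B) (h : x ≤ B ^ 2) : √x ≤ B := Real.sqrt_le_iff.2 ⟨hB, h⟩

/-- The square norm of the defect coefficients. -/
theorem first {b m : ℕ} {w : ℝ → ℝ} (hw : Wt b w) (hb : 1000 ≤ b) {T c : ℝ} (hT : 1 < T)
    (hc1 : 1 / 2 - 1 / b ≤ c) (hc2 : c ≤ 1 / 2) (g : ℝ → ℂ)
    (hl : 12 / Real.log T ≤ 1 / b)
    (hB : ∑ n ∈ Finset.Icc 1 ⌊T⌋₊, cm (aw w T) n ^ 2 ≤ 8 * b)
    (h1 : wn ⌊T ^ (1 - 3 / (2 * (b : ℝ)))⌋₊ (nuA g T - nu1 (AF w T) (AF' w c T)) ≤ 100 / b ^ 2)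
    (h3 : wn ⌊T ^ (1 - 3 / (2 * (b : ℝ)))⌋₊ (nu1 (AF w T) (AF' w c T)) ≤ 32 * b)
    (h4 : wn ⌊T ^ (1 - 3 / (2 * (b : ℝ)))⌋₊ (af fun q =>
        if q * ⌊T ^ (1 - 3 / (b : ℝ))⌋₊ ≤ ⌊T ^ (1 - 3 / (2 * (b : ℝ)))⌋₊ then
          nuA g T q else 0) ≤ 50 / b ^ 2)
    (hm : b ≤ m) (hm2 : (b + 1) * (9 * b : ℝ) ^ b * 2 ^ b / 2 ^ m ≤ 1 / b) :
    nsq ⌊T ^ (1 - 3 / (2 * (b : ℝ)))⌋₊ (coef g c m b w T) ≤ 20000 := by
  have hb' : (1000 : ℝ) ≤ b := by exact_mod_cast hb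
  have hb0 : (0 : ℝ) < b := by linarith
  have hz : 1 ≤ T ^ (1 / (b : ℝ)) := Real.one_le_rpow hT.le (by positivity)
  have hN := floor_lt_pow hb hT
  have hW := window_le hw hb hT hl hB
  have hR := sum_le_total (θ := 1 - 3 / (2 * (b : ℝ))) hT
    (by have : (0 : ℝ) < 3 / (2 * b) := by positivity
        linarith) hB
  rw [← nsq_AF] at hR
  generalize ⌊T ^ (1 - 3 / (2 * (b : ℝ)))⌋₊ = N at *
  set A := AF w T with hA
  set A' := AF' w c T with hA'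
  set E := expA m (nuA g T) with hE
  set Rm := A - AN b w T with hRm
  have hsupp : ∀ n ∈ Finset.Icc 1 N, Rm n ≠ 0 →
      n.primeFactors.card ≤ b ∧ ⌊T ^ (1 - 3 / (b : ℝ))⌋₊ < n := by
    intro n hn h
    have hn' := Finset.mem_Icc.1 hn
    have hn0 : n ≠ 0 := by omega
    have hnot : n ∉ Nset b T := by
      intro hmem
      exact h (by simp [hRm, sub_ap, AN_apply, hmem, hA])
    have hA0 : A n ≠ 0 := by
      intro h0
      exact h (by simp [hRm, sub_ap, AN_apply, hnot, h0])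
    refine ⟨card_le hz hn0 (rough hw hT n hA0)
      (lt_of_le_of_lt (by exact_mod_cast hn'.2) hN), lt_of_notMem hw (by omega) hT hn0 ?_ hnot⟩
    rw [hA, AF_apply w T hn0] at hA0
    exact_mod_cast hA0
  have hRm2 : nsq N Rm ≤ 7 ^ 2 := by
    refine le_trans ?_ (le_trans hW (by norm_num))
    rw [nsq, ← Finset.sum_filter_of_ne (p := fun n => ⌊T ^ (1 - 3 / (b : ℝ))⌋₊ < n)
      fun n hn h => (hsupp n hn fun h0 => h (by simp [h0])).2]
    refine le_trans (Finset.sum_le_sum (g := fun n => cm (aw w T) n ^ 2) fun n hn => ?_)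
      (Finset.sum_le_sum_of_subset_of_nonneg (fun n hn => ?_) fun _ _ _ => sq_nonneg _)
    · have hn' := Finset.mem_Icc.1 (Finset.mem_filter.1 hn).1
      have hn0 : n ≠ 0 := by omega
      by_cases hmem : n ∈ Nset b T
      · have : Rm n = 0 := by simp [hRm, sub_ap, AN_apply, hmem, hA]
        rw [this]; simpa using sq_nonneg _
      · have : Rm n = (cm (aw w T) n : ℝ) := by
          simp [hRm, sub_ap, AN_apply, hmem, hA, AF_apply w T hn0]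
        rw [this, Complex.norm_real, Real.norm_eq_abs, sq_abs]
    · have := Finset.mem_filter.1 hn
      exact Finset.mem_Ioc.2 ⟨this.2, (Finset.mem_Icc.1 this.1).2⟩
  have s1 : √(nsq N Rm) ≤ 7 := sqrt_le (by norm_num) hRm2
  have s2 : √(nsq N (E * Rm)) ≤ 14 := by
    have h := create_rem (K := b) (pp_nuA g T) hsupp (le_trans
      (mul_le_mul_of_nonneg_left h4 (by positivity)) ?_) m
    · linarith
    · rw [mul_div_assoc', div_le_iff₀ (by positivity)]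
      nlinarith only [hb']
  set s := √(b : ℝ) with hs
  have hs2 : s ^ 2 = b := Real.sq_sqrt hb0.le
  have hs0 : 31 ≤ s := Real.le_sqrt_of_sq_le (by linarith)
  have hs1 : 0 < s := by linarith
  have s3 : √(nsq N A) ≤ 3 * s := sqrt_le (by positivity) (by nlinarith only [hR, hs2, hb0])
  have s4 : √(nsq N (E * A - A')) ≤ 91 := by
    have h := l2_main (K := b) (m := m) (σ := 15 / s) (σ1 := 9 * b) (cm_AF w T) (cm_AF' w c T)
      (norm_AF' w c T) hz (rough hw hT) hN (pp_nuA g T)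
      (le_trans (mul_le_mul_of_nonneg_left h3 (by positivity)) (by nlinarith only [hb']))
      (by linarith) (le_trans (mul_le_mul_of_nonneg_left h1 (by positivity)) ?_)
      (by positivity) (by rw [div_le_iff₀ hs1]; linarith) hm
    · have h5 := mul_le_mul (add_le_add (le_refl (2 * (15 / s))) hm2) s3 (Real.sqrt_nonneg _)
        (by positivity)
      have h6 : (2 * (15 / s) + 1 / (b : ℝ)) * (3 * s) = 90 + 3 / s := by
        rw [← hs2]; field_simp; ring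
      have h7 : 3 / s ≤ 1 := by rw [div_le_iff₀ hs1]; linarith
      linarith
    · rw [div_pow, hs2, mul_div_assoc', div_le_div_iff₀ (by positivity) hb0]
      nlinarith only [hb', mul_pos hb0 hb0]
  have s5 : √(nsq N A') ≤ 3 * s := by
    have : nsq N A' = nsq N A := Finset.sum_congr rfl fun n _ => by rw [hA', norm_AF']
    rwa [this]
  have s6 : √(nsq N (E * AN b w T)) ≤ 105 + 3 * s := by
    have e : E * AN b w T = (E * A - A') + A' - E * Rm := by rw [hRm]; ring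
    have h := sqrt_nsq_sub N ((E * A - A') + A') (E * Rm)
    have h' := sqrt_nsq_add N (E * A - A') A'
    rw [e]; linarith
  set Tw : ArithmeticFunction ℂ := af fun n => Rm n * ch n (c / lam T) with hTw
  have s7 : √(nsq N Tw) ≤ 7 := by
    have : nsq N Tw = nsq N Rm := Finset.sum_congr rfl fun n hn => by
      rw [hTw, af_apply _ (by have := (Finset.mem_Icc.1 hn).1; omega), norm_mul, norm_ch, mul_one]
    rwa [this]
  have e0 : (af fun n => AN b w T n * ch n (c / lam T)) = A' - Tw := by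
    ext n
    rcases eq_or_ne n 0 with rfl | hn
    · simp
    · rw [sub_ap, hTw, af_apply _ hn, af_apply _ hn, hA', AF'_apply, hRm,
        sub_ap]
      ring
  have e : coef g c m b w T =
      (ph c - 1) • (E * AN b w T) + (E * A - A') - E * Rm + Tw := by
    rw [coef, e0, sub_smul, one_smul, hRm, ← hE]; ring
  have s8 : √(nsq N ((ph c - 1) • (E * AN b w T))) ≤ 5 := by
    rw [sqrt_nsq_smul]
    have h := mul_le_mul (norm_ph_sub hc1 hc2) s6 (Real.sqrt_nonneg _) (by positivity)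
    have h' : 4 * (1 / (b : ℝ)) * (105 + 3 * s) ≤ 5 := by
      rw [← hs2, mul_one_div, div_mul_eq_mul_div, div_le_iff₀ (by positivity)]
      nlinarith only [hs0]
    linarith
  have t1 := sqrt_nsq_add N ((ph c - 1) • (E * AN b w T) + (E * A - A') - E * Rm) Tw
  have t2 := sqrt_nsq_sub N ((ph c - 1) • (E * AN b w T) + (E * A - A')) (E * Rm)
  have t3 := sqrt_nsq_add N ((ph c - 1) • (E * AN b w T)) (E * A - A')
  have t4 : √(nsq N (coef g c m b w T)) ≤ 117 := by rw [e]; linarith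
  have t5 := (Real.sqrt_le_iff.1 t4).2
  linarith

theorem sin_le {c β : ℝ} (hβ0 : 0 < β) (hβ : β ≤ 1 / 1000) (h1 : 1 / 2 - β ≤ c) (h2 : c ≤ 1 / 2) :
    Real.sin (2 * π * c * (1 - 3 * β)) / (2 * π * c * (1 - 3 * β)) ≤ 10 * β := by
  have hπ := Real.pi_pos
  have a1 : 1 - 5 * β ≤ 2 * c * (1 - 3 * β) := by nlinarith only [hβ0, hβ, h1]
  have a2 : 2 * c * (1 - 3 * β) ≤ 1 := by nlinarith only [hβ0, hβ, h1, h2]
  have e : 2 * π * c * (1 - 3 * β) = π * (2 * c * (1 - 3 * β)) := by ring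
  rw [e]
  generalize 2 * c * (1 - 3 * β) = x at *
  have hx : 1 / 2 ≤ x := by linarith
  have a3 : Real.sin (π * x) ≤ π - π * x := by
    rw [← Real.sin_pi_sub]
    exact Real.sin_le (by nlinarith only [hπ, a2])
  rw [div_le_iff₀ (by positivity)]
  have a4 : 1 - x ≤ 10 * β * x := by nlinarith only [a1, hx, hβ0]
  nlinarith only [a3, a4, hπ]

/-- The diagonal term. -/
theorem diag {b : ℕ} {w : ℝ → ℝ} (hw : Wt b w) (hb : 1000 ≤ b) {T c : ℝ} (hT : 1 < T)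
    (hc1 : 1 / 2 - 1 / b ≤ c) (hc2 : c ≤ 1 / 2) (hl : 12 / Real.log T ≤ 1 / b)
    (hB : ∑ n ∈ Finset.Icc 1 ⌊T⌋₊, cm (aw w T) n ^ 2 ≤ 8 * b)
    (hD : ∀ x ∈ Icc (0 : ℝ) 1,
      |∑ k ∈ Finset.Icc 1 ⌊T ^ x⌋₊, vonMangoldt k * cm (aw w T) k ^ 2 / Real.log T - x| ≤ 7 / b) :
    (∑ n ∈ Nset b T, ((cm (aw w T) n ^ 2 : ℝ) : ℂ) * ee (-(c * uu T n))).re ≤ 1809 := by
  have hb' : (1000 : ℝ) ≤ b := by exact_mod_cast hb
  have hb0 : (0 : ℝ) < b := by linarith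
  have e1 : 3 / (b : ℝ) = 3 * (1 / b) := by ring
  have e2 : 3 / (2 * (b : ℝ)) = 3 / 2 * (1 / b) := by ring
  have e3 : 2 / (b : ℝ) = 2 * (1 / b) := by ring
  have e4 : 7 / (b : ℝ) = 7 * (1 / b) := by ring
  have hβ0 : (0 : ℝ) < 1 / b := by positivity
  have hβ : (1 : ℝ) / b ≤ 1 / 1000 := one_div_le_one_div_of_le (by norm_num) hb'
  have hW := window_le hw hb hT hl hB
  have hθ1 : 1 - 3 / (b : ℝ) ≤ 1 := by rw [e1]; linarith
  have hR := sum_le_total (θ := 1 - 3 / (b : ℝ)) hT hθ1 hB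
  have hL := lf_cos (g := fun n => cm (aw w T) n ^ 2) (fun _ => sq_nonneg _) (sq_mul _)
    (θ := 1 - 3 / (b : ℝ)) (c := c) (e := 7 / b) hT (by rw [e1]; linarith) hθ1 (by linarith) hc2
    fun x hx => hD x ⟨hx.1, hx.2.trans hθ1⟩
  have hS := sin_le hβ0 hβ hc1 hc2
  rw [← e1] at hS
  have h1 := mul_le_mul (add_le_add hS (le_refl (30 * (7 / (b : ℝ))))) hR
    (Finset.sum_nonneg fun _ _ => sq_nonneg _) (by positivity)
  have h2 : (10 * (1 / (b : ℝ)) + 30 * (7 / b)) * (8 * b) = 1760 := by field_simp; norm_num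
  rw [← Finset.sum_filter_add_sum_filter_not (Nset b T) fun n => n ≤ ⌊T ^ (1 - 3 / (b : ℝ))⌋₊,
    Complex.add_re]
  have h3 : ∑ n ∈ Nset b T with n ≤ ⌊T ^ (1 - 3 / (b : ℝ))⌋₊,
      ((cm (aw w T) n ^ 2 : ℝ) : ℂ) * ee (-(c * uu T n)) =
      ∑ n ∈ Finset.Icc 1 ⌊T ^ (1 - 3 / (b : ℝ))⌋₊,
        ((cm (aw w T) n ^ 2 : ℝ) : ℂ) * ee (-(c * uu T n)) := by
    refine Finset.sum_subset (fun n hn => ?_) fun n hn h => ?_
    · have := Finset.mem_filter.1 hn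
      exact Finset.mem_Icc.2 ⟨(mem_Nset_le (by omega) hT this.1).1, this.2⟩
    · have hn' := Finset.mem_Icc.1 hn
      have h0 : cm (aw w T) n = 0 := by
        by_contra h0
        have := lt_of_notMem hw (by omega) hT (by omega) h0
          fun hm => h (Finset.mem_filter.2 ⟨hm, hn'.2⟩)
        omega
      simp [h0]
  have h4 : (∑ n ∈ Nset b T with ¬ n ≤ ⌊T ^ (1 - 3 / (b : ℝ))⌋₊,
      ((cm (aw w T) n ^ 2 : ℝ) : ℂ) * ee (-(c * uu T n))).re ≤ 49 := by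
    refine le_trans (Complex.re_le_norm _) (le_trans (norm_sum_le _ _) (le_trans ?_ hW))
    refine le_trans (le_of_eq (Finset.sum_congr rfl (g := fun n => cm (aw w T) n ^ 2)
      fun n _ => ?_))
      (Finset.sum_le_sum_of_subset_of_nonneg (fun n hn => ?_) fun _ _ _ => sq_nonneg _)
    · rw [norm_mul, norm_ee, mul_one, Complex.norm_real, Real.norm_eq_abs,
        abs_of_nonneg (sq_nonneg _)]
    · have := Finset.mem_filter.1 hn
      refine Finset.mem_Ioc.2 ⟨not_le.1 this.2, Nat.le_floor ?_⟩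
      exact (mem_Nset_le (by omega) hT this.1).2.2.trans
        (Real.rpow_le_rpow_of_exponent_le hT.le (by rw [e2, e3]; linarith))
  rw [h3]
  linarith

theorem mul_AN {b : ℕ} (w : ℝ → ℝ) {T : ℝ} (E : ArithmeticFunction ℂ) {n : ℕ}
    (hn : n ∈ Nset b T) : (E * AN b w T) n = (E * AF w T) n := by
  rw [ArithmeticFunction.mul_apply, ArithmeticFunction.mul_apply]
  refine Finset.sum_congr rfl fun x hx => ?_
  rw [AN_apply, if_pos (Nset_dvd hn (Nat.dvd_of_mem_divisors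
    (Nat.snd_mem_divisors_of_mem_antidiagonal hx)))]

/-- The mean of the defect against the mollifier. -/
theorem second {b m : ℕ} {w : ℝ → ℝ} (hw : Wt b w) (hb : 1000 ≤ b) {T c : ℝ} (hT : 1 < T)
    (hc1 : 1 / 2 - 1 / b ≤ c) (hc2 : c ≤ 1 / 2) (g : ℝ → ℂ)
    (hl : 12 / Real.log T ≤ 1 / b)
    (hB : ∑ n ∈ Finset.Icc 1 ⌊T⌋₊, cm (aw w T) n ^ 2 ≤ 8 * b)
    (hD : ∀ x ∈ Icc (0 : ℝ) 1,
      |∑ k ∈ Finset.Icc 1 ⌊T ^ x⌋₊, vonMangoldt k * cm (aw w T) k ^ 2 / Real.log T - x| ≤ 7 / b)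
    (h2 : ∑ q ∈ Finset.Icc 1 ⌊T ^ (1 - 3 / (2 * (b : ℝ)))⌋₊,
        ‖(nuA g T q - nu1 (AF w T) (AF' w c T) q) * AF w T q‖ ≤ 20 / b) (hm : 2 * b ≤ m) :
    (ph c * ∑ n ∈ Nset b T, (expA m (nuA g T) * AN b w T) n * (cm (aw w T) n : ℝ)).re ≤
      20000 := by
  have hb' : (1000 : ℝ) ≤ b := by exact_mod_cast hb
  have hb0 : (0 : ℝ) < b := by linarith
  have e2 : 3 / (2 * (b : ℝ)) = 3 / 2 * (1 / b) := by ring
  have e3 : 2 / (b : ℝ) = 2 * (1 / b) := by ring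
  have hβ0 : (0 : ℝ) < 1 / b := by positivity
  have hz : 1 ≤ T ^ (1 / (b : ℝ)) := Real.one_le_rpow hT.le (by positivity)
  have hR := sum_le_total (θ := 1 - 3 / (2 * (b : ℝ))) hT (by rw [e2]; linarith) hB
  have hsub : Nset b T ⊆ Finset.Icc 1 ⌊T ^ (1 - 3 / (2 * (b : ℝ)))⌋₊ := fun n hn => by
    have := mem_Nset_le (by omega) hT hn
    exact Finset.mem_Icc.2 ⟨this.1, Nat.le_floor (this.2.2.trans
      (Real.rpow_le_rpow_of_exponent_le hT.le (by rw [e2, e3]; linarith)))⟩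
  have hν : nuA g T 1 = 0 := by simp [nuA, af]
  have hl1 := l1_main (K := b) (m := m) (cm_AF w T) (cm_AF' w c T) (norm_AF' w c T) hz
    (rough hw hT) (floor_lt_pow hb hT) hν h2 (by rw [div_le_iff₀ hb0]; linarith) hm
  rw [nsq_AF] at hl1
  have hd := diag hw hb hT hc1 hc2 hl hB hD
  set S1 := ∑ n ∈ Nset b T, ((expA m (nuA g T) * AF w T) n - AF' w c T n) * AF w T n with hS1
  set S2 := ∑ n ∈ Nset b T, ((cm (aw w T) n ^ 2 : ℝ) : ℂ) * ee (-(c * uu T n)) with hS2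
  have e : ∑ n ∈ Nset b T, (expA m (nuA g T) * AN b w T) n * (cm (aw w T) n : ℝ) = S1 + S2 := by
    rw [hS1, hS2, ← Finset.sum_add_distrib]
    refine Finset.sum_congr rfl fun n hn => ?_
    have hn0 : n ≠ 0 := by have := (mem_Nset_le (by omega) hT hn).1; omega
    rw [mul_AN w _ hn, AF'_apply, AF_apply w T hn0, ch_eq hT]
    push_cast; ring
  have a1 : ‖S1‖ ≤ 320 := by
    refine le_trans (norm_sum_le _ _) (le_trans (Finset.sum_le_sum_of_subset_of_nonneg hsub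
      fun _ _ _ => norm_nonneg _) (hl1.trans ?_))
    refine le_trans (mul_le_mul_of_nonneg_left hR (by positivity)) (le_of_eq ?_)
    field_simp; norm_num
  have a2 : ‖S2‖ ≤ 8 * b := by
    refine le_trans (norm_sum_le _ _) (le_trans ?_ hR)
    refine le_trans (le_of_eq (Finset.sum_congr rfl (g := fun n => cm (aw w T) n ^ 2)
      fun n _ => ?_)) (Finset.sum_le_sum_of_subset_of_nonneg hsub fun _ _ _ => sq_nonneg _)
    rw [norm_mul, norm_ee, mul_one, Complex.norm_real, Real.norm_eq_abs,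
      abs_of_nonneg (sq_nonneg _)]
  have a3 : (ph c * S1).re ≤ 320 := by
    refine le_trans (Complex.re_le_norm _) ?_
    rwa [norm_mul, norm_ph, one_mul]
  have a4 : ((ph c - 1) * S2).re ≤ 32 := by
    refine le_trans (Complex.re_le_norm _) ?_
    rw [norm_mul]
    refine le_trans (mul_le_mul (norm_ph_sub hc1 hc2) a2 (norm_nonneg _) (by positivity))
      (le_of_eq ?_)
    field_simp; norm_num
  have e' : ph c * (S1 + S2) = ph c * S1 + (ph c - 1) * S2 + S2 := by ring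
  rw [e, e', Complex.add_re, Complex.add_re]
  linarith

theorem exists_m0 (X : ℝ) {b : ℕ} (hb : 0 < b) : ∃ m0 : ℕ, ∀ m, m0 ≤ m → X / 2 ^ m ≤ 1 / b := by
  refine ⟨⌈X * b⌉₊, fun m hm => ?_⟩
  have h1 : X * b ≤ m := le_trans (Nat.le_ceil _) (by exact_mod_cast hm)
  have h2 : (m : ℝ) ≤ 2 ^ m := by exact_mod_cast (Nat.lt_two_pow_self (n := m)).le
  rw [div_le_div_iff₀ (by positivity) (by exact_mod_cast hb)]
  linarith

end ARAux

theorem arith_main : ∃ C, 0 < C ∧ ∀ (b : ℕ) (w : ℝ → ℝ), 1000 ≤ b → Wt b w →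
    ∀ (f : ℝ → ℂ) (c S L : ℝ), 1 / 2 - 1 / b ≤ c → c ≤ 1 / 2 → Sym2 f c S L → 1 ≤ L → L * b ≤ S →
    ∃ m0, ∀ m, m0 ≤ m → ∀ (χ χ' : ℝ → ℝ) (a η θ' : ℝ), Cut χ a η → η ≤ 1 / b →
      Cut χ' (1 - 3 / (2 * b)) θ' → ∀ᶠ T : ℝ in atTop,
        nsq ⌊T ^ (1 - 3 / (2 * (b : ℝ)))⌋₊ (coef (lo (hi f χ) χ') c m b w T) ≤ C ∧
        (ph c * ∑ n ∈ Nset b T, (expA m (nuA (lo (hi f χ) χ') T) * AN b w T) n *
          (cm (aw w T) n : ℝ)).re ≤ C := by
  refine ⟨20000, by norm_num, fun b w hb hw f c S L hc1 hc2 hf hL hS => ?_⟩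
  obtain ⟨m0, hm0⟩ := ARAux.exists_m0 ((b + 1) * (9 * b : ℝ) ^ b * 2 ^ b) (b := b) (by omega)
  refine ⟨max m0 (2 * b), fun m hm χ χ' a η θ' hχ hη hχ' => ?_⟩
  have hb' : (1000 : ℝ) ≤ b := by exact_mod_cast hb
  have hβ : (1 : ℝ) / b ≤ 1 / 1000 := one_div_le_one_div_of_le (by norm_num) hb'
  have hlog : ∀ᶠ T : ℝ in atTop, 12 / Real.log T ≤ 1 / b := by
    filter_upwards [Real.tendsto_log_atTop.eventually_ge_atTop (12 * (b : ℝ))] with T hT
    rw [div_le_div_iff₀ (by linarith) (by linarith)]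
    linarith
  have hm1 : m0 ≤ m := le_trans (le_max_left _ _) hm
  have hm2 : 2 * b ≤ m := le_trans (le_max_right _ _) hm
  filter_upwards [eventually_gt_atTop (1 : ℝ), hlog, hw.total_le (by omega),
    hw.discrepancy (by omega),
    eps_bounds hw (by omega) (by linarith) hc2 hf hL hS hχ hη hχ'] with T hT hl hB hD hE
  exact ⟨ARAux.first hw hb hT hc1 hc2 _ hl hB hE.1 hE.2.2.1 hE.2.2.2 (by omega) (hm0 m hm1),
    ARAux.second hw hb hT hc1 hc2 _ hl hB hD hE.2.1 hm2⟩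

end Pool.Agent.P.MP_7eacff_nt.Rig
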