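import Pool.Agent.P.MP_7eacff_nt.Rig.Phi

/-!
Calculus of functions with one-sided spectrum and their values at complex heights.
-/

open Complex Filter Topology MeasureTheory Set
open scoped Real ENNReal ComplexConjugate

namespace Pool.Agent.P.MP_7eacff_nt.Rig

namespace AnAux

theorem congr {P : Measure ℝ} {s y l : ℝ} {H H' : ℝ → ℂ} {h h' : ℂ} (hH : An P s y H h l)
    (e : ∀ v, H v = H' v) (e' : h = h') : An P s y H' h' l := by
  rw [← funext e, ← e']
  exact hH

theorem uu_nonneg {T : ℝ} (hL : 2 * π ≤ Real.log T) (n : ℕ) : 0 ≤ uu T n :=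
  div_nonneg (Real.log_natCast_nonneg n) (le_trans (by positivity) hL)

theorem ch_shift {T : ℝ} (hL : 2 * π ≤ Real.log T) (n : ℕ) (t s v : ℝ) :
    ch n (t + s / lam T * v) = ch n t * ee (-(uu T n * s * v)) := by
  have h0 : Real.log T ≠ 0 := (lt_of_lt_of_le (by positivity) hL).ne'
  rw [ch, ch, ← ee_add]
  congr 1
  field_simp
  ring

theorem grow {μ : Measure ℝ} (hμ : ZData μ) {F : ℝ → ℂ} {C K T : ℝ} {k : ℕ}
    (hC : ∀ v, ‖F v‖ ≤ C * (1 + |v|) ^ k) (hK0 : 0 ≤ K) (hL : 2 * π ≤ Real.log T) (X T0 : ℝ) :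
    ∃ C' : ℝ, ∀ v (x : ℝ), 0 ≤ x → x ≤ K * Sd μ T (X + T0 * v) →
      ‖F v‖ * x ≤ C' * (1 + |v|) ^ (k + 1) := by
  obtain ⟨C', hC', hG⟩ := hμ.G_le_lin
  have hS : ∀ v, Sd μ T (X + T0 * v) ≤ C' * (1 + |X| + |T0|) * (1 + |v|) := fun v =>
    (hμ.Sd_le_G hL _).trans (hG _ _ _ _ (by linarith [abs_nonneg X, abs_nonneg T0])
      (by linarith [abs_nonneg X, abs_nonneg T0]) (by linarith [abs_nonneg X]))
  exact ⟨C * (K * (C' * (1 + |X| + |T0|))), fun v x hx h1 =>
    (mul_le_mul (hC v) (h1.trans (mul_le_mul_of_nonneg_left (hS v) hK0)) hx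
      ((norm_nonneg _).trans (hC v))).trans_eq (by ring)⟩

theorem integrable {μ P : Measure ℝ} [SFinite μ] (hμ : ZData μ) (hP : Win P) {F φ : ℝ → ℂ}
    (hF : Measurable F) {C K T : ℝ} {k : ℕ} (hC : ∀ v, ‖F v‖ ≤ C * (1 + |v|) ^ k)
    (hi : Integrable φ) (hK0 : 0 ≤ K) (hK : ∀ y, ‖iF φ y‖ ≤ K / (1 + y ^ 2))
    (hL : 2 * π ≤ Real.log T) (X T0 : ℝ) :
    Integrable (Function.uncurry fun v x => F v * iF φ (lam T * (x - (X + T0 * v))))
      (P.prod μ) := by
  have := hP.prob
  have hc := continuous_iF hi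
  obtain ⟨C', hb⟩ := grow hμ hC hK0 hL X T0
  have hmm : Measurable (Function.uncurry fun v x => F v * iF φ (lam T * (x - (X + T0 * v)))) :=
    (hF.comp measurable_fst).mul (hc.measurable.comp (by fun_prop))
  rw [integrable_prod_iff hmm.aestronglyMeasurable]
  refine ⟨ae_of_all _ fun v => (hμ.integrable_stat hc.measurable hK hL (X + T0 * v)).const_mul
    (F v), ((hP.mom (k + 1)).const_mul C').mono'
      hmm.norm.stronglyMeasurable.integral_prod_right'.aestronglyMeasurable
      (ae_of_all _ fun v => ?_)⟩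
  simp only [Function.uncurry, norm_mul, integral_const_mul]
  rw [Real.norm_of_nonneg (norm_nonneg _),
    Real.norm_of_nonneg (integral_nonneg fun _ => norm_nonneg _)]
  refine hb v _ (integral_nonneg fun _ => norm_nonneg _) ?_
  have h1 := hμ.norm_stat_le (h := fun y => (‖iF φ y‖ : ℂ)) (K := K)
    (fun y => by simpa using hK y) hL (X + T0 * v)
  rw [stat, integral_complex_ofReal, norm_real] at h1
  exact (le_abs_self _).trans h1

end AnAux

namespace An

variable {P : Measure ℝ} {s y l l' : ℝ} {H H' : ℝ → ℂ} {h h' : ℂ}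

theorem one : An P s y (fun _ => 1) 1 0 := by
  refine ⟨measurable_const, ⟨1, 0, by simp⟩, fun m A K _ _ hA => ?_⟩
  simpa using hA 0 le_rfl

theorem zero : An P s y (fun _ => 0) 0 l := by
  exact ⟨measurable_const, ⟨0, 0, by simp⟩, fun m A K _ _ _ => by simp⟩

theorem integrable_mul (hP : Win P) (hH : An P s y H h l) {m : ℝ → ℂ} {K : ℝ} (hm : Measurable m)
    (hK : ∀ v, ‖m v‖ ≤ K) : Integrable (fun v => H v * m v) P := by
  obtain ⟨C, k, hC⟩ := hH.grow
  exact (((hP.mom k).const_mul C).mono' hH.meas.aestronglyMeasurable (ae_of_all _ hC)).mul_bdd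
    hm.aestronglyMeasurable (ae_of_all _ hK)

theorem mono (hH : An P s y H h l) (hl : l' ≤ l) : An P s y H h l' := by
  exact ⟨hH.meas, hH.grow, fun m A K hm hK hA =>
    hH.rep m A K hm hK fun τ hτ => hA τ (hl.trans hτ)⟩

theorem add (hP : Win P) (hH : An P s y H h l) (hH' : An P s y H' h' l) :
    An P s y (fun v => H v + H' v) (h + h') l := by
  refine ⟨hH.meas.add hH'.meas, ?_, fun m A K hm hK hA => ?_⟩
  · obtain ⟨C, k, hC⟩ := hH.grow
    obtain ⟨C', k', hC'⟩ := hH'.grow
    refine ⟨|C| + |C'|, k + k', fun v => (norm_add_le _ _).trans ?_⟩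
    have h1 : 1 ≤ 1 + |v| := by linarith [abs_nonneg v]
    rw [add_mul]
    refine add_le_add ((hC v).trans ?_) ((hC' v).trans ?_)
    · gcongr; exacts [le_abs_self _, by omega]
    · gcongr; exacts [le_abs_self _, by omega]
  · simp only [add_mul]
    rw [integral_add (hH.integrable_mul hP hm hK) (hH'.integrable_mul hP hm hK),
      hH.rep m A K hm hK hA, hH'.rep m A K hm hK hA, mul_add]

theorem const_mul (hH : An P s y H h l) (a : ℂ) : An P s y (fun v => a * H v) (a * h) l := by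
  refine ⟨hH.meas.const_mul a, ?_, fun m A K hm hK hA => ?_⟩
  · obtain ⟨C, k, hC⟩ := hH.grow
    refine ⟨‖a‖ * C, k, fun v => ?_⟩
    rw [norm_mul, mul_assoc]
    exact mul_le_mul_of_nonneg_left (hC v) (norm_nonneg _)
  · simp only [mul_assoc]
    rw [integral_const_mul, hH.rep m A K hm hK hA, mul_left_comm]

theorem sum (hP : Win P) {ι : Type*} (S : Finset ι) {H : ι → ℝ → ℂ} {h : ι → ℂ}
    (hH : ∀ i ∈ S, An P s y (H i) (h i) l) :
    An P s y (fun v => ∑ i ∈ S, H i v) (∑ i ∈ S, h i) l := by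
  classical
  induction S using Finset.induction_on with
  | empty => simpa using zero
  | insert i S hi ih =>
    simp only [Finset.sum_insert hi]
    exact (hH i (Finset.mem_insert_self _ _)).add hP
      (ih fun j hj => hH j (Finset.mem_insert_of_mem hj))

theorem mul_ee (hH : An P s y H h l) (u : ℝ) : An P s y (fun v => H v * ee (-(u * s * v)))
    (h * (Real.exp (-(2 * π * u * y)) : ℝ)) (l + u) := by
  refine ⟨hH.meas.mul (by fun_prop), ?_, fun m A K hm hK hA => ?_⟩
  · obtain ⟨C, k, hC⟩ := hH.grow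
    exact ⟨C, k, fun v => by simpa using hC v⟩
  · have h1 := hH.rep (fun v => ee (-(u * s * v)) * m v)
      (A * (Real.exp (-(2 * π * u * y)) : ℝ)) K (Measurable.mul (by fun_prop) hm)
      (fun v => by simpa using hK v) fun τ hτ => by
        have e : ∀ v, ee (-(u * s * v)) * m v * ee (-(τ * s * v)) =
            m v * ee (-((τ + u) * s * v)) := fun v => by
          rw [mul_comm (ee _) (m v), mul_assoc, ← ee_add]
          congr 2; ring
        simp only [e]
        rw [hA (τ + u) (by linarith), mul_assoc A, ← ofReal_mul, ← Real.exp_add]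
        congr 3; ring
    simp only [mul_assoc] at h1 ⊢
    rw [h1, mul_comm h]

theorem mul_II {μ : Measure ℝ} [SFinite μ] (hμ : ZData μ) (hP : Win P) (hH : An P s y H h l)
    {g : ℝ → ℂ} {R κ T : ℝ} (hg : Adm g R) (hκ : 0 ≤ κ) (hz : ∀ u, 0 ≤ u → u < κ → g u = 0)
    (hL : 2 * π ≤ Real.log T) (t : ℝ) :
    An P s y (fun v => H v * II μ g T (t + s / lam T * v)) (h * II μ (dmp g y) T t) (l + κ) := by
  have := hP.prob
  have hi := hg.integrable
  obtain ⟨K, hK0, hK⟩ := hg.decay
  have hl : Real.log T ≠ 0 := (lt_of_lt_of_le (by positivity) hL).ne'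
  obtain ⟨C, k, hC⟩ := hH.grow
  refine ⟨hH.meas.mul ((hg.measurable μ T).comp (by fun_prop)), ?_, fun m A Km hm hKm hA => ?_⟩
  · obtain ⟨C', hC'⟩ := AnAux.grow hμ hC hK0 hL t (s / lam T)
    refine ⟨C', k + 1, fun v => ?_⟩
    rw [norm_mul]
    exact hC' v _ (norm_nonneg _) (hμ.norm_stat_le hK hL _)
  have hF : ∀ v, ‖H v * m v‖ ≤ C * Km * (1 + |v|) ^ k := fun v => by
    rw [norm_mul, mul_right_comm]
    exact mul_le_mul (hC v) (hKm v) (norm_nonneg _) ((norm_nonneg _).trans (hC v))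
  have hint := AnAux.integrable hμ hP (F := fun v => H v * m v) (hH.meas.mul hm) hF hi hK0 hK hL t
    (s / lam T)
  have e : ∀ v, H v * II μ g T (t + s / lam T * v) * m v =
      ∫ x, H v * m v * iF (pw g 0) (lam T * (x - (t + s / lam T * v))) ∂μ := fun v => by
    rw [integral_const_mul, II, stat]; ring
  simp only [e]
  rw [integral_integral_swap hint, II, stat, ← mul_assoc, ← integral_const_mul]
  refine integral_congr_ae (ae_of_all _ fun x => ?_)
  have e2 : ∀ v, H v * m v * iF (pw g 0) (lam T * (x - (t + s / lam T * v))) =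
      ∫ u, H v * m v * pw g 0 u * (ee (u * (lam T * (x - t))) * ee (-(u * s * v))) := fun v => by
    rw [iF, ← integral_const_mul]
    congr 1; funext u
    rw [← ee_add, show u * (lam T * (x - t)) + -(u * s * v) =
      u * (lam T * (x - (t + s / lam T * v))) by field_simp; ring]
    ring
  change ∫ v, H v * m v * iF (pw g 0) (lam T * (x - (t + s / lam T * v))) ∂P =
    A * h * iF (pw (dmp g y) 0) (lam T * (x - t))
  simp only [e2]
  rw [integral_integral_swap (((hH.integrable_mul hP hm hKm).mul_prod hi).mul_bdd (c := 1)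
    (g := fun p : ℝ × ℝ => ee (p.2 * (lam T * (x - t))) * ee (-(p.2 * s * p.1)))
    (by fun_prop) (ae_of_all _ fun p => by simp)), iF, ← integral_const_mul]
  refine integral_congr_ae (ae_of_all _ fun u => ?_)
  change ∫ v, H v * m v * pw g 0 u * (ee (u * (lam T * (x - t))) * ee (-(u * s * v))) ∂P =
    A * h * (pw (dmp g y) 0 u * ee (u * (lam T * (x - t))))
  by_cases hu : u < κ
  · by_cases h0 : 0 ≤ u
    · simp [pw, dmp, h0, hz u h0 hu]
    · simp [pw, h0]
  · have h0 : 0 ≤ u := hκ.trans (not_lt.1 hu)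
    have h1 := ((hH.mul_ee u).mono (l' := l + κ) (by linarith [not_lt.1 hu])).rep m A Km hm hKm hA
    simp only [show ∀ v, H v * m v * pw g 0 u * (ee (u * (lam T * (x - t))) * ee (-(u * s * v))) =
      pw g 0 u * ee (u * (lam T * (x - t))) * (H v * ee (-(u * s * v)) * m v) from
      fun v => by ring]
    rw [integral_const_mul, h1]
    simp only [pw, dmp, if_pos h0]
    ring

theorem mul_Gy (hP : Win P) (hH : An P s y H h l) (S : Finset ℕ) (a : ℕ → ℝ) {T : ℝ}
    (hL : 2 * π ≤ Real.log T) (t : ℝ) :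
    An P s y (fun v => H v * Gy S a T (t + s / lam T * v) 0) (h * Gy S a T t y) l := by
  have h1 := sum hP S fun n _ => ((hH.mul_ee (uu T n)).mono (l' := l)
    (by linarith [AnAux.uu_nonneg hL n])).const_mul ((a n : ℂ) * ch n t)
  refine AnAux.congr h1 (fun v => ?_) ?_
  · rw [Gy, Finset.mul_sum]
    refine Finset.sum_congr rfl fun n _ => ?_
    rw [AnAux.ch_shift hL]
    simp only [mul_zero, neg_zero, Real.exp_zero, mul_one]
    ring
  · rw [Gy, Finset.mul_sum]
    refine Finset.sum_congr rfl fun n _ => ?_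
    rw [ofReal_mul]
    ring

theorem mul_conj_Gy (hP : Win P) (hH : An P s y H h l) {S : Finset ℕ} (a : ℕ → ℝ) {T θ : ℝ}
    (hL : 2 * π ≤ Real.log T) (hS : ∀ n ∈ S, uu T n ≤ θ) (t : ℝ) :
    An P s y (fun v => H v * conj (Gy S a T (t + s / lam T * v) 0))
      (h * conj (Gy S a T t (-y))) (l - θ) := by
  have h1 := sum hP S fun n hn => ((hH.mul_ee (-uu T n)).mono (l' := l - θ)
    (by linarith [hS n hn])).const_mul ((a n : ℂ) * conj (ch n t))
  refine AnAux.congr h1 (fun v => ?_) ?_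
  · rw [Gy, map_sum, Finset.mul_sum]
    refine Finset.sum_congr rfl fun n _ => ?_
    rw [AnAux.ch_shift hL, map_mul, map_mul, conj_ofReal, conj_ee]
    simp only [mul_zero, neg_zero, Real.exp_zero, mul_one, neg_mul]
    ring
  · rw [Gy, map_sum, Finset.mul_sum]
    refine Finset.sum_congr rfl fun n _ => ?_
    rw [map_mul, conj_ofReal, ofReal_mul]
    simp only [mul_neg, neg_mul]
    ring

end An

theorem AnAux.pow {μ P : Measure ℝ} [SFinite μ] (hμ : ZData μ) (hP : Win P) {g : ℝ → ℂ} {R T : ℝ}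
    (hg : Adm g R) (hL : 2 * π ≤ Real.log T) (s y t : ℝ) (j : ℕ) :
    An P s y (fun v => II μ g T (t + s / lam T * v) ^ j) (II μ (dmp g y) T t ^ j) 0 := by
  induction j with
  | zero => simpa only [pow_zero] using An.one
  | succ j ih =>
    simpa only [add_zero, ← pow_succ] using
      ih.mul_II hμ hP hg le_rfl (fun u h0 hu => absurd hu (not_lt.2 h0)) hL t

theorem an_expm {μ P : Measure ℝ} [SFinite μ] (hμ : ZData μ) (hP : Win P) {g : ℝ → ℂ} {R T : ℝ}
    (hg : Adm g R) (hL : 2 * π ≤ Real.log T) (s y t : ℝ) (m : ℕ) :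
    An P s y (fun v => expm m (-I * II μ g T (t + s / lam T * v)))
      (expm m (-I * II μ (dmp g y) T t)) 0 := by
  exact An.sum hP _ fun k _ => AnAux.congr ((AnAux.pow hμ hP hg hL s y t k).const_mul
    ((-I) ^ k / k.factorial)) (fun v => by rw [mul_pow]; ring) (by rw [mul_pow]; ring)

theorem an_expm_sub {μ P : Measure ℝ} [SFinite μ] (hμ : ZData μ) (hP : Win P) {g : ℝ → ℂ}
    {R T a b : ℝ} (hg : Adm g R) {χ : ℝ → ℝ} (hχ : Cut χ a b) (hb : 0 < b)
    (hL : 2 * π ≤ Real.log T) (s y t : ℝ) (m : ℕ) :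
    ∃ h, An P s y (fun v => expm m (-I * II μ g T (t + s / lam T * v)) -
      expm m (-I * II μ (lo g χ) T (t + s / lam T * v))) h a := by
  have hlo := hg.lo hχ hb
  have hhi := hχ.adm_hi hg.pos hg.cd hg.zero
  have key : ∀ j : ℕ, ∃ h, An P s y (fun v => II μ g T (t + s / lam T * v) ^ j -
      II μ (lo g χ) T (t + s / lam T * v) ^ j) h a := fun j => by
    induction j with
    | zero => exact ⟨0, AnAux.congr An.zero (fun v => by simp) rfl⟩
    | succ j ih =>
      obtain ⟨h, ih⟩ := ih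
      have h1 := ih.mul_II hμ hP hg le_rfl (fun u h0 hu => absurd hu (not_lt.2 h0)) hL t
      have h2 := (AnAux.pow hμ hP hlo hL s y t j).mul_II hμ hP hhi hχ.apos.le
        (fun u h0 hu => by simp [hi, hχ.one u (by rw [abs_of_nonneg h0]; exact hu.le)]) hL t
      rw [add_zero] at h1
      rw [zero_add] at h2
      refine ⟨_, AnAux.congr (h1.add hP h2) (fun v => ?_) rfl⟩
      have e := hg.split hμ hχ hb hL (t + s / lam T * v)
      rw [pow_succ, pow_succ]
      linear_combination (-II μ (lo g χ) T (t + s / lam T * v) ^ j) * e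
  choose h hh using key
  refine ⟨_, AnAux.congr (An.sum hP (Finset.range (m + 1)) fun k _ =>
    (hh k).const_mul ((-I) ^ k / k.factorial)) (fun v => ?_) rfl⟩
  rw [expm, expm, ← Finset.sum_sub_distrib]
  refine Finset.sum_congr rfl fun k _ => ?_
  rw [mul_pow, mul_pow]
  ring

theorem an_expm_sub_one {μ P : Measure ℝ} [SFinite μ] (hμ : ZData μ) (hP : Win P) {g : ℝ → ℂ}
    {R T κ : ℝ} (hg : Adm g R) (hκ : 0 ≤ κ) (hz : ∀ u, 0 ≤ u → u < κ → g u = 0)
    (hL : 2 * π ≤ Real.log T) (s y t : ℝ) (m : ℕ) :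
    ∃ h, An P s y (fun v => expm m (-I * II μ g T (t + s / lam T * v)) - 1) h κ := by
  have key : ∀ j : ℕ, An P s y (fun v => II μ g T (t + s / lam T * v) ^ (j + 1))
      (II μ (dmp g y) T t ^ (j + 1)) κ := fun j => by
    simpa only [zero_add, ← pow_succ] using
      (AnAux.pow hμ hP hg hL s y t j).mul_II hμ hP hg hκ hz hL t
  refine ⟨_, AnAux.congr (An.sum hP (Finset.range m) fun k _ =>
    (key k).const_mul ((-I) ^ (k + 1) / (k + 1).factorial)) (fun v => ?_) rfl⟩
  rw [expm, Finset.sum_range_succ', pow_zero, Nat.factorial_zero, Nat.cast_one, div_one,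
    add_sub_cancel_right]
  refine Finset.sum_congr rfl fun k _ => ?_
  rw [mul_pow]
  ring

end Pool.Agent.P.MP_7eacff_nt.Rig
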