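import Pool.Agent.P.MP_7eacff_nt.Rig.Defs

/-!
The finite family of points near a given height.
-/

open Complex Filter Topology MeasureTheory Set
open scoped Real ENNReal ComplexConjugate

namespace Pool.Agent.P.MP_7eacff_nt.Rig

theorem sep_mono {μ : Measure ℝ} {c c' R R' T t : ℝ} (h : Sep μ c R T t) (hc : c' ≤ c)
    (hR : R' ≤ R) : Sep μ c' R' T t := by
  intro x
  refine le_trans (measure_mono ?_) (h x)
  rintro y ⟨h1, h2, h3⟩
  exact ⟨h1.trans hR, h2, h3.trans (by linarith only [hc])⟩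

namespace NearAux

theorem restrict_eq {μ : Measure ℝ} {γ : ℕ → ℝ} (hγ : Enum μ γ) {A : Set ℝ} (hA : A ⊆ Ioi 0)
    (hm : MeasurableSet A) {s : Finset ℕ} (hs : ∀ n, n ∈ s ↔ γ n ∈ A) :
    μ.restrict A = ∑ n ∈ s, Measure.dirac (γ n) := by
  classical
  ext B hB
  rw [Measure.restrict_apply hB, hγ.meas _ (inter_subset_right.trans hA) (hB.inter hm),
    Measure.finsetSum_apply]
  have e : γ ⁻¹' (B ∩ A) = ((s.filter fun n => γ n ∈ B : Finset ℕ) : Set ℕ) := by
    ext n
    simp only [mem_preimage, mem_inter_iff, Finset.coe_filter, mem_ofPred_eq, hs, and_comm]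
  rw [e, encard_coe_eq_coe_finsetCard, ENat.toENNReal_coe, Finset.card_filter]
  simp only [Measure.dirac_apply' _ hB, indicator, Pi.one_apply]
  push_cast
  rfl

theorem pois_eq (ξ : ℝ) {y : ℝ} (hy : 0 < y) (x : ℝ) :
    y / π / ((x - ξ) ^ 2 + y ^ 2) = 1 / (π * y) * (1 + ((x - ξ) / y) ^ 2)⁻¹ := by
  have := Real.pi_pos
  field_simp
  ring

theorem pois_integrable (ξ : ℝ) {y : ℝ} (hy : 0 < y) :
    Integrable fun x : ℝ => y / π / ((x - ξ) ^ 2 + y ^ 2) := by
  simp only [pois_eq ξ hy]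
  exact ((integrable_inv_one_add_sq.comp_div hy.ne').comp_sub_right ξ).const_mul _

theorem pois_integral (ξ : ℝ) {y : ℝ} (hy : 0 < y) :
    ∫ x : ℝ, y / π / ((x - ξ) ^ 2 + y ^ 2) = 1 := by
  simp only [pois_eq ξ hy]
  rw [integral_const_mul, integral_sub_right_eq_self (fun x : ℝ => (1 + (x / y) ^ 2)⁻¹) ξ,
    Measure.integral_comp_div (fun x : ℝ => (1 + x ^ 2)⁻¹) y, integral_univ_inv_one_add_sq,
    abs_of_pos hy, smul_eq_mul]
  have := Real.pi_pos
  field_simp

theorem meas_win {W : ℝ → ℝ} (hi : Integrable W) {c : ℝ} (hc : 0 ≤ c) :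
    Measurable fun y => ∫ x in Icc (y - c) y, W x := by
  have h1 : Continuous fun y => ∫ x in (0 : ℝ)..y, W x :=
    intervalIntegral.continuous_primitive (fun _ _ => hi.intervalIntegrable) 0
  have e : (fun y => ∫ x in Icc (y - c) y, W x) =
      fun y => (∫ x in (0 : ℝ)..y, W x) - ∫ x in (0 : ℝ)..(y - c), W x := by
    funext y
    rw [intervalIntegral.integral_interval_sub_left hi.intervalIntegrable hi.intervalIntegrable,
      intervalIntegral.integral_of_le (by linarith only [hc]), integral_Icc_eq_integral_Ioc]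
  rw [e]
  exact (h1.sub (h1.comp (continuous_id.sub continuous_const))).measurable

theorem pois_low (ξ a : ℝ) {y c : ℝ} (hy : 0 < y) (hc : 0 < c) :
    c * (y / π) / (2 + 2 * c ^ 2 / y ^ 2) * (1 / ((a - ξ) ^ 2 + y ^ 2)) ≤
      ∫ x in Icc (a - c) a, y / π / ((x - ξ) ^ 2 + y ^ 2) := by
  have hπ := Real.pi_pos
  have h1 := setIntegral_ge_of_const_le_real (μ := volume) (s := Icc (a - c) a)
    (f := fun x : ℝ => y / π / ((x - ξ) ^ 2 + y ^ 2))
    (c := y / π / ((2 + 2 * c ^ 2 / y ^ 2) * ((a - ξ) ^ 2 + y ^ 2))) measurableSet_Icc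
    measure_Icc_lt_top.ne (fun x hx => ?_) (pois_integrable ξ hy).integrableOn
  · refine le_trans (le_of_eq ?_) h1
    rw [Real.volume_real_Icc_of_le (by linarith only [hc])]
    field_simp
    ring
  · refine div_le_div_of_nonneg_left (by positivity) (by positivity) ?_
    have h2 : (a - x) ^ 2 ≤ c ^ 2 := by
      apply sq_le_sq'
      · linarith only [hx.2, hc]
      · linarith only [hx.1]
    have h3 : 2 * c ^ 2 / y ^ 2 * y ^ 2 = 2 * c ^ 2 := div_mul_cancel₀ _ (by positivity)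
    have h4 : 0 ≤ 2 * c ^ 2 / y ^ 2 * (a - ξ) ^ 2 := by positivity
    nlinarith only [h2, h3, h4, sq_nonneg (a - ξ + (a - x)), sq_nonneg y]

end NearAux

open NearAux

theorem exists_near {μ : Measure ℝ} [SFinite μ] (hμ : ZData μ) {γ : ℕ → ℝ} (hγ : Enum μ γ)
    {c R T t : ℝ} (hc : 1 / 4 ≤ c) (hc' : c ≤ 1 / 2) (hL : 2 * π ≤ Real.log T) (hR : 0 ≤ R)
    (ht : R < t) (hs : Sep μ c R T t) : ∃ s : Finset ℕ,
      (∀ n, n ∈ s ↔ |lam T * (γ n - t)| ≤ R) ∧ Sparse s (fun n => lam T * (γ n - t)) ∧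
      ∀ h : ℝ → ℂ, ∫ y in {y | |lam T * (y - t)| ≤ R}, h y ∂μ = ∑ n ∈ s, h (γ n) := by
  have hl : 1 ≤ lam T := one_le_lam hL
  have hm : MeasurableSet {y | |lam T * (y - t)| ≤ R} :=
    measurableSet_le (by fun_prop) measurable_const
  have hA : {y | |lam T * (y - t)| ≤ R} ⊆ Ioi 0 := by
    intro y hy
    have h1 : |lam T * (y - t)| ≤ R := hy
    rw [abs_mul, abs_of_pos (by linarith only [hl])] at h1
    have h2 : |y - t| ≤ R := (le_mul_of_one_le_left (abs_nonneg _) hl).trans h1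
    have h3 := (abs_le.1 h2).1
    exact mem_Ioi.2 (by linarith only [h3, ht])
  have hfin : (γ ⁻¹' {y | |lam T * (y - t)| ≤ R}).Finite := by
    have h1 := hμ.window_ne_top (2 * R) hL t
    rw [mul_div_cancel_left₀ R two_ne_zero, hγ.meas _ hA hm] at h1
    exact encard_ne_top_iff.1 (by simpa using h1)
  have hmem : ∀ n, n ∈ hfin.toFinset ↔ γ n ∈ {y | |lam T * (y - t)| ≤ R} := fun n =>
    hfin.mem_toFinset
  have hres := restrict_eq hγ hA hm hmem
  refine ⟨hfin.toFinset, hmem, fun ξ y hy => ?_, fun h => ?_⟩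
  · have hc0 : 0 < c := by linarith only [hc]
    have hπ := Real.pi_pos
    have h1 := hs.near_le (W := fun x : ℝ => y / π / ((x - ξ) ^ 2 + y ^ 2))
      (fun x => by positivity)
      (Continuous.div continuous_const (by fun_prop) fun x => by positivity)
      (pois_integrable ξ hy) (pois_integral ξ hy) (meas_win (pois_integrable ξ hy) hc0.le)
    rw [hres, integral_finsetSum_measure fun n _ => integrable_dirac enorm_lt_top] at h1
    simp only [integral_dirac] at h1
    have h2 := (Finset.sum_le_sum fun n (_ : n ∈ hfin.toFinset) =>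
      pois_low ξ (lam T * (γ n - t)) hy hc0).trans h1
    rw [← Finset.mul_sum, ← le_div_iff₀' (by positivity)] at h2
    refine h2.trans ?_
    have e : 1 / (c * (y / π) / (2 + 2 * c ^ 2 / y ^ 2)) =
        2 * π / c * (1 / y) + 2 * π * c * (1 / y ^ 3) := by
      field_simp
    have h3 : 2 * π / c ≤ 26 := by
      rw [div_le_iff₀ hc0]
      linarith only [hc, Real.pi_lt_d2]
    have h4 : 2 * π * c ≤ 26 := by nlinarith only [hc', Real.pi_lt_d2, hπ]
    rw [e, mul_add]
    exact add_le_add (mul_le_mul_of_nonneg_right h3 (by positivity))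
      (mul_le_mul_of_nonneg_right h4 (by positivity))
  · rw [hres, integral_finsetSum_measure fun n _ => integrable_dirac enorm_lt_top]
    simp only [integral_dirac]

theorem norm_far_le {μ : Measure ℝ} (hμ : ZData μ) {h : ℝ → ℂ} {K R T : ℝ}
    (hL : 2 * π ≤ Real.log T) (hR : 1 ≤ R) (t : ℝ) (hK : ∀ x, R ≤ |x| → ‖h x‖ ≤ K / x ^ 2) :
    ‖∫ y in {y | |lam T * (y - t)| ≤ R}ᶜ, h (lam T * (y - t)) ∂μ‖ ≤
      2 * K / R ^ 2 * SdR μ R T t := by
  have hR0 : 0 < R := by linarith only [hR]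
  have hK0 : 0 ≤ K := by
    have h1 := (norm_nonneg _).trans (hK R (le_abs_self R))
    exact (div_nonneg_iff.1 h1).elim (fun h => h.1)
      fun h => absurd h.2 (not_le.2 (by positivity))
  have hm : MeasurableSet {y | |lam T * (y - t)| ≤ R} :=
    measurableSet_le (by fun_prop) measurable_const
  have h1 := hμ.norm_stat_le_SdR (h := fun x => if |x| ≤ R then 0 else h x) (K := 2 * K / R ^ 2)
    hR (fun x => ?_) hL t
  · refine le_trans (le_of_eq ?_) h1
    rw [stat, ← integral_indicator hm.compl]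
    refine congrArg _ (integral_congr_ae (ae_of_all _ fun y => ?_))
    simp only [indicator, mem_compl_iff, mem_ofPred_eq, ite_not]
  · split_ifs with hx
    · rw [norm_zero]
      positivity
    · have hx' := (not_le.1 hx).le
      refine (hK x hx').trans ?_
      have h2 : R ^ 2 ≤ x ^ 2 := by
        rw [← sq_abs x]
        exact pow_le_pow_left₀ hR0.le hx' 2
      have h3 : 0 < x ^ 2 := lt_of_lt_of_le (by positivity) h2
      have e : 2 * K / R ^ 2 / (1 + (x / R) ^ 2) = 2 * K / (R ^ 2 + x ^ 2) := by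
        field_simp
      rw [e, div_le_div_iff₀ h3 (by positivity)]
      nlinarith only [h2, hK0]

end Pool.Agent.P.MP_7eacff_nt.Rig
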