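import Pool.Agent.P.MP_7eacff_nt.Rig.Phi
import Pool.Agent.P.MP_7eacff_nt.Rig.Near

/-!
The one-sided statistic in terms of the nearby points.
-/

open Complex Filter Topology MeasureTheory Set
open scoped Real ENNReal ComplexConjugate

namespace Pool.Agent.P.MP_7eacff_nt.Rig

namespace ApproxAux

theorem int_le {F : ℝ → ℝ} {R M : ℝ} (hR : 0 ≤ R) (h : ∀ u, 0 < u → |F u| ≤ M)
    (hz : ∀ u, R < u → F u = 0) : ∫ u in Ioi (0 : ℝ), F u ≤ M * R := by
  rw [setIntegral_eq_of_subset_of_forall_sdiff_eq_zero measurableSet_Ioi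
    (show Ioc 0 R ⊆ Ioi 0 from Ioc_subset_Ioi_self)
    fun u hu => hz u (not_le.1 fun h1 => hu.2 ⟨hu.1, h1⟩)]
  have := norm_setIntegral_le_of_norm_le_const (μ := volume) (s := Ioc 0 R) (f := F) (C := M)
    measure_Ioc_lt_top fun u hu => h u hu.1
  rw [Real.volume_real_Ioc_of_le hR, sub_zero] at this
  exact (le_abs_self _).trans this

theorem one_le_four_pi_sq : 1 ≤ 4 * π ^ 2 := by nlinarith only [Real.pi_gt_three]

theorem phi_bump {G : ℝ → ℂ} {R M : ℝ} (h : Bump G R M) (hR : 0 < R) (h0 : G 0 = 0) {a : ℂ}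
    (ha : 0 ≤ a.im) : ‖Phi G a‖ ≤ M * (1 + 2 * R) / (a.re ^ 2 + 1) := by
  have hM := h.nonneg
  have h1 : ‖Phi G a‖ ≤ M * R :=
    (norm_phi_le (h.cd.continuous.integrable_of_hasCompactSupport
      (hasCompactSupport_of_zero h.zero)).integrableOn ha).trans
      (int_le hR.le (fun u _ => by simpa using h.b0 u) fun u hu => by
        rw [h.zero u (hu.trans_le (le_abs_self u)), norm_zero])
  have h2 : ‖Phi G a‖ * a.re ^ 2 ≤ M + M * R := by
    by_cases hz : a = 0
    · simp only [hz, zero_re, ne_eq, OfNat.ofNat_ne_zero, not_false_eq_true, zero_pow, mul_zero]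
      positivity
    have h3 := norm_phi_le_sq ⟨hR, h.cd, h.zero, h0⟩ hz
    have h4 : ∫ u in Ioi (0 : ℝ), ‖deriv (deriv G) u‖ * Real.exp (-(2 * π * u * a.im)) ≤ M * R :=
      int_le hR.le (fun u hu => by
        rw [abs_of_nonneg (by positivity)]
        exact (mul_le_of_le_one_right (norm_nonneg _) (Real.exp_le_one_iff.2
          (neg_nonpos.2 (by positivity)))).trans (h.b2 u)) fun u hu => by
        rw [deriv_zero_of_zero (deriv_zero_of_zero h.zero) u (hu.trans_le (le_abs_self u)),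
          norm_zero, zero_mul]
    have h5 : 0 < ‖a‖ := norm_pos_iff.2 hz
    rw [le_div_iff₀ (by positivity)] at h3
    have h6 : a.re ^ 2 ≤ 4 * π ^ 2 * ‖a‖ ^ 2 :=
      (sq_le_sq' (neg_le_of_abs_le (abs_re_le_norm a)) (le_of_abs_le (abs_re_le_norm a))).trans
        (le_mul_of_one_le_left (by positivity) one_le_four_pi_sq)
    linarith only [h3, h4, h.b1 0, mul_le_mul_of_nonneg_left h6 (norm_nonneg (Phi G a))]
  rw [le_div_iff₀ (by positivity)]
  linarith only [h1, h2]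

theorem phi_scale (G : ℝ → ℂ) {η : ℝ} (hη : 0 < η) (a : ℂ) :
    Phi (fun u => G (η⁻¹ * u)) a = η * Phi G (η * a) := by
  have h := integral_comp_mul_left_Ioi (fun v : ℝ => G v * EE (v * (η * a))) 0 (inv_pos.2 hη)
  simp only [mul_zero, inv_inv, real_smul] at h
  rw [Phi, Phi, ← h]
  congr 1; funext u
  have : (η : ℂ) ≠ 0 := by exact_mod_cast hη.ne'
  congr 2; push_cast; field_simp

theorem bump_scale {f : ℝ → ℂ} {S L η : ℝ} (h : Bump f S L) (hη : 0 < η) (h1 : η ≤ 1) :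
    Bump (fun u => f (η * u)) (S / η) L := by
  have hL := h.nonneg
  have e1 : deriv (fun u => f (η * u)) = fun u => η • deriv f (η * u) :=
    funext fun u => deriv_comp_mul_left η f u
  have m : ∀ z : ℂ, ‖z‖ ≤ L → ‖η • z‖ ≤ L := fun z hz => by
    rw [norm_smul, Real.norm_of_nonneg hη.le]
    exact (mul_le_of_le_one_left (norm_nonneg _) h1).trans hz
  refine ⟨h.cd.comp (contDiff_const.mul contDiff_id), fun u hu => h.zero _ ?_, fun u => h.b0 _,
    fun u => by rw [e1]; exact m _ (h.b1 _), fun u => ?_⟩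
  · rwa [abs_mul, abs_of_pos hη, ← div_lt_iff₀' hη]
  · rw [e1, deriv_fun_const_smul_field, deriv_comp_mul_left η (deriv f) u]
    exact m _ (m _ (h.b2 _))

theorem int_phi {g : ℝ → ℂ} {R : ℝ} (hg : Continuous g) (hz : ∀ u, R < |u| → g u = 0) (a : ℂ) :
    Integrable fun u : ℝ => g u * EE (u * a) :=
  Continuous.integrable_of_hasCompactSupport (by unfold EE; fun_prop)
    (hasCompactSupport_of_zero (R := R) fun u hu => by rw [hz u hu, zero_mul])

theorem iF_eq_phi {g : ℝ → ℂ} (hi : Integrable g) (hc : ∀ u, g (-u) = conj (g u)) (ξ : ℝ) :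
    iF g ξ = ((2 * (Phi g ξ).re : ℝ) : ℂ) := by
  have h1 := integrable_mul_ee hi ξ
  have e : Phi g ξ = ∫ u in Ioi (0 : ℝ), g u * ee (u * ξ) := by
    simp only [Phi, ← ofReal_mul, EE_ofReal]
  rw [← add_conj, iF, ← integral_add_compl measurableSet_Ioi h1, compl_Ioi, e, ← integral_conj,
    ← neg_zero (G := ℝ), ← integral_comp_neg_Ioi, neg_zero]
  simp only [hc, map_mul, conj_ee, neg_mul]

theorem int_ell {c : ℝ} {Q : Measure ℝ} [IsFiniteMeasure Q] {a : ℂ} (ha : 0 < a.im) :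
    Integrable (fun v : ℝ => ell c (a - v)) Q := by
  have hn : ∀ v s : ℝ, a.im ≤ ‖a - v - s‖ := fun v s => by
    simpa using (le_abs_self _).trans (abs_im_le_norm (a - v - s))
  refine (integrable_const (1 / a.im * |c - 0|)).mono' (Continuous.aestronglyMeasurable ?_)
    (ae_of_all _ fun v => intervalIntegral.norm_integral_le_of_norm_le_const fun s _ => ?_)
  · refine intervalIntegral.continuous_parametric_intervalIntegral_of_continuous'
      (f := fun v s : ℝ => 1 / (a - v - s)) ?_ 0 c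
    exact Continuous.div continuous_const (by fun_prop) fun p =>
      norm_pos_iff.1 (ha.trans_le (hn _ _))
  · rw [norm_div, norm_one]
    exact one_div_le_one_div_of_le ha (hn _ _)

theorem near_bound {ι : Type*} {s : Finset ι} {X : ι → ℝ} (hsp : Sparse s X) {f : ℝ → ℂ}
    {c S L C η : ℝ} (hf : Sym2 f c S L) (hc0 : 0 ≤ c) (hc : c ≤ 1 / 2) {χ : ℝ → ℝ}
    (hχ : Continuous χ) (hη : 0 < η) (hη1 : η ≤ 1) (hC : 0 ≤ C)
    (H : ∀ a : ℂ, 0 ≤ a.im →
      ‖Phi (fun u => 2 * π * I * u * lo f χ u) a‖ ≤ C / (a.re ^ 2 + η⁻¹ ^ 2))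
    (x : ℝ) {y : ℝ} (hy : 0 < y) :
    ‖-I * ∑ n ∈ s, Phi (hi f χ) (X n - x + y * I) - ∑ n ∈ s, ell c (X n - x + y * I) +
      -I * ∑ n ∈ s, Phi (lo f χ) (X n)‖ ≤
      13 * L * (1 / y + 1 / y ^ 3) / S + 52 * C * η * (|x| + y) := by
  obtain ⟨Q, hQ, hQi, hQ1, hrep⟩ := hf.rep
  have hfc := hf.bump.cd.continuous
  have hL := hf.bump.nonneg
  have hS := hf.sym.pos
  have hlc : Continuous (lo f χ) := by unfold lo; fun_prop
  have hlz : ∀ u, S < |u| → lo f χ u = 0 := fun u hu => by simp [lo, hf.bump.zero u hu]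
  have him : ∀ n, 0 < (X n - x + y * I : ℂ).im := fun n => by simpa using hy
  have e1 : ∀ a, Phi (hi f χ) a = Phi f a - Phi (lo f χ) a := fun a => by
    rw [Phi, Phi, Phi, ← integral_sub (int_phi hfc hf.bump.zero a).integrableOn
      (int_phi hlc hlz a).integrableOn]
    congr 1; funext u
    simp only [hi, lo]; ring
  have t2 : ‖∑ n ∈ s, (-I * Phi f (X n - x + y * I) - ell c (X n - x + y * I))‖ ≤
      13 * L * (1 / y + 1 / y ^ 3) / S := by
    have e : ∀ n, -I * Phi f (X n - x + y * I) - ell c (X n - x + y * I) =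
        ∫ v : ℝ, (ell c (X n - x + y * I - v) - ell c (X n - x + y * I)) ∂Q := fun n => by
      rw [hrep _ (him n), integral_sub (int_ell (him n)) (integrable_const _)]
      simp
    simp only [e]
    have hi : ∀ n ∈ s, Integrable
        (fun v : ℝ => ell c (X n - x + y * I - v) - ell c (X n - x + y * I)) Q :=
      fun n _ => (int_ell (him n)).sub (integrable_const _)
    rw [← integral_finsetSum _ hi]
    refine (norm_integral_le_of_norm_le (hQi.mul_const (c * (26 * (1 / y + 1 / y ^ 3))))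
      (ae_of_all _ fun v => (norm_sum_le _ _).trans ((hsp.sum_ell_shift hc0 hy x v).trans_eq
        (mul_assoc _ _ _)))).trans ?_
    rw [integral_mul_const]
    calc _ ≤ L / S * (1 / 2 * (26 * (1 / y + 1 / y ^ 3))) := by gcongr
      _ = _ := by ring
  have t3 : ‖∑ n ∈ s, Phi (lo f χ) (X n - (x - y * I)) - ∑ n ∈ s, Phi (lo f χ) (X n - 0)‖ ≤
      52 * C * η * ‖(x - y * I : ℂ) - 0‖ := by
    refine Convex.norm_image_sub_le_of_norm_hasDerivWithin_le (s := {w : ℂ | w.im ≤ 0})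
      (f := fun w => ∑ n ∈ s, Phi (lo f χ) (X n - w))
      (f' := fun w => ∑ n ∈ s, Phi (fun u => 2 * π * I * u * lo f χ u) (X n - w) * -1)
      (fun w _ => (HasDerivAt.fun_sum fun n _ => (hasDerivAt_phi hlc hlz _).comp w
        ((hasDerivAt_id w).const_sub _)).hasDerivWithinAt) (fun w (hw : w.im ≤ 0) => ?_)
      (convex_halfSpace_im_le 0) (by simp) (by simpa using hy.le)
    refine (norm_sum_le _ _).trans ?_
    calc _ ≤ ∑ n ∈ s, C * (1 / ((X n - w.re) ^ 2 + η⁻¹ ^ 2)) :=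
          Finset.sum_le_sum fun n _ => by
            simpa [div_eq_mul_inv] using H (X n - w) (by simpa using hw)
      _ ≤ C * (26 * (1 / η⁻¹ + 1 / η⁻¹ ^ 3)) := by
          rw [← Finset.mul_sum]
          exact mul_le_mul_of_nonneg_left (hsp _ _ (inv_pos.2 hη)) hC
      _ ≤ C * (26 * (η + η)) := by
          rw [one_div, one_div, inv_pow, inv_inv, inv_inv]
          gcongr
          exact pow_le_of_le_one hη.le hη1 three_ne_zero
      _ = _ := by ring
  have t4 : ‖(x - y * I : ℂ) - 0‖ ≤ |x| + y := by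
    rw [sub_zero]
    exact (norm_sub_le _ _).trans_eq (by simp [abs_of_pos hy])
  have e2 : -I * ∑ n ∈ s, Phi (hi f χ) (X n - x + y * I) - ∑ n ∈ s, ell c (X n - x + y * I) +
      -I * ∑ n ∈ s, Phi (lo f χ) (X n) =
      ∑ n ∈ s, (-I * Phi f (X n - x + y * I) - ell c (X n - x + y * I)) +
      I * (∑ n ∈ s, Phi (lo f χ) (X n - (x - y * I)) - ∑ n ∈ s, Phi (lo f χ) (X n - 0)) := by
    simp only [e1, Finset.sum_sub_distrib, ← Finset.mul_sum, sub_zero, ← sub_add]
    ring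
  rw [e2]
  refine (norm_add_le _ _).trans (add_le_add t2 ?_)
  rw [norm_mul, norm_I, one_mul]
  exact t3.trans (by gcongr)

end ApproxAux

open ApproxAux

theorem low_bound {L : ℝ} {χ0 : ℝ → ℝ} (h0 : Cut χ0 (1 / 2) 1) : ∃ C, 0 < C ∧
    ∀ (f : ℝ → ℂ) (S η : ℝ), Bump f S L → 0 < η → η ≤ 1 → ∀ a : ℂ, 0 ≤ a.im →
      ‖Phi (fun u => 2 * π * I * u * lo f (fun u => χ0 (η⁻¹ * u)) u) a‖ ≤
        C / (a.re ^ 2 + η⁻¹ ^ 2) := by
  obtain ⟨B, hB, hb⟩ := exists_bump (φ := fun v : ℝ => 2 * π * I * v * χ0 v) (R := 1)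
    ((contDiff_const.mul ofRealCLM.contDiff).mul h0.cdC) fun u hu => by simp [h0.zero u hu.le]
  refine ⟨12 * (B * |L|) + 1, by positivity, fun f S η hf hη hη1 a ha => ?_⟩
  have hL := hf.nonneg
  have hη' : (η : ℂ) ≠ 0 := by exact_mod_cast hη.ne'
  have h1 := phi_bump (hb.mul (bump_scale hf hη hη1)) one_pos (by simp) (a := η * a)
    (by simpa using mul_nonneg hη.le ha)
  have e : Phi (fun u => 2 * π * I * u * lo f (fun u => χ0 (η⁻¹ * u)) u) a =
      η * Phi (fun u => (fun v : ℝ => 2 * π * I * v * χ0 v * f (η * v)) (η⁻¹ * u)) a := by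
    rw [Phi, Phi, ← integral_const_mul]
    congr 1; funext u
    simp only [lo, mul_inv_cancel_left₀ hη.ne']
    push_cast; field_simp
  rw [e, phi_scale (fun v : ℝ => 2 * π * I * v * χ0 v * f (η * v)) hη, norm_mul, norm_mul, norm_real, Real.norm_of_nonneg hη.le,
    abs_of_nonneg hL]
  simp only [mul_re, ofReal_re, ofReal_im, zero_mul, sub_zero] at h1
  calc _ ≤ η * (η * ((12 * (B * L) + 1) / ((η * a.re) ^ 2 + 1))) := by
        gcongr; exact h1.trans (by gcongr; linarith)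
    _ = _ := by field_simp

theorem high_bound {L : ℝ} {χ4 : ℝ → ℝ} (h4 : Cut χ4 (1 / 8) (1 / 4)) : ∃ C, 0 < C ∧
    ∀ (f : ℝ → ℂ) (S : ℝ), 0 < S → Bump f S L → ∀ a : ℂ, 1 ≤ a.im →
      ‖Phi (hi f χ4) a‖ ≤ C / (a.re ^ 2 + a.im ^ 2) := by
  obtain ⟨B, hB, hb⟩ := exists_bump (R := 1 / 4) h4.cdC fun u hu => by simp [h4.zero u hu.le]
  refine ⟨2 * (|L| + 4 * (|L| * B)) + 1, by positivity, fun f S hS hf a ha => ?_⟩
  have hL := hf.nonneg
  have e : hi f χ4 = fun u => f u - f u * χ4 u := by funext u; rw [hi]; ring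
  have hg : Bump (hi f χ4) S (L + 4 * (L * B)) := e ▸ hf.sub (hf.mul hb)
  have hM := hg.nonneg
  have hz : a ≠ 0 := by rintro rfl; norm_num at ha
  have h5 : 0 < ‖a‖ := norm_pos_iff.2 hz
  have h3 : ∫ u in Ioi (0 : ℝ), ‖deriv (deriv (hi f χ4)) u‖ * Real.exp (-(2 * π * u * a.im)) ≤
      L + 4 * (L * B) := by
    refine (integral_mono_of_nonneg (g := fun u => (L + 4 * (L * B)) * Real.exp (-u))
      (ae_of_all _ fun u => by positivity) ((integrableOn_exp_neg_Ioi 0).const_mul _)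
      ((ae_restrict_iff' measurableSet_Ioi).2 (ae_of_all _ fun u (hu : 0 < u) => ?_))).trans_eq ?_
    · refine mul_le_mul (hg.b2 u) (Real.exp_le_exp.2 (neg_le_neg ?_)) (by positivity) hM
      calc u = 1 * u * 1 := by ring
        _ ≤ _ := by gcongr; linarith only [Real.pi_gt_three]
    · rw [integral_const_mul, integral_exp_neg_Ioi_zero, mul_one]
  refine (norm_phi_le_sq (h4.adm_hi hS hf.cd hf.zero) hz).trans ?_
  have e2 : a.re ^ 2 + a.im ^ 2 = ‖a‖ ^ 2 := by rw [Complex.sq_norm, normSq_apply]; ring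
  rw [e2, abs_of_nonneg hL]
  exact div_le_div₀ (by positivity) (by linarith only [h3, hg.b1 0]) (by positivity)
    (le_mul_of_one_le_left (by positivity) one_le_four_pi_sq)

theorem approx {μ : Measure ℝ} [SFinite μ] (hμ : ZData μ) {γ : ℕ → ℝ} (hγ : Enum μ γ) {L : ℝ}
    {χ0 χ4 : ℝ → ℝ} (h0 : Cut χ0 (1 / 2) 1) (h4 : Cut χ4 (1 / 8) (1 / 4)) :
    ∃ C, 0 < C ∧ ∀ c ∈ Icc (1 / 4 : ℝ) (1 / 2), ∀ S f, 1 ≤ S → Sym2 f c S L →
      ∀ η, 0 < η → η ≤ 1 → ∃ K, 0 < K ∧ ∀ T t R, 2 * π ≤ Real.log T → 1 ≤ R → R < t →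
        Sep μ c R T t → ∃ (s : Finset ℕ) (A : ℂ), (∀ n, n ∈ s ↔ |lam T * (γ n - t)| ≤ R) ∧
          Sparse s (fun n => lam T * (γ n - t)) ∧
          (∀ x y : ℝ, 2 * |x| ≤ R → 0 < y →
            ‖-I * II μ (dmp (hi f fun u => χ0 (η⁻¹ * u)) y) T (t + x / lam T) -
              ∑ n ∈ s, ell c ((lam T * (γ n - t) : ℝ) - x + y * I) + A‖ ≤
              K / R ^ 2 * SdR μ R T t + C * (1 / y + 1 / y ^ 3) / S + C * η * (|x| + y)) ∧
          |A.im + π * c| ≤ ‖stat μ (iF (lo f fun u => χ0 (η⁻¹ * u))) T t - 2 * π * c‖ +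
            K / R ^ 2 * SdR μ R T t ∧
          ∀ y : ℝ, 1 ≤ y → ‖II μ (dmp (hi f χ4) y) T t‖ ≤ C / y + K / R ^ 2 * SdR μ R T t := by
  obtain ⟨C1, hC1, H1⟩ := low_bound (L := L) h0
  obtain ⟨C2, hC2, H2⟩ := high_bound (L := L) h4
  refine ⟨13 * |L| + 52 * C1 + 52 * C2, by positivity, fun c hc S f hS hf η hη hη1 => ?_⟩
  have hS0 : 0 < S := by linarith
  have hL0 := hf.bump.nonneg
  have hχ := h0.scale (inv_pos.2 hη)
  specialize H1 f S η hf.bump hη hη1
  specialize H2 f S hS0 hf.bump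
  generalize (fun u => χ0 (η⁻¹ * u)) = χ at hχ H1 ⊢
  have hg := hχ.adm_hi hS0 hf.bump.cd hf.bump.zero
  have hg4 := h4.adm_hi hS0 hf.bump.cd hf.bump.zero
  have hlz : ∀ u, S < |u| → lo f χ u = 0 := fun u hu => by simp [lo, hf.bump.zero u hu]
  have hlc : ContDiff ℝ 2 (lo f χ) := hf.bump.cd.mul hχ.cdC
  have hli : Integrable (lo f χ) :=
    hlc.continuous.integrable_of_hasCompactSupport (hasCompactSupport_of_zero hlz)
  obtain ⟨B1, hB1, hb1⟩ := exists_bump hg.cd hg.zero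
  obtain ⟨B2, hB2, hb2⟩ := exists_bump hg4.cd hg4.zero
  obtain ⟨B3, hB3, hb3⟩ := exists_bump hlc hlz
  have hK3 := norm_iF_pw_le hb3 hb3 hS0 rfl
  rw [pw_self] at hK3
  obtain ⟨K, hK⟩ : ∃ K, K = (B1 + B2 + 6 * B3 + 1) * (1 + 2 * S) := ⟨_, rfl⟩
  have hK0 : 0 < K := by rw [hK]; positivity
  have k1 : B1 * (1 + 2 * S) ≤ K := by rw [hK]; gcongr; linarith only [hB2, hB3]
  have k2 : B2 * (1 + 2 * S) ≤ K := by rw [hK]; gcongr; linarith only [hB1, hB3]
  have k3 : 6 * (1 + S) * B3 ≤ K := by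
    rw [hK, show 6 * (1 + S) * B3 = 6 * B3 * (1 + S) by ring]
    gcongr <;> linarith only [hB1, hB2, hS0]
  refine ⟨8 * K, by positivity, fun T t R hL hR ht hsep => ?_⟩
  obtain ⟨s, hs, hsp, hint⟩ := exists_near hμ hγ hc.1 hc.2 hL (by linarith) ht hsep
  have hlam : 0 < lam T := div_pos (Real.two_pi_pos.trans_le hL) Real.two_pi_pos
  have hSd : 0 ≤ SdR μ R T t := integral_nonneg fun y => by positivity
  have hsplit : ∀ h : ℝ → ℂ, Integrable (fun y => h (lam T * (y - t))) μ →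
      (∀ x, R ≤ |x| → ‖h x‖ ≤ 4 * K / x ^ 2) →
      ‖stat μ h T t - ∑ n ∈ s, h (lam T * (γ n - t))‖ ≤ 8 * K / R ^ 2 * SdR μ R T t :=
    fun h hi hb => by
      have hm : MeasurableSet {y | |lam T * (y - t)| ≤ R} :=
        measurableSet_le (by fun_prop) measurable_const
      rw [stat, ← integral_add_compl hm hi, hint, add_sub_cancel_left]
      exact (norm_far_le hμ hL hR t hb).trans_eq (by ring)
  have hII : ∀ (g : ℝ → ℂ) (B : ℝ), Adm g S → Bump g S B → B * (1 + 2 * S) ≤ K → ∀ x y : ℝ,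
      2 * |x| ≤ R → 0 < y → ‖II μ (dmp g y) T (t + x / lam T) -
        ∑ n ∈ s, Phi g ((lam T * (γ n - t) : ℝ) - x + y * I)‖ ≤ 8 * K / R ^ 2 * SdR μ R T t :=
    fun g B hg hb hB x y hx hy => by
      have e : ∀ z, iF (pw (dmp g y) 0) (lam T * (z - (t + x / lam T))) =
          Phi g ((lam T * (z - t) : ℝ) - x + y * I) := fun z => by
        rw [iF_dmp, ← ofReal_sub, show lam T * (z - (t + x / lam T)) = lam T * (z - t) - x by
          rw [← sub_sub, mul_sub, mul_div_cancel₀ _ hlam.ne']]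
      have hi := (adm_dmp hg y).integrable_II hμ hL (t + x / lam T)
      simp only [e] at hi
      have := hsplit (fun ξ => Phi g (ξ - x + y * I)) hi fun ξ hξ => by
        refine (phi_bump hb hg.pos hg.at0 (by simpa using hy.le)).trans ?_
        have h1 : |ξ| ≤ 2 * |ξ - x| := by linarith only [hx, hξ, abs_sub_abs_le_abs_sub ξ x]
        have h2 := pow_le_pow_left₀ (abs_nonneg _) h1 2
        have h3 : 0 < |ξ| ^ 2 := pow_pos (by linarith) 2
        rw [mul_pow, sq_abs, sq_abs] at h2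
        rw [sq_abs] at h3
        simp only [add_re, sub_re, ofReal_re, mul_re, I_re, mul_zero, ofReal_im, I_im, mul_one,
          sub_self, add_zero]
        calc _ ≤ K / (ξ ^ 2 / 4) := div_le_div₀ hK0.le hB (by positivity) (by linarith only [h2])
          _ = _ := by field_simp
      simpa only [II, stat, e] using this
  refine ⟨s, -I * ∑ n ∈ s, Phi (lo f χ) (lam T * (γ n - t) : ℝ), hs, hsp, fun x y hx hy => ?_,
    ?_, fun y hy => ?_⟩
  · have t1 := hII _ _ hg hb1 k1 x y hx hy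
    have t2 := near_bound hsp hf (by linarith only [hc.1]) hc.2 hχ.cd.continuous hη hη1 hC1.le H1
      x hy
    generalize II μ (dmp (hi f χ) y) T (t + x / lam T) = J at t1 ⊢
    generalize ∑ n ∈ s, Phi (hi f χ) ((lam T * (γ n - t) : ℝ) - x + y * I) = P at t1 t2
    generalize ∑ n ∈ s, ell c ((lam T * (γ n - t) : ℝ) - x + y * I) = E at t2 ⊢
    generalize -I * ∑ n ∈ s, Phi (lo f χ) (lam T * (γ n - t) : ℝ) = A at t2 ⊢
    rw [show -I * J - E + A = -I * (J - P) + (-I * P - E + A) by ring, add_assoc]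
    refine (norm_add_le _ _).trans (add_le_add (by simpa using t1) (t2.trans ?_))
    rw [abs_of_nonneg hL0]
    gcongr <;> linarith only [hC1, hC2, hL0]
  · have t1 := hsplit (iF (lo f χ)) (hμ.integrable_stat (continuous_iF hli).measurable hK3 hL t)
      fun ξ hξ => (hK3 ξ).trans (div_le_div₀ (by positivity) (by linarith only [k3, hK0])
        (by rw [← sq_abs]; exact pow_pos (by linarith) 2) (by linarith))
    have hcj : ∀ u, lo f χ (-u) = conj (lo f χ u) := fun u => by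
      rw [lo, lo, hχ.even, map_mul, conj_ofReal, ← hf.sym.conj u, Complex.conj_conj]
    simp only [iF_eq_phi hli hcj] at t1
    generalize stat μ (iF (lo f χ)) T t = J at t1 ⊢
    have h1 := abs_le.1 ((abs_re_le_norm _).trans t1)
    have h2 := abs_le.1 (abs_re_le_norm (J - 2 * π * c))
    simp only [sub_re, re_sum, ofReal_re, ← Finset.mul_sum] at h1
    simp only [sub_re, mul_re, ofReal_re, ofReal_im, re_ofNat, im_ofNat, mul_zero,
      sub_zero] at h2
    simp only [neg_mul, neg_im, mul_im, I_re, zero_mul, I_im, one_mul, zero_add, re_sum]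
    have h3 := (norm_nonneg _).trans t1
    exact abs_le.2 ⟨by linarith only [h1, h2, h3, norm_nonneg (J - 2 * π * c)],
      by linarith only [h1, h2, h3, norm_nonneg (J - 2 * π * c)]⟩
  · have hy0 : 0 < y := by linarith
    have t1 := hII _ _ hg4 hb2 k2 0 y (by simpa using zero_le_one.trans hR) hy0
    rw [zero_div, add_zero] at t1
    have t2 : ‖∑ n ∈ s, Phi (hi f χ4) ((lam T * (γ n - t) : ℝ) - (0 : ℝ) + y * I)‖ ≤
        C2 * (26 * (1 / y + 1 / y ^ 3)) := by
      refine (norm_sum_le _ _).trans (le_trans ?_ (mul_le_mul_of_nonneg_left (hsp 0 y hy0) hC2.le))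
      rw [Finset.mul_sum]
      refine Finset.sum_le_sum fun n _ => ?_
      beta_reduce
      generalize lam T * (γ n - t) = z
      refine (H2 _ (by simpa using hy)).trans_eq ?_
      simp [div_eq_mul_inv]
    have t3 : 1 / y ^ 3 ≤ 1 / y := one_div_le_one_div_of_le hy0 (le_self_pow₀ hy three_ne_zero)
    have t4 : C2 * (26 * (1 / y + 1 / y ^ 3)) ≤ (13 * |L| + 52 * C1 + 52 * C2) / y := by
      calc _ ≤ C2 * (26 * (1 / y + 1 / y)) := by gcongr
        _ = 52 * C2 / y := by ring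
        _ ≤ _ := by gcongr; linarith only [abs_nonneg L, hC1]
    linarith only [t1, t2, t4, norm_le_insert' (II μ (dmp (hi f χ4) y) T t)
      (∑ n ∈ s, Phi (hi f χ4) ((lam T * (γ n - t) : ℝ) - (0 : ℝ) + y * I))]

end Pool.Agent.P.MP_7eacff_nt.Rig
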