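import Pool.Agent.P.MP_7eacff_nt.Rig.Defs

/-!
Square norms of Dirichlet convolutions with functions supported on prime powers.
-/

open Complex Filter Topology MeasureTheory Set ArithmeticFunction
open scoped Real ENNReal ComplexConjugate

namespace Pool.Agent.P.MP_7eacff_nt.Rig

namespace CreateAux

/-- The vector of values on `[1, N]`. -/
noncomputable def vec (N : ℕ) (f : ArithmeticFunction ℂ) : EuclideanSpace ℂ (Finset.Icc 1 N) :=
  WithLp.toLp 2 fun n => f n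

theorem norm_vec (N : ℕ) (f : ArithmeticFunction ℂ) : ‖vec N f‖ = √(nsq N f) := by
  rw [EuclideanSpace.norm_eq, nsq, ← Finset.sum_coe_sort (Finset.Icc 1 N)]
  rfl

theorem vec_add (N : ℕ) (f g : ArithmeticFunction ℂ) : vec N (f + g) = vec N f + vec N g := by
  ext n; simp [vec]

theorem vec_sub (N : ℕ) (f g : ArithmeticFunction ℂ) : vec N (f - g) = vec N f - vec N g := by
  ext n; simp [vec, sub_eq_add_neg]

theorem vec_smul (N : ℕ) (a : ℂ) (f : ArithmeticFunction ℂ) : vec N (a • f) = a • vec N f := by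
  ext n; simp [vec]

theorem sum_pp_le (n : ℕ) (hn : n ≠ 0) :
    ∑ q ∈ n.divisors with IsPrimePow q, (((cardFactors q : ℝ)) ^ 2)⁻¹ ≤
      2 * n.primeFactors.card := by
  have hinj : Set.InjOn (fun q : ℕ => (q.minFac, cardFactors q))
      (n.divisors.filter IsPrimePow : Finset ℕ) := by
    intro q hq q' hq' h
    simp only [Finset.coe_filter, mem_ofPred_eq] at hq hq'
    obtain ⟨p, k, hp, hk, rfl⟩ := (isPrimePow_nat_iff _).1 hq.2
    obtain ⟨p', k', hp', hk', rfl⟩ := (isPrimePow_nat_iff _).1 hq'.2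
    simp only [Prod.mk.injEq, cardFactors_apply_prime_pow hp, cardFactors_apply_prime_pow hp',
      hp.pow_minFac hk.ne', hp'.pow_minFac hk'.ne'] at h
    rw [h.1, h.2]
  have h1 : ∑ q ∈ n.divisors with IsPrimePow q, (((cardFactors q : ℝ)) ^ 2)⁻¹ =
      ∑ x ∈ (n.divisors.filter IsPrimePow).image (fun q : ℕ => (q.minFac, cardFactors q)),
        (((x.2 : ℕ) : ℝ) ^ 2)⁻¹ := by
    rw [Finset.sum_image hinj]
  rw [h1]
  calc _ ≤ ∑ x ∈ n.primeFactors ×ˢ Finset.Ioo 0 (n + 1), (((x.2 : ℕ) : ℝ) ^ 2)⁻¹ := by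
        refine Finset.sum_le_sum_of_subset_of_nonneg ?_ fun _ _ _ => by positivity
        intro x hx
        obtain ⟨q, hq, rfl⟩ := Finset.mem_image.1 hx
        obtain ⟨hq1, hq2⟩ := Finset.mem_filter.1 hq
        obtain ⟨p, k, hp, hk, rfl⟩ := (isPrimePow_nat_iff _).1 hq2
        have hd := Nat.dvd_of_mem_divisors hq1
        simp only [cardFactors_apply_prime_pow hp, hp.pow_minFac hk.ne', Finset.mem_product,
          Nat.mem_primeFactors, Finset.mem_Ioo]
        refine ⟨⟨hp, (dvd_pow_self p hk.ne').trans hd, hn⟩, hk, ?_⟩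
        have := Nat.le_of_dvd (Nat.pos_of_ne_zero hn) hd
        have := Nat.lt_pow_self (n := k) hp.one_lt
        omega
    _ = ∑ _p ∈ n.primeFactors, ∑ k ∈ Finset.Ioo 0 (n + 1), ((k : ℝ) ^ 2)⁻¹ := by
        rw [Finset.sum_product]
    _ ≤ ∑ _p ∈ n.primeFactors, (2 : ℝ) := by
        refine Finset.sum_le_sum fun p _ => ?_
        simpa using sum_Ioo_inv_sq_le (α := ℝ) 0 (n + 1)
    _ = _ := by simp [mul_comm]

theorem omega_le {q r K : ℕ} (hq : IsPrimePow q) (hr : r ≠ 0) (h : r.primeFactors.card ≤ K) :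
    (q * r).primeFactors.card ≤ K + 1 := by
  rw [Nat.primeFactors_mul hq.ne_zero hr]
  have h1 : q.primeFactors.card = 1 := isPrimePow_iff_card_primeFactors_eq_one.1 hq
  have := Finset.card_union_le q.primeFactors r.primeFactors
  omega

theorem mem_of_anti {N n : ℕ} (hn : n ∈ Finset.Icc 1 N) {x : ℕ × ℕ}
    (hx : x ∈ n.divisorsAntidiagonal) : x.1 ∈ Finset.Icc 1 N ∧ x.2 ∈ Finset.Icc 1 N := by
  obtain ⟨h1, h2⟩ := Finset.mem_Icc.1 hn
  have a1 := Nat.dvd_of_mem_divisors (Nat.fst_mem_divisors_of_mem_antidiagonal hx)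
  have a2 := Nat.dvd_of_mem_divisors (Nat.snd_mem_divisors_of_mem_antidiagonal hx)
  exact ⟨Finset.mem_Icc.2 ⟨Nat.pos_of_dvd_of_pos a1 h1, (Nat.le_of_dvd h1 a1).trans h2⟩,
    Finset.mem_Icc.2 ⟨Nat.pos_of_dvd_of_pos a2 h1, (Nat.le_of_dvd h1 a2).trans h2⟩⟩

theorem sum_conv_le (N : ℕ) (a b : ℕ → ℝ) (ha : ∀ n, 0 ≤ a n) (hb : ∀ n, 0 ≤ b n) :
    ∑ n ∈ Finset.Icc 1 N, ∑ x ∈ n.divisorsAntidiagonal, a x.1 * b x.2 ≤
      (∑ q ∈ Finset.Icc 1 N, a q) * ∑ r ∈ Finset.Icc 1 N, b r := by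
  rw [Finset.sum_mul_sum, ← Finset.sum_product', ← Finset.sum_biUnion]
  · refine Finset.sum_le_sum_of_subset_of_nonneg ?_ fun x _ _ => mul_nonneg (ha _) (hb _)
    intro x hx
    obtain ⟨n, hn, hx⟩ := Finset.mem_biUnion.1 hx
    exact Finset.mem_product.2 (mem_of_anti hn hx)
  · intro n _ m _ hnm
    refine Finset.disjoint_left.2 fun x h1 h2 => hnm ?_
    rw [← (Nat.mem_divisorsAntidiagonal.1 h1).1, ← (Nat.mem_divisorsAntidiagonal.1 h2).1]

theorem wn_nonneg (N : ℕ) (e : ArithmeticFunction ℂ) : 0 ≤ wn N e :=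
  Finset.sum_nonneg fun _ _ => by positivity

theorem mul_vanish {N : ℕ} {g h : ArithmeticFunction ℂ} (hh : ∀ n ∈ Finset.Icc 1 N, h n = 0) :
    ∀ n ∈ Finset.Icc 1 N, (g * h) n = 0 := fun n hn => by
  rw [mul_apply]
  exact Finset.sum_eq_zero fun x hx => by rw [hh _ (mem_of_anti hn hx).2, mul_zero]

end CreateAux

open CreateAux

theorem nsq_nonneg (N : ℕ) (f : ArithmeticFunction ℂ) : 0 ≤ nsq N f :=
  Finset.sum_nonneg fun _ _ => by positivity

theorem nsq_congr {N : ℕ} {f g : ArithmeticFunction ℂ} (h : ∀ n ∈ Finset.Icc 1 N, f n = g n) :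
    nsq N f = nsq N g :=
  Finset.sum_congr rfl fun n hn => by rw [h n hn]

theorem sqrt_nsq_add (N : ℕ) (f g : ArithmeticFunction ℂ) :
    √(nsq N (f + g)) ≤ √(nsq N f) + √(nsq N g) := by
  rw [← norm_vec, ← norm_vec, ← norm_vec, vec_add]
  exact norm_add_le _ _

theorem sqrt_nsq_sub (N : ℕ) (f g : ArithmeticFunction ℂ) :
    √(nsq N (f - g)) ≤ √(nsq N f) + √(nsq N g) := by
  rw [← norm_vec, ← norm_vec, ← norm_vec, vec_sub]
  exact norm_sub_le _ _

theorem sqrt_nsq_smul (N : ℕ) (a : ℂ) (f : ArithmeticFunction ℂ) :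
    √(nsq N (a • f)) = ‖a‖ * √(nsq N f) := by
  rw [← norm_vec, ← norm_vec, vec_smul, norm_smul]

theorem sqrt_nsq_sum {ι : Type*} (N : ℕ) (S : Finset ι) (f : ι → ArithmeticFunction ℂ) :
    √(nsq N (∑ i ∈ S, f i)) ≤ ∑ i ∈ S, √(nsq N (f i)) := by
  classical
  induction S using Finset.induction_on with
  | empty => simp [nsq]
  | insert i S hi ih =>
    rw [Finset.sum_insert hi, Finset.sum_insert hi]
    exact (sqrt_nsq_add _ _ _).trans (by linarith)

theorem create {N K : ℕ} {e f : ArithmeticFunction ℂ} (he : PP e)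
    (hf : ∀ n ∈ Finset.Icc 1 N, f n ≠ 0 → n.primeFactors.card ≤ K) :
    nsq N (e * f) ≤ 2 * (K + 1) * wn N e * nsq N f ∧
      ∀ n ∈ Finset.Icc 1 N, (e * f) n ≠ 0 → n.primeFactors.card ≤ K + 1 := by
  have h2 : ∀ n ∈ Finset.Icc 1 N, (e * f) n ≠ 0 → n.primeFactors.card ≤ K + 1 := by
    intro n hn hne
    rw [mul_apply] at hne
    obtain ⟨x, hx, hx0⟩ := Finset.exists_ne_zero_of_sum_ne_zero hne
    have hm := mem_of_anti hn hx
    rw [← (Nat.mem_divisorsAntidiagonal.1 hx).1]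
    exact omega_le (he _ (left_ne_zero_of_mul hx0))
      (by have := (Finset.mem_Icc.1 hm.2).1; omega) (hf _ hm.2 (right_ne_zero_of_mul hx0))
  refine ⟨?_, h2⟩
  have key : ∀ n ∈ Finset.Icc 1 N, ‖(e * f) n‖ ^ 2 ≤ 2 * (K + 1) *
      ∑ x ∈ n.divisorsAntidiagonal, ((cardFactors x.1 : ℝ) ^ 2 * ‖e x.1‖ ^ 2) * ‖f x.2‖ ^ 2 := by
    intro n hn
    have hn0 : n ≠ 0 := by have := (Finset.mem_Icc.1 hn).1; omega
    have hS : 0 ≤ ∑ x ∈ n.divisorsAntidiagonal,
        ((cardFactors x.1 : ℝ) ^ 2 * ‖e x.1‖ ^ 2) * ‖f x.2‖ ^ 2 :=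
      Finset.sum_nonneg fun _ _ => by positivity
    by_cases hne : (e * f) n = 0
    · rw [hne, norm_zero]
      have : (0 : ℝ) ≤ 2 * (K + 1) := by positivity
      simpa using mul_nonneg this hS
    have hK : (n.primeFactors.card : ℝ) ≤ K + 1 := by exact_mod_cast h2 n hn hne
    let u : ℕ × ℕ → ℝ := fun x => if IsPrimePow x.1 then ((cardFactors x.1 : ℝ))⁻¹ else 0
    let v : ℕ × ℕ → ℝ := fun x => (cardFactors x.1 : ℝ) * ‖e x.1‖ * ‖f x.2‖
    have a1 : ‖(e * f) n‖ ≤ ∑ x ∈ n.divisorsAntidiagonal, u x * v x := by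
      rw [mul_apply]
      refine (norm_sum_le _ _).trans (Finset.sum_le_sum fun x _ => ?_)
      by_cases hx : IsPrimePow x.1
      · have : (cardFactors x.1 : ℝ) ≠ 0 := by
          obtain ⟨p, k, hp, hk, hq⟩ := (isPrimePow_nat_iff _).1 hx
          rw [← hq, cardFactors_apply_prime_pow hp]
          exact_mod_cast hk.ne'
        simp only [u, v, if_pos hx, norm_mul]
        field_simp
        exact le_rfl
      · have : e x.1 = 0 := by by_contra h; exact hx (he _ h)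
        simp [u, v, this]
    have a2 : ∑ x ∈ n.divisorsAntidiagonal, u x ^ 2 ≤ 2 * (K + 1) := by
      have : ∑ x ∈ n.divisorsAntidiagonal, u x ^ 2 =
          ∑ q ∈ n.divisors with IsPrimePow q, (((cardFactors q : ℝ)) ^ 2)⁻¹ := by
        rw [Finset.sum_filter, Nat.sum_divisorsAntidiagonal (fun a _ =>
          (if IsPrimePow a then ((cardFactors a : ℝ))⁻¹ else 0) ^ 2)]
        refine Finset.sum_congr rfl fun q _ => ?_
        split_ifs <;> simp
      rw [this]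
      exact (sum_pp_le n hn0).trans (by linarith)
    calc ‖(e * f) n‖ ^ 2 ≤ (∑ x ∈ n.divisorsAntidiagonal, u x * v x) ^ 2 :=
          pow_le_pow_left₀ (norm_nonneg _) a1 2
      _ ≤ (∑ x ∈ n.divisorsAntidiagonal, u x ^ 2) * ∑ x ∈ n.divisorsAntidiagonal, v x ^ 2 :=
          Finset.sum_mul_sq_le_sq_mul_sq _ _ _
      _ ≤ _ := by
          refine mul_le_mul a2 (le_of_eq (Finset.sum_congr rfl fun x _ => ?_))
            (Finset.sum_nonneg fun _ _ => sq_nonneg _) (by positivity)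
          simp only [v]; ring
  calc nsq N (e * f) ≤ ∑ n ∈ Finset.Icc 1 N, 2 * (K + 1) * ∑ x ∈ n.divisorsAntidiagonal,
        ((cardFactors x.1 : ℝ) ^ 2 * ‖e x.1‖ ^ 2) * ‖f x.2‖ ^ 2 := Finset.sum_le_sum key
    _ ≤ _ := by
        rw [← Finset.mul_sum, mul_assoc (2 * ((K : ℝ) + 1))]
        exact mul_le_mul_of_nonneg_left (sum_conv_le N
          (fun q => (cardFactors q : ℝ) ^ 2 * ‖e q‖ ^ 2) (fun r => ‖f r‖ ^ 2)
          (fun _ => by positivity) (fun _ => by positivity)) (by positivity)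

theorem create_pow {N K : ℕ} {e f : ArithmeticFunction ℂ} {σ : ℝ} (he : PP e)
    (hf : ∀ n ∈ Finset.Icc 1 N, f n ≠ 0 → n.primeFactors.card ≤ K) (hσ : 0 ≤ σ)
    (h : 2 * (K + 1) * wn N e ≤ σ ^ 2) (j : ℕ) :
    √(nsq N (((j.factorial : ℂ)⁻¹) • e ^ j * f)) ≤ σ ^ j * √(nsq N f) := by
  have main : ∀ j : ℕ, √(nsq N (e ^ j * f)) ≤ j.factorial * (σ ^ j * √(nsq N f)) ∧
      ∀ n ∈ Finset.Icc 1 N, (e ^ j * f) n ≠ 0 → n.primeFactors.card ≤ K + j := by
    intro j
    induction j with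
    | zero => simpa using hf
    | succ j ih =>
      obtain ⟨c1, c2⟩ := create he ih.2
      rw [pow_succ', mul_assoc]
      refine ⟨?_, c2⟩
      have hw := wn_nonneg N e
      have hn := nsq_nonneg N (e ^ j * f)
      have hj : (0 : ℝ) ≤ j := Nat.cast_nonneg j
      have hK : (0 : ℝ) ≤ K := Nat.cast_nonneg K
      have b1 : 2 * (((K + j : ℕ) : ℝ) + 1) * wn N e ≤ ((j + 1) * σ) ^ 2 := by
        have b2 : 2 * (((K + j : ℕ) : ℝ) + 1) ≤ (j + 1) ^ 2 * (2 * (K + 1)) := by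
          push_cast
          nlinarith only [hj, hK, mul_nonneg hj hK, mul_nonneg (mul_nonneg hj hj) hK,
            mul_nonneg hj hj]
        calc _ ≤ (j + 1) ^ 2 * (2 * (K + 1)) * wn N e := mul_le_mul_of_nonneg_right b2 hw
          _ = (j + 1) ^ 2 * (2 * (K + 1) * wn N e) := by ring
          _ ≤ (j + 1) ^ 2 * σ ^ 2 := mul_le_mul_of_nonneg_left h (by positivity)
          _ = _ := by ring
      calc √(nsq N (e * (e ^ j * f))) ≤ √(((j + 1) * σ) ^ 2 * nsq N (e ^ j * f)) :=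
            Real.sqrt_le_sqrt (c1.trans (mul_le_mul_of_nonneg_right b1 hn))
        _ = (j + 1) * σ * √(nsq N (e ^ j * f)) := by
            rw [Real.sqrt_mul (sq_nonneg _), Real.sqrt_sq (by positivity)]
        _ ≤ (j + 1) * σ * (j.factorial * (σ ^ j * √(nsq N f))) :=
            mul_le_mul_of_nonneg_left ih.1 (by positivity)
        _ = _ := by rw [Nat.factorial_succ]; push_cast; ring
  have hj : (0 : ℝ) < j.factorial := by exact_mod_cast j.factorial_pos
  rw [smul_mul_assoc, sqrt_nsq_smul, norm_inv, Complex.norm_natCast, inv_mul_le_iff₀ hj]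
  exact (main j).1

theorem create_rem {N N2 K : ℕ} {ν f : ArithmeticFunction ℂ} (hν : PP ν)
    (hf : ∀ n ∈ Finset.Icc 1 N, f n ≠ 0 → n.primeFactors.card ≤ K ∧ N2 < n)
    (h : 2 * (K + 1) * wn N (af fun q => if q * N2 ≤ N then ν q else 0) ≤ 1 / 4) (m : ℕ) :
    √(nsq N (expA m ν * f)) ≤ 2 * √(nsq N f) := by
  set νs : ArithmeticFunction ℂ := af fun q => if q * N2 ≤ N then ν q else 0 with hνs
  have hval : ∀ q, νs q = if q * N2 ≤ N then ν q else 0 := fun q => by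
    by_cases hq : q = 0
    · simp [hq]
    · simp [hνs, af, hq]
  have hPP : PP νs := fun q hq => hν q fun h0 => hq (by rw [hval, h0, ite_self])
  have hz : ∀ n ∈ Finset.Icc 1 N, ((ν - νs) * f) n = 0 := by
    intro n hn
    rw [mul_apply]
    refine Finset.sum_eq_zero fun x hx => ?_
    by_cases h0 : f x.2 = 0
    · rw [h0, mul_zero]
    have h1 := (hf _ (mem_of_anti hn hx).2 h0).2
    have h2 : x.1 * N2 ≤ N := by
      have := (Nat.mem_divisorsAntidiagonal.1 hx).1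
      have h3 := (Finset.mem_Icc.1 hn).2
      calc x.1 * N2 ≤ x.1 * x.2 := Nat.mul_le_mul_left _ h1.le
        _ ≤ N := this ▸ h3
    have : (ν - νs) x.1 = 0 := by
      rw [sub_eq_add_neg, ArithmeticFunction.add_apply, ArithmeticFunction.neg_apply, hval, if_pos h2, add_neg_cancel]
    rw [this, zero_mul]
  have hk : ∀ k : ℕ, ∀ n ∈ Finset.Icc 1 N, (ν ^ k * f) n = (νs ^ k * f) n := by
    intro k n hn
    obtain ⟨g, hg⟩ := sub_dvd_pow_sub_pow ν νs k
    have e1 : ν ^ k * f = νs ^ k * f + g * ((ν - νs) * f) := by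
      rw [← mul_assoc, mul_comm g, ← hg]; ring
    rw [e1, ArithmeticFunction.add_apply, mul_vanish hz n hn, add_zero]
  have h4 : 2 * (K + 1) * wn N νs ≤ (1 / 2 : ℝ) ^ 2 := by linarith
  rw [expA, Finset.sum_mul]
  refine (sqrt_nsq_sum _ _ _).trans ?_
  calc _ ≤ ∑ k ∈ Finset.range (m + 1), (1 / 2 : ℝ) ^ k * √(nsq N f) := by
        refine Finset.sum_le_sum fun k _ => ?_
        have := create_pow hPP (fun n hn h0 => (hf n hn h0).1) (by norm_num) h4 k
        rw [smul_mul_assoc, sqrt_nsq_smul] at this ⊢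
        rwa [nsq_congr (hk k)]
    _ ≤ _ := by
        rw [← Finset.sum_mul]
        refine mul_le_mul_of_nonneg_right ?_ (Real.sqrt_nonneg _)
        have := (summable_geometric_two.sum_le_tsum (Finset.range (m + 1))
          fun _ _ => by positivity)
        rwa [tsum_geometric_two] at this

end Pool.Agent.P.MP_7eacff_nt.Rig
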