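import Pool.Agent.P.MP_7eacff_nt.Half2

/-!
Definitions for the rigidity theorem.
-/

open Complex Filter Topology MeasureTheory Set
open scoped Real ENNReal ComplexConjugate

namespace Pool.Agent.P.MP_7eacff_nt.Rig

/-- Mean density of points at height `T`. -/
noncomputable abbrev lam (T : ℝ) : ℝ := Real.log T / (2 * π)

/-- Frequency of the integer `n`. -/
noncomputable abbrev uu (T : ℝ) (n : ℕ) : ℝ := Real.log n / Real.log T

/-- The additive character at complex arguments. -/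
noncomputable def EE (z : ℂ) : ℂ := cexp (2 * π * I * z)

/-- One-sided Fourier-Laplace transform. -/
noncomputable def Phi (g : ℝ → ℂ) (a : ℂ) : ℂ := ∫ u in Ioi (0 : ℝ), g u * EE (u * a)

/-- A logarithm of `a / (a - c)`. -/
noncomputable def ell (c : ℝ) (a : ℂ) : ℂ := ∫ s in (0 : ℝ)..c, 1 / (a - s)

/-- Damped symbol. -/
noncomputable def dmp (g : ℝ → ℂ) (y u : ℝ) : ℂ := g u * (Real.exp (-(2 * π * u * y)) : ℝ)

/-- Truncated exponential. -/
noncomputable def expm (m : ℕ) (z : ℂ) : ℂ := ∑ k ∈ Finset.range (m + 1), z ^ k / k.factorial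

/-- The phase. -/
noncomputable def ph (c : ℝ) : ℂ := I * cexp (-(π * c : ℝ) * I)

/-- The continuation of `ph c * expm m (z y)` to negative heights. -/
noncomputable def Cz (c : ℝ) (m : ℕ) (z : ℝ → ℂ) (y : ℝ) : ℂ :=
  if 0 ≤ y then ph c * expm m (z y) else -conj (ph c * expm m (z (-y)))

/-- Normalising weight. -/
noncomputable def wt (y : ℝ) : ℝ := Real.exp (-(2 * π * max (-y) 0))

/-- Dirichlet polynomial at height `y`. -/
noncomputable def Gy (s : Finset ℕ) (a : ℕ → ℝ) (T t y : ℝ) : ℂ :=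
  ∑ n ∈ s, ((a n * Real.exp (-(2 * π * uu T n * y)) : ℝ) : ℂ) * ch n t

/-- Values of the mollifier at primes. -/
noncomputable def aw (w : ℝ → ℝ) (T : ℝ) (p : ℕ) : ℝ := -w (uu T p) / √p

/-- Support of the mollifier. -/
noncomputable def Nset (b : ℕ) (T : ℝ) : Finset ℕ :=
  (Finset.Icc 1 ⌊T⌋₊).filter fun n => sz (jj (1 / (b : ℝ) ^ 2) T) n ≤ b ^ 2 - 2 * b

/-- The mollifier. -/
noncomputable def Gm (b : ℕ) (w : ℝ → ℝ) (T t y : ℝ) : ℂ := Gy (Nset b T) (cm (aw w T)) T t y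

/-- The defect function at height `y`. -/
noncomputable def Fn (μ : Measure ℝ) (g : ℝ → ℂ) (c : ℝ) (m b : ℕ) (w : ℝ → ℝ) (T t y : ℝ) : ℂ :=
  Cz c m (fun y => -I * II μ (dmp g y) T t) y * Gm b w T t y - Gm b w T (t + c / lam T) y

/-- The jump of the defect function. -/
noncomputable def Jm (μ : Measure ℝ) (g : ℝ → ℂ) (c : ℝ) (m b : ℕ) (w : ℝ → ℝ) (T t : ℝ) : ℂ :=
  ((2 * (ph c * expm m (-I * II μ g T t)).re : ℝ) : ℂ) * Gm b w T t 0

/-- The prime sum approximating the logarithm of the mollifier of scale `2 ^ l`. -/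
noncomputable def SS (w : ℝ → ℝ) (l : ℕ) (T t : ℝ) : ℂ :=
  ∑ p ∈ Finset.Icc 1 ⌊T⌋₊ with p.Prime ∧ uu T p ≤ 1 / (40 * l),
    ((aw w T p * Real.exp (-(2 * π * uu T p * (10 * l ^ 2))) : ℝ) : ℂ) * ch p t

/-- Admissible prime weights of scale `b`. -/
structure Wt (b : ℕ) (w : ℝ → ℝ) : Prop where
  nonneg : ∀ u, 0 ≤ w u
  le_one : ∀ u, w u ≤ 1
  zero : ∀ u : ℝ, u ≤ 1 / b → w u = 0
  s1 : ∀ᶠ T : ℝ in atTop, ∑ p ∈ Finset.Icc 1 ⌊T⌋₊ with p.Prime,
    Real.log p / (p * Real.log T) * (1 - w (uu T p)) ≤ 3 / b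
  s2 : ∀ᶠ T : ℝ in atTop, ∑ p ∈ Finset.Icc 1 ⌊T⌋₊ with p.Prime,
    Real.log p / (p * Real.log T) * (uu T p * (1 - w (uu T p))) ≤ 4 / b ^ 2
  bd : ∀ (μ : Measure ℝ) [SFinite μ], ZData μ → ∃ K, 0 ≤ K ∧ ∀ᶠ T in atTop,
    ∀ t ∈ Icc (T / 2) (3 * T), ‖Gm b w T t 0‖ ≤ K * (1 + Sd μ T t) ^ (b ^ 2)

/-- The symbol with its finer properties. -/
structure Sym2 (f : ℝ → ℂ) (c S L : ℝ) : Prop where
  sym : Sym f c S
  bump : Bump f S L
  app : ∀ u ∈ Icc (0 : ℝ) 1, ‖I * (u * f u) - (1 - ee (-(c * u)))‖ ≤ L * u / S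
  rep : ∃ Q : Measure ℝ, IsProbabilityMeasure Q ∧ Integrable (fun v => |v|) Q ∧
    ∫ v, |v| ∂Q ≤ L / S ∧ ∀ a : ℂ, 0 < a.im → -I * Phi f a = ∫ v : ℝ, ell c (a - v) ∂Q

/-- Characteristic function of the window. -/
noncomputable def bt (P : Measure ℝ) (ξ : ℝ) : ℂ := ∫ v, ee (ξ * v) ∂P

/-- A window with bounded density which does not vanish at the origin. -/
structure Win2 (P : Measure ℝ) : Prop where
  win : Win P
  dens : ∀ g : ℝ → ℝ≥0∞, Measurable g → ∫⁻ v, g v ∂P ≤ 2 * ∫⁻ v, g v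
  nz : ∫ ξ, bt P ξ ≠ 0

/-- `H` only contains frequencies `exp (- 2 π i τ s v)` with `τ ≥ l`, and `h` is its value at
height `y` over the origin. -/
structure An (P : Measure ℝ) (s y : ℝ) (H : ℝ → ℂ) (h : ℂ) (l : ℝ) : Prop where
  meas : Measurable H
  grow : ∃ (C : ℝ) (k : ℕ), ∀ v, ‖H v‖ ≤ C * (1 + |v|) ^ k
  rep : ∀ (m : ℝ → ℂ) (A : ℂ) (K : ℝ), Measurable m → (∀ v, ‖m v‖ ≤ K) →
    (∀ τ, l ≤ τ → ∫ v, m v * ee (-(τ * s * v)) ∂P = A * (Real.exp (-(2 * π * τ * y)) : ℝ)) →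
    ∫ v, H v * m v ∂P = A * h

/-- Low-pass kernel. -/
noncomputable def Lk (s θ y v : ℝ) : ℂ := ∫ σ in (-1 / s)..θ, EE (σ * (s * v + y * I))

/-- Cauchy kernel. -/
noncomputable def Kk (s θ y v : ℝ) : ℂ :=
  -EE (θ * (s * v + y * I)) / (2 * π * I * (s * v + y * I))

/-- Normalising factor. -/
noncomputable def Zz (P : Measure ℝ) (s y : ℝ) : ℂ :=
  ∫ σ, (Real.exp (-(2 * π * σ * y)) : ℝ) * bt P (σ * s)

/-- The interval `[T, 2 T]` with margins removed. -/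
def Iv (ρ T : ℝ) : Set ℝ := Icc ((1 + ρ) * T) ((2 - ρ) * T)

/-- The mean of `F` at heights of size `T` is at most `τ`. -/
def Sm (ρ T : ℝ) (F : ℝ → ℝ≥0∞) (τ : ℝ) : Prop :=
  ∫⁻ t in Iv ρ T, F t ≤ ENNReal.ofReal (τ * T)

/-- Sparse finite families of points. -/
def Sparse {ι : Type*} (s : Finset ι) (x : ι → ℝ) : Prop :=
  ∀ ξ y : ℝ, 0 < y → ∑ i ∈ s, 1 / ((x i - ξ) ^ 2 + y ^ 2) ≤ 26 * (1 / y + 1 / y ^ 3)

/-- Entire function with the given zeros. -/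
noncomputable def Pf {ι : Type*} (s : Finset ι) (x : ι → ℝ) (κ w : ℂ) : ℂ :=
  cexp (κ * w) * ∏ i ∈ s, I * (w - x i)

/-- Its logarithmic derivative. -/
noncomputable def Ld {ι : Type*} (s : Finset ι) (x : ι → ℝ) (κ w : ℂ) : ℂ :=
  κ + ∑ i ∈ s, 1 / (w - x i)

/-- The total error functional. -/
noncomputable def Vf (F G : ℝ → ℝ → ℝ≥0∞) (c R Y y1 ξ : ℝ) : ℝ≥0∞ :=
  ∫⁻ a in Icc (-(R + 1)) (R + 1),
    ((∫⁻ y in {y | y1 ≤ |y| ∧ |y| ≤ Y}, F a y) + F a Y + F a (-Y) +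
      ENNReal.ofReal ξ * ((∫⁻ y in Icc (-Y) Y, G a y) + G a Y + G a (-Y)) +
      (∫⁻ y in Icc (-y1) y1, (G a y + G (a + c) y)) +
      ENNReal.ofReal (Real.exp (-(4 * π * Y))) * (G a Y + G a (-Y)))

/-- Arithmetic function with given values. -/
noncomputable def af (f : ℕ → ℂ) : ArithmeticFunction ℂ :=
  ⟨fun n => if n = 0 then 0 else f n, if_pos rfl⟩

/-- Truncated exponential for the Dirichlet convolution. -/
noncomputable def expA (m : ℕ) (ν : ArithmeticFunction ℂ) : ArithmeticFunction ℂ :=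
  ∑ k ∈ Finset.range (m + 1), ((k.factorial : ℂ)⁻¹) • ν ^ k

/-- Square norm. -/
noncomputable def nsq (N : ℕ) (f : ArithmeticFunction ℂ) : ℝ := ∑ n ∈ Finset.Icc 1 N, ‖f n‖ ^ 2

/-- Weighted square norm. -/
noncomputable def wn (N : ℕ) (f : ArithmeticFunction ℂ) : ℝ :=
  ∑ q ∈ Finset.Icc 1 N, (ArithmeticFunction.cardFactors q : ℝ) ^ 2 * ‖f q‖ ^ 2

/-- Completely multiplicative functions. -/
structure CM (A : ArithmeticFunction ℂ) : Prop where
  one : A 1 = 1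
  mul : ∀ m n, A (m * n) = A m * A n

/-- Supported on prime powers. -/
def PP (f : ArithmeticFunction ℂ) : Prop := ∀ q, f q ≠ 0 → IsPrimePow q

/-- The logarithm of `A' / A`. -/
noncomputable def nu1 (A A' : ArithmeticFunction ℂ) : ArithmeticFunction ℂ :=
  af fun q => (ArithmeticFunction.vonMangoldt q : ℝ) * (A' q - A q) / (Real.log q : ℝ)

/-- Coefficients of `I * Psum g T`. -/
noncomputable def nuA (g : ℝ → ℂ) (T : ℝ) : ArithmeticFunction ℂ :=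
  af fun n => if n ≤ ⌊T⌋₊ then
    I * (((ArithmeticFunction.vonMangoldt n / (√n * Real.log T) : ℝ) : ℂ) * g (uu T n)) else 0

/-- Coefficients of the mollifier. -/
noncomputable def AN (b : ℕ) (w : ℝ → ℝ) (T : ℝ) : ArithmeticFunction ℂ :=
  af fun n => if n ∈ Nset b T then (cm (aw w T) n : ℝ) else 0

/-- Coefficients of the Dirichlet polynomial modelling the defect function. -/
noncomputable def coef (g : ℝ → ℂ) (c : ℝ) (m b : ℕ) (w : ℝ → ℝ) (T : ℝ) : ArithmeticFunction ℂ :=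
  ph c • (expA m (nuA g T) * AN b w T) - af fun n => AN b w T n * ch n (c / lam T)

/-- `H` is the Dirichlet polynomial with coefficients `f`. -/
def Rep (H : ℝ → ℂ) (f : ArithmeticFunction ℂ) : Prop :=
  ∃ N, (∀ n, N < n → f n = 0) ∧ ∀ t, H t = ∑ n ∈ Finset.Icc 1 N, f n * ch n t

/-- Two points near `t` whose normalised distance is far from the half-integers. -/
def Off (γ : ℕ → ℝ) (ε R T t : ℝ) : Prop :=
  ∃ n n', |lam T * (γ n - t)| ≤ R ∧ |lam T * (γ n' - t)| ≤ R ∧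
    ∀ k : ℤ, ε ≤ |lam T * (γ n' - γ n) - k / 2|

end Pool.Agent.P.MP_7eacff_nt.Rig
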