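import Pool.Agent.P.MP_7eacff_nt.Rig.Defs

/-!
From Lebesgue measure to the density of gaps.
-/

open Complex Filter Topology MeasureTheory Set
open scoped Real ENNReal ComplexConjugate

namespace Pool.Agent.P.MP_7eacff_nt.Rig

namespace DensAux

theorem tail {P : Measure ℝ} (hP : Win P) :
    ∃ M : ℝ, 0 < M ∧ P.real {v | M ≤ 1 + |v|} ≤ 1 / 4 := by
  have h1 : Integrable (fun v : ℝ => 1 + |v|) P := by simpa using hP.mom 1
  have h2 : 0 ≤ ∫ v, (1 + |v|) ∂P := integral_nonneg fun v => by positivity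
  refine ⟨4 * (∫ v, (1 + |v|) ∂P) + 1, by positivity, ?_⟩
  have h3 := mul_meas_ge_le_integral_of_nonneg (ae_of_all _ fun v => by positivity) h1
    (4 * (∫ v, (1 + |v|) ∂P) + 1)
  have h4 : 0 ≤ P.real {v | 4 * (∫ v, (1 + |v|) ∂P) + 1 ≤ 1 + |v|} := measureReal_nonneg
  by_contra h5
  nlinarith only [h2, h3, h4, not_le.1 h5]

theorem card_le_vol {γ : ℕ → ℝ} (hγ : Monotone γ) (S : Finset ℕ) {a V : ℝ}
    (hV0 : 0 ≤ V) (hS : ∀ n ∈ S, a ≤ γ (n + 1) - γ n) {A : Set ℝ}
    (hA : ∀ n ∈ S, Ioo (γ n) (γ (n + 1)) ⊆ A) (hV : volume A ≤ ENNReal.ofReal V) :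
    S.card * a ≤ V := by
  have h1 : volume (⋃ n ∈ S, Ioo (γ n) (γ (n + 1))) = ∑ n ∈ S, volume (Ioo (γ n) (γ (n + 1))) := by
    refine measure_biUnion_finset (fun m _ n _ hmn => ?_) fun _ _ => measurableSet_Ioo
    refine disjoint_left.2 fun t h1 h2 => ?_
    rcases lt_or_gt_of_ne hmn with h | h
    · have : γ (m + 1) ≤ γ n := hγ h
      linarith only [this, h1.2, h2.1]
    · have : γ (n + 1) ≤ γ m := hγ h
      linarith only [this, h1.1, h2.2]
  have h2 : ∑ _n ∈ S, ENNReal.ofReal a ≤ ∑ n ∈ S, volume (Ioo (γ n) (γ (n + 1))) :=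
    Finset.sum_le_sum fun n hn => by
      rw [Real.volume_Ioo]; exact ENNReal.ofReal_le_ofReal (hS n hn)
  have h3 := h2.trans (h1.symm.le.trans ((measure_mono (iUnion₂_subset hA)).trans hV))
  rw [Finset.sum_const, nsmul_eq_mul, ← ENNReal.ofReal_natCast,
    ← ENNReal.ofReal_mul (Nat.cast_nonneg _), ENNReal.ofReal_le_ofReal_iff hV0] at h3
  exact h3

theorem cover {G x : ℝ} (hx : x < G) (I : ℕ) (h : G / 2 ^ I ≤ x) :
    ∃ i < I, G / 2 ^ (i + 1) ≤ x ∧ x < 2 * (G / 2 ^ (i + 1)) := by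
  induction I with
  | zero => simp at h; linarith only [hx, h]
  | succ I ih =>
    by_cases h1 : G / 2 ^ I ≤ x
    · obtain ⟨i, hi, h2⟩ := ih h1
      exact ⟨i, by omega, h2⟩
    · refine ⟨I, by omega, h, ?_⟩
      rw [show 2 * (G / 2 ^ (I + 1)) = G / 2 ^ I by rw [pow_succ]; field_simp]
      exact not_le.1 h1

theorem ncard_eq (N : ℕ) (p : ℕ → Prop) [DecidablePred p] :
    {n | n < N ∧ p n}.ncard = ((Finset.range N).filter p).card := by
  rw [← ncard_coe_finset]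
  congr 1
  ext n
  simp

/-- The normalised gap. -/
noncomputable def gp (γ : ℕ → ℝ) (n : ℕ) : ℝ :=
  (γ (n + 1) - γ n) / (2 * π) * Real.log (γ n / (2 * π))

theorem sep {μ : Measure ℝ} {γ : ℕ → ℝ} (hγ : Enum μ γ) {c c' R T t : ℝ} {N : ℕ} (hcc : c ≤ c')
    (hR : 0 < R) (hL : 2 * π ≤ Real.log T) (hT : 2 * R < T) (hT1 : 1 ≤ T)
    (hl : R ≤ Real.log T / (2 * π)) (ht : t ∈ Icc (T / 2) (3 * T)) (ht1 : t < γ N - 1)
    (htE : ∀ m, m < N → gp γ m ≤ c' → ¬ |Real.log T / (2 * π) * (γ m - t)| ≤ 2 * R / 2) :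
    Sep μ c R T t := by
  intro x
  have hl1 := one_le_lam hL
  rw [hγ.meas _ (fun y hy => by
    by_contra h3
    nlinarith only [h3, hT, hR, hl1, (abs_le.1 hy.1).1, ht.1, notMem_Ioi.1 h3])
    (by simp only [mem_Icc]; measurability)]
  refine (ENat.toENNReal_le.2 (encard_le_one_iff_subsingleton.2 ?_)).trans_eq ENat.toENNReal_one
  by_contra h3
  obtain ⟨m, hm, n, hn, hmn⟩ := (not_subsingleton_iff.1 h3).exists_lt
  have h4 : γ (m + 1) ≤ γ n := hγ.mono hmn
  have h5 : γ m ≤ γ (m + 1) := hγ.mono (Nat.le_succ m)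
  have hm' := abs_le.1 hm.1
  have h6 : γ m ≤ t + 1 := by
    by_contra h6
    nlinarith only [hm'.2, not_le.1 h6, hl, hl1]
  refine htE m (hγ.mono.reflect_lt (by linarith only [h6, ht1])) ?_ (hm.1.trans_eq (by ring))
  have h7 : Real.log (γ m / (2 * π)) ≤ Real.log T := by
    refine Real.log_le_log (by have := hγ.pos m; positivity) ?_
    rw [div_le_iff₀ (by positivity)]
    nlinarith only [hT1, h6, ht.2, Real.pi_gt_three]
  calc gp γ m ≤ (γ (m + 1) - γ m) / (2 * π) * Real.log T :=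
        mul_le_mul_of_nonneg_left h7 (div_nonneg (by linarith only [h5]) (by positivity))
    _ = Real.log T / (2 * π) * (γ (m + 1) - γ m) := by ring
    _ ≤ _ := by nlinarith only [h4, hcc, hl1, hm.2.1, hn.2.2]

theorem off {γ : ℕ → ℝ} (hγ : Monotone γ) {ε R0 T : ℝ} {n : ℕ} (hε : 0 < ε)
    (hL : 2 * π ≤ Real.log T) (hL2 : 4 * π * R0 / ε ≤ Real.log T) (hT : 0 < T) (h1 : T ≤ γ n)
    (h2 : γ (n + 1) ≤ 2 * T) (h3 : lam T * (γ (n + 1) - γ n) ≤ R0)
    (h4 : ∀ k : ℤ, ε < |gp γ n - k / 2|) (k : ℤ) :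
    ε / 2 ≤ |lam T * (γ (n + 1) - γ n) - k / 2| := by
  have hL0 : 0 < Real.log T := by linarith only [hL, Real.pi_pos]
  have h5 : γ n ≤ γ (n + 1) := hγ (Nat.le_succ n)
  have hπ := Real.pi_gt_three
  have h6 : Real.log (γ n / (2 * π)) ≤ Real.log T := by
    refine Real.log_le_log (by have : 0 < γ n := by linarith only [hT, h1]
                               positivity) ?_
    rw [div_le_iff₀ (by positivity)]
    nlinarith only [hT, h2, h5, hπ]
  have h7 : Real.log T - 2 * π ≤ Real.log (γ n / (2 * π)) := by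
    have a1 : Real.log (2 * π) ≤ 2 * π := (Real.log_le_sub_one_of_pos (by positivity)).trans
      (by linarith only [])
    have a2 : Real.log T ≤ Real.log (γ n) := Real.log_le_log hT h1
    rw [Real.log_div (by linarith only [hT, h1]) (by positivity)]
    linarith only [a1, a2]
  obtain ⟨d, hd⟩ : ∃ d, d = (γ (n + 1) - γ n) / (2 * π) := ⟨_, rfl⟩
  have hd0 : 0 ≤ d := hd ▸ div_nonneg (by linarith only [h5]) (by positivity)
  have e1 : lam T * (γ (n + 1) - γ n) = d * Real.log T := by rw [hd]; unfold lam; ring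
  have e2 : gp γ n = d * Real.log (γ n / (2 * π)) := by rw [hd]; rfl
  rw [e1] at h3 ⊢
  have h8 := h4 k
  rw [e2] at h8
  rw [div_le_iff₀ hε] at hL2
  have h9 : d * (2 * π) ≤ ε / 2 := by
    by_contra h9
    nlinarith only [not_le.1 h9, h3, hL2, hL0, hπ, mul_lt_mul_of_pos_right (not_le.1 h9) hL0]
  have h10 : d * Real.log (γ n / (2 * π)) ≤ d * Real.log T := mul_le_mul_of_nonneg_left h6 hd0
  have h11 : d * (Real.log T - 2 * π) ≤ d * Real.log (γ n / (2 * π)) :=
    mul_le_mul_of_nonneg_left h7 hd0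
  rcases lt_abs.1 h8 with h | h
  · exact le_abs.2 (Or.inl (by linarith only [h, h10, hε]))
  · exact le_abs.2 (Or.inr (by linarith only [h, h11, h9]))

open Classical in
theorem count {γ : ℕ → ℝ} (hγ : Monotone γ) {ε ε2 R0 T : ℝ} (N : ℕ) (hε : 0 < ε) (hε2 : 0 < ε2)
    (hR0 : 0 < R0) (hR1 : 1 ≤ ε2 * R0) (hL : 2 * π ≤ Real.log T)
    (hL2 : 4 * π * R0 / ε ≤ Real.log T) (hT : 2 / ε2 ≤ T)
    (hV : volume {t | t ∈ Icc T (2 * T) ∧ Off γ (ε / 2) R0 T t} ≤ ENNReal.ofReal (ε * ε2 * T)) :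
    (((Finset.range N).filter fun n => (∀ k : ℤ, ε < |gp γ n - k / 2|) ∧ T ≤ γ n ∧
      γ n < 2 * T).card : ℝ) ≤ ε2 * (T * Real.log T) := by
  have hT0 : 0 < T := lt_of_lt_of_le (by positivity) hT
  have hl := one_le_lam hL
  have hπ := Real.pi_gt_three
  have hL0 : 0 < Real.log T := by linarith only [hL, hπ]
  set S1 := (Finset.range N).filter fun n => γ n < 2 * T ∧ 2 * T < γ (n + 1) with hS1
  set S2 := (Finset.range N).filter fun n => T ≤ γ n ∧ γ (n + 1) ≤ 2 * T ∧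
    R0 < lam T * (γ (n + 1) - γ n) with hS2
  set S3 := (Finset.range N).filter fun n => T ≤ γ n ∧ γ (n + 1) ≤ 2 * T ∧
    lam T * (γ (n + 1) - γ n) ≤ R0 ∧ ∀ k : ℤ, ε < |gp γ n - k / 2| with hS3
  have h0 : ((Finset.range N).filter fun n => (∀ k : ℤ, ε < |gp γ n - k / 2|) ∧ T ≤ γ n ∧
      γ n < 2 * T) ⊆ S1 ∪ (S2 ∪ S3) := by
    intro n hn
    simp only [hS1, hS2, hS3, Finset.mem_filter, Finset.mem_union] at hn ⊢
    by_cases h1 : 2 * T < γ (n + 1)
    · exact Or.inl ⟨hn.1, hn.2.2.2, h1⟩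
    by_cases h2 : R0 < lam T * (γ (n + 1) - γ n)
    · exact Or.inr (Or.inl ⟨hn.1, hn.2.2.1, not_lt.1 h1, h2⟩)
    · exact Or.inr (Or.inr ⟨hn.1, hn.2.2.1, not_lt.1 h1, not_lt.1 h2, hn.2.1⟩)
  have h1 : S1.card ≤ 1 := by
    refine Finset.card_le_one.2 fun a ha b hb => ?_
    simp only [hS1, Finset.mem_filter] at ha hb
    have h6 := hγ.reflect_lt (ha.2.1.trans hb.2.2)
    have h7 := hγ.reflect_lt (hb.2.1.trans ha.2.2)
    omega
  have hl0 : 0 < lam T := by unfold lam; linarith only [hl]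
  have h2 : S2.card * (R0 / lam T) ≤ T := by
    refine card_le_vol hγ S2 hT0.le (fun n hn => ?_) (A := Icc T (2 * T))
      (fun n hn t ht => ?_) ?_
    · rw [div_le_iff₀' hl0]
      exact (Finset.mem_filter.1 hn).2.2.2.le
    · have := (Finset.mem_filter.1 hn).2
      exact ⟨by linarith only [this.1, ht.1], by linarith only [this.2.1, ht.2]⟩
    · rw [Real.volume_Icc]
      exact ENNReal.ofReal_le_ofReal (by linarith only [])
  have h3 : S3.card * (ε / 2 / lam T) ≤ ε * ε2 * T := by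
    refine card_le_vol hγ S3 (by positivity) (fun n hn => ?_)
      (fun n hn t ht => ?_) hV
    · obtain ⟨a1, a2, a3, a4⟩ := (Finset.mem_filter.1 hn).2
      have h5 : γ n ≤ γ (n + 1) := hγ (Nat.le_succ n)
      have := off hγ hε hL hL2 hT0 a1 a2 a3 a4 0
      rw [Int.cast_zero, zero_div, sub_zero,
        abs_of_nonneg (mul_nonneg hl0.le (by linarith only [h5]))] at this
      rwa [div_le_iff₀' hl0]
    · obtain ⟨a1, a2, a3, a4⟩ := (Finset.mem_filter.1 hn).2
      refine ⟨⟨by linarith only [a1, ht.1], by linarith only [a2, ht.2]⟩, n, n + 1, ?_, ?_,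
        off hγ hε hL hL2 hT0 a1 a2 a3 a4⟩
      · rw [abs_of_nonpos (mul_nonpos_of_nonneg_of_nonpos hl0.le (by linarith only [ht.1]))]
        nlinarith only [a3, hl0, ht.2]
      · rw [abs_of_nonneg (mul_nonneg hl0.le (by linarith only [ht.2]))]
        nlinarith only [a3, hl0, ht.1]
  have h4 := (Finset.card_le_card h0).trans ((Finset.card_union_le _ _).trans
    (Nat.add_le_add h1 (Finset.card_union_le _ _)))
  have h5 : (((Finset.range N).filter fun n => (∀ k : ℤ, ε < |gp γ n - k / 2|) ∧ T ≤ γ n ∧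
      γ n < 2 * T).card : ℝ) ≤ 1 + (S2.card + S3.card) := by exact_mod_cast h4
  refine h5.trans ?_
  rw [← mul_div_assoc, div_le_iff₀ hl0] at h2 h3
  have h6 : (S2.card : ℝ) ≤ ε2 * (T * lam T) := by
    have a1 : (S2.card : ℝ) * 1 ≤ S2.card * (ε2 * R0) :=
      mul_le_mul_of_nonneg_left hR1 (Nat.cast_nonneg _)
    nlinarith only [a1, h2, hε2, mul_le_mul_of_nonneg_left h2 hε2.le]
  have h7 : (S3.card : ℝ) ≤ 2 * (ε2 * (T * lam T)) := by
    refine le_of_mul_le_mul_left ?_ hε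
    linarith only [h3]
  have h8 : lam T * 6 ≤ Real.log T := by
    unfold lam
    rw [div_mul_eq_mul_div, div_le_iff₀ (by positivity)]
    nlinarith only [hL0, hπ]
  rw [div_le_iff₀' hε2] at hT
  have h9 : ε2 * T * 1 ≤ ε2 * T * lam T := mul_le_mul_of_nonneg_left hl (by positivity)
  have h10 : ε2 * T * (lam T * 6) ≤ ε2 * T * Real.log T :=
    mul_le_mul_of_nonneg_left h8 (by positivity)
  linarith only [h6, h7, h9, h10, hT]

open Classical in
theorem block {μ : Measure ℝ} [SFinite μ] (hμ : ZData μ) {γ : ℕ → ℝ} (hγ : Enum μ γ)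
    (hV : ∀ ε ε1 R0 : ℝ, 0 < ε → 0 < ε1 → 1 ≤ R0 → ∃ c R δ : ℝ, 0 < c ∧ c < 1 / 2 ∧
      0 < R ∧ 0 < δ ∧ ∀ᶠ T : ℝ in atTop, ∀ E, MeasurableSet E →
        (∀ t ∈ Icc (T / 2) (3 * T), t ∉ E → Sep μ c R T t) →
        volume (E ∩ Icc T (2 * T)) ≤ ENNReal.ofReal (δ * T) →
        volume {t | t ∈ Icc T (2 * T) ∧ Off γ ε R0 T t} ≤ ENNReal.ofReal (ε1 * T))
    {ε ε2 K : ℝ} (hε : 0 < ε) (hε2 : 0 < ε2) (hK : 1 ≤ K) : ∃ δ : ℝ, 0 < δ ∧ ∀ᶠ T : ℝ in atTop,
      ∀ N : ℕ, 2 * T ≤ γ N → γ N ≤ K * T →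
        (((Finset.range N).filter fun n => gp γ n ≤ 1 / 2 - δ).card : ℝ) ≤ δ * N →
        (((Finset.range N).filter fun n => (∀ k : ℤ, ε < |gp γ n - k / 2|) ∧ T ≤ γ n ∧
          γ n < 2 * T).card : ℝ) ≤ ε2 * (T * Real.log T) := by
  obtain ⟨R0, hR0⟩ : ∃ R0, R0 = 1 + 1 / ε2 := ⟨_, rfl⟩
  have hR1 : 1 ≤ R0 := by rw [hR0]; exact le_add_of_nonneg_right (by positivity)
  have hR2 : 1 ≤ ε2 * R0 := by
    rw [hR0, mul_add, mul_one_div_cancel hε2.ne']; linarith only [hε2]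
  obtain ⟨c, R, δ, -, hc, hR, hδ, h⟩ := hV (ε / 2) (ε * ε2) R0 (by positivity) (by positivity) hR1
  obtain ⟨C, hC, hN⟩ := hγ.index_le hμ
  obtain ⟨δ', hδ'⟩ : ∃ δ', δ' = min (1 / 2 - c) (δ / (32 * π * C * R * K)) := ⟨_, rfl⟩
  have hδ0 : 0 < δ' := by rw [hδ']; exact lt_min (by linarith only [hc]) (by positivity)
  have hδ1 : δ' ≤ 1 / 2 - c := hδ' ▸ min_le_left _ _
  have hδ2 : δ' * (32 * π * C * R * K) ≤ δ :=
    (le_div_iff₀ (by positivity)).1 (hδ' ▸ min_le_right _ _)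
  refine ⟨δ', hδ0, ?_⟩
  filter_upwards [h, Real.tendsto_log_atTop.eventually_ge_atTop (2 * π),
    Real.tendsto_log_atTop.eventually_ge_atTop (4 * π * R0 / ε),
    Real.tendsto_log_atTop.eventually_ge_atTop (R * (2 * π)),
    eventually_gt_atTop (2 * R), eventually_ge_atTop (2 / ε2), eventually_ge_atTop (2 / δ),
    eventually_ge_atTop (K + 3)] with T h1 hL hL2 hL3 hT hT2 hT3 hT4 N hN1 hN2 hS
  have hL0 : 0 < Real.log T := by linarith only [hL, Real.pi_pos]
  have hT0 : 0 < T := by linarith only [hK, hT4]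
  refine count hγ.mono N hε hε2 (by linarith only [hR1]) hR2 hL hL2 hT2 ?_
  set S := (Finset.range N).filter fun n => gp γ n ≤ 1 / 2 - δ' with hS'
  have hE : MeasurableSet (⋃ m ∈ S, {t | |Real.log T / (2 * π) * (γ m - t)| ≤ 2 * R / 2}) :=
    S.measurableSet_biUnion fun m _ => measurableSet_le (by fun_prop) measurable_const
  refine h1 _ (hE.union (measurableSet_Ici (a := γ N - 1))) (fun t ht htE => ?_) ?_
  · rw [mem_union, not_or] at htE
    refine sep hγ (c' := 1 / 2 - δ') (N := N) (by linarith only [hδ1]) hR hL hT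
      (by linarith only [hK, hT4]) ((le_div_iff₀ (by positivity)).2 hL3) ht
      (not_le.1 htE.2) fun m hm1 hm2 hm3 => htE.1 ?_
    simp only [mem_iUnion, hS', Finset.mem_filter, Finset.mem_range]
    exact ⟨m, ⟨hm1, hm2⟩, hm3⟩
  · have a1 : ((⋃ m ∈ S, {t | |Real.log T / (2 * π) * (γ m - t)| ≤ 2 * R / 2}) ∪
        Ici (γ N - 1)) ∩ Icc T (2 * T) ⊆
        (⋃ m ∈ S, {t | |Real.log T / (2 * π) * (γ m - t)| ≤ 2 * R / 2}) ∪
          Icc (γ N - 1) (γ N) := by
      rintro t ⟨h2 | h2, h3⟩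
      · exact Or.inl h2
      · exact Or.inr ⟨h2, h3.2.trans hN1⟩
    refine (measure_mono a1).trans ((measure_union_le _ _).trans
      ((add_le_add (measure_biUnion_finset_le _ _) le_rfl).trans ?_))
    simp only [volume_window hL, Finset.sum_const, nsmul_eq_mul, Real.volume_Icc]
    rw [← ENNReal.ofReal_natCast, ← ENNReal.ofReal_mul (Nat.cast_nonneg _),
      ← ENNReal.ofReal_add (by positivity) (by linarith only [])]
    refine ENNReal.ofReal_le_ofReal ?_
    have hg := hγ.pos N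
    have a2 : Real.log (3 + γ N) ≤ 2 * Real.log T := by
      rw [← Real.log_rpow hT0, Real.rpow_two]
      refine Real.log_le_log (by positivity) ?_
      nlinarith only [hN2, hT4, hK]
    have a3 : (N : ℝ) ≤ C * (2 * K * T) * (2 * Real.log T) := (hN N).trans (by
      gcongr
      · exact Real.log_nonneg (by linarith only [hg])
      · nlinarith only [hN2, hT4, hK])
    have a4 : (S.card : ℝ) * (2 * π * (2 * R) / Real.log T) ≤
        δ' * (C * (2 * K * T) * (2 * Real.log T)) * (2 * π * (2 * R) / Real.log T) := by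
      gcongr
      exact hS.trans (by gcongr)
    have a5 : δ' * (C * (2 * K * T) * (2 * Real.log T)) * (2 * π * (2 * R) / Real.log T) =
        δ' * (32 * π * C * R * K) * (T / 2) := by field_simp; norm_num
    have a6 : δ' * (32 * π * C * R * K) * (T / 2) ≤ δ * (T / 2) :=
      mul_le_mul_of_nonneg_right hδ2 (by positivity)
    rw [div_le_iff₀' hδ] at hT3
    linarith only [a4, a5, a6, hT3]

theorem low {μ : Measure ℝ} (hμ : ZData μ) {γ : ℕ → ℝ} (hγ : Enum μ γ) : ∃ C, 0 < C ∧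
    ∀ (N : ℕ) (x G : ℝ), 1 ≤ x → x ≤ G → 3 ≤ G →
      (((Finset.range N).filter fun n => γ n < x).card : ℝ) ≤ 1 + C * (x * Real.log G) := by
  obtain ⟨C, hC, hN⟩ := hγ.index_le hμ
  refine ⟨4 * C, by positivity, fun N x G hx hxG hG => ?_⟩
  have hL : 0 ≤ Real.log G := Real.log_nonneg (by linarith only [hG])
  rcases ((Finset.range N).filter fun n => γ n < x).eq_empty_or_nonempty with h | h
  · rw [h, Finset.card_empty, Nat.cast_zero]; positivity
  have h1 := Finset.max'_mem _ h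
  have h2 : ((Finset.range N).filter fun n => γ n < x) ⊆
      Finset.range (Finset.max' _ h + 1) := fun n hn =>
    Finset.mem_range.2 (Nat.lt_succ_of_le (Finset.le_max' _ n hn))
  generalize Finset.max' _ h = m at h1 h2
  have h3 := Finset.card_le_card h2
  rw [Finset.card_range] at h3
  have h4 : (((Finset.range N).filter fun n => γ n < x).card : ℝ) ≤ m + 1 := by exact_mod_cast h3
  have h5 := (Finset.mem_filter.1 h1).2
  have hg := hγ.pos m
  have a2 : Real.log (3 + γ m) ≤ 2 * Real.log G := by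
    rw [← Real.log_rpow (by linarith only [hG]), Real.rpow_two]
    refine Real.log_le_log (by positivity) ?_
    nlinarith only [h5, hxG, hG]
  have a3 : (m : ℝ) ≤ C * (2 * x) * (2 * Real.log G) := (hN m).trans (by
    gcongr
    · exact Real.log_nonneg (by linarith only [hg])
    · linarith only [h5, hx])
  linarith only [h4, a3]

end DensAux

theorem le_index {μ : Measure ℝ} [SFinite μ] (hμ : ZData μ) {γ : ℕ → ℝ} (hγ : Enum μ γ) :
    ∃ κ, 0 < κ ∧ ∀ᶠ N : ℕ in atTop, κ * (γ N * Real.log (γ N)) ≤ N := by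
  obtain ⟨P, hP⟩ := exists_win
  have := hP.prob
  obtain ⟨M, hM, hM'⟩ := DensAux.tail hP
  obtain ⟨R, hR, h2⟩ := hμ.prob_long hP (θ := 1 / 2) (ε := 1 / 2) (by norm_num) (by norm_num)
    (by norm_num)
  have key : ∀ᶠ T : ℝ in atTop, ∀ N : ℕ, γ N = 4 * T →
      1 / 4 * T ≤ N * (2 * π * R / Real.log T) := by
    filter_upwards [h2, Real.tendsto_log_atTop.eventually_ge_atTop (2 * π), eventually_gt_atTop R,
      eventually_ge_atTop (4 * M ^ 2)] with T h3 hL hT hTM N hN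
    have hl := one_le_lam hL
    have hL0 : 0 < Real.log T := by linarith only [hL, Real.pi_pos]
    have hT0 : 0 < T := by linarith only [hT, hR]
    have h4 := le_volume_of_prob (P := P) (T0 := T ^ (1 / 2 : ℝ)) (η := 1 / 4)
      (E := {t | t ∈ Icc (T / 2) (3 * T) ∧ cnt μ R T t ≠ 0}) (measurableSet_Icc.inter
      (measurableSet_eq_fun (measurable_cnt μ R T) measurable_const).compl) hT0.le fun X hX => by
      have a1 : (univ : Set ℝ) ⊆ {v | X + T ^ (1 / 2 : ℝ) * v ∈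
          {t | t ∈ Icc (T / 2) (3 * T) ∧ cnt μ R T t ≠ 0}} ∪
          ({v | X + T ^ (1 / 2 : ℝ) * v ∈ Icc (T / 2) (3 * T) ∧
            cnt μ R T (X + T ^ (1 / 2 : ℝ) * v) = 0} ∪ {v | M ≤ 1 + |v|}) := by
        intro v _
        by_cases b1 : M ≤ 1 + |v|
        · exact Or.inr (Or.inr b1)
        have b2 : X + T ^ (1 / 2 : ℝ) * v ∈ Icc (T / 2) (3 * T) := by
          rw [← Real.sqrt_eq_rpow]
          have c1 : 2 * M ≤ √T := Real.le_sqrt_of_sq_le (by linarith only [hTM])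
          have c2 := Real.mul_self_sqrt hT0.le
          have c3 : |v| ≤ √T / 2 := by linarith only [not_le.1 b1, c1]
          have c4 := abs_le.1 c3
          have c5 := Real.sqrt_nonneg T
          constructor
          · nlinarith only [c2, c4.1, c5, hX.1]
          · nlinarith only [c2, c4.2, c5, hX.2]
        by_cases b3 : cnt μ R T (X + T ^ (1 / 2 : ℝ) * v) = 0
        · exact Or.inr (Or.inl ⟨b2, b3⟩)
        · exact Or.inl ⟨b2, b3⟩
      have a2 := (measureReal_mono (μ := P) a1).trans ((measureReal_union_le _ _).trans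
        (add_le_add le_rfl (measureReal_union_le _ _)))
      rw [probReal_univ] at a2
      linarith only [a2, h3 X, hM']
    have h5 : {t | t ∈ Icc (T / 2) (3 * T) ∧ cnt μ R T t ≠ 0} ⊆
        ⋃ m ∈ Finset.range N, {t | |Real.log T / (2 * π) * (γ m - t)| ≤ R / 2} := by
      rintro t ⟨ht, h6⟩
      obtain ⟨k, hk⟩ : {n | |Real.log T / (2 * π) * (γ n - t)| ≤ R / 2}.Nonempty := by
        by_contra h5
        rw [cnt, Measure.real, hγ.cnt_eq hL (by linarith only [hT, ht.1]),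
          not_nonempty_iff_eq_empty.1 h5] at h6
        simp at h6
      simp only [mem_iUnion, Finset.mem_range]
      refine ⟨k, hγ.mono.reflect_lt ?_, hk⟩
      have hk' := abs_le.1 (mem_ofPred_eq ▸ hk :)
      rw [hN]
      by_contra h7
      nlinarith only [hk'.2, not_lt.1 h7, hl, ht.2, hT, hR]
    have h6 := h4.trans ((measure_mono h5).trans (measure_biUnion_finset_le _ _))
    simp only [volume_window hL, Finset.sum_const, nsmul_eq_mul, Finset.card_range] at h6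
    rwa [← ENNReal.ofReal_natCast, ← ENNReal.ofReal_mul (Nat.cast_nonneg _),
      ENNReal.ofReal_le_ofReal_iff (by positivity)] at h6
  refine ⟨1 / (64 * π * R), by positivity, ?_⟩
  have ht := (hγ.tendsto hμ).atTop_div_const (show (0 : ℝ) < 4 by norm_num)
  filter_upwards [ht.eventually key, ht.eventually_ge_atTop 4] with N h1 h3
  have h4 := h1 N (by ring)
  obtain ⟨T, hT⟩ : ∃ T, γ N = 4 * T := ⟨γ N / 4, by ring⟩
  rw [hT] at h3 h4 ⊢
  rw [show 4 * T / 4 = T by ring] at h3 h4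
  have hL := Real.log_pos (show 1 < T by linarith only [h3])
  have h6 : Real.log (4 * T) ≤ 2 * Real.log T := by
    rw [← Real.log_rpow (by linarith only [h3]), Real.rpow_two]
    refine Real.log_le_log (by linarith only [h3]) ?_
    nlinarith only [h3]
  rw [← mul_div_assoc, le_div_iff₀ hL] at h4
  rw [one_div, inv_mul_le_iff₀ (by positivity)]
  nlinarith only [h4, h6, h3]

theorem rigid_of_vol {μ : Measure ℝ} [SFinite μ] (hμ : ZData μ) {γ : ℕ → ℝ} (hγ : Enum μ γ)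
    (hV : ∀ ε ε1 R0 : ℝ, 0 < ε → 0 < ε1 → 1 ≤ R0 → ∃ c R δ : ℝ, 0 < c ∧ c < 1 / 2 ∧
      0 < R ∧ 0 < δ ∧ ∀ᶠ T : ℝ in atTop, ∀ E, MeasurableSet E →
        (∀ t ∈ Icc (T / 2) (3 * T), t ∉ E → Sep μ c R T t) →
        volume (E ∩ Icc T (2 * T)) ≤ ENNReal.ofReal (δ * T) →
        volume {t | t ∈ Icc T (2 * T) ∧ Off γ ε R0 T t} ≤ ENNReal.ofReal (ε1 * T))
    {ε : ℝ} (hε : 0 < ε) : ∃ δ : ℝ, 0 < δ ∧ ∀ᶠ N : ℕ in atTop,
      δ * N ≤ {n | n < N ∧
        (γ (n + 1) - γ n) / (2 * π) * Real.log (γ n / (2 * π)) ≤ 1 / 2 - δ}.ncard ∨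
      ({n | n < N ∧ ∀ k : ℤ, ε <
        |(γ (n + 1) - γ n) / (2 * π) * Real.log (γ n / (2 * π)) - k / 2|}.ncard : ℝ) ≤ ε * N := by
  classical
  obtain ⟨κ, hκ, h1⟩ := le_index hμ hγ
  obtain ⟨C, hC, h2⟩ := DensAux.low hμ hγ
  obtain ⟨I, hI⟩ := pow_unbounded_of_one_lt (4 * C / (ε * κ)) (show (1 : ℝ) < 2 by norm_num)
  have hK : (1 : ℝ) ≤ 2 ^ I := one_le_pow₀ (by norm_num)
  obtain ⟨δ, hδ, h3⟩ := DensAux.block hμ hγ hV hε
    (show 0 < ε * κ / (4 * (I + 1)) by positivity) hK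
  refine ⟨δ, hδ, ?_⟩
  have ht := hγ.tendsto hμ
  filter_upwards [h1, ht.eventually_ge_atTop 3, ht.eventually_ge_atTop (2 ^ I),
    (eventually_all_finset (Finset.range I)).2 fun i _ =>
      (ht.atTop_div_const (show (0 : ℝ) < 2 ^ (i + 1) by positivity)).eventually h3,
    tendsto_natCast_atTop_atTop.eventually_ge_atTop (2 / ε)] with N h4 h5 h6 h7 h8
  rw [DensAux.ncard_eq, DensAux.ncard_eq]
  refine or_iff_not_imp_left.2 fun h9 => ?_
  have h10 : (((Finset.range N).filter fun n => DensAux.gp γ n ≤ 1 / 2 - δ).card : ℝ) ≤ δ * N :=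
    (not_le.1 h9).le
  change (((Finset.range N).filter fun n => ∀ k : ℤ, ε < |DensAux.gp γ n - k / 2|).card : ℝ) ≤ _
  obtain ⟨G, hG⟩ : ∃ G, G = γ N := ⟨_, rfl⟩
  have hL : 0 ≤ Real.log G := Real.log_nonneg (by linarith only [h5, hG])
  have hG0 : 0 < G := by linarith only [h5, hG]
  have hx : 1 ≤ G / 2 ^ I := by rw [le_div_iff₀ (by positivity), hG]; linarith only [h6]
  have a1 : ((Finset.range N).filter fun n => ∀ k : ℤ, ε < |DensAux.gp γ n - k / 2|) ⊆
      ((Finset.range N).filter fun n => γ n < G / 2 ^ I) ∪ (Finset.range I).biUnion fun i =>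
        (Finset.range N).filter fun n => (∀ k : ℤ, ε < |DensAux.gp γ n - k / 2|) ∧
          G / 2 ^ (i + 1) ≤ γ n ∧ γ n < 2 * (G / 2 ^ (i + 1)) := by
    intro n hn
    simp only [Finset.mem_filter, Finset.mem_union, Finset.mem_biUnion, Finset.mem_range] at hn ⊢
    by_cases b1 : γ n < G / 2 ^ I
    · exact Or.inl ⟨hn.1, b1⟩
    have b2 : γ n < G := by
      have c1 : γ (n + 1) ≤ γ N := hγ.mono hn.1
      have c2 : γ n ≤ γ (n + 1) := hγ.mono (Nat.le_succ n)
      by_contra c3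
      have c4 : γ (n + 1) - γ n = 0 := by linarith only [c1, c2, not_lt.1 c3, hG]
      have c5 := hn.2 0
      rw [DensAux.gp, c4] at c5
      simp at c5
      linarith only [c5, hε]
    obtain ⟨i, hi, b3⟩ := DensAux.cover b2 I (not_lt.1 b1)
    exact Or.inr ⟨i, hi, hn.1, hn.2, b3⟩
  have a2 := (Finset.card_le_card a1).trans ((Finset.card_union_le _ _).trans
    (Nat.add_le_add le_rfl Finset.card_biUnion_le))
  have a3 := (Nat.cast_le (α := ℝ)).2 a2
  rw [Nat.cast_add, Nat.cast_sum] at a3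
  have a4 := h2 N (G / 2 ^ I) G hx (div_le_self hG0.le hK) (by linarith only [h5, hG])
  have a5 : ∑ i ∈ Finset.range I, (((Finset.range N).filter fun n =>
      (∀ k : ℤ, ε < |DensAux.gp γ n - k / 2|) ∧ G / 2 ^ (i + 1) ≤ γ n ∧
        γ n < 2 * (G / 2 ^ (i + 1))).card : ℝ) ≤
      ∑ _i ∈ Finset.range I, ε * κ / (4 * (I + 1)) * (G * Real.log G) := by
    refine Finset.sum_le_sum fun i hi => ?_
    have hi' : i + 1 ≤ I := Finset.mem_range.1 hi
    have b1 : (2 : ℝ) ^ (i + 1) ≤ 2 ^ I := pow_le_pow_right₀ (by norm_num) hi'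
    have b2 : (2 : ℝ) ≤ 2 ^ (i + 1) := le_self_pow₀ (by norm_num) (by omega)
    have b3 := h7 i hi N (by
      rw [mul_div_assoc', div_le_iff₀ (by positivity)]; nlinarith only [b2, h5]) (by
      rw [mul_div_assoc', le_div_iff₀ (by positivity)]; nlinarith only [b1, h5]) h10
    rw [← hG] at b3
    refine b3.trans ?_
    have b4 : G / 2 ^ (i + 1) ≤ G := div_le_self hG0.le (by linarith only [b2])
    have b5 : 1 ≤ G / 2 ^ (i + 1) := hx.trans (by gcongr)
    gcongr
    exact Real.log_nonneg b5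
  rw [Finset.sum_const, Finset.card_range, nsmul_eq_mul] at a5
  rw [← hG] at h4
  have hW : 0 ≤ G * Real.log G := by positivity
  have a6 : (I : ℝ) * (ε * κ / (4 * (I + 1)) * (G * Real.log G)) ≤
      ε / 4 * (κ * (G * Real.log G)) := by
    have : (I : ℝ) * (ε * κ / (4 * (I + 1)) * (G * Real.log G)) =
        I / (I + 1) * (ε / 4 * (κ * (G * Real.log G))) := by field_simp
    rw [this]
    refine mul_le_of_le_one_left (by positivity) ?_
    rw [div_le_one (by positivity)]; linarith only []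
  have a7 : C * (G / 2 ^ I * Real.log G) ≤ ε / 4 * (κ * (G * Real.log G)) := by
    rw [div_lt_iff₀ (by positivity)] at hI
    have : C * (G / 2 ^ I * Real.log G) = C / 2 ^ I * (G * Real.log G) := by ring
    rw [this, ← mul_assoc (ε / 4)]
    refine mul_le_mul_of_nonneg_right ?_ hW
    rw [div_le_iff₀ (by positivity)]
    linarith only [hI]
  have a8 : ε / 4 * (κ * (G * Real.log G)) ≤ ε / 4 * N :=
    mul_le_mul_of_nonneg_left h4 (by positivity)
  rw [div_le_iff₀' hε] at h8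
  linarith only [a3, a4, a5, a6, a7, a8, h8]

end Pool.Agent.P.MP_7eacff_nt.Rig
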