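import Pool.Agent.P.MP_7eacff_nt.Rig.Rect

/-!
Measure theoretic glue for the deterministic core.
-/

open Complex Filter Topology MeasureTheory Set
open scoped Real ENNReal ComplexConjugate

namespace Pool.Agent.P.MP_7eacff_nt.Rig.DetAux

theorem ofReal_int_le {h : ℝ → ℝ} {a b : ℝ} (hab : a ≤ b) (h0 : ∀ x, 0 ≤ h x) :
    ENNReal.ofReal (∫ x in a..b, h x) ≤ ∫⁻ x in Icc a b, ENNReal.ofReal (h x) := by
  rw [intervalIntegral.integral_of_le hab]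
  calc ENNReal.ofReal (∫ x in Ioc a b, h x) ≤ ‖∫ x in Ioc a b, h x‖ₑ := Real.ofReal_le_enorm _
    _ ≤ ∫⁻ x in Ioc a b, ‖h x‖ₑ := enorm_integral_le_lintegral_enorm _
    _ = ∫⁻ x in Ioc a b, ENNReal.ofReal (h x) := by
        refine lintegral_congr fun x => ?_
        exact Real.enorm_of_nonneg (h0 x)
    _ ≤ ∫⁻ x in Icc a b, ENNReal.ofReal (h x) := lintegral_mono_set Ioc_subset_Icc_self

theorem int_le {h : ℝ → ℝ} {a b K V : ℝ} {U : ℝ → ℝ≥0∞} (hab : a ≤ b) (h0 : ∀ x, 0 ≤ h x)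
    (hK : 0 ≤ K) (hV : 0 ≤ V)
    (hU : ∀ x ∈ Icc a b, ENNReal.ofReal (h x) ≤ ENNReal.ofReal K * U x)
    (hint : ∫⁻ x in Icc a b, U x ≤ ENNReal.ofReal V) : ∫ x in a..b, h x ≤ K * V := by
  rw [← ENNReal.ofReal_le_ofReal_iff (mul_nonneg hK hV)]
  calc ENNReal.ofReal (∫ x in a..b, h x) ≤ ∫⁻ x in Icc a b, ENNReal.ofReal (h x) :=
        ofReal_int_le hab h0
    _ ≤ ∫⁻ x in Icc a b, ENNReal.ofReal K * U x := setLIntegral_mono' measurableSet_Icc hU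
    _ = ENNReal.ofReal K * ∫⁻ x in Icc a b, U x :=
        lintegral_const_mul' _ _ ENNReal.ofReal_ne_top
    _ ≤ ENNReal.ofReal K * ENNReal.ofReal V := by gcongr
    _ = ENNReal.ofReal (K * V) := (ENNReal.ofReal_mul hK).symm

theorem meas_S (y1 Y : ℝ) : MeasurableSet {y : ℝ | y1 ≤ |y| ∧ |y| ≤ Y} :=
  (measurableSet_le measurable_const continuous_abs.measurable).inter
    (measurableSet_le continuous_abs.measurable measurable_const)

theorem le_mul_add {u K p q ξ : ℝ} (hK : 0 ≤ K) (hp : 0 ≤ p) (hq : 0 ≤ q) (hξ : 0 ≤ ξ)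
    (h : u ≤ K * (p + ξ * q)) : ENNReal.ofReal u ≤
      ENNReal.ofReal K * (ENNReal.ofReal p + ENNReal.ofReal ξ * ENNReal.ofReal q) := by
  rw [← ENNReal.ofReal_mul hξ, ← ENNReal.ofReal_add hp (mul_nonneg hξ hq), ← ENNReal.ofReal_mul hK]
  exact ENNReal.ofReal_le_ofReal h

theorem inner_le {k f g g' : ℝ → ℝ} {Y y1 ξ K : ℝ} (hY : 0 ≤ Y) (hK : 0 ≤ K) (hξ : 0 ≤ ξ)
    (k0 : ∀ y, 0 ≤ k y) (f0 : ∀ y, 0 ≤ f y) (g0 : ∀ y, 0 ≤ g y) (g0' : ∀ y, 0 ≤ g' y)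
    (hg : Measurable g)
    (b1 : ∀ y, y1 ≤ |y| → |y| ≤ Y → k y ≤ K * (f y + ξ * g y))
    (b2 : ∀ y, |y| ≤ y1 → k y ≤ K * (g y + g' y)) :
    ENNReal.ofReal (∫ y in (-Y)..Y, k y) ≤ ENNReal.ofReal K *
      ((∫⁻ y in {y | y1 ≤ |y| ∧ |y| ≤ Y}, ENNReal.ofReal (f y)) +
        ENNReal.ofReal ξ * (∫⁻ y in Icc (-Y) Y, ENNReal.ofReal (g y)) +
        ∫⁻ y in Icc (-y1) y1, (ENNReal.ofReal (g y) + ENNReal.ofReal (g' y))) := by
  have hsub : Icc (-Y) Y ⊆ {y : ℝ | y1 ≤ |y| ∧ |y| ≤ Y} ∪ Icc (-y1) y1 := by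
    intro y hy
    rcases le_total y1 |y| with h | h
    · exact Or.inl ⟨h, abs_le.2 hy⟩
    · exact Or.inr (abs_le.1 h)
  have hsub' : {y : ℝ | y1 ≤ |y| ∧ |y| ≤ Y} ⊆ Icc (-Y) Y := fun y hy => abs_le.1 hy.2
  have e1 : ∫⁻ y in {y : ℝ | y1 ≤ |y| ∧ |y| ≤ Y}, ENNReal.ofReal (k y) ≤ ENNReal.ofReal K *
      ((∫⁻ y in {y | y1 ≤ |y| ∧ |y| ≤ Y}, ENNReal.ofReal (f y)) +
        ENNReal.ofReal ξ * (∫⁻ y in Icc (-Y) Y, ENNReal.ofReal (g y))) := by
    calc ∫⁻ y in {y : ℝ | y1 ≤ |y| ∧ |y| ≤ Y}, ENNReal.ofReal (k y)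
        ≤ ∫⁻ y in {y : ℝ | y1 ≤ |y| ∧ |y| ≤ Y}, ENNReal.ofReal K *
          (ENNReal.ofReal (f y) + ENNReal.ofReal ξ * ENNReal.ofReal (g y)) :=
          setLIntegral_mono' (meas_S y1 Y) fun y hy =>
            le_mul_add hK (f0 y) (g0 y) hξ (b1 y hy.1 hy.2)
      _ = ENNReal.ofReal K * ((∫⁻ y in {y | y1 ≤ |y| ∧ |y| ≤ Y}, ENNReal.ofReal (f y)) +
          ENNReal.ofReal ξ * (∫⁻ y in {y | y1 ≤ |y| ∧ |y| ≤ Y}, ENNReal.ofReal (g y))) := by
          rw [lintegral_const_mul' _ _ ENNReal.ofReal_ne_top,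
            lintegral_add_right _ (hg.ennreal_ofReal.const_mul _),
            lintegral_const_mul' _ _ ENNReal.ofReal_ne_top]
      _ ≤ _ := by
          gcongr
  have e2 : ∫⁻ y in Icc (-y1) y1, ENNReal.ofReal (k y) ≤ ENNReal.ofReal K *
      ∫⁻ y in Icc (-y1) y1, (ENNReal.ofReal (g y) + ENNReal.ofReal (g' y)) := by
    rw [← lintegral_const_mul' _ _ ENNReal.ofReal_ne_top]
    refine setLIntegral_mono' measurableSet_Icc fun y hy => ?_
    rw [← ENNReal.ofReal_add (g0 y) (g0' y), ← ENNReal.ofReal_mul hK]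
    exact ENNReal.ofReal_le_ofReal (b2 y (abs_le.2 hy))
  calc ENNReal.ofReal (∫ y in (-Y)..Y, k y) ≤ ∫⁻ y in Icc (-Y) Y, ENNReal.ofReal (k y) :=
        ofReal_int_le (by linarith) k0
    _ ≤ ∫⁻ y in {y : ℝ | y1 ≤ |y| ∧ |y| ≤ Y} ∪ Icc (-y1) y1, ENNReal.ofReal (k y) :=
        lintegral_mono_set hsub
    _ ≤ (∫⁻ y in {y : ℝ | y1 ≤ |y| ∧ |y| ≤ Y}, ENNReal.ofReal (k y)) +
        ∫⁻ y in Icc (-y1) y1, ENNReal.ofReal (k y) := lintegral_union_le _ _ _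
    _ ≤ _ := by
        rw [mul_add]
        exact add_le_add e1 e2

theorem glue {W : ℂ → ℂ} (hW : Differentiable ℂ W) {f g : ℝ → ℝ → ℝ} {c Y R y1 ξ V K : ℝ}
    (hc : 1 / 4 ≤ c) (hc' : c ≤ 1 / 2) (hY : 1 ≤ Y) (hR : 0 ≤ R) (hy1 : y1 ≤ Y) (hξ : 0 ≤ ξ)
    (hV : 0 ≤ V) (hK : 0 ≤ K) (f0 : ∀ a y, 0 ≤ f a y) (g0 : ∀ a y, 0 ≤ g a y)
    (hg : ∀ a, Measurable (g a))
    (hVf : Vf (fun a y => ENNReal.ofReal (f a y)) (fun a y => ENNReal.ofReal (g a y))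
      c R Y y1 ξ ≤ ENNReal.ofReal V)
    (b1 : ∀ a y : ℝ, |a| ≤ R + 1 → y1 ≤ |y| → |y| ≤ Y →
      ‖W (a - y * I) - W (a + c - y * I)‖ * Real.exp (-(2 * π / c * max (-y) 0)) ≤
        K * (f a y + ξ * g a y))
    (b2 : ∀ a y : ℝ, |a| ≤ R + 1 → |y| ≤ y1 →
      ‖W (a - y * I) - W (a + c - y * I)‖ * Real.exp (-(2 * π / c * max (-y) 0)) ≤
        K * (g a y + g (a + c) y))
    (b3 : ∀ a : ℝ, |a| ≤ R + 1 → ‖W (a - Y * I)‖ * Real.exp (-(2 * π / c * Y)) ≤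
      K * (Real.exp (-(4 * π * Y)) * g a Y))
    (b4 : ∀ a : ℝ, |a| ≤ R + 1 → ‖W (a + Y * I)‖ * Real.exp (-(4 * π / c * Y)) ≤
      K * (Real.exp (-(4 * π * Y)) * g a (-Y)))
    {z z' : ℝ} (hz : |z| ≤ R) (hz' : |z'| ≤ R) (h0 : W z = 0) (h0' : W z' = 0) :
    ‖∫ x in (0 : ℝ)..c, W (x - Y * I)‖ * ‖1 - ee ((z' - z) / c)‖ ≤ 30 * (K * V) := by
  have hab : -(R + 1) ≤ R + 1 := by linarith
  have hY0 : 0 ≤ Y := by linarith
  have hYa : |Y| = Y := abs_of_nonneg hY0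
  unfold Vf at hVf
  refine rect_zero hW hc hc' hY hR ?_ ?_ ?_ ?_ ?_ hz hz' h0 h0'
  · refine int_le hab (fun a => intervalIntegral.integral_nonneg (by linarith) fun y _ => by
      positivity) hK hV (fun a ha => ?_) hVf
    have e := intervalIntegral.integral_comp_neg (a := -Y) (b := Y) (f := fun y : ℝ =>
      ‖W (a + y * I) - W (a + c + y * I)‖ * Real.exp (-(2 * π / c * max y 0)))
    rw [neg_neg] at e
    rw [← e]
    refine (inner_le (f := f a) (g := g a) (g' := g (a + c)) (y1 := y1) hY0 hK hξ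
      (fun y => by positivity) (f0 a) (g0 a) (g0 _) (hg a) (fun y h1 h2 => ?_)
      (fun y h1 => ?_)).trans ?_
    · have := b1 a y (abs_le.2 ha) h1 h2
      simpa only [ofReal_neg, neg_mul, ← sub_eq_add_neg] using this
    · have := b2 a y (abs_le.2 ha) h1
      simpa only [ofReal_neg, neg_mul, ← sub_eq_add_neg] using this
    · refine mul_le_mul_right ?_ _
      refine le_add_right (add_le_add (add_le_add ?_ ?_) le_rfl)
      · exact le_add_right (le_add_right le_rfl)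
      · exact mul_le_mul_right (le_add_right (le_add_right le_rfl)) _
  · refine int_le hab (fun a => norm_nonneg _) hK hV (fun a ha => ?_) hVf
    have := b1 a Y (abs_le.2 ha) (by rw [hYa]; exact hy1) hYa.le
    rw [max_eq_right (by linarith), mul_zero, neg_zero, Real.exp_zero, mul_one] at this
    refine (le_mul_add hK (f0 _ _) (g0 _ _) hξ this).trans (mul_le_mul_right ?_ _)
    refine le_add_right (le_add_right (add_le_add ?_ ?_))
    · exact le_add_right (le_add_left le_rfl)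
    · exact mul_le_mul_right (le_add_right (le_add_left le_rfl)) _
  · refine int_le hab (fun a => by positivity) hK hV (fun a ha => ?_) hVf
    have := b1 a (-Y) (abs_le.2 ha) (by rw [abs_neg, hYa]; exact hy1) (by rw [abs_neg, hYa])
    rw [neg_neg, max_eq_left hY0, ofReal_neg, neg_mul, sub_neg_eq_add, sub_neg_eq_add] at this
    refine (le_mul_add hK (f0 _ _) (g0 _ _) hξ this).trans (mul_le_mul_right ?_ _)
    refine le_add_right (le_add_right (add_le_add ?_ ?_))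
    · exact le_add_left le_rfl
    · exact mul_le_mul_right (le_add_left le_rfl) _
  · refine int_le hab (fun a => by positivity) hK hV (fun a ha => ?_) hVf
    refine (ENNReal.ofReal_le_ofReal (b3 a (abs_le.2 ha))).trans ?_
    rw [ENNReal.ofReal_mul hK, ENNReal.ofReal_mul (Real.exp_pos _).le]
    exact mul_le_mul_right (le_add_left (mul_le_mul_right (le_add_right le_rfl) _)) _
  · refine int_le hab (fun a => by positivity) hK hV (fun a ha => ?_) hVf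
    refine (ENNReal.ofReal_le_ofReal (b4 a (abs_le.2 ha))).trans ?_
    rw [ENNReal.ofReal_mul hK, ENNReal.ofReal_mul (Real.exp_pos _).le]
    exact mul_le_mul_right (le_add_left (mul_le_mul_right (le_add_left le_rfl) _)) _

end Pool.Agent.P.MP_7eacff_nt.Rig.DetAux
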