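import Pool.Agent.P.MP_7eacff_nt.Rig.Prod

/-!
Pointwise estimates for the deterministic core.
-/

open Complex Filter Topology MeasureTheory Set
open scoped Real ENNReal ComplexConjugate

namespace Pool.Agent.P.MP_7eacff_nt.Rig.DetAux

/-- The exponential type of the entire function. -/
noncomputable def kap (c : ℝ) (A : ℂ) : ℂ := ((A.re / c : ℝ) : ℂ) - ((π / (2 * c) : ℝ) : ℂ) * I

theorem kap_im (c : ℝ) (A : ℂ) : (kap c A).im = -(π / (2 * c)) := by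
  unfold kap
  simp only [sub_im, ofReal_im, mul_im, ofReal_re, I_im, I_re, mul_one, mul_zero, add_zero,
    zero_sub]

theorem mul_kap {c : ℝ} (hc : 0 < c) (A : ℂ) : kap c A * c = (A.re : ℂ) - π / 2 * I := by
  have : (c : ℂ) ≠ 0 := by exact_mod_cast hc.ne'
  unfold kap
  push_cast
  field_simp

theorem exp_kap {c : ℝ} (hc : 0 < c) (A : ℂ) : cexp (-(kap c A * c)) = I * cexp (-(A.re : ℂ)) := by
  rw [mul_kap hc, neg_sub, sub_eq_add_neg, exp_add, exp_pi_div_two_mul_I]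

theorem norm_ph (c : ℝ) : ‖ph c‖ = 1 := by
  unfold ph
  rw [norm_mul, norm_I, one_mul, ← ofReal_neg, norm_exp_ofReal_mul_I]

variable {s : Finset ℕ} {x : ℕ → ℝ}

theorem cLd (hs : Sparse s x) {c a y ξ : ℝ} {A z : ℂ} (hc : 0 < c) (hc' : c ≤ 1 / 2) (hy : 0 < y)
    (h1 : ‖z - ∑ i ∈ s, ell c (x i - a + y * I) + A‖ ≤ ξ) (h2 : |A.im + π * c| ≤ ξ) :
    ‖c * Ld s x (kap c A) (a - y * I) + z‖ ≤
      π * (1 / 2 - c) + 2 * ξ + c ^ 2 * (26 * (1 / y + 1 / y ^ 3)) := by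
  have h3 := hs.sum_ell_sub hc.le hy a
  have e1 : ∑ i ∈ s, 1 / ((a : ℂ) - y * I - x i) = -∑ i ∈ s, 1 / (x i - a + y * I : ℂ) := by
    rw [← Finset.sum_neg_distrib]
    refine Finset.sum_congr rfl fun i _ => ?_
    rw [← div_neg]
    congr 1
    ring
  have e2 : c * Ld s x (kap c A) (a - y * I) + z =
      (z - ∑ i ∈ s, ell c (x i - a + y * I) + A) +
      (∑ i ∈ s, ell c (x i - a + y * I) - c * ∑ i ∈ s, 1 / (x i - a + y * I : ℂ)) -
      ((π * (1 / 2 - c) : ℝ) : ℂ) * I - ((A.im + π * c : ℝ) : ℂ) * I := by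
    unfold Ld
    rw [e1, mul_add, mul_comm (c : ℂ) (kap c A), mul_kap hc]
    have := re_add_im A
    push_cast
    linear_combination this
  rw [e2]
  have n1 : ‖((π * (1 / 2 - c) : ℝ) : ℂ) * I‖ = π * (1 / 2 - c) := by
    rw [norm_mul, norm_I, mul_one, norm_real, Real.norm_eq_abs, abs_of_nonneg]
    exact mul_nonneg Real.pi_pos.le (by linarith)
  have n2 : ‖((A.im + π * c : ℝ) : ℂ) * I‖ ≤ ξ := by
    rwa [norm_mul, norm_I, mul_one, norm_real, Real.norm_eq_abs]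
  refine (norm_sub_le _ _).trans ?_
  have n3 := norm_sub_le ((z - ∑ i ∈ s, ell c (x i - a + y * I) + A) +
      (∑ i ∈ s, ell c (x i - a + y * I) - c * ∑ i ∈ s, 1 / (x i - a + y * I : ℂ)))
      (((π * (1 / 2 - c) : ℝ) : ℂ) * I)
  have n4 := norm_add_le (z - ∑ i ∈ s, ell c (x i - a + y * I) + A)
      (∑ i ∈ s, ell c (x i - a + y * I) - c * ∑ i ∈ s, 1 / (x i - a + y * I : ℂ))
  linarith only [n1, n2, n3, n4, h1, h3]

theorem phase {c ξ : ℝ} {A z S : ℂ} (h1 : ‖z - S + A‖ ≤ ξ) (h2 : |A.im + π * c| ≤ ξ)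
    (hξ : ξ ≤ 1 / 2) : ∃ q : ℂ, ‖q - 1‖ ≤ 4 * ξ ∧
      ph c * cexp z = I * cexp (-(A.re : ℂ)) * cexp S * q := by
  refine ⟨cexp ((z - S + A) - ((A.im + π * c : ℝ) : ℂ) * I), ?_, ?_⟩
  · have n2 : ‖((A.im + π * c : ℝ) : ℂ) * I‖ ≤ ξ := by
      rwa [norm_mul, norm_I, mul_one, norm_real, Real.norm_eq_abs]
    have n3 := norm_sub_le (z - S + A) (((A.im + π * c : ℝ) : ℂ) * I)
    have n4 := norm_exp_sub_one_le (x := (z - S + A) - ((A.im + π * c : ℝ) : ℂ) * I) (by linarith)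
    linarith
  · unfold ph
    rw [mul_assoc, mul_assoc, mul_assoc, ← exp_add, ← exp_add, ← exp_add]
    congr 2
    have := re_add_im A
    push_cast
    linear_combination this

theorem shift_core {P0 P1 E T u q : ℂ} {ξ : ℝ} (h0 : P0 = P1 * T) (hE : E = T * q)
    (hq : ‖q - 1‖ ≤ 4 * ξ) (hu : ‖u - E‖ ≤ ξ) : ‖P0 - P1 * u‖ ≤ ξ * ‖P1‖ + 4 * ξ * ‖P0‖ := by
  have e : P0 - P1 * u = -(P1 * (u - E)) - P0 * (q - 1) := by
    rw [h0, hE]
    ring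
  rw [e]
  refine (norm_sub_le _ _).trans ?_
  rw [norm_neg, norm_mul, norm_mul, mul_comm ξ, mul_comm (4 * ξ)]
  gcongr

theorem shift {c a y ξ : ℝ} {A : ℂ} {z : ℝ → ℂ} {m : ℕ} (hc : 0 < c) (hy : y ≠ 0)
    (h1 : ‖z |y| - ∑ i ∈ s, ell c (x i - a + (|y| : ℝ) * I) + A‖ ≤ ξ) (h2 : |A.im + π * c| ≤ ξ)
    (hξ : ξ ≤ 1 / 2) (h3 : ‖cexp (z |y|) - expm m (z |y|)‖ ≤ ξ) :
    ‖Pf s x (kap c A) (a - y * I) - Pf s x (kap c A) (a + c - y * I) * Cz c m z y‖ ≤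
      ξ * ‖Pf s x (kap c A) (a + c - y * I)‖ + 4 * ξ * ‖Pf s x (kap c A) (a - y * I)‖ := by
  obtain ⟨q, hq, hE⟩ := phase h1 h2 hξ
  have hw : ((a : ℂ) - y * I).im ≠ 0 := by simpa using hy
  have h0 := Pf_shift (s := s) (x := x) (κ := kap c A) c hw
  rw [exp_kap hc, mul_assoc, show (a : ℂ) - y * I + c = a + c - y * I by ring] at h0
  have hu : ‖ph c * expm m (z |y|) - ph c * cexp (z |y|)‖ ≤ ξ := by
    rwa [← mul_sub, norm_mul, norm_ph, one_mul, norm_sub_rev]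
  unfold Cz
  split_ifs with hy0
  · rw [abs_of_nonneg hy0] at hE hu
    refine shift_core h0 ?_ hq hu
    rw [hE]
    congr 3
    refine Finset.sum_congr rfl fun i _ => ?_
    congr 1
    ring
  · rw [abs_of_neg (not_le.1 hy0)] at hE hu
    refine shift_core (E := -conj (ph c * cexp (z (-y)))) (q := conj q) h0 ?_ ?_ ?_
    · rw [hE, map_mul, map_mul, map_mul, conj_I, ← exp_conj, ← exp_conj, map_sum, map_neg,
        conj_ofReal]
      have : ∑ i ∈ s, conj (ell c (x i - a + (-y : ℝ) * I)) =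
          ∑ i ∈ s, ell c (x i - (a - y * I)) := by
        refine Finset.sum_congr rfl fun i _ => ?_
        rw [← ell_conj]
        congr 1
        simp only [map_add, map_sub, map_mul, conj_ofReal, conj_I]
        push_cast
        ring
      rw [this]
      ring
    · rwa [← map_one (starRingEnd ℂ), ← map_sub, norm_conj]
    · rwa [neg_sub_neg, ← map_sub, norm_conj, norm_sub_rev]

theorem Ld_le (hs : Sparse s x) {c y ξ : ℝ} {A z : ℂ} (hc : 1 / 4 ≤ c) (hc' : c ≤ 1 / 2)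
    (hy : 1 ≤ y) (hξ : 0 ≤ ξ)
    (h1 : ‖z - ∑ i ∈ s, ell c (x i - (0 : ℝ) + y * I) + A‖ ≤ ξ) (h2 : |A.im + π * c| ≤ ξ) :
    ‖Ld s x (kap c A) (-(y * I))‖ ≤ 4 * ‖z‖ + 16 * (1 / 2 - c) + 8 * ξ + 26 * y⁻¹ := by
  have hc0 : 0 < c := by linarith
  have hy0 : 0 < y := by linarith
  have h3 := cLd hs hc0 hc' hy0 h1 h2
  rw [ofReal_zero, zero_sub] at h3
  have h4 : c * ‖Ld s x (kap c A) (-(y * I))‖ ≤ ‖c * Ld s x (kap c A) (-(y * I)) + z‖ + ‖z‖ := by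
    have := norm_sub_le (c * Ld s x (kap c A) (-(y * I)) + z) z
    rwa [add_sub_cancel_right, norm_mul, norm_real, Real.norm_eq_abs, abs_of_pos hc0] at this
  have h5 : 1 / y ^ 3 ≤ 1 / y :=
    one_div_le_one_div_of_le hy0 (le_self_pow₀ hy (by norm_num))
  have h6 : 0 < 1 / y := by positivity
  have h7 : π * (1 / 2 - c) ≤ 4 * (1 / 2 - c) :=
    mul_le_mul_of_nonneg_right Real.pi_le_four (by linarith)
  have h8 : c ^ 2 * (26 * (1 / y + 1 / y ^ 3)) ≤ c * (26 * (1 / y)) := by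
    have : c * (26 * (1 / y + 1 / y ^ 3)) ≤ 1 / 2 * (26 * (1 / y + 1 / y)) := by gcongr
    calc c ^ 2 * (26 * (1 / y + 1 / y ^ 3)) = c * (c * (26 * (1 / y + 1 / y ^ 3))) := by ring
      _ ≤ c * (26 * (1 / y)) := mul_le_mul_of_nonneg_left (by linarith) hc0.le
  have h9 : ‖z‖ + 4 * (1 / 2 - c) + 2 * ξ ≤ c * (4 * ‖z‖ + 16 * (1 / 2 - c) + 8 * ξ) := by
    have : 0 ≤ ‖z‖ + 4 * (1 / 2 - c) + 2 * ξ := by
      have := norm_nonneg z
      linarith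
    nlinarith only [this, hc]
  refine le_of_mul_le_mul_left ?_ hc0
  rw [← one_div y]
  linarith only [h3, h4, h7, h8, h9]

theorem sum_inv_le (Y : ℕ) : ∑ j ∈ Finset.Icc 1 Y, (j : ℝ)⁻¹ ≤ 1 + Real.log Y := by
  have := harmonic_le_one_add_log Y
  rw [harmonic_eq_sum_Icc] at this
  push_cast at this
  exact this

theorem z_le (hs : Sparse s x) {c a y y1 ξ R Y Λ : ℝ} {A z z1 : ℂ} (hc : 1 / 4 ≤ c)
    (hc' : c ≤ 1 / 2) (hR : 1 ≤ R) (hY : 1000 ≤ Y) (hy0 : 0 < y1) (hy1 : y1 ≤ 1)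
    (hξ : ξ ≤ 1) (ha : |a| ≤ R + 1) (hy : y1 ≤ y) (hy' : y ≤ Y)
    (h0 : ‖z - ∑ i ∈ s, ell c (x i - a + y * I) + A‖ ≤ ξ)
    (h1 : ‖z1 - ∑ i ∈ s, ell c (x i - (0 : ℝ) + (1 : ℝ) * I) + A‖ ≤ ξ) (h2 : |A.im + π * c| ≤ ξ)
    (hz : ‖z1‖ ≤ Λ) : ‖z‖ ≤ Λ + 200 * (R + Y) / y1 ^ 3 := by
  have hc0 : 0 < c := by linarith
  have hyp : 0 < y := by linarith
  have h3 := cLd hs hc0 hc' hyp h0 h2
  have h4 := cLd hs hc0 hc' one_pos h1 h2
  have h5 := hs.Ld_sub (κ := kap c A) hy0 (w := a - y * I) (w' := (0 : ℝ) - (1 : ℝ) * I)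
    (by simpa using hy) (by simpa using hy1)
  set t := 1 / y1 ^ 3 with ht
  have t1 : 1 ≤ t := by
    rw [ht, le_div_iff₀ (by positivity), one_mul]
    exact pow_le_one₀ hy0.le hy1
  have t2 : 1 / y1 ≤ t := one_div_le_one_div_of_le (by positivity)
    (pow_le_of_le_one hy0.le hy1 (by norm_num))
  have t3 : 1 / y ≤ 1 / y1 := one_div_le_one_div_of_le hy0 hy
  have t4 : 1 / y ^ 3 ≤ t := one_div_le_one_div_of_le (by positivity) (by gcongr)
  have n1 : ‖(a : ℂ) - y * I - ((0 : ℝ) - (1 : ℝ) * I)‖ ≤ R + 2 + Y := by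
    have e : (a : ℂ) - y * I - ((0 : ℝ) - (1 : ℝ) * I) = a - y * I + I := by
      push_cast
      ring
    rw [e]
    refine (norm_add_le _ _).trans ?_
    have := norm_sub_le (a : ℂ) (y * I)
    rw [norm_mul, norm_I, mul_one, norm_real, norm_real, Real.norm_eq_abs, Real.norm_eq_abs,
      abs_of_pos hyp] at this
    rw [norm_I]
    linarith
  have n2 : ‖Ld s x (kap c A) (a - y * I) - Ld s x (kap c A) ((0 : ℝ) - (1 : ℝ) * I)‖ ≤
      (R + 2 + Y) * (26 * (t + t)) := by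
    refine h5.trans ?_
    gcongr
  have e : z = (c * Ld s x (kap c A) (a - y * I) + z) -
      (c * Ld s x (kap c A) ((0 : ℝ) - (1 : ℝ) * I) + z1) + z1 -
      c * (Ld s x (kap c A) (a - y * I) - Ld s x (kap c A) ((0 : ℝ) - (1 : ℝ) * I)) := by ring
  have n3 : ‖z‖ ≤ ‖c * Ld s x (kap c A) (a - y * I) + z‖ +
      ‖c * Ld s x (kap c A) ((0 : ℝ) - (1 : ℝ) * I) + z1‖ + ‖z1‖ +
      c * ‖Ld s x (kap c A) (a - y * I) - Ld s x (kap c A) ((0 : ℝ) - (1 : ℝ) * I)‖ := by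
    conv_lhs => rw [e]
    refine (norm_sub_le _ _).trans ?_
    rw [norm_mul, norm_real, Real.norm_eq_abs, abs_of_pos hc0]
    refine add_le_add ((norm_add_le _ _).trans ?_) le_rfl
    exact add_le_add (norm_sub_le _ _) le_rfl
  have n4 : c * ‖Ld s x (kap c A) (a - y * I) - Ld s x (kap c A) ((0 : ℝ) - (1 : ℝ) * I)‖ ≤
      1 / 2 * ((R + 2 + Y) * (26 * (t + t))) := by gcongr
  have h7 : π * (1 / 2 - c) ≤ 4 * (1 / 2 - c) :=
    mul_le_mul_of_nonneg_right Real.pi_le_four (by linarith)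
  have c2 : c ^ 2 ≤ 1 / 4 := by nlinarith only [hc0, hc']
  have n5 : c ^ 2 * (26 * (1 / y + 1 / y ^ 3)) ≤ 1 / 4 * (26 * (t + t)) := by
    have := t3.trans t2
    gcongr
  have n6 : (R + Y) * t ≥ 1000 * t := mul_le_mul_of_nonneg_right (by linarith) (by linarith)
  have e2 : 200 * (R + Y) / y1 ^ 3 = 200 * ((R + Y) * t) := by
    rw [ht]
    ring
  rw [e2]
  norm_num at h4
  norm_num at n3 n4
  nlinarith only [h3, h4, n3, n4, h7, c2, n5, n6, t1, hz, hξ, hc]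

end Pool.Agent.P.MP_7eacff_nt.Rig.DetAux
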