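import Pool.Agent.P.MP_7eacff_nt.Rig.Defs

/-!
The rectangle lemma: zeros of an almost periodic entire function of small type.
-/

open Complex Filter Topology MeasureTheory Set
open scoped Real ENNReal ComplexConjugate

namespace Pool.Agent.P.MP_7eacff_nt.Rig

namespace RectAux

noncomputable def q (a z : ℝ) (w : ℂ) : ℂ := cexp (I * a * (w - z))

noncomputable def K (a z : ℝ) (w : ℂ) : ℂ := q a z w / (1 - q a z w)

theorem q_diff (a z : ℝ) : Differentiable ℂ (q a z) := by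
  unfold q
  fun_prop

theorem q_cont (a z : ℝ) : Continuous (q a z) := (q_diff a z).continuous

theorem norm_q (a z x y : ℝ) : ‖q a z (x + y * I)‖ = Real.exp (-(a * y)) := by
  rw [q, norm_exp]
  congr 1
  simp

theorem re_q (a z x y : ℝ) :
    (q a z (x + y * I)).re = Real.exp (-(a * y)) * Real.cos (a * (x - z)) := by
  have h1 : (I * a * ((x + y * I : ℂ) - z)).re = -(a * y) := by simp
  have h2 : (I * a * ((x + y * I : ℂ) - z)).im = a * (x - z) := by simp
  rw [q, exp_re, h1, h2]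

theorem q_self (a z : ℝ) : q a z z = 1 := by simp [q]

theorem q_per {a c : ℝ} (h : a * c = 2 * π) (z : ℝ) (w : ℂ) : q a z (w + c) = q a z w := by
  have h' : (a : ℂ) * c = 2 * π := by exact_mod_cast h
  have : I * a * (w + c - z) = I * a * (w - z) + 2 * π * I := by linear_combination I * h'
  rw [q, q, this, exp_add, exp_two_pi_mul_I, mul_one]

theorem q_shift (a z : ℝ) (w : ℂ) : q a z w = cexp (-(I * a * z)) * q a 0 w := by
  rw [q, q, ← exp_add]
  congr 1
  push_cast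
  ring

theorem q_ne_one {a c z : ℝ} (h : a * c = 2 * π) (hc : 0 < c) {w : ℂ} (hw : w ≠ z)
    (h1 : z - c < w.re) (h2 : w.re < z + c) : q a z w ≠ 1 := by
  intro he
  obtain ⟨n, hn⟩ := exp_eq_one_iff.1 he
  have h' : (a : ℂ) * c = 2 * π := by exact_mod_cast h
  have ha : a ≠ 0 := by
    rintro rfl
    have := Real.pi_pos
    linarith
  have ha' : (a : ℂ) ≠ 0 := by exact_mod_cast ha
  have h3 : w - z = n * c := by
    apply mul_left_cancel₀ (mul_ne_zero I_ne_zero ha')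
    linear_combination hn - n * I * h'
  have h4 : w.re - z = n * c := by simpa using congrArg Complex.re h3
  have h5 : (n : ℝ) < 1 := by
    by_contra hh
    nlinarith
  have h6 : (-1 : ℝ) < n := by
    by_contra hh
    nlinarith
  have h7 : n < 1 := by exact_mod_cast h5
  have h8 : -1 < n := by exact_mod_cast h6
  have h9 : n = 0 := by omega
  rw [h9] at h3
  exact hw (by simpa [sub_eq_zero] using h3)

theorem bot {u : ℂ} {e : ℝ} (h : ‖u‖ * e = 1) (h0 : 0 < e) (h1 : e ≤ 1 / 2) :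
    1 - u ≠ 0 ∧ ‖u / (1 - u) + 1‖ ≤ 2 * e := by
  have h2 : ‖u‖ - 1 ≤ ‖1 - u‖ := by
    have := norm_sub_norm_le u 1
    rwa [norm_one, norm_sub_rev] at this
  have h3 : 1 ≤ 2 * e * ‖1 - u‖ := by nlinarith
  have h4 : 1 - u ≠ 0 := by
    intro h5
    rw [h5, norm_zero] at h3
    linarith
  refine ⟨h4, ?_⟩
  have h5 : u / (1 - u) + 1 = 1 / (1 - u) := by
    field_simp
    ring
  rw [h5, norm_div, norm_one, div_le_iff₀ (norm_pos_iff.2 h4)]
  exact h3

theorem top {u : ℂ} (h : ‖u‖ ≤ 1 / 2) : 1 - u ≠ 0 ∧ ‖u / (1 - u) - u‖ ≤ 2 * ‖u‖ ^ 2 := by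
  have h2 : 1 - ‖u‖ ≤ ‖1 - u‖ := by
    have := norm_sub_norm_le 1 u
    rwa [norm_one] at this
  have h4 : 1 - u ≠ 0 := by
    intro h5
    rw [h5, norm_zero] at h2
    linarith
  refine ⟨h4, ?_⟩
  have h5 : u / (1 - u) - u = u ^ 2 / (1 - u) := by
    field_simp
    ring
  rw [h5, norm_div, norm_pow, div_le_iff₀ (norm_pos_iff.2 h4)]
  nlinarith [sq_nonneg ‖u‖]

theorem side {u : ℂ} (h : u.re ≤ 0) : 1 - u ≠ 0 ∧ ‖u / (1 - u)‖ ≤ 1 ∧ ‖u / (1 - u)‖ ≤ ‖u‖ := by
  have h1 : 1 ≤ ‖1 - u‖ := by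
    have := re_le_norm (1 - u)
    simp only [sub_re, one_re] at this
    linarith
  have h2 : ‖u‖ ≤ ‖1 - u‖ := by
    refine (sq_le_sq₀ (norm_nonneg _) (norm_nonneg _)).1 ?_
    rw [Complex.sq_norm, Complex.sq_norm, normSq_apply, normSq_apply]
    simp only [sub_re, one_re, sub_im, one_im]
    nlinarith
  have h4 : 1 - u ≠ 0 := by
    intro h5
    rw [h5, norm_zero] at h1
    linarith
  have h5 := norm_pos_iff.2 h4
  refine ⟨h4, ?_, ?_⟩
  · rw [norm_div, div_le_iff₀ h5]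
    linarith
  · rw [norm_div, div_le_iff₀ h5]
    nlinarith [norm_nonneg u]

/-- The contour identity. -/
theorem contour {W : ℂ → ℂ} (hW : Differentiable ℂ W) {a c z x₁ Y : ℝ} (h : a * c = 2 * π)
    (hc : 0 < c) (h1 : z - c < x₁) (h2 : x₁ < z) (hY : 0 < Y) (h0 : W z = 0) :
    (∫ x in x₁..x₁ + c, W (x + (-Y : ℝ) * I) * K a z (x + (-Y : ℝ) * I)) -
      (∫ x in x₁..x₁ + c, W (x + Y * I) * K a z (x + Y * I)) +
      I * (∫ y in (-Y)..Y, W (x₁ + c + y * I) * K a z (x₁ + y * I)) -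
      I * (∫ y in (-Y)..Y, W (x₁ + y * I) * K a z (x₁ + y * I)) = 0 := by
  let g : ℂ → ℂ := fun w => 1 - q a z w
  have hg : Differentiable ℂ g := (differentiable_const _).sub (q_diff a z)
  let f : ℂ → ℂ := fun w => q a z w * dslope W z w / dslope g z w
  have ha : a ≠ 0 := by
    rintro rfl
    have := Real.pi_pos
    linarith
  have ha' : (a : ℂ) ≠ 0 := by exact_mod_cast ha
  have hf : ∀ w : ℂ, w ≠ z → f w = W w * K a z w := by
    intro w hw
    have hw' : w - z ≠ 0 := sub_ne_zero.2 hw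
    simp only [f, K, dslope_of_ne _ hw, slope_def_field, g, h0, q_self, sub_self, sub_zero]
    by_cases h5 : 1 - q a z w = 0
    · simp [h5]
    · field_simp
  have hd : ∀ F : ℂ → ℂ, Differentiable ℂ F → Differentiable ℂ (dslope F z) := fun F hF =>
    differentiableOn_univ.1 ((differentiableOn_dslope univ_mem).2 hF.differentiableOn)
  have hne : ∀ w : ℂ, z - c < w.re → w.re < z + c → dslope g z w ≠ 0 := by
    intro w e1 e2
    by_cases hw : w = z
    · rw [hw, dslope_same]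
      have : HasDerivAt g (-(q a z z * (I * a))) z := by
        have h5 : HasDerivAt (fun w : ℂ => I * a * (w - z)) (I * a * 1) z :=
          ((hasDerivAt_id (z : ℂ)).sub_const (z : ℂ)).const_mul _
        rw [mul_one] at h5
        exact h5.cexp.const_sub 1
      rw [this.deriv, q_self, one_mul]
      exact neg_ne_zero.2 (mul_ne_zero I_ne_zero ha')
    · rw [dslope_of_ne _ hw, slope_def_field]
      simp only [g, q_self, sub_self, sub_zero]
      exact div_ne_zero (sub_ne_zero.2 (q_ne_one h hc hw e1 e2).symm) (sub_ne_zero.2 hw)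
  have key := integral_boundary_rect_eq_zero_of_differentiableOn f ⟨x₁, -Y⟩ ⟨x₁ + c, Y⟩ (by
    refine (((q_diff a z).mul (hd W hW)).differentiableOn).div (hd g hg).differentiableOn ?_
    intro w hw
    have h5 : w.re ∈ uIcc x₁ (x₁ + c) := hw.1
    rw [uIcc_of_le (by linarith)] at h5
    exact hne w (by linarith [h5.1]) (by linarith [h5.2]))
  have e1 : ∀ x y : ℝ, y ≠ 0 → f (x + y * I) = W (x + y * I) * K a z (x + y * I) := by
    intro x y hy
    refine hf _ fun he => hy ?_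
    simpa using congrArg Complex.im he
  have e2 : ∀ x y : ℝ, x ≠ z → f (x + y * I) = W (x + y * I) * K a z (x + y * I) := by
    intro x y hy
    refine hf _ fun he => hy ?_
    simpa using congrArg Complex.re he
  have e3 : ∀ y : ℝ, K a z ((x₁ + c : ℝ) + y * I) = K a z (x₁ + y * I) := by
    intro y
    have : ((x₁ + c : ℝ) : ℂ) + y * I = x₁ + y * I + c := by
      push_cast
      ring
    rw [this, K, K, q_per h]
  simp only [smul_eq_mul, e1 _ _ hY.ne', e1 _ _ (neg_ne_zero.2 hY.ne'), e2 _ _ h2.ne,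
    e2 _ _ (show z < x₁ + c by linarith).ne', e3] at key
  simpa only [ofReal_add] using key

theorem sub_le {F : ℝ → ℂ} {g : ℝ → ℝ} (hg : Continuous g) (h : ∀ x, ‖F x‖ ≤ g x) {u v L : ℝ}
    (h1 : -L ≤ u) (h2 : u ≤ v) (h3 : v ≤ L) : ‖∫ x in u..v, F x‖ ≤ ∫ x in (-L)..L, g x :=
  (intervalIntegral.norm_integral_le_of_norm_le h2 (.of_forall fun x _ => h x)
    (hg.intervalIntegrable _ _)).trans
    (intervalIntegral.integral_mono_interval h1 h2 h3
      (.of_forall fun x => (norm_nonneg _).trans (h x)) (hg.intervalIntegrable _ _))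

theorem shift {F : ℝ → ℂ} {g : ℝ → ℝ} (hF : Continuous F) (hg : Continuous g) {c : ℝ}
    (h : ∀ x, ‖F (x + c) - F x‖ ≤ g x) {u L : ℝ} (h1 : -L ≤ u) (h2 : u ≤ L) :
    ‖(∫ x in u..u + c, F x) - ∫ x in (0 : ℝ)..c, F x‖ ≤ ∫ x in (-L)..L, g x := by
  have hF' : Continuous fun x => F (x + c) := hF.comp (by fun_prop)
  have e : (∫ x in u..u + c, F x) - ∫ x in (0 : ℝ)..c, F x =
      ∫ x in (0 : ℝ)..u, (F (x + c) - F x) := by
    rw [intervalIntegral.integral_interval_sub_interval_comm' (hF.intervalIntegrable _ _)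
      (hF.intervalIntegrable _ _) (hF.intervalIntegrable _ _),
      intervalIntegral.integral_sub (hF'.intervalIntegrable _ _) (hF.intervalIntegrable _ _),
      intervalIntegral.integral_comp_add_right F c, zero_add]
  rw [e]
  rcases le_total 0 u with hu | hu
  · exact sub_le hg h (by linarith) hu h2
  · rw [intervalIntegral.integral_symm, norm_neg]
    exact sub_le hg h h1 hu (by linarith)

theorem mean {G : ℝ → ℝ} (hG : Continuous G) (h0 : ∀ x, 0 ≤ G x) {u v L ε : ℝ} (h1 : -L ≤ u)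
    (h2 : u + 1 / 8 ≤ v) (h3 : v ≤ L) (h : ∫ x in (-L)..L, G x ≤ ε) :
    ∃ x ∈ Icc u v, G x ≤ 8 * ε := by
  have huv : u ≤ v := by linarith
  obtain ⟨x, hx, hm⟩ := isCompact_Icc.exists_isMinOn (nonempty_Icc.2 huv) hG.continuousOn
  refine ⟨x, hx, ?_⟩
  have e1 : ∫ _ in u..v, G x ≤ ∫ t in u..v, G t :=
    intervalIntegral.integral_mono_on huv (continuous_const.intervalIntegrable _ _)
      (hG.intervalIntegrable _ _) fun t ht => hm ht
  have e2 := intervalIntegral.integral_mono_interval (μ := volume) h1 huv h3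
    (.of_forall fun x => h0 x) (hG.intervalIntegrable _ _)
  rw [intervalIntegral.integral_const, smul_eq_mul] at e1
  nlinarith [h0 x]

theorem key {W : ℂ → ℂ} (hW : Differentiable ℂ W) {a c Y R ε : ℝ} (h : a * c = 2 * π)
    (hc : 1 / 4 ≤ c) (hc' : c ≤ 1 / 2) (hY : 1 ≤ Y)
    (h1 : ∫ x in (-(R + 1))..(R + 1), ∫ y in (-Y)..Y,
      ‖W (x + y * I) - W (x + c + y * I)‖ * Real.exp (-(a * max y 0)) ≤ ε)
    (h2 : ∫ x in (-(R + 1))..(R + 1), ‖W (x + (-Y : ℝ) * I) - W (x + c + (-Y : ℝ) * I)‖ ≤ ε)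
    (h3 : ∫ x in (-(R + 1))..(R + 1),
      ‖W (x + Y * I) - W (x + c + Y * I)‖ * Real.exp (-(a * Y)) ≤ ε)
    (h4 : ∫ x in (-(R + 1))..(R + 1), ‖W (x + (-Y : ℝ) * I)‖ * Real.exp (-(a * Y)) ≤ ε)
    (h5 : ∫ x in (-(R + 1))..(R + 1), ‖W (x + Y * I)‖ * Real.exp (-(2 * a * Y)) ≤ ε)
    {z : ℝ} (hz : |z| ≤ R) (h0 : W z = 0) :
    ‖(∫ x in (0 : ℝ)..c, W (x + (-Y : ℝ) * I)) +
      cexp (-(I * a * z)) * ∫ x in (0 : ℝ)..c, W (x + Y * I) * q a 0 (x + Y * I)‖ ≤ 14 * ε := by
  have hWc := hW.continuous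
  have hq := q_cont a z
  have hq0 := q_cont a 0
  have hpi := Real.pi_gt_three
  have hc0 : 0 < c := by linarith
  have ha : 1 ≤ a := by
    by_contra hh
    nlinarith
  obtain ⟨z1, z2⟩ := abs_le.1 hz
  have he : Real.exp (-(a * Y)) ≤ 1 / 2 := by
    have e1 : a * Y + 1 ≤ Real.exp (a * Y) := Real.add_one_le_exp _
    have e2 : 1 ≤ a * Y := by nlinarith
    rw [Real.exp_neg, inv_le_comm₀ (Real.exp_pos _) (by norm_num)]
    linarith
  -- the abscissa
  have hH : Continuous (Function.uncurry fun x y : ℝ =>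
      ‖W (x + y * I) - W (x + c + y * I)‖ * Real.exp (-(a * max y 0))) := by
    unfold Function.uncurry
    fun_prop
  obtain ⟨x₁, ⟨x1, x2⟩, hx⟩ := mean (u := z - 3 * c / 4) (v := z - c / 4)
    (intervalIntegral.continuous_parametric_intervalIntegral_of_continuous' hH (-Y) Y)
    (fun x => intervalIntegral.integral_nonneg (by linarith) fun y _ => by positivity)
    (by linarith) (by linarith) (by linarith) h1
  have hcon := contour hW h hc0 (x₁ := x₁) (by linarith) (by linarith) (by linarith : 0 < Y) h0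
  -- bottom
  have b1 : ∀ x : ℝ, 1 - q a z (x + (-Y : ℝ) * I) ≠ 0 ∧
      ‖K a z (x + (-Y : ℝ) * I) + 1‖ ≤ 2 * Real.exp (-(a * Y)) := fun x =>
    bot (by rw [norm_q, ← Real.exp_add]; simp) (Real.exp_pos _) he
  have b2 : Continuous fun x : ℝ => K a z (x + (-Y : ℝ) * I) :=
    Continuous.div (by fun_prop) (by fun_prop) fun x => (b1 x).1
  have b3 : ‖(∫ x in x₁..x₁ + c, W (x + (-Y : ℝ) * I) * K a z (x + (-Y : ℝ) * I)) +
      ∫ x in x₁..x₁ + c, W (x + (-Y : ℝ) * I)‖ ≤ 2 * ε := by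
    rw [← intervalIntegral.integral_add (Continuous.intervalIntegrable (by fun_prop) _ _)
      (Continuous.intervalIntegrable (by fun_prop) _ _)]
    refine (sub_le (g := fun x : ℝ => 2 * (‖W (x + (-Y : ℝ) * I)‖ * Real.exp (-(a * Y))))
      (L := R + 1) (by fun_prop) (fun x => ?_) (by linarith) (by linarith) (by linarith)).trans ?_
    · rw [← mul_add_one, norm_mul]
      nlinarith [(b1 x).2, norm_nonneg (W (x + (-Y : ℝ) * I))]
    · rw [intervalIntegral.integral_const_mul]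
      linarith
  -- top
  have t1 : ∀ x : ℝ, 1 - q a z (x + Y * I) ≠ 0 ∧
      ‖K a z (x + Y * I) - q a z (x + Y * I)‖ ≤ 2 * Real.exp (-(2 * a * Y)) := by
    intro x
    have := top (u := q a z (x + Y * I)) (by rw [norm_q]; exact he)
    rw [norm_q, ← Real.exp_nat_mul] at this
    refine ⟨this.1, this.2.trans (le_of_eq ?_)⟩
    congr 2
    push_cast
    ring
  have t2 : Continuous fun x : ℝ => K a z (x + Y * I) :=
    Continuous.div (by fun_prop) (by fun_prop) fun x => (t1 x).1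
  have t3 : ‖(∫ x in x₁..x₁ + c, W (x + Y * I) * K a z (x + Y * I)) -
      cexp (-(I * a * z)) * ∫ x in x₁..x₁ + c, W (x + Y * I) * q a 0 (x + Y * I)‖ ≤ 2 * ε := by
    rw [← intervalIntegral.integral_const_mul,
      ← intervalIntegral.integral_sub (Continuous.intervalIntegrable (by fun_prop) _ _)
      (Continuous.intervalIntegrable (by fun_prop) _ _)]
    refine (sub_le (g := fun x : ℝ => 2 * (‖W (x + Y * I)‖ * Real.exp (-(2 * a * Y))))
      (L := R + 1) (by fun_prop) (fun x => ?_) (by linarith) (by linarith) (by linarith)).trans ?_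
    · rw [mul_left_comm, ← q_shift, ← mul_sub, norm_mul]
      nlinarith [(t1 x).2, norm_nonneg (W (x + Y * I))]
    · rw [intervalIntegral.integral_const_mul]
      linarith
  -- sides
  have hcos : Real.cos (a * (x₁ - z)) ≤ 0 := by
    rw [← Real.cos_neg]
    apply Real.cos_nonpos_of_pi_div_two_le_of_le <;> nlinarith
  have s1 : ∀ y : ℝ, 1 - q a z (x₁ + y * I) ≠ 0 ∧
      ‖K a z (x₁ + y * I)‖ ≤ Real.exp (-(a * max y 0)) := by
    intro y
    have := side (u := q a z (x₁ + y * I))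
      (by rw [re_q]; exact mul_nonpos_of_nonneg_of_nonpos (Real.exp_pos _).le hcos)
    refine ⟨this.1, ?_⟩
    rcases le_total y 0 with hy | hy
    · rw [max_eq_right hy, mul_zero, neg_zero, Real.exp_zero]
      exact this.2.1
    · rw [max_eq_left hy, ← norm_q a z x₁ y]
      exact this.2.2
  have s2 : Continuous fun y : ℝ => K a z (x₁ + y * I) :=
    Continuous.div (by fun_prop) (by fun_prop) fun x => (s1 x).1
  have s3 : ‖I * (∫ y in (-Y)..Y, W (x₁ + c + y * I) * K a z (x₁ + y * I)) -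
      I * (∫ y in (-Y)..Y, W (x₁ + y * I) * K a z (x₁ + y * I))‖ ≤ 8 * ε := by
    rw [← mul_sub, norm_mul, norm_I, one_mul,
      ← intervalIntegral.integral_sub (Continuous.intervalIntegrable (by fun_prop) _ _)
      (Continuous.intervalIntegrable (by fun_prop) _ _)]
    refine (sub_le (g := fun y : ℝ =>
      ‖W (x₁ + y * I) - W (x₁ + c + y * I)‖ * Real.exp (-(a * max y 0)))
      (L := Y) (by fun_prop) (fun y => ?_) le_rfl (by linarith) le_rfl).trans hx
    rw [← sub_mul, norm_mul, norm_sub_rev]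
    exact mul_le_mul_of_nonneg_left (s1 y).2 (norm_nonneg _)
  -- shifts
  have m1 : ‖(∫ x in x₁..x₁ + c, W (x + (-Y : ℝ) * I)) -
      ∫ x in (0 : ℝ)..c, W (x + (-Y : ℝ) * I)‖ ≤ ε := by
    refine (shift (g := fun x : ℝ => ‖W (x + (-Y : ℝ) * I) - W (x + c + (-Y : ℝ) * I)‖)
      (L := R + 1) (by fun_prop) (by fun_prop) (fun x => ?_) (by linarith) (by linarith)).trans h2
    rw [norm_sub_rev, ofReal_add]
  have m2 : ‖(∫ x in x₁..x₁ + c, W (x + Y * I) * q a 0 (x + Y * I)) -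
      ∫ x in (0 : ℝ)..c, W (x + Y * I) * q a 0 (x + Y * I)‖ ≤ ε := by
    refine (shift (g := fun x : ℝ => ‖W (x + Y * I) - W (x + c + Y * I)‖ * Real.exp (-(a * Y)))
      (L := R + 1) (by fun_prop) (by fun_prop) (fun x => ?_) (by linarith) (by linarith)).trans h3
    have e : q a 0 ((x + c : ℝ) + Y * I) = q a 0 (x + Y * I) := by
      rw [← q_per h 0 (x + Y * I)]
      congr 1
      push_cast
      ring
    rw [e, ← sub_mul, norm_mul, norm_q, norm_sub_rev, ofReal_add]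
  have hn : ‖cexp (-(I * a * z))‖ = 1 := by
    rw [norm_exp]
    simp
  generalize cexp (-(I * a * z)) = E at t3 hn ⊢
  generalize (∫ x in x₁..x₁ + c, W (x + (-Y : ℝ) * I) * K a z (x + (-Y : ℝ) * I)) = B at hcon b3
  generalize (∫ x in x₁..x₁ + c, W (x + Y * I) * K a z (x + Y * I)) = T at hcon t3
  generalize I * (∫ y in (-Y)..Y, W (x₁ + c + y * I) * K a z (x₁ + y * I)) = S1 at hcon s3
  generalize I * (∫ y in (-Y)..Y, W (x₁ + y * I) * K a z (x₁ + y * I)) = S2 at hcon s3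
  generalize (∫ x in x₁..x₁ + c, W (x + (-Y : ℝ) * I)) = u0 at b3 m1
  generalize (∫ x in x₁..x₁ + c, W (x + Y * I) * q a 0 (x + Y * I)) = u1 at t3 m2
  generalize (∫ x in (0 : ℝ)..c, W (x + (-Y : ℝ) * I)) = v0 at m1 ⊢
  generalize (∫ x in (0 : ℝ)..c, W (x + Y * I) * q a 0 (x + Y * I)) = v1 at m2 ⊢
  have e : v0 + E * v1 = (B + u0) - (T - E * u1) + (S1 - S2) - (u0 - v0) - E * (u1 - v1) := by
    linear_combination -hcon
  have n1 := norm_sub_le ((B + u0) - (T - E * u1) + (S1 - S2) - (u0 - v0)) (E * (u1 - v1))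
  have n2 := norm_sub_le ((B + u0) - (T - E * u1) + (S1 - S2)) (u0 - v0)
  have n3 := norm_add_le ((B + u0) - (T - E * u1)) (S1 - S2)
  have n4 := norm_sub_le (B + u0) (T - E * u1)
  rw [norm_mul, hn, one_mul] at n1
  rw [e]
  linarith

end RectAux

theorem rect_zero {W : ℂ → ℂ} (hW : Differentiable ℂ W) {c Y R ε : ℝ} (hc : 1 / 4 ≤ c)
    (hc' : c ≤ 1 / 2) (hY : 1 ≤ Y) (hR : 0 ≤ R)
    (h1 : ∫ x in (-(R + 1))..(R + 1), ∫ y in (-Y)..Y,
      ‖W (x + y * I) - W (x + c + y * I)‖ * Real.exp (-(2 * π / c * max y 0)) ≤ ε)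
    (h2 : ∫ x in (-(R + 1))..(R + 1), ‖W (x - Y * I) - W (x + c - Y * I)‖ ≤ ε)
    (h3 : ∫ x in (-(R + 1))..(R + 1),
      ‖W (x + Y * I) - W (x + c + Y * I)‖ * Real.exp (-(2 * π / c * Y)) ≤ ε)
    (h4 : ∫ x in (-(R + 1))..(R + 1), ‖W (x - Y * I)‖ * Real.exp (-(2 * π / c * Y)) ≤ ε)
    (h5 : ∫ x in (-(R + 1))..(R + 1), ‖W (x + Y * I)‖ * Real.exp (-(4 * π / c * Y)) ≤ ε)
    {z z' : ℝ} (hz : |z| ≤ R) (hz' : |z'| ≤ R) (h0 : W z = 0) (h0' : W z' = 0) :
    ‖∫ x in (0 : ℝ)..c, W (x - Y * I)‖ * ‖1 - ee ((z' - z) / c)‖ ≤ 30 * ε := by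
  have hc0 : 0 < c := by linarith
  have hε : 0 ≤ ε :=
    (intervalIntegral.integral_nonneg (by linarith) fun x _ => norm_nonneg _).trans h2
  have h : 2 * π / c * c = 2 * π := div_mul_cancel₀ _ hc0.ne'
  have e1 : ∀ w : ℂ, w - Y * I = w + (-Y : ℝ) * I := fun w => by
    push_cast
    ring
  have e2 : 4 * π / c = 2 * (2 * π / c) := by ring
  simp only [e1] at h2 h4 ⊢
  rw [e2] at h5
  have k1 := RectAux.key hW h hc hc' hY h1 h2 h3 h4 h5 hz h0
  have k2 := RectAux.key hW h hc hc' hY h1 h2 h3 h4 h5 hz' h0'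
  have e3 : cexp (-(I * (2 * π / c : ℝ) * z)) =
      ee ((z' - z) / c) * cexp (-(I * (2 * π / c : ℝ) * z')) := by
    rw [ee, ← exp_add]
    congr 1
    push_cast
    ring
  rw [e3] at k1
  have hn := norm_ee ((z' - z) / c)
  generalize ee ((z' - z) / c) = E at k1 hn ⊢
  generalize cexp (-(I * (2 * π / c : ℝ) * z')) = E' at k1 k2
  generalize (∫ x in (0 : ℝ)..c, W (x + (-Y : ℝ) * I)) = v0 at k1 k2 ⊢
  generalize (∫ x in (0 : ℝ)..c, W (x + Y * I) * RectAux.q (2 * π / c) 0 (x + Y * I)) = v1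
    at k1 k2
  have e : v0 * (1 - E) = (v0 + E * E' * v1) - E * (v0 + E' * v1) := by ring
  have n1 := norm_sub_le (v0 + E * E' * v1) (E * (v0 + E' * v1))
  rw [norm_mul, hn, one_mul] at n1
  rw [← norm_mul, e]
  linarith

end Pool.Agent.P.MP_7eacff_nt.Rig
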