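import Pool.Agent.P.MP_7eacff_nt.Rig.Prod
import Pool.Agent.P.MP_7eacff_nt.Rig.Rect
import Pool.Agent.P.MP_7eacff_nt.Rig.DetAux
import Pool.Agent.P.MP_7eacff_nt.Rig.DetAux2

/-!
The deterministic core of the rigidity theorem.
-/

open Complex Filter Topology MeasureTheory Set
open scoped Real ENNReal ComplexConjugate

namespace Pool.Agent.P.MP_7eacff_nt.Rig

namespace DetAux

theorem wt_pos (y : ℝ) : 0 < wt y := Real.exp_pos _

theorem exp_cmp {c t : ℝ} (hc : 0 < c) (hc' : c ≤ 1 / 2) (ht : 0 ≤ t) (k : ℝ) (hk : 0 ≤ k) :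
    Real.exp (π / c * t) * Real.exp (-((k + 1) * π / c * t)) ≤ Real.exp (-(2 * k * π * t)) := by
  rw [← Real.exp_add]
  refine Real.exp_le_exp.2 ?_
  have h1 : 2 * π ≤ π / c := by
    rw [le_div_iff₀ hc]
    nlinarith only [Real.pi_pos, hc']
  have h2 : k * t * (2 * π) ≤ k * t * (π / c) := mul_le_mul_of_nonneg_left h1 (mul_nonneg hk ht)
  have e : (k + 1) * π / c * t = k * t * (π / c) + π / c * t := by ring
  rw [e]
  linarith only [h2]

theorem lower {P G : ℂ → ℂ} (hP : Continuous P) (hG : Continuous G) {c Y : ℝ} {e P0 : ℂ}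
    (hc : 0 ≤ c) (h1 : ∀ a ∈ Icc (0 : ℝ) c, ‖P (a - Y * I) - P0‖ ≤ ‖P0‖ / 4)
    (h2 : ∫ a in (0 : ℝ)..c, ‖G (a - Y * I) - e‖ ≤ c / 4 * ‖e‖ + 1) :
    ‖P0‖ * (7 / 16 * c * ‖e‖ - 5 / 4) ≤ ‖∫ a in (0 : ℝ)..c, P (a - Y * I) * G (a - Y * I)‖ := by
  have i1 : IntervalIntegrable (fun a : ℝ => P (a - Y * I) * G (a - Y * I)) volume 0 c :=
    Continuous.intervalIntegrable (by fun_prop) _ _
  have i2 : IntervalIntegrable (fun a : ℝ => ‖G (a - Y * I) - e‖) volume 0 c :=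
    Continuous.intervalIntegrable (by fun_prop) _ _
  have e1 : ∫ a in (0 : ℝ)..c, (P0 * e - P (a - Y * I) * G (a - Y * I)) =
      c * (P0 * e) - ∫ a in (0 : ℝ)..c, P (a - Y * I) * G (a - Y * I) := by
    rw [intervalIntegral.integral_sub intervalIntegrable_const i1, intervalIntegral.integral_const,
      sub_zero, real_smul]
  have e2 : ‖∫ a in (0 : ℝ)..c, (P0 * e - P (a - Y * I) * G (a - Y * I))‖ ≤
      ∫ a in (0 : ℝ)..c, (‖P0‖ / 4 * ‖e‖ + 5 / 4 * ‖P0‖ * ‖G (a - Y * I) - e‖) := by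
    refine intervalIntegral.norm_integral_le_of_norm_le hc (ae_of_all _ fun a ha => ?_)
      (intervalIntegrable_const.add (i2.const_mul _))
    have b1 := h1 a (Ioc_subset_Icc_self ha)
    have b2 : ‖P (a - Y * I)‖ ≤ 5 / 4 * ‖P0‖ := by
      have := norm_add_le (P (a - Y * I) - P0) P0
      rw [sub_add_cancel] at this
      linarith
    have e : P0 * e - P (a - Y * I) * G (a - Y * I) =
        -((P (a - Y * I) - P0) * e) - P (a - Y * I) * (G (a - Y * I) - e) := by ring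
    rw [e]
    refine (norm_sub_le _ _).trans ?_
    rw [norm_neg, norm_mul, norm_mul]
    gcongr
  rw [intervalIntegral.integral_add intervalIntegrable_const (i2.const_mul _),
    intervalIntegral.integral_const, intervalIntegral.integral_const_mul, sub_zero, smul_eq_mul,
    e1] at e2
  have e3 := norm_add_le (c * (P0 * e) - ∫ a in (0 : ℝ)..c, P (a - Y * I) * G (a - Y * I))
    (∫ a in (0 : ℝ)..c, P (a - Y * I) * G (a - Y * I))
  rw [sub_add_cancel, norm_mul, norm_mul, norm_real, Real.norm_eq_abs, abs_of_nonneg hc] at e3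
  have e4 : 5 / 4 * ‖P0‖ * ∫ a in (0 : ℝ)..c, ‖G (a - Y * I) - e‖ ≤
      5 / 4 * ‖P0‖ * (c / 4 * ‖e‖ + 1) := by gcongr
  linarith only [e2, e3, e4]

theorem core {P G : ℂ → ℂ} (hP : Differentiable ℂ P) (hG : Differentiable ℂ G)
    {Z : ℝ → ℝ → ℂ} {c R Y y1 ξ V M : ℝ} {e : ℂ} (hc : 1 / 4 ≤ c) (hc' : c ≤ 1 / 2) (hY : 1 ≤ Y)
    (hR : 0 ≤ R) (hy1 : y1 ≤ Y) (hξ : 0 ≤ ξ) (hV : 0 ≤ V) (hM : 1 ≤ M)
    (hp : P (-(Y * I)) ≠ 0)
    (hgr : ∀ w : ℂ, |w.re| ≤ R + 2 → |w.im| ≤ Y →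
      ‖P w‖ ≤ M * ‖P (-(Y * I))‖ * Real.exp (π / c * max w.im 0))
    (hsh : ∀ a y : ℝ, |a| ≤ R + 1 → y1 ≤ |y| → |y| ≤ Y →
      ‖P (a - y * I) - P (a + c - y * I) * Z a y‖ ≤
        ξ * ‖P (a + c - y * I)‖ + 4 * ξ * ‖P (a - y * I)‖)
    (htop : ∀ a ∈ Icc (0 : ℝ) c, ‖P (a - Y * I) - P (-(Y * I))‖ ≤ ‖P (-(Y * I))‖ / 4)
    (hVf : Vf (fun a y => ENNReal.ofReal
        (‖Z a y * G (a - y * I) - G (a + c - y * I)‖ * wt y))
      (fun a y => ENNReal.ofReal (‖G (a - y * I)‖ * wt y)) c R Y y1 ξ ≤ ENNReal.ofReal V)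
    (hlow : ∫ a in (0 : ℝ)..c, ‖G (a - Y * I) - e‖ ≤ c / 4 * ‖e‖ + 1)
    {z z' : ℝ} (hz : |z| ≤ R) (hz' : |z'| ≤ R) (h0 : P z = 0) (h0' : P z' = 0) :
    ‖e‖ * ‖1 - ee ((z' - z) / c)‖ ≤ 1400 * M * (1 + V) := by
  have hc0 : 0 < c := by linarith
  have hY0 : 0 ≤ Y := by linarith
  have hGc := hG.continuous
  set p := ‖P (-(Y * I))‖ with hpdef
  have p0 : 0 < p := norm_pos_iff.2 hp
  have K0 : 0 ≤ M * p := by positivity
  have gr : ∀ (a y : ℝ) (k : ℝ), 0 ≤ k → |a| ≤ R + 2 → |y| ≤ Y →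
      ‖P (a - y * I)‖ * Real.exp (-((k + 1) * π / c * max (-y) 0)) ≤
        M * p * Real.exp (-(2 * k * π * max (-y) 0)) := by
    intro a y k hk ha hy
    have h1 := hgr (a - y * I) (by simpa using ha) (by simpa using hy)
    have e : ((a : ℂ) - y * I).im = -y := by simp
    rw [e] at h1
    calc _ ≤ M * p * Real.exp (π / c * max (-y) 0) *
          Real.exp (-((k + 1) * π / c * max (-y) 0)) := by gcongr
      _ ≤ _ := by
          rw [mul_assoc]
          exact mul_le_mul_of_nonneg_left (exp_cmp hc0 hc' (le_max_right _ _) k hk) K0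
  have gr1 : ∀ a y : ℝ, |a| ≤ R + 1 → |y| ≤ Y →
      ‖P (a - y * I)‖ * Real.exp (-(2 * π / c * max (-y) 0)) ≤ M * p * wt y ∧
      ‖P (a + c - y * I)‖ * Real.exp (-(2 * π / c * max (-y) 0)) ≤ M * p * wt y := by
    intro a y ha hy
    have h1 := gr a y 1 zero_le_one (by linarith) hy
    have h2 := gr (a + c) y 1 zero_le_one ((abs_add_le _ _).trans (by
      rw [abs_of_pos hc0]
      linarith)) hy
    rw [one_add_one_eq_two, mul_one] at h1 h2
    rw [ofReal_add] at h2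
    exact ⟨h1, h2⟩
  have main := glue (W := fun w => P w * G w) (hP.mul hG)
    (f := fun a y => ‖Z a y * G (a - y * I) - G (a + c - y * I)‖ * wt y)
    (g := fun a y => ‖G (a - y * I)‖ * wt y) (K := 5 * (M * p)) hc hc' hY hR hy1 hξ hV
    (by positivity) (fun a y => mul_nonneg (norm_nonneg _) (wt_pos y).le)
    (fun a y => mul_nonneg (norm_nonneg _) (wt_pos y).le)
    (fun a => Continuous.measurable (by unfold wt; fun_prop)) hVf ?_ ?_ ?_ ?_ hz hz'
    (by simp only [h0, zero_mul]) (by simp only [h0', zero_mul])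
  · have low := lower hP.continuous hGc hc0.le htop hlow
    have D0 := norm_nonneg (1 - ee ((z' - z) / c))
    have D2 : ‖1 - ee ((z' - z) / c)‖ ≤ 2 := by
      have := norm_sub_le 1 (ee ((z' - z) / c))
      rw [norm_one, norm_ee] at this
      linarith
    set D := ‖1 - ee ((z' - z) / c)‖
    have h1 : p * ((7 / 16 * c * ‖e‖ - 5 / 4) * D) ≤ p * (150 * (M * V)) := by
      have := (mul_le_mul_of_nonneg_right low D0).trans main
      linarith only [this]
    have h2 := le_of_mul_le_mul_left h1 p0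
    have h3 : 1 / 4 * (‖e‖ * D) ≤ c * (‖e‖ * D) := by gcongr
    have h4 : 0 ≤ M * V := by positivity
    linarith only [h2, h3, h4, D2, hM]
  · intro a y ha h1 h2
    obtain ⟨g1, g2⟩ := gr1 a y ha h2
    have s1 := hsh a y ha h1 h2
    set E := Real.exp (-(2 * π / c * max (-y) 0))
    have E0 : 0 ≤ E := (Real.exp_pos _).le
    have e1 : P (a - y * I) * G (a - y * I) - P (a + c - y * I) * G (a + c - y * I) =
        P (a + c - y * I) * (Z a y * G (a - y * I) - G (a + c - y * I)) +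
          (P (a - y * I) - P (a + c - y * I) * Z a y) * G (a - y * I) := by ring
    have n1 : ‖P (a - y * I) * G (a - y * I) - P (a + c - y * I) * G (a + c - y * I)‖ ≤
        ‖P (a + c - y * I)‖ * ‖Z a y * G (a - y * I) - G (a + c - y * I)‖ +
          (ξ * ‖P (a + c - y * I)‖ + 4 * ξ * ‖P (a - y * I)‖) * ‖G (a - y * I)‖ := by
      rw [e1]
      refine (norm_add_le _ _).trans ?_
      rw [norm_mul, norm_mul]
      gcongr
    set F := ‖Z a y * G (a - y * I) - G (a + c - y * I)‖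
    have F0 : 0 ≤ F := norm_nonneg _
    set g := ‖G (a - y * I)‖
    have g0 : 0 ≤ g := norm_nonneg _
    have w0 := wt_pos y
    calc _ ≤ (‖P (a + c - y * I)‖ * F +
          (ξ * ‖P (a + c - y * I)‖ + 4 * ξ * ‖P (a - y * I)‖) * g) * E :=
          mul_le_mul_of_nonneg_right n1 E0
      _ = ‖P (a + c - y * I)‖ * E * F + ξ * g * (‖P (a + c - y * I)‖ * E) +
          4 * ξ * g * (‖P (a - y * I)‖ * E) := by ring
      _ ≤ M * p * wt y * F + ξ * g * (M * p * wt y) + 4 * ξ * g * (M * p * wt y) := by gcongr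
      _ ≤ 5 * (M * p) * (F * wt y + ξ * (g * wt y)) := by
          have : 0 ≤ M * p * wt y * F := by positivity
          linarith only [this]
  · intro a y ha h1
    obtain ⟨g1, g2⟩ := gr1 a y ha (h1.trans hy1)
    set E := Real.exp (-(2 * π / c * max (-y) 0))
    have E0 : 0 ≤ E := (Real.exp_pos _).le
    have n1 := norm_sub_le (P (a - y * I) * G (a - y * I)) (P (a + c - y * I) * G (a + c - y * I))
    rw [norm_mul, norm_mul] at n1
    rw [ofReal_add]
    set g := ‖G (a - y * I)‖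
    have g0 : 0 ≤ g := norm_nonneg _
    set g' := ‖G (a + c - y * I)‖
    have g0' : 0 ≤ g' := norm_nonneg _
    have w0 := wt_pos y
    calc _ ≤ (‖P (a - y * I)‖ * g + ‖P (a + c - y * I)‖ * g') * E :=
          mul_le_mul_of_nonneg_right n1 E0
      _ = ‖P (a - y * I)‖ * E * g + ‖P (a + c - y * I)‖ * E * g' := by ring
      _ ≤ M * p * wt y * g + M * p * wt y * g' := by gcongr
      _ ≤ 5 * (M * p) * (g * wt y + g' * wt y) := by
          have : 0 ≤ M * p * wt y * g := by positivity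
          have : 0 ≤ M * p * wt y * g' := by positivity
          linarith
  · intro a ha
    have h1 := hgr (a - Y * I) (by simpa using (by linarith : |a| ≤ R + 2))
      (by simp [abs_of_nonneg hY0])
    have e : ((a : ℂ) - Y * I).im = -Y := by simp
    rw [e, max_eq_right (by linarith), mul_zero, Real.exp_zero, mul_one] at h1
    have w1 : wt Y = 1 := by
      unfold wt
      rw [max_eq_right (by linarith), mul_zero, neg_zero, Real.exp_zero]
    have x1 : Real.exp (-(2 * π / c * Y)) ≤ Real.exp (-(4 * π * Y)) := by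
      refine Real.exp_le_exp.2 (neg_le_neg (mul_le_mul_of_nonneg_right ?_ hY0))
      rw [le_div_iff₀ hc0]
      nlinarith only [Real.pi_pos, hc']
    rw [norm_mul, w1, mul_one]
    set g := ‖G (a - Y * I)‖
    have g0 : 0 ≤ g := norm_nonneg _
    calc _ ≤ M * p * g * Real.exp (-(4 * π * Y)) := by gcongr
      _ ≤ _ := by
          have : 0 ≤ M * p * g * Real.exp (-(4 * π * Y)) := by positivity
          linarith only [this]
  · intro a ha
    have h1 := gr a (-Y) 3 (by norm_num) (by linarith) (by rw [abs_neg, abs_of_nonneg hY0])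
    have w1 : Real.exp (-(2 * 3 * π * Y)) = Real.exp (-(4 * π * Y)) * wt (-Y) := by
      unfold wt
      rw [neg_neg, max_eq_left hY0, ← Real.exp_add]
      congr 1
      ring
    rw [neg_neg, max_eq_left hY0, ofReal_neg, neg_mul, sub_neg_eq_add, w1,
      show (3 : ℝ) + 1 = 4 by norm_num] at h1
    rw [norm_mul, ofReal_neg, neg_mul, sub_neg_eq_add]
    set g := ‖G (a + Y * I)‖
    have g0 : 0 ≤ g := norm_nonneg _
    have w0 := wt_pos (-Y)
    calc _ = ‖P (a + Y * I)‖ * Real.exp (-(4 * π / c * Y)) * g := by ring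
      _ ≤ M * p * (Real.exp (-(4 * π * Y)) * wt (-Y)) * g := by gcongr
      _ ≤ _ := by
          have : 0 ≤ M * p * (Real.exp (-(4 * π * Y)) * wt (-Y)) * g := by positivity
          linarith only [this]

theorem Pf_zero {s : Finset ℕ} {x : ℕ → ℝ} {κ : ℂ} {i : ℕ} (hi : i ∈ s) :
    Pf s x κ (x i) = 0 := by
  unfold Pf
  rw [Finset.prod_eq_zero hi (by simp), mul_zero]

end DetAux

open DetAux in
theorem det_main {R : ℝ} (hR : 1 ≤ R) : ∃ C, 0 < C ∧ ∀ (s : Finset ℕ) (x : ℕ → ℝ) (c : ℝ)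
    (A e : ℂ) (z : ℝ → ℝ → ℂ) (G : ℂ → ℂ) (m Y : ℕ) (ξ y1 Λ V : ℝ), Sparse s x → 1 / 4 ≤ c →
    c ≤ 1 / 2 → 1000 ≤ Y → 0 < y1 → y1 ≤ 1 → 0 ≤ ξ → Y * ξ ≤ 1 → Y * (1 / 2 - c) ≤ 1 → 0 ≤ V →
    (∀ a y : ℝ, |a| ≤ R + 1 → y1 ≤ y → y ≤ Y →
      ‖z a y - ∑ i ∈ s, ell c (x i - a + y * I) + A‖ ≤ ξ) →
    |A.im + π * c| ≤ ξ → ∑ j ∈ Finset.Icc 1 Y, ‖z 0 j‖ ≤ Λ → ‖z 0 Y‖ ≤ 1 / 100 →
    (∀ ζ : ℂ, ‖ζ‖ ≤ Λ + 200 * (R + Y) / y1 ^ 3 → ‖cexp ζ - expm m ζ‖ ≤ ξ) →
    Differentiable ℂ G →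
    Vf (fun a y => ENNReal.ofReal
        (‖Cz c m (z a) y * G (a - y * I) - G (a + c - y * I)‖ * wt y))
      (fun a y => ENNReal.ofReal (‖G (a - y * I)‖ * wt y)) c R Y y1 ξ ≤ ENNReal.ofReal V →
    ∫ a in (0 : ℝ)..c, ‖G (a - Y * I) - e‖ ≤ c / 4 * ‖e‖ + 1 →
    ∀ i ∈ s, ∀ j ∈ s, |x i| ≤ R → |x j| ≤ R →
      ‖e‖ * ‖1 - ee ((x j - x i) / c)‖ ≤ Real.exp (C * (1 + Λ + Real.log Y)) * (1 + V) := by
  refine ⟨300 * (R + 2 + 1) ^ 2 * 51 + 1400, by positivity, ?_⟩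
  intro s x c A e z G m Y ξ y1 Λ V hs hc hc' hY hy0 hy1 hξ hYξ hYc hV H hA hΛ hzY hexp hG hVf hlow
    i hi j hj hxi hxj
  have hc0 : 0 < c := by linarith
  have hY' : (1000 : ℝ) ≤ Y := by exact_mod_cast hY
  have hξ' : ξ ≤ 1 / 1000 := by nlinarith only [hY', hYξ, hξ]
  have hcc : 1 / 2 - c ≤ 1 / 1000 := by nlinarith only [hY', hYc, hc']
  have hR0 : |(0 : ℝ)| ≤ R + 1 := by
    rw [abs_zero]
    linarith
  have hz1 : ‖z 0 1‖ ≤ Λ := by
    have := Finset.single_le_sum (f := fun j : ℕ => ‖z 0 j‖) (fun j _ => norm_nonneg _)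
      (Finset.mem_Icc.2 ⟨le_rfl, (by omega : 1 ≤ Y)⟩)
    rw [Nat.cast_one] at this
    exact this.trans hΛ
  have hΛ0 : 0 ≤ Λ := (norm_nonneg _).trans hz1
  have hlog : 0 ≤ Real.log Y := Real.log_nonneg (by linarith)
  have hL : ∀ j ∈ Finset.Icc 1 Y, ‖Ld s x (kap c A) (-(j * I))‖ ≤
      4 * ‖z 0 j‖ + (16 * (1 / 2 - c) + 8 * ξ) + 26 * (j : ℝ)⁻¹ := by
    intro j hj
    rw [Finset.mem_Icc] at hj
    have j1 : (1 : ℝ) ≤ j := by exact_mod_cast hj.1
    have j2 : (j : ℝ) ≤ Y := by exact_mod_cast hj.2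
    have := Ld_le hs hc hc' j1 hξ (H 0 j hR0 (by linarith) j2) hA
    rw [ofReal_natCast] at this
    linarith only [this]
  have hsum : ∑ j ∈ Finset.Icc 1 Y, ‖Ld s x (kap c A) (-(j * I))‖ ≤
      4 * Λ + 50 + 26 * Real.log Y := by
    refine (Finset.sum_le_sum hL).trans ?_
    rw [Finset.sum_add_distrib, Finset.sum_add_distrib, ← Finset.mul_sum, ← Finset.mul_sum,
      Finset.sum_const, Nat.card_Icc, nsmul_eq_mul, Nat.add_sub_cancel]
    have := sum_inv_le Y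
    linarith only [this, hΛ, hYξ, hYc]
  have hLY : ‖Ld s x (kap c A) (-((Y : ℝ) * I))‖ ≤ 1 / 8 := by
    have h1 := hL Y (Finset.mem_Icc.2 ⟨by omega, le_rfl⟩)
    have h2 : (Y : ℝ)⁻¹ ≤ 1 / 1000 := by
      rw [← one_div]
      exact one_div_le_one_div_of_le (by norm_num) hY'
    rw [ofReal_natCast]
    linarith only [h1, h2, hzY, hξ', hcc]
  have main := core (P := Pf s x (kap c A)) (Z := fun a y => Cz c m (z a) y) (e := e) (Y := Y)
    (M := Real.exp (300 * (R + 2 + 1) ^ 2 * (1 + (4 * Λ + 50 + 26 * Real.log Y) + Real.log Y)))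
    differentiable_Pf hG hc hc' (by linarith) (by linarith) (by linarith) hξ hV
    (Real.one_le_exp (by positivity)) (Pf_ne_zero (by simp; omega))
    (fun w h1 h2 => by
      rw [ofReal_natCast]
      exact hs.Pf_growth hc (kap_im c A) (by omega) (by linarith) hsum h1 h2)
    (fun a y ha h1 h2 => by
      have hy : y ≠ 0 := by
        rintro rfl
        rw [abs_zero] at h1
        linarith
      refine shift hc0 hy (H a |y| ha h1 h2) hA (by linarith) (hexp _ ?_)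
      exact z_le hs hc hc' hR hY' hy0 hy1 (by linarith) ha h1 h2 (H a |y| ha h1 h2)
        (H 0 1 hR0 hy1 (by linarith)) hA hz1)
    (fun a ha => hs.Pf_top hY' hLY ⟨ha.1, ha.2.trans hc'⟩) hVf (by simpa using hlow) hxi hxj
    (Pf_zero hi) (Pf_zero hj)
  refine main.trans (mul_le_mul_of_nonneg_right ?_ (by linarith))
  have h1 : (1400 : ℝ) ≤ Real.exp (1400 * (1 + Λ + Real.log Y)) := by
    have := Real.add_one_le_exp (1400 * (1 + Λ + Real.log Y))
    linarith only [this, hΛ0, hlog]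
  have h2 : 300 * (R + 2 + 1) ^ 2 * (1 + (4 * Λ + 50 + 26 * Real.log Y) + Real.log Y) ≤
      300 * (R + 2 + 1) ^ 2 * 51 * (1 + Λ + Real.log Y) := by
    rw [mul_assoc _ 51]
    exact mul_le_mul_of_nonneg_left (by linarith) (by positivity)
  rw [add_mul, Real.exp_add, mul_comm]
  gcongr

end Pool.Agent.P.MP_7eacff_nt.Rig
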