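import Pool.Agent.P.MP_7eacff_nt.Rig.Sums

/-!
Norms of the discrepancy between the symbol and the mollifier.
-/

open Complex Filter Topology MeasureTheory Set ArithmeticFunction
open scoped Real ENNReal ComplexConjugate

namespace Pool.Agent.P.MP_7eacff_nt.Rig

/-- The completely multiplicative function attached to the weights. -/
noncomputable def AF (w : ℝ → ℝ) (T : ℝ) : ArithmeticFunction ℂ := af fun n => (cm (aw w T) n : ℝ)

/-- Its twist. -/
noncomputable def AF' (w : ℝ → ℝ) (c T : ℝ) : ArithmeticFunction ℂ :=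
  af fun n => (cm (aw w T) n : ℝ) * ch n (c / lam T)

namespace EpsAux

open SumsAux

theorem af_apply (f : ℕ → ℂ) {n : ℕ} (hn : n ≠ 0) : af f n = f n := if_neg hn

theorem sub_app (f g : ArithmeticFunction ℂ) (n : ℕ) : (f - g) n = f n - g n := by
  rw [sub_eq_add_neg, ArithmeticFunction.add_apply, ArithmeticFunction.neg_apply, sub_eq_add_neg]

theorem omega_mul_le (q : ℕ) : (cardFactors q : ℝ) * vonMangoldt q ≤ Real.log q := by
  by_cases h : IsPrimePow q
  · obtain ⟨p, k, hp, hk, rfl⟩ := (isPrimePow_nat_iff _).1 h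
    rw [cardFactors_apply_prime_pow hp, vonMangoldt_apply_pow hk.ne', vonMangoldt_apply_prime hp,
      Nat.cast_pow, Real.log_pow]
  · rw [vonMangoldt_apply, if_neg h, mul_zero]
    exact Real.log_natCast_nonneg q

theorem one_le_omega {q : ℕ} (h : IsPrimePow q) : (1 : ℝ) ≤ cardFactors q := by
  have := cardFactors_pos_iff_one_lt.2 h.one_lt
  exact_mod_cast this

theorem split {T : ℝ} {N : ℕ} (hN : N ≤ ⌊T⌋₊) {F P : ℕ → ℝ} {K a : ℝ} (hK : 0 ≤ K)
    (hP : ∀ p ∈ Finset.Icc 1 ⌊T⌋₊, p.Prime → 0 ≤ P p)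
    (h1 : ∀ p ∈ Finset.Icc 1 N, p.Prime → F p ≤ P p)
    (h2 : ∀ q ∈ Finset.Icc 1 N, ¬ IsPrimePow q → F q ≤ 0)
    (h3 : ∀ q ∈ Finset.Icc 1 N, IsPrimePow q → uu T q < a → F q ≤ 0)
    (h4 : ∀ q ∈ Finset.Icc 1 N, IsPrimePow q → F q ≤ K * (1 / q)) :
    ∑ q ∈ Finset.Icc 1 N, F q ≤ ∑ p ∈ Finset.Icc 1 ⌊T⌋₊ with p.Prime, P p +
      K * ∑ q ∈ Finset.Icc 1 ⌊T⌋₊ with IsPrimePow q ∧ ¬ q.Prime ∧ a ≤ uu T q, (1 : ℝ) / q := by
  rw [Finset.mul_sum, Finset.sum_filter, Finset.sum_filter, ← Finset.sum_add_distrib]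
  refine le_trans (Finset.sum_le_sum fun q hq => ?_) (Finset.sum_le_sum_of_subset_of_nonneg
    (Finset.Icc_subset_Icc_right hN) fun q hq _ => ?_)
  · by_cases hp : q.Prime
    · rw [if_pos hp, if_neg fun h => h.2.1 hp, add_zero]
      exact h1 q hq hp
    · rw [if_neg hp, zero_add]
      by_cases hq1 : IsPrimePow q
      · by_cases hq2 : a ≤ uu T q
        · rw [if_pos ⟨hq1, hp, hq2⟩]
          exact h4 q hq hq1
        · rw [if_neg fun h => hq2 h.2.2]
          exact h3 q hq hq1 (not_le.1 hq2)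
      · rw [if_neg fun h => hq1 h.1]
        exact h2 q hq hq1
  · refine add_nonneg ?_ ?_
    · split_ifs with hp
      · exact hP q hq hp
      · exact le_rfl
    · split_ifs
      · positivity
      · exact le_rfl

theorem norm_nuA (g : ℝ → ℂ) {T : ℝ} (hT : 1 < T) {q : ℕ} (hq : q ∈ Finset.Icc 1 ⌊T⌋₊) :
    ‖nuA g T q‖ = vonMangoldt q / (√q * Real.log T) * ‖g (uu T q)‖ := by
  rw [Finset.mem_Icc] at hq
  have hL := Real.log_pos hT
  have h5 : 0 ≤ vonMangoldt q := vonMangoldt_nonneg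
  rw [nuA, af_apply _ (by omega), if_pos hq.2, norm_mul, norm_mul, Complex.norm_I, one_mul,
    Complex.norm_real, Real.norm_of_nonneg (by positivity)]

theorem omega_nuA (g : ℝ → ℂ) {T : ℝ} (hT : 1 < T) {q : ℕ} (hq : q ∈ Finset.Icc 1 ⌊T⌋₊) :
    (cardFactors q : ℝ) * ‖nuA g T q‖ ≤ uu T q * ‖g (uu T q)‖ / √q := by
  have hL := Real.log_pos hT
  have h := omega_mul_le q
  rw [norm_nuA g hT hq]
  calc _ = (cardFactors q : ℝ) * vonMangoldt q / Real.log T * ‖g (uu T q)‖ / √q := by ring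
    _ ≤ _ := by unfold uu; gcongr

theorem ch_eq (c : ℝ) {T : ℝ} (hT : 1 < T) (q : ℕ) : ch q (c / lam T) = ee (-(c * uu T q)) := by
  have hL := Real.log_pos hT
  rw [ch]
  congr 1
  unfold lam uu
  field_simp

theorem nu1_apply (w : ℝ → ℝ) (c : ℝ) {T : ℝ} (hT : 1 < T) {q : ℕ} (hq : q ≠ 0) :
    nu1 (AF w T) (AF' w c T) q = ((vonMangoldt q / Real.log q * cm (aw w T) q : ℝ) : ℂ) *
      (ee (-(c * uu T q)) - 1) := by
  rw [nu1, af_apply _ hq, AF, AF', af_apply _ hq, af_apply _ hq, ch_eq c hT]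
  push_cast
  ring

theorem omega_nu1 (w : ℝ → ℝ) (c : ℝ) {T : ℝ} (hT : 1 < T) {q : ℕ} (hq : q ≠ 0) :
    (cardFactors q : ℝ) * ‖nu1 (AF w T) (AF' w c T) q‖ ≤ 2 * |cm (aw w T) q| := by
  have h := omega_mul_le q
  have h5 : 0 ≤ vonMangoldt q := vonMangoldt_nonneg
  have h6 := Real.log_natCast_nonneg q
  have h7 : (cardFactors q : ℝ) * vonMangoldt q / Real.log q ≤ 1 := div_le_one_of_le₀ h h6
  have h8 : ‖ee (-(c * uu T q)) - 1‖ ≤ 2 := by
    refine (norm_sub_le _ _).trans ?_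
    rw [norm_ee, norm_one]
    norm_num
  rw [nu1_apply w c hT hq, norm_mul, Complex.norm_real, Real.norm_eq_abs, abs_mul,
    abs_of_nonneg (div_nonneg h5 h6)]
  calc _ = (cardFactors q : ℝ) * vonMangoldt q / Real.log q * |cm (aw w T) q| *
        ‖ee (-(c * uu T q)) - 1‖ := by ring
    _ ≤ 1 * |cm (aw w T) q| * 2 := by gcongr
    _ = _ := by ring

theorem abs_cm_le {b : ℕ} {w : ℝ → ℝ} (hw : Wt b w) (T : ℝ) {q : ℕ} (hq : q ≠ 0) :
    |cm (aw w T) q| ≤ 1 / √q := by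
  refine abs_le_of_sq_le_sq' ?_ (by positivity) |> abs_le.2
  rw [div_pow, one_pow, Real.sq_sqrt (Nat.cast_nonneg q)]
  exact hw.sq_le T hq

theorem norm_AF (w : ℝ → ℝ) (T : ℝ) {q : ℕ} (hq : q ≠ 0) : ‖AF w T q‖ = |cm (aw w T) q| := by
  rw [AF, af_apply _ hq, Complex.norm_real, Real.norm_eq_abs]

theorem nuA_zero (g : ℝ → ℂ) (T : ℝ) {q : ℕ} (h : ¬ IsPrimePow q) : nuA g T q = 0 := by
  rcases eq_or_ne q 0 with rfl | hq
  · simp
  · rw [nuA, af_apply _ hq, vonMangoldt_apply, if_neg h]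
    simp

theorem nu1_zero (A A' : ArithmeticFunction ℂ) {q : ℕ} (h : ¬ IsPrimePow q) : nu1 A A' q = 0 := by
  rcases eq_or_ne q 0 with rfl | hq
  · simp
  · rw [nu1, af_apply _ hq, vonMangoldt_apply, if_neg h]
    simp

theorem nuA_zero' {g : ℝ → ℂ} {T : ℝ} {q : ℕ} (h : g (uu T q) = 0) : nuA g T q = 0 := by
  rcases eq_or_ne q 0 with rfl | hq
  · simp
  · rw [nuA, af_apply _ hq, h]
    simp

theorem cm_zero {b : ℕ} {w : ℝ → ℝ} (hw : Wt b w) {T : ℝ} (hT : 1 < T) {q : ℕ}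
    (hq : IsPrimePow q) (h : uu T q < 1 / b) : cm (aw w T) q = 0 := by
  by_contra h0
  have hL := Real.log_pos hT
  have hp := Nat.minFac_prime hq.ne_one
  have h1 := WtAux.lt_uu hw h0 (p := q.minFac)
    (Nat.mem_primeFactors.2 ⟨hp, Nat.minFac_dvd q, hq.ne_zero⟩)
  have h2 : uu T q.minFac ≤ uu T q := by
    unfold uu
    have h3 : (0 : ℝ) < q.minFac := by exact_mod_cast hp.pos
    have h4 : (q.minFac : ℝ) ≤ q := by exact_mod_cast Nat.minFac_le hq.pos
    gcongr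
  linarith

theorem norm_g {f : ℝ → ℂ} {c S L : ℝ} (hc : c ≤ 1 / 2) (hf : Sym2 f c S L)
    {χ χ' : ℝ → ℝ} {a η a' θ' : ℝ} (hχ : Cut χ a η) (hχ' : Cut χ' a' θ') (u : ℝ) :
    ‖lo (hi f χ) χ' u‖ ≤ π := by
  refine ((hχ'.norm_lo_le _ u).trans (hχ.norm_hi_le f u)).trans ((hf.sym.bdd u).trans ?_)
  nlinarith [Real.pi_pos]

theorem g_zero {f : ℝ → ℂ} {χ χ' : ℝ → ℝ} {a η : ℝ} (hχ : Cut χ a η) {u : ℝ} (h0 : 0 ≤ u)
    (h : u ≤ a) : lo (hi f χ) χ' u = 0 := by
  rw [lo, hi, hχ.one u (by rwa [abs_of_nonneg h0])]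
  simp

theorem eps_prime {b : ℕ} {w : ℝ → ℝ} (hw : Wt b w) (hb : 4 ≤ b) {f : ℝ → ℂ} {c S L : ℝ}
    (hc0 : 0 ≤ c) (hc : c ≤ 1 / 2) (hf : Sym2 f c S L) (hL : 1 ≤ L) (hS : L * b ≤ S)
    {χ χ' : ℝ → ℝ} {a η a' θ' : ℝ} (hχ : Cut χ a η) (hη : η ≤ 1 / b)
    (hχ' : Cut χ' a' θ') {T : ℝ} (hT : 1 < T) {p : ℕ} (hp : p.Prime)
    (hpT : p ∈ Finset.Icc 1 ⌊T⌋₊) (hu : uu T p ≤ a') :
    ‖nuA (lo (hi f χ) χ') T p - nu1 (AF w T) (AF' w c T) p‖ ≤
      uu T p * (1 / b + π * (1 - w (uu T p))) / √p := by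
  have hb' : (4 : ℝ) ≤ b := by exact_mod_cast hb
  have hLT := Real.log_pos hT
  have hm := uu_mem hT hpT
  have hp1 : (1 : ℝ) < p := by exact_mod_cast hp.one_lt
  have hlp := Real.log_pos hp1
  have hsq : 0 < √(p : ℝ) := Real.sqrt_pos.2 (by linarith)
  have e : nuA (lo (hi f χ) χ') T p - nu1 (AF w T) (AF' w c T) p =
      ((I * ((uu T p : ℝ) * f (uu T p)) - (1 - ee (-(c * uu T p)))) * ((1 - χ (uu T p) : ℝ) : ℂ) +
        (1 - ee (-(c * uu T p))) * ((1 - χ (uu T p) - w (uu T p) : ℝ) : ℂ)) / ((√p : ℝ) : ℂ) := by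
    rw [nu1_apply w c hT hp.ne_zero, nuA, af_apply _ hp.ne_zero, if_pos (Finset.mem_Icc.1 hpT).2,
      vonMangoldt_apply_prime hp, cm_prime _ hp, div_self hlp.ne', one_mul, lo, hi,
      hχ'.one _ (by rwa [abs_of_nonneg hm.1]), aw,
      show Real.log p / (√p * Real.log T) = uu T p / √p by unfold uu; ring]
    have : ((√p : ℝ) : ℂ) ≠ 0 := by exact_mod_cast hsq.ne'
    generalize uu T p = u
    push_cast
    field_simp
    ring
  have h1 : ‖I * ((uu T p : ℝ) * f (uu T p)) - (1 - ee (-(c * uu T p)))‖ ≤ uu T p * (1 / b) := by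
    refine (hf.app _ hm).trans ?_
    have hS0 : 0 < S := hf.sym.pos
    rw [div_le_iff₀ hS0]
    have h2 : L ≤ 1 / b * S := by
      rw [one_div, ← div_eq_inv_mul, le_div_iff₀ (by linarith)]
      exact hS
    calc L * uu T p ≤ 1 / b * S * uu T p := mul_le_mul_of_nonneg_right h2 hm.1
      _ = _ := by ring
  have h2 : ‖(1 : ℂ) - ee (-(c * uu T p))‖ ≤ uu T p * π := by
    have h3 := norm_ee_sub 0 (-(c * uu T p))
    rw [ee_zero, zero_sub, neg_neg, abs_of_nonneg (mul_nonneg hc0 hm.1)] at h3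
    refine h3.trans ?_
    have h4 : c * uu T p ≤ 1 / 2 * uu T p := mul_le_mul_of_nonneg_right hc hm.1
    nlinarith [Real.pi_pos]
  have h3 : |1 - χ (uu T p)| ≤ 1 := by
    rw [abs_of_nonneg (sub_nonneg.2 (hχ.le_one _))]
    linarith [hχ.nonneg (uu T p)]
  have h4 : |1 - χ (uu T p) - w (uu T p)| ≤ 1 - w (uu T p) := by
    by_cases h5 : uu T p ≤ 1 / b
    · rw [hw.zero _ h5, sub_zero, sub_zero]
      exact h3
    · rw [hχ.zero _ (by rw [abs_of_nonneg hm.1]; linarith), sub_zero,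
        abs_of_nonneg (sub_nonneg.2 (hw.le_one _))]
  rw [e, norm_div, Complex.norm_real, Real.norm_of_nonneg hsq.le]
  gcongr
  refine (norm_add_le _ _).trans ?_
  rw [norm_mul, norm_mul, Complex.norm_real, Complex.norm_real, Real.norm_eq_abs, Real.norm_eq_abs]
  calc _ ≤ uu T p * (1 / b) * 1 + uu T p * π * (1 - w (uu T p)) :=
        add_le_add (mul_le_mul h1 h3 (abs_nonneg _) (mul_nonneg hm.1 (by positivity)))
          (mul_le_mul h2 h4 (abs_nonneg _) (mul_nonneg hm.1 Real.pi_pos.le))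
    _ = _ := by ring

theorem pi_sq : π ^ 2 ≤ 10 := by nlinarith [Real.pi_lt_d2, Real.pi_pos]

end EpsAux

open EpsAux SumsAux

theorem cm_AF (w : ℝ → ℝ) (T : ℝ) : CM (AF w T) := by
  refine ⟨by rw [AF, af_apply _ one_ne_zero]; simp, fun m n => ?_⟩
  rcases eq_or_ne m 0 with rfl | hm
  · simp
  rcases eq_or_ne n 0 with rfl | hn
  · simp
  rw [AF, af_apply _ hm, af_apply _ hn, af_apply _ (mul_ne_zero hm hn), cm_mul _ hm hn]
  push_cast
  ring

theorem cm_AF' (w : ℝ → ℝ) (c T : ℝ) : CM (AF' w c T) := by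
  refine ⟨by rw [AF', af_apply _ one_ne_zero]; simp, fun m n => ?_⟩
  rcases eq_or_ne m 0 with rfl | hm
  · simp
  rcases eq_or_ne n 0 with rfl | hn
  · simp
  rw [AF', af_apply _ hm, af_apply _ hn, af_apply _ (mul_ne_zero hm hn), cm_mul _ hm hn,
    ch_mul hm hn]
  push_cast
  ring

theorem pp_nuA (g : ℝ → ℂ) (T : ℝ) : PP (nuA g T) := by
  intro q hq
  by_contra h
  exact hq (nuA_zero g T h)

theorem eps_bounds {b : ℕ} {w : ℝ → ℝ} (hw : Wt b w) (hb : 4 ≤ b) {f : ℝ → ℂ} {c S L : ℝ}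
    (hc0 : 0 ≤ c) (hc : c ≤ 1 / 2) (hf : Sym2 f c S L) (hL : 1 ≤ L) (hS : L * b ≤ S)
    {χ χ' : ℝ → ℝ} {a η θ' : ℝ} (hχ : Cut χ a η) (hη : η ≤ 1 / b)
    (hχ' : Cut χ' (1 - 3 / (2 * b)) θ') : ∀ᶠ T : ℝ in atTop,
      wn ⌊T ^ (1 - 3 / (2 * (b : ℝ)))⌋₊
        (nuA (lo (hi f χ) χ') T - nu1 (AF w T) (AF' w c T)) ≤ 100 / b ^ 2 ∧
      ∑ q ∈ Finset.Icc 1 ⌊T ^ (1 - 3 / (2 * (b : ℝ)))⌋₊,
        ‖(nuA (lo (hi f χ) χ') T q - nu1 (AF w T) (AF' w c T) q) * AF w T q‖ ≤ 20 / b ∧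
      wn ⌊T ^ (1 - 3 / (2 * (b : ℝ)))⌋₊ (nu1 (AF w T) (AF' w c T)) ≤ 32 * b ∧
      wn ⌊T ^ (1 - 3 / (2 * (b : ℝ)))⌋₊ (af fun q =>
        if q * ⌊T ^ (1 - 3 / (b : ℝ))⌋₊ ≤ ⌊T ^ (1 - 3 / (2 * (b : ℝ)))⌋₊ then
          nuA (lo (hi f χ) χ') T q else 0) ≤ 50 / b ^ 2 := by
  have hb' : (4 : ℝ) ≤ b := by exact_mod_cast hb
  have hb0 : (0 : ℝ) < b := by linarith
  have ha0 : 0 < min a (1 / (b : ℝ)) := lt_min hχ.apos (by positivity)
  have hθ : 1 - 3 / (2 * (b : ℝ)) ≤ 1 := sub_le_self _ (by positivity)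
  have hθ2 : 0 ≤ 1 - 3 / (b : ℝ) := by
    rw [sub_nonneg, div_le_one hb0]; linarith
  have hr : 0 < 1 / (2 * (b : ℝ) ^ 2) := by positivity
  filter_upwards [eventually_gt_atTop 1, hw.s1, hw.s2, hw.total_le (by omega),
    (tendsto_proper ha0).eventually (eventually_le_nhds hr),
    Real.tendsto_log_atTop.eventually_ge_atTop 6, ev_div 6 (show 0 < 1 / (4 * (b : ℝ)) by positivity),
    (tendsto_rpow_atTop (show 0 < 1 / (2 * (b : ℝ)) by positivity)).eventually_ge_atTop 2]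
    with T hT s1 s2 tot hpr hl6 hl4 h2T
  have hT0 : 0 < T := by linarith
  have hLT := Real.log_pos hT
  have s0 := sum_log_div_le hT hl6
  set N := ⌊T ^ (1 - 3 / (2 * (b : ℝ)))⌋₊ with hN
  have hmem : ∀ q ∈ Finset.Icc 1 N, q ∈ Finset.Icc 1 ⌊T⌋₊ ∧ uu T q ≤ 1 - 3 / (2 * (b : ℝ)) :=
    fun q hq => (mem_iff hT hθ q).1 hq
  have hNT : N ≤ ⌊T⌋₊ := Nat.floor_le_floor (by
    simpa using Real.rpow_le_rpow_of_exponent_le hT.le hθ)
  set g := lo (hi f χ) χ' with hg
  have hq0 : ∀ q ∈ Finset.Icc 1 N, q ≠ 0 := fun q hq => by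
    have := (Finset.mem_Icc.1 hq).1; omega
  have hsq : ∀ q ∈ Finset.Icc 1 N, 0 < √(q : ℝ) := fun q hq =>
    Real.sqrt_pos.2 (by exact_mod_cast Nat.pos_of_ne_zero (hq0 q hq))
  have hA : ∀ q ∈ Finset.Icc 1 N, (cardFactors q : ℝ) * ‖nuA g T q‖ ≤ uu T q * π / √q := by
    intro q hq
    refine (omega_nuA g hT (hmem q hq).1).trans ?_
    have h1 := (uu_mem hT (hmem q hq).1).1
    have h2 := norm_g hc hf hχ hχ' (uu T q)
    gcongr
  have hA' : ∀ q ∈ Finset.Icc 1 N, (cardFactors q : ℝ) * ‖nuA g T q‖ ≤ π / √q := by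
    intro q hq
    refine (hA q hq).trans ?_
    have h1 := (uu_mem hT (hmem q hq).1).2
    gcongr
    exact mul_le_of_le_one_left Real.pi_pos.le h1
  have hE : ∀ q ∈ Finset.Icc 1 N, (cardFactors q : ℝ) *
      ‖nuA g T q - nu1 (AF w T) (AF' w c T) q‖ ≤ (26 / 5) / √q := by
    intro q hq
    have h1 := hA' q hq
    have h2 := omega_nu1 w c hT (hq0 q hq)
    have h3 := abs_cm_le hw T (hq0 q hq)
    have h4 : π / √(q : ℝ) ≤ (16 / 5) / √q := by
      gcongr
      linarith [Real.pi_lt_d2]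
    calc _ ≤ (cardFactors q : ℝ) * (‖nuA g T q‖ + ‖nu1 (AF w T) (AF' w c T) q‖) := by
          gcongr; exact norm_sub_le _ _
      _ ≤ (16 / 5) / √q + 2 * (1 / √q) := by rw [mul_add]; linarith
      _ = _ := by ring
  have hZ : ∀ q ∈ Finset.Icc 1 N, IsPrimePow q → uu T q < min a (1 / (b : ℝ)) →
      nuA g T q - nu1 (AF w T) (AF' w c T) q = 0 := by
    intro q hq h1 h2
    rw [lt_min_iff] at h2
    rw [nuA_zero' (g_zero hχ (uu_mem hT (hmem q hq).1).1 h2.1.le), nu1_apply w c hT (hq0 q hq),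
      cm_zero hw hT h1 h2.2]
    simp
  have hZ' : ∀ q, ¬ IsPrimePow q → nuA g T q - nu1 (AF w T) (AF' w c T) q = 0 := by
    intro q h1
    rw [nuA_zero g T h1, nu1_zero _ _ h1, sub_zero]
  have hP : ∀ p ∈ Finset.Icc 1 N, p.Prime → ‖nuA g T p - nu1 (AF w T) (AF' w c T) p‖ ≤
      uu T p * (1 / b + π * (1 - w (uu T p))) / √p := fun p hp h =>
    eps_prime hw hb hc0 hc hf hL hS hχ hη hχ' hT h (hmem p hp).1 (hmem p hp).2
  have hl : ∀ p : ℕ, 0 ≤ Real.log p / (p * Real.log T) := fun p =>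
    div_nonneg (Real.log_natCast_nonneg p) (by positivity)
  have hul : ∀ p : ℕ, uu T p / p = Real.log p / (p * Real.log T) := fun p => by
    unfold uu; ring
  have hw1 : ∀ u, 0 ≤ 1 - w u := fun u => sub_nonneg.2 (hw.le_one u)
  refine ⟨?_, ?_, ?_, ?_⟩
  · have h := split hNT (F := fun q => (cardFactors q : ℝ) ^ 2 *
        ‖(nuA g T - nu1 (AF w T) (AF' w c T)) q‖ ^ 2)
      (P := fun p => 2 / b ^ 2 * (Real.log p / (p * Real.log T)) +
        20 * (Real.log p / (p * Real.log T) * (uu T p * (1 - w (uu T p)))))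
      (K := 28) (a := min a (1 / (b : ℝ))) (by norm_num)
      (fun p hp _ => by
        have h1 := hl p
        have h2 := (uu_mem hT hp).1
        have h3 := hw1 (uu T p)
        positivity)
      (fun p hp h => by
        have h1 := hP p hp h
        have hm := uu_mem hT (hmem p hp).1
        have h3 := hw1 (uu T p)
        have h4 : 1 - w (uu T p) ≤ 1 := sub_le_self _ (hw.nonneg _)
        have h5 := hl p
        simp only [cardFactors_apply_prime h, Nat.cast_one, one_pow, one_mul,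
          sub_app]
        refine (pow_le_pow_left₀ (norm_nonneg _) h1 2).trans ?_
        rw [div_pow, Real.sq_sqrt (Nat.cast_nonneg p), mul_pow]
        have h6 : (1 / (b : ℝ) + π * (1 - w (uu T p))) ^ 2 ≤
            2 / b ^ 2 + 20 * (1 - w (uu T p)) := by
          have h7 : (π * (1 - w (uu T p))) ^ 2 ≤ 10 * (1 - w (uu T p)) := by
            rw [mul_pow]
            refine mul_le_mul pi_sq ?_ (sq_nonneg _) (by norm_num)
            rw [sq]
            exact mul_le_of_le_one_left h3 h4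
          have h8 : (2 : ℝ) / b ^ 2 = 2 * (1 / b) ^ 2 := by ring
          rw [h8]
          nlinarith only [h7, sq_nonneg (1 / (b : ℝ) - π * (1 - w (uu T p)))]
        calc _ ≤ uu T p ^ 2 * (2 / b ^ 2 + 20 * (1 - w (uu T p))) / p := by gcongr
          _ = 2 / b ^ 2 * (uu T p / p) * uu T p +
              20 * (uu T p / p * (uu T p * (1 - w (uu T p)))) := by ring
          _ ≤ _ := by
            rw [hul]
            exact add_le_add (mul_le_of_le_one_right (by positivity) hm.2) le_rfl)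
      (fun q _ h => by simp only [sub_app, hZ' q h]; simp)
      (fun q hq h h' => by simp only [sub_app, hZ q hq h h']; simp)
      (fun q hq _ => by
        simp only [sub_app]
        rw [← mul_pow]
        refine (pow_le_pow_left₀ (by positivity) (hE q hq) 2).trans ?_
        rw [div_pow, Real.sq_sqrt (Nat.cast_nonneg q), mul_one_div]
        gcongr
        norm_num)
    refine h.trans ?_
    rw [Finset.sum_add_distrib, ← Finset.mul_sum, ← Finset.mul_sum]
    calc _ ≤ 2 / b ^ 2 * 2 + 20 * (4 / b ^ 2) + 28 * (1 / (2 * (b : ℝ) ^ 2)) := by gcongr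
      _ = 98 / b ^ 2 := by ring
      _ ≤ _ := by gcongr; norm_num
  · have h := split hNT (F := fun q =>
        ‖(nuA g T q - nu1 (AF w T) (AF' w c T) q) * AF w T q‖)
      (P := fun p => 1 / b * (Real.log p / (p * Real.log T)) +
        4 * (Real.log p / (p * Real.log T) * (1 - w (uu T p))))
      (K := 6) (a := min a (1 / (b : ℝ))) (by norm_num)
      (fun p hp _ => by
        have h1 := hl p
        have h3 := hw1 (uu T p)
        positivity)
      (fun p hp h => by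
        have h1 := hP p hp h
        have hm := uu_mem hT (hmem p hp).1
        have h3 := hw1 (uu T p)
        have h5 := hl p
        have h6 := hm.1
        simp only [norm_mul, norm_AF w T h.ne_zero]
        calc _ ≤ uu T p * (1 / b + π * (1 - w (uu T p))) / √p * (1 / √p) :=
              mul_le_mul h1 (abs_cm_le hw T h.ne_zero) (abs_nonneg _) (by positivity)
          _ = uu T p * (1 / b + π * (1 - w (uu T p))) / (√p * √p) := by ring
          _ = 1 / b * (uu T p / p) + π * (uu T p / p * (1 - w (uu T p))) := by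
              rw [Real.mul_self_sqrt (Nat.cast_nonneg p)]; ring
          _ ≤ _ := by
            rw [hul]
            gcongr
            exact Real.pi_le_four)
      (fun q _ h => by simp only [hZ' q h]; simp)
      (fun q hq h h' => by simp only [hZ q hq h h']; simp)
      (fun q hq h => by
        have h1 : ‖nuA g T q - nu1 (AF w T) (AF' w c T) q‖ ≤ (26 / 5) / √q :=
          (le_mul_of_one_le_left (norm_nonneg _) (one_le_omega h)).trans (hE q hq)
        simp only [norm_mul, norm_AF w T (hq0 q hq)]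
        calc _ ≤ (26 / 5) / √q * (1 / √q) :=
              mul_le_mul h1 (abs_cm_le hw T (hq0 q hq)) (abs_nonneg _) (by positivity)
          _ = (26 / 5) * (1 / (√q * √q)) := by ring
          _ ≤ _ := by
            rw [Real.mul_self_sqrt (Nat.cast_nonneg q)]
            gcongr
            norm_num)
    refine h.trans ?_
    rw [Finset.sum_add_distrib, ← Finset.mul_sum, ← Finset.mul_sum]
    have h9 : 1 / (2 * (b : ℝ) ^ 2) ≤ 1 / b := by
      gcongr
      nlinarith only [hb']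
    calc _ ≤ 1 / b * 2 + 4 * (3 / b) + 6 * (1 / (b : ℝ)) := by gcongr; exact hpr.trans h9
      _ = _ := by ring
  · rw [wn]
    calc _ ≤ ∑ q ∈ Finset.Icc 1 N, 4 * cm (aw w T) q ^ 2 := by
          refine Finset.sum_le_sum fun q hq => ?_
          rw [← mul_pow]
          refine (pow_le_pow_left₀ (by positivity) (omega_nu1 w c hT (hq0 q hq)) 2).trans_eq ?_
          rw [mul_pow, sq_abs]
          norm_num
      _ ≤ ∑ q ∈ Finset.Icc 1 ⌊T⌋₊, 4 * cm (aw w T) q ^ 2 :=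
          Finset.sum_le_sum_of_subset_of_nonneg (Finset.Icc_subset_Icc_right hNT)
            fun q _ _ => by positivity
      _ ≤ 4 * (8 * b) := by rw [← Finset.mul_sum]; gcongr
      _ = _ := by ring
  · have hu2 : ∀ q ∈ Finset.Icc 1 N, q * ⌊T ^ (1 - 3 / (b : ℝ))⌋₊ ≤ N → uu T q ≤ 2 / b := by
      intro q hq h
      rw [uu_le_iff hT (Finset.mem_Icc.1 hq).1]
      have h1 : 1 ≤ T ^ (1 - 3 / (b : ℝ)) := Real.one_le_rpow hT.le hθ2
      have h2 : T ^ (1 - 3 / (b : ℝ)) ≤ 2 * (⌊T ^ (1 - 3 / (b : ℝ))⌋₊ : ℝ) := by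
        have h3 := Nat.lt_floor_add_one (T ^ (1 - 3 / (b : ℝ)))
        have h4 : (1 : ℝ) ≤ ⌊T ^ (1 - 3 / (b : ℝ))⌋₊ := by
          exact_mod_cast Nat.le_floor (by exact_mod_cast h1)
        linarith
      have h3 : (q : ℝ) * ⌊T ^ (1 - 3 / (b : ℝ))⌋₊ ≤ T ^ (1 - 3 / (2 * (b : ℝ))) :=
        le_trans (by rw [← Nat.cast_mul]; exact Nat.cast_le.2 h) (Nat.floor_le (by positivity))
      have h4 : T ^ (1 / (2 * (b : ℝ))) * T ^ (1 - 3 / (2 * (b : ℝ))) =
          T ^ (2 / (b : ℝ)) * T ^ (1 - 3 / (b : ℝ)) := by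
        rw [← Real.rpow_add hT0, ← Real.rpow_add hT0]
        congr 1
        ring
      refine le_of_mul_le_mul_right ?_ (show 0 < T ^ (1 - 3 / (b : ℝ)) by positivity)
      calc (q : ℝ) * T ^ (1 - 3 / (b : ℝ)) ≤ q * (2 * (⌊T ^ (1 - 3 / (b : ℝ))⌋₊ : ℝ)) := by gcongr
        _ = 2 * ((q : ℝ) * ⌊T ^ (1 - 3 / (b : ℝ))⌋₊) := by ring
        _ ≤ T ^ (1 / (2 * (b : ℝ))) * T ^ (1 - 3 / (2 * (b : ℝ))) := by gcongr
        _ = _ := h4
    have hF : ∀ q ∈ Finset.Icc 1 N, ‖(af fun q => if q * ⌊T ^ (1 - 3 / (b : ℝ))⌋₊ ≤ N then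
        nuA g T q else 0) q‖ ≤ ‖nuA g T q‖ := by
      intro q hq
      rw [af_apply _ (hq0 q hq)]
      split_ifs
      · exact le_rfl
      · simp
    have h := split hNT (F := fun q => (cardFactors q : ℝ) ^ 2 *
        ‖(af fun q => if q * ⌊T ^ (1 - 3 / (b : ℝ))⌋₊ ≤ N then nuA g T q else 0) q‖ ^ 2)
      (P := fun p => 20 / b * if uu T p ≤ 2 / b then Real.log p / (p * Real.log T) else 0)
      (K := 10) (a := min a (1 / (b : ℝ))) (by norm_num)
      (fun p hp _ => by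
        have h1 := hl p
        split_ifs <;> positivity)
      (fun p hp h => by
        simp only [af_apply _ h.ne_zero]
        by_cases h1 : p * ⌊T ^ (1 - 3 / (b : ℝ))⌋₊ ≤ N
        · have h2 := hu2 p hp h1
          have h3 := (uu_mem hT (hmem p hp).1).1
          have h5 := hl p
          rw [if_pos h1, if_pos h2, ← mul_pow]
          refine (pow_le_pow_left₀ (by positivity) (hA p hp) 2).trans ?_
          rw [div_pow, Real.sq_sqrt (Nat.cast_nonneg p), mul_pow]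
          calc _ = π ^ 2 * uu T p * (uu T p / p) := by ring
            _ ≤ 10 * (2 / b) * (uu T p / p) := by gcongr; exact pi_sq
            _ = _ := by rw [hul]; ring
        · have h5 := hl p
          rw [if_neg h1, norm_zero, zero_pow two_ne_zero, mul_zero]
          split_ifs <;> positivity)
      (fun q hq h => by
        have h1 := hF q hq
        rw [nuA_zero g T h, norm_zero] at h1
        simp only [norm_le_zero_iff.1 h1]
        simp)
      (fun q hq h h' => by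
        have h1 := hF q hq
        rw [nuA_zero' (g_zero hχ (uu_mem hT (hmem q hq).1).1 (lt_min_iff.1 h').1.le),
          norm_zero] at h1
        simp only [norm_le_zero_iff.1 h1]
        simp)
      (fun q hq _ => by
        rw [← mul_pow]
        have h1 := (mul_le_mul_of_nonneg_left (hF q hq) (Nat.cast_nonneg (cardFactors q))).trans
          (hA' q hq)
        refine (pow_le_pow_left₀ (by positivity) h1 2).trans ?_
        rw [div_pow, Real.sq_sqrt (Nat.cast_nonneg q), mul_one_div]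
        gcongr
        exact pi_sq)
    refine h.trans ?_
    rw [← Finset.mul_sum, ← Finset.sum_filter, Finset.filter_filter]
    have h1 := sum_log_le hT (show 0 ≤ 2 / (b : ℝ) by positivity)
    calc _ ≤ 20 / b * (2 / b + 1 / (4 * (b : ℝ))) + 10 * (1 / (2 * (b : ℝ) ^ 2)) := by
          gcongr
          linarith
      _ = _ := by ring

end Pool.Agent.P.MP_7eacff_nt.Rig
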