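import Pool.Agent.P.MP_7eacff_nt.Rig.Phi

/-!
The windowed Cauchy kernels.
-/

open Complex Filter Topology MeasureTheory Set
open scoped Real ENNReal ComplexConjugate

namespace Pool.Agent.P.MP_7eacff_nt.Rig

theorem kern_win {W : ℝ → ℝ} {β : ℝ → ℂ} (h0 : ∀ v, 0 ≤ W v) (hc : Continuous W)
    (h1 : ∫ v, W v = 1) (hm : ∀ M : ℕ, Integrable fun v => W v * (1 + |v|) ^ M)
    (hβ : Continuous β) (hz : ∀ u, 1 ≤ |u| → β u = 0) (hiF : ∀ v, iF β v = W v)
    (hinv : ∀ u, β u = iF (fun v => W v) (-u)) (hW0 : W 0 ≠ 0) :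
    Win2 (volume.withDensity fun v => ENNReal.ofReal (W v)) := by
  have hWi : Integrable W := by simpa using hm 0
  have hmeas : Measurable fun v => ENNReal.ofReal (W v) := hc.measurable.ennreal_ofReal
  have hint : ∀ g : ℝ → ℂ, ∫ v, g v ∂(volume.withDensity fun v => ENNReal.ofReal (W v)) =
      ∫ v, W v * g v := by
    intro g
    rw [integral_withDensity_eq_integral_toReal_smul hmeas (by simp)]
    simp [ENNReal.toReal_ofReal (h0 _)]
  have hβi : Integrable β := hβ.integrable_of_hasCompactSupport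
    (hasCompactSupport_of_zero (R := 1) fun u hu => hz u hu.le)
  have hbt : ∀ ξ, ∫ v, ee (ξ * v) ∂(volume.withDensity fun v => ENNReal.ofReal (W v)) =
      β (-ξ) := by
    intro ξ
    rw [hint, hinv, neg_neg, iF]
    simp [mul_comm]
  have hβ1 : ∀ u, ‖β u‖ ≤ 1 := by
    intro u
    rw [hinv, iF, ← h1]
    refine norm_integral_le_of_norm_le hWi (ae_of_all _ fun v => ?_)
    simp [abs_of_nonneg (h0 v)]
  have hW2 : ∀ v, W v ≤ 2 := by
    intro v
    have e : W v = ‖iF β v‖ := by rw [hiF, norm_real, Real.norm_of_nonneg (h0 v)]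
    have hi : Integrable (indicator (Icc (-1 : ℝ) 1) fun _ => (1 : ℝ)) :=
      (continuous_const.integrableOn_Icc).integrable_indicator measurableSet_Icc
    rw [e, iF]
    refine (norm_integral_le_of_norm_le hi (ae_of_all _ fun u => ?_)).trans ?_
    · by_cases hu : u ∈ Icc (-1 : ℝ) 1
      · simpa [hu] using hβ1 u
      · rw [indicator_of_notMem hu, hz u (by rw [mem_Icc, ← abs_le] at hu; exact (not_le.1 hu).le)]
        simp
    · rw [integral_indicator measurableSet_Icc]
      simp only [integral_const, MeasurableSet.univ, measureReal_restrict_apply, univ_inter,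
        smul_eq_mul, mul_one]
      rw [Real.volume_real_Icc_of_le (by norm_num)]
      norm_num
  refine ⟨⟨⟨?_⟩, fun ξ hξ => ?_, fun M => ?_, fun D θ s ζ a hD hD0 hs hζ => ?_⟩,
    fun g hg => ?_, ?_⟩
  · rw [withDensity_apply _ MeasurableSet.univ, Measure.restrict_univ,
      ← ofReal_integral_eq_lintegral_ofReal hWi (ae_of_all _ h0), h1, ENNReal.ofReal_one]
  · rw [hbt, hz (-ξ) (by rwa [abs_neg])]
  · rw [integrable_withDensity_iff hmeas (by simp)]
    simpa [ENNReal.toReal_ofReal (h0 _), mul_comm] using hm M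
  · rw [hint]
    have hDs : Integrable fun v => D (a - s * v) :=
      (hD.comp_sub_left a).comp_mul_left' hs.ne'
    have e : ∀ v, (W v : ℂ) * (ee (ζ * (s * v)) * D (a - s * v)) =
        ∫ η, D (a - s * v) * β η * ee ((η / s + ζ) * (s * v)) := by
      intro v
      rw [← hiF, iF, ← integral_mul_const]
      congr 1
      funext η
      rw [show (η / s + ζ) * (s * v) = η * v + ζ * (s * v) by field_simp, ee_add]
      ring
    simp_rw [e]
    rw [integral_integral_swap]
    · refine integral_eq_zero_of_ae (ae_of_all _ fun η => ?_)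
      by_cases hη : 1 ≤ |η|
      · simp [hz η hη]
      · have h2 : |-(η / s + ζ)| ≤ θ := by
          rw [abs_neg]
          refine (abs_add_le _ _).trans ?_
          rw [abs_div, abs_of_pos hs]
          have : |η| / s ≤ 1 / s := by gcongr; exact (not_le.1 hη).le
          linarith only [hζ, this]
        have h3 := hD0 _ h2
        have h4 := Measure.integral_comp_mul_left
          (fun w => D (a - w) * β η * ee ((η / s + ζ) * w)) s
        have h5 := integral_sub_left_eq_self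
          (fun y => D y * β η * ee ((η / s + ζ) * (a - y))) volume a
        simp only [sub_sub_cancel] at h5
        simp only [Pi.zero_apply]
        rw [h4, h5]
        have h6 : ∀ y, D y * β η * ee ((η / s + ζ) * (a - y)) =
            (β η * ee ((η / s + ζ) * a)) * (D y * ee (y * -(η / s + ζ))) := by
          intro y
          rw [show (η / s + ζ) * (a - y) = (η / s + ζ) * a + y * -(η / s + ζ) by ring, ee_add]
          ring
        simp_rw [h6]
        rw [integral_const_mul, ← iF, h3]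
        simp
    · exact (hDs.mul_prod hβi).mul_bdd (c := 1)
        (g := fun p : ℝ × ℝ => ee ((p.2 / s + ζ) * (s * p.1))) (by fun_prop)
        (ae_of_all _ fun p => by simp)
  · rw [lintegral_withDensity_eq_lintegral_mul _ hmeas hg, ← lintegral_const_mul _ hg]
    refine lintegral_mono fun v => ?_
    have : ENNReal.ofReal (W v) ≤ 2 := by
      rw [← ENNReal.ofReal_ofNat]
      exact ENNReal.ofReal_le_ofReal (hW2 v)
    exact mul_le_mul_left this _
  · unfold bt
    simp_rw [hbt]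
    rw [integral_neg_eq_self]
    have := hiF 0
    simp only [iF, mul_zero, ee_zero, mul_one] at this
    rw [this]
    exact ofReal_ne_zero.2 hW0

theorem kern_EE (s y v σ : ℝ) : EE (σ * (s * v + y * I)) =
    (Real.exp (-(2 * π * σ * y)) : ℝ) * ee (σ * s * v) := by
  rw [EE, ee, ofReal_exp, ← Complex.exp_add]
  congr 1
  push_cast
  linear_combination (2 * π * σ * y : ℂ) * I_mul_I

theorem kern_norm_EE (s y v σ : ℝ) : ‖EE (σ * (s * v + y * I))‖ = Real.exp (-(2 * π * σ * y)) := by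
  rw [kern_EE, norm_mul, norm_real, Real.norm_of_nonneg (Real.exp_pos _).le]
  simp

theorem kern_EE' (a : ℂ) (σ : ℝ) : EE (σ * a) = cexp (2 * π * I * a * σ) := by
  rw [EE]
  congr 1
  ring

theorem kern_re (s y v : ℝ) : (2 * π * I * (s * v + y * I) : ℂ).re = -(2 * π * y) := by
  simp

theorem kern_norm_Kk (s θ y v : ℝ) : ‖Kk s θ y v‖ =
    Real.exp (-(2 * π * θ * y)) / (2 * π * ‖(s * v + y * I : ℂ)‖) := by
  rw [Kk, norm_div, norm_neg, kern_norm_EE, norm_mul]
  congr 2
  simp [abs_of_pos Real.pi_pos]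

theorem kern_Kk_pos (s θ : ℝ) {y : ℝ} (hy : 0 < y) (v : ℝ) :
    Kk s θ y v = ∫ σ in Ioi θ, EE (σ * (s * v + y * I)) := by
  simp_rw [kern_EE']
  rw [integral_exp_mul_complex_Ioi (by rw [kern_re]; have := Real.pi_pos; nlinarith), Kk, kern_EE']

theorem kern_Kk_neg (s θ : ℝ) {y : ℝ} (hy : y < 0) (v : ℝ) :
    -Kk s θ y v = ∫ σ in Iic θ, EE (σ * (s * v + y * I)) := by
  simp_rw [kern_EE']
  rw [integral_exp_mul_complex_Iic (by rw [kern_re]; have := Real.pi_pos; nlinarith), Kk, kern_EE',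
    neg_div, neg_neg]

theorem kern_Lk_add (s θ : ℝ) {y : ℝ} (hy : y ≠ 0) (v : ℝ) :
    Lk s θ y v + Kk s θ y v = Kk s (-1 / s) y v := by
  have hc : (2 * π * I * (s * v + y * I) : ℂ) ≠ 0 := by
    intro h
    have h1 := kern_re s y v
    rw [h, zero_re] at h1
    have h2 : 2 * π * y ≠ 0 := mul_ne_zero (by positivity) hy
    exact h2 (by linarith)
  unfold Lk Kk
  simp_rw [kern_EE']
  rw [integral_exp_mul_complex hc]
  ring

theorem exists_win2 : ∃ P, Win2 P := by
  obtain ⟨W, β, h0, hc, h1, hm, hβ, hz, hiF, hinv⟩ := exists_W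
  obtain ⟨x, hx⟩ : ∃ x, W x ≠ 0 := by
    by_contra h
    push Not at h
    simp [h] at h1
  have hβc := hβ.continuous
  refine ⟨_, kern_win (W := fun v => W (v + x)) (β := fun u => β u * ee (u * x)) (fun v => h0 _)
    (by fun_prop) (by rw [integral_add_right_eq_self W x, h1]) (fun M => ?_) (by fun_prop)
    (fun u hu => by rw [hz u hu, zero_mul]) (fun v => ?_) (fun u => ?_) (by simpa using hx)⟩
  · refine (((hm M).comp_add_right x).mul_const ((1 + |x|) ^ M)).mono'
      (Continuous.aestronglyMeasurable (by fun_prop)) (ae_of_all _ fun v => ?_)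
    have h2 := h0 (v + x)
    rw [Real.norm_of_nonneg (by positivity), mul_assoc, ← mul_pow]
    have h3 : |v| ≤ |v + x| + |x| := by simpa using abs_sub (v + x) x
    have h4 : 1 + |v| ≤ (1 + |v + x|) * (1 + |x|) := by
      nlinarith only [h3, mul_nonneg (abs_nonneg (v + x)) (abs_nonneg x)]
    gcongr
  · rw [← hiF, iF, iF]
    congr 1
    funext u
    rw [mul_add, ee_add]
    ring
  · rw [hinv, iF, iF, ← integral_mul_const, ← integral_add_right_eq_self _ x]
    congr 1
    funext v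
    rw [mul_assoc, ← ee_add]
    congr 2
    ring

theorem measurable_Lk (s θ y : ℝ) : Measurable (Lk s θ y) := by
  refine Continuous.measurable ?_
  exact intervalIntegral.continuous_parametric_intervalIntegral_of_continuous'
    (f := fun v σ : ℝ => EE (σ * (s * v + y * I))) (by unfold EE; fun_prop) _ _

theorem measurable_Kk (s θ y : ℝ) : Measurable (Kk s θ y) := by
  unfold Kk EE
  fun_prop

theorem norm_Lk_le {s θ : ℝ} (hs : 1 ≤ s) (hθ0 : 0 ≤ θ) (hθ : θ ≤ 1) (y v : ℝ) :
    ‖Lk s θ y v‖ ≤ 2 * Real.exp (2 * π * |y|) := by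
  have h1 : 1 / s ≤ 1 := (div_le_one (by linarith)).2 hs
  have h2 : 0 < 1 / s := by positivity
  have h3 : -1 / s ≤ θ := by rw [neg_div]; linarith
  refine (intervalIntegral.norm_integral_le_of_norm_le_const (C := Real.exp (2 * π * |y|))
    fun σ hσ => ?_).trans ?_
  · rw [kern_norm_EE]
    rw [uIoc_of_le h3, neg_div] at hσ
    have h4 : |σ| ≤ 1 := abs_le.2 ⟨by linarith [hσ.1], hσ.2.trans hθ⟩
    have h5 : -(σ * y) ≤ |y| := (neg_le_abs _).trans (by
      rw [abs_mul]; exact mul_le_of_le_one_left (abs_nonneg y) h4)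
    refine Real.exp_le_exp.2 ?_
    nlinarith only [h5, Real.pi_pos]
  · rw [mul_comm, abs_of_nonneg (by linarith), neg_div]
    gcongr
    linarith

theorem norm_Kk_le (s θ : ℝ) {y : ℝ} (hy : y ≠ 0) (v : ℝ) :
    ‖Kk s θ y v‖ ≤ Real.exp (-(2 * π * θ * y)) / |y| := by
  rw [kern_norm_Kk]
  have h1 : |y| ≤ ‖(s * v + y * I : ℂ)‖ := by
    simpa using abs_im_le_norm (s * v + y * I : ℂ)
  have h2 : 0 < |y| := abs_pos.2 hy
  refine div_le_div_of_nonneg_left (Real.exp_pos _).le h2 ?_
  nlinarith only [h1, h2, Real.pi_gt_three]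

variable {P : Measure ℝ}

theorem kern_norm_bt (hP : Win P) (ξ : ℝ) : ‖bt P ξ‖ ≤ 1 := by
  have := hP.prob
  have h := norm_integral_le_of_norm_le_const (μ := P) (f := fun v => ee (ξ * v)) (C := 1)
    (ae_of_all _ fun v => by simp)
  simpa [bt] using h

theorem kern_cont_bt (hP : Win P) : Continuous (bt P) := by
  have := hP.prob
  exact continuous_of_dominated (bound := fun _ => 1) (fun ξ => by fun_prop)
    (fun ξ => ae_of_all _ fun v => by simp) (integrable_const _) (ae_of_all _ fun v => by fun_prop)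

theorem kern_basic (hP : Win P) (s y τ : ℝ) {J : Set ℝ}
    (hJ : IntegrableOn (fun σ : ℝ => ((Real.exp (-(2 * π * σ * y)) : ℝ) : ℂ)) J) :
    ∫ v, (∫ σ in J, EE (σ * (s * v + y * I))) * ee (-(τ * s * v)) ∂P =
      ∫ σ in J, (Real.exp (-(2 * π * σ * y)) : ℝ) * bt P ((σ - τ) * s) := by
  have := hP.prob
  have e : ∀ v : ℝ, (∫ σ in J, EE (σ * (s * v + y * I))) * ee (-(τ * s * v)) =
      ∫ σ in J, 1 * ((Real.exp (-(2 * π * σ * y)) : ℝ) : ℂ) * ee ((σ - τ) * s * v) := by
    intro v
    rw [← integral_mul_const]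
    congr 1
    funext σ
    rw [kern_EE, show (σ - τ) * s * v = σ * s * v + -(τ * s * v) by ring, ee_add]
    ring
  simp_rw [e]
  rw [integral_integral_swap]
  · congr 1
    funext σ
    rw [integral_const_mul, one_mul, bt]
  · exact ((integrable_const (1 : ℂ)).mul_prod hJ).mul_bdd (c := 1)
      (g := fun p : ℝ × ℝ => ee ((p.2 - τ) * s * p.1)) (by fun_prop)
      (ae_of_all _ fun p => by simp)

theorem kern_int_Ioi {y : ℝ} (hy : 0 < y) (θ : ℝ) :
    IntegrableOn (fun σ : ℝ => ((Real.exp (-(2 * π * σ * y)) : ℝ) : ℂ)) (Ioi θ) := by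
  have h := integrableOn_exp_mul_Ioi (a := -(2 * π * y)) (by have := Real.pi_pos; nlinarith) θ
  refine Integrable.ofReal (h.congr_fun (fun σ _ => ?_) measurableSet_Ioi)
  simp only
  congr 1
  ring

theorem kern_int_Iic {y : ℝ} (hy : y < 0) (θ : ℝ) :
    IntegrableOn (fun σ : ℝ => ((Real.exp (-(2 * π * σ * y)) : ℝ) : ℂ)) (Iic θ) := by
  have h := integrableOn_exp_mul_Iic (a := -(2 * π * y)) (by have := Real.pi_pos; nlinarith) θ
  refine Integrable.ofReal (h.congr_fun (fun σ _ => ?_) measurableSet_Iic)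
  simp only
  congr 1
  ring

theorem kern_int_Ioc (y a b : ℝ) :
    IntegrableOn (fun σ : ℝ => ((Real.exp (-(2 * π * σ * y)) : ℝ) : ℂ)) (Ioc a b) :=
  (Continuous.integrableOn_Icc (by fun_prop)).mono_set Ioc_subset_Icc_self

theorem kern_lo (hP : Win P) {s τ σ : ℝ} (hs : 0 < s) (h : σ + 1 / s ≤ τ) :
    bt P ((σ - τ) * s) = 0 := by
  refine hP.orth _ (le_abs.2 (.inr ?_))
  have h1 : 1 / s ≤ τ - σ := by linarith
  rw [div_le_iff₀ hs] at h1
  linarith

theorem kern_hi (hP : Win P) {s τ σ : ℝ} (hs : 0 < s) (h : τ + 1 / s ≤ σ) :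
    bt P ((σ - τ) * s) = 0 := by
  refine hP.orth _ (le_abs.2 (.inl ?_))
  have h1 : 1 / s ≤ σ - τ := by linarith
  rwa [div_le_iff₀ hs] at h1

theorem kern_full (P : Measure ℝ) (s y τ : ℝ) :
    ∫ σ, ((Real.exp (-(2 * π * σ * y)) : ℝ) : ℂ) * bt P ((σ - τ) * s) =
      Zz P s y * (Real.exp (-(2 * π * τ * y)) : ℝ) := by
  rw [Zz, ← integral_mul_const, ← integral_add_right_eq_self _ τ]
  congr 1
  funext σ
  rw [add_sub_cancel_right, show -(2 * π * (σ + τ) * y) = -(2 * π * σ * y) + -(2 * π * τ * y) by ring,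
    Real.exp_add, ofReal_mul]
  ring

theorem kern_Lk {s θ : ℝ} (hs : 0 < s) (hθ : 0 ≤ θ) (y v : ℝ) :
    Lk s θ y v = ∫ σ in Ioc (-1 / s) θ, EE (σ * (s * v + y * I)) := by
  have : -1 / s ≤ θ := (div_nonpos_of_nonpos_of_nonneg (by norm_num) hs.le).trans hθ
  rw [Lk, intervalIntegral.integral_of_le this]

theorem kern_ind (a b C : ℝ) (h : a ≤ b) :
    ∫ x, indicator (Icc a b) (fun _ => C) x = (b - a) * C := by
  rw [integral_indicator measurableSet_Icc]
  simp only [integral_const, MeasurableSet.univ, measureReal_restrict_apply, univ_inter,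
    smul_eq_mul]
  rw [Real.volume_real_Icc_of_le h]

theorem kern_dens (hP : Win2 P) {g : ℝ → ℝ} (h0 : ∀ v, 0 ≤ g v) (hm : Measurable g)
    (hi : Integrable g) : ∫ v, g v ∂P ≤ 2 * ∫ v, g v := by
  have h1 := hP.dens _ hm.ennreal_ofReal
  have h2 : 0 ≤ ∫ v, g v := integral_nonneg h0
  rw [← ofReal_integral_eq_lintegral_ofReal hi (ae_of_all _ h0), ← ENNReal.ofReal_ofNat,
    ← ENNReal.ofReal_mul (by norm_num)] at h1
  rw [integral_eq_lintegral_of_nonneg_ae (ae_of_all _ h0) hm.aestronglyMeasurable]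
  exact ENNReal.toReal_le_of_le_ofReal (by positivity) h1

theorem kern_log {s b : ℝ} (hs : 0 < s) (hb : 0 < b) :
    ∫ v, indicator (Icc (-1 : ℝ) 1) (fun v => 1 / (s * |v| + b)) v =
      2 * (1 / s * Real.log (1 + s / b)) := by
  have hc : Continuous fun v : ℝ => 1 / (s * |v| + b) :=
    continuous_const.div (by fun_prop) fun v => by positivity
  have h1 : ∫ v in (0 : ℝ)..1, 1 / (s * |v| + b) = 1 / s * Real.log (1 + s / b) := by
    have e : ∫ v in (0 : ℝ)..1, 1 / (s * |v| + b) = ∫ v in (0 : ℝ)..1, 1 / (s * v + b) := by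
      refine intervalIntegral.integral_congr fun v hv => ?_
      rw [uIcc_of_le zero_le_one] at hv
      simp only [abs_of_nonneg hv.1]
    have hp : ∀ v ∈ uIcc (0 : ℝ) 1, 0 < s * v + b := by
      intro v hv
      rw [uIcc_of_le zero_le_one] at hv
      have := hv.1
      positivity
    rw [e, intervalIntegral.integral_eq_sub_of_hasDerivAt
      (f := fun v => 1 / s * Real.log (s * v + b))]
    · rw [← mul_sub, mul_one, mul_zero, zero_add, ← Real.log_div (by positivity) hb.ne']
      congr 2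
      field_simp
      ring
    · intro v hv
      have h2 : HasDerivAt (fun v => s * v + b) s v := by
        simpa using ((hasDerivAt_id v).const_mul s).add_const b
      have h3 := (h2.log (hp v hv).ne').const_mul (1 / s)
      have e2 : 1 / s * (s / (s * v + b)) = 1 / (s * v + b) := by field_simp
      rwa [e2] at h3
    · exact (continuousOn_const.div (by fun_prop) fun v hv => (hp v hv).ne').intervalIntegrable
  have h2 : ∫ v in (-1 : ℝ)..0, 1 / (s * |v| + b) = ∫ v in (0 : ℝ)..1, 1 / (s * |v| + b) := by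
    have := intervalIntegral.integral_comp_neg (a := 0) (b := 1) (fun v : ℝ => 1 / (s * |v| + b))
    simp only [abs_neg, neg_zero] at this
    exact this.symm
  rw [integral_indicator measurableSet_Icc, integral_Icc_eq_integral_Ioc,
    ← intervalIntegral.integral_of_le (by norm_num),
    ← intervalIntegral.integral_add_adjacent_intervals (b := 0) (hc.intervalIntegrable _ _)
      (hc.intervalIntegrable _ _), h2, h1]
  ring

theorem Lk_zero (hP : Win P) {s θ τ : ℝ} (hs : 0 < s) (hθ : 0 ≤ θ) (y : ℝ) (hτ : θ + 1 / s ≤ τ) :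
    ∫ v, Lk s θ y v * ee (-(τ * s * v)) ∂P = 0 := by
  simp_rw [kern_Lk hs hθ]
  rw [kern_basic hP s y τ (kern_int_Ioc y _ _)]
  refine setIntegral_eq_zero_of_forall_eq_zero fun σ hσ => ?_
  rw [kern_lo hP hs (by linarith [hσ.2]), mul_zero]

theorem norm_Lk_transform (hP : Win P) {s θ : ℝ} (hs : 0 < s) (hθ : 0 ≤ θ) (y τ : ℝ) :
    ‖∫ v, Lk s θ y v * ee (-(τ * s * v)) ∂P‖ ≤
      2 / s * Real.exp (2 * π * |y| / s) * Real.exp (-(2 * π * τ * y)) := by
  simp_rw [kern_Lk hs hθ]
  rw [kern_basic hP s y τ (kern_int_Ioc y _ _)]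
  have h1 : 0 < 1 / s := by positivity
  obtain ⟨C, hC⟩ : ∃ C, C = Real.exp (2 * π * |y| / s) * Real.exp (-(2 * π * τ * y)) := ⟨_, rfl⟩
  have hC0 : 0 ≤ C := by rw [hC]; positivity
  have hi : Integrable (indicator (Icc (τ - 1 / s) (τ + 1 / s)) fun _ => C) :=
    (continuous_const.integrableOn_Icc).integrable_indicator measurableSet_Icc
  refine (norm_integral_le_of_norm_le hi.integrableOn (ae_of_all _ fun σ => ?_)).trans ?_
  · by_cases hσ : σ ∈ Icc (τ - 1 / s) (τ + 1 / s)
    · rw [indicator_of_mem hσ, norm_mul, norm_real, Real.norm_of_nonneg (Real.exp_pos _).le, hC,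
        ← Real.exp_add]
      refine (mul_le_of_le_one_right (Real.exp_pos _).le (kern_norm_bt hP _)).trans ?_
      have h4 : |σ - τ| ≤ 1 / s := abs_le.2 ⟨by linarith [hσ.1], by linarith [hσ.2]⟩
      have h5 : -((σ - τ) * y) ≤ 1 / s * |y| := (neg_le_abs _).trans (by
        rw [abs_mul]; exact mul_le_mul_of_nonneg_right h4 (abs_nonneg y))
      refine Real.exp_le_exp.2 ?_
      rw [show 2 * π * |y| / s = 2 * π * (1 / s * |y|) by ring]
      nlinarith only [h5, Real.pi_pos]
    · rw [indicator_of_notMem hσ]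
      rw [mem_Icc, not_and_or, not_le, not_le] at hσ
      rcases hσ with h | h
      · rw [kern_lo hP hs (by linarith), mul_zero, norm_zero]
      · rw [kern_hi hP hs h.le, mul_zero, norm_zero]
  · refine (setIntegral_le_integral hi (ae_of_all _ fun σ => ?_)).trans (le_of_eq ?_)
    · exact indicator_nonneg (fun _ _ => hC0) σ
    · rw [kern_ind _ _ _ (by linarith), hC]
      ring

theorem pos_full (hP : Win P) {s θ y τ : ℝ} (hs : 0 < s) (hy : 0 < y) (hτ : 0 ≤ τ) :
    ∫ v, (Lk s θ y v + Kk s θ y v) * ee (-(τ * s * v)) ∂P =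
      Zz P s y * (Real.exp (-(2 * π * τ * y)) : ℝ) := by
  simp_rw [kern_Lk_add s θ hy.ne', kern_Kk_pos s _ hy]
  rw [kern_basic hP s y τ (kern_int_Ioi hy _), ← kern_full]
  refine setIntegral_eq_integral_of_forall_compl_eq_zero fun σ hσ => ?_
  rw [mem_Ioi, not_lt, neg_div] at hσ
  rw [kern_lo hP hs (by linarith), mul_zero]

theorem pos_zero (hP : Win P) {s θ y τ : ℝ} (hs : 0 < s) (hy : 0 < y) (hτ : τ + 1 / s ≤ θ) :
    ∫ v, Kk s θ y v * ee (-(τ * s * v)) ∂P = 0 := by
  simp_rw [kern_Kk_pos s _ hy]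
  rw [kern_basic hP s y τ (kern_int_Ioi hy _)]
  refine setIntegral_eq_zero_of_forall_eq_zero fun σ hσ => ?_
  rw [kern_hi hP hs (hτ.trans (le_of_lt hσ)), mul_zero]

theorem neg_full (hP : Win P) {s θ y τ : ℝ} (hs : 0 < s) (hy : y < 0) (hτ : τ + 1 / s ≤ θ) :
    ∫ v, -Kk s θ y v * ee (-(τ * s * v)) ∂P =
      Zz P s y * (Real.exp (-(2 * π * τ * y)) : ℝ) := by
  simp_rw [kern_Kk_neg s _ hy]
  rw [kern_basic hP s y τ (kern_int_Iic hy _), ← kern_full]
  refine setIntegral_eq_integral_of_forall_compl_eq_zero fun σ hσ => ?_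
  rw [mem_Iic, not_le] at hσ
  rw [kern_hi hP hs (hτ.trans hσ.le), mul_zero]

theorem neg_zero' (hP : Win P) {s θ y τ : ℝ} (hs : 0 < s) (hy : y < 0) (hτ : 0 ≤ τ) :
    ∫ v, (Lk s θ y v + Kk s θ y v) * ee (-(τ * s * v)) ∂P = 0 := by
  have e : ∀ v, (Lk s θ y v + Kk s θ y v) * ee (-(τ * s * v)) =
      -((∫ σ in Iic (-1 / s), EE (σ * (s * v + y * I))) * ee (-(τ * s * v))) := by
    intro v
    rw [kern_Lk_add s θ hy.ne, ← kern_Kk_neg s _ hy]
    ring
  simp_rw [e]
  rw [integral_neg, kern_basic hP s y τ (kern_int_Iic hy _), neg_eq_zero]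
  refine setIntegral_eq_zero_of_forall_eq_zero fun σ hσ => ?_
  rw [mem_Iic, neg_div] at hσ
  rw [kern_lo hP hs (by linarith), mul_zero]

theorem Win2.le_norm_Zz (hP : Win2 P) : ∃ z r : ℝ, 0 < z ∧ 0 < r ∧ r ≤ 1 ∧ ∀ s y : ℝ, 0 < s →
    |y| ≤ r * s → z / s ≤ ‖Zz P s y‖ := by
  obtain ⟨z, hz⟩ : ∃ z, z = ‖∫ ξ, bt P ξ‖ := ⟨_, rfl⟩
  have hz0 : 0 < z := by rw [hz]; exact norm_pos_iff.2 hP.nz
  have hc := kern_cont_bt hP.win
  have hs0 : ∀ u, 1 < |u| → bt P u = 0 := fun u hu => hP.win.orth u hu.le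
  refine ⟨z / 2, min (1 / 8) (z / 64), by positivity, by positivity,
    (min_le_left _ _).trans (by norm_num), fun s y hs hy => ?_⟩
  have hη : |y / s| ≤ min (1 / 8) (z / 64) := by rwa [abs_div, abs_of_pos hs, div_le_iff₀ hs]
  obtain ⟨hη1, hη2⟩ := le_min_iff.1 hη
  have e1 : Zz P s y = (1 / s : ℝ) *
      ∫ ξ, ((Real.exp (-(2 * π * ξ * (y / s))) : ℝ) : ℂ) * bt P ξ := by
    have := Measure.integral_comp_mul_right
      (fun ξ => ((Real.exp (-(2 * π * ξ * (y / s))) : ℝ) : ℂ) * bt P ξ) s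
    rw [abs_of_pos (inv_pos.2 hs), real_smul, ← one_div] at this
    rw [← this, Zz]
    congr 1
    funext σ
    congr 4
    field_simp
  have i1 : Integrable (bt P) := hc.integrable_of_hasCompactSupport (hasCompactSupport_of_zero hs0)
  have i2 : Integrable fun ξ => ((Real.exp (-(2 * π * ξ * (y / s))) : ℝ) : ℂ) * bt P ξ :=
    Continuous.integrable_of_hasCompactSupport (by fun_prop)
      (hasCompactSupport_of_zero (R := 1) fun u hu => by rw [hs0 u hu, mul_zero])
  have hi : Integrable (indicator (Icc (-1 : ℝ) 1) fun _ => z / 4) :=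
    (continuous_const.integrableOn_Icc).integrable_indicator measurableSet_Icc
  have h1 : ‖(∫ ξ, bt P ξ) - ∫ ξ, ((Real.exp (-(2 * π * ξ * (y / s))) : ℝ) : ℂ) * bt P ξ‖ ≤
      z / 2 := by
    rw [← integral_sub i1 i2]
    refine (norm_integral_le_of_norm_le hi (ae_of_all _ fun ξ => ?_)).trans (le_of_eq ?_)
    · by_cases hξ : ξ ∈ Icc (-1 : ℝ) 1
      · rw [indicator_of_mem hξ, ← one_sub_mul, norm_mul, ← ofReal_one, ← ofReal_sub, norm_real,
          Real.norm_eq_abs, abs_sub_comm]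
        refine (mul_le_of_le_one_right (abs_nonneg _) (kern_norm_bt hP.win _)).trans ?_
        have h2 : |ξ| ≤ 1 := abs_le.2 hξ
        have h3 : |-(2 * π * ξ * (y / s))| ≤ 8 * |y / s| := by
          rw [abs_neg, abs_mul, abs_mul, abs_of_pos (by positivity : 0 < 2 * π)]
          refine mul_le_mul_of_nonneg_right ?_ (abs_nonneg _)
          nlinarith only [h2, abs_nonneg ξ, Real.pi_le_four, Real.pi_pos]
        refine (Real.abs_exp_sub_one_le (by linarith)).trans ?_
        linarith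
      · rw [indicator_of_notMem hξ, hs0 ξ (by rwa [mem_Icc, ← abs_le, not_le] at hξ)]
        simp
    · rw [kern_ind _ _ _ (by norm_num)]
      ring
  have h2 := norm_sub_norm_le (∫ ξ, bt P ξ)
    (∫ ξ, ((Real.exp (-(2 * π * ξ * (y / s))) : ℝ) : ℂ) * bt P ξ)
  rw [e1, norm_mul, norm_real, Real.norm_of_nonneg (by positivity), div_eq_mul_one_div, mul_comm]
  refine mul_le_mul_of_nonneg_left ?_ (by positivity)
  linarith

theorem Win2.integral_Kk_le (hP : Win2 P) {s θ y : ℝ} (hs : 0 < s) (hy : y ≠ 0) :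
    ∫ v, ‖Kk s θ y v‖ ∂P ≤
      1 / s * (1 + Real.log (1 + s / |y|)) * Real.exp (-(2 * π * θ * y)) := by
  have := hP.win.prob
  have hb : 0 < |y| := abs_pos.2 hy
  have hc : Continuous fun v : ℝ => 1 / (s * |v| + |y|) :=
    continuous_const.div (by fun_prop) fun v => by positivity
  obtain ⟨g, hg⟩ : ∃ g : ℝ → ℝ, g = indicator (Icc (-1 : ℝ) 1) fun v => 1 / (s * |v| + |y|) :=
    ⟨_, rfl⟩
  have g0 : ∀ v, 0 ≤ g v := fun v => by
    rw [hg]
    exact indicator_nonneg (fun v _ => by positivity) v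
  have gm : Measurable g := by rw [hg]; exact hc.measurable.indicator measurableSet_Icc
  have gi : Integrable g := by
    rw [hg]
    exact hc.integrableOn_Icc.integrable_indicator measurableSet_Icc
  have gP : Integrable g P := by
    refine Integrable.of_bound gm.aestronglyMeasurable (1 / |y|) (ae_of_all _ fun v => ?_)
    rw [Real.norm_of_nonneg (g0 v), hg]
    refine indicator_le_self' (fun _ _ => by positivity) v |>.trans ?_
    exact one_div_le_one_div_of_le hb (le_add_of_nonneg_left (by positivity))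
  have h1 := kern_dens hP g0 gm gi
  have h2 : ∫ v, g v = 2 * (1 / s * Real.log (1 + s / |y|)) := by rw [hg, kern_log hs hb]
  have hE := Real.exp_pos (-(2 * π * θ * y))
  have h3 : ∀ v, ‖Kk s θ y v‖ ≤ (g v / 4 + 1 / s) * Real.exp (-(2 * π * θ * y)) := by
    intro v
    rw [kern_norm_Kk, div_eq_mul_one_div, mul_comm]
    refine mul_le_mul_of_nonneg_right ?_ hE.le
    have n1 : s * |v| ≤ ‖(s * v + y * I : ℂ)‖ := by
      have := abs_re_le_norm (s * v + y * I : ℂ)
      simpa [abs_mul, abs_of_pos hs] using this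
    by_cases hv : v ∈ Icc (-1 : ℝ) 1
    · have n2 : ‖(s * v + y * I : ℂ)‖ ^ 2 = (s * |v|) ^ 2 + |y| ^ 2 := by
        rw [← ofReal_mul, Complex.sq_norm, normSq_add_mul_I, mul_pow, mul_pow, sq_abs, sq_abs]
      have n3 : 2 / 3 * (s * |v| + |y|) ≤ ‖(s * v + y * I : ℂ)‖ := by
        refine (pow_le_pow_iff_left₀ (by positivity) (norm_nonneg _) two_ne_zero).1 ?_
        rw [n2]
        nlinarith only [sq_nonneg (s * |v| - |y|), sq_nonneg (s * |v| + |y|)]
      have n4 : 0 < s * |v| + |y| := by positivity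
      have n5 : 1 / (2 * π * ‖(s * v + y * I : ℂ)‖) ≤ 1 / (4 * (s * |v| + |y|)) :=
        one_div_le_one_div_of_le (by positivity) (by nlinarith only [n3, n4, Real.pi_gt_three])
      have n6 : g v / 4 = 1 / (4 * (s * |v| + |y|)) := by
        rw [hg, indicator_of_mem hv, div_div, mul_comm]
      have n7 : 0 < 1 / s := by positivity
      linarith
    · rw [mem_Icc, ← abs_le, not_le] at hv
      have n4 : s ≤ s * |v| := le_mul_of_one_le_right hs.le hv.le
      have n5 : 1 / (2 * π * ‖(s * v + y * I : ℂ)‖) ≤ 1 / s :=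
        one_div_le_one_div_of_le hs (by nlinarith only [n1, n4, hs, Real.pi_gt_three])
      have n6 := g0 v
      linarith
  refine (integral_mono_of_nonneg (ae_of_all _ fun v => norm_nonneg _)
    (((gP.div_const 4).add (integrable_const (1 / s))).mul_const _) (ae_of_all _ h3)).trans ?_
  rw [integral_mul_const]
  refine mul_le_mul_of_nonneg_right ?_ hE.le
  simp only [Pi.add_apply]
  rw [integral_add (gP.div_const 4) (integrable_const _), integral_div, integral_const]
  simp only [probReal_univ, smul_eq_mul, one_mul]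
  linarith

end Pool.Agent.P.MP_7eacff_nt.Rig
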