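import Pool.Agent.P.MP_7eacff_nt.Rig.An
import Pool.Agent.P.MP_7eacff_nt.Rig.Kern

/-!
The representation of the defect function by its jump.
-/

open Complex Filter Topology MeasureTheory Set
open scoped Real ENNReal ComplexConjugate

namespace Pool.Agent.P.MP_7eacff_nt.Rig

namespace KeyAux

theorem congr' {P : Measure ℝ} {s y l l' : ℝ} {H H' : ℝ → ℂ} {h h' : ℂ} (hH : An P s y H h l)
    (e1 : ∀ v, H v = H' v) (e2 : h = h') (e3 : l = l') : An P s y H' h' l' := by
  obtain rfl : H = H' := funext e1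
  subst e2 e3
  exact hH

theorem integral_conj_mul (P : Measure ℝ) (m : ℝ → ℂ) (τ s : ℝ) :
    ∫ v, conj (m v) * ee (-(τ * s * v)) ∂P = conj (∫ v, m v * ee (-(-τ * s * v)) ∂P) := by
  rw [← integral_conj]
  refine integral_congr_ae (Eventually.of_forall fun v => ?_)
  simp only [map_mul, conj_ee]
  congr 2
  ring

theorem dmp_zero (g : ℝ → ℂ) : dmp g 0 = g := by
  funext u
  simp [dmp]

end KeyAux

open KeyAux

theorem key_abs {P : Measure ℝ} (hP : Win P) {s θ θ0 y : ℝ} (hs : 1 ≤ s) (hθ0 : 0 ≤ θ0)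
    (hθ1 : θ0 ≤ 1) (hθ : θ + 1 / s ≤ θ0) (hy : y ≠ 0) {F F' : ℝ → ℂ} {f f' : ℂ}
    (hF : An P s |y| F f 0) (hF' : An P s |y| (fun v => conj (F' v)) (conj f') (-θ)) :
    Zz P s y * (if 0 ≤ y then f else f') =
      ∫ v, F v * Lk s θ0 y v ∂P + ∫ v, (F v - F' v) * Kk s θ0 y v ∂P := by
  have hs0 : 0 < s := by linarith
  have mL := measurable_Lk s θ0 y
  have mK := measurable_Kk s θ0 y
  have bL := norm_Lk_le hs hθ0 hθ1 y
  have bK := norm_Kk_le s θ0 hy
  have mK' : Measurable fun v => conj (Kk s θ0 y v) := Complex.continuous_conj.measurable.comp mK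
  have bK' : ∀ v, ‖conj (Kk s θ0 y v)‖ ≤ Real.exp (-(2 * π * θ0 * y)) / |y| := fun v => by
    rw [Complex.norm_conj]; exact bK v
  have i1 := hF.integrable_mul hP mL bL
  have i2 := hF.integrable_mul hP mK bK
  have i3 : Integrable (fun v => F' v * Kk s θ0 y v) P := by
    have h := (hF'.integrable_mul hP mK' bK')
    have h2 := (Complex.conjCLE : ℂ →L[ℝ] ℂ).integrable_comp h
    refine h2.congr (Eventually.of_forall fun v => ?_)
    simp
  have e1 : ∫ v, F v * Lk s θ0 y v ∂P + ∫ v, (F v - F' v) * Kk s θ0 y v ∂P =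
      ∫ v, F v * (Lk s θ0 y v + Kk s θ0 y v) ∂P - ∫ v, F' v * Kk s θ0 y v ∂P := by
    simp only [sub_mul, mul_add]
    rw [integral_sub i2 i3, integral_add i1 i2]
    ring
  have e2 : ∫ v, F' v * Kk s θ0 y v ∂P = conj (∫ v, conj (F' v) * conj (Kk s θ0 y v) ∂P) := by
    rw [← integral_conj]
    simp
  have bLK : ∀ v, ‖Lk s θ0 y v + Kk s θ0 y v‖ ≤
      2 * Real.exp (2 * π * |y|) + Real.exp (-(2 * π * θ0 * y)) / |y| := fun v =>
    (norm_add_le _ _).trans (add_le_add (bL v) (bK v))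
  rw [e1, e2]
  rcases lt_or_gt_of_ne hy with hneg | hpos
  · rw [if_neg (not_le.2 hneg)]
    have h1 := hF.rep (fun v => Lk s θ0 y v + Kk s θ0 y v) 0 _ (mL.add mK) bLK (fun τ hτ => by
      rw [neg_zero' hP hs0 hneg hτ, zero_mul])
    have h2 := hF'.rep (fun v => conj (Kk s θ0 y v)) (-conj (Zz P s y)) _ mK' bK' (fun τ hτ => by
      have h3 := neg_full (θ := θ0) (τ := -τ) hP hs0 hneg (by linarith)
      simp only [neg_mul (Kk s θ0 y _), integral_neg] at h3
      rw [integral_conj_mul, neg_eq_iff_eq_neg.1 h3, map_neg, map_mul, Complex.conj_ofReal,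
        abs_of_neg hneg, neg_mul]
      congr 4
      ring)
    rw [h1, h2]
    simp
  · rw [if_pos hpos.le]
    have h1 := hF.rep (fun v => Lk s θ0 y v + Kk s θ0 y v) (Zz P s y) _ (mL.add mK) bLK
      (fun τ hτ => by rw [pos_full hP hs0 hpos hτ, abs_of_pos hpos])
    have h2 := hF'.rep (fun v => conj (Kk s θ0 y v)) 0 _ mK' bK' (fun τ hτ => by
      rw [integral_conj_mul, pos_zero (θ := θ0) (τ := -τ) hP hs0 hpos (by linarith)]
      simp)
    rw [h1, h2]
    simp

theorem key_Fn {μ P : Measure ℝ} [SFinite μ] (hμ : ZData μ) (hP : Win P) {g : ℝ → ℂ}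
    {R T s θ θ0 y a' b' : ℝ} (hg : Adm g R) {χ : ℝ → ℝ} (hχ : Cut χ a' b') (hb' : 0 < b')
    (hL : 2 * π ≤ Real.log T) (hs : 1 ≤ s) (hθ0 : 0 ≤ θ0) (hθ1 : θ0 ≤ 1) (hθ : θ + 1 / s ≤ θ0)
    (ha' : θ0 + 1 / s ≤ a') (hy : y ≠ 0) (c : ℝ) (m b : ℕ) (w : ℝ → ℝ)
    (hN : ∀ n ∈ Nset b T, uu T n ≤ θ) (t : ℝ) :
    Zz P s y * Fn μ g c m b w T t y =
      ∫ v, Fn μ (lo g χ) c m b w T (t + s / lam T * v) 0 * Lk s θ0 y v ∂P +
      ∫ v, Jm μ g c m b w T (t + s / lam T * v) * Kk s θ0 y v ∂P := by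
  have hs0 : 0 < s := by linarith
  have hE := an_expm hμ hP hg hL s |y| t m
  have sh : ∀ v : ℝ, t + c / lam T + s / lam T * v = t + s / lam T * v + c / lam T := fun v => by
    ring
  have hF : An P s |y| (fun v => Fn μ g c m b w T (t + s / lam T * v) 0)
      (ph c * expm m (-I * II μ (dmp g |y|) T t) * Gm b w T t |y| -
        Gm b w T (t + c / lam T) |y|) 0 := by
    have h1 := (hE.mul_Gy hP (Nset b T) (cm (aw w T)) hL t).const_mul (ph c)
    have h2 := ((An.one (P := P) (s := s) (y := |y|)).mul_Gy hP (Nset b T) (cm (aw w T)) hL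
      (t + c / lam T)).const_mul (-1)
    refine congr' (h1.add hP h2) (fun v => ?_) ?_ rfl
    · simp only [Fn, Cz, Gm, le_refl, if_true, dmp_zero, sh]
      ring
    · simp only [Gm]
      ring
  have hF' : An P s |y| (fun v => conj (-conj (ph c * expm m (-I * II μ g T (t + s / lam T * v))) *
        Gm b w T (t + s / lam T * v) 0 - Gm b w T (t + s / lam T * v + c / lam T) 0))
      (conj (-conj (ph c * expm m (-I * II μ (dmp g |y|) T t)) * Gm b w T t (-|y|) -
        Gm b w T (t + c / lam T) (-|y|))) (-θ) := by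
    have h1 := (hE.mul_conj_Gy hP (cm (aw w T)) hL hN t).const_mul (-ph c)
    have h2 := ((An.one (P := P) (s := s) (y := |y|)).mul_conj_Gy hP (cm (aw w T)) hL hN
      (t + c / lam T)).const_mul (-1)
    refine congr' (h1.add hP h2) (fun v => ?_) ?_ (zero_sub θ)
    · simp only [Gm, sh, map_sub, map_mul, map_neg, Complex.conj_conj]
      ring
    · simp only [Gm, map_sub, map_mul, map_neg, Complex.conj_conj]
      ring
  have key := key_abs hP hs hθ0 hθ1 hθ hy hF hF'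
  obtain ⟨h, hD⟩ := an_expm_sub hμ hP hg hχ hb' hL s |y| t m
  have hD2 := (hD.mul_Gy hP (Nset b T) (cm (aw w T)) hL t).const_mul (ph c)
  have mL := measurable_Lk s θ0 y
  have bL := norm_Lk_le hs hθ0 hθ1 y
  have z := hD2.rep (Lk s θ0 y) 0 _ mL bL (fun τ hτ => by
    rw [Lk_zero hP hs0 hθ0 y (ha'.trans hτ), zero_mul])
  have i1 := hF.integrable_mul hP mL bL
  have i2 := hD2.integrable_mul hP mL bL
  have e1 : ∫ v, Fn μ (lo g χ) c m b w T (t + s / lam T * v) 0 * Lk s θ0 y v ∂P =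
      ∫ v, Fn μ g c m b w T (t + s / lam T * v) 0 * Lk s θ0 y v ∂P := by
    have h := integral_sub i1 i2
    rw [z, zero_mul, sub_zero] at h
    rw [← h]
    refine integral_congr_ae (Eventually.of_forall fun v => ?_)
    simp only [Fn, Cz, Gm, le_refl, if_true, dmp_zero]
    ring
  have e2 : ∀ v : ℝ, Jm μ g c m b w T (t + s / lam T * v) =
      Fn μ g c m b w T (t + s / lam T * v) 0 -
        (-conj (ph c * expm m (-I * II μ g T (t + s / lam T * v))) *
          Gm b w T (t + s / lam T * v) 0 - Gm b w T (t + s / lam T * v + c / lam T) 0) := by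
    intro v
    simp only [Jm, Fn, Cz, le_refl, if_true, dmp_zero]
    rw [← Complex.add_conj]
    ring
  rw [e1]
  simp only [e2]
  rw [← key]
  congr 1
  by_cases h0 : 0 ≤ y
  · simp only [Fn, Cz, if_pos h0, abs_of_nonneg h0]
  · simp only [Fn, Cz, if_neg h0, abs_of_neg (not_le.1 h0), neg_neg]

end Pool.Agent.P.MP_7eacff_nt.Rig
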