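import Pool.Agent.P.MP_7eacff_nt.Rig.Jlem
import Pool.Agent.P.MP_7eacff_nt.Rig.Key

/-!
The mean of the defect function at all heights.
-/

open Complex Filter Topology MeasureTheory Set
open scoped Real ENNReal ComplexConjugate

namespace Pool.Agent.P.MP_7eacff_nt.Rig

namespace FBoundAux

theorem continuous_expm (m : ℕ) : Continuous (expm m) := by
  unfold expm
  fun_prop

theorem norm_ph (c : ℝ) : ‖ph c‖ = 1 := by
  rw [ph, norm_mul, norm_I, one_mul, ← ofReal_neg, norm_exp_ofReal_mul_I]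

theorem wt_pos (y : ℝ) : 0 < wt y := Real.exp_pos _

theorem wt_le_one (y : ℝ) : wt y ≤ 1 := by
  rw [wt, Real.exp_le_one_iff, neg_nonpos]
  have := le_max_right (-y) 0
  positivity

theorem wt_mul_le {θ : ℝ} (h0 : 0 ≤ θ) (h1 : θ ≤ 1) (y : ℝ) :
    wt y * Real.exp (-(2 * π * θ * y)) ≤ 1 := by
  rw [wt, ← Real.exp_add, Real.exp_le_one_iff]
  rcases le_total 0 y with h | h
  · rw [max_eq_right (by linarith)]
    have : 0 ≤ 2 * π * θ * y := by positivity
    linarith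
  · rw [max_eq_left (by linarith)]
    have : 0 ≤ 2 * π * (1 - θ) * (-y) := by
      have := sub_nonneg.2 h1
      have := neg_nonneg.2 h
      positivity
    linarith

theorem integrable {μ P : Measure ℝ} {H : ℝ → ℝ → ℂ} (h : Gro μ H) (hμ : ZData μ) (hP : Win P) :
    ∀ᶠ T in atTop, ∀ X ∈ Icc T (2 * T), ∀ (T0 B : ℝ) (K : ℝ → ℂ), |T0| ≤ 1 → Measurable K →
      (∀ v, ‖K v‖ ≤ B) → Integrable (fun v => H T (X + T0 * v) * K v) P := by
  obtain ⟨m, C, k, hC, h⟩ := h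
  obtain ⟨C', hC', hG⟩ := hμ.G_pow_le k
  filter_upwards [h, eventually_ge_atTop 1] with T h hT X hX T0 B K hT0 hK hB
  have h1 : ∀ v, ‖H T (X + T0 * v)‖ ≤ C * C' * T ^ (k + 1) * (1 + |v|) := fun v => by
    have := hG T X T0 v hT (by rw [abs_of_nonneg (by linarith [hX.1])]; exact hX.2) (hT0.trans hT)
    refine (h _).trans ?_
    rw [mul_pow]
    calc _ ≤ C * (T ^ k * (C' * T * (1 + |v|))) := by gcongr
      _ = _ := by ring
  have h2 : Integrable (fun v => H T (X + T0 * v)) P :=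
    (hP.integrable_lin.const_mul _).mono'
      ((m T).comp (show Measurable fun v => X + T0 * v by fun_prop)).aestronglyMeasurable
      (ae_of_all _ h1)
  exact h2.mul_bdd hK.aestronglyMeasurable (ae_of_all _ hB)

theorem measurable_conv {P : Measure ℝ} (hP : Win P) {H K : ℝ → ℂ} (hH : Measurable H)
    (hK : Measurable K) (T0 : ℝ) :
    Measurable fun t => ENNReal.ofReal ‖∫ v, H (t + T0 * v) * K v ∂P‖ := by
  have := hP.prob
  have h : Measurable (Function.uncurry fun t v : ℝ => H (t + T0 * v) * K v) :=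
    (hH.comp (by fun_prop)).mul (hK.comp measurable_snd)
  exact h.stronglyMeasurable.integral_prod_right.measurable.norm.ennreal_ofReal

theorem gro_Jm {μ : Measure ℝ} [SFinite μ] (hμ : ZData μ) {g : ℝ → ℂ} {R : ℝ} (hg : Adm g R)
    (c : ℝ) (m : ℕ) {b : ℕ} {w : ℝ → ℝ} (hw : Wt b w) : Gro μ (Jm μ g c m b w) := by
  have h1 := (Gro.const (ph c)).mul (gro_expm ((Gro.const (-I)).mul (hg.gro hμ)) m)
  have h2 : Gro μ fun T t => ((2 * (ph c * expm m (-I * II μ g T t)).re : ℝ) : ℂ) := by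
    refine ((Gro.const 2).mul h1).of_le (fun T => ?_) fun T t => ?_
    · exact measurable_ofReal.comp ((measurable_re.comp (h1.1 T)).const_mul 2)
    · rw [norm_real, norm_mul, norm_mul (2 : ℂ), Real.norm_ofNat, Complex.norm_ofNat]
      exact mul_le_mul_of_nonneg_left (abs_re_le_norm _) zero_le_two
  exact h2.mul (hw.gro μ).1

theorem pointwise {z s W : ℝ} {Z F A B D : ℂ} (hz : 0 < z) (hs : 0 < s) (hW : 0 ≤ W)
    (hZ : z / s ≤ ‖Z‖) (h : Z * F = A + B + D) :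
    ‖F‖ * W ≤ z⁻¹ * ((s * (‖A‖ * W)) ^ 2 + 1 + ‖((s * W : ℝ) : ℂ) * B‖ +
      ‖((s * W : ℝ) : ℂ) * D‖) := by
  have h1 : z / s * ‖F‖ ≤ ‖A‖ + ‖B‖ + ‖D‖ := by
    refine (mul_le_mul_of_nonneg_right hZ (norm_nonneg _)).trans ?_
    rw [← norm_mul, h]
    exact norm_add₃_le
  have hsW : 0 ≤ s * W := by positivity
  have h2 := mul_le_mul_of_nonneg_left h1 hsW
  have e : s * W * (z / s * ‖F‖) = z * (‖F‖ * W) := by field_simp
  rw [e] at h2
  rw [norm_mul, norm_mul, norm_real, Real.norm_of_nonneg hsW, le_inv_mul_iff₀ hz]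
  have h3 := sq_nonneg (s * (‖A‖ * W) - 1 / 2)
  linarith

theorem measurable_aux {A G : ℝ → ℝ → ℂ} (h1 : Measurable fun p : ℝ × ℝ => A p.1 p.2)
    (h3 : Measurable fun p : ℝ × ℝ => G p.1 p.2) (c d : ℝ) (m : ℕ) :
    Measurable fun p : ℝ × ℝ => (if 0 ≤ p.2 then ph c * expm m (-I * A p.1 p.2)
      else -conj (ph c * expm m (-I * A p.1 (-p.2)))) * G p.1 p.2 - G (p.1 + d) p.2 := by
  have h2 : Measurable fun p : ℝ × ℝ => A p.1 (-p.2) :=
    h1.comp (measurable_fst.prodMk measurable_snd.neg)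
  have h4 : Measurable fun p : ℝ × ℝ => G (p.1 + d) p.2 :=
    h3.comp ((measurable_fst.add_const _).prodMk measurable_snd)
  have he := (continuous_expm m).measurable
  have h5 : Measurable fun p : ℝ × ℝ => ph c * expm m (-I * A p.1 p.2) :=
    (he.comp (h1.const_mul (-I))).const_mul _
  have h6 : Measurable fun p : ℝ × ℝ => ph c * expm m (-I * A p.1 (-p.2)) :=
    (he.comp (h2.const_mul (-I))).const_mul _
  have h7 : Measurable fun p : ℝ × ℝ => -conj (ph c * expm m (-I * A p.1 (-p.2))) :=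
    (continuous_conj.measurable.comp h6).neg
  have h8 : MeasurableSet {p : ℝ × ℝ | 0 ≤ p.2} := measurableSet_le measurable_const measurable_snd
  exact ((Measurable.ite h8 h5 h7).mul h3).sub h4

end FBoundAux

open FBoundAux in
theorem measurable_Fn (μ : Measure ℝ) [SFinite μ] {g : ℝ → ℂ} (hg : Measurable g) (c : ℝ)
    (m b : ℕ) (w : ℝ → ℝ) (T : ℝ) : Measurable fun p : ℝ × ℝ => Fn μ g c m b w T p.1 p.2 := by
  have h := measurable_aux (A := fun t y => II μ (dmp g y) T t) (G := Gm b w T)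
    (measurable_II_dmp μ hg T) (measurable_Gm b w T) c (c / lam T) m
  simpa only [Fn, Cz] using h

open FBoundAux in
theorem defect_bound {μ : Measure ℝ} [SFinite μ] (hμ : ZData μ) :
    ∃ C r, 0 < C ∧ 0 < r ∧ ∀ (b : ℕ) (w : ℝ → ℝ), 1000 ≤ b → Wt b w →
    ∀ (f : ℝ → ℂ) (c S L : ℝ), 1 / 2 - 1 / b ≤ c → c ≤ 1 / 2 → Sym2 f c S L → 1 ≤ L → L * b ≤ S →
    ∃ m0, ∀ m, m0 ≤ m → ∃ η0, 0 < η0 ∧ ∀ χ a η, Cut χ a η → 0 < η → η ≤ η0 →
      ∃ R δ, 0 < R ∧ 0 < δ ∧ ∀ ρ, 0 < ρ → ∀ᶠ T in atTop, ∀ E, MeasurableSet E →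
        (∀ t ∈ Icc (T / 2) (3 * T), t ∉ E → Sep μ c R T t) →
        volume (E ∩ Icc T (2 * T)) ≤ ENNReal.ofReal (δ * T) →
        ∀ y, 1 / (b : ℝ) ^ 2 ≤ |y| → |y| ≤ r * b → Sm ρ T (fun t =>
          ENNReal.ofReal (‖Fn μ (hi f χ) c m b w T t y‖ * wt y)) (C * Real.log b) := by
  obtain ⟨P, hP2⟩ := exists_win2
  have hP := hP2.win
  have hprob := hP.prob
  obtain ⟨z, r, hz, hr, hr1, hZ⟩ := hP2.le_norm_Zz
  obtain ⟨CJ, hCJ, hJ⟩ := jump_bound hμ hP
  obtain ⟨CA, hCA, hA⟩ := arith_main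
  refine ⟨z⁻¹ * (8 * Real.exp π * CA + 5 + 5 * CJ), r, by positivity, hr, ?_⟩
  intro b w hb hw f c S L hc1 hc2 hf hL hS
  obtain ⟨mJ, hJ⟩ := hJ b w hb hw f c S L hc1 hc2 hf hL hS
  obtain ⟨mA, hA⟩ := hA b w hb hw f c S L hc1 hc2 hf hL hS
  refine ⟨max mJ mA, fun m hm => ?_⟩
  obtain ⟨ηJ, hηJ, hJ⟩ := hJ m (le_of_max_le_left hm)
  have hbR : (1000 : ℝ) ≤ b := by exact_mod_cast hb
  have hb0 : (0 : ℝ) < b := by linarith
  obtain ⟨q, hq⟩ : ∃ q : ℝ, q = 1 / b := ⟨_, rfl⟩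
  have hq0 : 0 < q := by rw [hq]; positivity
  have hq1 : q ≤ 1 / 1000 := by rw [hq]; exact one_div_le_one_div_of_le (by norm_num) hbR
  have e1 : 3 / (2 * (b : ℝ)) = 3 / 2 * q := by rw [hq]; field_simp
  have e2 : 2 / (b : ℝ) = 2 * q := by rw [hq]; field_simp
  have e3 : 1 / (4 * (b : ℝ)) = q / 4 := by rw [hq]; field_simp
  refine ⟨min ηJ (1 / b), lt_min hηJ (by positivity), fun χ a η hχ hη hη0 => ?_⟩
  obtain ⟨R, δ, hR, hδ, hJ⟩ := hJ χ a η hχ hη (hη0.trans (min_le_left _ _))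
  refine ⟨R, δ, hR, hδ, fun ρ hρ => ?_⟩
  obtain ⟨χ', hχ'⟩ := exists_cut (a := 1 - 3 / (2 * (b : ℝ))) (b := 1 - q)
    (by rw [e1]; linarith) (by rw [e1]; linarith)
  have hg : Adm (hi f χ) S := hχ.adm_hi hf.sym.pos hf.sym.cd hf.sym.zero
  have hb' : 0 < 1 - q := by linarith
  have hlo := hg.lo hχ' hb'
  obtain ⟨K, hK, hbd⟩ := hw.bd μ hμ
  obtain ⟨B1, hB1⟩ : ∃ B1 : ℝ, B1 = 4 * b * (2 * Real.exp (2 * π * b)) := ⟨_, rfl⟩
  have hB1p : 0 < B1 := by rw [hB1]; positivity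
  obtain ⟨B2, hB2⟩ : ∃ B2 : ℝ, B2 = 4 * (b : ℝ) ^ 3 := ⟨_, rfl⟩
  have hB2p : 0 < B2 := by rw [hB2]; positivity
  have hρ2 : 0 < ρ / 2 := half_pos hρ
  have gE1 := gro_expm ((Gro.const (-I)).mul (hlo.gro hμ)) m
  have gE2 := gro_expm ((Gro.const I).mul (gro_Psum μ hlo)) m
  have gErr : Gro μ fun T t => ph c * (expm m (-I * II μ (lo (hi f χ) χ') T t) +
      (-1) * expm m (I * Psum (lo (hi f χ) χ') T t)) * Gm b w T t 0 :=
    ((Gro.const (ph c)).mul (gE1.add ((Gro.const (-1)).mul gE2))).mul (hw.gro μ).1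
  have gPoly : Gro μ fun T t => ph c * expm m (I * Psum (lo (hi f χ) χ') T t) * Gm b w T t 0 +
      (-1) * Gm b w T (t + c / lam T) 0 :=
    (((Gro.const (ph c)).mul gE2).mul (hw.gro μ).1).add ((Gro.const (-1)).mul ((hw.gro μ).2 c))
  have gJ := gro_Jm hμ hg c m hw
  filter_upwards [hJ (ρ / 2) hρ2,
    hA m (le_of_max_le_right hm) χ χ' a η _ hχ (hη0.trans (min_le_right _ _)) hχ',
    sm_proj hP (θ := 1 - 3 / (2 * (b : ℝ))) (by rw [e1]; linarith) hρ,
    dom_err hμ hP hlo (by linarith) one_half_pos one_half_lt_one m (b ^ 2) hK (inv_pos.2 hB1p),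
    sm_of_dom hP one_half_lt_one hρ2, hbd,
    sm_conv hμ hP gErr hρ2 (inv_pos.2 hB1p), sm_conv hμ hP gJ hρ2 (inv_pos.2 hB2p),
    FBoundAux.integrable gErr hμ hP, FBoundAux.integrable gPoly hμ hP,
    Real.tendsto_log_atTop.eventually_ge_atTop (2 * π * (4 * b)), eventually_gt_atTop 1]
    with T hJ hA hproj hdom hsd hbd hcE hcJ hiE hiP hlog hT E hE hsep hvol y hy1 hy2
  have hπ := Real.pi_pos
  have hT0 : 0 ≤ T := by linarith
  have hs1 : (1 : ℝ) ≤ 4 * b := by linarith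
  have hs0 : (0 : ℝ) < 4 * b := by linarith
  have hL : 2 * π ≤ Real.log T :=
    (le_mul_of_one_le_right (by positivity) hs1).trans hlog
  have hlam : 4 * (b : ℝ) ≤ lam T := by
    rw [lam, le_div_iff₀ (by positivity)]
    linarith
  have hT0' : |4 * (b : ℝ) / lam T| ≤ 1 := by
    rw [abs_of_nonneg (div_nonneg hs0.le (hs0.le.trans hlam))]
    exact (div_le_one (hs0.trans_le hlam)).2 hlam
  have hyp : 0 < |y| := lt_of_lt_of_le (by positivity) hy1
  have hy0 : y ≠ 0 := abs_pos.1 hyp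
  have hyb : |y| ≤ b := hy2.trans (mul_le_of_le_one_left hb0.le hr1)
  obtain ⟨θ0, hθ0⟩ : ∃ θ0 : ℝ, θ0 = 1 - 2 / (b : ℝ) + 1 / (4 * (b : ℝ)) := ⟨_, rfl⟩
  have hθ00 : 0 ≤ θ0 := by rw [hθ0, e2, e3]; linarith
  have hθ01 : θ0 ≤ 1 := by rw [hθ0, e2, e3]; linarith
  have hθa : θ0 + 1 / (4 * (b : ℝ)) ≤ 1 - 3 / (2 * (b : ℝ)) := by rw [hθ0, e1, e2, e3]; linarith
  have hW := wt_pos y
  have hW1 := wt_le_one y
  have hsW : 0 ≤ 4 * b * wt y := by positivity
  have mL := measurable_Lk (4 * b) θ0 y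
  have mK := measurable_Kk (4 * b) θ0 y
  have mL' := mL.const_mul ((4 * b * wt y : ℝ) : ℂ)
  have mK' := mK.const_mul ((4 * b * wt y : ℝ) : ℂ)
  have bL := norm_Lk_le hs1 hθ00 hθ01 y
  have bL' : ∀ v, ‖((4 * b * wt y : ℝ) : ℂ) * Lk (4 * b) θ0 y v‖ ≤ B1 := fun v => by
    rw [norm_mul, norm_real, Real.norm_of_nonneg hsW, hB1]
    refine mul_le_mul (mul_le_of_le_one_right hs0.le hW1) ((bL v).trans ?_) (norm_nonneg _) hs0.le
    gcongr
  have hsy : 4 * (b : ℝ) / |y| ≤ B2 := by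
    rw [div_le_iff₀ hyp, hB2]
    rw [div_le_iff₀ (by positivity)] at hy1
    have := mul_le_mul_of_nonneg_left hy1 hs0.le
    linarith
  have hwe := wt_mul_le hθ00 hθ01 y
  have bK' : ∀ v, ‖((4 * b * wt y : ℝ) : ℂ) * Kk (4 * b) θ0 y v‖ ≤ B2 := fun v => by
    rw [norm_mul, norm_real, Real.norm_of_nonneg hsW]
    refine (mul_le_mul_of_nonneg_left (norm_Kk_le _ θ0 hy0 v) hsW).trans (le_trans ?_ hsy)
    calc 4 * b * wt y * (Real.exp (-(2 * π * θ0 * y)) / |y|)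
        = 4 * b / |y| * (wt y * Real.exp (-(2 * π * θ0 * y))) := by ring
      _ ≤ 4 * b / |y| := mul_le_of_le_one_right (by positivity) hwe
  have hlogb : 1 ≤ Real.log b := by
    rw [Real.le_log_iff_exp_le hb0]
    linarith [Real.exp_one_lt_d9]
  have iK : ∫ v, ‖((4 * b * wt y : ℝ) : ℂ) * Kk (4 * b) θ0 y v‖ ∂P ≤ 5 * Real.log b := by
    simp only [norm_mul _ (Kk _ _ _ _), norm_real, Real.norm_of_nonneg hsW]
    rw [integral_const_mul]
    refine (mul_le_mul_of_nonneg_left (hP2.integral_Kk_le hs0 hy0) hsW).trans ?_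
    have h1 : Real.log (1 + 4 * b / |y|) ≤ 4 * Real.log b := by
      have h2 : 1 + 4 * (b : ℝ) / |y| ≤ (b : ℝ) ^ 4 := by
        have h3 : (1 : ℝ) ≤ (b : ℝ) ^ 3 := one_le_pow₀ (by linarith)
        have h4 := mul_le_mul_of_nonneg_right hbR (by positivity : (0 : ℝ) ≤ (b : ℝ) ^ 3)
        rw [hB2] at hsy
        linarith
      refine (Real.log_le_log (by positivity) h2).trans (le_of_eq ?_)
      rw [Real.log_pow]
      norm_num
    have h0 : 0 ≤ Real.log (1 + 4 * b / |y|) :=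
      Real.log_nonneg (le_add_of_nonneg_right (by positivity))
    calc 4 * b * wt y * (1 / (4 * b) * (1 + Real.log (1 + 4 * b / |y|)) *
          Real.exp (-(2 * π * θ0 * y)))
        = (1 + Real.log (1 + 4 * b / |y|)) * (wt y * Real.exp (-(2 * π * θ0 * y))) := by
          field_simp
      _ ≤ 1 + Real.log (1 + 4 * b / |y|) := mul_le_of_le_one_right (by positivity) hwe
      _ ≤ 5 * Real.log b := by linarith
  have iL : ∫ v, ‖((4 * b * wt y : ℝ) : ℂ) * Lk (4 * b) θ0 y v‖ ∂P ≤ B1 := by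
    have := integral_mono_of_nonneg (μ := P) (ae_of_all _ fun v => norm_nonneg _)
      (integrable_const B1) (ae_of_all _ bL')
    simpa using this
  -- the polynomial part
  have s1 := hproj _ _ (4 * b) θ0 y (rep_coef (lo (hi f χ) χ') c m b w T) hs1 hθ00 hθa
  have t1 : 8 * Real.exp (4 * π * |y| / (4 * b)) *
      nsq ⌊T ^ (1 - 3 / (2 * (b : ℝ)))⌋₊ (coef (lo (hi f χ) χ') c m b w T) ≤
      8 * Real.exp π * CA := by
    have h1 : 4 * π * |y| / (4 * b) ≤ π := by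
      rw [div_le_iff₀ hs0]
      have := mul_le_mul_of_nonneg_left hyb hπ.le
      linarith
    have h2 : 0 ≤ nsq ⌊T ^ (1 - 3 / (2 * (b : ℝ)))⌋₊ (coef (lo (hi f χ) χ') c m b w T) :=
      Finset.sum_nonneg fun _ _ => sq_nonneg _
    have h3 := hA.1
    gcongr
  have s1' := s1.mono hT0 le_rfl (fun _ _ => le_rfl) t1
  -- the error part
  have s2 := hsd _ _ (gErr.1 T).norm (hdom.mono (fun t ht => by
    rw [norm_mul, norm_mul, norm_ph, one_mul, neg_one_mul, ← sub_eq_add_neg]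
    exact mul_le_mul_of_nonneg_left (hbd t ht) (norm_nonneg _)) le_rfl)
  have s2' := (hcE _ B1 _ _ hT0' mL' bL' (by positivity) s2).mono (ρ' := ρ) (τ' := 3) hT0
    (by linarith) (fun _ _ => le_rfl) (by
      have h1 := mul_le_mul_of_nonneg_left iL (by positivity : 0 ≤ 2 * B1⁻¹)
      have h2 : B1 * B1⁻¹ = 1 := mul_inv_cancel₀ hB1p.ne'
      linarith)
  -- the jump part
  have s3' := (hcJ _ B2 _ _ hT0' mK' bK' hCJ.le (hJ E hE hsep hvol)).mono (ρ' := ρ)
    (τ' := CJ * (5 * Real.log b) + 1) hT0 (by linarith) (fun _ _ => le_rfl) (by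
      have h1 := mul_le_mul_of_nonneg_left iK hCJ.le
      have h2 : B2 * B2⁻¹ = 1 := mul_inv_cancel₀ hB2p.ne'
      linarith)
  have hexp := Real.exp_pos π
  have s4 := (((s1'.add (Sm.const hρ.le hT0 zero_le_one) hT0 measurable_const (by positivity)
    zero_le_one).add s2' hT0 (measurable_conv hP (gErr.1 T) mL' _) (by positivity)
    (by norm_num)).add s3' hT0 (measurable_conv hP (gJ.1 T) mK' _) (by positivity)
    (by positivity)).const_mul (inv_pos.2 hz).le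
  refine s4.mono hT0 le_rfl (fun t ht => ?_) ?_
  · have htI : t ∈ Icc T (2 * T) := by
      have h1 := ht.1
      have h2 := ht.2
      have h3 := mul_nonneg hρ.le hT0
      constructor <;> linarith
    have key := key_Fn hμ hP hg hχ' hb' hL hs1 hθ00 hθ01 (θ := 1 - 2 / (b : ℝ)) hθ0.ge hθa hy0
      c m b w (fun n hn => (mem_Nset_le (by omega) hT hn).2.1) t
    have i1 := hiE t htI _ _ _ hT0' mL bL
    have i2 := hiP t htI _ _ _ hT0' mL bL
    have e4 : ∫ v, Fn μ (lo (hi f χ) χ') c m b w T (t + 4 * b / lam T * v) 0 *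
          Lk (4 * b) θ0 y v ∂P =
        ∫ v, (ph c * expm m (I * Psum (lo (hi f χ) χ') T (t + 4 * b / lam T * v)) *
          Gm b w T (t + 4 * b / lam T * v) 0 -
          Gm b w T (t + 4 * b / lam T * v + c / lam T) 0) * Lk (4 * b) θ0 y v ∂P +
        ∫ v, ph c * (expm m (-I * II μ (lo (hi f χ) χ') T (t + 4 * b / lam T * v)) +
          (-1) * expm m (I * Psum (lo (hi f χ) χ') T (t + 4 * b / lam T * v))) *
          Gm b w T (t + 4 * b / lam T * v) 0 * Lk (4 * b) θ0 y v ∂P := by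
      simp only [neg_one_mul (Gm _ _ _ _ _), ← sub_eq_add_neg] at i2
      rw [← integral_add i2 i1]
      congr 1
      funext v
      simp only [Fn, Cz, le_refl, if_true, dmp_zero]
      ring
    rw [e4] at key
    have h5 := pointwise hz hs0 hW.le (hZ _ y hs0 (hy2.trans (by nlinarith only [hr, hb0]))) key
    rw [← integral_const_mul, ← integral_const_mul] at h5
    simp only [mul_left_comm ((4 * b * wt y : ℝ) : ℂ)] at h5
    refine (ENNReal.ofReal_le_ofReal h5).trans (le_of_eq ?_)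
    rw [ENNReal.ofReal_mul (inv_pos.2 hz).le, ENNReal.ofReal_add (by positivity) (norm_nonneg _),
      ENNReal.ofReal_add (by positivity) (norm_nonneg _),
      ENNReal.ofReal_add (by positivity) zero_le_one]
  · rw [mul_assoc z⁻¹]
    refine mul_le_mul_of_nonneg_left ?_ (inv_pos.2 hz).le
    have h1 := mul_le_mul_of_nonneg_left hlogb (by positivity : 0 ≤ 8 * Real.exp π * CA + 5)
    linarith

end Pool.Agent.P.MP_7eacff_nt.Rig
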