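import Pool.Agent.P.MP_7eacff_nt.Rig.Defs

/-!
Means over heights of size `T` for Lebesgue measure.
-/

open Complex Filter Topology MeasureTheory Set
open scoped Real ENNReal ComplexConjugate

namespace Pool.Agent.P.MP_7eacff_nt.Rig

namespace SmAux

theorem meas_Iv (ρ T : ℝ) : MeasurableSet (Iv ρ T) := measurableSet_Icc

theorem vol_Iv {ρ T : ℝ} (hρ : 0 ≤ ρ) (hT : 0 ≤ T) : volume (Iv ρ T) ≤ ENNReal.ofReal T := by
  rw [Iv, Real.volume_Icc]
  exact ENNReal.ofReal_le_ofReal (by nlinarith only [mul_nonneg hρ hT])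

theorem Iv_subset {ρ T : ℝ} (hρ : 0 ≤ ρ) (hT : 0 ≤ T) : Iv ρ T ⊆ Icc T (2 * T) := fun t ht =>
  ⟨by linarith only [ht.1, mul_nonneg hρ hT], by linarith only [ht.2, mul_nonneg hρ hT]⟩

theorem shift_le (F : ℝ → ℝ≥0∞) {A B : Set ℝ} (hA : MeasurableSet A) (hB : MeasurableSet B) (a : ℝ)
    (h : ∀ t ∈ A, t + a ∈ B) : ∫⁻ t in A, F (t + a) ≤ ∫⁻ t in B, F t := by
  rw [← lintegral_indicator hA, ← lintegral_indicator hB,
    ← lintegral_add_right_eq_self (B.indicator F) a]
  refine lintegral_mono fun t => ?_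
  by_cases ht : t ∈ A
  · simp only [indicator_of_mem ht, indicator_of_mem (h t ht), le_refl]
  · simp only [indicator_of_notMem ht, zero_le]

theorem add_mem_Iv {ρ ρ' T a t : ℝ} (ha : |a| ≤ ρ' * T) (ht : t ∈ Iv (ρ + ρ') T) :
    t + a ∈ Iv ρ T := by
  have h1 := abs_le.1 ha
  exact ⟨by linarith only [ht.1, h1.1], by linarith only [ht.2, h1.2]⟩

theorem tail {P : Measure ℝ} (hP : Win P) {ε : ℝ} (hε : 0 < ε) :
    ∃ R, 0 < R ∧ P.real {v | R ≤ 1 + |v|} ≤ ε := by
  have h0 : 0 ≤ ∫ v, (1 + |v|) ∂P := integral_nonneg fun v => by positivity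
  refine ⟨(∫ v, (1 + |v|) ∂P) / ε + 1, by positivity, ?_⟩
  have h1 := mul_meas_ge_le_integral_of_nonneg (μ := P) (f := fun v : ℝ => 1 + |v|)
    (ae_of_all _ fun v => by positivity) hP.integrable_lin ((∫ v, (1 + |v|) ∂P) / ε + 1)
  by_contra hc
  have h2 := mul_lt_mul_of_pos_left (not_le.1 hc)
    (show 0 < (∫ v, (1 + |v|) ∂P) / ε + 1 by positivity)
  rw [add_mul, div_mul_cancel₀ _ hε.ne'] at h2
  linarith only [h1, h2, hε]

end SmAux

open SmAux

namespace Sm

variable {ρ ρ' T τ τ' : ℝ} {F F' : ℝ → ℝ≥0∞}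

theorem mono (h : Sm ρ T F τ) (hT : 0 ≤ T) (hρ : ρ ≤ ρ') (hF : ∀ t ∈ Iv ρ' T, F' t ≤ F t)
    (hτ : τ ≤ τ') : Sm ρ' T F' τ' := by
  refine le_trans ?_ (h.trans (ENNReal.ofReal_le_ofReal (mul_le_mul_of_nonneg_right hτ hT)))
  refine (setLIntegral_mono' (meas_Iv _ _) hF).trans (lintegral_mono_set fun t ht => ?_)
  have h1 := mul_le_mul_of_nonneg_right hρ hT
  exact ⟨by linarith only [ht.1, h1], by linarith only [ht.2, h1]⟩

theorem add (h : Sm ρ T F τ) (h' : Sm ρ T F' τ') (hT : 0 ≤ T) (hm : Measurable F') (hτ : 0 ≤ τ)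
    (hτ' : 0 ≤ τ') : Sm ρ T (fun t => F t + F' t) (τ + τ') := by
  unfold Sm at *
  rw [lintegral_add_right _ hm, add_mul, ENNReal.ofReal_add (mul_nonneg hτ hT) (mul_nonneg hτ' hT)]
  exact add_le_add h h'

theorem const_mul (h : Sm ρ T F τ) {a : ℝ} (ha : 0 ≤ a) :
    Sm ρ T (fun t => ENNReal.ofReal a * F t) (a * τ) := by
  unfold Sm at *
  rw [lintegral_const_mul' _ _ ENNReal.ofReal_ne_top, mul_assoc, ENNReal.ofReal_mul ha]
  gcongr

theorem const (hρ : 0 ≤ ρ) (hT : 0 ≤ T) {a : ℝ} (ha : 0 ≤ a) :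
    Sm ρ T (fun _ => ENNReal.ofReal a) a := by
  unfold Sm
  rw [setLIntegral_const, ENNReal.ofReal_mul ha]
  gcongr
  exact vol_Iv hρ hT

theorem sum {ι : Type*} (S : Finset ι) {F : ι → ℝ → ℝ≥0∞} {τ : ι → ℝ} (hT : 0 ≤ T)
    (h : ∀ i ∈ S, Sm ρ T (F i) (τ i)) (hm : ∀ i ∈ S, Measurable (F i)) (hτ : ∀ i ∈ S, 0 ≤ τ i) :
    Sm ρ T (fun t => ∑ i ∈ S, F i t) (∑ i ∈ S, τ i) := by
  classical
  induction S using Finset.induction_on with
  | empty => simp [Sm]
  | insert i S hi ih =>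
    simp only [Finset.sum_insert hi]
    exact (h i (Finset.mem_insert_self _ _)).add
      (ih (fun j hj => h j (Finset.mem_insert_of_mem hj))
        (fun j hj => hm j (Finset.mem_insert_of_mem hj))
        fun j hj => hτ j (Finset.mem_insert_of_mem hj)) hT
      (Finset.measurable_sum _ fun j hj => hm j (Finset.mem_insert_of_mem hj))
      (hτ i (Finset.mem_insert_self _ _))
      (Finset.sum_nonneg fun j hj => hτ j (Finset.mem_insert_of_mem hj))

theorem shift (h : Sm ρ T F τ) {a : ℝ} (ha : |a| ≤ ρ' * T) :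
    Sm (ρ + ρ') T (fun t => F (t + a)) τ := by
  exact (shift_le F (meas_Iv _ _) (meas_Iv _ _) a fun t ht => add_mem_Iv ha ht).trans h

theorem lintegral {F : ℝ → ℝ → ℝ≥0∞} (hm : Measurable (Function.uncurry F)) {A : Set ℝ}
    (hA : MeasurableSet A) {v : ℝ} (hv : volume A ≤ ENNReal.ofReal v) (hv0 : 0 ≤ v)
    (h : ∀ y ∈ A, Sm ρ T (fun t => F t y) τ) :
    Sm ρ T (fun t => ∫⁻ y in A, F t y) (v * τ) := by
  unfold Sm at *
  rw [lintegral_lintegral_swap hm.aemeasurable]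
  refine (setLIntegral_mono' hA h).trans ?_
  rw [setLIntegral_const, mul_assoc, ENNReal.ofReal_mul hv0, mul_comm]
  gcongr

theorem markov (h : Sm ρ T F τ) (hm : Measurable F) {a : ℝ} (ha : 0 < a) :
    volume {t | t ∈ Iv ρ T ∧ ENNReal.ofReal a < F t} ≤ ENNReal.ofReal (τ / a * T) := by
  have h1 := (mul_meas_ge_le_lintegral₀ (μ := volume.restrict (Iv ρ T)) hm.aemeasurable
    (ENNReal.ofReal a)).trans h
  rw [Measure.restrict_apply' (meas_Iv _ _)] at h1
  have h2 : volume {t | t ∈ Iv ρ T ∧ ENNReal.ofReal a < F t} ≤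
      volume ({t | ENNReal.ofReal a ≤ F t} ∩ Iv ρ T) :=
    measure_mono fun t ht => ⟨ht.2.le, ht.1⟩
  refine h2.trans ?_
  rw [div_mul_eq_mul_div, ENNReal.ofReal_div_of_pos ha,
    ENNReal.le_div_iff_mul_le (Or.inl (by simpa using ha)) (Or.inl ENNReal.ofReal_ne_top), mul_comm]
  exact h1

end Sm

variable {P : Measure ℝ}

theorem sm_of_mean (hP : Win P) {θ ρ ε : ℝ} (hθ : θ < 1) (hρ : 0 < ρ) (hε : 0 < ε) :
    ∀ᶠ T in atTop, ∀ (F : ℝ → ℝ) (E : Set ℝ) (τ l δ : ℝ), Measurable F → (∀ t, 0 ≤ F t) →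
      MeasurableSet E → 0 ≤ τ → 0 ≤ l → 0 ≤ δ →
      (∀ X ∈ Icc T (2 * T), Integrable (fun v => F (X + T ^ θ * v)) P ∧
        ∫ v, F (X + T ^ θ * v) ∂P ≤ τ + l * P.real {v | X + T ^ θ * v ∈ E}) →
      volume (E ∩ Icc T (2 * T)) ≤ ENNReal.ofReal (δ * T) →
      Sm ρ T (fun t => ENNReal.ofReal (F t)) (2 * (τ + l * (δ + ε))) := by
  have := hP.prob
  obtain ⟨R, hR, hfar⟩ := tail hP (lt_min hε (by norm_num : (0 : ℝ) < 1 / 2))
  generalize hBd : {v : ℝ | R ≤ 1 + |v|} = B at hfar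
  have hB : MeasurableSet B := hBd ▸ measurableSet_le measurable_const (by fun_prop)
  filter_upwards [eventually_gt_atTop 0,
    (tendsto_rpow_atTop (sub_pos.2 hθ)).eventually_ge_atTop (2 * R / ρ)]
    with T hT hTR F E τ l δ hF hF0 hE hτ hl hδ h hvol
  have hsm : ∀ v, v ∉ B → |T ^ θ * v| ≤ ρ / 2 * T := by
    intro v hv
    rw [← hBd] at hv
    have h1 : |v| ≤ R := by
      have : 1 + |v| < R := not_le.1 (show ¬ R ≤ 1 + |v| from hv)
      linarith only [this]
    rw [div_le_iff₀ hρ] at hTR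
    have h2 : T ^ θ * T ^ (1 - θ) = T := by rw [← Real.rpow_add hT]; simp
    rw [abs_mul, abs_of_pos (by positivity)]
    calc T ^ θ * |v| ≤ T ^ θ * (T ^ (1 - θ) * ρ / 2) := by
          gcongr; linarith only [h1, hTR]
      _ = ρ / 2 * (T ^ θ * T ^ (1 - θ)) := by ring
      _ = _ := by rw [h2]
  have hJ : Iv (ρ / 2) T ⊆ Icc T (2 * T) := Iv_subset (by positivity) hT.le
  have hvJ : volume (Iv (ρ / 2) T) ≤ ENNReal.ofReal T := vol_Iv (by positivity) hT.le
  have hmF : Measurable (Function.uncurry fun X v : ℝ => ENNReal.ofReal (F (X + T ^ θ * v))) :=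
    (hF.comp (by fun_prop)).ennreal_ofReal
  have hmE : Measurable (Function.uncurry fun X v : ℝ =>
      E.indicator (1 : ℝ → ℝ≥0∞) (X + T ^ θ * v)) :=
    (measurable_one.indicator hE).comp (by fun_prop)
  have h1 : (∫⁻ t in Iv ρ T, ENNReal.ofReal (F t)) * P Bᶜ ≤
      ∫⁻ X in Iv (ρ / 2) T, ∫⁻ v, ENNReal.ofReal (F (X + T ^ θ * v)) ∂P := by
    rw [lintegral_lintegral_swap hmF.aemeasurable, ← setLIntegral_const]
    refine (setLIntegral_mono' hB.compl fun v hv => ?_).trans (setLIntegral_le_lintegral _ _)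
    have h2 := shift_le (fun X => ENNReal.ofReal (F (X + T ^ θ * v))) (meas_Iv ρ T)
      (meas_Iv (ρ / 2) T) (-(T ^ θ * v)) fun t ht =>
        add_mem_Iv (ρ' := ρ / 2) (by rw [abs_neg]; exact hsm v hv) (by rwa [add_halves])
    simpa only [neg_add_cancel_right] using h2
  have h3 : ∀ X ∈ Iv (ρ / 2) T, ∫⁻ v, ENNReal.ofReal (F (X + T ^ θ * v)) ∂P ≤ ENNReal.ofReal τ +
      ENNReal.ofReal l * ∫⁻ v, E.indicator (1 : ℝ → ℝ≥0∞) (X + T ^ θ * v) ∂P := by
    intro X hX
    obtain ⟨hi, hb⟩ := h X (hJ hX)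
    have e : ∫⁻ v, E.indicator (1 : ℝ → ℝ≥0∞) (X + T ^ θ * v) ∂P = P {v | X + T ^ θ * v ∈ E} :=
      lintegral_indicator_one (hE.preimage (f := fun v => X + T ^ θ * v) (by fun_prop))
    rw [← ofReal_integral_eq_lintegral_ofReal hi (ae_of_all _ fun v => hF0 _), e,
      ← ofReal_measureReal (μ := P), ← ENNReal.ofReal_mul hl,
      ← ENNReal.ofReal_add hτ (mul_nonneg hl measureReal_nonneg)]
    exact ENNReal.ofReal_le_ofReal hb
  have h4 : ∫⁻ X in Iv (ρ / 2) T, ∫⁻ v, E.indicator (1 : ℝ → ℝ≥0∞) (X + T ^ θ * v) ∂P ≤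
      ENNReal.ofReal ((δ + ε) * T) := by
    rw [lintegral_lintegral_swap hmE.aemeasurable]
    have h5 : ∀ v, ∫⁻ X in Iv (ρ / 2) T, E.indicator (1 : ℝ → ℝ≥0∞) (X + T ^ θ * v) ≤
        ENNReal.ofReal (δ * T) + B.indicator (fun _ => ENNReal.ofReal T) v := by
      intro v
      by_cases hv : v ∈ B
      · rw [indicator_of_mem hv]
        refine le_trans ?_ le_add_self
        refine le_trans (lintegral_mono fun X => indicator_le_self' (fun _ _ => zero_le) _) ?_
        simpa using hvJ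
      · rw [indicator_of_notMem hv, add_zero]
        refine (shift_le (E.indicator (1 : ℝ → ℝ≥0∞)) (meas_Iv _ _)
          (measurableSet_Icc (a := T) (b := 2 * T)) _ fun t ht => ?_).trans ?_
        · exact Iv_subset le_rfl hT.le (add_mem_Iv (hsm v hv) (by rwa [zero_add]))
        · rwa [lintegral_indicator_one hE, Measure.restrict_apply hE]
    refine (lintegral_mono h5).trans ?_
    rw [lintegral_add_left measurable_const, lintegral_const, measure_univ, mul_one,
      lintegral_indicator_const hB, ← ofReal_measureReal (μ := P), ← ENNReal.ofReal_mul hT.le,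
      ← ENNReal.ofReal_add (by positivity) (mul_nonneg hT.le measureReal_nonneg)]
    refine ENNReal.ofReal_le_ofReal ?_
    have := mul_le_mul_of_nonneg_left (hfar.trans (min_le_left _ _)) hT.le
    linarith only [this]
  have h6 : ENNReal.ofReal (1 / 2) ≤ P Bᶜ := by
    refine ENNReal.ofReal_le_of_le_toReal ?_
    have h7 : P.real Bᶜ = 1 - P.real B := by rw [measureReal_compl hB, probReal_univ]
    have h8 := hfar.trans (min_le_right _ _)
    show 1 / 2 ≤ P.real Bᶜ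
    linarith only [h7, h8]
  have h9 : (∫⁻ t in Iv ρ T, ENNReal.ofReal (F t)) * ENNReal.ofReal (1 / 2) ≤
      ENNReal.ofReal ((τ + l * (δ + ε)) * T) := by
    refine le_trans (by gcongr) (h1.trans ((setLIntegral_mono' (meas_Iv _ _) h3).trans ?_))
    rw [lintegral_add_left measurable_const, setLIntegral_const,
      lintegral_const_mul' _ _ ENNReal.ofReal_ne_top, add_mul,
      ENNReal.ofReal_add (by positivity) (by positivity), ENNReal.ofReal_mul hτ, mul_assoc,
      ENNReal.ofReal_mul hl]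
    gcongr
  unfold Sm
  rw [mul_assoc, ENNReal.ofReal_mul zero_le_two]
  refine le_trans (le_of_eq ?_) (mul_le_mul_right h9 _)
  rw [mul_left_comm, ← ENNReal.ofReal_mul zero_le_two]
  norm_num

theorem sm_of_dom (hP : Win P) {θ ρ : ℝ} (hθ : θ < 1) (hρ : 0 < ρ) :
    ∀ᶠ T in atTop, ∀ (F : ℝ → ℝ) (τ : ℝ), Measurable F → Dom P θ T F τ →
      Sm ρ T (fun t => ENNReal.ofReal (F t)) (2 * τ) := by
  filter_upwards [sm_of_mean hP hθ hρ one_pos, eventually_ge_atTop 0] with T h hT F τ hF hD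
  obtain ⟨y, hy0, hy, hi⟩ := hD
  have hτ : 0 ≤ τ := (integral_nonneg fun v => hy0 _).trans (hi 0).2
  set F' : ℝ → ℝ := (Icc (T / 2) (3 * T)).indicator fun t => max (F t) 0 with hF'
  have hm : Measurable F' := (hF.max measurable_const).indicator measurableSet_Icc
  have h0 : ∀ t, 0 ≤ F' t := fun t => indicator_nonneg (fun _ _ => le_max_right _ _) t
  have h1 : ∀ t, F' t ≤ y t := fun t => by
    by_cases ht : t ∈ Icc (T / 2) (3 * T)
    · rw [hF', indicator_of_mem ht]; exact max_le (hy t ht) (hy0 t)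
    · rw [hF', indicator_of_notMem ht]; exact hy0 t
  have h2 := h F' ∅ τ 0 0 hm h0 MeasurableSet.empty hτ le_rfl le_rfl (fun X _ => by
    have i1 : Integrable (fun v => F' (X + T ^ θ * v)) P :=
      (hi X).1.mono' (hm.comp (show Measurable fun v => X + T ^ θ * v by fun_prop)).aestronglyMeasurable
        (ae_of_all _ fun v => by rw [Real.norm_of_nonneg (h0 _)]; exact h1 _)
    refine ⟨i1, ?_⟩
    rw [zero_mul, add_zero]
    exact (integral_mono i1 (hi X).1 fun v => h1 _).trans (hi X).2) (by simp)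
  refine h2.mono hT le_rfl (fun t ht => ENNReal.ofReal_le_ofReal ?_) (by simp)
  have h3 := Iv_subset hρ.le hT ht
  rw [hF', indicator_of_mem (show t ∈ Icc (T / 2) (3 * T) from
    ⟨by linarith only [h3.1, hT], by linarith only [h3.2, hT]⟩)]
  exact le_max_left _ _

theorem sm_dir {θ ρ : ℝ} (hθ : θ < 1) (hρ : 0 < ρ) :
    ∀ᶠ T in atTop, ∀ (S : Finset ℕ) (a : ℕ → ℂ), (∀ n ∈ S, 1 ≤ n ∧ (n : ℝ) ≤ T ^ θ) →
      Sm ρ T (fun t => ENNReal.ofReal (‖∑ n ∈ S, a n * ch n t‖ ^ 2))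
        (2 * ∑ n ∈ S, ‖a n‖ ^ 2) := by
  obtain ⟨P, hP⟩ := exists_win
  have := hP.prob
  have ha : max θ 0 < 1 := max_lt hθ one_pos
  filter_upwards [sm_of_mean hP (θ := (max θ 0 + 1) / 2) (by linarith only [ha]) hρ one_pos,
    eventually_window (θ := (max θ 0 + 1) / 2) (le_max_right θ 0) (by linarith only [ha]),
    eventually_ge_atTop 1] with T h hW hT S a hS
  have hc : Continuous fun t => ‖∑ n ∈ S, a n * ch n t‖ ^ 2 := by fun_prop
  have hb : ∀ t, ‖∑ n ∈ S, a n * ch n t‖ ≤ ∑ n ∈ S, ‖a n‖ := fun t =>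
    (norm_sum_le _ _).trans (by simp)
  have h2 := h (fun t => ‖∑ n ∈ S, a n * ch n t‖ ^ 2) ∅ (∑ n ∈ S, ‖a n‖ ^ 2) 0 0 hc.measurable
    (fun t => by positivity) MeasurableSet.empty (by positivity) le_rfl le_rfl (fun X _ => by
      refine ⟨integrable_of_bdd (hc.comp (by fun_prop)) ((∑ n ∈ S, ‖a n‖) ^ 2) fun v => ?_, ?_⟩
      · rw [Real.norm_of_nonneg (by positivity)]
        exact pow_le_pow_left₀ (norm_nonneg _) (hb _) 2
      · have h3 := hP.mean_value S S a a id id (Y := T ^ max θ 0) (fun n hn => (hS n hn).1)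
          (fun n hn => ⟨(hS n hn).1, (hS n hn).2.trans
            (Real.rpow_le_rpow_of_exponent_le hT (le_max_left _ _))⟩) hW X
        simp only [id, Complex.mul_conj', Finset.sum_ite_eq] at h3
        rw [Finset.sum_congr rfl fun n hn => if_pos hn] at h3
        simp only [← ofReal_pow, ← ofReal_sum, integral_complex_ofReal,
          ofReal_inj] at h3
        rw [zero_mul, add_zero]
        exact h3.le) (by simp)
  simpa using h2

theorem sm_conv {μ : Measure ℝ} (hμ : ZData μ) (hP : Win P) {H : ℝ → ℝ → ℂ} (hH : Gro μ H)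
    {ρ ε : ℝ} (hρ : 0 < ρ) (hε : 0 < ε) :
    ∀ᶠ T in atTop, ∀ (T0 B τ : ℝ) (K : ℝ → ℂ), |T0| ≤ 1 → Measurable K → (∀ v, ‖K v‖ ≤ B) →
      0 ≤ τ → Sm ρ T (fun t => ENNReal.ofReal ‖H T t‖) τ →
      Sm (2 * ρ) T (fun t => ENNReal.ofReal ‖∫ v, H T (t + T0 * v) * K v ∂P‖)
        (τ * ∫ v, ‖K v‖ ∂P + B * ε) := by
  have := hP.prob
  obtain ⟨m, C, k, hC, hH⟩ := hH
  obtain ⟨C', hC', hG⟩ := hμ.G_pow_le k
  filter_upwards [hH, eventually_ge_atTop 1,
    (hP.tendsto_far (θ := 1 / 2) (by norm_num) (k + 1) (C * C')).eventually_le_const hε,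
    (tendsto_rpow_atTop (y := 1 / 2) (by norm_num)).eventually_ge_atTop (1 / ρ)]
    with T h hT hf hTρ T0 B τ K hT0 hK hB hτ hS
  have hT' : 0 < T := by linarith only [hT]
  have hB0 : 0 ≤ B := (norm_nonneg _).trans (hB 0)
  have hJ := Iv_subset (ρ := 2 * ρ) (by positivity) hT'.le
  have h1 : ∀ t ∈ Iv (2 * ρ) T, ∀ v, ‖H T (t + T0 * v)‖ ≤ C * C' * T ^ (k + 1) * (1 + |v|) := by
    intro t ht v
    have h2 := hJ ht
    have := hG T t T0 v hT (by rw [abs_of_nonneg (by linarith only [h2.1, hT])]; exact h2.2)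
      (hT0.trans hT)
    refine (h _).trans ?_
    rw [mul_pow]
    calc _ ≤ C * (T ^ k * (C' * T * (1 + |v|))) := by gcongr
      _ = _ := by ring
  have hm : Measurable (Function.uncurry fun t v : ℝ =>
      ENNReal.ofReal ‖K v‖ * ENNReal.ofReal ‖H T (t + T0 * v)‖) :=
    (hK.comp measurable_snd).norm.ennreal_ofReal.mul
      ((m T).comp (by fun_prop)).norm.ennreal_ofReal
  have h3 : ∀ v, ∫⁻ t in Iv (2 * ρ) T, ENNReal.ofReal ‖K v‖ * ENNReal.ofReal ‖H T (t + T0 * v)‖ ≤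
      ENNReal.ofReal (τ * T * ‖K v‖ + B * T * (C * C' * T ^ (k + 1) * far (1 / 2) T v)) := by
    intro v
    rw [lintegral_const_mul' _ _ ENNReal.ofReal_ne_top]
    unfold far
    split_ifs with hv
    · have h4 : |T0 * v| ≤ ρ * T := by
        have e : T ^ (1 / 2 : ℝ) * T ^ (1 / 2 : ℝ) = T := by rw [← Real.rpow_add hT']; norm_num
        have e' : (1 - 1 / 2 : ℝ) = 1 / 2 := by norm_num
        rw [e'] at hv
        rw [div_le_iff₀ hρ] at hTρ
        have h5 : 0 < T ^ (1 / 2 : ℝ) := by positivity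
        have h6 := mul_le_mul_of_nonneg_left hTρ h5.le
        rw [← mul_assoc, e] at h6
        rw [abs_mul]
        have h7 := mul_le_of_le_one_left (abs_nonneg v) hT0
        linarith only [h5, h6, h7, hv]
      have h8 := hS.shift h4
      rw [← two_mul] at h8
      rw [mul_zero, mul_zero, add_zero, mul_comm (τ * T), ENNReal.ofReal_mul (norm_nonneg _)]
      exact mul_le_mul_right h8 _
    · have h9 : ∫⁻ t in Iv (2 * ρ) T, ENNReal.ofReal ‖H T (t + T0 * v)‖ ≤
          ENNReal.ofReal (T * (C * C' * T ^ (k + 1) * (1 + |v|))) := by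
        refine (setLIntegral_mono' (meas_Iv _ _) fun t ht =>
          ENNReal.ofReal_le_ofReal (h1 t ht v)).trans ?_
        rw [setLIntegral_const, ENNReal.ofReal_mul hT'.le, mul_comm]
        gcongr
        exact vol_Iv (by positivity) hT'.le
      refine (mul_le_mul' (ENNReal.ofReal_le_ofReal (hB v)) h9).trans ?_
      rw [← ENNReal.ofReal_mul hB0, ← mul_assoc]
      exact ENNReal.ofReal_le_ofReal (le_add_of_nonneg_left (by positivity))
  have iK : Integrable (fun v => ‖K v‖) P :=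
    (integrable_const B).mono' hK.norm.aestronglyMeasurable
      (ae_of_all _ fun v => by rw [norm_norm]; exact hB v)
  have i1 := iK.const_mul (τ * T)
  have i2 := ((hP.integrable_far (1 / 2) T).const_mul (C * C' * T ^ (k + 1))).const_mul (B * T)
  unfold Sm
  calc _ ≤ ∫⁻ t in Iv (2 * ρ) T, ∫⁻ v,
          ENNReal.ofReal ‖K v‖ * ENNReal.ofReal ‖H T (t + T0 * v)‖ ∂P := by
        refine lintegral_mono fun t => ?_
        rw [ofReal_norm]
        refine (enorm_integral_le_lintegral_enorm _).trans (le_of_eq (lintegral_congr fun v => ?_))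
        rw [enorm_mul, ofReal_norm, ofReal_norm, mul_comm]
    _ ≤ ∫⁻ v, ENNReal.ofReal
          (τ * T * ‖K v‖ + B * T * (C * C' * T ^ (k + 1) * far (1 / 2) T v)) ∂P := by
        rw [lintegral_lintegral_swap hm.aemeasurable]
        exact lintegral_mono h3
    _ ≤ _ := by
        have i3 : Integrable (fun v =>
            τ * T * ‖K v‖ + B * T * (C * C' * T ^ (k + 1) * far (1 / 2) T v)) P := i1.add i2
        rw [← ofReal_integral_eq_lintegral_ofReal i3 (ae_of_all _ fun v => by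
          have := far_nonneg (1 / 2) T v
          simp only [Pi.zero_apply]
          positivity), integral_add i1 i2, integral_const_mul, integral_const_mul,
          integral_const_mul]
        refine ENNReal.ofReal_le_ofReal ?_
        have := mul_le_mul_of_nonneg_left hf (mul_nonneg hB0 hT'.le)
        linarith only [this]

end Pool.Agent.P.MP_7eacff_nt.Rig
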