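import Pool.Agent.P.MP_7eacff_nt.Rig.Defs

/-!
Existence of the prime weights and the support of the mollifier.
-/

open Complex Filter Topology MeasureTheory Set
open scoped Real ENNReal ComplexConjugate

namespace Pool.Agent.P.MP_7eacff_nt.Rig

namespace WtAux

theorem exists_beta {κ : ℝ} (hκ : 0 < κ) (hκ1 : κ < 1 / 2) : ∃ β : ℝ → ℝ, ContDiff ℝ 2 β ∧
    (∀ x, 0 ≤ β x) ∧ (∀ x, β x ≤ 1) ∧ (∀ x, β x ≠ 0 → -1 < x ∧ x ≤ 0) ∧ 1 - 2 * κ ≤ ∫ x, β x := by
  let b : ContDiffBump (-(1 / 2) : ℝ) :=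
    ⟨1 / 2 - κ, 1 / 2 - κ / 2, by linarith only [hκ1], by linarith only [hκ]⟩
  refine ⟨b, b.contDiff, fun _ => b.nonneg, fun _ => b.le_one, fun x hx => ?_, ?_⟩
  · have : x ∈ Metric.ball (-(1 / 2) : ℝ) (1 / 2 - κ / 2) := b.support_eq ▸ hx
    rw [Metric.mem_ball, Real.dist_eq, abs_lt] at this
    constructor <;> linarith only [hκ, this.1, this.2]
  · have := b.measure_closedBall_le_integral volume
    rw [Real.volume_real_closedBall b.rIn_pos.le] at this
    change 2 * (1 / 2 - κ) ≤ _ at this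
    linarith only [this]

theorem sum_eq {β : ℝ → ℝ} (hβ : ∀ x, β x ≠ 0 → -1 < x ∧ x ≤ 0) {s : Finset ℕ}
    (hs : ∀ i ∈ s, 1 ≤ i) (x : ℝ) :
    ∑ i ∈ s, β (x - i) = if ⌈x⌉₊ ∈ s then β (x - ⌈x⌉₊) else 0 := by
  have key : ∀ i ∈ s, β (x - i) ≠ 0 → ⌈x⌉₊ = i := fun i hi h0 => by
    obtain ⟨h1, h2⟩ := hβ _ h0
    have hi' := hs i hi
    rw [Nat.ceil_eq_iff (by omega), Nat.cast_pred (by omega)]
    constructor <;> linarith only [h1, h2]
  split_ifs with h
  · refine Finset.sum_eq_single_of_mem _ h fun i hi hne => ?_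
    by_contra h0
    exact hne (key i hi h0).symm
  · refine Finset.sum_eq_zero fun i hi => ?_
    by_contra h0
    exact h (key i hi h0 ▸ hi)

theorem cm_congr {x y : ℕ → ℝ} (h : ∀ p, p.Prime → x p = y p) (n : ℕ) : cm x n = cm y n :=
  Finsupp.prod_congr fun p hp => by rw [h p (Nat.prime_of_mem_primeFactors hp)]

theorem lt_uu {b : ℕ} {w : ℝ → ℝ} (hw : Wt b w) {T : ℝ} {n : ℕ}
    (h0 : cm (aw w T) n ≠ 0) {p : ℕ} (hp : p ∈ n.primeFactors) : 1 / (b : ℝ) < uu T p := by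
  by_contra h
  refine h0 (Finset.prod_eq_zero (i := p) hp ?_)
  have hk : n.factorization p ≠ 0 := Finsupp.mem_support_iff.1 hp
  simp only [aw, hw.zero _ (not_lt.1 h), neg_zero, zero_div]
  exact zero_pow hk

theorem aw_sq_le {b : ℕ} {w : ℝ → ℝ} (hw : Wt b w) (T : ℝ) (p : ℕ) : aw w T p ^ 2 ≤ 1 / p := by
  rw [aw, div_pow, neg_sq, Real.sq_sqrt (Nat.cast_nonneg p)]
  gcongr
  exact pow_le_one₀ (hw.nonneg _) (hw.le_one _)

end WtAux

open WtAux

theorem exists_wt {b : ℕ} (hb : 4 ≤ b) : ∃ w, Wt b w := by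
  have hb' : (4 : ℝ) ≤ b := by exact_mod_cast hb
  have hb0 : (0 : ℝ) < b := by linarith only [hb']
  obtain ⟨a, ha⟩ : ∃ a : ℝ, a = 1 / b := ⟨_, rfl⟩
  have ha0 : 0 < a := by rw [ha]; positivity
  have hab : a * b = 1 := by rw [ha]; field_simp
  have ha4 : a ≤ 1 / 4 := by nlinarith only [hab, hb', ha0]
  obtain ⟨h, hh⟩ : ∃ h : ℝ, h = 1 / (b : ℝ) ^ 2 := ⟨_, rfl⟩
  have hha : h = a ^ 2 := by rw [hh, ha]; field_simp
  have hh0 : 0 < h := by rw [hha]; positivity
  have hhb : h * b = a := by rw [hha, sq, mul_assoc, hab, mul_one]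
  have hhb2 : h * b ^ 2 = 1 := by rw [sq, ← mul_assoc, hhb, hab]
  obtain ⟨β, hβc, hβ0, hβ1, hβs, hβi⟩ := exists_beta hh0 (by nlinarith only [hha, ha0, ha4])
  have hbb : b + 1 ≤ b ^ 2 := by nlinarith only [hb]
  have hJ : ((b ^ 2 - 1 : ℕ) : ℝ) = (b : ℝ) ^ 2 - 1 := by
    rw [Nat.cast_sub (by omega)]; push_cast; ring
  obtain ⟨s, hs⟩ : ∃ s, s = Finset.Icc (b + 1) (b ^ 2 - 1) := ⟨_, rfl⟩
  have hs1 : ∀ i ∈ s, b + 1 ≤ i ∧ i ≤ b ^ 2 - 1 := fun i hi => by rwa [hs, Finset.mem_Icc] at hi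
  have hs2 : ∀ i ∈ s, 1 ≤ i := fun i hi => by have := (hs1 i hi).1; omega
  have hsup : ∀ i ∈ s, ∀ u, β (u / h - i) ≠ 0 → ((i : ℝ) - 1) * h < u ∧ u ≤ i * h ∧ a < u :=
    fun i hi u h0 => by
      obtain ⟨h1, h2⟩ := hβs _ h0
      have h3 : (b : ℝ) + 1 ≤ i := by exact_mod_cast (hs1 i hi).1
      rw [lt_sub_iff_add_lt, lt_div_iff₀ hh0] at h1
      rw [sub_nonpos, div_le_iff₀ hh0] at h2
      refine ⟨by linarith only [h1], h2, ?_⟩
      nlinarith only [h1, h3, hh0, hhb]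
  obtain ⟨w, hw⟩ : ∃ w : ℝ → ℝ, w = fun u => ∑ i ∈ s, β (u / h - i) := ⟨_, rfl⟩
  have hwc : ContDiff ℝ 1 w := by
    rw [hw]
    exact ContDiff.sum fun i _ => (hβc.of_le (by norm_num)).comp (by fun_prop)
  have hw0 : ∀ u, 0 ≤ w u := fun u => hw ▸ Finset.sum_nonneg fun i _ => hβ0 _
  have hwe : ∀ u, w u = if ⌈u / h⌉₊ ∈ s then β (u / h - ⌈u / h⌉₊) else 0 := fun u =>
    hw ▸ sum_eq hβs hs2 _
  have hw1 : ∀ u, w u ≤ 1 := fun u => by
    rw [hwe]
    split_ifs
    · exact hβ1 _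
    · exact zero_le_one
  have hwz : ∀ u, u ≤ a → w u = 0 := fun u hu => by
    rw [hw]
    refine Finset.sum_eq_zero fun i hi => ?_
    by_contra h0
    exact absurd (hsup i hi u h0).2.2 hu.not_gt
  have hwc0 := hwc.continuous
  have hI1 : ∫ u in (0 : ℝ)..1, (1 - w u) < a + 3 * a ^ 2 := by
    have e1 : ∫ u in (0 : ℝ)..1, w u = ((b : ℝ) ^ 2 - 1 - b) * (h * ∫ x, β x) := by
      rw [hw]
      have hc := hβc.continuous
      rw [intervalIntegral.integral_finsetSum fun i _ =>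
        Continuous.intervalIntegrable (by fun_prop) _ _,
        Finset.sum_congr rfl fun i hi => cell_integral hβs hh0 (by exact_mod_cast hs2 i hi) (by
          have h3 : (i : ℝ) ≤ (b : ℝ) ^ 2 - 1 := by rw [← hJ]; exact_mod_cast (hs1 i hi).2
          nlinarith only [h3, hh0, hhb2]),
        Finset.sum_const, hs, Nat.card_Icc, nsmul_eq_mul, smul_eq_mul,
        show b ^ 2 - 1 + 1 - (b + 1) = b ^ 2 - (b + 1) by omega, Nat.cast_sub hbb]
      push_cast; ring
    rw [intervalIntegral.integral_sub (by simp) (hwc0.intervalIntegrable _ _), e1,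
      intervalIntegral.integral_const, ← mul_assoc,
      show ((b : ℝ) ^ 2 - 1 - b) * h = 1 - a ^ 2 - a by linarith only [hhb2, hhb, hha]]
    rw [hha] at hβi
    have h3 : 0 ≤ 1 - a ^ 2 - a := by nlinarith only [ha0, ha4]
    have h4 := mul_le_mul_of_nonneg_left hβi h3
    have h5 : 0 < a ^ 2 * (a ^ 2 + a) := by positivity
    simp only [sub_zero, smul_eq_mul, mul_one]
    nlinarith only [h4, h5]
  have hI2 : ∫ u in (0 : ℝ)..1, u * (1 - w u) < 4 * a ^ 2 := by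
    have h1 : ∫ u in (0 : ℝ)..a, (1 - u) * (1 - w u) ≤ ∫ u in (0 : ℝ)..1, (1 - u) * (1 - w u) :=
      intervalIntegral.integral_mono_interval le_rfl ha0.le (by linarith only [ha4])
        (ae_restrict_of_forall_mem measurableSet_Ioc fun u hu =>
          mul_nonneg (sub_nonneg.2 hu.2) (sub_nonneg.2 (hw1 u)))
        (Continuous.intervalIntegrable (by fun_prop) _ _)
    have h2 : ∫ _ in (0 : ℝ)..a, (1 - a) ≤ ∫ u in (0 : ℝ)..a, (1 - u) * (1 - w u) :=
      intervalIntegral.integral_mono_on ha0.le (by simp)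
        (Continuous.intervalIntegrable (by fun_prop) _ _) fun u hu => by
          rw [hwz u hu.2]; linarith only [hu.2]
    have h3 : ∫ u in (0 : ℝ)..1, u * (1 - w u) =
        (∫ u in (0 : ℝ)..1, (1 - w u)) - ∫ u in (0 : ℝ)..1, (1 - u) * (1 - w u) := by
      rw [← intervalIntegral.integral_sub (Continuous.intervalIntegrable (by fun_prop) _ _)
        (Continuous.intervalIntegrable (by fun_prop) _ _)]
      exact intervalIntegral.integral_congr fun u _ => by ring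
    rw [intervalIntegral.integral_const, sub_zero, smul_eq_mul] at h2
    nlinarith only [h1, h2, h3, hI1]
  refine ⟨w, hw0, hw1, fun u hu => hwz u (ha ▸ hu), ?_, ?_, fun μ _ hμ => ?_⟩
  · refine (tendsto_prime_sum (F := fun u => 1 - w u) (contDiff_const.sub hwc)).eventually_le_const
      (hI1.trans_le ?_)
    rw [show 3 / (b : ℝ) = 3 * a by rw [ha]; ring]
    nlinarith only [ha0, ha4]
  · refine (tendsto_prime_sum (F := fun u => u * (1 - w u))
      (contDiff_id.mul (contDiff_const.sub hwc))).eventually_le_const (hI2.trans_eq ?_)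
    rw [← hha, hh]; ring
  obtain ⟨φ, hφ⟩ : ∃ φ : ℕ → ℝ → ℝ, φ = fun i u => if i ∈ s then -β (u / h - i) / u else 0 :=
    ⟨_, rfl⟩
  have hC : Cells (b ^ 2 - 1) h a b φ := by
    refine ⟨hh0, by rw [hJ]; linarith only [hhb2, hh0], ha0, fun i => ?_, fun i u hu => ?_,
      fun i u => ?_⟩
    · rw [hφ]
      by_cases hi : i ∈ s
      · simp only [hi, if_true]
        refine contDiff_iff_contDiffAt.2 fun u => ?_
        by_cases hu : u = 0
        · refine (contDiffAt_const (c := (0 : ℝ))).congr_of_eventuallyEq ?_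
          filter_upwards [Iio_mem_nhds (hu ▸ ha0 : u < a)] with v hv
          have : β (v / h - i) = 0 := by
            by_contra h0
            exact absurd (hsup i hi v h0).2.2 (not_lt.2 (le_of_lt hv))
          rw [this, neg_zero, zero_div]
        · exact (hβc.comp (by fun_prop)).neg.contDiffAt.div contDiffAt_id hu
      · simp only [hi, if_false]
        exact contDiff_const
    · rw [hφ] at hu
      by_cases hi : i ∈ s
      · simp only [hi, if_true] at hu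
        obtain ⟨h1, h2, h3⟩ := hsup i hi u fun h0 => hu (by rw [h0, neg_zero, zero_div])
        exact ⟨h1, h2, h3.le, (hs1 i hi).2⟩
      · simp only [hi, if_false] at hu
        exact absurd rfl hu
    · rw [hφ]
      by_cases hi : i ∈ s
      · simp only [hi, if_true]
        by_cases h0 : β (u / h - i) = 0
        · rw [h0, neg_zero, zero_div, abs_zero]; exact hb0.le
        · have h3 := (hsup i hi u h0).2.2
          have h4 := ha0.trans h3
          rw [abs_div, abs_neg, abs_of_nonneg (hβ0 _), abs_of_pos h4, div_le_iff₀ h4]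
          nlinarith only [hβ1 (u / h - i), h3, hab, hb0]
      · simp only [hi, if_false, abs_zero]
        exact hb0.le
  obtain ⟨K, hK, hres⟩ := hC.norm_res_le_Sd hμ fun j => if j ≤ b ^ 2 - 2 * b then 1 else 0
  refine ⟨K, hK, ?_⟩
  filter_upwards [hres, eventually_gt_atTop 1] with T hres hT t ht
  have hL := Real.log_pos hT
  have hal : ∀ p, p.Prime → al φ h T p = aw w T p := fun p hp => by
    have hl : 0 < Real.log p := Real.log_pos (by exact_mod_cast hp.one_lt)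
    rw [al, aw, hwe, hφ, jj]
    simp only [uu]
    split_ifs
    · field_simp
    · simp
  have e : Gm b w T t 0 =
      res (b ^ 2 - 1) (fun j => if j ≤ b ^ 2 - 2 * b then 1 else 0) φ h T t := by
    rw [Gm, Gy, res, Nset, Finset.sum_filter, Finset.sum_filter, ← hh]
    refine Finset.sum_congr rfl fun n _ => ?_
    rw [cm_congr hal]
    by_cases h1 : sz (jj h T) n ≤ b ^ 2 - 2 * b
    · rw [if_pos h1, if_pos h1, if_pos (by omega)]
      simp
    · rw [if_neg h1, if_neg h1]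
      simp
  rw [e]
  refine (hres t ht).trans (mul_le_mul_of_nonneg_left ?_ hK)
  exact pow_le_pow_right₀ (by linarith only [Sd_nonneg μ T t]) (Nat.sub_le _ _)

theorem mem_Nset_le {b : ℕ} (hb : 4 ≤ b) {T : ℝ} (hT : 1 < T) {n : ℕ} (hn : n ∈ Nset b T) :
    1 ≤ n ∧ uu T n ≤ 1 - 2 / b ∧ (n : ℝ) ≤ T ^ (1 - 2 / (b : ℝ)) := by
  have hb0 : (0 : ℝ) < b := by exact_mod_cast (by omega : 0 < b)
  have hL := Real.log_pos hT
  rw [Nset, Finset.mem_filter, Finset.mem_Icc] at hn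
  obtain ⟨⟨h1, -⟩, h2⟩ := hn
  have hh : (0 : ℝ) < 1 / (b : ℝ) ^ 2 := by positivity
  have h3 := log_le_sz (j := jj (1 / (b : ℝ) ^ 2) T) (c := 1 / (b : ℝ) ^ 2 * Real.log T)
    (fun p _ => by
      have := Nat.le_ceil (Real.log p / Real.log T / (1 / (b : ℝ) ^ 2))
      rw [div_le_iff₀ hh, div_le_iff₀ hL] at this
      unfold jj; linarith only [this]) n
  have h4 : (sz (jj (1 / (b : ℝ) ^ 2) T) n : ℝ) ≤ (b : ℝ) ^ 2 - 2 * b := by
    have h5 : 2 * b ≤ b ^ 2 := by nlinarith only [hb]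
    have h6 : ((b ^ 2 - 2 * b : ℕ) : ℝ) = (b : ℝ) ^ 2 - 2 * b := by
      rw [Nat.cast_sub h5]; push_cast; ring
    rw [← h6]; exact_mod_cast h2
  have h5 : Real.log n ≤ (1 - 2 / b) * Real.log T :=
    h3.trans ((mul_le_mul_of_nonneg_left h4 (by positivity)).trans_eq (by field_simp))
  refine ⟨h1, (div_le_iff₀ hL).2 h5, ?_⟩
  have hn0 : (0 : ℝ) < n := by exact_mod_cast h1
  rwa [← Real.log_le_log_iff hn0 (by positivity), Real.log_rpow (by linarith only [hT])]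

theorem Wt.mem_Nset {b : ℕ} {w : ℝ → ℝ} (hw : Wt b w) (hb : 4 ≤ b) {T : ℝ} (hT : 1 < T) {n : ℕ}
    (hn : n ≠ 0) (h0 : cm (aw w T) n ≠ 0) (hu : uu T n ≤ 1 - 3 / b) : n ∈ Nset b T := by
  have hb0 : (0 : ℝ) < b := by exact_mod_cast (by omega : 0 < b)
  have hL := Real.log_pos hT
  have hn0 : (0 : ℝ) < n := by exact_mod_cast Nat.pos_of_ne_zero hn
  rw [Nset, Finset.mem_filter, Finset.mem_Icc]
  refine ⟨⟨Nat.pos_of_ne_zero hn, Nat.le_floor ?_⟩, ?_⟩
  · have h1 : uu T n ≤ 1 := hu.trans (sub_le_self _ (by positivity))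
    rwa [div_le_one hL, Real.log_le_log_iff hn0 (by linarith only [hT])] at h1
  have h1 : (sz (jj (1 / (b : ℝ) ^ 2) T) n : ℝ) ≤ ((b : ℝ) ^ 2 + b) * uu T n := by
    rw [uu, Real.log_nat_eq_sum_factorization, sz, Finsupp.sum, Finsupp.sum, Nat.cast_sum,
      Finset.sum_div, Finset.mul_sum]
    refine Finset.sum_le_sum fun p hp => ?_
    have h2 := lt_uu hw h0 hp
    have h3 : 0 < uu T p := lt_trans (by positivity) h2
    have h4 : (jj (1 / (b : ℝ) ^ 2) T p : ℝ) < uu T p / (1 / (b : ℝ) ^ 2) + 1 :=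
      Nat.ceil_lt_add_one (by positivity)
    rw [div_lt_iff₀ hb0] at h2
    rw [div_div_eq_mul_div, div_one] at h4
    have h5 : (jj (1 / (b : ℝ) ^ 2) T p : ℝ) ≤ ((b : ℝ) ^ 2 + b) * uu T p := by
      linarith only [h2, h4]
    push_cast
    exact (mul_le_mul_of_nonneg_left h5 (Nat.cast_nonneg _)).trans_eq (by rw [uu]; ring)
  have h5 : 2 * b ≤ b ^ 2 := by nlinarith only [hb]
  have h6 : ((b ^ 2 - 2 * b : ℕ) : ℝ) = (b : ℝ) ^ 2 - 2 * b := by
    rw [Nat.cast_sub h5]; push_cast; ring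
  have h7 : ((b : ℝ) ^ 2 + b) * (1 - 3 / b) = (b : ℝ) ^ 2 - 2 * b - 3 := by field_simp; ring
  have h8 := mul_le_mul_of_nonneg_left hu (show 0 ≤ (b : ℝ) ^ 2 + b by positivity)
  rw [← Nat.cast_le (α := ℝ), h6]
  linarith only [h1, h7, h8]

theorem Nset_dvd {b : ℕ} {T : ℝ} {m n : ℕ} (hn : n ∈ Nset b T) (h : m ∣ n) : m ∈ Nset b T := by
  rw [Nset, Finset.mem_filter, Finset.mem_Icc] at hn ⊢
  obtain ⟨⟨h1, h2⟩, h3⟩ := hn
  have h4 := Nat.le_of_dvd h1 h
  obtain ⟨k, rfl⟩ := h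
  have hm : m ≠ 0 := by rintro rfl; simp at h1
  have hk : k ≠ 0 := by rintro rfl; simp at h1
  rw [sz_mul _ hm hk] at h3
  exact ⟨⟨Nat.pos_of_ne_zero hm, h4.trans h2⟩, (Nat.le_add_right _ _).trans h3⟩

theorem Wt.rough {b : ℕ} {w : ℝ → ℝ} (hw : Wt b w) {T : ℝ} (hT : 1 < T) {n : ℕ}
    (h0 : cm (aw w T) n ≠ 0) {p : ℕ} (hp : p ∈ n.primeFactors) : T ^ (1 / (b : ℝ)) < p := by
  have h1 := lt_uu hw h0 hp
  have hp0 : (0 : ℝ) < p := by exact_mod_cast (Nat.prime_of_mem_primeFactors hp).pos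
  rw [lt_div_iff₀ (Real.log_pos hT)] at h1
  rwa [← Real.log_lt_log_iff (by positivity) hp0, Real.log_rpow (by linarith only [hT])]

theorem Wt.sq_le {b : ℕ} {w : ℝ → ℝ} (hw : Wt b w) (T : ℝ) {n : ℕ} (hn : n ≠ 0) :
    cm (aw w T) n ^ 2 ≤ 1 / n := by
  induction n using induction_on_primes with
  | zero => exact absurd rfl hn
  | one => simp
  | prime_mul p a hp ih =>
    have ha : a ≠ 0 := by rintro rfl; simp at hn
    rw [cm_mul _ hp.ne_zero ha, cm_prime _ hp, mul_pow, Nat.cast_mul, ← one_div_mul_one_div]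
    exact mul_le_mul (aw_sq_le hw T p) (ih ha) (sq_nonneg _) (by positivity)

theorem measurable_Gm (b : ℕ) (w : ℝ → ℝ) (T : ℝ) :
    Measurable fun p : ℝ × ℝ => Gm b w T p.1 p.2 := by
  refine Continuous.measurable ?_
  unfold Gm Gy
  fun_prop

theorem Wt.gro {b : ℕ} {w : ℝ → ℝ} (hw : Wt b w) (μ : Measure ℝ) :
    Gro μ (fun T t => Gm b w T t 0) ∧
      ∀ c, Gro μ fun T t => Gm b w T (t + c / lam T) 0 := by
  have key : ∀ᶠ T : ℝ in atTop, ∀ t, ‖Gm b w T t 0‖ ≤ 1 * T := by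
    filter_upwards [eventually_ge_atTop 0] with T hT t
    rw [Gm, Gy]
    refine (norm_sum_le _ _).trans ((Finset.sum_le_card_nsmul _ _ 1 fun n hn => ?_).trans ?_)
    · have hn1 : 1 ≤ n := (Finset.mem_Icc.1 (Finset.mem_filter.1 hn).1).1
      have h1 : cm (aw w T) n ^ 2 ≤ 1 := (hw.sq_le T (by omega)).trans
        (div_le_one_of_le₀ (by exact_mod_cast hn1) (Nat.cast_nonneg _))
      rw [norm_mul, norm_ch, mul_one, mul_zero, neg_zero, Real.exp_zero, mul_one, norm_real,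
        Real.norm_eq_abs]
      exact (sq_le_one_iff_abs_le_one _).1 h1
    · have h1 : (Nset b T).card ≤ ⌊T⌋₊ := (Finset.card_filter_le _ _).trans_eq (by simp)
      rw [nsmul_eq_mul, mul_one, one_mul]
      exact (Nat.cast_le.2 h1).trans (Nat.floor_le hT)
  refine ⟨Gro.of_lin (fun T => ?_) zero_le_one key,
    fun c => Gro.of_lin (fun T => ?_) zero_le_one (key.mono fun T h t => h _)⟩
  · exact (measurable_Gm b w T).comp (f := fun t : ℝ => (t, (0 : ℝ))) (by fun_prop)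
  · exact (measurable_Gm b w T).comp (f := fun t : ℝ => (t + c / lam T, (0 : ℝ))) (by fun_prop)

end Pool.Agent.P.MP_7eacff_nt.Rig
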