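import Pool.Agent.Lib.Mertens.Second
import Pool.Agent.P.MP_7eacff_nt.Rig.Sm
import Pool.Agent.P.MP_7eacff_nt.Rig.Wt

/-!
Sums over primes and prime powers.
-/

open Complex Filter Topology MeasureTheory Set ArithmeticFunction
open scoped Real ENNReal ComplexConjugate

namespace Pool.Agent.P.MP_7eacff_nt.Rig

namespace SumsAux

theorem uu_le_iff {T y : ℝ} (hT : 1 < T) {n : ℕ} (hn : 1 ≤ n) : uu T n ≤ y ↔ (n : ℝ) ≤ T ^ y := by
  have hT0 : 0 < T := by linarith
  have h1 : (0 : ℝ) < n := by exact_mod_cast hn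
  rw [uu, div_le_iff₀ (Real.log_pos hT), ← Real.log_rpow hT0,
    Real.log_le_log_iff h1 (by positivity)]

theorem uu_mem {T : ℝ} (hT : 1 < T) {n : ℕ} (hn : n ∈ Finset.Icc 1 ⌊T⌋₊) :
    uu T n ∈ Icc (0 : ℝ) 1 := by
  rw [Finset.mem_Icc] at hn
  refine ⟨div_nonneg (Real.log_natCast_nonneg n) (Real.log_pos hT).le, ?_⟩
  rw [uu_le_iff hT hn.1, Real.rpow_one]
  exact (Nat.le_floor_iff (by linarith)).1 hn.2

theorem mem_iff {T y : ℝ} (hT : 1 < T) (hy : y ≤ 1) (n : ℕ) :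
    n ∈ Finset.Ioc 0 ⌊T ^ y⌋₊ ↔ n ∈ Finset.Icc 1 ⌊T⌋₊ ∧ uu T n ≤ y := by
  have hT0 : 0 < T := by linarith
  have hTy : T ^ y ≤ T := by simpa using Real.rpow_le_rpow_of_exponent_le hT.le hy
  simp only [Finset.mem_Icc, Finset.mem_Ioc]
  constructor
  · rintro ⟨h1, h2⟩
    have h3 : (n : ℝ) ≤ T ^ y := (Nat.le_floor_iff (by positivity)).1 h2
    exact ⟨⟨h1, Nat.le_floor (h3.trans hTy)⟩, (uu_le_iff hT h1).2 h3⟩
  · rintro ⟨⟨h1, _⟩, h2⟩
    exact ⟨h1, Nat.le_floor ((uu_le_iff hT h1).1 h2)⟩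

theorem cm_nonneg {x : ℕ → ℝ} (h0 : ∀ p, p.Prime → 0 ≤ x p) (n : ℕ) : 0 ≤ cm x n :=
  Finset.prod_nonneg fun p hp => pow_nonneg (h0 p (Nat.prime_of_mem_primeFactors hp)) _

theorem cm_sq (x : ℕ → ℝ) (n : ℕ) : cm x n ^ 2 = cm (fun p => x p ^ 2) n := by
  rw [cm, cm, Finsupp.prod, Finsupp.prod, ← Finset.prod_pow]
  exact Finset.prod_congr rfl fun p _ => by ring

theorem aw_sq (w : ℝ → ℝ) (T : ℝ) (p : ℕ) : aw w T p ^ 2 = w (uu T p) ^ 2 / p := by
  rw [aw, div_pow, neg_sq, Real.sq_sqrt (Nat.cast_nonneg p)]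

theorem ev_div (C : ℝ) {ε : ℝ} (hε : 0 < ε) : ∀ᶠ T : ℝ in atTop, C / Real.log T ≤ ε :=
  ((tendsto_const_nhds (x := C)).div_atTop Real.tendsto_log_atTop).eventually
    (eventually_le_nhds hε)

theorem log_four : Real.log 4 + 4 ≤ 6 := by
  have h := Real.log_two_lt_d9
  have : Real.log 4 = 2 * Real.log 2 := by
    rw [show (4 : ℝ) = 2 ^ 2 by norm_num, Real.log_pow]; norm_num
  linarith

end SumsAux

open SumsAux

theorem sum_cm_le {x : ℕ → ℝ} (h0 : ∀ p, p.Prime → 0 ≤ x p) (h1 : ∀ p, p.Prime → x p ≤ 1 / 2)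
    (N : ℕ) : ∑ n ∈ Finset.Icc 1 N, cm x n ≤
      Real.exp (∑ p ∈ Finset.Icc 1 N with p.Prime, (x p + 2 * x p ^ 2)) := by
  let f : ℕ →* ℝ :=
    { toFun := fun n => if n = 0 then 0 else cm x n
      map_one' := by simp
      map_mul' := fun m n => by
        rcases eq_or_ne m 0 with rfl | hm
        · simp
        rcases eq_or_ne n 0 with rfl | hn
        · simp
        simp [hm, hn, cm_mul x hm hn] }
  have hf : ∀ n, n ≠ 0 → f n = cm x n := fun n hn => if_neg hn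
  have hf0 : ∀ n, 0 ≤ f n := fun n => by
    rcases eq_or_ne n 0 with rfl | hn
    · have h : f 0 = 0 := by simp [f]
      exact h.ge
    · rw [hf n hn]; exact cm_nonneg h0 n
  have hp : ∀ p : ℕ, p.Prime → f p = x p := fun p hp => by rw [hf p hp.ne_zero, cm_prime x hp]
  have hs := (EulerProduct.summable_and_hasSum_smoothNumbers_prod_primesBelow_geometric (f := f)
    (fun {p} h => by
      rw [hp p h, Real.norm_of_nonneg (h0 p h)]; linarith [h1 p h]) (N + 1)).2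
  have hs' := hasSum_subtype_iff_indicator.1 hs
  have h2 := sum_le_hasSum (Finset.Icc 1 N)
    (fun n _ => Set.indicator_nonneg (f := fun n => f n) (fun n _ => hf0 n) n) hs'
  have e : ∑ n ∈ Finset.Icc 1 N, cm x n =
      ∑ n ∈ Finset.Icc 1 N, ((N + 1).smoothNumbers).indicator f n := by
    refine Finset.sum_congr rfl fun n hn => ?_
    rw [Finset.mem_Icc] at hn
    rw [Set.indicator_of_mem (Nat.mem_smoothNumbers_of_lt hn.1 (by omega)), hf n (by omega)]
  have e2 : (N + 1).primesBelow = (Finset.Icc 1 N).filter Nat.Prime := by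
    ext p
    simp only [Nat.mem_primesBelow, Finset.mem_filter, Finset.mem_Icc]
    exact ⟨fun h => ⟨⟨h.2.one_le, by omega⟩, h.2⟩, fun h => ⟨by omega, h.2⟩⟩
  rw [e, Real.exp_sum]
  refine h2.trans ?_
  rw [e2]
  refine Finset.prod_le_prod (fun p h => ?_) fun p h => ?_
  · have h' := (Finset.mem_filter.1 h).2
    rw [hp p h']
    exact inv_nonneg.2 (by linarith [h1 p h'])
  · have h' := (Finset.mem_filter.1 h).2
    have a0 := h0 p h'
    have a1 := h1 p h'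
    rw [hp p h', inv_le_iff_one_le_mul₀ (by linarith)]
    have a2 := Real.add_one_le_exp (x p + 2 * x p ^ 2)
    have a3 : 0 ≤ x p ^ 2 * (1 - 2 * x p) := mul_nonneg (sq_nonneg _) (by linarith)
    nlinarith [mul_le_mul_of_nonneg_right a2 (by linarith : 0 ≤ 1 - x p)]

theorem tendsto_vM_sum {F : ℝ → ℝ} (hF : ContDiff ℝ 1 F) :
    Tendsto (fun T : ℝ => ∑ n ∈ Finset.Icc 1 ⌊T⌋₊, vonMangoldt n / (n * Real.log T) * F (uu T n))
      atTop (𝓝 (∫ u in (0 : ℝ)..1, F u)) := by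
  rw [tendsto_iff_norm_sub_tendsto_zero]
  have hlim : Tendsto (fun T : ℝ => (Real.log 4 + 4) / Real.log T *
      (|F 1| + ∫ u in (0 : ℝ)..1, |deriv F u|)) atTop (𝓝 0) := by
    simpa using (tendsto_const_nhds (x := Real.log 4 + 4).div_atTop
      Real.tendsto_log_atTop).mul_const (|F 1| + ∫ u in (0 : ℝ)..1, |deriv F u|)
  refine squeeze_zero' (Eventually.of_forall fun _ => norm_nonneg _) ?_ hlim
  filter_upwards [eventually_gt_atTop 1] with T hT
  have hL := Real.log_pos hT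
  have hT0 : 0 < T := by linarith
  refine abs_sum_sub_integral_le _ (fun n : ℕ => vonMangoldt n / (n * Real.log T))
    (fun n : ℕ => uu T n) hF (fun n hn => uu_mem hT hn) fun y hy => ?_
  have h2 := Pool.Agent.Lib.Mertens.abs_sum_vonMangoldt_div_sub_log_le
    (Real.one_le_rpow hT.le hy.1)
  rw [Real.log_rpow hT0] at h2
  have e : ∑ n ∈ Finset.Icc 1 ⌊T⌋₊,
      (if uu T n ≤ y then vonMangoldt n / (n * Real.log T) else 0) =
      (∑ n ∈ Finset.Ioc 0 ⌊T ^ y⌋₊, vonMangoldt n / (n : ℝ)) / Real.log T := by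
    rw [← Finset.sum_filter, Finset.sum_div]
    refine Finset.sum_congr ?_ fun p _ => by rw [div_div]
    ext p
    rw [Finset.mem_filter, mem_iff hT hy.2]
  rw [e, div_sub' hL.ne', abs_div, abs_of_pos hL, mul_comm]
  gcongr

theorem tendsto_proper {a : ℝ} (ha : 0 < a) :
    Tendsto (fun T : ℝ => ∑ q ∈ Finset.Icc 1 ⌊T⌋₊ with IsPrimePow q ∧ ¬ q.Prime ∧ a ≤ uu T q,
      (1 : ℝ) / q) atTop (𝓝 0) := by
  have hg := Pool.Agent.Lib.Mertens.summable_nonprime_vonMangoldt_div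
  have h2 : 0 < Real.log 2 := Real.log_pos one_lt_two
  have hlim : Tendsto (fun T : ℝ => ∑ q ∈ Finset.Icc 1 ⌊T⌋₊ with
      IsPrimePow q ∧ ¬ q.Prime ∧ a ≤ uu T q,
      (if q.Prime then 0 else vonMangoldt q) / (q : ℝ)) atTop (𝓝 0) := by
    intro e he
    obtain ⟨s, hs⟩ := hg.vanishing he
    rw [Filter.mem_map]
    filter_upwards [eventually_gt_atTop 1,
      (tendsto_rpow_atTop (half_pos ha)).eventually_ge_atTop ((s.sup id : ℕ) : ℝ)] with T hT h
    refine hs _ (Finset.disjoint_left.2 fun q hq hq' => ?_)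
    simp only [Finset.mem_filter, Finset.mem_Icc] at hq
    have h3 : (q : ℝ) ≤ ((s.sup id : ℕ) : ℝ) := by
      exact_mod_cast Finset.le_sup (f := id) hq'
    have h4 := (uu_le_iff hT hq.1.1).2 (h3.trans h)
    linarith [hq.2.2.2]
  have hlim' := hlim.div_const (Real.log 2)
  rw [zero_div] at hlim'
  refine squeeze_zero (fun T => Finset.sum_nonneg fun q _ => by positivity) (fun T => ?_) hlim'
  rw [Finset.sum_div]
  refine Finset.sum_le_sum fun q hq => ?_
  simp only [Finset.mem_filter, Finset.mem_Icc] at hq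
  have h3 : (0 : ℝ) < q := by exact_mod_cast hq.1.1
  rw [if_neg hq.2.2.1, vonMangoldt_apply, if_pos hq.2.1, div_right_comm]
  gcongr
  rw [le_div_iff₀ h2, one_mul]
  exact Real.log_le_log two_pos (by exact_mod_cast (Nat.minFac_prime hq.2.1.ne_one).two_le)

theorem tendsto_inv_primes {a b : ℝ} (ha : 0 < a) (hab : a ≤ b) (hb : b ≤ 1) :
    Tendsto (fun T : ℝ => ∑ p ∈ Finset.Icc 1 ⌊T⌋₊ with p.Prime ∧ a < uu T p ∧ uu T p ≤ b,
      (1 : ℝ) / p) atTop (𝓝 (Real.log (b / a))) := by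
  obtain ⟨M, C, hC, h⟩ := Pool.Agent.Lib.Mertens.mertens_second
  have hb0 : 0 < b := by linarith
  rw [tendsto_iff_norm_sub_tendsto_zero]
  have hlim : Tendsto (fun T : ℝ => (C / a + C / b) / Real.log T) atTop (𝓝 0) :=
    tendsto_const_nhds.div_atTop Real.tendsto_log_atTop
  refine squeeze_zero' (Eventually.of_forall fun _ => norm_nonneg _) ?_ hlim
  filter_upwards [eventually_gt_atTop 1, (tendsto_rpow_atTop ha).eventually_ge_atTop 2,
    (tendsto_rpow_atTop hb0).eventually_ge_atTop 2] with T hT h1 h2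
  have hL := Real.log_pos hT
  have hT0 : 0 < T := by linarith
  have h3 := h _ h1
  have h4 := h _ h2
  rw [Real.log_rpow hT0, Real.log_mul ha.ne' hL.ne', ← div_div] at h3
  rw [Real.log_rpow hT0, Real.log_mul hb0.ne' hL.ne', ← div_div] at h4
  have hsub : (Finset.Ioc 0 ⌊T ^ a⌋₊).filter Nat.Prime ⊆
      (Finset.Ioc 0 ⌊T ^ b⌋₊).filter Nat.Prime :=
    Finset.filter_subset_filter _ (Finset.Ioc_subset_Ioc_right
      (Nat.floor_le_floor (Real.rpow_le_rpow_of_exponent_le hT.le hab)))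
  have e : (Finset.Icc 1 ⌊T⌋₊).filter (fun p => p.Prime ∧ a < uu T p ∧ uu T p ≤ b) =
      (Finset.Ioc 0 ⌊T ^ b⌋₊).filter Nat.Prime \ (Finset.Ioc 0 ⌊T ^ a⌋₊).filter Nat.Prime := by
    ext p
    simp only [Finset.mem_filter, Finset.mem_sdiff, mem_iff hT hb, mem_iff hT (hab.trans hb)]
    constructor
    · rintro ⟨h5, h6, h7, h8⟩
      exact ⟨⟨⟨h5, h8⟩, h6⟩, fun h9 => absurd h9.1.2 (not_le.2 h7)⟩
    · rintro ⟨⟨⟨h5, h8⟩, h6⟩, h9⟩
      exact ⟨h5, h6, not_le.1 fun h7 => h9 ⟨⟨h5, h7⟩, h6⟩, h8⟩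
  rw [e, Finset.sum_sdiff_eq_sub hsub, Real.log_div hb0.ne' ha.ne', Real.norm_eq_abs, add_div]
  rw [abs_le] at h3 h4 ⊢
  constructor <;> linarith [h3.1, h3.2, h4.1, h4.2]

theorem sum_log_le {T x : ℝ} (hT : 1 < T) (hx : 0 ≤ x) :
    ∑ p ∈ Finset.Icc 1 ⌊T⌋₊ with p.Prime ∧ uu T p ≤ x, Real.log p / (p * Real.log T) ≤
      x + 6 / Real.log T := by
  have hL := Real.log_pos hT
  have hT0 : 0 < T := by linarith
  have h := Pool.Agent.Lib.Mertens.sum_log_div_prime_le (Real.one_le_rpow hT.le hx)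
  rw [Real.log_rpow hT0] at h
  calc _ ≤ ∑ p ∈ (Finset.Ioc 0 ⌊T ^ x⌋₊).filter Nat.Prime, Real.log p / (p * Real.log T) := by
        refine Finset.sum_le_sum_of_subset_of_nonneg (fun p hp => ?_) fun p _ _ =>
          div_nonneg (Real.log_natCast_nonneg p) (by positivity)
        simp only [Finset.mem_filter, Finset.mem_Icc, Finset.mem_Ioc] at hp ⊢
        exact ⟨⟨hp.1.1, Nat.le_floor ((uu_le_iff hT hp.1.1).1 hp.2.2)⟩, hp.2.1⟩
    _ = (∑ p ∈ (Finset.Ioc 0 ⌊T ^ x⌋₊).filter Nat.Prime, Real.log p / p) / Real.log T := by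
        rw [Finset.sum_div]
        exact Finset.sum_congr rfl fun p _ => by rw [div_div]
    _ ≤ (x * Real.log T + 6) / Real.log T := by
        gcongr
        linarith [log_four]
    _ = _ := by field_simp

theorem sm_Psum {φ : ℝ → ℂ} {F : ℝ → ℝ} {θ ρ ε : ℝ} (hF : ContDiff ℝ 1 F) (hθ : θ < 1)
    (hz : ∀ u, θ < u → φ u = 0) (h : ∀ u ∈ Icc (0 : ℝ) 1, u * ‖φ u‖ ^ 2 ≤ F u) (hρ : 0 < ρ)
    (hε : 0 < ε) : ∀ᶠ T in atTop, Sm ρ T (fun t => ENNReal.ofReal (‖Psum φ T t‖ ^ 2))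
      (2 * ((∫ u in (0 : ℝ)..1, F u) + ε)) := by
  filter_upwards [sm_dir hθ hρ, eventually_gt_atTop 1, (tendsto_vM_sum hF).eventually
    (eventually_le_nhds (lt_add_of_pos_right _ hε))] with T h1 hT h2
  have hL := Real.log_pos hT
  have h3 := h1 ((Finset.Icc 1 ⌊T⌋₊).filter fun n => uu T n ≤ θ)
    (fun n => ((vonMangoldt n / (√n * Real.log T) : ℝ) : ℂ) * φ (uu T n)) fun n hn => by
      simp only [Finset.mem_filter, Finset.mem_Icc] at hn
      exact ⟨hn.1.1, (uu_le_iff hT hn.1.1).1 hn.2⟩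
  refine h3.mono (by linarith) le_rfl (fun t _ => le_of_eq ?_) ?_
  · rw [Psum, Finset.sum_filter_of_ne]
    intro n _ hn
    by_contra h4
    exact hn (by rw [hz _ (not_le.1 h4)]; simp)
  · refine mul_le_mul_of_nonneg_left (le_trans ?_ h2) zero_le_two
    refine (Finset.sum_le_sum_of_subset_of_nonneg (Finset.filter_subset _ _)
      fun n _ _ => by positivity).trans (Finset.sum_le_sum fun n hn => ?_)
    have h4 := h _ (uu_mem hT hn)
    have h5 : 0 ≤ vonMangoldt n := vonMangoldt_nonneg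
    have h6 : vonMangoldt n / Real.log T ≤ uu T n := by
      unfold uu
      gcongr
      exact vonMangoldt_le_log
    rw [norm_mul, mul_pow, Complex.norm_real, Real.norm_eq_abs, sq_abs, div_pow, mul_pow,
      Real.sq_sqrt (Nat.cast_nonneg n)]
    calc _ = vonMangoldt n / (n * Real.log T) *
          (vonMangoldt n / Real.log T * ‖φ (uu T n)‖ ^ 2) := by ring
      _ ≤ vonMangoldt n / (n * Real.log T) * (uu T n * ‖φ (uu T n)‖ ^ 2) := by gcongr
      _ ≤ _ := by gcongr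

variable {b : ℕ} {w : ℝ → ℝ}

theorem Wt.sum_prime_le (hw : Wt b w) (hb : 1 ≤ b) : ∀ᶠ T : ℝ in atTop,
    ∑ p ∈ Finset.Icc 1 ⌊T⌋₊ with p.Prime, aw w T p ^ 2 ≤ Real.log b + 1 := by
  have hb' : (1 : ℝ) ≤ b := by exact_mod_cast hb
  have h := tendsto_inv_primes (a := 1 / b) (b := 1) (by positivity)
    ((div_le_one (by linarith)).2 hb') le_rfl
  rw [one_div_one_div] at h
  filter_upwards [h.eventually (eventually_le_nhds (lt_add_one _)), eventually_gt_atTop 1]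
    with T h1 hT
  refine le_trans ?_ h1
  rw [Finset.sum_filter, Finset.sum_filter]
  refine Finset.sum_le_sum fun p hp => ?_
  by_cases h2 : p.Prime
  · rw [if_pos h2, aw_sq]
    by_cases h3 : uu T p ≤ 1 / b
    · rw [hw.zero _ h3, if_neg fun h4 => absurd h3 (not_le.2 h4.2.1)]
      simp
    · rw [if_pos ⟨h2, not_le.1 h3, (uu_mem hT hp).2⟩]
      gcongr
      exact pow_le_one₀ (hw.nonneg _) (hw.le_one _)
  · rw [if_neg h2, if_neg fun h4 => h2 h4.1]

theorem Wt.small (hw : Wt b w) (hb : 1 ≤ b) {ε : ℝ} (hε : 0 < ε) : ∀ᶠ T : ℝ in atTop,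
    ∀ p : ℕ, p.Prime → |aw w T p| ≤ ε := by
  have hb' : (0 : ℝ) < b := by exact_mod_cast hb
  filter_upwards [eventually_gt_atTop 1, (tendsto_rpow_atTop
    (one_div_pos.2 hb')).eventually_ge_atTop (1 / ε ^ 2)] with T hT h1 p hp
  refine abs_le_of_sq_le_sq' ?_ hε.le |> abs_le.2
  rw [aw_sq]
  by_cases h3 : uu T p ≤ 1 / b
  · rw [hw.zero _ h3]
    simpa using sq_nonneg ε
  · rw [uu_le_iff hT hp.one_le, not_le] at h3
    have h4 : (0 : ℝ) < p := by exact_mod_cast hp.pos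
    have h5 := h1.trans h3.le
    rw [div_le_iff₀ (by positivity)] at h5
    rw [div_le_iff₀ h4]
    have h6 : w (uu T p) ^ 2 ≤ 1 := pow_le_one₀ (hw.nonneg _) (hw.le_one _)
    linarith

theorem Wt.total_le (hw : Wt b w) (hb : 1 ≤ b) : ∀ᶠ T : ℝ in atTop,
    ∑ n ∈ Finset.Icc 1 ⌊T⌋₊, cm (aw w T) n ^ 2 ≤ 8 * b := by
  have hb' : (1 : ℝ) ≤ b := by exact_mod_cast hb
  have hL := Real.log_nonneg hb'
  have hε : 0 < 1 / (2 * (Real.log b + 1)) := by positivity
  have hε' : 1 / (2 * (Real.log b + 1)) ≤ 1 / 2 := by gcongr; linarith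
  filter_upwards [hw.sum_prime_le hb, hw.small hb hε] with T h1 h2
  have h3 : ∀ p : ℕ, p.Prime → aw w T p ^ 2 ≤ 1 / (2 * (Real.log b + 1)) := fun p hp => by
    have h4 := h2 p hp
    rw [← sq_abs]
    nlinarith [abs_nonneg (aw w T p)]
  simp_rw [cm_sq]
  refine (sum_cm_le (fun p _ => sq_nonneg _) (fun p hp => (h3 p hp).trans hε') _).trans ?_
  have h4 : ∑ p ∈ Finset.Icc 1 ⌊T⌋₊ with p.Prime, (aw w T p ^ 2 + 2 * (aw w T p ^ 2) ^ 2) ≤
      Real.log b + 2 := by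
    calc _ ≤ ∑ p ∈ Finset.Icc 1 ⌊T⌋₊ with p.Prime,
          (1 + 2 * (1 / (2 * (Real.log b + 1)))) * aw w T p ^ 2 := by
          refine Finset.sum_le_sum fun p hp => ?_
          nlinarith [mul_le_mul_of_nonneg_right (h3 p (Finset.mem_filter.1 hp).2)
            (sq_nonneg (aw w T p))]
      _ ≤ (1 + 2 * (1 / (2 * (Real.log b + 1)))) * (Real.log b + 1) := by
          rw [← Finset.mul_sum]
          gcongr
      _ = _ := by field_simp; ring
  refine (Real.exp_le_exp.2 h4).trans ?_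
  have h5 : Real.exp 2 ≤ 8 := by
    have h6 := Real.exp_one_lt_d9
    have h7 : Real.exp 2 = Real.exp 1 * Real.exp 1 := by rw [← Real.exp_add]; norm_num
    nlinarith [Real.exp_pos 1]
  rw [Real.exp_add, Real.exp_log (by linarith), mul_comm]
  gcongr

theorem Wt.discrepancy (hw : Wt b w) (hb : 1 ≤ b) : ∀ᶠ T : ℝ in atTop, ∀ x ∈ Icc (0 : ℝ) 1,
    |∑ k ∈ Finset.Icc 1 ⌊T ^ x⌋₊, vonMangoldt k * cm (aw w T) k ^ 2 / Real.log T - x| ≤
      7 / b := by
  obtain ⟨C, hC, h⟩ := Pool.Agent.Lib.Mertens.exists_abs_sum_log_div_prime_sub_log_le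
  have hb' : (0 : ℝ) < 1 / b := one_div_pos.2 (by exact_mod_cast hb)
  filter_upwards [hw.s1, eventually_gt_atTop 1, ev_div C hb', ev_div (Real.log 4 + 4) hb']
    with T h1 hT h2 h3 x hx
  have hL := Real.log_pos hT
  have hT0 : 0 < T := by linarith
  have hx1 := Real.one_le_rpow hT.le hx.1
  have e7 : (7 : ℝ) / b = 7 * (1 / b) := by ring
  have e3 : (3 : ℝ) / b = 3 * (1 / b) := by ring
  have eI : Finset.Icc 1 ⌊T ^ x⌋₊ = Finset.Ioc 0 ⌊T ^ x⌋₊ := rfl
  have ex : ∀ A B : ℝ, |A - x * Real.log T| ≤ B → |A / Real.log T - x| ≤ B / Real.log T := by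
    intro A B hA
    rw [div_sub' hL.ne', abs_div, abs_of_pos hL, mul_comm]
    gcongr
  have h4 := h _ hx1
  have h5 := Pool.Agent.Lib.Mertens.abs_sum_vonMangoldt_div_sub_log_le hx1
  rw [Real.log_rpow hT0] at h4 h5
  have h6 := (abs_le.1 (ex _ _ h4)).1
  have h7 := (abs_le.1 (ex _ _ h5)).2
  have hup : ∑ k ∈ Finset.Ioc 0 ⌊T ^ x⌋₊, vonMangoldt k * cm (aw w T) k ^ 2 / Real.log T ≤
      (∑ k ∈ Finset.Ioc 0 ⌊T ^ x⌋₊, vonMangoldt k / (k : ℝ)) / Real.log T := by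
    rw [Finset.sum_div]
    refine Finset.sum_le_sum fun k hk => ?_
    have h8 := hw.sq_le T (Finset.mem_Ioc.1 hk).1.ne'
    have h9 : 0 ≤ vonMangoldt k := vonMangoldt_nonneg
    rw [div_eq_mul_one_div (vonMangoldt k) (k : ℝ)]
    gcongr
  have hlo : (∑ p ∈ (Finset.Ioc 0 ⌊T ^ x⌋₊).filter Nat.Prime, Real.log p / p) / Real.log T -
      2 * ∑ p ∈ (Finset.Ioc 0 ⌊T ^ x⌋₊).filter Nat.Prime,
        Real.log p / (p * Real.log T) * (1 - w (uu T p)) ≤
      ∑ k ∈ Finset.Ioc 0 ⌊T ^ x⌋₊, vonMangoldt k * cm (aw w T) k ^ 2 / Real.log T := by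
    refine le_trans ?_ (Finset.sum_le_sum_of_subset_of_nonneg (Finset.filter_subset Nat.Prime _)
      fun k _ _ => div_nonneg (mul_nonneg vonMangoldt_nonneg (sq_nonneg _)) hL.le)
    rw [Finset.sum_div, Finset.mul_sum, ← Finset.sum_sub_distrib]
    refine Finset.sum_le_sum fun p hp => ?_
    have hp' := (Finset.mem_filter.1 hp).2
    have h8 : 0 ≤ Real.log p / (p * Real.log T) :=
      div_nonneg (Real.log_natCast_nonneg p) (by positivity)
    rw [vonMangoldt_apply_prime hp', cm_prime _ hp', aw_sq]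
    calc _ = Real.log p / (p * Real.log T) * (1 - 2 * (1 - w (uu T p))) := by ring
      _ ≤ Real.log p / (p * Real.log T) * w (uu T p) ^ 2 := by
          gcongr
          nlinarith [sq_nonneg (w (uu T p) - 1)]
      _ = _ := by ring
  have hs : ∑ p ∈ (Finset.Ioc 0 ⌊T ^ x⌋₊).filter Nat.Prime,
      Real.log p / (p * Real.log T) * (1 - w (uu T p)) ≤ 3 / b := by
    refine le_trans (Finset.sum_le_sum_of_subset_of_nonneg (Finset.filter_subset_filter _
      fun p hp => ((mem_iff hT hx.2 p).1 hp).1) fun p _ _ => ?_) h1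
    exact mul_nonneg (div_nonneg (Real.log_natCast_nonneg p) (by positivity))
      (sub_nonneg.2 (hw.le_one _))
  rw [eI, abs_le]
  constructor <;> linarith

theorem Wt.sm_Gm (hw : Wt b w) (hb : 4 ≤ b) {ρ : ℝ} (hρ : 0 < ρ) : ∀ᶠ T : ℝ in atTop, ∀ y,
    Sm ρ T (fun t => ENNReal.ofReal (‖Gm b w T t y‖ * wt y)) (17 * b) := by
  have hb' : (4 : ℝ) ≤ b := by exact_mod_cast hb
  have hθ : 1 - 2 / (b : ℝ) < 1 := sub_lt_self _ (by positivity)
  filter_upwards [sm_dir hθ hρ, eventually_gt_atTop 1, hw.total_le (by omega)] with T h1 hT h2 y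
  have hT0 : 0 ≤ T := by linarith
  have hwt : 0 < wt y := Real.exp_pos _
  have h3 := h1 (Nset b T)
    (fun n => ((cm (aw w T) n * Real.exp (-(2 * π * uu T n * y)) * wt y : ℝ) : ℂ)) fun n hn =>
      ⟨(mem_Nset_le hb hT hn).1, (mem_Nset_le hb hT hn).2.2⟩
  have h4 := h3.add (Sm.const hρ.le hT0 (a := 1 / 4) (by norm_num)) hT0 measurable_const
    (by positivity) (by norm_num)
  refine h4.mono hT0 le_rfl (fun t _ => ?_) ?_
  · rw [← ENNReal.ofReal_add (by positivity) (by norm_num)]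
    refine ENNReal.ofReal_le_ofReal ?_
    have e : ∑ n ∈ Nset b T, ((cm (aw w T) n * Real.exp (-(2 * π * uu T n * y)) * wt y : ℝ) : ℂ) *
        ch n t = Gm b w T t y * (wt y : ℝ) := by
      rw [Gm, Gy, Finset.sum_mul]
      refine Finset.sum_congr rfl fun n _ => ?_
      rw [Complex.ofReal_mul _ (wt y)]
      ring
    rw [e, norm_mul, Complex.norm_real, Real.norm_of_nonneg hwt.le]
    nlinarith [sq_nonneg (‖Gm b w T t y‖ * wt y - 1 / 2)]
  · have h5 : ∑ n ∈ Nset b T,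
        ‖((cm (aw w T) n * Real.exp (-(2 * π * uu T n * y)) * wt y : ℝ) : ℂ)‖ ^ 2 ≤ 8 * b := by
      refine le_trans ?_ h2
      refine (Finset.sum_le_sum_of_subset_of_nonneg (Finset.filter_subset _ _)
        fun n _ _ => by positivity).trans (Finset.sum_le_sum fun n hn => ?_)
      have hu := uu_mem hT hn
      have h6 : Real.exp (-(2 * π * uu T n * y)) * wt y ≤ 1 := by
        rw [wt, ← Real.exp_add, Real.exp_le_one_iff]
        have h7 : -(uu T n * y) ≤ max (-y) 0 := by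
          rcases le_total 0 y with h | h
          · exact le_max_of_le_right (neg_nonpos.2 (mul_nonneg hu.1 h))
          · exact le_max_of_le_left (by nlinarith [hu.2])
        nlinarith [Real.pi_pos]
      rw [Complex.norm_real, Real.norm_eq_abs, sq_abs, mul_assoc, mul_pow]
      exact mul_le_of_le_one_right (sq_nonneg _) (pow_le_one₀ (by positivity) h6)
    linarith

end Pool.Agent.P.MP_7eacff_nt.Rig
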