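import Pool.Agent.P.MP_7eacff_nt.Rig.Walk
import Pool.Agent.P.MP_7eacff_nt.Rig.Sums

/-!
At some scale the mollifier is large.
-/

open Complex Filter Topology MeasureTheory Set
open scoped Real ENNReal ComplexConjugate

namespace Pool.Agent.P.MP_7eacff_nt.Rig

namespace LargeAux

/-- Coefficients of the prime sum. -/
noncomputable def cf (w : ℝ → ℝ) (l : ℕ) (T : ℝ) (p : ℕ) : ℝ :=
  aw w T p * Real.exp (-(2 * π * uu T p * (10 * l ^ 2)))

/-- The main block of primes. -/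
noncomputable def SA (l n : ℕ) (T : ℝ) : Finset ℕ :=
  (Finset.Icc 1 ⌊T⌋₊).filter fun p => p.Prime ∧ 1 / 2 ^ l < uu T p ∧ uu T p ≤ 1 / 2 ^ n

/-- The remaining primes. -/
noncomputable def SR (l n : ℕ) (T : ℝ) : Finset ℕ :=
  (Finset.Icc 1 ⌊T⌋₊).filter fun p => p.Prime ∧ 1 / 2 ^ n < uu T p ∧ uu T p ≤ 1 / (40 * l)

variable {w : ℝ → ℝ}

theorem split {l n : ℕ} (hw : Wt (2 ^ l) w) (hn : (1 : ℝ) / 2 ^ n ≤ 1 / (40 * l)) (T t : ℝ) :
    SS w l T t = ∑ p ∈ SA l n T, (cf w l T p : ℂ) * ch p t +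
      ∑ p ∈ SR l n T, (cf w l T p : ℂ) * ch p t := by
  unfold SS SA SR
  rw [Finset.sum_filter, Finset.sum_filter, Finset.sum_filter, ← Finset.sum_add_distrib]
  refine Finset.sum_congr rfl fun p _ => ?_
  by_cases hp : p.Prime
  · by_cases h1 : uu T p ≤ 1 / 2 ^ n
    · rw [if_pos ⟨hp, h1.trans hn⟩, if_neg (fun h : p.Prime ∧ 1 / 2 ^ n < uu T p ∧
        uu T p ≤ 1 / (40 * l) => absurd h1 (not_le.2 h.2.1)), add_zero]
      by_cases h2 : 1 / 2 ^ l < uu T p
      · rw [if_pos ⟨hp, h2, h1⟩]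
        rfl
      · rw [if_neg (fun h => h2 h.2.1)]
        have : w (uu T p) = 0 := hw.zero _ (by rw [Nat.cast_pow, Nat.cast_ofNat]; exact not_lt.1 h2)
        simp [aw, this]
    · rw [if_neg (fun h : p.Prime ∧ 1 / 2 ^ l < uu T p ∧ uu T p ≤ 1 / 2 ^ n => h1 h.2.2),
        zero_add]
      by_cases h2 : uu T p ≤ 1 / (40 * l)
      · rw [if_pos ⟨hp, h2⟩, if_pos ⟨hp, not_le.1 h1, h2⟩]
        rfl
      · rw [if_neg (fun h => h2 h.2), if_neg (fun h => h2 h.2.2)]
  · rw [if_neg (fun h => hp h.1), if_neg (fun h => hp h.1), if_neg (fun h => hp h.1), add_zero]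

theorem cf_sq (w : ℝ → ℝ) (l : ℕ) (T : ℝ) (p : ℕ) :
    cf w l T p ^ 2 = w (uu T p) ^ 2 / p * Real.exp (-(40 * π * uu T p * l ^ 2)) := by
  unfold cf aw
  rw [mul_pow, div_pow, neg_sq, Real.sq_sqrt (Nat.cast_nonneg p), ← Real.exp_nat_mul]
  congr 2
  push_cast
  ring

theorem sum_SR {b l n : ℕ} (hw : Wt b w) (hn : 1 ≤ n) (hl : 1 ≤ l) :
    ∀ᶠ T : ℝ in atTop, ∑ p ∈ SR l n T, cf w l T p ^ 2 ≤ n := by
  have ha : (0 : ℝ) < 1 / 2 ^ n := by positivity
  have ha1 : (1 : ℝ) / 2 ^ n ≤ 1 := by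
    rw [div_le_one (by positivity)]
    exact one_le_pow₀ one_le_two
  have hlim := tendsto_inv_primes ha ha1 le_rfl
  have hlt : Real.log (1 / (1 / 2 ^ n)) < n := by
    rw [one_div_one_div, Real.log_pow]
    have h1 : (1 : ℝ) ≤ n := by exact_mod_cast hn
    nlinarith only [h1, Real.log_two_lt_d9]
  filter_upwards [hlim.eventually (gt_mem_nhds hlt)] with T hT
  refine le_trans ?_ hT.le
  have hl1 : (1 : ℝ) ≤ l := by exact_mod_cast hl
  calc ∑ p ∈ SR l n T, cf w l T p ^ 2 ≤ ∑ p ∈ SR l n T, (1 : ℝ) / p := by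
        refine Finset.sum_le_sum fun p hp => ?_
        rw [cf_sq]
        have hu : 0 ≤ uu T p := (ha.trans (Finset.mem_filter.1 hp).2.2.1).le
        have h1 : Real.exp (-(40 * π * uu T p * l ^ 2)) ≤ 1 :=
          Real.exp_le_one_iff.2 (neg_nonpos.2 (by positivity))
        have h2 : w (uu T p) ^ 2 ≤ 1 := pow_le_one₀ (hw.nonneg _) (hw.le_one _)
        have h3 : w (uu T p) ^ 2 / p ≤ 1 / p :=
          div_le_div_of_nonneg_right h2 (Nat.cast_nonneg p)
        exact (mul_le_of_le_one_right (by positivity) h1).trans h3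
    _ ≤ _ := by
        refine Finset.sum_le_sum_of_subset_of_nonneg (fun p hp => ?_) fun p _ _ => by positivity
        obtain ⟨h1, h2, h3, h4⟩ := Finset.mem_filter.1 hp
        refine Finset.mem_filter.2 ⟨h1, h2, h3, h4.trans ?_⟩
        rw [div_le_one (by positivity)]
        linarith only [hl1]

theorem sum_SA {m n : ℕ} (hw : Wt (2 ^ (2 * m)) w) (hnm : n ≤ m) (hm : 40 ≤ m)
    (hm2 : 160 * π * (m : ℝ) ^ 2 ≤ 2 ^ m) :
    ∀ᶠ T : ℝ in atTop, (m : ℝ) / 6 ≤ ∑ p ∈ SA (2 * m) n T, cf w (2 * m) T p ^ 2 := by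
  have ha : (0 : ℝ) < 1 / 2 ^ (2 * m) := by positivity
  have hab : (1 : ℝ) / 2 ^ (2 * m) ≤ 1 / 2 ^ m :=
    one_div_le_one_div_of_le (by positivity) (pow_le_pow_right₀ one_le_two (by omega))
  have hb1 : (1 : ℝ) / 2 ^ m ≤ 1 := by
    rw [div_le_one (by positivity)]
    exact one_le_pow₀ one_le_two
  have hbn : (1 : ℝ) / 2 ^ m ≤ 1 / 2 ^ n :=
    one_div_le_one_div_of_le (by positivity) (pow_le_pow_right₀ one_le_two hnm)
  have hlim := tendsto_inv_primes ha hab hb1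
  have hlt : (m : ℝ) / 2 + 6 < Real.log (1 / 2 ^ m / (1 / 2 ^ (2 * m))) := by
    have : (1 : ℝ) / 2 ^ m / (1 / 2 ^ (2 * m)) = 2 ^ m := by
      rw [two_mul, pow_add]
      field_simp
    rw [this, Real.log_pow]
    have h1 : (40 : ℝ) ≤ m := by exact_mod_cast hm
    nlinarith only [h1, Real.log_two_gt_d9]
  filter_upwards [hlim.eventually (lt_mem_nhds hlt), hw.s1, eventually_gt_atTop 1] with T hT hs hT1
  have hL : 0 < Real.log T := Real.log_pos hT1
  set S := (Finset.Icc 1 ⌊T⌋₊).filter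
    fun p : ℕ => p.Prime ∧ 1 / 2 ^ (2 * m) < uu T p ∧ uu T p ≤ 1 / 2 ^ m with hS
  have h1 : ∑ p ∈ S, cf w (2 * m) T p ^ 2 ≤ ∑ p ∈ SA (2 * m) n T, cf w (2 * m) T p ^ 2 := by
    refine Finset.sum_le_sum_of_subset_of_nonneg (fun p hp => ?_) fun p _ _ => sq_nonneg _
    obtain ⟨h1, h2, h3, h4⟩ := Finset.mem_filter.1 hp
    exact Finset.mem_filter.2 ⟨h1, h2, h3, h4.trans hbn⟩
  have h2 : ∑ p ∈ S, Real.log p / (p * Real.log T) * (1 - w (uu T p)) ≤
      3 / ((2 ^ (2 * m) : ℕ) : ℝ) := by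
    refine le_trans ?_ hs
    refine Finset.sum_le_sum_of_subset_of_nonneg (fun p hp => ?_) fun p _ _ => ?_
    · obtain ⟨h1, h2, -⟩ := Finset.mem_filter.1 hp
      exact Finset.mem_filter.2 ⟨h1, h2⟩
    · exact mul_nonneg (div_nonneg (Real.log_natCast_nonneg p)
        (mul_nonneg (Nat.cast_nonneg p) hL.le)) (sub_nonneg.2 (hw.le_one _))
  have h3 : ∀ p ∈ S, (1 / 3 : ℝ) * (1 / p - 2 * 2 ^ (2 * m) *
      (Real.log p / (p * Real.log T) * (1 - w (uu T p)))) ≤ cf w (2 * m) T p ^ 2 := by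
    intro p hp
    obtain ⟨-, hpp, h3, h4⟩ := Finset.mem_filter.1 hp
    have hp0 : (0 : ℝ) < p := by exact_mod_cast hpp.pos
    have hu : 1 ≤ 2 ^ (2 * m) * uu T p := by
      rw [div_lt_iff₀ (by positivity)] at h3
      linarith only [h3]
    have hu2 : 2 ^ m * uu T p ≤ 1 := by
      rw [le_div_iff₀ (by positivity)] at h4
      linarith only [h4]
    have hu0 : 0 ≤ uu T p := (ha.trans h3).le
    have he : (1 / 3 : ℝ) ≤ Real.exp (-(40 * π * uu T p * ((2 * m : ℕ) : ℝ) ^ 2)) := by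
      have h5 : 40 * π * uu T p * ((2 * m : ℕ) : ℝ) ^ 2 ≤ 1 := by
        push_cast
        have := mul_le_mul_of_nonneg_right hm2 hu0
        nlinarith only [this, hu2]
      refine le_trans ?_ (Real.exp_le_exp.2 (neg_le_neg h5))
      rw [Real.exp_neg, ← one_div]
      exact one_div_le_one_div_of_le (Real.exp_pos 1) (by linarith only [Real.exp_one_lt_d9])
    have hw0 := hw.nonneg (uu T p)
    have hw1 := hw.le_one (uu T p)
    have e1 : Real.log p / (p * Real.log T) = uu T p / p := by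
      unfold uu
      rw [div_div, mul_comm]
    rw [cf_sq, e1]
    have h6 : 1 / p - 2 * 2 ^ (2 * m) * (uu T p / p * (1 - w (uu T p))) ≤
        w (uu T p) ^ 2 / p := by
      have e2 : 1 / p - 2 * 2 ^ (2 * m) * (uu T p / p * (1 - w (uu T p))) =
          (1 - 2 * (2 ^ (2 * m) * uu T p) * (1 - w (uu T p))) / p := by
        field_simp
      rw [e2]
      refine div_le_div_of_nonneg_right ?_ hp0.le
      have h7 := mul_le_mul_of_nonneg_right hu (sub_nonneg.2 hw1)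
      nlinarith only [h7, sq_nonneg (1 - w (uu T p))]
    have h8 : 0 ≤ w (uu T p) ^ 2 / p := by positivity
    nlinarith only [h6, h8, he]
  have h4 := Finset.sum_le_sum h3
  rw [← Finset.mul_sum, Finset.sum_sub_distrib, ← Finset.mul_sum] at h4
  have h5 : 2 * 2 ^ (2 * m) * ∑ p ∈ S, Real.log p / (p * Real.log T) * (1 - w (uu T p)) ≤ 6 := by
    have := mul_le_mul_of_nonneg_left h2 (by positivity : (0 : ℝ) ≤ 2 * 2 ^ (2 * m))
    refine this.trans (le_of_eq ?_)
    push_cast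
    field_simp
    norm_num
  linarith only [h1, h4, h5, hT]

theorem le_rpow {T : ℝ} (hT : 1 < T) {p : ℕ} (hp : p.Prime) (hu : uu T p ≤ 1 / 4) :
    (p : ℝ) ≤ T ^ (1 / 4 : ℝ) := by
  have hp0 : (0 : ℝ) < p := by exact_mod_cast hp.pos
  have hL : 0 < Real.log T := Real.log_pos hT
  unfold uu at hu
  rw [div_le_iff₀ hL] at hu
  rw [Real.le_rpow_iff_log_le hp0 (by linarith only [hT])]
  exact hu

theorem ev_pow (a : ℝ) (k : ℕ) : ∀ᶠ n : ℕ in atTop, a * (n : ℝ) ^ k ≤ 2 ^ n := by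
  have h := (tendsto_pow_const_div_const_pow_of_one_lt k (one_lt_two (α := ℝ))).const_mul a
  rw [mul_zero] at h
  filter_upwards [h.eventually (gt_mem_nhds one_pos)] with n hn
  rw [← mul_div_assoc, div_lt_one (by positivity)] at hn
  exact hn.le

theorem ev_log (C : ℝ) {δ : ℝ} (hδ : 0 < δ) :
    ∀ᶠ m : ℕ in atTop, C * (1 + Real.log ((2 * m : ℕ) : ℝ)) ≤ δ / 2 * √((m : ℝ) / 6) := by
  have h1 : Tendsto (fun m : ℕ => √((m : ℝ) / 6)) atTop atTop :=
    Real.tendsto_sqrt_atTop.comp (tendsto_natCast_atTop_atTop.atTop_div_const (by norm_num))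
  have hC : 0 < |C| + 1 := by positivity
  have h2 := Real.isLittleO_log_id_atTop.bound (c := δ / (8 * (|C| + 1))) (by positivity)
  filter_upwards [h1.eventually h2, h1.eventually (eventually_ge_atTop (16 * (|C| + 1) / δ)),
    h1.eventually (eventually_ge_atTop 1)] with m h3 h4 h5
  set x := √((m : ℝ) / 6) with hx
  have hx2 : ((2 * m : ℕ) : ℝ) = 12 * x ^ 2 := by
    rw [hx, Real.sq_sqrt (by positivity)]
    push_cast
    ring
  have hx0 : 0 < x := by linarith only [h5]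
  have hl0 : 0 ≤ Real.log x := Real.log_nonneg h5
  have h12 : Real.log 12 ≤ 3 := by
    rw [Real.log_le_iff_le_exp (by norm_num)]
    have h : Real.exp 3 = Real.exp 1 ^ 3 := by rw [← Real.exp_nat_mul]; norm_num
    rw [h]
    have h' : (2.7 : ℝ) ^ 3 ≤ Real.exp 1 ^ 3 :=
      pow_le_pow_left₀ (by norm_num) (by linarith only [Real.exp_one_gt_d9]) 3
    linarith only [h', show (12 : ℝ) ≤ 2.7 ^ 3 by norm_num]
  have h12' : 0 ≤ Real.log 12 := Real.log_nonneg (by norm_num)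
  rw [hx2, Real.log_mul (by norm_num) (by positivity), Real.log_pow]
  simp only [id, Real.norm_eq_abs, abs_of_nonneg hl0, abs_of_pos hx0] at h3
  rw [div_mul_eq_mul_div, le_div_iff₀ (by positivity)] at h3
  rw [div_le_iff₀ hδ] at h4
  have h6 : C * (1 + (Real.log 12 + (2 : ℕ) * Real.log x)) ≤
      (|C| + 1) * (4 + 2 * Real.log x) := by
    push_cast
    refine mul_le_mul ((le_abs_self C).trans (by linarith only)) (by linarith only [h12])
      (by linarith only [h12', hl0]) hC.le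
  refine h6.trans ?_
  have e : (|C| + 1) * (4 + 2 * Real.log x) =
      1 / 4 * (16 * (|C| + 1)) + 1 / 4 * (Real.log x * (8 * (|C| + 1))) := by ring
  rw [e]
  linarith only [h3, h4]

end LargeAux

open LargeAux in
theorem large_scale {ε : ℝ} (hε : 0 < ε) : ∃ k : ℕ, 0 < k ∧ ∀ (C : ℝ) (l0 : ℕ),
    ∃ l : Fin k → ℕ, (∀ j, l0 ≤ l j) ∧ ∀ w : Fin k → ℝ → ℝ, (∀ j, Wt (2 ^ l j) (w j)) →
      ∀ ρ, 0 < ρ → ∀ᶠ T : ℝ in atTop, volume {t | t ∈ Iv ρ T ∧
        ∀ j, (SS (w j) (l j) T t).re ≤ C * (1 + Real.log (l j))} ≤ ENNReal.ofReal (ε * T) := by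
  obtain ⟨k, δ, hk, hδ, hwalk⟩ := walk (ε := ε / 8) (by positivity)
  obtain ⟨P, hP⟩ := exists_win
  have := hP.prob
  refine ⟨k, hk, fun C l0 => ?_⟩
  obtain ⟨B, hB⟩ := exists_nat_ge (96 * k / (ε * δ ^ 2) + 1)
  have hB0 : 0 ≤ 96 * (k : ℝ) / (ε * δ ^ 2) := by positivity
  have hB1 : 1 ≤ B := by
    have : (1 : ℝ) ≤ B := by linarith only [hB, hB0]
    exact_mod_cast this
  obtain ⟨N, hN⟩ := eventually_atTop.1 ((ev_pow (80 * B) 1).and ((ev_pow (160 * π) 2).and
    ((ev_log C hδ).and ((eventually_ge_atTop 40).and (eventually_ge_atTop l0)))))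
  set n : ℕ → ℕ := fun j => (2 * B) ^ j * N with hn
  have hnN : ∀ j, N ≤ n j := fun j =>
    Nat.le_mul_of_pos_left N (pow_pos (by omega) j)
  have hnm : ∀ j, n j ≤ B * n j := fun j => Nat.le_mul_of_pos_left _ hB1
  have hsucc : ∀ j, 2 * (B * n j) = n (j + 1) := fun j => by
    simp only [hn]
    ring
  have hmono : ∀ i j, i ≤ j → n i ≤ n j := fun i j hij =>
    Nat.mul_le_mul_right N (Nat.pow_le_pow_right (by omega) hij)
  refine ⟨fun j => 2 * (B * n j), fun j => ?_, fun w hw ρ hρ => ?_⟩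
  · have := (hN _ ((hnN j).trans (hnm j))).2.2.2.2
    exact this.trans (Nat.le_mul_of_pos_left _ two_pos)
  have h40 : ∀ j, 40 ≤ n j := fun j => (hN _ (hnN j)).2.2.2.1
  have hsup : ∀ j, (1 : ℝ) / 2 ^ n j ≤ 1 / (40 * ((2 * (B * n j) : ℕ) : ℝ)) := fun j => by
    have h1 := (hN _ (hnN j)).1
    have h2 : 0 < 2 * (B * n j) := by
      have := h40 j
      have := hnm j
      omega
    refine one_div_le_one_div_of_le (by exact_mod_cast Nat.mul_pos (by norm_num) h2) ?_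
    push_cast
    linarith only [h1]
  have hA : ∀ᶠ T : ℝ in atTop, ∀ j : Fin k, ((B * n j : ℕ) : ℝ) / 6 ≤
      ∑ p ∈ SA (2 * (B * n j)) (n j) T, cf (w j) (2 * (B * n j)) T p ^ 2 :=
    eventually_all.2 fun j => sum_SA (hw j) (hnm j) ((h40 j).trans (hnm j))
      (hN _ ((hnN j).trans (hnm j))).2.1
  have hR : ∀ᶠ T : ℝ in atTop, ∀ j : Fin k,
      ∑ p ∈ SR (2 * (B * n j)) (n j) T, cf (w j) (2 * (B * n j)) T p ^ 2 ≤ n j :=
    eventually_all.2 fun j => sum_SR (hw j) (by have := h40 j; omega)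
      (by have := h40 j; have := hnm j; omega)
  filter_upwards [hA, hR, sm_dir (θ := 1 / 4) (by norm_num) hρ,
    sm_of_mean hP (θ := 3 / 4) (by norm_num) hρ one_pos,
    eventually_window (a := 1 / 2) (θ := 3 / 4) (by norm_num) (by norm_num),
    eventually_gt_atTop 1] with T hA hR hdir hmean hwin hT
  have hT0 : 0 ≤ T := by linarith only [hT]
  set A : Fin k → Finset ℕ := fun j => SA (2 * (B * n j)) (n j) T with hAd
  set R : Fin k → Finset ℕ := fun j => SR (2 * (B * n j)) (n j) T with hRd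
  set c : Fin k → ℕ → ℝ := fun j => cf (w j) (2 * (B * n j)) T with hc
  set σ : Fin k → ℝ := fun j => √(∑ p ∈ A j, c j p ^ 2) with hσ
  have hm0 : ∀ j, (0 : ℝ) < ((B * n j : ℕ) : ℝ) := fun j => by
    have := h40 j
    have := hnm j
    exact_mod_cast (by omega : 0 < B * n j)
  have hσ1 : ∀ j : Fin k, √(((B * n j : ℕ) : ℝ) / 6) ≤ σ j := fun j => Real.sqrt_le_sqrt (hA j)
  have hσ0 : ∀ j, 0 < σ j := fun j =>
    (Real.sqrt_pos.2 (div_pos (hm0 j) (by norm_num))).trans_le (hσ1 j)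
  have hσ2 : ∀ j, σ j ^ 2 = ∑ p ∈ A j, c j p ^ 2 := fun j =>
    Real.sq_sqrt (Finset.sum_nonneg fun p _ => sq_nonneg _)
  have h14 : ∀ j, (1 : ℝ) / (40 * ((2 * (B * n j) : ℕ) : ℝ)) ≤ 1 / 4 := fun j => by
    refine one_div_le_one_div_of_le (by norm_num) ?_
    have := h40 j
    have := hnm j
    exact_mod_cast (by omega : 4 ≤ 40 * (2 * (B * n j)))
  set G : Set ℝ := {t | ∀ j, (∑ p ∈ A j, ((c j p / σ j : ℝ) : ℂ) * ch p t).re ≤ δ} with hG
  have hGm : MeasurableSet G := by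
    rw [hG, ofPred_forall]
    refine MeasurableSet.iInter fun j => (isClosed_le ?_ continuous_const).measurableSet
    fun_prop
  have hGw : ∀ X, P.real {v | X + T ^ (3 / 4 : ℝ) * v ∈ G} ≤ ε / 8 := fun X => by
    refine hwalk P hP A (fun j p => ((c j p / σ j : ℝ) : ℂ)) (T ^ (1 / 4 : ℝ)) (T ^ (3 / 4 : ℝ)) X
      (fun j p hp => ?_) (fun i j hij => ?_) (fun j => ?_) ?_
    · obtain ⟨-, h1, -, h2⟩ := Finset.mem_filter.1 hp
      exact ⟨h1, le_rpow hT h1 ((h2.trans (hsup j)).trans (h14 j))⟩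
    · have key : ∀ i j : Fin k, i < j → Disjoint (A i) (A j) := by
        intro i j hij
        refine Finset.disjoint_left.2 fun p hp hp' => ?_
        have h1 := (Finset.mem_filter.1 hp).2.2.1
        have h2 := (Finset.mem_filter.1 hp').2.2.2
        rw [hsucc] at h1
        have h3 : (1 : ℝ) / 2 ^ n j ≤ 1 / 2 ^ n (i + 1) :=
          one_div_le_one_div_of_le (by positivity)
            (pow_le_pow_right₀ one_le_two (hmono _ _ hij))
        exact absurd (h1.trans_le (h2.trans h3)) (lt_irrefl _)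
      rcases lt_or_gt_of_ne hij with h | h
      · exact key i j h
      · exact (key j i h).symm
    · simp only [Complex.norm_real, Real.norm_eq_abs, sq_abs, div_pow]
      rw [← Finset.sum_div, ← hσ2, div_self (pow_pos (hσ0 j) 2).ne']
    · rw [← Real.rpow_natCast, ← Real.rpow_mul hT0]
      norm_num
      exact hwin
  have hFm : Measurable (G.indicator fun _ => (1 : ℝ)) := measurable_const.indicator hGm
  have hS := hmean (G.indicator fun _ => (1 : ℝ)) ∅ (ε / 8) 0 0 hFm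
    (fun t => indicator_nonneg (fun _ _ => zero_le_one) t) MeasurableSet.empty (by positivity)
    le_rfl le_rfl (fun X _ => ?_) (by simp)
  swap
  · have hpre : MeasurableSet {v | X + T ^ (3 / 4 : ℝ) * v ∈ G} :=
      hGm.preimage (f := fun v => X + T ^ (3 / 4 : ℝ) * v) (by fun_prop)
    have e1 : (fun v => G.indicator (fun _ => (1 : ℝ)) (X + T ^ (3 / 4 : ℝ) * v)) =
        {v | X + T ^ (3 / 4 : ℝ) * v ∈ G}.indicator fun _ => (1 : ℝ) := rfl
    rw [e1]
    refine ⟨(integrable_const _).indicator hpre, ?_⟩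
    rw [integral_indicator_const _ hpre, smul_eq_mul, mul_one, zero_mul, add_zero]
    exact hGw X
  have hM1 := hS.markov (ENNReal.measurable_ofReal.comp hFm) (a := 1 / 2) (by norm_num)
  have hM2 : ∀ j : Fin k, volume {t | t ∈ Iv ρ T ∧
      ENNReal.ofReal (((B * n j : ℕ) : ℝ) * δ ^ 2 / 24) <
        ENNReal.ofReal (‖∑ p ∈ R j, (c j p : ℂ) * ch p t‖ ^ 2)} ≤
      ENNReal.ofReal (ε / (2 * k) * T) := fun j => by
    have h1 := hdir (R j) (fun p => (c j p : ℂ)) fun p hp => by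
      obtain ⟨-, h1, -, h2⟩ := Finset.mem_filter.1 hp
      exact ⟨h1.one_le, le_rpow hT h1 (h2.trans (h14 j))⟩
    have ha : 0 < ((B * n j : ℕ) : ℝ) * δ ^ 2 / 24 := by
      have := hm0 j
      positivity
    refine (h1.markov (ENNReal.measurable_ofReal.comp
      (Continuous.measurable (by fun_prop))) ha).trans
      (ENNReal.ofReal_le_ofReal (mul_le_mul_of_nonneg_right ?_ hT0))
    simp only [Complex.norm_real, Real.norm_eq_abs, sq_abs]
    have hk0 : (0 : ℝ) < k := by exact_mod_cast hk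
    rw [div_le_div_iff₀ ha (by positivity)]
    have h2 : 96 * (k : ℝ) ≤ B * (ε * δ ^ 2) := by
      rw [← div_le_iff₀ (by positivity)]
      linarith only [hB]
    have h3 := mul_le_mul_of_nonneg_right h2 (Nat.cast_nonneg (α := ℝ) (n j))
    have h4 := mul_le_mul_of_nonneg_right (hR j) hk0.le
    push_cast
    nlinarith only [h3, h4]
  have hsub : {t | t ∈ Iv ρ T ∧ ∀ j : Fin k, (SS (w j) (2 * (B * n j)) T t).re ≤
      C * (1 + Real.log ((2 * (B * n j) : ℕ) : ℝ))} ⊆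
      {t | t ∈ Iv ρ T ∧ ENNReal.ofReal (1 / 2) <
        ENNReal.ofReal (G.indicator (fun _ => (1 : ℝ)) t)} ∪
      ⋃ j : Fin k, {t | t ∈ Iv ρ T ∧ ENNReal.ofReal (((B * n j : ℕ) : ℝ) * δ ^ 2 / 24) <
        ENNReal.ofReal (‖∑ p ∈ R j, (c j p : ℂ) * ch p t‖ ^ 2)} := by
    rintro t ⟨ht, hj⟩
    by_contra hcon
    rw [mem_union, not_or, mem_iUnion, not_exists] at hcon
    refine hcon.1 ⟨ht, ?_⟩
    have htG : t ∈ G := fun j => by
      have h1 : ‖∑ p ∈ R j, (c j p : ℂ) * ch p t‖ ^ 2 ≤ ((B * n j : ℕ) : ℝ) * δ ^ 2 / 24 := by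
        by_contra h
        refine hcon.2 j ⟨ht, ?_⟩
        rw [not_le] at h
        exact (ENNReal.ofReal_lt_ofReal_iff (lt_of_le_of_lt (by positivity) h)).2 h
      have h2 : ‖∑ p ∈ R j, (c j p : ℂ) * ch p t‖ ≤ σ j * δ / 2 := by
        refine abs_le_of_sq_le_sq' (h1.trans ?_) (by have := hσ0 j; positivity) |>.2
        have h3 := mul_le_mul_of_nonneg_right (hA j) (sq_nonneg δ)
        have h4 := hσ2 j
        rw [div_pow, mul_pow, h4]
        linarith only [h3]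
      have h3 := hj j
      rw [split (hw j) (hsup j), Complex.add_re] at h3
      have h4 := (hN _ ((hnN j).trans (hnm j))).2.2.1
      have h5 := mul_le_mul_of_nonneg_left (hσ1 j) (by positivity : 0 ≤ δ / 2)
      have h6 := (abs_le.1 ((Complex.abs_re_le_norm _).trans h2)).1
      have e1 : ∑ p ∈ A j, ((c j p / σ j : ℝ) : ℂ) * ch p t =
          (((σ j)⁻¹ : ℝ) : ℂ) * ∑ p ∈ A j, (c j p : ℂ) * ch p t := by
        rw [Finset.mul_sum]
        refine Finset.sum_congr rfl fun p _ => ?_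
        push_cast
        ring
      rw [e1, Complex.re_ofReal_mul, inv_mul_le_iff₀ (hσ0 j)]
      linarith only [h3, h4, h5, h6]
    rw [indicator_of_mem htG]
    exact (ENNReal.ofReal_lt_ofReal_iff one_pos).2 (by norm_num)
  refine (measure_mono hsub).trans ((measure_union_le _ _).trans ?_)
  refine (add_le_add hM1 ((measure_iUnion_fintype_le _ _).trans
    (Finset.sum_le_sum fun j _ => hM2 j))).trans ?_
  have hk0 : (0 : ℝ) < k := by exact_mod_cast hk
  rw [Finset.sum_const, Finset.card_univ, Fintype.card_fin, nsmul_eq_mul,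
    ← ENNReal.ofReal_natCast, ← ENNReal.ofReal_mul hk0.le,
    ← ENNReal.ofReal_add (by positivity) (by positivity)]
  refine ENNReal.ofReal_le_ofReal (le_of_eq ?_)
  field_simp
  ring

end Pool.Agent.P.MP_7eacff_nt.Rig
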