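import Pool.Agent.P.MP_7eacff_nt.Rig.PS
import Pool.Agent.P.MP_7eacff_nt.Rig.Large
import Pool.Agent.P.MP_7eacff_nt.Rig.Dens

/-!
Rigidity of the gaps.
-/

open Complex Filter Topology MeasureTheory Set
open scoped Real ENNReal ComplexConjugate

namespace Pool.Agent.P.MP_7eacff_nt.Rig

theorem four_mul_le_norm {ε x : ℝ} (h : ∀ k : ℤ, ε ≤ |x - k|) : 4 * ε ≤ ‖1 - ee x‖ := by
  have h1 := h (round x)
  have h2 : |x - round x| ≤ 1 / 2 := abs_sub_round x
  set r := x - round x with hr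
  have h3 : ee x = cexp (I * ((2 * π * r : ℝ) : ℂ)) := by
    have hx : x = r + round x := by rw [hr]; ring
    conv_lhs => rw [hx, ee_add]
    have : ee (round x : ℤ) = 1 := by
      unfold ee
      rw [← Complex.exp_int_mul_two_pi_mul_I (round x)]
      congr 1; push_cast; ring
    rw [this, mul_one, ee, mul_comm]
  rw [h3, norm_sub_rev, Complex.norm_exp_I_mul_ofReal_sub_one, Real.norm_eq_abs, abs_mul,
    abs_two, show 2 * π * r / 2 = π * r by ring]
  have h4 : |Real.sin (π * r)| = Real.sin (π * |r|) := by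
    have hp : ∀ s : ℝ, 0 ≤ s → s ≤ 1 / 2 → 0 ≤ Real.sin (π * s) := fun s a b =>
      Real.sin_nonneg_of_nonneg_of_le_pi (by positivity) (by nlinarith [Real.pi_pos])
    rcases le_total 0 r with a | a
    · rw [abs_of_nonneg a] at h2 ⊢
      exact abs_of_nonneg (hp r a h2)
    · rw [abs_of_nonpos a] at h2 ⊢
      have := hp (-r) (by linarith) h2
      rw [mul_neg, Real.sin_neg] at this ⊢
      exact abs_of_nonpos (by linarith)
  have h5 := Real.mul_le_sin (x := π * |r|) (by positivity) (by nlinarith [Real.pi_pos])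
  rw [show 2 / π * (π * |r|) = 2 * |r| by field_simp] at h5
  rw [h4]; linarith

theorem vol_off {μ : Measure ℝ} [SFinite μ] (hμ : ZData μ) {γ : ℕ → ℝ} (hγ : Enum μ γ)
    {ε ε1 R0 : ℝ} (hε : 0 < ε) (hε1 : 0 < ε1) (hR0 : 1 ≤ R0) :
    ∃ c R δ : ℝ, 0 < c ∧ c < 1 / 2 ∧ 0 < R ∧ 0 < δ ∧
      ∀ᶠ T : ℝ in atTop, ∀ E, MeasurableSet E →
        (∀ t ∈ Icc (T / 2) (3 * T), t ∉ E → Sep μ c R T t) →
        volume (E ∩ Icc T (2 * T)) ≤ ENNReal.ofReal (δ * T) →
        volume {t | t ∈ Icc T (2 * T) ∧ Off γ ε R0 T t} ≤ ENNReal.ofReal (ε1 * T) := by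
  obtain ⟨k, hk, hL⟩ := large_scale (ε := ε1 / 4) (by positivity)
  have hk' : (0 : ℝ) < k := by exact_mod_cast hk
  obtain ⟨C, l0, hO⟩ := one_scale hμ hγ (ε := ε1 / (4 * k)) (by positivity) hR0
  obtain ⟨l, hl, hL⟩ := hL (C + |Real.log (4 * ε)|) (max l0 2)
  have hb : ∀ j, 4 ≤ 2 ^ l j := fun j =>
    calc 4 = 2 ^ 2 := by norm_num
      _ ≤ 2 ^ l j := Nat.pow_le_pow_right (by norm_num) ((le_max_right _ _).trans (hl j))
  choose w hw using fun j => exists_wt (hb j)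
  have hc : ∀ᶠ c in 𝓝[<] (1 / 2 : ℝ), (∀ j, 1 / 2 - 1 / 2 ^ l j ≤ c) ∧ 0 < c ∧ c < 1 / 2 ∧
      2 * R0 * (1 / c - 2) ≤ ε := by
    refine (eventually_all.2 fun j => ?_).and (Eventually.and ?_ (Eventually.and ?_ ?_))
    · refine nhdsWithin_le_nhds (eventually_ge_nhds ?_)
      have : (0 : ℝ) < 1 / 2 ^ l j := by positivity
      linarith
    · exact nhdsWithin_le_nhds (eventually_gt_nhds (by norm_num))
    · exact self_mem_nhdsWithin
    · refine nhdsWithin_le_nhds ?_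
      have : ContinuousAt (fun c : ℝ => 2 * R0 * (1 / c - 2)) (1 / 2) := by
        fun_prop (disch := norm_num)
      exact this.eventually_le_const (by norm_num [hε])
  obtain ⟨c, hc1, hc0, hc2, hc3⟩ := hc.exists
  choose R δ hR hδ hO using fun j =>
    hO (l j) ((le_max_left _ _).trans (hl j)) (w j) (hw j) c (hc1 j) hc2.le
  have hδ' : ∀ᶠ d in 𝓝[>] (0 : ℝ), (∀ j, d ≤ δ j) ∧ 0 < d :=
    (eventually_all.2 fun j => nhdsWithin_le_nhds (eventually_le_nhds (hδ j))).and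
      self_mem_nhdsWithin
  obtain ⟨d, hd, hd0⟩ := hδ'.exists
  have hRs : ∀ j, R j ≤ ∑ j, R j := fun j =>
    Finset.single_le_sum (fun i _ => (hR i).le) (Finset.mem_univ j)
  refine ⟨c, ∑ j, R j, d, hc0, hc2, (hR ⟨0, hk⟩).trans_le (hRs _), hd0, ?_⟩
  have hρ : 0 < ε1 / 8 := by positivity
  filter_upwards [hL w hw _ hρ, eventually_all.2 fun j => hO j _ hρ, eventually_ge_atTop 0]
    with T h1 h2 hT E hE hs hv
  have h3 := fun j => h2 j E hE (fun t ht hE => sep_mono (hs t ht hE) le_rfl (hRs j))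
    (hv.trans (ENNReal.ofReal_le_ofReal (mul_le_mul_of_nonneg_right (hd j) hT)))
  set B := fun j => {t | t ∈ Iv (ε1 / 8) T ∧ ∃ n n', |lam T * (γ n - t)| ≤ R0 ∧
    |lam T * (γ n' - t)| ≤ R0 ∧ Real.exp (C * (1 + Real.log (l j))) <
      Real.exp (SS (w j) (l j) T t).re * ‖1 - ee (lam T * (γ n' - γ n) / c)‖} with hB
  set D := {t | t ∈ Iv (ε1 / 8) T ∧ ∀ j, (SS (w j) (l j) T t).re ≤
    (C + |Real.log (4 * ε)|) * (1 + Real.log (l j))} with hD
  have hsub : {t | t ∈ Icc T (2 * T) ∧ Off γ ε R0 T t} ⊆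
      ((Icc T ((1 + ε1 / 8) * T) ∪ Icc ((2 - ε1 / 8) * T) (2 * T)) ∪ D) ∪ ⋃ j, B j := by
    rintro t ⟨ht, n, n', hn, hn', hoff⟩
    by_cases a1 : t ≤ (1 + ε1 / 8) * T
    · exact Or.inl (Or.inl (Or.inl ⟨ht.1, a1⟩))
    by_cases a2 : (2 - ε1 / 8) * T ≤ t
    · exact Or.inl (Or.inl (Or.inr ⟨a2, ht.2⟩))
    have hI : t ∈ Iv (ε1 / 8) T := ⟨(not_le.1 a1).le, (not_le.1 a2).le⟩
    by_cases a3 : t ∈ ⋃ j, B j
    · exact Or.inr a3
    refine Or.inl (Or.inr ⟨hI, fun j => ?_⟩)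
    have a4 : ¬ Real.exp (C * (1 + Real.log (l j))) <
        Real.exp (SS (w j) (l j) T t).re * ‖1 - ee (lam T * (γ n' - γ n) / c)‖ :=
      fun a => a3 (mem_iUnion.2 ⟨j, hI, n, n', hn, hn', a⟩)
    set x := lam T * (γ n' - γ n) with hx
    have a5 : |x| ≤ 2 * R0 := by
      have : x = lam T * (γ n' - t) - lam T * (γ n - t) := by rw [hx]; ring
      rw [this]
      exact (abs_sub _ _).trans (by linarith)
    have a6 : 0 ≤ 1 / c - 2 := by
      rw [sub_nonneg, le_div_iff₀ hc0]; linarith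
    have a7 : 4 * ε ≤ ‖1 - ee (x / c)‖ := by
      refine four_mul_le_norm fun i => ?_
      have b1 := hoff i
      have b2 : 2 * (x - i / 2) = (x / c - i) - x * (1 / c - 2) := by ring
      have b3 : |2 * (x - i / 2)| ≤ |x / c - i| + |x * (1 / c - 2)| := b2 ▸ abs_sub _ _
      rw [abs_mul, abs_mul, abs_two, abs_of_nonneg a6] at b3
      have b4 := mul_le_mul_of_nonneg_right a5 a6
      linarith
    have a8 : Real.exp ((SS (w j) (l j) T t).re + Real.log (4 * ε)) ≤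
        Real.exp (C * (1 + Real.log (l j))) := by
      rw [Real.exp_add, Real.exp_log (by positivity)]
      exact (mul_le_mul_of_nonneg_left a7 (Real.exp_pos _).le).trans (not_lt.1 a4)
    have a9 := Real.exp_le_exp.1 a8
    have a10 : 0 ≤ Real.log (l j) := Real.log_natCast_nonneg _
    have a11 := neg_abs_le (Real.log (4 * ε))
    have a12 := mul_nonneg (abs_nonneg (Real.log (4 * ε))) a10
    linarith
  have e1 : volume (⋃ j, B j) ≤ ENNReal.ofReal (ε1 / 4 * T) := by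
    refine (measure_iUnion_fintype_le _ _).trans ((Finset.sum_le_sum fun j _ => h3 j).trans ?_)
    rw [Finset.sum_const, Finset.card_univ, Fintype.card_fin, nsmul_eq_mul,
      ← ENNReal.ofReal_natCast, ← ENNReal.ofReal_mul hk'.le]
    exact le_of_eq (congrArg _ (by field_simp))
  have e2 : 0 ≤ ε1 / 8 * T := by positivity
  calc _ ≤ _ := measure_mono hsub
    _ ≤ ((ENNReal.ofReal (ε1 / 8 * T) + ENNReal.ofReal (ε1 / 8 * T)) +
        ENNReal.ofReal (ε1 / 4 * T)) + ENNReal.ofReal (ε1 / 4 * T) := by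
      refine (measure_union_le _ _).trans (add_le_add ((measure_union_le _ _).trans
        (add_le_add ((measure_union_le _ _).trans (add_le_add ?_ ?_)) h1)) e1)
      · rw [Real.volume_Icc]; exact le_of_eq (congrArg _ (by ring))
      · rw [Real.volume_Icc]; exact le_of_eq (congrArg _ (by ring))
    _ ≤ _ := by
      rw [← ENNReal.ofReal_add e2 e2, ← ENNReal.ofReal_add (by linarith) (by linarith),
        ← ENNReal.ofReal_add (by linarith) (by linarith)]
      exact ENNReal.ofReal_le_ofReal (by linarith)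

end Pool.Agent.P.MP_7eacff_nt.Rig
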