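import Pool.Agent.P.MP_7eacff_nt.Rig.Kern
import Pool.Agent.P.MP_7eacff_nt.Rig.Sm

/-!
Dirichlet polynomials given by arithmetic functions.
-/

open Complex Filter Topology MeasureTheory Set ArithmeticFunction
open scoped Real ENNReal ComplexConjugate

namespace Pool.Agent.P.MP_7eacff_nt.Rig

namespace RepAux

theorem sum_ext {g : ℕ → ℂ} {N M : ℕ} (hz : ∀ n, N < n → g n = 0) (h : N ≤ M) :
    ∑ n ∈ Finset.Icc 1 N, g n = ∑ n ∈ Finset.Icc 1 M, g n := by
  refine Finset.sum_subset (Finset.Icc_subset_Icc le_rfl h) fun n h1 h2 => hz n ?_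
  simp only [Finset.mem_Icc] at h1 h2
  omega

theorem congr {H H' : ℝ → ℂ} {f f' : ArithmeticFunction ℂ} (h : Rep H f) (h1 : ∀ t, H t = H' t)
    (h2 : ∀ n, n ≠ 0 → f n = f' n) : Rep H' f' := by
  have e : f = f' := by
    ext n
    rcases eq_or_ne n 0 with rfl | hn
    · simp
    · exact h2 n hn
  rwa [← funext h1, ← e]

theorem rep_af (S : Finset ℕ) (a : ℕ → ℂ) (hS : ∀ n ∈ S, 1 ≤ n) :
    Rep (fun t => ∑ n ∈ S, a n * ch n t) (af fun n => if n ∈ S then a n else 0) := by
  refine ⟨S.sup id, fun n hn => ?_, fun t => ?_⟩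
  · have : n ∉ S := fun h => (Finset.le_sup (f := id) h).not_gt hn
    simp [af, this]
  · have hs : S ⊆ Finset.Icc 1 (S.sup id) := fun n hn =>
      Finset.mem_Icc.2 ⟨hS n hn, Finset.le_sup (f := id) hn⟩
    rw [← Finset.sum_subset hs fun n _ hn => by simp [af, hn]]
    refine Finset.sum_congr rfl fun n hn => ?_
    have := hS n hn
    simp [af, hn, show n ≠ 0 by omega]

theorem one : Rep (fun _ => 1) 1 :=
  ⟨1, fun n hn => one_apply_ne (by omega), fun t => by simp⟩

theorem zero : Rep (fun _ => 0) 0 := ⟨0, fun _ _ => rfl, fun t => by simp⟩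

theorem ch_shift {T : ℝ} (hL : Real.log T ≠ 0) (n : ℕ) (t s v : ℝ) :
    ch n (t + s / lam T * v) = ch n t * ee (-(uu T n * s * v)) := by
  rw [ch, ch, ← ee_add]
  congr 1
  field_simp
  ring

theorem ch_add (n : ℕ) (t x : ℝ) : ch n (t + x) = ch n x * ch n t := by
  rw [ch, ch, ch, ← ee_add]
  congr 1
  ring

end RepAux

open RepAux

theorem Rep.add {H H' : ℝ → ℂ} {f f' : ArithmeticFunction ℂ} (h : Rep H f) (h' : Rep H' f') :
    Rep (fun t => H t + H' t) (f + f') := by
  obtain ⟨N, hz, h⟩ := h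
  obtain ⟨N', hz', h'⟩ := h'
  refine ⟨max N N', fun n hn => ?_, fun t => ?_⟩
  · rw [ArithmeticFunction.add_apply, hz n (by omega), hz' n (by omega), add_zero]
  · beta_reduce
    rw [h, h', sum_ext (fun n hn => by rw [hz n hn, zero_mul]) (le_max_left N N'),
      sum_ext (fun n hn => by rw [hz' n hn, zero_mul]) (le_max_right N N'),
      ← Finset.sum_add_distrib]
    simp only [ArithmeticFunction.add_apply, add_mul]

theorem Rep.mul {H H' : ℝ → ℂ} {f f' : ArithmeticFunction ℂ} (h : Rep H f) (h' : Rep H' f') :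
    Rep (fun t => H t * H' t) (f * f') := by
  obtain ⟨N, hz, h⟩ := h
  obtain ⟨N', hz', h'⟩ := h'
  have hz2 : ∀ a b : ℕ, ¬ (a ≤ N ∧ b ≤ N') → f a * f' b = 0 := fun a b hab => by
    rcases lt_or_ge N a with h1 | h1
    · rw [hz a h1, zero_mul]
    · rw [hz' b (by omega), mul_zero]
  refine ⟨N * N', fun n hn => ?_, fun t => ?_⟩
  · rw [mul_apply]
    refine Finset.sum_eq_zero fun x hx => hz2 _ _ fun hab => ?_
    have := Nat.mul_le_mul hab.1 hab.2
    rw [(Nat.mem_divisorsAntidiagonal.1 hx).1] at this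
    omega
  · have hm : ∀ x ∈ Finset.Icc 1 N ×ˢ Finset.Icc 1 N', x.1 * x.2 ∈ Finset.Icc 1 (N * N') := by
      intro x hx
      simp only [Finset.mem_product, Finset.mem_Icc] at hx ⊢
      exact ⟨Nat.mul_pos hx.1.1 hx.2.1, Nat.mul_le_mul hx.1.2 hx.2.2⟩
    beta_reduce
    rw [h, h', Finset.sum_mul_sum, ← Finset.sum_product', ← Finset.sum_fiberwise_of_maps_to hm]
    refine Finset.sum_congr rfl fun n hn => ?_
    have hn0 : n ≠ 0 := by have := (Finset.mem_Icc.1 hn).1; omega
    rw [mul_apply, Finset.sum_mul]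
    have hs : {x ∈ Finset.Icc 1 N ×ˢ Finset.Icc 1 N' | x.1 * x.2 = n} ⊆
        n.divisorsAntidiagonal := fun x hx =>
      Nat.mem_divisorsAntidiagonal.2 ⟨(Finset.mem_filter.1 hx).2, hn0⟩
    rw [← Finset.sum_subset hs]
    · refine Finset.sum_congr rfl fun x hx => ?_
      simp only [Finset.mem_filter, Finset.mem_product, Finset.mem_Icc] at hx
      rw [← hx.2, ch_mul (by omega) (by omega)]
      ring
    · intro x hx hx'
      have h1 := (Nat.mem_divisorsAntidiagonal.1 hx).1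
      have h2 : x.1 ≠ 0 := by rintro h; rw [h] at h1; omega
      have h3 : x.2 ≠ 0 := by rintro h; rw [h] at h1; omega
      rw [hz2, zero_mul]
      intro hab
      apply hx'
      simp only [Finset.mem_filter, Finset.mem_product, Finset.mem_Icc]
      omega

theorem Rep.smul {H : ℝ → ℂ} {f : ArithmeticFunction ℂ} (h : Rep H f) (a : ℂ) :
    Rep (fun t => a * H t) (a • f) := by
  obtain ⟨N, hz, h⟩ := h
  have e : ∀ n, (a • f) n = a * f n := fun n => rfl
  refine ⟨N, fun n hn => by rw [e, hz n hn, mul_zero], fun t => ?_⟩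
  beta_reduce
  rw [h, Finset.mul_sum]
  simp only [e, mul_assoc]

theorem RepAux.pow {H : ℝ → ℂ} {f : ArithmeticFunction ℂ} (h : Rep H f) (k : ℕ) :
    Rep (fun t => H t ^ k) (f ^ k) := by
  induction k with
  | zero => simpa using RepAux.one
  | succ k ih => simpa only [pow_succ] using ih.mul h

theorem rep_expm (g : ℝ → ℂ) (T : ℝ) (m : ℕ) :
    Rep (fun t => expm m (I * Psum g T t)) (expA m (nuA g T)) := by
  have h : Rep (fun t => I * Psum g T t) (nuA g T) := by
    refine RepAux.congr (rep_af (Finset.Icc 1 ⌊T⌋₊) (fun n =>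
      I * (((vonMangoldt n / (√n * Real.log T) : ℝ) : ℂ) * g (uu T n)))
      fun n hn => (Finset.mem_Icc.1 hn).1) (fun t => ?_) fun n hn => ?_
    · simp only [Psum, Finset.mul_sum, mul_assoc]
    · simp [af, nuA, hn, Nat.one_le_iff_ne_zero]
  unfold expm expA
  induction Finset.range (m + 1) using Finset.induction_on with
  | empty => simpa using RepAux.zero
  | insert k s hk ih =>
    simp only [Finset.sum_insert hk]
    simpa only [div_eq_inv_mul] using ((RepAux.pow h k).smul ((k.factorial : ℂ)⁻¹)).add ih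

theorem RepAux.one_le {b : ℕ} {T : ℝ} {n : ℕ} (hn : n ∈ Nset b T) : 1 ≤ n :=
  (Finset.mem_Icc.1 (Finset.mem_filter.1 hn).1).1

theorem rep_Gm (b : ℕ) (w : ℝ → ℝ) (T : ℝ) : Rep (fun t => Gm b w T t 0) (AN b w T) := by
  refine RepAux.congr (rep_af (Nset b T) (fun n => (cm (aw w T) n : ℝ)) fun n hn => one_le hn)
    (fun t => ?_) fun n hn => ?_
  · simp [Gm, Gy]
  · simp only [af, AN, coe_mk, if_neg hn]

theorem rep_coef (g : ℝ → ℂ) (c : ℝ) (m b : ℕ) (w : ℝ → ℝ) (T : ℝ) :
    Rep (fun t => ph c * expm m (I * Psum g T t) * Gm b w T t 0 - Gm b w T (t + c / lam T) 0)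
      (coef g c m b w T) := by
  have h : Rep (fun t => Gm b w T (t + c / lam T) 0)
      (af fun n => AN b w T n * ch n (c / lam T)) := by
    refine RepAux.congr (rep_af (Nset b T) (fun n => (cm (aw w T) n : ℝ) * ch n (c / lam T))
      fun n hn => one_le hn) (fun t => ?_) fun n hn => ?_
    · simp [Gm, Gy, ch_add, mul_assoc]
    · simp only [af, AN, coe_mk, if_neg hn]
      split_ifs <;> simp
  refine RepAux.congr ((((rep_expm g T m).mul (rep_Gm b w T)).smul (ph c)).add (h.smul (-1)))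
    (fun t => by ring) fun n _ => ?_
  rw [coef, neg_one_smul, sub_eq_add_neg]

theorem Rep.mean_conj {P : Measure ℝ} (hP : Win P) {H : ℝ → ℂ} {f : ArithmeticFunction ℂ}
    (h : Rep H f) (S : Finset ℕ) (a : ℕ → ℝ) {T Y T0 : ℝ} (hS : ∀ n ∈ S, 1 ≤ n ∧ (n : ℝ) ≤ Y)
    (hT : 2 * π * (Y + 1) ≤ T0) (X : ℝ) :
    ∫ v, H (X + T0 * v) * conj (Gy S a T (X + T0 * v) 0) ∂P = ∑ n ∈ S, f n * a n := by
  obtain ⟨N, hz, h⟩ := h
  have h1 := hP.mean_value (Finset.Icc 1 N) S f (fun n => (a n : ℂ)) id id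
    (fun n hn => (Finset.mem_Icc.1 hn).1) hS hT X
  simp only [h, Gy, mul_zero, neg_zero, Real.exp_zero, mul_one]
  refine h1.trans ?_
  rw [Finset.sum_comm]
  refine Finset.sum_congr rfl fun n hn => ?_
  simp only [id, Finset.sum_ite_eq', Finset.mem_Icc, conj_ofReal]
  split_ifs with h2
  · rfl
  · have := (hS n hn).1
    rw [hz n (by omega), zero_mul]

theorem sm_proj {P : Measure ℝ} (hP : Win P) {θ ρ : ℝ} (hθ : θ < 1) (hρ : 0 < ρ) :
    ∀ᶠ T in atTop, ∀ (H : ℝ → ℂ) (f : ArithmeticFunction ℂ) (s θ0 y : ℝ), Rep H f → 1 ≤ s →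
      0 ≤ θ0 → θ0 + 1 / s ≤ θ → Sm ρ T (fun t => ENNReal.ofReal
        ((s * (‖∫ v, H (t + s / lam T * v) * Lk s θ0 y v ∂P‖ * wt y)) ^ 2))
        (8 * Real.exp (4 * π * |y| / s) * nsq ⌊T ^ θ⌋₊ f) := by
  have := hP.prob
  filter_upwards [sm_dir hθ hρ, eventually_gt_atTop 1] with T hd hT H f s θ0 y h hs h0 hθ0
  obtain ⟨N, hz, h⟩ := h
  have hL : 0 < Real.log T := Real.log_pos hT
  have hs0 : 0 < s := by linarith
  have hs1 : 0 < 1 / s := by positivity
  set M := ⌊T ^ θ⌋₊ with hM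
  set lm : ℕ → ℂ := fun n => ∫ v, Lk s θ0 y v * ee (-(uu T n * s * v)) ∂P with hlm
  have hw : 0 ≤ wt y := (Real.exp_pos _).le
  have e1 : ∀ t, ∫ v, H (t + s / lam T * v) * Lk s θ0 y v ∂P =
      ∑ n ∈ Finset.Icc 1 M, f n * lm n * ch n t := by
    intro t
    have a1 : ∀ n, M < n → lm n = 0 := fun n hn => Lk_zero hP hs0 h0 y (hθ0.trans (by
      rw [le_div_iff₀ hL, ← Real.log_rpow (by linarith)]
      exact Real.log_le_log (by positivity) (Nat.lt_of_floor_lt hn).le))
    rw [sum_ext (fun n hn => by rw [a1 n hn, mul_zero, zero_mul]) (le_max_right N M),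
      ← sum_ext (fun n hn => by rw [hz n hn, zero_mul, zero_mul]) (le_max_left N M)]
    simp only [h, Finset.sum_mul, ch_shift hL.ne']
    rw [integral_finsetSum]
    · refine Finset.sum_congr rfl fun n _ => ?_
      rw [hlm, mul_right_comm, ← integral_const_mul]
      exact integral_congr_ae (Eventually.of_forall fun v => by ring)
    · intro n _
      refine Integrable.of_bound (Measurable.aestronglyMeasurable ?_)
        (‖f n‖ * (2 * Real.exp (2 * π * |y|))) (Eventually.of_forall fun v => ?_)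
      · exact (Continuous.measurable (by fun_prop)).mul (measurable_Lk s θ0 y)
      · rw [norm_mul, norm_mul, norm_mul, norm_ch, norm_ee, mul_one, mul_one]
        exact mul_le_mul_of_nonneg_left (norm_Lk_le hs h0 (by linarith) y v) (norm_nonneg _)
  have hθ1 : 0 ≤ T ^ θ := by positivity
  have hS : ∀ n ∈ Finset.Icc 1 M, 1 ≤ n ∧ (n : ℝ) ≤ T ^ θ := fun n hn =>
    ⟨(Finset.mem_Icc.1 hn).1, (Nat.le_floor_iff hθ1).1 (Finset.mem_Icc.1 hn).2⟩
  refine (hd (Finset.Icc 1 M) (fun n => ((s * wt y : ℝ) : ℂ) * (f n * lm n)) hS).mono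
    (by linarith) le_rfl (fun t _ => le_of_eq ?_) ?_
  · simp only [mul_assoc, ← Finset.mul_sum]
    rw [e1, norm_mul, norm_real, Real.norm_of_nonneg (by positivity)]
    simp only [mul_assoc]
    congr 2
    ring
  · rw [nsq, Finset.mul_sum, Finset.mul_sum]
    refine Finset.sum_le_sum fun n hn => ?_
    obtain ⟨b1, b2⟩ := hS n hn
    have b3 : 0 ≤ uu T n := div_nonneg (Real.log_natCast_nonneg n) hL.le
    have b4 : uu T n ≤ 1 := by
      rw [div_le_one hL]
      refine Real.log_le_log (by exact_mod_cast b1) (b2.trans ?_)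
      simpa using Real.rpow_le_rpow_of_exponent_le hT.le hθ.le
    have b5 : Real.exp (-(2 * π * uu T n * y)) * wt y ≤ 1 := by
      rw [wt, ← Real.exp_add, Real.exp_le_one_iff]
      have c1 : uu T n * -y ≤ max (-y) 0 :=
        (mul_le_mul_of_nonneg_left (le_max_left _ 0) b3).trans
          (mul_le_of_le_one_left (le_max_right _ _) b4)
      nlinarith [Real.pi_pos]
    have b6 : s * wt y * ‖lm n‖ ≤ 2 * Real.exp (2 * π * |y| / s) := by
      refine (mul_le_mul_of_nonneg_left (norm_Lk_transform hP hs0 h0 y (uu T n))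
        (by positivity)).trans ?_
      rw [show s * wt y * (2 / s * Real.exp (2 * π * |y| / s) * Real.exp (-(2 * π * uu T n * y))) =
        2 * Real.exp (2 * π * |y| / s) * (Real.exp (-(2 * π * uu T n * y)) * wt y) by field_simp]
      exact mul_le_of_le_one_right (by positivity) b5
    have b7 : Real.exp (4 * π * |y| / s) = Real.exp (2 * π * |y| / s) ^ 2 := by
      rw [sq, ← Real.exp_add]; congr 1; ring
    have b8 := pow_le_pow_left₀ (by positivity) b6 2
    rw [norm_mul, norm_mul, norm_real, Real.norm_of_nonneg (by positivity), b7]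
    nlinarith [mul_le_mul_of_nonneg_right b8 (sq_nonneg ‖f n‖)]

end Pool.Agent.P.MP_7eacff_nt.Rig
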