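import Pool.Agent.P.MP_7eacff_nt.Rig.NP
import Pool.Agent.P.MP_7eacff_nt.Rig.AR
import Pool.Agent.P.MP_7eacff_nt.Rig.Rep
import Pool.Agent.P.MP_7eacff_nt.Rig.An

/-!
The mean of the jump is bounded.
-/

open Complex Filter Topology MeasureTheory Set
open scoped Real ENNReal ComplexConjugate

namespace Pool.Agent.P.MP_7eacff_nt.Rig

namespace JlemAux

theorem gro_norm {μ : Measure ℝ} {F : ℝ → ℝ → ℂ} (h : Gro μ F) :
    Gro μ fun T t => ((‖F T t‖ : ℝ) : ℂ) :=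
  h.of_le (fun T => measurable_ofReal.comp (h.1 T).norm) fun T t => by simp

theorem gro_conj {μ : Measure ℝ} {F : ℝ → ℝ → ℂ} (h : Gro μ F) :
    Gro μ fun T t => conj (F T t) :=
  h.of_le (fun T => continuous_conj.measurable.comp (h.1 T)) fun T t => by simp

theorem gro_sub {μ : Measure ℝ} {F F' : ℝ → ℝ → ℂ} (h : Gro μ F) (h' : Gro μ F') :
    Gro μ fun T t => F T t - F' T t := by
  simpa only [neg_one_mul, ← sub_eq_add_neg] using h.add ((Gro.const (-1)).mul h')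

theorem gro_re {μ : Measure ℝ} {F : ℝ → ℝ → ℂ} (h : Gro μ F) :
    Gro μ fun T t => (((F T t).re : ℝ) : ℂ) :=
  h.of_le (fun T => measurable_ofReal.comp (measurable_re.comp (h.1 T))) fun T t => by
    simpa using abs_re_le_norm (F T t)

theorem gro_neg_part {μ : Measure ℝ} {F : ℝ → ℝ → ℂ} (h : Gro μ F) :
    Gro μ fun T t => ((max (-(F T t).re) 0 : ℝ) : ℂ) :=
  h.of_le (fun T => measurable_ofReal.comp
    ((measurable_re.comp (h.1 T)).neg.max measurable_const)) fun T t => by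
    rw [norm_real, Real.norm_of_nonneg (le_max_right _ _)]
    exact max_le ((neg_le_abs _).trans (abs_re_le_norm _)) (norm_nonneg _)

theorem gro_one_add_sq {μ : Measure ℝ} {F : ℝ → ℝ → ℂ} (h : Gro μ F) :
    Gro μ fun T t => ((1 + ‖F T t‖ ^ 2 : ℝ) : ℂ) := by
  simpa only [ofReal_add, ofReal_one, ofReal_pow] using (Gro.const 1).add ((gro_norm h).pow 2)

theorem norm_ph (c : ℝ) : ‖ph c‖ = 1 := by
  rw [ph, norm_mul, norm_I, one_mul, ← ofReal_neg, norm_exp_ofReal_mul_I]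

theorem an_integral {P : Measure ℝ} {s y l : ℝ} {H : ℝ → ℂ} {h : ℂ} (hP : Win P)
    (hH : An P s y H h l) (hs : 0 ≤ s) (hl : 1 ≤ l * s) : ∫ v, H v ∂P = 0 := by
  have := hH.rep (fun _ => 1) 0 1 measurable_const (by simp) fun τ hτ => by
    have h1 : 1 ≤ |-(τ * s)| := by
      rw [abs_neg]
      exact (hl.trans (mul_le_mul_of_nonneg_right hτ hs)).trans (le_abs_self _)
    simpa only [one_mul, zero_mul, neg_mul] using hP.orth _ h1
  simpa using this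

theorem eventually_large {θ a : ℝ} (hθ : 0 < θ) (ha : 0 < a) :
    ∀ᶠ T : ℝ in atTop, 1 ≤ a * (lam T * T ^ θ) := by
  filter_upwards [Real.tendsto_log_atTop.eventually_ge_atTop (2 * π),
    (tendsto_rpow_atTop hθ).eventually_ge_atTop (1 / a)] with T h1 h2
  have h3 : 1 ≤ lam T := by rw [lam, le_div_iff₀ Real.two_pi_pos, one_mul]; exact h1
  rw [div_le_iff₀ ha] at h2
  have h4 : 0 ≤ T ^ θ * a := zero_le_one.trans h2
  nlinarith only [h2, h3, h4]

theorem mean_re {μ P : Measure ℝ} [SFinite μ] (hμ : ZData μ) (hP : Win P) {b : ℕ} {w : ℝ → ℝ}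
    (hb : 1000 ≤ b) (hw : Wt b w) {g : ℝ → ℂ} {S a : ℝ} (hg : Adm g S) (ha : 0 < a)
    (hz : ∀ u, 0 ≤ u → u < a → g u = 0) {χ' : ℝ → ℝ}
    (hχ' : Cut χ' (1 - 3 / (2 * b)) (1 - 1 / b)) (c : ℝ) (m : ℕ) :
    ∀ᶠ T : ℝ in atTop, ∀ X ∈ Icc T (2 * T),
      ∫ v, (ph c * expm m (-I * II μ g T (X + T ^ (1 - 1 / (2 * (b : ℝ))) * v))).re *
        (1 + ‖Gm b w T (X + T ^ (1 - 1 / (2 * (b : ℝ))) * v) 0‖ ^ 2) ∂P ≤
      3 + (ph c * ∑ n ∈ Nset b T, (expA m (nuA (lo g χ') T) * AN b w T) n *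
        (cm (aw w T) n : ℝ)).re := by
  have := hP.prob
  have hb' : (1000 : ℝ) ≤ b := by exact_mod_cast hb
  have hb0 : (0 : ℝ) < b := by linarith
  obtain ⟨β, hβ⟩ : ∃ β : ℝ, β = 1 / b := ⟨_, rfl⟩
  have hβ0 : 0 < β := by rw [hβ]; positivity
  have hβ1 : β ≤ 1 / 1000 := by rw [hβ]; exact one_div_le_one_div_of_le (by norm_num) hb'
  have e1 : 1 / (2 * (b : ℝ)) = β / 2 := by rw [hβ]; field_simp
  have e2 : 3 / (2 * (b : ℝ)) = 3 * β / 2 := by rw [hβ]; field_simp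
  have e3 : 2 / (b : ℝ) = 2 * β := by rw [hβ]; field_simp
  obtain ⟨θ, hθ⟩ : ∃ θ : ℝ, θ = 1 - 1 / (2 * (b : ℝ)) := ⟨_, rfl⟩
  rw [← hθ]
  have hθ0 : 0 < θ := by rw [hθ, e1]; linarith
  have hθ1 : θ < 1 := by rw [hθ, e1]; linarith
  have hb1 : (0 : ℝ) < 1 - 1 / b := by rw [← hβ]; linarith
  have hb2 : (1 : ℝ) - 1 / b < 1 := by rw [← hβ]; linarith
  have hlo := hg.lo hχ' hb1
  obtain ⟨K, hK, hbd⟩ := hw.bd μ hμ
  have gG := (hw.gro μ).1
  have g0 := gro_expm ((Gro.const (-I)).mul (hg.gro hμ)) m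
  have g1 := gro_expm ((Gro.const (-I)).mul (hlo.gro hμ)) m
  have g2 := gro_expm ((Gro.const I).mul (gro_Psum μ hlo)) m
  have gA := gro_sub g0 (Gro.const 1)
  have gB := ((gro_sub g0 g1).mul gG).mul (gro_conj gG)
  have gC := ((gro_sub g1 g2).mul gG).mul (gro_conj gG)
  have gD := (g2.mul gG).mul (gro_conj gG)
  filter_upwards [gA.integrable hμ hP hθ1, gB.integrable hμ hP hθ1, gC.integrable hμ hP hθ1,
    gD.integrable hμ hP hθ1, (gro_norm gC).integral_le hμ hP hθ1 one_pos,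
    dom_err hμ hP hlo hb2 hθ0 hθ1 m (2 * b ^ 2) (sq_nonneg K) one_pos, hbd,
    eventually_large hθ0 ha, eventually_large hθ0 (half_pos hβ0),
    Real.tendsto_log_atTop.eventually_ge_atTop (2 * π), eventually_gt_atTop 1,
    eventually_window (a := 1 - 2 / (b : ℝ)) (θ := θ) (by rw [e3]; linarith)
      (by rw [hθ, e1, e3]; linarith)]
    with T iA iB iC iD hC hdom hbd hl1 hl2 hL hT hW X hX
  have iA := iA X hX
  have iB := iB X hX
  have iC := iC X hX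
  have iD := iD X hX
  have hlam : 0 < lam T := div_pos (Real.log_pos hT) Real.two_pi_pos
  have hs0 : 0 ≤ lam T * T ^ θ := by positivity
  have hs : lam T * T ^ θ / lam T = T ^ θ := mul_div_cancel_left₀ _ hlam.ne'
  have hN : ∀ n ∈ Nset b T, 1 ≤ n ∧ uu T n ≤ 1 - 2 / b ∧ (n : ℝ) ≤ T ^ (1 - 2 / (b : ℝ)) :=
    fun n hn => mem_Nset_le (by omega) hT hn
  -- the four means
  have mA : ∫ v, (expm m (-I * II μ g T (X + T ^ θ * v)) - 1) ∂P = 0 := by
    obtain ⟨h, hA⟩ := an_expm_sub_one hμ hP hg ha.le hz hL (lam T * T ^ θ) 0 X m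
    rw [hs] at hA
    exact an_integral hP hA hs0 hl1
  have mB : ∫ v, (expm m (-I * II μ g T (X + T ^ θ * v)) -
      expm m (-I * II μ (lo g χ') T (X + T ^ θ * v))) * Gm b w T (X + T ^ θ * v) 0 *
      conj (Gm b w T (X + T ^ θ * v) 0) ∂P = 0 := by
    obtain ⟨h, hA⟩ := an_expm_sub hμ hP hg hχ' hb1 hL (lam T * T ^ θ) 0 X m
    have hB := (hA.mul_Gy hP (Nset b T) (cm (aw w T)) hL X).mul_conj_Gy hP (cm (aw w T)) hL
      (fun n hn => (hN n hn).2.1) X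
    rw [hs] at hB
    refine an_integral hP hB hs0 ?_
    have e4 : 1 - 3 / (2 * (b : ℝ)) - (1 - 2 / b) = β / 2 := by rw [e2, e3]; ring
    rw [e4]
    exact hl2
  have mC : ‖∫ v, (expm m (-I * II μ (lo g χ') T (X + T ^ θ * v)) -
      expm m (I * Psum (lo g χ') T (X + T ^ θ * v))) * Gm b w T (X + T ^ θ * v) 0 *
      conj (Gm b w T (X + T ^ θ * v) 0) ∂P‖ ≤ 2 := by
    refine (norm_integral_le_integral_norm _).trans ?_
    have h1 := hC X hX ∅ 0 1 _ MeasurableSet.empty le_rfl hdom fun t ht => by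
      rw [indicator_empty, zero_add, norm_mul, norm_mul, RCLike.norm_conj, mul_assoc]
      refine mul_le_mul_of_nonneg_left ?_ (norm_nonneg _)
      have h2 := hbd t ht
      calc _ ≤ K * (1 + Sd μ T t) ^ (b ^ 2) * (K * (1 + Sd μ T t) ^ (b ^ 2)) :=
            mul_le_mul h2 h2 (norm_nonneg _) ((norm_nonneg _).trans h2)
        _ = _ := by rw [two_mul, pow_add]; ring
    linarith only [h1]
  have mD : ∫ v, expm m (I * Psum (lo g χ') T (X + T ^ θ * v)) * Gm b w T (X + T ^ θ * v) 0 *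
      conj (Gm b w T (X + T ^ θ * v) 0) ∂P =
      ∑ n ∈ Nset b T, (expA m (nuA (lo g χ') T) * AN b w T) n * (cm (aw w T) n : ℝ) :=
    ((rep_expm (lo g χ') T m).mul (rep_Gm b w T)).mean_conj hP (Nset b T) (cm (aw w T))
      (fun n hn => ⟨(hN n hn).1, (hN n hn).2.2⟩) hW X
  generalize (∑ n ∈ Nset b T, (expA m (nuA (lo g χ') T) * AN b w T) n *
    (cm (aw w T) n : ℝ) : ℂ) = Z at mD ⊢
  generalize hx0 : (fun v => expm m (-I * II μ g T (X + T ^ θ * v))) = x0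
  generalize hx1 : (fun v => expm m (-I * II μ (lo g χ') T (X + T ^ θ * v))) = x1
  generalize hx2 : (fun v => expm m (I * Psum (lo g χ') T (X + T ^ θ * v))) = x2
  generalize hG : (fun v => Gm b w T (X + T ^ θ * v) 0) = G
  simp only [fun v => congrFun hx0 v, fun v => congrFun hx1 v, fun v => congrFun hx2 v,
    fun v => congrFun hG v] at iA iB iC iD mA mB mC mD ⊢
  have i1 : Integrable (fun v => (x0 v - 1) + 1) P := iA.add (integrable_const 1)
  have i2 : Integrable (fun v => (x0 v - 1) + 1 + (x0 v - x1 v) * G v * conj (G v)) P := i1.add iB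
  have i3 : Integrable (fun v => (x0 v - 1) + 1 + (x0 v - x1 v) * G v * conj (G v) +
      (x1 v - x2 v) * G v * conj (G v)) P := i2.add iC
  have i4 : Integrable (fun v => (x0 v - 1) + 1 + (x0 v - x1 v) * G v * conj (G v) +
      (x1 v - x2 v) * G v * conj (G v) + x2 v * G v * conj (G v)) P := i3.add iD
  have e : ∀ v, (ph c * x0 v).re * (1 + ‖G v‖ ^ 2) =
      (ph c * ((x0 v - 1) + 1 + (x0 v - x1 v) * G v * conj (G v) +
        (x1 v - x2 v) * G v * conj (G v) + x2 v * G v * conj (G v))).re := fun v => by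
    rw [← re_mul_ofReal]
    congr 1
    rw [ofReal_add, ofReal_one, ofReal_pow, ← Complex.mul_conj']
    ring
  simp only [e]
  have e' := integral_re (𝕜 := ℂ) (i4.const_mul (ph c))
  simp only [RCLike.re_to_complex] at e'
  rw [e', integral_const_mul, integral_add i3 iD, integral_add i2 iC, integral_add i1 iB,
    integral_add iA (integrable_const 1), mA, mB, mD]
  generalize (∫ v, (x1 v - x2 v) * G v * conj (G v) ∂P) = D at mC ⊢
  have h1 : (ph c).re ≤ 1 := (re_le_norm _).trans (norm_ph c).le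
  have h2 : (ph c * D).re ≤ 2 := (re_le_norm _).trans (by rwa [norm_mul, norm_ph, one_mul])
  simp only [integral_const, probReal_univ, one_smul, zero_add, add_zero, mul_add, mul_one, add_re]
  linarith only [h1, h2]

theorem pointwise (x : ℝ) (G : ℂ) :
    ‖((2 * x : ℝ) : ℂ) * G‖ ≤ x * (1 + ‖G‖ ^ 2) + 2 * (max (-x) 0 * (1 + ‖G‖ ^ 2)) := by
  rw [norm_mul, norm_real, Real.norm_eq_abs, abs_mul, abs_two]
  have h1 : |x| = x + 2 * max (-x) 0 := by
    rcases le_total 0 x with h | h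
    · rw [abs_of_nonneg h, max_eq_right (by linarith)]; ring
    · rw [abs_of_nonpos h, max_eq_left (by linarith)]; ring
  have h2 : 2 * ‖G‖ ≤ 1 + ‖G‖ ^ 2 := by nlinarith only [sq_nonneg (‖G‖ - 1)]
  calc 2 * |x| * ‖G‖ = |x| * (2 * ‖G‖) := by ring
    _ ≤ |x| * (1 + ‖G‖ ^ 2) := mul_le_mul_of_nonneg_left h2 (abs_nonneg x)
    _ = _ := by rw [h1]; ring

end JlemAux

open JlemAux in
theorem jump_bound {μ P : Measure ℝ} [SFinite μ] (hμ : ZData μ) (hP : Win P) :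
    ∃ C, 0 < C ∧ ∀ (b : ℕ) (w : ℝ → ℝ), 1000 ≤ b → Wt b w →
    ∀ (f : ℝ → ℂ) (c S L : ℝ), 1 / 2 - 1 / b ≤ c → c ≤ 1 / 2 → Sym2 f c S L → 1 ≤ L → L * b ≤ S →
    ∃ m0, ∀ m, m0 ≤ m → ∃ η0, 0 < η0 ∧ ∀ χ a η, Cut χ a η → 0 < η → η ≤ η0 →
      ∃ R δ, 0 < R ∧ 0 < δ ∧ ∀ ρ, 0 < ρ → ∀ᶠ T in atTop, ∀ E, MeasurableSet E →
        (∀ t ∈ Icc (T / 2) (3 * T), t ∉ E → Sep μ c R T t) →
        volume (E ∩ Icc T (2 * T)) ≤ ENNReal.ofReal (δ * T) →
        Sm ρ T (fun t => ENNReal.ofReal ‖Jm μ (hi f χ) c m b w T t‖) C := by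
  obtain ⟨C, hC, hAR⟩ := arith_main
  refine ⟨2 * (5 + C + 2), by positivity, fun b w hb hw f c S L hc1 hc2 hf hL hS => ?_⟩
  obtain ⟨m1, hm1⟩ := hAR b w hb hw f c S L hc1 hc2 hf hL hS
  have hb' : (1000 : ℝ) ≤ b := by exact_mod_cast hb
  have hb0 : (0 : ℝ) < b := by linarith
  have hβ0 : (0 : ℝ) < 1 / b := by positivity
  have hβ1 : (1 : ℝ) / b ≤ 1 / 1000 := one_div_le_one_div_of_le (by norm_num) hb'
  have e1 : 1 / (2 * (b : ℝ)) = 1 / b / 2 := by field_simp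
  have e2 : 3 / (2 * (b : ℝ)) = 3 * (1 / b) / 2 := by field_simp
  obtain ⟨χ', hχ'⟩ := exists_cut (a := 1 - 3 / (2 * (b : ℝ))) (b := 1 - 1 / (b : ℝ))
    (by rw [e2]; linarith) (by rw [e2]; linarith)
  have hθ0 : 1 / 2 < 1 - 1 / (2 * (b : ℝ)) := by rw [e1]; linarith
  have hθ1 : 1 - 1 / (2 * (b : ℝ)) < 1 := by rw [e1]; linarith
  obtain ⟨K, hK, hbd⟩ := hw.bd μ hμ
  obtain ⟨K1, hK1, hD1⟩ := hμ.dom_Sd hP (one_half_pos.trans hθ0) hθ1 (4 * b ^ 2)
  have gG := (hw.gro μ).1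
  have gF := gro_one_add_sq gG
  have hD : ∀ᶠ T in atTop, Dom P (1 - 1 / (2 * (b : ℝ))) T
      (fun t => (1 + ‖Gm b w T t 0‖ ^ 2) ^ 2) ((1 + K ^ 2) ^ 2 * K1) := by
    filter_upwards [hD1, hbd] with T h1 h2
    refine (h1.const_mul (sq_nonneg (1 + K ^ 2))).mono (fun t ht => ?_) le_rfl
    have h3 := h2 t ht
    have h4 : 1 ≤ (1 + Sd μ T t) ^ (b ^ 2) :=
      one_le_pow₀ (le_add_of_nonneg_right (Sd_nonneg μ T t))
    have h5 : (1 + Sd μ T t) ^ (4 * b ^ 2) = ((1 + Sd μ T t) ^ (b ^ 2)) ^ 4 := by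
      rw [← pow_mul, mul_comm]
    rw [h5]
    generalize (1 + Sd μ T t) ^ (b ^ 2) = Y at h3 h4
    have h6 : ‖Gm b w T t 0‖ ^ 2 ≤ (K * Y) ^ 2 := pow_le_pow_left₀ (norm_nonneg _) h3 2
    have h7 : 1 ≤ Y ^ 2 := one_le_pow₀ h4
    have h8 : 1 + ‖Gm b w T t 0‖ ^ 2 ≤ (1 + K ^ 2) * Y ^ 2 := by nlinarith only [h6, h7]
    calc _ ≤ ((1 + K ^ 2) * Y ^ 2) ^ 2 := pow_le_pow_left₀ (by positivity) h8 2
      _ = _ := by ring
  obtain ⟨m2, hm2⟩ := neg_part hμ hP hf.sym hθ0 hθ1 (F := fun T t => 1 + ‖Gm b w T t 0‖ ^ 2)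
    (fun T t => by positivity) gF (by positivity) hD one_pos
  refine ⟨max m1 m2, fun m hm => ?_⟩
  obtain ⟨η0, hη0, hη⟩ := hm2 m (le_of_max_le_right hm)
  refine ⟨min η0 (1 / b), lt_min hη0 hβ0, fun χ a η hχ hη1 hη2 => ?_⟩
  obtain ⟨R, l, hR, hl, hneg⟩ := hη χ a η hχ hη1 (hη2.trans (min_le_left _ _))
  refine ⟨R, 1 / (2 * l), hR, by positivity, fun ρ hρ => ?_⟩
  have hg : Adm (hi f χ) S := hχ.adm_hi hf.sym.pos hf.sym.cd hf.sym.zero
  have hz : ∀ u, 0 ≤ u → u < a → hi f χ u = 0 := fun u h0 h1 => by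
    simp [hi, hχ.one u (by rw [abs_of_nonneg h0]; exact h1.le)]
  have g0 := (Gro.const (ph c)).mul (gro_expm ((Gro.const (-I)).mul (hg.gro hμ)) m)
  have gJ : Gro μ fun T t => Jm μ (hi f χ) c m b w T t := by
    simpa only [Jm, ofReal_mul, ofReal_ofNat] using ((Gro.const 2).mul (gro_re g0)).mul gG
  have gA := (gro_re g0).mul gF
  have gB := (gro_neg_part g0).mul gF
  filter_upwards [hneg, mean_re hμ hP hb hw hg hχ.apos hz hχ' c m,
    hm1 m (le_of_max_le_left hm) χ χ' a η _ hχ (hη2.trans (min_le_right _ _)) hχ',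
    sm_of_mean hP hθ1 hρ (show 0 < 1 / (2 * l) by positivity), gJ.integrable hμ hP hθ1,
    gA.integrable hμ hP hθ1, gB.integrable hμ hP hθ1] with T h1 h2 h3 h4 iJ iA iB E hE hsep hvol
  have h5 := h4 (fun t => ‖Jm μ (hi f χ) c m b w T t‖) E (5 + C) (2 * l) (1 / (2 * l))
    (gJ.1 T).norm (fun _ => norm_nonneg _) hE (by positivity) (by positivity) (by positivity)
    (fun X hX => ⟨(iJ X hX).norm, ?_⟩) hvol
  · have e3 : 2 * l * (1 / (2 * l) + 1 / (2 * l)) = 2 := by field_simp; norm_num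
    rwa [e3] at h5
  · have jA := (iA X hX).re
    have jB := (iB X hX).re
    simp only [RCLike.re_to_complex, ← ofReal_mul, ofReal_re] at jA jB
    have h6 := integral_mono (iJ X hX).norm (jA.add (jB.const_mul 2)) fun v => pointwise _ _
    simp only [Pi.add_apply] at h6
    rw [integral_add jA (jB.const_mul 2), integral_const_mul] at h6
    have h7 := h1 E hE hsep X hX
    have h8 := h2 X hX
    linarith only [h6, h7, h8, h3.2]

end Pool.Agent.P.MP_7eacff_nt.Rig
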