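import Pool.Agent.P.MP_7eacff_nt.Rig.Defs

/-!
The negative part of the real part, and the passage from zeros to primes.
-/

open Complex Filter Topology MeasureTheory Set
open scoped Real ENNReal ComplexConjugate

namespace Pool.Agent.P.MP_7eacff_nt.Rig

theorem NP_gro_expm {μ : Measure ℝ} {H : ℝ → ℝ → ℂ} (hH : Gro μ H) (m : ℕ) :
    Gro μ fun T t => expm m (H T t) := by
  have h := Gro.sum (μ := μ) (Finset.range (m + 1)) fun k _ =>
    (hH.pow k).mul (Gro.const ((k.factorial : ℂ)⁻¹))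
  simpa only [expm, div_eq_mul_inv] using h

theorem NP_re (c : ℝ) (m : ℕ) (z : ℂ) : -(ph c * expm m (-I * z)).re =
    (cexp (-(π * c : ℝ) * I) * ∑ k ∈ Finset.range (m + 1), (-I) ^ k / k.factorial * z ^ k).im := by
  have e : ∑ k ∈ Finset.range (m + 1), (-I) ^ k / k.factorial * z ^ k = expm m (-I * z) :=
    Finset.sum_congr rfl fun k _ => by rw [mul_pow]; ring
  rw [e, ph, mul_assoc, I_mul_re, neg_neg]

theorem NP_expm_sub {a b : ℂ} {Y : ℝ} (hY : 1 ≤ Y) (ha : ‖a‖ ≤ Y) (hb : ‖b‖ ≤ Y) (m : ℕ) :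
    ‖expm m a - expm m b‖ ≤ (m + 1) * (m * ‖a - b‖ * Y ^ m) := by
  rw [expm, expm, ← Finset.sum_sub_distrib]
  refine (norm_sum_le _ _).trans ((Finset.sum_le_card_nsmul _ _ (m * ‖a - b‖ * Y ^ m)
    fun k hk => ?_).trans_eq (by simp))
  have hk' : k ≤ m := Nat.lt_succ_iff.1 (Finset.mem_range.1 hk)
  have h1 : (1 : ℝ) ≤ k.factorial := by exact_mod_cast k.factorial_pos
  rw [← sub_div, norm_div, Complex.norm_natCast]
  refine (div_le_self (norm_nonneg _) h1).trans ((norm_pow_sub_pow_le' hY ha hb k).trans ?_)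
  gcongr

theorem neg_part {μ P : Measure ℝ} [SFinite μ] (hμ : ZData μ) (hP : Win P) {f : ℝ → ℂ}
    {c S θ Kf ε : ℝ} (hf : Sym f c S) (hθ : 1 / 2 < θ) (hθ1 : θ < 1) {F : ℝ → ℝ → ℝ}
    (hF0 : ∀ T t, 0 ≤ F T t) (hF : Gro μ fun T t => F T t) (hKf : 0 < Kf)
    (hD : ∀ᶠ T in atTop, Dom P θ T (fun t => F T t ^ 2) Kf) (hε : 0 < ε) :
    ∃ m0, ∀ m, m0 ≤ m → ∃ η0, 0 < η0 ∧ ∀ χ a η, Cut χ a η → 0 < η → η ≤ η0 →
      ∃ R l, 0 < R ∧ 0 < l ∧ ∀ᶠ T in atTop, ∀ E, MeasurableSet E →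
        (∀ t ∈ Icc (T / 2) (3 * T), t ∉ E → Sep μ c R T t) → ∀ X ∈ Icc T (2 * T),
          ∫ v, max (-(ph c * expm m (-I * II μ (hi f χ) T (X + T ^ θ * v))).re) 0 *
            F T (X + T ^ θ * v) ∂P ≤ l * P.real {v | X + T ^ θ * v ∈ E} + ε := by
  have := hP.prob
  obtain ⟨ε', hε'⟩ : ∃ ε', ε' = ε / 10 := ⟨_, rfl⟩
  have hε0 : 0 < ε' := by linarith only [hε, hε']
  obtain ⟨ν, hν⟩ : ∃ ν, ν = ε' / Kf := ⟨_, rfl⟩
  have hν0 : 0 < ν := by rw [hν]; positivity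
  obtain ⟨τ, hτ⟩ : ∃ τ, τ = ε' * ν := ⟨_, rfl⟩
  have hτ0 : 0 < τ := by rw [hτ]; positivity
  obtain ⟨A, C, hA, hC1, hII⟩ := hf.dom_II hμ hP hθ
  obtain ⟨M, hM0', htail⟩ := exists_tail (P := P) (θ := θ) hA hC1 hτ0
  obtain ⟨r, hr'⟩ : ∃ r, r = min 1 τ / 2 := ⟨_, rfl⟩
  have hr0 : 0 < r := by rw [hr']; positivity
  have hr1 : (2 * r) ^ 2 ≤ τ := by
    have h1 := min_le_left 1 τ
    have h2 := min_le_right 1 τ
    nlinarith only [hr', h2, hr0, h1]
  obtain ⟨m0, hm0⟩ := eventually_atTop.1 (im_sum_le M hr0)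
  refine ⟨m0, fun m hm => ?_⟩
  have hm1 := hm0 m hm
  obtain ⟨K, hK1, htail⟩ := htail m
  have hK1' : (1 : ℝ) ≤ K := by exact_mod_cast hK1
  obtain ⟨x, hx⟩ : ∃ x, x = Real.exp M := ⟨_, rfl⟩
  have hx0 : 0 < x := hx ▸ Real.exp_pos M
  rw [← hx] at hm1
  refine ⟨min (1 / (4 * K)) (τ / (2 * (x * (2 * π * c)) ^ 2 + 1)), by positivity,
    fun χ a η hχ hη0 hη => ?_⟩
  have hη2 : η ≤ 1 / (4 * K) := hη.trans (min_le_left _ _)
  have hη3 : η * (2 * (x * (2 * π * c)) ^ 2 + 1) ≤ τ :=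
    (le_div_iff₀ (by positivity)).1 (hη.trans (min_le_right _ _))
  have hη4 : η ≤ 1 / 4 :=
    hη2.trans (one_div_le_one_div_of_le (by norm_num) (by linarith only [hK1']))
  have hg := hχ.adm_hi hf.pos hf.cd hf.zero
  obtain ⟨Ks, hKs, hsin⟩ := hf.neg_sin_le hμ
  obtain ⟨A', C', hA', hC', hSd⟩ := hμ.dom_SdR hP hθ
  obtain ⟨b, hb⟩ : ∃ b, b = 2 * (x * Ks * A') ^ 2 := ⟨_, rfl⟩
  have hb0 : 0 ≤ b := by rw [hb]; positivity
  obtain ⟨R, hR⟩ : ∃ R, R = 1 + b * (1 + C') / τ := ⟨_, rfl⟩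
  have hR1 : 1 ≤ R := by rw [hR]; exact le_add_of_nonneg_right (by positivity)
  obtain ⟨l, hl⟩ : ∃ l, l = x ^ 2 * Kf / ε' := ⟨_, rfl⟩
  have hl0 : 0 < l := by rw [hl]; positivity
  have b1 : b / R * (1 + C') ≤ τ := by
    rw [div_mul_eq_mul_div, div_le_iff₀ (by linarith only [hR1]), hR, mul_add τ,
      mul_div_cancel₀ _ hτ0.ne']
    linarith only [hτ0]
  have b2 : x ^ 2 * (2 * (2 * π * c * η) ^ 2) ≤ τ := by
    have : η ^ 2 ≤ η := by nlinarith only [hη0, hη4]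
    calc _ = η ^ 2 * (2 * (x * (2 * π * c)) ^ 2) := by ring
      _ ≤ η * (2 * (x * (2 * π * c)) ^ 2 + 1) := by gcongr; linarith only []
      _ ≤ τ := hη3
  have b3 : ν⁻¹ * (b / R * (1 + C') + x ^ 2 * (2 * (2 * π * c * η) ^ 2) + τ + (2 * r) ^ 2) ≤
      4 * ε' := by
    rw [inv_mul_le_iff₀ hν0]; linarith only [hτ, hr1, b1, b2]
  have b4 : (x ^ 2 / l + 4 * ν) * Kf = 5 * ε' := by rw [hl, hν]; field_simp; norm_num
  refine ⟨R, l, by linarith only [hR1], hl0, ?_⟩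
  have g1 := (Gro.const (ph c)).mul (NP_gro_expm ((Gro.const (-I)).mul (hg.gro hμ)) m)
  have mF : ∀ T, Measurable (F T) := fun T => measurable_re.comp (hF.1 T)
  have g3 := (g1.mul hF).of_le (F' := fun T t =>
      ((max (-(ph c * expm m (-I * II μ (hi f χ) T t)).re) 0 * F T t : ℝ) : ℂ))
    (fun T => measurable_ofReal.comp
      (((measurable_re.comp (g1.1 T)).neg.max measurable_const).mul (mF T))) fun T t => by
      rw [norm_mul (ph c * _), norm_real, norm_real, norm_mul,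
        Real.norm_of_nonneg (le_max_right _ _)]
      exact mul_le_mul_of_nonneg_right
        (max_le ((neg_le_abs _).trans (abs_re_le_norm _)) (norm_nonneg _)) (norm_nonneg _)
  filter_upwards [hD, g3.integral_le hμ hP hθ1 hε0,
    (eventually_all_finset (Finset.Icc 1 K)).2 fun D hD => hII D (Finset.mem_Icc.1 hD).1 χ _ η hχ
      (hη2.trans (by
        have h1 : (1 : ℝ) ≤ D := by exact_mod_cast (Finset.mem_Icc.1 hD).1
        have h2 : (D : ℝ) ≤ K := by exact_mod_cast (Finset.mem_Icc.1 hD).2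
        gcongr)),
    hsin χ _ η hχ hη0 (by linarith only [hη4]) (r / x) (by positivity),
    hSd R 1 hR1 le_rfl (by simpa),
    hP.dom_Psum (φ := lo f χ) (θ := θ) (fun u => (hχ.norm_lo_le f u).trans (hf.bdd u)) hη0
      (by linarith only [hη4])
      (fun u hu => by simp [lo, hχ.zero u (hu.le.trans (le_abs_self u))]) 1
      (by simp; linarith only [hθ, hη4])] with T hDf hle hII hsin hSd hQ E hE hsep X hX
  have hT := htail T (fun t => ‖II μ (hi f χ) T t‖) fun D h1 h2 =>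
    hII D (Finset.mem_Icc.2 ⟨h1, h2⟩)
  simp only [mul_one, Nat.cast_one, pow_one] at hSd hQ
  have h1 := hle X hX E l _ _ hE hl0.le
    ((hDf.const_mul (show 0 ≤ x ^ 2 / l + 4 * ν by positivity)).add
    (((((((Dom.const zero_le_one).add hSd).const_mul (show 0 ≤ b / R by positivity)).add
      (hQ.1.const_mul (sq_nonneg x))).add hT).add (Dom.const (sq_nonneg (2 * r)))).const_mul
        (inv_pos.2 hν0).le)) fun t ht => by
    have h2 := hsin t ht R hR1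
    have h3 := hm1 (II μ (hi f χ) T t) (π * c)
    rw [NP_re]
    have h9 : 0 ≤ SdR μ R T t := integral_nonneg fun _ => by positivity
    by_cases htE : t ∈ E
    · rw [indicator_of_mem htE]
      exact pt_mem (max_le (h3 1 zero_le_one (neg_le.1 (Real.neg_one_le_sin _)))
        (by positivity)) (hF0 _ _) hr0.le hl0 hν0 (by positivity)
    · rw [indicator_of_notMem htE]
      exact pt_notMem (max_le (h3 _ (by positivity) (h2 (hsep t ht htE))) (by positivity))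
        (hF0 _ _) hx0 hl0 hν0 (hb ▸ pt_far hx0.le hKs hA' hR1 h9)
  linarith only [hε', b3, b4, h1]

theorem gro_expm {μ : Measure ℝ} {H : ℝ → ℝ → ℂ} (hH : Gro μ H) (m : ℕ) :
    Gro μ fun T t => expm m (H T t) :=
  NP_gro_expm hH m

theorem gro_Psum (μ : Measure ℝ) {g : ℝ → ℂ} {R : ℝ} (hg : Adm g R) : Gro μ (Psum g) := by
  obtain ⟨B, hB, hb⟩ := exists_bump hg.cd hg.zero
  exact Gro.of_lin (fun T => (continuous_Psum _ T).measurable) hB
    ((eventually_gt_atTop 1).mono fun T hT t => norm_Psum_le hb.b0 hT t)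

theorem dom_err {μ P : Measure ℝ} [SFinite μ] (hμ : ZData μ) (hP : Win P) {g : ℝ → ℂ}
    {R θ K ε : ℝ} (hg : Adm g R) (hR : R < 1) (hθ : 0 < θ) (hθ1 : θ < 1) (m k : ℕ) (hK : 0 ≤ K)
    (hε : 0 < ε) : ∀ᶠ T in atTop, Dom P θ T (fun t =>
      ‖expm m (-I * II μ g T t) - expm m (I * Psum g T t)‖ * (K * (1 + Sd μ T t) ^ k)) ε := by
  obtain ⟨K1, hK1, hII⟩ := hg.norm_II_le hμ
  obtain ⟨KD, hKD, hD⟩ := hμ.dom_Sd hP hθ hθ1 (m + k)
  obtain ⟨A, hA⟩ : ∃ A, A = (m + 1) * (m * (K1 + 1) ^ m) * K := ⟨_, rfl⟩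
  have hA0 : 0 ≤ A := by rw [hA]; positivity
  obtain ⟨ε', hε'⟩ : ∃ ε', ε' = min 1 (ε / ((A + 1) * KD)) := ⟨_, rfl⟩
  have hε0 : 0 < ε' := by rw [hε']; positivity
  have hε1 : ε' ≤ 1 := hε' ▸ min_le_left _ _
  have h2 : ε' * A * KD ≤ ε := by
    have : ε' ≤ ε / ((A + 1) * KD) := hε' ▸ min_le_right _ _
    rw [le_div_iff₀ (by positivity)] at this
    nlinarith only [this, mul_pos hε0 hKD]
  filter_upwards [hg.loc hμ hR hε0, hD, Real.tendsto_log_atTop.eventually_ge_atTop (2 * π)]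
    with T hloc hD hL
  refine (hD.const_mul (show 0 ≤ ε' * A by positivity)).mono (fun t ht => ?_) h2
  have h3 := hloc t ht
  have h4 := hII T hL t
  have h5 := Sd_nonneg μ T t
  have h6 : ‖Psum g T t‖ ≤ K1 * Sd μ T t + 1 := by
    have := norm_sub_le (II μ g T t + Psum g T t) (II μ g T t)
    rw [add_sub_cancel_left] at this
    linarith only [this, h3, h4, hε1]
  have h7 := NP_expm_sub (Y := (K1 + 1) * (1 + Sd μ T t)) (a := -I * II μ g T t)
    (b := I * Psum g T t) (by nlinarith only [hK1, h5])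
    (by rw [norm_mul, norm_neg, norm_I, one_mul]; nlinarith only [hK1, h4, h5])
    (by rw [norm_mul, norm_I, one_mul]; nlinarith only [hK1, h6, h5]) m
  rw [show -I * II μ g T t - I * Psum g T t = -I * (II μ g T t + Psum g T t) by ring, norm_mul,
    norm_neg, norm_I, one_mul] at h7
  calc _ ≤ (m + 1) * (m * ε' * ((K1 + 1) * (1 + Sd μ T t)) ^ m) * (K * (1 + Sd μ T t) ^ k) := by
        gcongr
        exact h7.trans (by gcongr)
    _ = _ := by rw [hA, mul_pow, pow_add]; ring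

end Pool.Agent.P.MP_7eacff_nt.Rig
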