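import Pool.Agent.P.MP_7eacff_nt.Rig.Sums

/-!
The smooth part of the mollifier is the exponential of a prime sum.
-/

open Complex Filter Topology MeasureTheory Set
open scoped Real ENNReal ComplexConjugate

namespace Pool.Agent.P.MP_7eacff_nt.Rig

theorem rec_close (m : ℕ) {Y : ℝ} (hY : 1 ≤ Y) : ∃ K, 0 < K ∧ ∀ (E q : ℕ → ℂ) (σ : ℝ), E 0 = 1 →
    q 0 = 0 → (∀ i ≤ m, ‖q i‖ ≤ Y) → (∀ i, 2 ≤ i → i ≤ m → ‖q i‖ ≤ σ) → 0 ≤ σ →
    (∀ s ≤ m, s * E s = ∑ i ∈ Finset.range (s + 1), q i * E (s - i)) →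
    ‖∑ s ∈ Finset.range (m + 1), E s - expm m (q 1)‖ ≤ K * σ := by
  refine ⟨∑ s ∈ Finset.range (m + 1), s * Y ^ s + 1, by positivity, ?_⟩
  intro E q σ h0 hq0 hq hσ hσ0 hrec
  have hE := norm_le_pow_of_rec hY h0 hq0 hq hrec
  have key : ∀ s ≤ m, ‖E s - q 1 ^ s / s.factorial‖ ≤ s * Y ^ s * σ := by
    intro s
    induction s with
    | zero => simp [h0]
    | succ s ih =>
      intro hs
      have ih := ih (by omega)
      have h1 := hrec (s + 1) hs
      rw [Finset.sum_range_succ', Finset.sum_range_succ', hq0, zero_mul, add_zero] at h1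
      have hs0 : ((s + 1 : ℕ) : ℂ) ≠ 0 := Nat.cast_ne_zero.2 (Nat.succ_ne_zero s)
      have hf0 : (s.factorial : ℂ) ≠ 0 := Nat.cast_ne_zero.2 s.factorial_ne_zero
      have h2 : ((s + 1 : ℕ) : ℂ) * (E (s + 1) - q 1 ^ (s + 1) / (s + 1).factorial) =
          ∑ i ∈ Finset.range s, q (i + 1 + 1) * E (s + 1 - (i + 1 + 1)) +
            q 1 * (E s - q 1 ^ s / s.factorial) := by
        rw [mul_sub, h1, Nat.factorial_succ, Nat.cast_mul, zero_add, Nat.add_sub_cancel]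
        field_simp
        ring
      have h3 : ‖∑ i ∈ Finset.range s, q (i + 1 + 1) * E (s + 1 - (i + 1 + 1))‖ ≤
          s * (σ * Y ^ (s + 1)) := by
        refine (norm_sum_le _ _).trans
          ((Finset.sum_le_card_nsmul _ _ (σ * Y ^ (s + 1)) fun i hi => ?_).trans_eq (by simp))
        rw [Finset.mem_range] at hi
        rw [norm_mul]
        exact mul_le_mul (hσ _ (by omega) (by omega))
          ((hE _ (by omega)).trans (pow_le_pow_right₀ hY (by omega))) (norm_nonneg _) hσ0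
      have h4 : ‖q 1 * (E s - q 1 ^ s / s.factorial)‖ ≤ Y * (s * Y ^ s * σ) := by
        rw [norm_mul]
        exact mul_le_mul (hq 1 (by omega)) ih (norm_nonneg _) (by linarith only [hY])
      have h5 := (norm_add_le _ _).trans (add_le_add h3 h4)
      rw [← h2, norm_mul, Complex.norm_natCast] at h5
      refine le_of_mul_le_mul_left (h5.trans ?_) (by positivity)
      have h6 : 0 ≤ Y ^ (s + 1) * σ := by positivity
      push_cast
      calc (s : ℝ) * (σ * Y ^ (s + 1)) + Y * (s * Y ^ s * σ) = 2 * s * (Y ^ (s + 1) * σ) := by ring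
        _ ≤ (s + 1) * (s + 1) * (Y ^ (s + 1) * σ) :=
          mul_le_mul_of_nonneg_right (by nlinarith only [sq_nonneg (s : ℝ)]) h6
        _ = _ := by ring
  rw [expm, ← Finset.sum_sub_distrib, add_mul, Finset.sum_mul]
  refine (norm_sum_le _ _).trans ((Finset.sum_le_sum fun s hs => ?_).trans
    (le_add_of_nonneg_right (by positivity)))
  exact key s (Nat.lt_succ_iff.1 (Finset.mem_range.1 hs))

/-- Integers with few prime factors, all of them small. -/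
noncomputable def Tset (l : ℕ) (T : ℝ) : Finset ℕ :=
  (Finset.Icc 1 ⌊T⌋₊).filter fun n => ArithmeticFunction.cardFactors n ≤ 10 * l ∧
    ∀ p ∈ n.primeFactors, uu T p ≤ 1 / (40 * l)

/-- The sum over squares of primes. -/
noncomputable def S2 (w : ℝ → ℝ) (l : ℕ) (T t : ℝ) : ℂ :=
  ∑ p ∈ Finset.Icc 1 ⌊T⌋₊ with p.Prime ∧ uu T p ≤ 1 / (40 * l),
    (((aw w T p * Real.exp (-(2 * π * uu T p * (10 * l ^ 2))) : ℝ) : ℂ) * ch p t) ^ 2

namespace NewtonAux

/-- The size of a prime. -/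
noncomputable def jT (l : ℕ) (T : ℝ) (p : ℕ) : ℕ :=
  if uu T p ≤ 1 / (40 * l) then 1 else 10 * l + 1 + ⌈uu T p * (40 * l)⌉₊

/-- The small primes. -/
noncomputable def PT (l : ℕ) (T : ℝ) : Finset ℕ :=
  (Finset.Icc 1 ⌊T⌋₊).filter fun p => p.Prime ∧ uu T p ≤ 1 / (40 * l)

variable {l : ℕ} {T : ℝ}

theorem one_le_jT (p : ℕ) : 1 ≤ jT l T p := by
  unfold jT
  split_ifs <;> omega

theorem jT_le {p : ℕ} (h : jT l T p ≤ 10 * l) : uu T p ≤ 1 / (40 * l) := by
  by_contra hn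
  rw [jT, if_neg hn] at h
  omega

theorem uu_nonneg (hT : 1 < T) (n : ℕ) : 0 ≤ uu T n :=
  div_nonneg (Real.log_natCast_nonneg n) (Real.log_pos hT).le

theorem uu_mul {m n : ℕ} (hm : m ≠ 0) (hn : n ≠ 0) : uu T (m * n) = uu T m + uu T n := by
  unfold uu
  rw [Nat.cast_mul, Real.log_mul (Nat.cast_ne_zero.2 hm) (Nat.cast_ne_zero.2 hn), add_div]

theorem uu_mono (hT : 1 < T) {m n : ℕ} (hm : m ≠ 0) (h : m ≤ n) : uu T m ≤ uu T n :=
  div_le_div_of_nonneg_right (Real.log_le_log (Nat.cast_pos.2 (Nat.pos_of_ne_zero hm))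
    (Nat.cast_le.2 h)) (Real.log_pos hT).le

theorem le_rpow (hT : 1 < T) {n : ℕ} (hn : n ≠ 0) {θ : ℝ} (h : uu T n ≤ θ) : (n : ℝ) ≤ T ^ θ := by
  rw [Real.le_rpow_iff_log_le (Nat.cast_pos.2 (Nat.pos_of_ne_zero hn)) (by linarith only [hT])]
  exact (div_le_iff₀ (Real.log_pos hT)).1 h

theorem uu_le_sz (hl : 1 ≤ l) (hT : 1 < T) {n : ℕ} (h : sz (jT l T) n ≤ 10 * l) :
    uu T n ≤ 1 / 4 := by
  have hl' : (0 : ℝ) < l := Nat.cast_pos.2 hl
  have hL := Real.log_pos hT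
  have h1 := log_le_sz (j := jT l T) (c := Real.log T / (40 * l)) (fun p _ => by
    rw [div_mul_eq_mul_div, le_div_iff₀ (by positivity), mul_comm (Real.log T), ← div_le_iff₀ hL,
      mul_div_right_comm]
    unfold jT
    split_ifs with h2
    · rw [Nat.cast_one, ← le_div_iff₀ (by positivity)]
      exact h2
    · push_cast
      have := Nat.le_ceil (uu T p * (40 * l))
      linarith only [this, hl']) n
  have h2 : (sz (jT l T) n : ℝ) ≤ 10 * l := by exact_mod_cast h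
  rw [div_le_iff₀ hL]
  refine h1.trans ((mul_le_mul_of_nonneg_left h2 (by positivity)).trans_eq ?_)
  field_simp
  norm_num

theorem le_floor (hl : 1 ≤ l) (hT : 1 < T) (n : ℕ) (hn : n ≠ 0) (h : sz (jT l T) n ≤ 10 * l) :
    n ≤ ⌊T⌋₊ := by
  refine Nat.le_floor ?_
  have := le_rpow hT hn ((uu_le_sz hl hT h).trans (by norm_num : (1 / 4 : ℝ) ≤ 1))
  rwa [Real.rpow_one] at this

theorem sz_eq {j : ℕ → ℕ} {n : ℕ} (h : ∀ p ∈ n.primeFactors, j p = 1) :
    sz j n = ArithmeticFunction.cardFactors n := by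
  rw [ArithmeticFunction.cardFactors_eq_sum_factorization, sz]
  exact Finsupp.sum_congr fun p hp => by rw [h p hp, mul_one]

theorem mem_iff {n : ℕ} (hn : n ≠ 0) : (ArithmeticFunction.cardFactors n ≤ 10 * l ∧
    ∀ p ∈ n.primeFactors, uu T p ≤ 1 / (40 * l)) ↔ sz (jT l T) n ≤ 10 * l := by
  constructor
  · rintro ⟨h1, h2⟩
    rwa [sz_eq (j := jT l T) fun p hp => if_pos (h2 p hp)]
  · intro h
    have h2 : ∀ p ∈ n.primeFactors, uu T p ≤ 1 / (40 * l) := fun p hp => by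
      obtain ⟨m, rfl⟩ := Nat.dvd_of_mem_primeFactors hp
      have hp' := Nat.prime_of_mem_primeFactors hp
      rw [sz_mul _ hp'.ne_zero (right_ne_zero_of_mul hn), sz_prime _ hp'] at h
      exact jT_le (by omega)
    exact ⟨by rwa [sz_eq (j := jT l T) fun p hp => if_pos (h2 p hp)] at h, h2⟩

theorem Tset_eq : Tset l T = (Finset.Icc 1 ⌊T⌋₊).filter fun n => sz (jT l T) n ≤ 10 * l :=
  Finset.filter_congr fun n hn => mem_iff (by have := (Finset.mem_Icc.1 hn).1; omega)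

theorem sum_Tset (f : ℕ → ℂ) : ∑ n ∈ Tset l T, f n =
    ∑ s ∈ Finset.range (10 * l + 1), Es (jT l T) ⌊T⌋₊ f s := by
  rw [Tset_eq, ← Finset.sum_fiberwise_of_maps_to (g := sz (jT l T))
    (t := Finset.range (10 * l + 1)) fun n hn =>
      Finset.mem_range.2 (Nat.lt_succ_of_le (Finset.mem_filter.1 hn).2)]
  refine Finset.sum_congr rfl fun s hs => ?_
  rw [Finset.filter_filter, Es]
  refine Finset.sum_congr (Finset.filter_congr fun n _ => ?_) fun _ _ => rfl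
  have := Finset.mem_range.1 hs
  exact ⟨fun h => h.2, fun h => ⟨by omega, h⟩⟩

theorem map_pow' {f : ℕ → ℂ} (h1 : f 1 = 1) (hf : ∀ m n, m ≠ 0 → n ≠ 0 → f (m * n) = f m * f n)
    {p : ℕ} (hp : p ≠ 0) (i : ℕ) : f (p ^ i) = f p ^ i := by
  induction i with
  | zero => simpa using h1
  | succ i ih => rw [pow_succ, hf _ _ (pow_ne_zero _ hp) hp, ih, pow_succ]

theorem qs_eq (hl : 1 ≤ l) (hT : 1 < T) {f : ℕ → ℂ} (h1 : f 1 = 1)
    (hf : ∀ m n, m ≠ 0 → n ≠ 0 → f (m * n) = f m * f n) {i : ℕ} (hi : 1 ≤ i) (hi' : i ≤ 10 * l) :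
    qs (jT l T) ⌊T⌋₊ f i = ∑ p ∈ PT l T, f p ^ i := by
  have e : (((Finset.Icc 1 ⌊T⌋₊).filter fun n => sz (jT l T) n = i).filter IsPrimePow) =
      (PT l T).image (· ^ i) := by
    ext k
    simp only [PT, Finset.mem_filter, Finset.mem_image, Finset.mem_Icc]
    constructor
    · rintro ⟨⟨⟨_, a2⟩, a3⟩, a4⟩
      obtain ⟨p, a, hp, ha, rfl⟩ := (isPrimePow_nat_iff _).1 a4
      rw [sz_prime_pow _ hp] at a3
      have b1 := jT_le (((Nat.le_mul_of_pos_left _ ha).trans a3.le).trans hi')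
      rw [jT, if_pos b1, mul_one] at a3
      exact ⟨p, ⟨⟨hp.one_le, (Nat.le_self_pow ha.ne' p).trans a2⟩, hp, b1⟩, by rw [a3]⟩
    · rintro ⟨p, ⟨-, hp, b1⟩, rfl⟩
      have b2 : sz (jT l T) (p ^ i) = i := by rw [sz_prime_pow _ hp, jT, if_pos b1, mul_one]
      exact ⟨⟨⟨Nat.one_le_pow _ _ hp.pos, le_floor hl hT _ (pow_ne_zero _ hp.ne_zero)
        (b2.trans_le hi')⟩, b2⟩, hp.isPrimePow.pow (by omega)⟩
  rw [qs, Es, ← Finset.sum_filter, e,
    Finset.sum_image fun a _ b _ h => Nat.pow_left_injective (by omega) h]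
  refine Finset.sum_congr rfl fun p hp => ?_
  obtain ⟨-, hp, b1⟩ := Finset.mem_filter.1 hp
  rw [hp.pow_minFac (by omega), jT, if_pos b1, map_pow' h1 hf hp.ne_zero, Nat.cast_one, one_mul]

theorem abs_damp (hT : 1 < T) (a : ℝ) (n : ℕ) {y : ℝ} (hy : 0 ≤ y) :
    |a * Real.exp (-(2 * π * uu T n * y))| ≤ |a| := by
  have := uu_nonneg hT n
  rw [abs_mul, Real.abs_exp]
  exact mul_le_of_le_one_right (abs_nonneg _) (Real.exp_le_one_iff.2 (neg_nonpos.2 (by positivity)))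

theorem sum_PT {a : ℕ → ℝ} (h : ∑ p ∈ Finset.Icc 1 ⌊T⌋₊ with p.Prime, a p ^ 2 ≤
    Real.log ((2 ^ l : ℕ) : ℝ) + 1) : ∑ p ∈ Finset.Icc 1 ⌊T⌋₊ with p.Prime, a p ^ 2 ≤ l + 1 := by
  refine h.trans (add_le_add_left ?_ _)
  rw [Nat.cast_pow, Real.log_pow]
  refine mul_le_of_le_one_right (Nat.cast_nonneg _) ?_
  have := Real.log_two_lt_d9
  push_cast
  linarith only [this]

theorem sum_pow_le {a c : ℕ → ℝ} {ε B : ℝ} (hε : 0 ≤ ε)
    (h : ∑ p ∈ Finset.Icc 1 ⌊T⌋₊ with p.Prime, a p ^ 2 ≤ B) (ha : ∀ p : ℕ, p.Prime → |a p| ≤ ε)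
    (hc : ∀ p, 0 ≤ c p ∧ c p ≤ |a p|) (i : ℕ) : ∑ p ∈ PT l T, c p ^ (i + 2) ≤ ε ^ i * B := by
  refine le_trans ?_ (mul_le_mul_of_nonneg_left h (by positivity))
  rw [Finset.mul_sum]
  refine (Finset.sum_le_sum fun p hp => ?_).trans (Finset.sum_le_sum_of_subset_of_nonneg
    (s := PT l T) (fun p hp => ?_) fun p _ _ => by positivity)
  · rw [pow_add, ← sq_abs (a p)]
    exact mul_le_mul (pow_le_pow_left₀ (hc p).1 ((hc p).2.trans
      (ha p (Finset.mem_filter.1 hp).2.1)) _) (pow_le_pow_left₀ (hc p).1 (hc p).2 _)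
      (pow_nonneg (hc p).1 _) (by positivity)
  · exact Finset.mem_filter.2 ⟨(Finset.mem_filter.1 hp).1, (Finset.mem_filter.1 hp).2.1⟩

theorem cm_rankin (a : ℕ → ℝ) (n : ℕ) : cm (fun p => Real.exp 1 * a p ^ 2) n =
    Real.exp (ArithmeticFunction.cardFactors n) * cm a n ^ 2 := by
  rw [ArithmeticFunction.cardFactors_eq_sum_factorization, ← Real.exp_one_pow]
  simp only [cm, Finsupp.prod, Finsupp.sum, mul_pow]
  rw [Finset.prod_mul_distrib, Finset.prod_pow_eq_pow_sum, ← Finset.prod_pow]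
  congr 1
  exact Finset.prod_congr rfl fun p _ => by ring

theorem term_le (hl : 1 ≤ l) (hT : 1 < T) (a : ℕ → ℝ) {n : ℕ} (hn : n ∈ Finset.Icc 1 ⌊T⌋₊)
    (h : n ∉ Tset l T) : (cm a n * Real.exp (-(2 * π * uu T n * (10 * l ^ 2)))) ^ 2 ≤
      Real.exp (-(3 * l)) * cm a n ^ 2 +
        Real.exp (-(10 * l)) * cm (fun p => Real.exp 1 * a p ^ 2) n := by
  have hl' : (0 : ℝ) < l := Nat.cast_pos.2 hl
  have hn0 : n ≠ 0 := by
    have := (Finset.mem_Icc.1 hn).1
    omega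
  rw [cm_rankin, ← mul_assoc (Real.exp _), ← Real.exp_add, ← add_mul, mul_pow, mul_comm]
  refine mul_le_mul_of_nonneg_right ?_ (sq_nonneg _)
  rw [← Real.exp_nat_mul]
  have hu := uu_nonneg hT n
  by_cases h1 : ArithmeticFunction.cardFactors n ≤ 10 * l
  · have h2 : ¬ ∀ p ∈ n.primeFactors, uu T p ≤ 1 / (40 * l) := fun h2 =>
      h (Finset.mem_filter.2 ⟨hn, h1, h2⟩)
    push Not at h2
    obtain ⟨p, hp, h3⟩ := h2
    have h4 := h3.le.trans (uu_mono hT (Nat.prime_of_mem_primeFactors hp).ne_zero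
      (Nat.le_of_mem_primeFactors hp))
    rw [div_le_iff₀ (by positivity)] at h4
    refine le_add_of_le_of_nonneg (Real.exp_le_exp.2 ?_) (Real.exp_pos _).le
    have h5 : 3 * (l : ℝ) * 1 ≤ π * l * (uu T n * (40 * l)) :=
      mul_le_mul (mul_le_mul_of_nonneg_right Real.pi_gt_three.le hl'.le) h4 zero_le_one
        (by positivity)
    push_cast
    linarith only [h5]
  · refine le_add_of_nonneg_of_le (Real.exp_pos _).le (Real.exp_le_exp.2 ?_)
    have h2 : ((10 * l : ℕ) : ℝ) ≤ ArithmeticFunction.cardFactors n :=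
      Nat.cast_le.2 (not_le.1 h1).le
    have h3 : 0 ≤ 2 * π * uu T n * (10 * l ^ 2) := by positivity
    push_cast at h2 ⊢
    linarith only [h2, h3]

theorem num_le (hl : 10 ≤ l) : 2 * (Real.exp (-(3 * l)) * (8 * ((2 ^ l : ℕ) : ℝ)) +
    Real.exp (-(10 * l)) * Real.exp (6 * (l + 1))) ≤ Real.exp (-l) := by
  have hl' : (10 : ℝ) ≤ l := by exact_mod_cast hl
  have h1 : ((2 ^ l : ℕ) : ℝ) ≤ Real.exp l := by
    rw [← Real.exp_one_pow, Nat.cast_pow]
    refine pow_le_pow_left₀ (Nat.cast_nonneg _) ?_ _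
    have := Real.add_one_le_exp 1
    push_cast
    linarith only [this]
  have h2 : (32 : ℝ) ≤ ((2 ^ l : ℕ) : ℝ) := by
    have : 2 ^ 5 ≤ 2 ^ l := Nat.pow_le_pow_right (by norm_num) (by omega)
    exact_mod_cast this
  have h3 : Real.exp (-(3 * l)) * (Real.exp l * Real.exp l) = Real.exp (-l) := by
    rw [← Real.exp_add, ← Real.exp_add]
    congr 1
    ring
  have h4 : Real.exp (-(3 * l)) * (32 * ((2 ^ l : ℕ) : ℝ)) ≤ Real.exp (-l) := by
    rw [← h3]
    exact mul_le_mul_of_nonneg_left (mul_le_mul (h2.trans h1) h1 (Nat.cast_nonneg _)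
      (Real.exp_pos _).le) (Real.exp_pos _).le
  have h5 : Real.exp (-(10 * l)) * Real.exp (6 * (l + 1)) * Real.exp 3 ≤ Real.exp (-l) := by
    rw [← Real.exp_add, ← Real.exp_add]
    exact Real.exp_le_exp.2 (by linarith only [hl'])
  have h6 : Real.exp (-(10 * l)) * Real.exp (6 * (l + 1)) * 4 ≤
      Real.exp (-(10 * l)) * Real.exp (6 * (l + 1)) * Real.exp 3 := by
    have := Real.add_one_le_exp 3
    exact mul_le_mul_of_nonneg_left (by linarith only [this]) (by positivity)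
  linarith only [h4, h5, h6]

end NewtonAux

open NewtonAux in
theorem Tset_close {l : ℕ} (hl : 1 ≤ l) {w : ℝ → ℝ} (hw : Wt (2 ^ l) w) :
    ∃ K, 0 < K ∧ ∀ ε, 0 < ε → ∀ᶠ T : ℝ in atTop, ∀ t, ‖SS w l T t‖ ≤ l + 1 →
      ‖Gy (Tset l T) (cm (aw w T)) T t (10 * l ^ 2) - expm (10 * l) (SS w l T t)‖ ≤
        K * ‖S2 w l T t‖ + ε := by
  have hY : (1 : ℝ) ≤ l + 1 := le_add_of_nonneg_left (Nat.cast_nonneg l)
  obtain ⟨K, hK, hK'⟩ := rec_close (10 * l) hY
  refine ⟨K, hK, fun ε hε => ?_⟩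
  have hε' : 0 < min 1 (ε / (K * (l + 1))) := lt_min one_pos (by positivity)
  have hb : 1 ≤ 2 ^ l := Nat.one_le_two_pow
  filter_upwards [hw.sum_prime_le hb, hw.small hb hε', eventually_gt_atTop 1] with T h1 h2 hT t ht
  set f : ℕ → ℂ := fun n =>
    ((cm (aw w T) n * Real.exp (-(2 * π * uu T n * (10 * l ^ 2))) : ℝ) : ℂ) * ch n t with hf
  have f1 : f 1 = 1 := by simp [hf, uu]
  have f2 : ∀ m n, m ≠ 0 → n ≠ 0 → f (m * n) = f m * f n := fun m n hm hn => by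
    simp only [hf]
    rw [cm_mul _ hm hn, ch_mul hm hn, uu_mul hm hn, mul_add, add_mul, neg_add, Real.exp_add]
    push_cast
    ring
  have f3 : ∀ p ∈ PT l T, f p =
      ((aw w T p * Real.exp (-(2 * π * uu T p * (10 * l ^ 2))) : ℝ) : ℂ) * ch p t := fun p hp => by
    simp only [hf]
    rw [cm_prime _ (Finset.mem_filter.1 hp).2.1]
  have hN : 1 ≤ ⌊T⌋₊ := Nat.le_floor (by exact_mod_cast hT.le)
  have q1 : qs (jT l T) ⌊T⌋₊ f 1 = SS w l T t := by
    rw [qs_eq hl hT f1 f2 le_rfl (by omega)]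
    exact Finset.sum_congr rfl fun p hp => by rw [pow_one, f3 p hp]
  have q2 : qs (jT l T) ⌊T⌋₊ f 2 = S2 w l T t := by
    rw [qs_eq hl hT f1 f2 one_le_two (by omega)]
    exact Finset.sum_congr rfl fun p hp => by rw [f3 p hp]
  have q3 : ∀ i, i + 2 ≤ 10 * l →
      ‖qs (jT l T) ⌊T⌋₊ f (i + 2)‖ ≤ min 1 (ε / (K * (l + 1))) ^ i * (l + 1) := fun i hi => by
    rw [qs_eq hl hT f1 f2 (by omega) hi]
    refine (norm_sum_le _ _).trans (le_trans (Finset.sum_le_sum fun p hp => ?_)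
      (sum_pow_le (l := l) hε'.le (sum_PT h1) h2
        (c := fun p => |aw w T p * Real.exp (-(2 * π * uu T p * (10 * l ^ 2)))|)
        (fun p => ⟨abs_nonneg _, abs_damp hT _ _ (by positivity)⟩) i))
    rw [norm_pow, f3 p hp, norm_mul, norm_ch, mul_one, Complex.norm_real, Real.norm_eq_abs]
  have hq0 := qs_zero (j := jT l T) (fun p _ => one_le_jT p) hN f
  have h3 := hK' (Es (jT l T) ⌊T⌋₊ f) (qs (jT l T) ⌊T⌋₊ f) (‖S2 w l T t‖ + ε / K)
    ((Es_zero (fun p _ => one_le_jT p) hN f).trans f1) hq0 (fun i hi => ?_) (fun i hi hi' => ?_)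
    (by positivity) fun s hs => Es_rec (le_floor hl hT) f2 hs
  · rw [q1, ← sum_Tset, mul_add, mul_div_cancel₀ _ hK.ne'] at h3
    exact h3
  · rcases i with _ | _ | i
    · rw [hq0, norm_zero]
      positivity
    · exact q1 ▸ ht
    · exact (q3 i hi).trans (mul_le_of_le_one_left (by positivity)
        (pow_le_one₀ hε'.le (min_le_left _ _)))
  · obtain ⟨i, rfl⟩ := Nat.exists_eq_add_of_le' hi
    rcases i with _ | i
    · rw [zero_add, q2]
      exact le_add_of_nonneg_right (by positivity)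
    · refine (q3 _ hi').trans (le_add_of_nonneg_of_le (norm_nonneg _) ?_)
      have h4 : min 1 (ε / (K * (l + 1))) ^ (i + 1) ≤ ε / (K * (l + 1)) :=
        (pow_le_of_le_one hε'.le (min_le_left _ _) (Nat.succ_ne_zero i)).trans (min_le_right _ _)
      refine (mul_le_mul_of_nonneg_right h4 (by positivity)).trans_eq ?_
      field_simp

open NewtonAux in
theorem sm_S2 {l : ℕ} (hl : 1 ≤ l) {w : ℝ → ℝ} (hw : Wt (2 ^ l) w) {ε ρ : ℝ} (hε : 0 < ε)
    (hρ : 0 < ρ) :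
    ∀ᶠ T : ℝ in atTop, Sm ρ T (fun t => ENNReal.ofReal (‖S2 w l T t‖ ^ 2)) ε := by
  have hε' : 0 < min 1 (ε / (2 * (l + 1))) := lt_min one_pos (by positivity)
  have hb : 1 ≤ 2 ^ l := Nat.one_le_two_pow
  filter_upwards [hw.sum_prime_le hb, hw.small hb hε', eventually_gt_atTop 1,
    sm_dir (θ := 1 / 2) (by norm_num) hρ] with T h1 h2 hT h3
  set c : ℕ → ℝ := fun p => aw w T p * Real.exp (-(2 * π * uu T p * (10 * l ^ 2))) with hc
  have hinj : ∀ a ∈ PT l T, ∀ b ∈ PT l T, a ^ 2 = b ^ 2 → a = b := fun a _ b _ h =>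
    Nat.pow_left_injective two_ne_zero h
  have h4 := h3 ((PT l T).image (· ^ 2)) (fun n => (c n.sqrt : ℂ) ^ 2) fun n hn => by
    obtain ⟨p, hp, rfl⟩ := Finset.mem_image.1 hn
    obtain ⟨-, hp, hu⟩ := Finset.mem_filter.1 hp
    refine ⟨Nat.one_le_pow _ _ hp.pos, le_rpow hT (pow_ne_zero _ hp.ne_zero) ?_⟩
    have hl' : (1 : ℝ) ≤ l := by exact_mod_cast hl
    have : (1 : ℝ) / (40 * l) ≤ 1 / 4 := one_div_le_one_div_of_le (by norm_num)
      (by linarith only [hl'])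
    rw [sq, uu_mul hp.ne_zero hp.ne_zero]
    linarith only [this, hu]
  refine h4.mono (by linarith only [hT]) le_rfl (fun t _ => le_of_eq ?_) ?_
  · rw [Finset.sum_image hinj]
    congr 3
    refine Finset.sum_congr rfl fun p hp => ?_
    have hp0 := (Finset.mem_filter.1 hp).2.1.ne_zero
    rw [Nat.sqrt_eq', mul_pow, sq p, ch_mul hp0 hp0, ← sq]
  · rw [Finset.sum_image hinj]
    have h5 := sum_pow_le (l := l) hε'.le (sum_PT h1) h2 (c := fun p => |c p|)
      (fun p => ⟨abs_nonneg _, abs_damp hT _ _ (by positivity)⟩) 2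
    have h6 : min 1 (ε / (2 * (l + 1))) ^ 2 ≤ ε / (2 * (l + 1)) :=
      (pow_le_of_le_one hε'.le (min_le_left _ _) two_ne_zero).trans (min_le_right _ _)
    have h7 : ε / (2 * (l + 1)) * (l + 1) = ε / 2 := by field_simp
    have h8 := h5.trans ((mul_le_mul_of_nonneg_right h6 (by positivity)).trans_eq h7)
    rw [Finset.sum_congr rfl (g := fun p => |c p| ^ (2 + 2)) fun p _ => by
      rw [Nat.sqrt_eq', norm_pow, Complex.norm_real, Real.norm_eq_abs, ← pow_mul]]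
    linarith only [h8]

open NewtonAux in
theorem sm_Tset {l : ℕ} (hl : 10 ≤ l) {w : ℝ → ℝ} (hw : Wt (2 ^ l) w) {ρ : ℝ} (hρ : 0 < ρ) :
    ∀ᶠ T : ℝ in atTop, Sm ρ T (fun t => ENNReal.ofReal (‖Gm (2 ^ l) w T t (10 * l ^ 2) -
      Gy (Tset l T) (cm (aw w T)) T t (10 * l ^ 2)‖ ^ 2)) (Real.exp (-l)) := by
  have hb : 1 ≤ 2 ^ l := Nat.one_le_two_pow
  have hb4 : 4 ≤ 2 ^ l := Nat.pow_le_pow_right (n := 2) (i := 2) (by norm_num) (by omega)
  have hb4' : (4 : ℝ) ≤ ((2 ^ l : ℕ) : ℝ) := by exact_mod_cast hb4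
  filter_upwards [hw.sum_prime_le hb, hw.small hb (ε := 1 / 3) (by norm_num), hw.total_le hb,
    eventually_gt_atTop 1, sm_dir (θ := 1 - 2 / ((2 ^ l : ℕ) : ℝ))
      (sub_lt_self _ (by positivity)) hρ] with T h1 h2 h0 hT h3
  have h4 := h3 (Nset (2 ^ l) T \ Tset l T) (fun n =>
    ((cm (aw w T) n * Real.exp (-(2 * π * uu T n * (10 * l ^ 2))) : ℝ) : ℂ)) fun n hn =>
      have h := mem_Nset_le hb4 hT (Finset.mem_sdiff.1 hn).1
      ⟨h.1, h.2.2⟩
  refine h4.mono (by linarith only [hT]) le_rfl (fun t _ => le_of_eq ?_) ?_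
  · rw [Gm, Gy, Gy, ← Finset.sum_sdiff_sub_sum_sdiff,
      Finset.sum_eq_zero (s := Tset l T \ Nset (2 ^ l) T), sub_zero]
    intro n hn
    obtain ⟨a1, a2⟩ := Finset.mem_sdiff.1 hn
    rw [Tset_eq, Finset.mem_filter, Finset.mem_Icc] at a1
    have a3 : cm (aw w T) n = 0 := by
      by_contra a3
      refine a2 (hw.mem_Nset hb4 hT (by omega) a3 ((uu_le_sz (by omega) hT a1.2).trans ?_))
      have : 3 / ((2 ^ l : ℕ) : ℝ) ≤ 3 / 4 :=
        div_le_div_of_nonneg_left (by norm_num) (by norm_num) hb4'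
      linarith only [this]
    simp [a3]
  · refine le_trans (mul_le_mul_of_nonneg_left ?_ zero_le_two) (num_le hl)
    have he : Real.exp 1 ≤ 3 := Real.exp_one_lt_d9.le.trans (by norm_num)
    have hx : ∀ p : ℕ, p.Prime → Real.exp 1 * aw w T p ^ 2 ≤ 1 / 2 := fun p hp => by
      have a1 : aw w T p ^ 2 ≤ (1 / 3) ^ 2 := by
        rw [← sq_abs]
        exact pow_le_pow_left₀ (abs_nonneg _) (h2 p hp) _
      exact (mul_le_mul he a1 (sq_nonneg _) (by norm_num)).trans (by norm_num)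
    have h5 := sum_cm_le (x := fun p => Real.exp 1 * aw w T p ^ 2) (fun p _ => by positivity) hx ⌊T⌋₊
    have h6 : ∑ p ∈ Finset.Icc 1 ⌊T⌋₊ with p.Prime, (Real.exp 1 * aw w T p ^ 2 +
        2 * (Real.exp 1 * aw w T p ^ 2) ^ 2) ≤ 6 * ((l : ℝ) + 1) := by
      refine le_trans ?_ (mul_le_mul_of_nonneg_left (sum_PT h1) (by norm_num))
      rw [Finset.mul_sum]
      refine Finset.sum_le_sum fun p hp => ?_
      have a1 := hx p (Finset.mem_filter.1 hp).2
      have a2 : 0 ≤ Real.exp 1 * aw w T p ^ 2 := by positivity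
      have a3 := mul_le_mul_of_nonneg_right he (sq_nonneg (aw w T p))
      nlinarith only [a1, a2, a3]
    have hsub : Nset (2 ^ l) T \ Tset l T ⊆ Finset.Icc 1 ⌊T⌋₊ :=
      Finset.sdiff_subset.trans (Finset.filter_subset _ _)
    refine (Finset.sum_le_sum (g := fun n => Real.exp (-(3 * l)) * cm (aw w T) n ^ 2 +
      Real.exp (-(10 * l)) * cm (fun p => Real.exp 1 * aw w T p ^ 2) n) fun n hn => ?_).trans
      ((Finset.sum_le_sum_of_subset_of_nonneg hsub fun n _ _ => ?_).trans ?_)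
    · rw [Complex.norm_real, Real.norm_eq_abs, sq_abs]
      exact term_le (by omega) hT _ (hsub hn) (Finset.mem_sdiff.1 hn).2
    · rw [cm_rankin]
      positivity
    · rw [Finset.sum_add_distrib, ← Finset.mul_sum, ← Finset.mul_sum]
      exact add_le_add (mul_le_mul_of_nonneg_left h0 (Real.exp_pos _).le)
        (mul_le_mul_of_nonneg_left (h5.trans (Real.exp_le_exp.2 h6)) (Real.exp_pos _).le)

end Pool.Agent.P.MP_7eacff_nt.Rig
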