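import Pool.Agent.P.MP_7eacff_nt.Rig.Phi

/-!
Existence of the symbol with uniform bounds.
-/

open Complex Filter Topology MeasureTheory Set
open scoped Real ENNReal ComplexConjugate

namespace Pool.Agent.P.MP_7eacff_nt.Rig

namespace Sym2Aux

/-- The symbol of the sharp window. -/
noncomputable def g0 (c u : ℝ) : ℂ := 2 * π * (gc c u * ee (-(c * u / 2)))

/-- Moments of the window. -/
noncomputable def mo (c : ℝ) (k : ℕ) (u : ℝ) : ℂ :=
  ∫ x in Icc (-c) 0, (2 * π * I * x) ^ k * ee (u * x)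

theorem g0_eq {c : ℝ} (hc : 0 ≤ c) : g0 c = fun u => 2 * π * mo c 0 u := by
  funext u
  have := gc_mul_ee hc u 0
  simp only [mul_zero, ee_zero, mul_one, zero_sub] at this
  simp only [g0, mo, pow_zero, one_mul, this]

theorem norm_pt {c : ℝ} (hc' : c ≤ 1 / 2) (k : ℕ) (u : ℝ) {x : ℝ} (hx : x ∈ Icc (-c) 0) :
    ‖(2 * π * I * x : ℂ) ^ k * ee (u * x)‖ ≤ 4 ^ k := by
  have h1 : |x| ≤ 1 / 2 := abs_le.2 ⟨by linarith [hx.1], by linarith [hx.2]⟩
  have h2 : ‖(2 * π * I * x : ℂ)‖ ≤ 4 := by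
    simp only [norm_mul, norm_I, norm_real, Real.norm_eq_abs, Complex.norm_two,
      abs_of_pos Real.pi_pos, mul_one]
    nlinarith only [h1, Real.pi_le_four, Real.pi_pos, abs_nonneg x]
  rw [norm_mul, norm_ee, mul_one, norm_pow]
  exact pow_le_pow_left₀ (norm_nonneg _) h2 k

theorem hasDerivAt_mo {c : ℝ} (hc' : c ≤ 1 / 2) (k : ℕ) (u : ℝ) :
    HasDerivAt (mo c k) (mo c (k + 1) u) u := by
  refine (hasDerivAt_integral_of_dominated_loc_of_deriv_le (μ := volume.restrict (Icc (-c) 0))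
    (F := fun u x : ℝ => (2 * π * I * x : ℂ) ^ k * ee (u * x))
    (F' := fun u x : ℝ => (2 * π * I * x : ℂ) ^ (k + 1) * ee (u * x)) (x₀ := u)
    (bound := fun _ => 4 ^ (k + 1)) (s := univ) univ_mem
    (Eventually.of_forall fun y => Continuous.aestronglyMeasurable (by fun_prop))
    (Continuous.integrableOn_Icc (by fun_prop))
    (Continuous.aestronglyMeasurable (by fun_prop)) ?_ (integrable_const _) ?_).2
  · exact (ae_restrict_iff' measurableSet_Icc).2 (ae_of_all _ fun x hx y _ =>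
      norm_pt hc' (k + 1) y hx)
  · refine ae_of_all _ fun x y _ => ?_
    refine ((hasDerivAt_ee x y).const_mul ((2 * π * I * x : ℂ) ^ k)).congr_deriv ?_
    ring

theorem norm_mo {c : ℝ} (hc : 0 ≤ c) (hc' : c ≤ 1 / 2) (k : ℕ) (u : ℝ) :
    ‖2 * π * mo c k u‖ ≤ 4 * 4 ^ k := by
  have h1 : ‖mo c k u‖ ≤ 4 ^ k * (volume.real (Icc (-c) (0 : ℝ))) :=
    norm_setIntegral_le_of_norm_le_const measure_Icc_lt_top fun x hx => norm_pt hc' k u hx
  rw [Real.volume_real_Icc_of_le (by linarith)] at h1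
  have h2 : (0 : ℝ) < 4 ^ k := by positivity
  have h3 : ‖mo c k u‖ ≤ 4 ^ k * (1 / 2) := h1.trans (by gcongr; linarith)
  simp only [norm_mul, norm_real, Real.norm_eq_abs, Complex.norm_two, abs_of_pos Real.pi_pos]
  calc 2 * π * ‖mo c k u‖ ≤ 2 * 4 * (4 ^ k * (1 / 2)) := by gcongr; exact Real.pi_le_four
    _ = _ := by ring

theorem deriv_mo {c : ℝ} (hc' : c ≤ 1 / 2) (k : ℕ) :
    deriv (fun u => 2 * π * mo c k u) = fun u => 2 * π * mo c (k + 1) u :=
  funext fun u => ((hasDerivAt_mo hc' k u).const_mul _).deriv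

theorem contDiff_g0 {c : ℝ} (hc : 0 ≤ c) : ContDiff ℝ 2 (g0 c) := by
  refine contDiff_const.mul ((ofRealCLM.contDiff.comp (contDiff_gc hc)).mul ?_)
  exact ((ofRealCLM.contDiff.comp (show ContDiff ℝ 2 fun u : ℝ => 2 * π * -(c * u / 2) by
    fun_prop)).mul contDiff_const).cexp

theorem g0_b0 {c : ℝ} (hc : 0 ≤ c) (hc' : c ≤ 1 / 2) (u : ℝ) : ‖g0 c u‖ ≤ 64 := by
  rw [g0_eq hc]; exact (norm_mo hc hc' 0 u).trans (by norm_num)

theorem g0_b1 {c : ℝ} (hc : 0 ≤ c) (hc' : c ≤ 1 / 2) (u : ℝ) : ‖deriv (g0 c) u‖ ≤ 64 := by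
  rw [g0_eq hc, deriv_mo hc']; exact (norm_mo hc hc' _ u).trans (by norm_num)

theorem g0_b2 {c : ℝ} (hc : 0 ≤ c) (hc' : c ≤ 1 / 2) (u : ℝ) :
    ‖deriv (deriv (g0 c)) u‖ ≤ 64 := by
  rw [g0_eq hc, deriv_mo hc', deriv_mo hc']; exact (norm_mo hc hc' _ u).trans (by norm_num)

theorem bump_mul {f g : ℝ → ℂ} {R B B' : ℝ} (hcd : ContDiff ℝ 2 f) (b0 : ∀ u, ‖f u‖ ≤ B)
    (b1 : ∀ u, ‖deriv f u‖ ≤ B) (b2 : ∀ u, ‖deriv (deriv f) u‖ ≤ B) (hg : Bump g R B') :
    Bump (fun u => f u * g u) R (4 * (B * B')) := by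
  have hB : 0 ≤ B := (norm_nonneg _).trans (b0 0)
  have hB' := hg.nonneg
  have d : ∀ {f : ℝ → ℂ}, ContDiff ℝ 2 f → ∀ u, HasDerivAt f (deriv f u) u :=
    fun h u => (h.differentiable (by norm_num) u).hasDerivAt
  have d' : ∀ {f : ℝ → ℂ}, ContDiff ℝ 2 f → ∀ u, HasDerivAt (deriv f) (deriv (deriv f) u) u :=
    fun h u => ((contDiff_one_deriv h).differentiable (by norm_num) u).hasDerivAt
  have e1 : deriv (fun u => f u * g u) = fun u => deriv f u * g u + f u * deriv g u :=
    funext fun u => ((d hcd u).mul (d hg.cd u)).deriv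
  have e2 : ∀ u, deriv (deriv fun u => f u * g u) u = deriv (deriv f) u * g u +
      deriv f u * deriv g u + (deriv f u * deriv g u + f u * deriv (deriv g) u) := fun u => by
    rw [e1]
    exact (((d' hcd u).mul (d hg.cd u)).add ((d hcd u).mul (d' hg.cd u))).deriv
  have m : ∀ {a b : ℂ}, ‖a‖ ≤ B → ‖b‖ ≤ B' → ‖a * b‖ ≤ B * B' := fun ha hb => by
    rw [norm_mul]; gcongr
  have h0 : 0 ≤ B * B' := by positivity
  refine ⟨hcd.mul hg.cd, fun u hu => by simp [hg.zero u hu], fun u => ?_, fun u => ?_,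
    fun u => ?_⟩
  · linarith [m (b0 u) (hg.b0 u)]
  · rw [e1]
    linarith only [h0, norm_add_le (deriv f u * g u) (f u * deriv g u), m (b1 u) (hg.b0 u),
      m (b0 u) (hg.b1 u)]
  · rw [e2]
    refine (norm_add_le _ _).trans ((add_le_add (norm_add_le _ _) (norm_add_le _ _)).trans ?_)
    linarith [m (b2 u) (hg.b0 u), m (b1 u) (hg.b1 u), m (b0 u) (hg.b2 u)]

theorem key (c u : ℝ) : I * (u * g0 c u) = 1 - ee (-(c * u)) := by
  have h1 : (u : ℂ) * gc c u = Complex.sin (π * c * u) / π := by exact_mod_cast mul_gc c u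
  have hpi : (π : ℂ) ≠ 0 := by exact_mod_cast Real.pi_pos.ne'
  have h2 : ee (-(c * u / 2)) = cexp (-(π * c * u) * I) := by
    rw [ee]; congr 1; push_cast; ring
  have h3 : ee (-(c * u)) = cexp (-(π * c * u) * I) * cexp (-(π * c * u) * I) := by
    rw [ee, ← Complex.exp_add]; congr 1; push_cast; ring
  have h4 : cexp (π * c * u * I) * cexp (-(π * c * u) * I) = 1 := by
    rw [← Complex.exp_add]; simp
  rw [g0, show I * (u * (2 * π * (gc c u * ee (-(c * u / 2))))) =
    I * (2 * π * (u * gc c u)) * ee (-(c * u / 2)) by ring, h1, h2, h3,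
    show 2 * (π : ℂ) * (Complex.sin (π * c * u) / π) = 2 * Complex.sin (π * c * u) by field_simp,
    Complex.two_sin]
  linear_combination (cexp (-(π * c * u) * I) - cexp (π * c * u * I)) *
    cexp (-(π * c * u) * I) * I_mul_I + h4

theorem sym {W : ℝ → ℝ} {β : ℝ → ℂ} (hW0 : ∀ v, 0 ≤ W v) (hWc : Continuous W)
    (hW1 : ∫ v, W v = 1) (hWi : Integrable W) (hβ : ContDiff ℝ 2 β)
    (hβz : ∀ u, 1 ≤ |u| → β u = 0) (hWβ : ∀ v, iF β v = W v)
    (hβW : ∀ u, β u = iF (fun v => W v) (-u)) {c S : ℝ} (hc : 0 < c) (hS0 : 0 < S) :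
    Sym (fun u => g0 c u * β (u / S)) c S := by
  have hβ1 : ∀ u, ‖β u‖ ≤ 1 := fun u => by
    rw [hβW, ← hW1]
    exact norm_integral_le_of_norm_le hWi (ae_of_all _ fun v => by simp [abs_of_nonneg (hW0 v)])
  have hβ0 : β 0 = 1 := by simp [hβW, iF, integral_complex_ofReal, hW1]
  have hβc : ∀ u, (starRingEnd ℂ) (β (-u)) = β u := fun u => by
    simp [hβW, iF, ← integral_conj, conj_ee]
  have hπ := Real.pi_pos
  have hzS : ∀ u, S < |u| → β (u / S) = 0 := fun u hu => hβz _ (by
    rw [abs_div, abs_of_pos hS0, one_le_div hS0]; exact hu.le)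
  refine ⟨hS0, (contDiff_g0 hc.le).mul (hβ.comp (contDiff_id.div_const S)),
    fun u hu => by simp [hzS u hu], by simp [g0, gc, hβ0], fun u => ?_, fun u => ?_,
    fun x => S * W (S * x), fun x => mul_nonneg hS0.le (hW0 _), by fun_prop,
    (hWi.comp_mul_left' hS0.ne').const_mul S, ?_, fun y => ?_⟩
  · have : |gc c u| ≤ c := by
      unfold gc
      split_ifs with hu
      · exact (abs_of_pos hc).le
      · rw [abs_div, div_le_iff₀ (abs_pos.2 (by positivity))]
        refine Real.abs_sin_le_abs.trans_eq ?_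
        simp only [abs_mul, abs_of_pos hc]; ring
    simp only [g0, norm_mul, norm_ee, norm_real, Real.norm_eq_abs, abs_of_pos hπ,
      Complex.norm_two]
    calc _ ≤ 2 * π * (c * 1) * 1 := by gcongr; exact hβ1 _
      _ = _ := by ring
  · simp only [g0, map_mul, conj_ofReal, conj_ee, gc_neg, neg_div, hβc, map_ofNat]
    congr 4; ring
  · rw [integral_const_mul, Measure.integral_comp_mul_left, hW1, abs_of_pos (inv_pos.2 hS0)]
    simp [hS0.ne']
  · have hi : Integrable fun u => β (u / S) :=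
      (hβ.continuous.comp (by fun_prop)).integrable_of_hasCompactSupport
        (hasCompactSupport_of_zero hzS)
    have e : ∀ u, g0 c u * β (u / S) * ee (u * y) =
        2 * π * ∫ x in Icc (y - c) y, β (u / S) * ee (u * x) := fun u => by
      rw [integral_const_mul, ← gc_mul_ee hc.le, g0]; ring
    simp only [iF, e]
    rw [integral_const_mul, integral_integral_swap, ofReal_mul, ← integral_complex_ofReal]
    · congr 1
      · simp
      congr 1; funext x
      have h1 := Measure.integral_comp_div (fun u => β u * ee (u * (S * x))) S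
      simp only [abs_of_pos hS0] at h1
      rw [ofReal_mul, ← hWβ, iF, ← real_smul, ← h1]
      congr 1; funext u
      congr 2; field_simp
    · refine (hi.norm.mul_prod (integrable_const (1 : ℝ))).mono' ?_ (ae_of_all _ fun z => ?_)
      · have := hβ.continuous
        exact Continuous.aestronglyMeasurable (by unfold Function.uncurry; fun_prop)
      · simp [Function.uncurry]

theorem mix {V : ℝ → ℝ} {b : ℝ → ℂ} (hVc : Continuous V) (hVi : Integrable V)
    (hb : ∀ u, b u = ∫ x, (V x : ℂ) * ee (x * -u)) {c : ℝ} (hc : 0 ≤ c) (hc' : c ≤ 1 / 2)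
    {a : ℂ} (ha : 0 < a.im) :
    -I * Phi (fun u => g0 c u * b u) a = ∫ v : ℝ, (V v : ℂ) * ell c (a - v) := by
  have e : ∀ u : ℝ, g0 c u * b u * EE (u * a) =
      ∫ v : ℝ, (V v : ℂ) * (g0 c u * EE (u * (a - v))) := fun u => by
    rw [hb, ← integral_const_mul, ← integral_mul_const]
    congr 1; funext v
    rw [show (u : ℂ) * (a - v) = u * a + ((v * -u : ℝ) : ℂ) by push_cast; ring, EE_add, EE_ofReal]
    ring
  have hg := (contDiff_g0 hc).continuous
  simp only [Phi, e]
  rw [integral_integral_swap, ← integral_const_mul]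
  · congr 1; funext v
    have h := phi_gc hc (a := a - v) (by simpa using ha)
    rw [integral_const_mul, ← h, Phi]
    simp only [g0]
    ring
  · have h1 : IntegrableOn (fun u : ℝ => 64 * Real.exp (-(2 * π * a.im) * u)) (Ioi 0) :=
      (integrableOn_exp_mul_Ioi (by have := Real.pi_pos; nlinarith [mul_pos this ha]) 0).const_mul _
    refine (h1.mul_prod hVi.norm).mono' ?_ (ae_of_all _ fun z => ?_)
    · exact Continuous.aestronglyMeasurable (by unfold Function.uncurry EE; fun_prop)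
    · simp only [Function.uncurry, norm_mul, norm_EE, norm_real]
      have e2 : (((z.1 : ℝ) : ℂ) * (a - z.2)).im = z.1 * a.im := by simp
      rw [e2, show -(2 * π * (z.1 * a.im)) = -(2 * π * a.im) * z.1 by ring, mul_comm]
      gcongr
      exact g0_b0 hc hc' _

end Sym2Aux

open Sym2Aux in
theorem exists_sym2 : ∃ L, 1 ≤ L ∧ ∀ c ∈ Icc (1 / 4 : ℝ) (1 / 2), ∀ S, 1 ≤ S →
    ∃ f, Sym2 f c S L := by
  obtain ⟨W, β, hW0, hWc, hW1, hWm, hβ, hβz, hWβ, hβW⟩ := exists_W
  have hWi : Integrable W := by simpa using hWm 0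
  obtain ⟨B, hB, hb⟩ := exists_bump hβ fun u (hu : 1 < |u|) => hβz u hu.le
  have hβ0 : β 0 = 1 := by simp [hβW, iF, integral_complex_ofReal, hW1]
  have hβL : ∀ x y, ‖β x - β y‖ ≤ B * |x - y| := fun x y =>
    convex_univ.norm_image_sub_le_of_norm_deriv_le (𝕜 := ℝ)
      (fun u _ => hβ.differentiable (by norm_num) u) (fun u _ => hb.b1 u) trivial trivial
  have hW1i : Integrable fun v => W v * |v| :=
    (hWm 1).mono' (Continuous.aestronglyMeasurable (by fun_prop)) (ae_of_all _ fun v => by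
      rw [Real.norm_of_nonneg (mul_nonneg (hW0 v) (abs_nonneg v)), pow_one]
      exact mul_le_mul_of_nonneg_left (by linarith) (hW0 v))
  obtain ⟨M, hM⟩ : ∃ M, M = ∫ v, W v * |v| := ⟨_, rfl⟩
  have hM0 : 0 ≤ M := hM ▸ integral_nonneg fun v => mul_nonneg (hW0 v) (abs_nonneg v)
  have hπ := Real.pi_pos
  refine ⟨1 + M + 4 * (64 * (64 * B)), by linarith, fun c hc S hS => ?_⟩
  have hS0 : 0 < S := by linarith
  have hc0 : 0 < c := by linarith [hc.1]
  refine ⟨fun u => g0 c u * β (u / S), sym hW0 hWc hW1 hWi hβ hβz hWβ hβW hc0 hS0, ?_,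
    fun u hu => ?_, ?_⟩
  · have h1 : Bump (fun u => β (u / S)) S (64 * B) := by
      simpa using hb.scale_exp hS (b := 0) (by norm_num)
    exact (bump_mul (contDiff_g0 hc0.le) (g0_b0 hc0.le hc.2) (g0_b1 hc0.le hc.2)
      (g0_b2 hc0.le hc.2) h1).mono le_rfl (by linarith)
  · have h2 : ‖1 - ee (-(c * u))‖ ≤ 2 := (norm_sub_le _ _).trans (by simp; norm_num)
    have h1 := hβL (u / S) 0
    have hu0 := hu.1
    rw [hβ0, sub_zero, abs_of_nonneg (by positivity)] at h1
    rw [show I * (u * (g0 c u * β (u / S))) = I * (u * g0 c u) * β (u / S) by ring, key,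
      ← mul_sub_one, norm_mul]
    calc _ ≤ 2 * (B * (u / S)) := mul_le_mul h2 h1 (norm_nonneg _) (by norm_num)
      _ = 2 * B * u / S := by ring
      _ ≤ _ := by gcongr; linarith
  · have hV0 : ∀ x, 0 ≤ S * W (S * x) := fun x => mul_nonneg hS0.le (hW0 _)
    have hVc : Continuous fun x => S * W (S * x) := by fun_prop
    have hVi : Integrable fun x => S * W (S * x) := (hWi.comp_mul_left' hS0.ne').const_mul S
    have hmeas : Measurable fun x => ENNReal.ofReal (S * W (S * x)) :=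
      hVc.measurable.ennreal_ofReal
    have hV1 : ∫ x, S * W (S * x) = 1 := by
      rw [integral_const_mul, Measure.integral_comp_mul_left, hW1, abs_of_pos (inv_pos.2 hS0)]
      simp [hS0.ne']
    have e1 : ∀ x, S * W (S * x) * |x| = W (S * x) * |S * x| := fun x => by
      rw [abs_mul, abs_of_pos hS0]; ring
    refine ⟨volume.withDensity fun x => ENNReal.ofReal (S * W (S * x)), ⟨?_⟩, ?_, ?_,
      fun a ha => ?_⟩
    · rw [withDensity_apply _ MeasurableSet.univ, Measure.restrict_univ,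
        ← ofReal_integral_eq_lintegral_ofReal hVi (ae_of_all _ hV0), hV1, ENNReal.ofReal_one]
    · rw [integrable_withDensity_iff hmeas (by simp)]
      refine (hW1i.comp_mul_left' hS0.ne').congr (ae_of_all _ fun x => ?_)
      simp only [ENNReal.toReal_ofReal (hV0 _)]
      rw [← e1, mul_comm]
    · rw [integral_withDensity_eq_integral_toReal_smul hmeas (by simp)]
      simp only [ENNReal.toReal_ofReal (hV0 _), smul_eq_mul, e1]
      rw [Measure.integral_comp_mul_left (fun v => W v * |v|) S, ← hM,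
        abs_of_pos (inv_pos.2 hS0), smul_eq_mul, mul_comm, ← div_eq_mul_inv]
      gcongr; linarith
    · rw [integral_withDensity_eq_integral_toReal_smul hmeas (by simp)]
      simp only [ENNReal.toReal_ofReal (hV0 _), real_smul]
      refine mix hVc hVi (fun u => ?_) hc0.le hc.2 ha
      have h1 := Measure.integral_comp_mul_left (fun v => (W v : ℂ) * ee (v * -(u / S))) S
      rw [abs_of_pos (inv_pos.2 hS0)] at h1
      have h2 : ∀ x, ((S * W (S * x) : ℝ) : ℂ) * ee (x * -u) =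
          S * ((W (S * x) : ℂ) * ee (S * x * -(u / S))) := fun x => by
        rw [show S * x * -(u / S) = x * -u by field_simp]; push_cast; ring
      simp only [h2]
      rw [integral_const_mul, h1, hβW, iF, real_smul, ← mul_assoc, ← ofReal_mul,
        mul_inv_cancel₀ hS0.ne', ofReal_one, one_mul]

end Pool.Agent.P.MP_7eacff_nt.Rig
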