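import Pool.Agent.P.MP_7eacff_nt.Rig.Newton

/-!
The mollifier high above the critical line.
-/

open Complex Filter Topology MeasureTheory Set
open scoped Real ENNReal ComplexConjugate

namespace Pool.Agent.P.MP_7eacff_nt.Rig

namespace TopAux

/-- The derivative of the prime sum. -/
noncomputable def DD (w : ℝ → ℝ) (l : ℕ) (T t : ℝ) : ℂ :=
  ∑ p ∈ Finset.Icc 1 ⌊T⌋₊ with p.Prime ∧ uu T p ≤ 1 / (40 * l),
    (((aw w T p * Real.exp (-(2 * π * uu T p * (10 * l ^ 2))) : ℝ) : ℂ) *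
      (2 * π * I * ((-uu T p : ℝ) : ℂ))) * ch p t

theorem ch_shift {T : ℝ} (hT : 1 < T) (n : ℕ) (t a : ℝ) :
    ch n (t + a / lam T) = ch n t * ee (a * (-uu T n)) := by
  have h1 : Real.log T ≠ 0 := (Real.log_pos hT).ne'
  have h2 : (π : ℝ) ≠ 0 := Real.pi_ne_zero
  simp only [ch, ← ee_add]
  congr 1
  simp only [lam, uu]
  field_simp
  ring

theorem hasDerivAt_SS (w : ℝ → ℝ) (l : ℕ) {T : ℝ} (hT : 1 < T) (t a : ℝ) :
    HasDerivAt (fun a => SS w l T (t + a / lam T)) (DD w l T (t + a / lam T)) a := by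
  unfold SS DD
  refine HasDerivAt.fun_sum fun p _ => ?_
  simp only [ch_shift hT]
  refine (((hasDerivAt_ee (-uu T p) a).const_mul (ch p t)).const_mul _).congr_deriv ?_
  ring

theorem expm_close {l : ℕ} (hl : 1 ≤ l) {z : ℂ} (hz : ‖z‖ ≤ l + 1) :
    ‖expm (10 * l) z - cexp z‖ ≤ 1 / 4 := by
  have hl' : (1 : ℝ) ≤ l := by exact_mod_cast hl
  have h1 := Complex.exp_bound' (x := z) (n := 10 * l + 1) (by
    rw [div_le_iff₀ (by positivity)]
    push_cast
    linarith)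
  rw [norm_sub_rev]
  refine h1.trans ?_
  have h2 := Real.pow_div_factorial_le_exp (3 * ‖z‖) (by positivity) (10 * l + 1)
  have h3 : Real.exp (3 * ‖z‖) ≤ 3 ^ (3 * l + 3) := by
    calc Real.exp (3 * ‖z‖) ≤ Real.exp ((3 * l + 3 : ℕ) * 1) :=
          Real.exp_le_exp.2 (by push_cast; linarith)
      _ = Real.exp 1 ^ (3 * l + 3) := Real.exp_nat_mul _ _
      _ ≤ 3 ^ (3 * l + 3) := pow_le_pow_left₀ (Real.exp_pos _).le Real.exp_one_lt_three.le _
  have h4 : (3 : ℝ) ^ (3 * l + 3) * 3 ^ 2 ≤ 3 ^ (10 * l + 1) := by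
    rw [← pow_add]
    exact pow_le_pow_right₀ (by norm_num) (by omega)
  rw [mul_pow, mul_div_assoc] at h2
  have h5 : (0 : ℝ) < 3 ^ (3 * l + 3) := by positivity
  have h6 : (0 : ℝ) ≤ ‖z‖ ^ (10 * l + 1) / ((10 * l + 1).factorial : ℝ) := by positivity
  have h7 := mul_le_mul_of_nonneg_right h4 h6
  have h8 : (3 : ℝ) ^ (3 * l + 3) * (9 * (‖z‖ ^ (10 * l + 1) / ((10 * l + 1).factorial : ℝ))) ≤
      3 ^ (3 * l + 3) * 1 := by linarith
  have h9 := le_of_mul_le_mul_left h8 h5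
  linarith

theorem det {G S D : ℝ → ℂ} {Φ : ℝ → ℝ} (hG : Continuous G) (hΦ : Continuous Φ)
    (h0 : ∀ a, 0 ≤ Φ a) (hD : Continuous D) (hS : ∀ a, HasDerivAt S (D a) a)
    (hI : ∫ a in (0 : ℝ)..(1 / 2), Φ a ≤ 1 / 8) (h1 : ∀ a, ‖D a‖ ≤ 1 / 8 + Φ a / 2)
    (h2 : ∀ a, ‖S a - S 0‖ ≤ 1 → ‖G a - cexp (S a)‖ ≤ 3 / 4 + Φ a) :
    ∀ c ∈ Icc (0 : ℝ) (1 / 2), ∫ a in (0 : ℝ)..c, ‖G a - cexp (S 0)‖ ≤
      c / 4 * ‖cexp (S 0)‖ + 1 := by
  have m1 : ∀ c ∈ Icc (0 : ℝ) (1 / 2), ∫ a in (0 : ℝ)..c, Φ a ≤ 1 / 8 := fun c hc =>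
    (intervalIntegral.integral_mono_interval le_rfl hc.1 hc.2 (ae_of_all _ h0)
      (hΦ.intervalIntegrable _ _)).trans hI
  have m2 : ∀ c ∈ Icc (0 : ℝ) (1 / 2), ‖S c - S 0‖ ≤ 1 / 8 := by
    intro c hc
    rw [← intervalIntegral.integral_eq_sub_of_hasDerivAt (fun a _ => hS a)
      (hD.intervalIntegrable _ _)]
    refine (intervalIntegral.norm_integral_le_of_norm_le (g := fun a => 1 / 8 + Φ a / 2) hc.1
      (ae_of_all _ fun a _ => h1 a) ((by fun_prop : Continuous _).intervalIntegrable _ _)).trans ?_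
    rw [intervalIntegral.integral_add (by simp)
      ((by fun_prop : Continuous _).intervalIntegrable _ _)]
    simp only [intervalIntegral.integral_const, smul_eq_mul, intervalIntegral.integral_div]
    linarith [m1 c hc, hc.2]
  intro c hc
  have m3 : ∀ a ∈ Icc (0 : ℝ) c, ‖G a - cexp (S 0)‖ ≤ (3 / 4 + ‖cexp (S 0)‖ / 4) + Φ a := by
    intro a ha
    have k1 := m2 a ⟨ha.1, ha.2.trans hc.2⟩
    have k2 := h2 a (by linarith)
    have k3 := Complex.norm_exp_sub_one_le (x := S a - S 0) (by linarith)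
    have e : cexp (S a) - cexp (S 0) = cexp (S 0) * (cexp (S a - S 0) - 1) := by
      rw [mul_sub, ← Complex.exp_add, mul_one, add_sub_cancel]
    have k4 : ‖cexp (S a) - cexp (S 0)‖ ≤ ‖cexp (S 0)‖ * (1 / 4) := by
      rw [e, norm_mul]
      exact mul_le_mul_of_nonneg_left (by linarith) (norm_nonneg _)
    linarith [norm_sub_le_norm_sub_add_norm_sub (G a) (cexp (S a)) (cexp (S 0))]
  refine (intervalIntegral.integral_mono_on hc.1
    ((by fun_prop : Continuous _).intervalIntegrable _ _)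
    ((by fun_prop : Continuous _).intervalIntegrable _ _) m3).trans ?_
  rw [intervalIntegral.integral_add (by simp) (hΦ.intervalIntegrable _ _)]
  simp only [intervalIntegral.integral_const, smul_eq_mul]
  linarith [m1 c hc, hc.2]

theorem le_rpow {l : ℕ} (hl : 1 ≤ l) {T : ℝ} (hT : 1 < T) {p : ℕ}
    (hp : p ∈ (Finset.Icc 1 ⌊T⌋₊).filter fun p => p.Prime ∧ uu T p ≤ 1 / (40 * l)) :
    1 ≤ p ∧ (p : ℝ) ≤ T ^ (1 / 2 : ℝ) := by
  obtain ⟨h1, -, h2⟩ := Finset.mem_filter.1 hp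
  have h3 := (Finset.mem_Icc.1 h1).1
  have hl' : (1 : ℝ) ≤ l := by exact_mod_cast hl
  have h4 : (1 : ℝ) / (40 * l) ≤ 1 / 2 := one_div_le_one_div_of_le (by norm_num) (by linarith)
  refine ⟨h3, ?_⟩
  rw [Real.le_rpow_iff_log_le (by exact_mod_cast h3) (by linarith)]
  exact (div_le_iff₀ (Real.log_pos hT)).1 (h2.trans h4)

theorem coef_sq_le (w : ℝ → ℝ) (l : ℕ) {T : ℝ} (hT : 1 < T) (p : ℕ) :
    ‖((aw w T p * Real.exp (-(2 * π * uu T p * (10 * l ^ 2))) : ℝ) : ℂ)‖ ^ 2 ≤ aw w T p ^ 2 := by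
  have hu : 0 ≤ uu T p := div_nonneg (Real.log_natCast_nonneg p) (Real.log_pos hT).le
  have h1 : Real.exp (-(2 * π * uu T p * (10 * l ^ 2))) ≤ 1 :=
    Real.exp_le_one_iff.2 (neg_nonpos.2 (by positivity))
  rw [norm_real, Real.norm_eq_abs, sq_abs, mul_pow]
  exact mul_le_of_le_one_right (sq_nonneg _) (pow_le_one₀ (Real.exp_pos _).le h1)

theorem sm_SS {l : ℕ} (hl : 1 ≤ l) {w : ℝ → ℝ} (hw : Wt (2 ^ l) w) {ρ : ℝ} (hρ : 0 < ρ) :
    ∀ᶠ T : ℝ in atTop, Sm ρ T (fun t => ENNReal.ofReal (‖SS w l T t‖ ^ 2)) (4 * l) := by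
  filter_upwards [sm_dir (θ := 1 / 2) (by norm_num) hρ, hw.sum_prime_le Nat.one_le_two_pow,
    eventually_gt_atTop 1] with T h1 h2 hT
  refine (h1 _ _ fun p hp => le_rpow hl hT hp).mono (by linarith) le_rfl (fun _ _ => le_rfl) ?_
  have hl' : (1 : ℝ) ≤ l := by exact_mod_cast hl
  have h3 : Real.log ((2 ^ l : ℕ) : ℝ) ≤ l := by
    push_cast
    rw [Real.log_pow]
    exact mul_le_of_le_one_right (by linarith) (by linarith [Real.log_two_lt_d9])
  have h4 := (Finset.sum_le_sum fun p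
    (_ : p ∈ (Finset.Icc 1 ⌊T⌋₊).filter fun p => p.Prime ∧ uu T p ≤ 1 / (40 * l)) =>
      coef_sq_le w l hT p).trans (Finset.sum_le_sum_of_subset_of_nonneg
        (Finset.monotone_filter_right _ fun p _ hp => hp.1) fun _ _ _ => sq_nonneg _)
  linarith

theorem sm_DD {l : ℕ} (hl : 1 ≤ l) {w : ℝ → ℝ} (hw : Wt (2 ^ l) w) {ρ : ℝ} (hρ : 0 < ρ) :
    ∀ᶠ T : ℝ in atTop, Sm ρ T (fun t => ENNReal.ofReal (‖DD w l T t‖ ^ 2)) (4 / l) := by
  filter_upwards [sm_dir (θ := 1 / 2) (by norm_num) hρ, eventually_gt_atTop 1,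
    Real.tendsto_log_atTop.eventually_ge_atTop 6] with T h1 hT h6
  refine (h1 _ _ fun p hp => le_rpow hl hT hp).mono (by linarith) le_rfl (fun _ _ => le_rfl) ?_
  have hl' : (1 : ℝ) ≤ l := by exact_mod_cast hl
  have h2 := sum_log_le hT (x := 1 / (40 * l)) (by positivity)
  have h3 : 6 / Real.log T ≤ 1 := (div_le_one (by linarith)).2 h6
  have h4 : (1 : ℝ) / (40 * l) ≤ 1 := (div_le_one (by linarith)).2 (by linarith)
  have h5 : ∀ p ∈ (Finset.Icc 1 ⌊T⌋₊).filter fun p => p.Prime ∧ uu T p ≤ 1 / (40 * l),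
      ‖((aw w T p * Real.exp (-(2 * π * uu T p * (10 * l ^ 2))) : ℝ) : ℂ) *
        (2 * π * I * ((-uu T p : ℝ) : ℂ))‖ ^ 2 ≤ 1 / l * (Real.log p / (p * Real.log T)) := by
    intro p hp
    obtain ⟨-, hp1, hp2⟩ := Finset.mem_filter.1 hp
    have hp0 : (0 : ℝ) < p := by exact_mod_cast hp1.pos
    have hu : 0 ≤ uu T p := div_nonneg (Real.log_natCast_nonneg p) (Real.log_pos hT).le
    have k1 : aw w T p ^ 2 ≤ 1 / p := by
      rw [aw, div_pow, neg_sq, Real.sq_sqrt hp0.le]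
      exact div_le_div_of_nonneg_right (pow_le_one₀ (hw.nonneg _) (hw.le_one _)) hp0.le
    have k2 : ‖(2 * π * I * ((-uu T p : ℝ) : ℂ) : ℂ)‖ ^ 2 = 4 * π ^ 2 * uu T p * uu T p := by
      simp only [norm_mul, norm_real, Real.norm_eq_abs, Complex.norm_two, norm_I, abs_neg,
        abs_of_nonneg hu, abs_of_pos Real.pi_pos]
      ring
    have k3 : π ^ 2 ≤ 10 := by nlinarith only [Real.pi_lt_d2, Real.pi_pos]
    have k4 : 4 * π ^ 2 * uu T p ≤ 1 / l := by
      calc 4 * π ^ 2 * uu T p ≤ 40 * (1 / (40 * l)) :=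
            mul_le_mul (by linarith) hp2 hu (by norm_num)
        _ = 1 / l := by field_simp
    rw [norm_mul, mul_pow, k2]
    calc _ ≤ 1 / p * (1 / l * uu T p) :=
          mul_le_mul ((coef_sq_le w l hT p).trans k1) (mul_le_mul_of_nonneg_right k4 hu)
            (by positivity) (by positivity)
      _ = _ := by simp only [uu]; field_simp
  have h7 := Finset.sum_le_sum h5
  rw [← Finset.mul_sum] at h7
  have h8 := mul_le_mul_of_nonneg_left (h2.trans (show _ ≤ (2 : ℝ) by linarith))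
    (show (0 : ℝ) ≤ 1 / l by positivity)
  have h9 : (4 : ℝ) / l = 2 * (1 / l * 2) := by ring
  linarith

theorem continuous_Gy (s : Finset ℕ) (a : ℕ → ℝ) (T y : ℝ) : Continuous fun t => Gy s a T t y := by
  unfold Gy; fun_prop

theorem continuous_SS (w : ℝ → ℝ) (l : ℕ) (T : ℝ) : Continuous fun t => SS w l T t := by
  unfold SS; fun_prop

theorem continuous_S2 (w : ℝ → ℝ) (l : ℕ) (T : ℝ) : Continuous fun t => S2 w l T t := by
  unfold S2; fun_prop

theorem continuous_DD (w : ℝ → ℝ) (l : ℕ) (T : ℝ) : Continuous fun t => DD w l T t := by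
  unfold DD; fun_prop

/-- The three mean square errors. -/
noncomputable def Er (w : ℝ → ℝ) (l : ℕ) (K T t : ℝ) : ℝ :=
  ‖Gm (2 ^ l) w T t (10 * l ^ 2) - Gy (Tset l T) (cm (aw w T)) T t (10 * l ^ 2)‖ ^ 2 +
    2 * K ^ 2 * ‖S2 w l T t‖ ^ 2 + 4 * ‖DD w l T t‖ ^ 2

theorem continuous_Er (w : ℝ → ℝ) (l : ℕ) (K T : ℝ) : Continuous fun t => Er w l K T t := by
  have h1 := continuous_Gy (Nset (2 ^ l) T) (cm (aw w T)) T (10 * l ^ 2)
  have h2 := continuous_Gy (Tset l T) (cm (aw w T)) T (10 * l ^ 2)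
  have h3 := continuous_S2 w l T
  have h4 := continuous_DD w l T
  unfold Er Gm
  fun_prop

theorem sm_Er {l : ℕ} (hl : 10 ≤ l) {w : ℝ → ℝ} (hw : Wt (2 ^ l) w) {K ρ : ℝ} (hK : 0 < K)
    (hρ : 0 < ρ) :
    ∀ᶠ T : ℝ in atTop, Sm ρ T (fun t => ENNReal.ofReal (Er w l K T t)) (18 / l) := by
  have hl1 : 1 ≤ l := by omega
  have hl' : (1 : ℝ) ≤ l := by exact_mod_cast hl1
  filter_upwards [sm_Tset hl hw hρ, sm_S2 hl1 hw (ε := 1 / (2 * K ^ 2 * l)) (by positivity) hρ,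
    sm_DD hl1 hw hρ, eventually_gt_atTop 1] with T h1 h2 h3 hT
  have c3 := continuous_S2 w l T
  have c4 := continuous_DD w l T
  have k2 := h2.const_mul (a := 2 * K ^ 2) (by positivity)
  have k3 := h3.const_mul (a := 4) (by positivity)
  have k4 := (h1.add k2 (by linarith) (by fun_prop) (by positivity) (by positivity)).add k3
    (by linarith) (by fun_prop) (by positivity) (by positivity)
  refine k4.mono (by linarith) le_rfl (fun t _ => ?_) ?_
  · rw [Er, ENNReal.ofReal_add (by positivity) (by positivity),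
      ENNReal.ofReal_add (by positivity) (by positivity), ENNReal.ofReal_mul (by positivity),
      ENNReal.ofReal_mul (p := 4) (by positivity)]
  · have e1 : 2 * K ^ 2 * (1 / (2 * K ^ 2 * l)) = 1 / l := by field_simp
    have e2 : Real.exp (-l) ≤ 1 / l := by
      rw [Real.exp_neg, one_div]
      exact inv_anti₀ (by linarith) (by linarith [Real.add_one_le_exp (l : ℝ)])
    have e3 : (18 : ℝ) / l = 1 / l + 1 / l + 4 * (4 / l) := by ring
    linarith

end TopAux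

open TopAux in
theorem top_close {ε : ℝ} (hε : 0 < ε) : ∃ l0 : ℕ, ∀ l, l0 ≤ l → ∀ w, Wt (2 ^ l) w →
    ∀ ρ, 0 < ρ → ∀ᶠ T : ℝ in atTop, volume {t | t ∈ Iv ρ T ∧ ¬ ∀ c ∈ Icc (0 : ℝ) (1 / 2),
      ∫ a in (0 : ℝ)..c, ‖Gm (2 ^ l) w T (t + a / lam T) (10 * l ^ 2) - cexp (SS w l T t)‖ ≤
        c / 4 * ‖cexp (SS w l T t)‖ + 1} ≤ ENNReal.ofReal (ε * T) := by
  refine ⟨max 10 ⌈76 / ε⌉₊, fun l hl w hw ρ hρ => ?_⟩
  have hl10 : 10 ≤ l := (le_max_left _ _).trans hl
  have hl1 : 1 ≤ l := by omega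
  have hl' : (1 : ℝ) ≤ l := by exact_mod_cast hl1
  have hlε : 76 / (l : ℝ) ≤ ε := by
    have h1 : 76 / ε ≤ l := Nat.ceil_le.1 ((le_max_right _ _).trans hl)
    rw [div_le_iff₀ hε] at h1
    rw [div_le_iff₀ (by linarith)]
    linarith
  obtain ⟨K, hK, hcl⟩ := Tset_close hl1 hw
  filter_upwards [hcl (1 / 8) (by norm_num), sm_Er hl10 hw hK (half_pos hρ), sm_SS hl1 hw hρ,
    eventually_gt_atTop 1, Real.tendsto_log_atTop.eventually_ge_atTop (2 * π),
    eventually_ge_atTop (1 / ρ)] with T h1 h2 h3 hT hlog hTρ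
  have hlam : 1 ≤ lam T := (one_le_div (by positivity)).2 hlog
  have cE := continuous_Er w l K T
  have cS := continuous_SS w l T
  have mE : Measurable (Function.uncurry fun t a : ℝ =>
      ENNReal.ofReal (Er w l K T (t + a / lam T))) :=
    (cE.comp (f := fun p : ℝ × ℝ => p.1 + p.2 / lam T) (by fun_prop)).measurable.ennreal_ofReal
  have k1 : Sm ρ T (fun t => ∫⁻ a in Icc (0 : ℝ) (1 / 2),
      ENNReal.ofReal (Er w l K T (t + a / lam T))) (1 / 2 * (18 / l)) := by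
    refine Sm.lintegral mE measurableSet_Icc (by simp) (by norm_num) fun a ha => ?_
    have := h2.shift (ρ' := ρ / 2) (a := a / lam T) (by
      rw [abs_of_nonneg (div_nonneg ha.1 (by linarith))]
      have q1 : a / lam T ≤ a := div_le_self ha.1 hlam
      rw [div_le_iff₀ hρ] at hTρ
      linarith [ha.2])
    rwa [add_halves] at this
  have k2 := k1.markov mE.lintegral_prod_right (a := 1 / 8) (by norm_num)
  have k3 := h3.markov (by fun_prop) (a := (l : ℝ) ^ 2) (by positivity)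
  refine le_trans (measure_mono ?_) ((measure_union_le _ _).trans ((add_le_add k2 k3).trans ?_))
  · rintro t ⟨ht, hn⟩
    by_contra hc
    simp only [mem_union, mem_ofPred_eq, not_or, not_and, not_lt] at hc
    have b1 := hc.1 ht
    have b2 : ‖SS w l T t‖ ≤ l :=
      (pow_le_pow_iff_left₀ (norm_nonneg _) (by positivity) two_ne_zero).1
        ((ENNReal.ofReal_le_ofReal_iff (by positivity)).1 (hc.2 ht))
    have cΦ : Continuous fun a : ℝ => Er w l K T (t + a / lam T) := cE.comp (by fun_prop)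
    have h0 : ∀ s, 0 ≤ Er w l K T s := fun s => by unfold Er; positivity
    rw [← ofReal_integral_eq_lintegral_ofReal cΦ.integrableOn_Icc (ae_of_all _ fun _ => h0 _),
      ENNReal.ofReal_le_ofReal_iff (by norm_num), integral_Icc_eq_integral_Ioc,
      ← intervalIntegral.integral_of_le (by norm_num)] at b1
    have key := det (G := fun a => Gm (2 ^ l) w T (t + a / lam T) (10 * l ^ 2))
      (D := fun a => DD w l T (t + a / lam T))
      ((continuous_Gy _ _ _ _).comp (by fun_prop)) cΦ (fun _ => h0 _)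
      ((continuous_DD w l T).comp (by fun_prop)) (hasDerivAt_SS w l hT t) b1 (fun a => ?_)
      (fun a ha => ?_)
    · simp only [zero_div, add_zero] at key
      exact hn key
    · unfold Er
      generalize t + a / lam T = s
      have q1 : 0 ≤ 2 * K ^ 2 * ‖S2 w l T s‖ ^ 2 := by positivity
      nlinarith only [q1, sq_nonneg (‖DD w l T s‖ - 1 / 4), sq_nonneg ‖Gm (2 ^ l) w T s
        (10 * l ^ 2) - Gy (Tset l T) (cm (aw w T)) T s (10 * l ^ 2)‖]
    · simp only [zero_div, add_zero] at ha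
      unfold Er
      generalize t + a / lam T = s at ha ⊢
      have q1 : ‖SS w l T s‖ ≤ l + 1 := by linarith [norm_le_insert' (SS w l T s) (SS w l T t)]
      have q2 := h1 s q1
      have q3 := expm_close hl1 q1
      have q4 := norm_sub_le_norm_sub_add_norm_sub (Gm (2 ^ l) w T s (10 * l ^ 2))
        (Gy (Tset l T) (cm (aw w T)) T s (10 * l ^ 2)) (cexp (SS w l T s))
      have q5 := norm_sub_le_norm_sub_add_norm_sub (Gy (Tset l T) (cm (aw w T)) T s (10 * l ^ 2))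
        (expm (10 * l) (SS w l T s)) (cexp (SS w l T s))
      nlinarith only [q2, q3, q4, q5, sq_nonneg ‖DD w l T s‖, sq_nonneg (K * ‖S2 w l T s‖ - 1 / 4),
        sq_nonneg (‖Gm (2 ^ l) w T s (10 * l ^ 2) -
          Gy (Tset l T) (cm (aw w T)) T s (10 * l ^ 2)‖ - 1 / 2)]
  · rw [← ENNReal.ofReal_add (by positivity) (by positivity), ← add_mul]
    refine ENNReal.ofReal_le_ofReal (mul_le_mul_of_nonneg_right (le_trans (le_of_eq ?_) hlε)
      (by linarith))
    field_simp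
    norm_num

end Pool.Agent.P.MP_7eacff_nt.Rig
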