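import Pool.Agent.P.MP_7eacff_nt.Rig.VMean
import Pool.Agent.P.MP_7eacff_nt.Rig.Det
import Pool.Agent.P.MP_7eacff_nt.Rig.Approx
import Pool.Agent.P.MP_7eacff_nt.Rig.Top
import Pool.Agent.P.MP_7eacff_nt.Rig.Sym2

/-!
Rigidity at one scale.
-/

open Complex Filter Topology MeasureTheory Set
open scoped Real ENNReal ComplexConjugate

namespace Pool.Agent.P.MP_7eacff_nt.Rig

namespace PSAux

theorem expm_close (M : ℝ) {ξ : ℝ} (hξ : 0 < ξ) :
    ∀ᶠ m : ℕ in atTop, ∀ ζ : ℂ, ‖ζ‖ ≤ M → ‖cexp ζ - expm m ζ‖ ≤ ξ := by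
  have h1 := (FloorSemiring.tendsto_pow_div_factorial_atTop M).comp (tendsto_add_atTop_nat 1)
  filter_upwards [h1.eventually_le_const (half_pos hξ),
    (tendsto_natCast_atTop_atTop (R := ℝ)).eventually_ge_atTop (2 * M)] with m h2 h3 ζ hζ
  have h4 : ‖ζ‖ / (m + 1).succ ≤ 1 / 2 := by
    rw [div_le_iff₀ (by positivity)]; push_cast; linarith
  refine (Complex.exp_bound' h4).trans ?_
  have h5 : ‖ζ‖ ^ (m + 1) / (m + 1).factorial ≤ M ^ (m + 1) / (m + 1).factorial := by gcongr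
  simp only [Function.comp] at h2
  linarith

/-- The entire function attached to a Dirichlet polynomial. -/
noncomputable def Ge (s : Finset ℕ) (a : ℕ → ℝ) (T t : ℝ) (w : ℂ) : ℂ :=
  ∑ n ∈ s, (a n : ℂ) * ch n t * EE (-(uu T n * w))

theorem differentiable_Ge (s : Finset ℕ) (a : ℕ → ℝ) (T t : ℝ) :
    Differentiable ℂ (Ge s a T t) := by
  unfold Ge EE; fun_prop

theorem Ge_eq (s : Finset ℕ) (a : ℕ → ℝ) {T : ℝ} (hT : Real.log T ≠ 0) (t x y : ℝ) :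
    Ge s a T t (x - y * I) = Gy s a T (t + x / lam T) y := by
  refine Finset.sum_congr rfl fun n _ => ?_
  have h : (Real.log T : ℂ) ≠ 0 := by exact_mod_cast hT
  have hp : (π : ℂ) ≠ 0 := by exact_mod_cast Real.pi_ne_zero
  rw [ofReal_mul, ofReal_exp, mul_assoc, mul_assoc]
  congr 1
  simp only [ch, ee, EE, ← Complex.exp_add]
  congr 1
  simp only [lam, uu, ofReal_mul, ofReal_neg, ofReal_div, ofReal_add, ofReal_ofNat]
  field_simp
  linear_combination (2 * (Real.log n : ℂ) * π * y) * I_sq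

theorem hi_dmp (f : ℝ → ℂ) {χ χ4 : ℝ → ℝ} {a η : ℝ} (hχ : Cut χ a η)
    (h4 : Cut χ4 (1 / 8) (1 / 4)) (hη : η ≤ 1 / 8) (y : ℝ) :
    hi (dmp (hi f χ) y) χ4 = dmp (hi f χ4) y := by
  funext u
  simp only [hi, dmp]
  rcases le_total |u| (1 / 8) with h | h
  · rw [h4.one u h]; simp
  · rw [hχ.zero u (hη.trans h)]; simp only [ofReal_zero, sub_zero, mul_one]; ring

theorem sum_inv_le (Y : ℕ) : ∑ j ∈ Finset.Icc 1 Y, (1 : ℝ) / j ≤ 1 + Real.log Y := by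
  have := harmonic_le_one_add_log Y
  rw [harmonic_eq_sum_Icc] at this
  push_cast at this
  simpa only [one_div] using this

theorem low_sum {Y : ℕ} {z P : ℕ → ℝ} {C D ξ : ℝ} (hC : 0 ≤ C) (hξ : Y * ξ ≤ 1)
    (h : ∀ j ∈ Finset.Icc 1 Y, z j ≤ P j + C / j + 2 * ξ)
    (hP : ∑ j ∈ Finset.Icc 1 Y, j * P j ^ 2 ≤ D * (1 + Real.log Y)) :
    ∑ j ∈ Finset.Icc 1 Y, z j ≤ (D + C + 3) * (1 + Real.log Y) := by
  have h1 : ∀ j ∈ Finset.Icc 1 Y, z j ≤ j * P j ^ 2 + (1 + C) * (1 / j) + 2 * ξ := by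
    intro j hj
    have hj0 : (0 : ℝ) < j := by exact_mod_cast (Finset.mem_Icc.1 hj).1
    have h2 : P j ≤ j * P j ^ 2 + 1 / j := by
      rw [← mul_le_mul_iff_right₀ hj0, mul_add, mul_one_div_cancel hj0.ne']
      nlinarith [sq_nonneg (j * P j - 1), sq_nonneg (j * P j)]
    have := h j hj
    rw [div_eq_mul_one_div] at this
    linarith
  refine (Finset.sum_le_sum h1).trans ?_
  rw [Finset.sum_add_distrib, Finset.sum_add_distrib, ← Finset.mul_sum, Finset.sum_const,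
    Nat.card_Icc, Nat.add_sub_cancel, nsmul_eq_mul]
  have h3 := mul_le_mul_of_nonneg_left (sum_inv_le Y) (show 0 ≤ 1 + C by linarith)
  have h4 : 0 ≤ Real.log Y := Real.log_natCast_nonneg Y
  linarith

theorem log_le (l : ℕ) (hl : 1 ≤ l) :
    1 + Real.log ((10 * l ^ 2 : ℕ) : ℝ) ≤ 10 * (1 + Real.log l) ∧ 1 + Real.log l ≤ l := by
  have hl0 : (0 : ℝ) < l := by exact_mod_cast hl
  have h1 := Real.log_le_sub_one_of_pos hl0
  have h2 := Real.log_le_sub_one_of_pos (show (0 : ℝ) < 10 by norm_num)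
  have h3 : 0 ≤ Real.log l := Real.log_natCast_nonneg l
  push_cast
  rw [Real.log_mul (by norm_num) (by positivity), Real.log_pow]
  push_cast
  constructor <;> linarith

theorem top_small {l : ℕ} {z P C D ξ : ℝ} (hl : 10 ≤ l) (hD0 : 0 ≤ D) (hD : 160000 * D ≤ l)
    (hC : 400 * C ≤ l) (hξ : ξ ≤ 1 / 400)
    (h : z ≤ P + C / ((10 * l ^ 2 : ℕ) : ℝ) + 2 * ξ)
    (hP : ((10 * l ^ 2 : ℕ) : ℝ) * P ^ 2 ≤ D * (1 + Real.log ((10 * l ^ 2 : ℕ) : ℝ))) :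
    z ≤ 1 / 100 := by
  obtain ⟨h1, h2⟩ := log_le l (by omega)
  have hl' : (10 : ℝ) ≤ l := by exact_mod_cast hl
  have h3 := hP.trans (mul_le_mul_of_nonneg_left (h1.trans (by linarith : _ ≤ (10 : ℝ) * l)) hD0)
  push_cast at h h3
  have h4 : C / (10 * (l : ℝ) ^ 2) ≤ 1 / 400 := by
    rw [div_le_iff₀ (by positivity)]; nlinarith
  have h5 : P ^ 2 ≤ (1 / 400) ^ 2 := by
    rw [← mul_le_mul_iff_right₀ (show (0 : ℝ) < 10 * l ^ 2 by positivity)]
    nlinarith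
  have h6 := (abs_le_of_sq_le_sq' h5 (by norm_num)).2
  linarith

theorem mean_le {l : ℕ} {C R : ℝ} (hl : 10 ≤ l) (hC : 0 ≤ C) (hR : 0 ≤ R)
    (hb : (10 * l ^ 2 : ℝ) ≤ 2 ^ l) :
    2 * (R + 1) * ((2 * ((10 * l ^ 2 : ℕ) : ℝ) + 2) * (C * Real.log ((2 ^ l : ℕ) : ℝ)) +
      (1 / ((2 ^ l : ℕ) : ℝ) ^ 2 * (2 * ((10 * l ^ 2 : ℕ) : ℝ) + 2) +
        4 * (1 / ((2 ^ l : ℕ) : ℝ) ^ 2) + 2 * Real.exp (-(4 * π * ((10 * l ^ 2 : ℕ) : ℝ)))) *
          (17 * ((2 ^ l : ℕ) : ℝ))) ≤ 2 * (R + 1) * (22 * C + 1) * l ^ 3 := by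
  have hl' : (10 : ℝ) ≤ l := by exact_mod_cast hl
  push_cast
  set b : ℝ := 2 ^ l with hbd
  have hb0 : 0 < b := by positivity
  have h2 : Real.log 2 ≤ 1 := (Real.log_le_sub_one_of_pos two_pos).trans (by norm_num)
  have h1 : Real.log b ≤ l := by rw [hbd, Real.log_pow]; nlinarith
  have h3 : Real.exp (-(4 * π * (10 * l ^ 2))) * b ≤ 1 := by
    rw [← Real.exp_log hb0, ← Real.exp_add, Real.exp_le_one_iff]
    nlinarith [Real.pi_gt_three]
  have h4 : 1 / b ^ 2 * b * b = 1 := by field_simp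
  have h5 : 0 ≤ 1 / b ^ 2 * b := by positivity
  set q := 1 / b ^ 2 * b with hq
  have h6 : q * (10 * l ^ 2) ≤ 1 := h4 ▸ mul_le_mul_of_nonneg_left hb h5
  have h7 : q ≤ 1 := by nlinarith
  have h8 : (2 * (10 * (l : ℝ) ^ 2) + 2) * (C * Real.log b) ≤ (22 * l ^ 2) * (C * l) := by
    have : 0 ≤ Real.log b := Real.log_nonneg (one_le_pow₀ one_le_two)
    exact mul_le_mul (by nlinarith) (by gcongr) (by positivity) (by positivity)
  have h9 : (1000 : ℝ) ≤ l ^ 3 := by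
    calc (1000 : ℝ) = 10 ^ 3 := by norm_num
      _ ≤ _ := by gcongr
  rw [mul_assoc (2 * (R + 1))]
  refine mul_le_mul_of_nonneg_left ?_ (by positivity)
  have h10 : (1 / b ^ 2 * (2 * (10 * (l : ℝ) ^ 2) + 2) + 4 * (1 / b ^ 2) +
      2 * Real.exp (-(4 * π * (10 * l ^ 2)))) * (17 * b) =
      34 * (q * (10 * l ^ 2)) + 102 * q + 34 * (Real.exp (-(4 * π * (10 * l ^ 2))) * b) := by
    rw [hq]; ring
  rw [h10]
  linarith

theorem final_le {l : ℕ} {C D V : ℝ} (hl : 1 ≤ l) (hC : 0 ≤ C) (hD : 0 ≤ D) (hV : 0 ≤ V) :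
    Real.exp (C * (1 + D * (1 + Real.log ((10 * l ^ 2 : ℕ) : ℝ)) +
      Real.log ((10 * l ^ 2 : ℕ) : ℝ))) * (1 + V * l ^ 3) ≤
      Real.exp ((10 * (C * (1 + D)) + V + 3) * (1 + Real.log l)) := by
  obtain ⟨h1, -⟩ := log_le l hl
  have hl1 : (1 : ℝ) ≤ l := by exact_mod_cast hl
  have h3 : 0 ≤ Real.log l := Real.log_natCast_nonneg l
  have h4 : 1 + V * l ^ 3 ≤ Real.exp (V + 3 * Real.log l) := by
    have a1 : Real.exp (3 * Real.log l) = l ^ 3 := by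
      rw [← Real.exp_log (show (0 : ℝ) < l ^ 3 by positivity), Real.log_pow]; norm_num
    have a2 : (1 : ℝ) ≤ l ^ 3 := one_le_pow₀ hl1
    have a3 := mul_le_mul_of_nonneg_right (Real.add_one_le_exp V) (zero_le_one.trans a2)
    rw [Real.exp_add, a1]; linarith
  refine (mul_le_mul_of_nonneg_left h4 (Real.exp_pos _).le).trans ?_
  rw [← Real.exp_add, Real.exp_le_exp]
  have h5 := mul_le_mul_of_nonneg_left h1 (show 0 ≤ C * (1 + D) by positivity)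
  have h6 := mul_nonneg hV h3
  linarith

theorem vol_six {A1 A2 A3 A4 A5 A6 B : Set ℝ} {x : ℝ} (hx : 0 ≤ x)
    (h1 : volume A1 ≤ ENNReal.ofReal (x / 8)) (h2 : volume A2 ≤ ENNReal.ofReal (x / 8))
    (h3 : volume A3 ≤ ENNReal.ofReal (x / 8)) (h4 : volume A4 ≤ ENNReal.ofReal (x / 8))
    (h5 : volume A5 ≤ ENNReal.ofReal (x / 8)) (h6 : volume A6 ≤ ENNReal.ofReal (x / 8))
    (h : ∀ t ∈ B, t ∉ A1 → t ∉ A2 → t ∉ A3 → t ∉ A4 → t ∉ A5 → t ∈ A6) :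
    volume B ≤ ENNReal.ofReal x := by
  have hs : B ⊆ A1 ∪ A2 ∪ A3 ∪ A4 ∪ A5 ∪ A6 := fun t ht => by
    have := h t ht
    simp only [mem_union]; tauto
  have hu : ∀ {A A' : Set ℝ} {a : ℝ}, 0 ≤ a → volume A ≤ ENNReal.ofReal a →
      volume A' ≤ ENNReal.ofReal (x / 8) → volume (A ∪ A') ≤ ENNReal.ofReal (a + x / 8) :=
    fun ha a1 a2 => (measure_union_le _ _).trans
      ((add_le_add a1 a2).trans (ENNReal.ofReal_add ha (by positivity)).ge)
  refine (measure_mono hs).trans ((hu ?_ (hu ?_ (hu ?_ (hu ?_ (hu ?_ h1 h2) h3) h4) h5) h6).trans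
    (ENNReal.ofReal_le_ofReal ?_)) <;> linarith

end PSAux

open PSAux

theorem one_scale {μ : Measure ℝ} [SFinite μ] (hμ : ZData μ) {γ : ℕ → ℝ} (hγ : Enum μ γ)
    {ε R : ℝ} (hε : 0 < ε) (hR : 1 ≤ R) : ∃ (C : ℝ) (l0 : ℕ), ∀ l, l0 ≤ l → ∀ w, Wt (2 ^ l) w →
      ∀ c : ℝ, 1 / 2 - 1 / 2 ^ l ≤ c → c ≤ 1 / 2 → ∃ R1 δ, 0 < R1 ∧ 0 < δ ∧ ∀ ρ, 0 < ρ →
        ∀ᶠ T : ℝ in atTop, ∀ E, MeasurableSet E →
          (∀ t ∈ Icc (T / 2) (3 * T), t ∉ E → Sep μ c R1 T t) →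
          volume (E ∩ Icc T (2 * T)) ≤ ENNReal.ofReal (δ * T) →
          volume {t | t ∈ Iv ρ T ∧ ∃ n n', |lam T * (γ n - t)| ≤ R ∧ |lam T * (γ n' - t)| ≤ R ∧
            Real.exp (C * (1 + Real.log l)) <
              Real.exp (SS w l T t).re * ‖1 - ee (lam T * (γ n' - γ n) / c)‖} ≤
            ENNReal.ofReal (ε * T) := by
  have hε8 : 0 < ε / 8 := by positivity
  obtain ⟨Cd, r, hCd, hr, hdef⟩ := defect_bound hμ
  obtain ⟨L, hL, hsym⟩ := exists_sym2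
  obtain ⟨χ0, h0⟩ := exists_cut (a := 1 / 2) (b := 1) (by norm_num) (by norm_num)
  obtain ⟨χ4, h4⟩ := exists_cut (a := 1 / 8) (b := 1 / 4) (by norm_num) (by norm_num)
  obtain ⟨Ca, hCa, happ⟩ := approx hμ hγ (L := L) h0 h4
  obtain ⟨A, hA, hSd⟩ := vol_SdR hμ hε8
  obtain ⟨l1, htop⟩ := top_close hε8
  obtain ⟨Ct, hCt, hdet⟩ := det_main hR
  set D := 8 / ε with hD
  have hD0 : 0 < D := by positivity
  set V0 := D * (2 * (R + 1) * (22 * Cd + 1)) with hV0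
  have hV00 : 0 < V0 := by positivity
  have hev : ∀ᶠ l : ℕ in atTop, l1 ≤ l ∧ 10 ≤ l ∧ 160000 * D ≤ l ∧ 400 * Ca ≤ l ∧
      (l : ℝ) ^ 2 / 2 ^ l ≤ min r 1 / 10 := by
    filter_upwards [eventually_ge_atTop l1, eventually_ge_atTop 10,
      (tendsto_natCast_atTop_atTop (R := ℝ)).eventually_ge_atTop (160000 * D),
      (tendsto_natCast_atTop_atTop (R := ℝ)).eventually_ge_atTop (400 * Ca),
      (tendsto_pow_const_div_const_pow_of_one_lt 2 (one_lt_two (α := ℝ))).eventually_le_const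
        (show 0 < min r 1 / 10 by positivity)] with l a1 a2 a3 a4 a5 using ⟨a1, a2, a3, a4, a5⟩
  obtain ⟨l0, hl0⟩ := eventually_atTop.1 hev
  refine ⟨10 * (Ct * (1 + (D + Ca + 3))) + V0 + 3, l0, fun l hl w hw c hc1 hc2 => ?_⟩
  obtain ⟨a1, a2, a3, a4, a5⟩ := hl0 l hl
  have hmean := fun h => mean_le a2 hCd.le (zero_le_one.trans hR) h
  have hfin := final_le (l := l) (D := D + Ca + 3) (by omega) hCt.le (by positivity) hV00.le
  have hsm := fun z P ξ => top_small (z := z) (P := P) (ξ := ξ) a2 hD0.le a3 a4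
  have hl' : (10 : ℝ) ≤ l := by exact_mod_cast a2
  have hY : 1000 ≤ 10 * l ^ 2 := by nlinarith
  have hYR : ((10 * l ^ 2 : ℕ) : ℝ) = 10 * l ^ 2 := by push_cast; rfl
  have hbR : ((2 ^ l : ℕ) : ℝ) = 2 ^ l := by push_cast; rfl
  have hYm : ((10 * l ^ 2 : ℕ) : ℝ) ≤ min r 1 * ((2 ^ l : ℕ) : ℝ) := by
    rw [div_le_iff₀ (by positivity)] at a5
    rw [hYR, hbR]; linarith
  specialize htop l a1 w hw
  rw [← hbR] at hc1
  rw [← hYR, ← hbR] at hmean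
  rw [← hYR] at htop
  generalize 10 * l ^ 2 = Y at *
  generalize 2 ^ l = b at *
  have hb0 : (0 : ℝ) ≤ b := b.cast_nonneg
  have hYr : (Y : ℝ) ≤ r * b := hYm.trans (by gcongr; exact min_le_left _ _)
  have hYb : (Y : ℝ) ≤ b := hYm.trans (by
    have := mul_le_mul_of_nonneg_right (min_le_right r 1) hb0
    linarith)
  have hY' : (1000 : ℝ) ≤ Y := by exact_mod_cast hY
  have hb' : (1000 : ℝ) ≤ b := hY'.trans hYb
  have hbp : (0 : ℝ) < b := by linarith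
  specialize hmean hYb
  set ξ := 1 / (b : ℝ) ^ 2 with hξ
  have hξ0 : 0 < ξ := by positivity
  have hξb : ξ * b * b = 1 := by rw [hξ]; field_simp
  have hξ1 : ξ ≤ 1 / 400 := by
    rw [hξ]; exact one_div_le_one_div_of_le (by norm_num) (by nlinarith)
  have hYξ : Y * ξ ≤ 1 := by
    have : Y * ξ ≤ b * b * ξ := mul_le_mul_of_nonneg_right (by nlinarith) hξ0.le
    linarith
  have hYc : Y * (1 / 2 - c) ≤ 1 := by
    have e1 : Y * (1 / 2 - c) ≤ b * (1 / b) :=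
      mul_le_mul hYb (by linarith) (by linarith) hb0
    rwa [mul_one_div_cancel hbp.ne'] at e1
  have hc4 : 1 / 4 ≤ c := by
    have : (1 : ℝ) / b ≤ 1 / 4 := one_div_le_one_div_of_le (by norm_num) (by linarith)
    linarith
  set S := max (L * b) (3 * (Ca * (1 / ξ + 1 / ξ ^ 3)) / ξ) with hS
  have hS1 : 1 ≤ S := le_max_of_le_left (by nlinarith)
  have hS2 : Ca * (1 / ξ + 1 / ξ ^ 3) / S ≤ ξ / 3 := by
    have : 3 * (Ca * (1 / ξ + 1 / ξ ^ 3)) / ξ ≤ S := le_max_right _ _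
    rw [div_le_iff₀ hξ0] at this
    rw [div_le_iff₀ (by linarith)]; linarith
  obtain ⟨f, hf⟩ := hsym c ⟨hc4, hc2⟩ S hS1
  obtain ⟨m0, hdef⟩ := hdef b w (by exact_mod_cast hb') hw f c S L hc1 hc2 hf hL (le_max_left _ _)
  set Λ := (D + Ca + 3) * (1 + Real.log Y) with hΛ
  obtain ⟨m, hm0, hm⟩ := ((eventually_ge_atTop m0).and
    (expm_close (Λ + 200 * (R + Y) / ξ ^ 3) hξ0)).exists
  obtain ⟨η0, hη0, hdef⟩ := hdef m hm0
  obtain ⟨η1, hη1, hlo⟩ := vol_lo hμ hf.sym hε8 (half_pos hξ0)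
  have hηe : ∀ᶠ η in 𝓝[>] (0 : ℝ), 0 < η ∧ η ≤ η0 ∧ η ≤ η1 ∧ η ≤ 1 / 8 ∧
      η ≤ ξ / 3 / (Ca * (R + 1 + Y)) := by
    filter_upwards [self_mem_nhdsWithin, nhdsWithin_le_nhds (eventually_le_nhds hη0),
      nhdsWithin_le_nhds (eventually_le_nhds hη1),
      nhdsWithin_le_nhds (eventually_le_nhds (show (0 : ℝ) < 1 / 8 by norm_num)),
      nhdsWithin_le_nhds (eventually_le_nhds (show 0 < ξ / 3 / (Ca * (R + 1 + Y)) by positivity))]
      with η b1 b2 b3 b4 b5 using ⟨b1, b2, b3, b4, b5⟩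
  obtain ⟨η, hη, b2, b3, b4, b5⟩ := hηe.exists
  rw [le_div_iff₀ (by positivity)] at b5
  have hχ : Cut (fun u => χ0 (η⁻¹ * u)) (1 / 2 / η⁻¹) η := by
    have := h0.scale (inv_pos.2 hη)
    rwa [one_div η⁻¹, inv_inv] at this
  obtain ⟨K, hK, happ⟩ := happ c ⟨hc4, hc2⟩ S f hS1 hf η hη (by linarith)
  set χ := fun u => χ0 (η⁻¹ * u) with hχd
  obtain ⟨RJ, δJ, hRJ, hδJ, hdef⟩ := hdef χ _ η hχ hη b2
  set R1 := max RJ (max (2 * (R + 1)) (3 * (K * A) / ξ)) with hR1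
  have c1 : RJ ≤ R1 := le_max_left _ _
  have c2 : 2 * (R + 1) ≤ R1 := le_max_of_le_right (le_max_left _ _)
  have c3 : 3 * (K * A) / ξ ≤ R1 := le_max_of_le_right (le_max_right _ _)
  have c0 : 0 < R1 := hRJ.trans_le c1
  have c4 : K / R1 ^ 2 * (A * R1) ≤ ξ / 3 := by
    rw [div_le_iff₀ hξ0] at c3
    rw [show K / R1 ^ 2 * (A * R1) = K * A / R1 by field_simp, div_le_iff₀ c0]; linarith
  have hg : Adm (hi f χ) S := hχ.adm_hi hf.sym.pos hf.sym.cd hf.sym.zero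
  refine ⟨R1, min δJ (ε / 8), c0, lt_min hδJ hε8, fun ρ hρ => ?_⟩
  have hρ2 := half_pos hρ
  filter_upwards [hdef _ hρ2, hw.sm_Gm (by exact_mod_cast (by linarith : (4 : ℝ) ≤ b)) hρ2,
    sm_low hc2 hf.sym hχ h4 (show 1 ≤ Y by omega) hρ, hSd R1 ρ (by linarith) hρ,
    hlo χ _ η hχ hη b3 ρ hρ, htop ρ hρ,
    (eventually_all_finset (Finset.Icc 1 Y)).2 fun j _ =>
      ((adm_dmp hg j).lo h4 (by norm_num)).loc hμ (by norm_num) hξ0,
    Real.tendsto_log_atTop.eventually_ge_atTop (2 * π), eventually_gt_atTop R1,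
    (tendsto_id.const_mul_atTop hρ2).eventually_ge_atTop (R + 2)]
    with T d1 d2 d3 d4 d5 d6 d7 hLT hT1 hTρ E hE hs hv
  have hT : 0 ≤ T := by linarith
  have hlT : Real.log T ≠ 0 := by have := Real.pi_pos; linarith
  specialize d1 E hE (fun t ht hE => sep_mono (hs t ht hE) le_rfl c1)
    (hv.trans (ENNReal.ofReal_le_ofReal (mul_le_mul_of_nonneg_right (min_le_left _ _) hT)))
  have mw : Measurable fun p : ℝ × ℝ => wt p.2 := by unfold wt; fun_prop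
  have hlb : 0 ≤ Real.log b := Real.log_natCast_nonneg b
  obtain ⟨e1, e2⟩ := sm_Vf (c := c)
    (F := fun t y => ENNReal.ofReal (‖Fn μ (hi f χ) c m b w T t y‖ * wt y))
    (G := fun t y => ENNReal.ofReal (‖Gm b w T t y‖ * wt y))
    (((measurable_Fn μ hg.cd.continuous.measurable c m b w T).norm.mul mw).ennreal_ofReal)
    (((measurable_Gm b w T).norm.mul mw).ennreal_ofReal) hLT hT hTρ (by linarith) (by linarith)
    (by linarith) hξ0.le (show ξ ≤ Y by linarith) hξ0.le (by positivity) (by positivity)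
    (fun y y1 y2 => d1 y y1 (y2.trans hYr)) d2
  have hVp : 0 < V0 * l ^ 3 := by positivity
  have e3 := ((e2.mono hT (by linarith) (fun _ _ => le_rfl) hmean).markov (ρ := ρ) e1 hVp)
  have hlY : 0 < 1 + Real.log Y := by have := Real.log_natCast_nonneg Y; linarith
  have e4 := d3.markov (Continuous.measurable (by fun_prop)).ennreal_ofReal
    (show 0 < D * (1 + Real.log Y) by positivity)
  rw [show 2 * (R + 1) * (22 * Cd + 1) * l ^ 3 / (V0 * l ^ 3) * T = ε * T / 8 by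
    rw [hV0, hD]; field_simp] at e3
  rw [show (1 + Real.log Y) / (D * (1 + Real.log Y)) * T = ε * T / 8 by
    rw [hD]; field_simp] at e4
  rw [show ε / 8 * T = ε * T / 8 by ring] at d4 d5 d6
  refine vol_six (by positivity) e3 e4 d4 d5 d6 (hv.trans (ENNReal.ofReal_le_ofReal
    ((mul_le_mul_of_nonneg_right (min_le_right _ _) hT).trans_eq (by ring)))) ?_
  rintro t ⟨ht, n, n', hn, hn', hlt⟩ g1 g2 g3 g4 g5
  simp only [mem_ofPred_eq, ht, true_and, not_lt, not_not] at g1 g2 g3 g4 g5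
  have hρT : 0 ≤ ρ * T := by positivity
  have ht1 : T ≤ t := by have := ht.1; linarith
  have ht2 : t ≤ 2 * T := by have := ht.2; linarith
  have ht3 : t ∈ Icc (T / 2) (3 * T) := ⟨by linarith, by linarith⟩
  refine ⟨by_contra fun hE => hlt.not_ge ?_, ht1, ht2⟩
  obtain ⟨s, A', p1, p2, p3, p4, p5⟩ :=
    happ T t R1 hLT (by linarith) (by linarith) (hs t ht3 hE)
  have q1 : K / R1 ^ 2 * SdR μ R1 T t ≤ ξ / 3 :=
    (mul_le_mul_of_nonneg_left g3 (by positivity)).trans c4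
  have q2 : ∀ j ∈ Finset.Icc 1 Y, ‖-I * II μ (dmp (hi f χ) j) T (t + 0 / lam T)‖ ≤
      ‖Psum (lo (dmp (hi f χ) j) χ4) T t‖ + Ca / j + 2 * ξ := by
    intro j hj
    have r1 := d7 j hj t ht3
    have r2 := p5 j (by exact_mod_cast (Finset.mem_Icc.1 hj).1)
    have r3 := norm_sub_le (II μ (lo (dmp (hi f χ) j) χ4) T t +
      Psum (lo (dmp (hi f χ) j) χ4) T t) (Psum (lo (dmp (hi f χ) j) χ4) T t)
    rw [add_sub_cancel_right] at r3
    rw [zero_div, add_zero, norm_mul, norm_neg, norm_I, one_mul,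
      (adm_dmp hg j).split hμ h4 (by norm_num) hLT t, hi_dmp f hχ h4 b4]
    exact (norm_add_le _ _).trans (by linarith)
  rw [ENNReal.ofReal_le_ofReal_iff (by positivity)] at g2
  have q3 := (Finset.single_le_sum (f := fun j : ℕ => j * ‖Psum (lo (dmp (hi f χ) j) χ4) T t‖ ^ 2)
    (fun j _ => by positivity) (Finset.mem_Icc.2 ⟨show 1 ≤ Y by omega, le_rfl⟩)).trans g2
  have key := hdet s (fun n => lam T * (γ n - t)) c A' (cexp (SS w l T t))
    (fun a y => -I * II μ (dmp (hi f χ) y) T (t + a / lam T))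
    (Ge (Nset b T) (cm (aw w T)) T t) m Y ξ ξ Λ (V0 * l ^ 3) p2 hc4 hc2 hY hξ0 (by linarith)
    hξ0.le hYξ hYc hVp.le ?_ (by linarith) (low_sum hCa.le hYξ q2 g2)
    (hsm _ _ _ hξ1 (q2 Y (Finset.mem_Icc.2 ⟨by omega, le_rfl⟩)) q3) hm (differentiable_Ge _ _ _ _)
    ?_ ?_ n ((p1 n).2 (by linarith)) n' ((p1 n').2 (by linarith)) hn hn'
  · rw [Complex.norm_exp, show lam T * (γ n' - t) - lam T * (γ n - t) = lam T * (γ n' - γ n) by
      ring] at key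
    exact key.trans hfin
  · intro a y ha y1 y2
    have y0 : 0 < y := hξ0.trans_le y1
    refine (p3 a y (by linarith) y0).trans ?_
    have r1 : Ca * (1 / y + 1 / y ^ 3) / S ≤ Ca * (1 / ξ + 1 / ξ ^ 3) / S := by gcongr
    have r2 : Ca * η * (|a| + y) ≤ Ca * η * (R + 1 + Y) := by gcongr
    linarith
  · refine le_of_eq_of_le ?_ g1
    congr 1
    · funext a y
      rw [← ofReal_add, Ge_eq _ _ hlT, Ge_eq _ _ hlT, add_div, ← add_assoc]
      rfl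
    · funext a y
      rw [Ge_eq _ _ hlT]
      rfl
  · refine le_of_eq_of_le ?_ (g5 c ⟨by linarith, hc2⟩)
    congr 1
    funext a
    rw [← ofReal_natCast, Ge_eq _ _ hlT]
    rfl

end Pool.Agent.P.MP_7eacff_nt.Rig
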