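import Pool.Agent.P.MP_7eacff_nt.Rig.Defs

/-!
One-sided Fourier-Laplace transforms and the logarithmic kernel.
-/

open Complex Filter Topology MeasureTheory Set
open scoped Real ENNReal ComplexConjugate

namespace Pool.Agent.P.MP_7eacff_nt.Rig

theorem EE_ofReal (x : ℝ) : EE x = ee x := by
  unfold EE ee; congr 1; push_cast; ring

theorem EE_add (z w : ℂ) : EE (z + w) = EE z * EE w := by
  unfold EE; rw [mul_add, Complex.exp_add]

theorem norm_EE (z : ℂ) : ‖EE z‖ = Real.exp (-(2 * π * z.im)) := by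
  unfold EE; rw [Complex.norm_exp]; congr 1; simp

@[simp] theorem dmp_zero (g : ℝ → ℂ) : dmp g 0 = g := by
  funext u; simp [dmp]

theorem adm_dmp {g : ℝ → ℂ} {R : ℝ} (h : Adm g R) (y : ℝ) : Adm (dmp g y) R := by
  refine ⟨h.pos, h.cd.mul (ofRealCLM.contDiff.comp (f := fun u : ℝ =>
    Real.exp (-(2 * π * u * y))) (by fun_prop)), fun u hu => ?_, ?_⟩
  · simp [dmp, h.zero u hu]
  · simp [dmp, h.at0]

theorem iF_dmp (g : ℝ → ℂ) (ξ y : ℝ) : iF (pw (dmp g y) 0) ξ = Phi g (ξ + y * I) := by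
  rw [iF, Phi, ← integral_Ici_eq_integral_Ioi, ← integral_indicator measurableSet_Ici]
  congr 1; funext u
  by_cases hu : 0 ≤ u
  · rw [indicator_of_mem (show u ∈ Ici 0 from hu), pw, if_pos hu, dmp, mul_assoc, ← EE_ofReal,
      ofReal_exp, EE, EE, ← Complex.exp_add]
    congr 2
    push_cast
    linear_combination (-2 * π * u * y : ℂ) * I_mul_I
  · rw [indicator_of_notMem (show u ∉ Ici 0 from hu), pw, if_neg hu]; simp

theorem Phi_norm (u : ℝ) (a : ℂ) : ‖EE (u * a)‖ = Real.exp (-(2 * π * u * a.im)) := by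
  rw [norm_EE]; congr 1; simp; ring

@[fun_prop] theorem Phi_cont : Continuous EE := by unfold EE; fun_prop

theorem Phi_int {E : Type} [NormedRing E] {g F : ℝ → E} {R : ℝ} (hg : Continuous g)
    (hz : ∀ u, R < |u| → g u = 0) (hF : Continuous F) : Integrable fun u => g u * F u :=
  (hg.mul hF).integrable_of_hasCompactSupport
    (HasCompactSupport.intro (isCompact_Icc (a := -R) (b := R)) fun u hu => by
      rw [mem_Icc, ← abs_le] at hu
      simp [hz u (not_le.1 hu)])

theorem Phi_deriv (z : ℂ) : HasDerivAt EE (2 * π * I * EE z) z :=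
  (((hasDerivAt_id' z).const_mul (2 * π * I)).cexp).congr_deriv (by rw [EE]; ring)

theorem norm_phi_le {g : ℝ → ℂ} (hg : IntegrableOn g (Ioi 0)) {a : ℂ} (ha : 0 ≤ a.im) :
    ‖Phi g a‖ ≤ ∫ u in Ioi (0 : ℝ), ‖g u‖ := by
  refine norm_integral_le_of_norm_le hg.norm
    ((ae_restrict_iff' measurableSet_Ioi).2 (ae_of_all _ fun u hu => ?_))
  rw [norm_mul, Phi_norm]
  refine mul_le_of_le_one_right (norm_nonneg _) (Real.exp_le_one_iff.2 ?_)
  have : 0 ≤ 2 * π * u * a.im := by have := hu.out.le; positivity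
  linarith

theorem norm_phi_le_sq {g : ℝ → ℂ} {R : ℝ} (hg : Adm g R) {a : ℂ} (ha : a ≠ 0) :
    ‖Phi g a‖ ≤ (‖deriv g 0‖ + ∫ u in Ioi (0 : ℝ),
      ‖deriv (deriv g) u‖ * Real.exp (-(2 * π * u * a.im))) / (4 * π ^ 2 * ‖a‖ ^ 2) := by
  have h1 := contDiff_one_deriv hg.cd
  have hd0 : ∀ u, HasDerivAt g (deriv g u) u := fun u =>
    (hg.cd.differentiable (by norm_num) u).hasDerivAt
  have hd1 : ∀ u, HasDerivAt (deriv g) (deriv (deriv g) u) u := fun u =>
    (h1.differentiable (by norm_num) u).hasDerivAt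
  have hc2 : Continuous (deriv (deriv g)) := h1.continuous_deriv le_rfl
  have hz1 := deriv_zero_of_zero hg.zero
  have hz2 := deriv_zero_of_zero hz1
  have hE : Continuous fun u : ℝ => EE (u * a) := by fun_prop
  have i0 := (Phi_int hg.cd.continuous hg.zero hE).integrableOn (s := Ioi 0)
  have i2 := (Phi_int hc2 hz2 hE).integrableOn (s := Ioi 0)
  set b : ℂ := 2 * π * I * a with hb
  have hb0 : b ≠ 0 := by simp [hb, ha, Real.pi_ne_zero]
  have hdE : ∀ u : ℝ, HasDerivAt (fun u : ℝ => EE (u * a)) (b * EE (u * a)) u := fun u => by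
    have h2 : HasDerivAt (fun z : ℂ => EE (z * a)) (2 * π * I * EE (u * a) * (1 * a)) u :=
      HasDerivAt.comp (h₂ := EE) (h := fun z : ℂ => z * a) (u : ℂ) (Phi_deriv (u * a))
        ((hasDerivAt_id' (u : ℂ)).mul_const a)
    exact h2.comp_ofReal.congr_deriv (by rw [hb]; ring)
  have hd : ∀ u : ℝ, HasDerivAt (fun u : ℝ => (g u / b - deriv g u / b ^ 2) * EE (u * a))
      (g u * EE (u * a) - deriv (deriv g) u * EE (u * a) / b ^ 2) u := fun u => by
    refine ((((hd0 u).div_const b).sub ((hd1 u).div_const (b ^ 2))).mul (hdE u)).congr_deriv ?_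
    simp only [Pi.sub_apply]
    field_simp
    ring
  have key := integral_Ioi_of_hasDerivAt_of_tendsto (a := 0) (m := 0)
    (hd 0).continuousAt.continuousWithinAt (fun u _ => hd u) (i0.sub (i2.div_const _))
    (tendsto_const_nhds.congr' (by
      filter_upwards [eventually_gt_atTop R] with u hu
      have := hu.trans_le (le_abs_self u)
      simp [hg.zero u this, hz1 u this]))
  rw [integral_sub i0 (i2.div_const _), integral_div, hg.at0] at key
  have e : Phi g a = (deriv g 0 + ∫ u in Ioi (0 : ℝ), deriv (deriv g) u * EE (u * a)) / b ^ 2 := by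
    simp only [EE, ofReal_zero, zero_mul, mul_zero, Complex.exp_zero, mul_one, zero_div,
      zero_sub, neg_neg] at key
    rw [add_div, Phi]
    simp only [EE]
    linear_combination key
  have hn : ‖b ^ 2‖ = 4 * π ^ 2 * ‖a‖ ^ 2 := by
    rw [norm_pow, hb]
    simp only [norm_mul, norm_I, norm_real, Real.norm_eq_abs, abs_of_pos Real.pi_pos, norm_ofNat]
    ring
  rw [e, norm_div, hn]
  gcongr
  refine (norm_add_le _ _).trans (add_le_add le_rfl ((norm_integral_le_integral_norm _).trans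
    (le_of_eq ?_)))
  simp only [norm_mul, Phi_norm]

theorem hasDerivAt_phi {g : ℝ → ℂ} {R : ℝ} (hg : Continuous g) (hz : ∀ u, R < |u| → g u = 0)
    (a : ℂ) : HasDerivAt (Phi g) (Phi (fun u => 2 * π * I * u * g u) a) a := by
  have hz' : ∀ u : ℝ, R < |u| → 2 * π * I * u * g u = 0 := fun u hu => by simp [hz u hu]
  have hc' : Continuous fun u : ℝ => 2 * π * I * u * g u := by fun_prop
  refine (hasDerivAt_integral_of_dominated_loc_of_deriv_le (μ := volume.restrict (Ioi 0))
    (F := fun z (u : ℝ) => g u * EE (u * z))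
    (F' := fun z (u : ℝ) => 2 * π * I * u * g u * EE (u * z))
    (bound := fun u => ‖2 * π * I * u * g u‖ * Real.exp (2 * π * |u| * (‖a‖ + 1)))
    (Metric.ball_mem_nhds a one_pos)
    (Eventually.of_forall fun z => Continuous.aestronglyMeasurable (by fun_prop))
    (Phi_int hg hz (by fun_prop)).integrableOn (Continuous.aestronglyMeasurable (by fun_prop))
    (ae_of_all _ fun u z hz => ?_)
    (Phi_int hc'.norm (fun u hu => by rw [hz' u hu, norm_zero]) (by fun_prop)).integrableOn
    (ae_of_all _ fun u z _ => ?_)).2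
  · rw [norm_mul _ (EE _), Phi_norm]
    refine mul_le_mul_of_nonneg_left (Real.exp_le_exp.2 ?_) (norm_nonneg _)
    have h1 : |z.im| ≤ ‖a‖ + 1 := (abs_im_le_norm z).trans (norm_le_of_mem_closedBall
      (Metric.ball_subset_closedBall hz))
    have h2 : -(u * z.im) ≤ |u| * (‖a‖ + 1) := (neg_le_abs _).trans (by
      rw [abs_mul]; exact mul_le_mul_of_nonneg_left h1 (abs_nonneg u))
    nlinarith only [h2, Real.pi_pos]
  · exact (((Phi_deriv (u * z)).comp z ((hasDerivAt_id' z).const_mul (u : ℂ))).const_mul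
      (g u)).congr_deriv (by ring)

theorem Phi_ne {a : ℂ} (ha : a.im ≠ 0) (s : ℝ) : a - s ≠ 0 := fun h =>
  ha (by simpa using congrArg im h)

theorem phi_gc {c : ℝ} (hc : 0 ≤ c) {a : ℂ} (ha : 0 < a.im) :
    -I * Phi (fun u => 2 * π * (gc c u * ee (-(c * u / 2)))) a = ell c a := by
  have hπ := Real.pi_pos
  have e1 : ∀ u : ℝ, 2 * π * (gc c u * ee (-(c * u / 2))) * EE (u * a) =
      2 * π * ∫ x in Icc (-c) 0, EE (u * (a + x)) := fun u => by
    have := gc_mul_ee hc u 0
    rw [mul_zero, ee_zero, mul_one, zero_sub] at this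
    rw [this, mul_assoc, ← integral_mul_const]
    congr 2; funext x
    rw [← EE_ofReal, ← EE_add]; congr 1; push_cast; ring
  have hi : Integrable (Function.uncurry fun u x : ℝ => EE (u * (a + x)))
      ((volume.restrict (Ioi 0)).prod (volume.restrict (Icc (-c) 0))) := by
    have h1 : Integrable (fun z : ℝ × ℝ => Real.exp (-(2 * π * a.im) * z.1) * (1 : ℝ))
        ((volume.restrict (Ioi 0)).prod (volume.restrict (Icc (-c) 0))) :=
      Integrable.mul_prod (integrableOn_exp_mul_Ioi (neg_lt_zero.2 (by positivity)) 0)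
        (integrable_const 1)
    refine h1.mono' (Continuous.aestronglyMeasurable (by unfold Function.uncurry; fun_prop))
      (ae_of_all _ fun z => le_of_eq ?_)
    rw [Function.uncurry, Phi_norm, mul_one]
    congr 1; simp; ring
  have e2 : ∀ x : ℝ, ∫ u in Ioi (0 : ℝ), EE (u * (a + x)) = -1 / (2 * π * I * (a + x)) := fun x => by
    have := integral_exp_mul_complex_Ioi (a := 2 * π * I * (a + x)) (by simp; positivity) 0
    simp only [ofReal_zero, mul_zero, Complex.exp_zero] at this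
    rw [← this]
    congr 1; funext u
    rw [EE]; congr 1; ring
  rw [Phi]
  simp only [e1]
  rw [integral_const_mul, integral_integral_swap hi]
  simp only [e2]
  have e3 := intervalIntegral.integral_comp_neg (a := 0) (b := c)
    (fun x : ℝ => -1 / (2 * π * I * (a + x)))
  rw [neg_zero] at e3
  rw [integral_Icc_eq_integral_Ioc, ← intervalIntegral.integral_of_le (by linarith), ← e3, ell,
    ← mul_assoc, ← intervalIntegral.integral_const_mul]
  congr 1; funext s
  have h1 : (π : ℂ) ≠ 0 := by simp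
  have h2 := Phi_ne ha.ne' s
  rw [ofReal_neg, ← sub_eq_add_neg]
  field_simp

theorem exp_ell (c : ℝ) {a : ℂ} (ha : a.im ≠ 0) : cexp (ell c a) = a / (a - c) := by
  have hc : Continuous fun s : ℝ => 1 / (a - s) :=
    continuous_const.div (by fun_prop) (Phi_ne ha)
  have hd : ∀ s : ℝ, HasDerivAt (fun s : ℝ => (a - s) * cexp (ell s a)) 0 s := fun s => by
    have h1 : HasDerivAt (fun s : ℝ => ell s a) (1 / (a - s)) s :=
      (hc.integral_hasStrictDerivAt 0 s).hasDerivAt
    refine ((((hasDerivAt_id' s).ofReal_comp).const_sub a).mul h1.cexp).congr_deriv ?_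
    have := Phi_ne ha s
    field_simp
    simp
  have h0 := is_const_of_deriv_eq_zero (fun s => (hd s).differentiableAt)
    (fun s => (hd s).deriv) c 0
  rw [eq_div_iff (Phi_ne ha c), mul_comm, h0]
  simp [ell]

theorem ell_conj (c : ℝ) (a : ℂ) : ell c (conj a) = conj (ell c a) := by
  simp only [ell, intervalIntegral, map_sub, ← integral_conj, map_div₀, map_one, conj_ofReal]

theorem Phi_ne' {y : ℝ} (hy : 0 < y) (p : ℝ) : (p + y * I : ℂ) ≠ 0 := fun h =>
  hy.ne' (by simpa using congrArg im h)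

theorem Phi_c {y : ℝ} (hy : 0 < y) (x : ℝ) {α : ℝ → ℝ} (hα : Continuous α) :
    Continuous fun r => 1 / (((x - α r : ℝ) : ℂ) + y * I) :=
  continuous_const.div (by fun_prop) fun _ => Phi_ne' hy _

theorem Phi_pt {y : ℝ} (hy : 0 < y) (p q : ℝ) : ‖1 / (p + y * I : ℂ) - 1 / (q + y * I : ℂ)‖ ≤
    |p - q| * ((1 / (p ^ 2 + y ^ 2) + 1 / (q ^ 2 + y ^ 2)) / 2) := by
  have h1 := Phi_ne' hy p
  have h2 := Phi_ne' hy q
  have e : 1 / (p + y * I : ℂ) - 1 / (q + y * I : ℂ) =
      -((p - q : ℝ) : ℂ) * (1 / (p + y * I) * (1 / (q + y * I))) := by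
    push_cast; field_simp; ring
  have n : ∀ p : ℝ, 1 / (p ^ 2 + y ^ 2) = ‖1 / (p + y * I : ℂ)‖ ^ 2 := fun p => by
    rw [norm_div, norm_one, div_pow, one_pow, Complex.sq_norm, normSq_add_mul_I]
  rw [e, norm_mul, norm_neg, norm_real, Real.norm_eq_abs, norm_mul, n, n]
  refine mul_le_mul_of_nonneg_left ?_ (abs_nonneg _)
  nlinarith only [sq_nonneg (‖1 / (p + y * I : ℂ)‖ - ‖1 / (q + y * I : ℂ)‖)]

theorem Phi_key {ι : Type*} {s : Finset ι} {x : ι → ℝ} (h : Sparse s x) {c y D : ℝ}
    (hc : 0 ≤ c) (hy : 0 < y) {α β : ℝ → ℝ} (hα : Continuous α) (hβ : Continuous β)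
    (hD : ∀ r ∈ Icc 0 c, |α r - β r| ≤ D) :
    ∑ i ∈ s, ‖∫ r in (0 : ℝ)..c, (1 / (((x i - α r : ℝ) : ℂ) + y * I) -
      1 / (((x i - β r : ℝ) : ℂ) + y * I))‖ ≤ D * c * (26 * (1 / y + 1 / y ^ 3)) := by
  have hn : ∀ i, Continuous fun r => ‖1 / (((x i - α r : ℝ) : ℂ) + y * I) -
      1 / (((x i - β r : ℝ) : ℂ) + y * I)‖ := fun i =>
    ((Phi_c hy (x i) hα).sub (Phi_c hy (x i) hβ)).norm
  refine (Finset.sum_le_sum fun i _ => intervalIntegral.norm_integral_le_integral_norm hc).trans ?_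
  rw [← intervalIntegral.integral_finsetSum fun i _ => (hn i).intervalIntegrable _ _]
  refine (intervalIntegral.integral_mono_on (g := fun _ => D * (26 * (1 / y + 1 / y ^ 3))) hc
    ((continuous_finsetSum _ fun i _ => hn i).intervalIntegrable _ _)
    (continuous_const.intervalIntegrable _ _) fun r hr => ?_).trans (le_of_eq (by simp; ring))
  have h0 := (abs_nonneg _).trans (hD r hr)
  refine (Finset.sum_le_sum (g := fun i => D * ((1 / ((x i - α r) ^ 2 + y ^ 2) +
    1 / ((x i - β r) ^ 2 + y ^ 2)) / 2)) fun i _ => (Phi_pt hy (x i - α r) (x i - β r)).trans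
    (mul_le_mul_of_nonneg_right ?_ (by positivity))).trans ?_
  · rw [sub_sub_sub_cancel_left, abs_sub_comm]; exact hD r hr
  · rw [← Finset.mul_sum, ← Finset.sum_div, Finset.sum_add_distrib]
    refine mul_le_mul_of_nonneg_left ?_ h0
    linarith only [h (α r) y hy, h (β r) y hy]

theorem Sparse.sum_ell_shift {ι : Type*} {s : Finset ι} {x : ι → ℝ} (h : Sparse s x) {c y : ℝ}
    (hc : 0 ≤ c) (hy : 0 < y) (ξ v : ℝ) :
    ∑ i ∈ s, ‖ell c (x i - ξ + y * I - v) - ell c (x i - ξ + y * I)‖ ≤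
      |v| * c * (26 * (1 / y + 1 / y ^ 3)) := by
  refine le_trans (le_of_eq (Finset.sum_congr rfl fun i _ => ?_))
    (Phi_key h hc hy (α := fun r => ξ + v + r) (β := fun r => ξ + r) (by fun_prop) (by fun_prop)
      fun r _ => le_of_eq (by congr 1; ring))
  rw [intervalIntegral.integral_sub ((Phi_c hy _ (by fun_prop)).intervalIntegrable _ _)
    ((Phi_c hy _ (by fun_prop)).intervalIntegrable _ _), ell, ell]
  congr 3 <;> funext r <;> congr 1 <;> push_cast <;> ring

theorem Sparse.sum_ell_sub {ι : Type*} {s : Finset ι} {x : ι → ℝ} (h : Sparse s x) {c y : ℝ}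
    (hc : 0 ≤ c) (hy : 0 < y) (ξ : ℝ) :
    ‖∑ i ∈ s, ell c (x i - ξ + y * I) - c * ∑ i ∈ s, 1 / (x i - ξ + y * I : ℂ)‖ ≤
      c ^ 2 * (26 * (1 / y + 1 / y ^ 3)) := by
  rw [Finset.mul_sum, ← Finset.sum_sub_distrib, sq]
  refine (norm_sum_le _ _).trans (le_trans (le_of_eq (Finset.sum_congr rfl fun i _ => ?_))
    (Phi_key h hc hy (α := fun r => ξ + r) (β := fun _ => ξ) (by fun_prop) (by fun_prop)
      fun r hr => by rw [add_sub_cancel_left, abs_of_nonneg hr.1]; exact hr.2))
  rw [intervalIntegral.integral_sub ((Phi_c hy _ (by fun_prop)).intervalIntegrable _ _)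
    ((Phi_c hy _ (by fun_prop)).intervalIntegrable _ _), ell, intervalIntegral.integral_const,
    sub_zero, real_smul, ofReal_sub]
  congr 3; funext r; congr 1; push_cast; ring

theorem measurable_II_dmp (μ : Measure ℝ) [SFinite μ] {g : ℝ → ℂ} (hg : Measurable g) (T : ℝ) :
    Measurable fun p : ℝ × ℝ => II μ (dmp g p.2) T p.1 := by
  have h1 : Measurable (Phi g) := by
    have : Measurable (Function.uncurry fun (a : ℂ) (u : ℝ) => g u * EE (u * a)) :=
      (hg.comp measurable_snd).mul (Continuous.measurable (by fun_prop))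
    exact this.stronglyMeasurable.integral_prod_right.measurable
  have h2 : Measurable (Function.uncurry fun (p : ℝ × ℝ) (z : ℝ) =>
      Phi g ((Real.log T / (2 * π) * (z - p.1) : ℝ) + p.2 * I)) :=
    h1.comp (Continuous.measurable (by fun_prop))
  simp only [II, stat, iF_dmp]
  exact h2.stronglyMeasurable.integral_prod_right.measurable

end Pool.Agent.P.MP_7eacff_nt.Rig
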