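import Pool.Agent.P.MP_7eacff_nt.Rig.Phi

/-!
Growth of the entire function with prescribed real zeros.
-/

open Complex Filter Topology MeasureTheory Set
open scoped Real ENNReal ComplexConjugate

namespace Pool.Agent.P.MP_7eacff_nt.Rig

variable {ι : Type*} {s : Finset ι} {x : ι → ℝ} {κ : ℂ}

theorem differentiable_Pf : Differentiable ℂ (Pf s x κ) := by
  unfold Pf
  exact (by fun_prop : Differentiable ℂ fun w : ℂ => cexp (κ * w)).mul
    (Differentiable.fun_finsetProd fun i _ => by fun_prop)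

theorem ProdAux.sub_ne {w : ℂ} (hw : w.im ≠ 0) (t : ℝ) : w - t ≠ 0 := fun e =>
  hw (by simpa using congrArg Complex.im e)

theorem Pf_ne_zero {w : ℂ} (hw : w.im ≠ 0) : Pf s x κ w ≠ 0 :=
  mul_ne_zero (exp_ne_zero _)
    (Finset.prod_ne_zero_iff.2 fun _ _ => mul_ne_zero I_ne_zero (ProdAux.sub_ne hw _))

theorem Pf_shift (c : ℝ) {w : ℂ} (hw : w.im ≠ 0) :
    Pf s x κ w = Pf s x κ (w + c) * cexp (-(κ * c)) * cexp (∑ i ∈ s, ell c (x i - w)) := by
  rw [exp_sum, Pf, Pf, mul_right_comm (cexp _), ← exp_add, mul_assoc, ← Finset.prod_mul_distrib]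
  congr 1
  · congr 1
    ring
  refine Finset.prod_congr rfl fun i _ => ?_
  have h : (x i : ℂ) - w - c ≠ 0 := fun e => hw (by simpa using congrArg Complex.im e)
  rw [exp_ell c (by simpa using hw), ← mul_div_assoc, eq_div_iff h]
  ring

theorem Sparse.Ld_sub (h : Sparse s x) {η : ℝ} (hη : 0 < η) {w w' : ℂ} (hw : w.im ≤ -η)
    (hw' : w'.im ≤ -η) :
    ‖Ld s x κ w - Ld s x κ w'‖ ≤ ‖w - w'‖ * (26 * (1 / η + 1 / η ^ 3)) := by
  have key : ∀ z : ℂ, z.im ≤ -η → ∀ t : ℝ, ‖z - t‖⁻¹ ^ 2 ≤ 1 / ((t - z.re) ^ 2 + η ^ 2) := by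
    intro z hz t
    rw [inv_pow, ← one_div, Complex.sq_norm, normSq_apply]
    refine one_div_le_one_div_of_le (by positivity) ?_
    simp only [sub_re, ofReal_re, sub_im, ofReal_im, sub_zero]
    nlinarith
  have e : Ld s x κ w - Ld s x κ w' = ∑ i ∈ s, (w' - w) * ((w - x i)⁻¹ * (w' - x i)⁻¹) := by
    rw [Ld, Ld, add_sub_add_left_eq_sub, ← Finset.sum_sub_distrib]
    refine Finset.sum_congr rfl fun i _ => ?_
    have h1 := ProdAux.sub_ne (w := w) (by linarith) (x i)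
    have h2 := ProdAux.sub_ne (w := w') (by linarith) (x i)
    field_simp
    ring
  rw [e, ← Finset.mul_sum, norm_mul, norm_sub_rev]
  refine mul_le_mul_of_nonneg_left ((norm_sum_le _ _).trans ?_) (norm_nonneg _)
  calc _ ≤ ∑ i ∈ s, (1 / ((x i - w.re) ^ 2 + η ^ 2) + 1 / ((x i - w'.re) ^ 2 + η ^ 2)) / 2 := by
        refine Finset.sum_le_sum fun i _ => ?_
        rw [norm_mul, norm_inv, norm_inv]
        linarith [key w hw (x i), key w' hw' (x i), two_mul_le_add_sq ‖w - x i‖⁻¹ ‖w' - x i‖⁻¹]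
    _ ≤ _ := by
        rw [← Finset.sum_div, Finset.sum_add_distrib]
        linarith [h w.re η hη, h w'.re η hη]

namespace ProdAux

/-- A logarithm of `Pf` in the lower half plane. -/
noncomputable def Lg (s : Finset ι) (x : ι → ℝ) (κ w : ℂ) : ℂ :=
  κ * w + ∑ i ∈ s, log (I * (w - x i))

theorem exp_Lg {w : ℂ} (hw : w.im ≠ 0) : cexp (Lg s x κ w) = Pf s x κ w := by
  rw [Lg, exp_add, exp_sum, Pf]
  congr 1
  exact Finset.prod_congr rfl fun i _ => exp_log (mul_ne_zero I_ne_zero (sub_ne hw _))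

theorem hasDerivAt_Lg {w : ℂ} (hw : w.im < 0) : HasDerivAt (Lg s x κ) (Ld s x κ w) w := by
  have h1 : HasDerivAt (fun w : ℂ => κ * w) κ w := by simpa using (hasDerivAt_id w).const_mul κ
  refine h1.fun_add (HasDerivAt.fun_sum fun i _ => ?_)
  have h2 := (((hasDerivAt_id w).sub_const (x i : ℂ)).const_mul I).clog
    (Or.inl (by simpa using hw))
  rwa [mul_div_mul_left _ _ I_ne_zero] at h2

theorem Lg_sub (h : Sparse s x) {η : ℝ} (hη : 0 < η) {w w' : ℂ} (hw : w.im ≤ -η)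
    (hw' : w'.im ≤ -η) : ‖Lg s x κ w - Lg s x κ w'‖ ≤
      (‖Ld s x κ w'‖ + ‖w - w'‖ * (26 * (1 / η + 1 / η ^ 3))) * ‖w - w'‖ := by
  refine Convex.norm_image_sub_le_of_norm_hasDerivWithin_le (f' := Ld s x κ)
    (s := {z : ℂ | z.im ≤ -η} ∩ Metric.closedBall w' ‖w - w'‖)
    (fun z hz => (hasDerivAt_Lg (lt_of_le_of_lt hz.1 (by linarith))).hasDerivWithinAt)
    (fun z hz => ?_) ((convex_halfSpace_im_le _).inter (convex_closedBall _ _))
    ⟨hw', Metric.mem_closedBall_self (norm_nonneg _)⟩ ⟨hw, mem_closedBall_iff_norm.2 le_rfl⟩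
  have h1 := h.Ld_sub (κ := κ) hη hz.1 hw'
  have h2 := mul_le_mul_of_nonneg_right (mem_closedBall_iff_norm.1 hz.2)
    (show 0 ≤ 26 * (1 / η + 1 / η ^ 3) by positivity)
  linarith [norm_sub_norm_le (Ld s x κ z) (Ld s x κ w')]

theorem Pf_eq {w w' : ℂ} (hw : w.im ≠ 0) (hw' : w'.im ≠ 0) :
    Pf s x κ w = Pf s x κ w' * cexp (Lg s x κ w - Lg s x κ w') := by
  rw [← exp_Lg hw, ← exp_Lg hw', ← exp_add, add_sub_cancel]

theorem Pf_vert {w w' : ℂ} (h1 : w.re = w'.re) (h2 : |w.im| ≤ |w'.im|) :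
    ‖Pf s x κ w‖ ≤ ‖Pf s x κ w'‖ * Real.exp (-κ.im * (w.im - w'.im)) := by
  rw [Pf, Pf, norm_mul, norm_mul, norm_exp, norm_exp, mul_right_comm, ← Real.exp_add, norm_prod,
    norm_prod]
  refine mul_le_mul (le_of_eq ?_) (Finset.prod_le_prod (fun _ _ => norm_nonneg _) fun i _ => ?_)
    (by positivity) (Real.exp_pos _).le
  · congr 1
    rw [mul_re, mul_re, h1]
    ring
  · rw [norm_mul, norm_mul]
    refine mul_le_mul_of_nonneg_left ((sq_le_sq₀ (norm_nonneg _) (norm_nonneg _)).1 ?_) (norm_nonneg _)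
    rw [Complex.sq_norm, Complex.sq_norm, normSq_apply, normSq_apply]
    simp only [sub_re, ofReal_re, sub_im, ofReal_im, sub_zero, h1]
    linarith [sq_le_sq.2 h2]

theorem chain (h : Sparse s x) {j : ℕ} (hj : 1 ≤ j) (n : ℕ) (hn : j ≤ n) :
    ‖Lg s x κ (-(j * I)) - Lg s x κ (-(n * I))‖ ≤
      ∑ k ∈ Finset.Ico j n, (‖Ld s x κ (-(k * I))‖ + 52 * (k : ℝ)⁻¹) := by
  induction n, hn using Nat.le_induction with
  | base => simp
  | succ n hn ih =>
    rw [Finset.sum_Ico_succ_top hn]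
    have h1 : (1 : ℝ) ≤ n := by exact_mod_cast hj.trans hn
    have h2 := Lg_sub (κ := κ) h (η := n) (by linarith) (w := -((n + 1 : ℕ) * I)) (w' := -(n * I))
      (by simp) (by simp)
    have h3 : ‖-(((n + 1 : ℕ) : ℂ) * I) - -(n * I)‖ = 1 := by
      rw [show -(((n + 1 : ℕ) : ℂ) * I) - -(n * I) = -I by push_cast; ring, norm_neg, norm_I]
    have h4 : 1 / (n : ℝ) ^ 3 ≤ 1 / n :=
      one_div_le_one_div_of_le (by linarith) (le_self_pow₀ h1 (by norm_num))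
    rw [h3, norm_sub_rev] at h2
    rw [← one_div]
    linarith [norm_sub_le_norm_sub_add_norm_sub (Lg s x κ (-(j * I))) (Lg s x κ (-(n * I)))
      (Lg s x κ (-((n + 1 : ℕ) * I)))]

end ProdAux

open ProdAux in
theorem Sparse.Pf_growth (h : Sparse s x) {c R Λ : ℝ} (hc : 1 / 4 ≤ c)
    (hκ : κ.im = -(π / (2 * c))) {Y : ℕ} (hY : 1 ≤ Y) (hR : 1 ≤ R)
    (hΛ : ∑ j ∈ Finset.Icc 1 Y, ‖Ld s x κ (-(j * I))‖ ≤ Λ) {w : ℂ} (h1 : |w.re| ≤ R)
    (h2 : |w.im| ≤ Y) :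
    ‖Pf s x κ w‖ ≤ Real.exp (300 * (R + 1) ^ 2 * (1 + Λ + Real.log Y)) *
      ‖Pf s x κ (-(Y * I))‖ * Real.exp (π / c * max w.im 0) := by
  have hY1 : (1 : ℝ) ≤ Y := by exact_mod_cast hY
  have hlog : 0 ≤ Real.log Y := Real.log_nonneg hY1
  have hΛ0 : 0 ≤ Λ := (Finset.sum_nonneg fun _ _ => norm_nonneg _).trans hΛ
  obtain ⟨y, y1, y2, y3, y4⟩ : ∃ y : ℝ, 1 ≤ y ∧ y ≤ Y ∧ |w.im| ≤ y ∧
      w.im + y ≤ 2 * max w.im 0 + 1 := by
    refine ⟨max 1 |w.im|, le_max_left _ _, max_le hY1 h2, le_max_right _ _, ?_⟩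
    have a := le_max_left w.im 0
    have b := le_max_right w.im 0
    rcases max_cases 1 |w.im| with ⟨e, -⟩ | ⟨e, -⟩ <;> rw [e]
    · linarith
    · rcases abs_cases w.im with ⟨e, -⟩ | ⟨e, -⟩ <;> linarith
  set j := ⌊y⌋₊
  have j1 : 1 ≤ j := Nat.le_floor (by exact_mod_cast y1)
  have j2 : j ≤ Y := Nat.floor_le_of_le y2
  have j3 : (j : ℝ) ≤ y := Nat.floor_le (by linarith)
  have j4 : y < j + 1 := Nat.lt_floor_add_one y
  have j5 : (1 : ℝ) ≤ j := by exact_mod_cast j1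
  set w' : ℂ := ⟨w.re, -y⟩ with hw'
  have a1 := Pf_vert (s := s) (x := x) (κ := κ) (w := w) (w' := w') rfl
    (by rw [abs_neg, abs_of_nonneg (by linarith : 0 ≤ y)]; exact y3)
  have a2 : ‖w' - -(j * I)‖ ≤ R + 1 := by
    refine (norm_le_abs_re_add_abs_im _).trans (add_le_add (by simpa [hw'] using h1) ?_)
    simp only [hw', sub_im, neg_im, mul_im, natCast_re, I_im, natCast_im, I_re]
    rw [abs_le]
    constructor <;> linarith
  have a3 := Lg_sub (κ := κ) h one_pos (w := w') (w' := -(j * I)) (neg_le_neg y1) (by simpa using j1)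
  have a4 := chain (κ := κ) h j1 Y j2
  have a5 : ‖Ld s x κ (-(j * I))‖ ≤ Λ :=
    (Finset.single_le_sum (f := fun j : ℕ => ‖Ld s x κ (-(j * I))‖) (fun _ _ => norm_nonneg _)
      (Finset.mem_Icc.2 ⟨j1, j2⟩)).trans hΛ
  have a6 : ∑ k ∈ Finset.Ico j Y, (‖Ld s x κ (-(k * I))‖ + 52 * (k : ℝ)⁻¹) ≤
      Λ + 52 * (1 + Real.log Y) := by
    refine (Finset.sum_le_sum_of_subset_of_nonneg (t := Finset.Icc 1 Y) (fun k hk => ?_)
      fun _ _ _ => by positivity).trans ?_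
    · rw [Finset.mem_Ico] at hk
      exact Finset.mem_Icc.2 ⟨j1.trans hk.1, hk.2.le⟩
    · have := harmonic_le_one_add_log Y
      rw [harmonic_eq_sum_Icc] at this
      push_cast at this
      rw [Finset.sum_add_distrib, ← Finset.mul_sum]
      linarith
  have a7 : ‖Lg s x κ w' - Lg s x κ (-(j * I))‖ ≤ (Λ + (R + 1) * 52) * (R + 1) := by
    refine a3.trans (mul_le_mul (add_le_add a5 ?_) a2 (norm_nonneg _) (by positivity))
    exact mul_le_mul a2 (by norm_num) (by norm_num) (by linarith)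
  have a8 := norm_sub_le_norm_sub_add_norm_sub (Lg s x κ w') (Lg s x κ (-(j * I)))
    (Lg s x κ (-(Y * I)))
  have a9 : ‖Pf s x κ w'‖ ≤ ‖Pf s x κ (-(Y * I))‖ *
      Real.exp ((Λ + (R + 1) * 52) * (R + 1) + (Λ + 52 * (1 + Real.log Y))) := by
    rw [Pf_eq (w := w') (w' := -(Y * I)) (show -y ≠ 0 by linarith) (by simp; omega), norm_mul,
      norm_exp]
    exact mul_le_mul_of_nonneg_left (Real.exp_le_exp.2 ((re_le_norm _).trans (by linarith)))
      (norm_nonneg _)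
  refine a1.trans ((mul_le_mul_of_nonneg_right a9 (Real.exp_pos _).le).trans ?_)
  rw [mul_comm (Real.exp (300 * _ * _)), mul_assoc, mul_assoc, ← Real.exp_add, ← Real.exp_add]
  refine mul_le_mul_of_nonneg_left (Real.exp_le_exp.2 ?_) (norm_nonneg _)
  have hc0 : 0 < c := by linarith
  have b1 : π / (2 * c) ≤ 8 := by
    rw [div_le_iff₀ (by linarith)]
    linarith [Real.pi_le_four]
  have b2 : π / c = 2 * (π / (2 * c)) := by field_simp
  have b3 := mul_le_mul_of_nonneg_left y4 (show 0 ≤ π / (2 * c) by positivity)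
  have b4 : R + 1 ≤ (R + 1) ^ 2 := le_self_pow₀ (by linarith) two_ne_zero
  have b5 := mul_le_mul_of_nonneg_right b4 hΛ0
  have b6 := mul_le_mul_of_nonneg_right b4 hlog
  have b7 := mul_le_mul_of_nonneg_right hR hΛ0
  have b8 := mul_le_mul_of_nonneg_right hR hlog
  rw [hκ, neg_neg, b2, sub_neg_eq_add]
  linarith

open ProdAux in
theorem Sparse.Pf_top (h : Sparse s x) {Y a : ℝ} (hY : 1000 ≤ Y)
    (hL : ‖Ld s x κ (-(Y * I))‖ ≤ 1 / 8) (ha : a ∈ Icc (0 : ℝ) (1 / 2)) :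
    ‖Pf s x κ (a - Y * I) - Pf s x κ (-(Y * I))‖ ≤ ‖Pf s x κ (-(Y * I))‖ / 4 := by
  have h1 := Lg_sub (κ := κ) h (η := Y) (by linarith) (w := a - Y * I) (w' := -(Y * I))
    (by simp) (by simp)
  have h2 : ‖(a : ℂ) - Y * I - -(Y * I)‖ = a := by
    rw [sub_neg_eq_add, sub_add_cancel, norm_real, Real.norm_of_nonneg ha.1]
  have h3 : 1 / Y ≤ 1 / 1000 := one_div_le_one_div_of_le (by norm_num) hY
  have h4 : 1 / Y ^ 3 ≤ 1 / Y :=
    one_div_le_one_div_of_le (by linarith) (le_self_pow₀ (by linarith) (by norm_num))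
  have h5 : ‖Lg s x κ (a - Y * I) - Lg s x κ (-(Y * I))‖ ≤ (1 / 8 + 1 / 2 * (1 / 4)) * (1 / 2) := by
    rw [h2] at h1
    exact h1.trans (mul_le_mul (add_le_add hL (mul_le_mul ha.2 (by linarith) (by positivity)
      (by norm_num))) ha.2 ha.1 (by norm_num))
  have hY0 : Y ≠ 0 := by linarith
  rw [Pf_eq (w := a - Y * I) (w' := -(Y * I)) (by simpa using hY0) (by simpa using hY0),
    ← mul_sub_one, norm_mul, div_eq_mul_inv]
  exact mul_le_mul_of_nonneg_left ((norm_exp_sub_one_le (by linarith)).trans (by linarith))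
    (norm_nonneg _)

end Pool.Agent.P.MP_7eacff_nt.Rig
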