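import Pool.Agent.P.MP_7eacff_nt.Rig.FBound

/-!
The mean of the total error functional.
-/

open Complex Filter Topology MeasureTheory Set
open scoped Real ENNReal ComplexConjugate

namespace Pool.Agent.P.MP_7eacff_nt.Rig

theorem sm_Vf {F G : ℝ → ℝ → ℝ≥0∞} (hF : Measurable (Function.uncurry F))
    (hG : Measurable (Function.uncurry G)) {ρ T c R Y y1 ξ σ τ : ℝ} (hL : 2 * π ≤ Real.log T)
    (hT : 0 ≤ T) (hρ : R + 2 ≤ ρ * T) (hc0 : 0 ≤ c) (hc : c ≤ 1) (hR : 0 ≤ R) (hy1 : 0 ≤ y1)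
    (hY : y1 ≤ Y) (hξ : 0 ≤ ξ) (hσ : 0 ≤ σ) (hτ : 0 ≤ τ)
    (h1 : ∀ y, y1 ≤ |y| → |y| ≤ Y → Sm ρ T (fun t => F t y) σ)
    (h2 : ∀ y, Sm ρ T (fun t => G t y) τ) :
    (Measurable fun t => Vf (fun a y => F (t + a / lam T) y) (fun a y => G (t + a / lam T) y)
      c R Y y1 ξ) ∧
    Sm (2 * ρ) T (fun t => Vf (fun a y => F (t + a / lam T) y) (fun a y => G (t + a / lam T) y)
      c R Y y1 ξ) (2 * (R + 1) * ((2 * Y + 2) * σ +
        (ξ * (2 * Y + 2) + 4 * y1 + 2 * Real.exp (-(4 * π * Y))) * τ)) := by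
  have hπ := Real.pi_pos
  have hT0 : 0 < T := by
    rcases hT.eq_or_lt with h | h
    · rw [← h, Real.log_zero] at hL
      linarith only [hL, hπ]
    · exact h
  have hlam : 1 ≤ lam T := (one_le_div (by positivity)).2 hL
  have hdiv : ∀ a : ℝ, |a / lam T| ≤ |a| := fun a => by
    rw [abs_div, abs_of_pos (zero_lt_one.trans_le hlam)]
    exact div_le_self (abs_nonneg a) hlam
  have hY0 : 0 ≤ Y := hy1.trans hY
  have hρ1 : ρ ≤ ρ + 1 / T := le_add_of_nonneg_right (by positivity)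
  have mF : ∀ y, Measurable fun t => F t y := fun y => hF.comp measurable_prodMk_right
  have mG : ∀ y, Measurable fun t => G t y := fun y => hG.comp measurable_prodMk_right
  have hG2 : Measurable (Function.uncurry fun s y => G (s + c / lam T) y) :=
    hG.comp ((measurable_fst.add_const _).prodMk measurable_snd)
  have hG3 : Measurable (Function.uncurry fun s y => G s y + G (s + c / lam T) y) := hG.add hG2
  have h1' : ∀ y, y1 ≤ |y| → |y| ≤ Y → Sm (ρ + 1 / T) T (fun t => F t y) σ := fun y ha hb =>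
    (h1 y ha hb).mono hT hρ1 (fun _ _ => le_rfl) le_rfl
  have h2' : ∀ y, Sm (ρ + 1 / T) T (fun t => G t y) τ := fun y =>
    (h2 y).mono hT hρ1 (fun _ _ => le_rfl) le_rfl
  have h3 : ∀ y, Sm (ρ + 1 / T) T (fun t => G t y + G (t + c / lam T) y) (τ + τ) := fun y =>
    (h2' y).add ((h2 y).shift ((hdiv c).trans (by
      rw [one_div_mul_cancel hT0.ne', abs_of_nonneg hc0]
      exact hc))) hT (hG2.comp measurable_prodMk_right) hτ hτ
  have hvol : ∀ r : ℝ, volume (Icc (-r) r) ≤ ENNReal.ofReal (2 * r) := fun r => by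
    rw [Real.volume_Icc]
    exact le_of_eq (congrArg _ (by ring))
  have hA : MeasurableSet {y : ℝ | y1 ≤ |y| ∧ |y| ≤ Y} :=
    (measurableSet_le measurable_const continuous_abs.measurable).inter
      (measurableSet_le continuous_abs.measurable measurable_const)
  have hYa : |Y| = Y := abs_of_nonneg hY0
  have s1 := Sm.lintegral hF hA ((measure_mono fun y hy => abs_le.1 hy.2).trans (hvol Y))
    (by positivity) fun y hy => h1' y hy.1 hy.2
  have s2 := h1' Y (by rwa [hYa]) hYa.le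
  have s3 := h1' (-Y) (by rwa [abs_neg, hYa]) (by rw [abs_neg, hYa])
  have s4 := Sm.lintegral hG measurableSet_Icc (hvol Y) (by positivity) fun y _ => h2' y
  have s5 := Sm.lintegral hG3 measurableSet_Icc (hvol y1) (by positivity) fun y _ => h3 y
  have m1 := hF.lintegral_prod_right (ν := volume.restrict {y : ℝ | y1 ≤ |y| ∧ |y| ≤ Y})
  have m4 := hG.lintegral_prod_right (ν := volume.restrict (Icc (-Y) Y))
  have m5 := hG3.lintegral_prod_right (ν := volume.restrict (Icc (-y1) y1))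
  have m6 := ((m4.add (mG Y)).add (mG (-Y))).const_mul (ENNReal.ofReal ξ)
  have m7 := ((mG Y).add (mG (-Y))).const_mul (ENNReal.ofReal (Real.exp (-(4 * π * Y))))
  have s6 := ((s4.add (h2' Y) hT (mG Y) (by positivity) hτ).add (h2' (-Y)) hT (mG (-Y))
    (by positivity) hτ).const_mul hξ
  have s7 := ((h2' Y).add (h2' (-Y)) hT (mG (-Y)) hτ hτ).const_mul
    (Real.exp_pos (-(4 * π * Y))).le
  have s8 := ((((s1.add s2 hT (mF Y) (by positivity) hσ).add s3 hT (mF (-Y)) (by positivity)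
    hσ).add s6 hT m6 (by positivity) (by positivity)).add s5 hT m5 (by positivity)
    (by positivity)).add s7 hT m7 (by positivity) (by positivity)
  have m8 := ((((m1.add (mF Y)).add (mF (-Y))).add m6).add m5).add m7
  obtain ⟨Ψ, mΨ, sΨ, eΨ⟩ : ∃ Ψ : ℝ → ℝ≥0∞, Measurable Ψ ∧ Sm (ρ + 1 / T) T Ψ
      (2 * Y * σ + σ + σ + ξ * (2 * Y * τ + τ + τ) + 2 * y1 * (τ + τ) +
        Real.exp (-(4 * π * Y)) * (τ + τ)) ∧
      ∀ t, Vf (fun a y => F (t + a / lam T) y) (fun a y => G (t + a / lam T) y) c R Y y1 ξ =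
        ∫⁻ a in Icc (-(R + 1)) (R + 1), Ψ (t + a / lam T) :=
    ⟨_, m8, s8, fun t => by simp only [Vf, add_div, add_assoc, Pi.add_apply]⟩
  have m9 : Measurable (Function.uncurry fun t a : ℝ => Ψ (t + a / lam T)) :=
    mΨ.comp (measurable_fst.add (measurable_snd.div_const _))
  simp only [eΨ]
  refine ⟨m9.lintegral_prod_right, ?_⟩
  refine (Sm.lintegral m9 measurableSet_Icc (hvol (R + 1)) (by positivity) fun a ha =>
    sΨ.shift (ρ' := (R + 1) / T) ((hdiv a).trans (by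
      rw [div_mul_cancel₀ _ hT0.ne']
      exact abs_le.2 ha))).mono hT ?_ (fun _ _ => le_rfl) (le_of_eq (by ring))
  have h9 : (R + 2) / T ≤ ρ := (div_le_iff₀ hT0).2 hρ
  have e : 1 / T + (R + 1) / T = (R + 2) / T := by ring
  linarith only [h9, e]

theorem VMean_integral {k : ℝ} (hk : 0 < k) :
    ∫ u in (0 : ℝ)..1, u * Real.exp (-(k * u)) ≤ 1 / k ^ 2 := by
  rw [intervalIntegral.integral_eq_sub_of_hasDerivAt
    (f := fun u => -(u / k + 1 / k ^ 2) * Real.exp (-(k * u))) (fun u _ => ?_)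
    (Continuous.intervalIntegrable (by fun_prop) _ _)]
  · have : 0 ≤ (1 / k + 1 / k ^ 2) * Real.exp (-(k * 1)) := by positivity
    simp only [mul_zero, neg_zero, Real.exp_zero, zero_div, zero_add]
    linarith only [this]
  · refine HasDerivAt.congr_deriv (f := fun u => -(u / k + 1 / k ^ 2) * Real.exp (-(k * u)))
      ((((hasDerivAt_id' u).div_const k).add_const (1 / k ^ 2)).fun_neg.fun_mul
        (((hasDerivAt_id' u).const_mul k).fun_neg.exp)) ?_
    field_simp
    ring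

theorem sm_low {f : ℝ → ℂ} {c S : ℝ} (hc : c ≤ 1 / 2) (hf : Sym f c S) {χ χ4 : ℝ → ℝ} {a η : ℝ}
    (hχ : Cut χ a η) (h4 : Cut χ4 (1 / 8) (1 / 4)) {Y : ℕ} (hY : 1 ≤ Y) {ρ : ℝ} (hρ : 0 < ρ) :
    ∀ᶠ T : ℝ in atTop, Sm ρ T (fun t => ENNReal.ofReal
      (∑ j ∈ Finset.Icc 1 Y, j * ‖Psum (lo (dmp (hi f χ) j) χ4) T t‖ ^ 2)) (1 + Real.log Y) := by
  have hπ := Real.pi_pos
  have key : ∀ j ∈ Finset.Icc 1 Y, ∀ᶠ T : ℝ in atTop, Sm ρ T (fun t => ENNReal.ofReal (j : ℝ) *
      ENNReal.ofReal (‖Psum (lo (dmp (hi f χ) j) χ4) T t‖ ^ 2)) (j : ℝ)⁻¹ := by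
    intro j hj
    have hj0 : (0 : ℝ) < j := by exact_mod_cast (Finset.mem_Icc.1 hj).1
    have hs := sm_Psum (φ := lo (dmp (hi f χ) j) χ4)
      (F := fun u => π ^ 2 * (u * Real.exp (-(4 * π * j * u)))) (θ := 1 / 4)
      (ε := 1 / (16 * j ^ 2)) (by fun_prop) (by norm_num)
      (fun u hu => by simp [lo, h4.zero u (hu.le.trans (le_abs_self u))])
      (fun u hu => by
        have h1 : ‖lo (dmp (hi f χ) j) χ4 u‖ ≤ π * Real.exp (-(2 * π * u * j)) := by
          refine (h4.norm_lo_le _ u).trans ?_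
          rw [dmp, norm_mul, norm_real, Real.norm_of_nonneg (Real.exp_pos _).le]
          refine mul_le_mul_of_nonneg_right ((hχ.norm_hi_le f u).trans ((hf.bdd u).trans ?_))
            (Real.exp_pos _).le
          nlinarith only [hc, hπ]
        have h2 := pow_le_pow_left₀ (norm_nonneg _) h1 2
        rw [mul_pow, ← Real.exp_nat_mul] at h2
        have e : ((2 : ℕ) : ℝ) * -(2 * π * u * j) = -(4 * π * j * u) := by push_cast; ring
        rw [e] at h2
        exact (mul_le_mul_of_nonneg_left h2 hu.1).trans (le_of_eq (by ring))) hρ (by positivity)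
    filter_upwards [hs, eventually_ge_atTop 0] with T hT hT0
    refine (hT.const_mul hj0.le).mono hT0 le_rfl (fun _ _ => le_rfl) ?_
    rw [intervalIntegral.integral_const_mul]
    have h3 := VMean_integral (k := 4 * π * j) (by positivity)
    have h5 : π ^ 2 * ∫ u in (0 : ℝ)..1, u * Real.exp (-(4 * π * j * u)) ≤ 1 / (16 * j ^ 2) :=
      (mul_le_mul_of_nonneg_left h3 (by positivity)).trans (le_of_eq (by field_simp; norm_num))
    have h6 : (j : ℝ) * (2 * (1 / (16 * j ^ 2) + 1 / (16 * j ^ 2))) = (j : ℝ)⁻¹ / 4 := by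
      field_simp
      norm_num
    have h7 : (0 : ℝ) < (j : ℝ)⁻¹ := by positivity
    refine le_trans (mul_le_mul_of_nonneg_left ?_ hj0.le) (h6.le.trans (by linarith only [h7]))
    linarith only [h5]
  filter_upwards [(eventually_all_finset _).2 key, eventually_ge_atTop 0] with T hT hT0
  refine (Sm.sum _ hT0 hT (fun j _ => ?_) fun j _ => by positivity).mono hT0 le_rfl
    (fun t _ => le_of_eq ?_) ?_
  · exact (((continuous_Psum _ T).norm.pow 2).measurable.ennreal_ofReal).const_mul _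
  · rw [ENNReal.ofReal_sum_of_nonneg fun j _ => by positivity]
    exact Finset.sum_congr rfl fun j _ => ENNReal.ofReal_mul (Nat.cast_nonneg j)
  · have := harmonic_le_one_add_log Y
    rw [harmonic_eq_sum_Icc] at this
    push_cast at this
    exact this

theorem vol_SdR {μ : Measure ℝ} [SFinite μ] (hμ : ZData μ) {ε : ℝ} (hε : 0 < ε) :
    ∃ A, 0 < A ∧ ∀ R ρ, 1 ≤ R → 0 < ρ → ∀ᶠ T : ℝ in atTop,
      volume {t | t ∈ Iv ρ T ∧ A * R < SdR μ R T t} ≤ ENNReal.ofReal (ε * T) := by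
  obtain ⟨P, hP⟩ := exists_win
  obtain ⟨A, C, hA, hC, h⟩ := hμ.dom_SdR hP (θ := 3 / 4) (by norm_num)
  have ha : 0 < 2 * C / ε := by positivity
  refine ⟨A * (2 + 2 * C / ε), by positivity, fun R ρ hR hρ => ?_⟩
  filter_upwards [h R 1 hR le_rfl (by simpa using hR),
    sm_of_dom hP (θ := 3 / 4) (by norm_num) hρ] with T hT hT'
  have hm : Measurable fun t => SdR μ R T t := by
    have : Measurable (Function.uncurry fun t y : ℝ =>
        1 / (1 + (Real.log T / (2 * π) * (y - t) / R) ^ 2)) := by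
      unfold Function.uncurry
      fun_prop
    exact this.stronglyMeasurable.integral_prod_right.measurable
  have hm' : Measurable fun t => max (SdR μ R T t / A - R) 0 ^ (2 * 1) := by fun_prop
  refine (measure_mono fun t ht => ?_).trans
    (((hT' _ _ hm' hT).markov hm'.ennreal_ofReal ha).trans (le_of_eq ?_))
  · refine ⟨ht.1, (ENNReal.ofReal_lt_ofReal_iff_of_nonneg ha.le).2 ?_⟩
    have h1 : (2 + 2 * C / ε) * R < SdR μ R T t / A := by
      rw [lt_div_iff₀ (by positivity)]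
      linarith only [ht.2]
    have h2 : 1 + 2 * C / ε ≤ max (SdR μ R T t / A - R) 0 :=
      le_trans (by nlinarith only [h1, hR, ha]) (le_max_left _ _)
    nlinarith only [h2, ha]
  · congr 1
    have : C ≠ 0 := by positivity
    simp only [Nat.cast_one, mul_one, pow_one]
    field_simp

theorem vol_lo {μ : Measure ℝ} [SFinite μ] (hμ : ZData μ) {f : ℝ → ℂ} {c S ε ξ : ℝ}
    (hf : Sym f c S) (hε : 0 < ε) (hξ : 0 < ξ) : ∃ η0, 0 < η0 ∧ ∀ χ a η, Cut χ a η → 0 < η →
      η ≤ η0 → ∀ ρ, 0 < ρ → ∀ᶠ T : ℝ in atTop, volume {t | t ∈ Iv ρ T ∧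
        ξ < ‖stat μ (iF (lo f χ)) T t - 2 * π * c‖} ≤ ENNReal.ofReal (ε * T) := by
  obtain ⟨P, hP⟩ := exists_win
  obtain ⟨B, hB⟩ : ∃ B, B = 2 * π * c := ⟨_, rfl⟩
  refine ⟨min (1 / 2) (ε * ξ ^ 2 / (72 * (B ^ 2 + 1))), by positivity,
    fun χ a η hχ hη hη0 ρ hρ => ?_⟩
  have hη1 : η ≤ 1 / 2 := hη0.trans (min_le_left _ _)
  have hη2 : η * (72 * (B ^ 2 + 1)) ≤ ε * ξ ^ 2 :=
    (le_div_iff₀ (by positivity)).1 (hη0.trans (min_le_right _ _))
  obtain ⟨B', -, hb⟩ := exists_bump (φ := lo f χ) (R := η) (hf.cd.mul hχ.cdC)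
    fun u hu => by simp [lo, hχ.zero u hu.le]
  have hn : ∀ u, ‖lo f χ u‖ ≤ B := fun u => (hχ.norm_lo_le f u).trans (hB ▸ hf.bdd u)
  have h0 : lo f χ 0 = 2 * π * c := by
    simp [lo, hf.at0, hχ.one 0 (by simpa using hχ.apos.le)]
  have hθ : η * (1 : ℕ) < 3 / 4 := by
    rw [Nat.cast_one]
    linarith only [hη1]
  have ha : 0 < ξ ^ 2 / 9 := by positivity
  filter_upwards [hμ.local_ef hb hb rfl hη (by linarith only [hη1]) (ε := ξ / 3) (by positivity),
    hP.dom_Psum hn hη (by linarith only [hη1])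
      (fun u hu => hb.zero u (hu.trans_le (le_abs_self u))) 1 hθ,
    hP.dom_Psum (φ := fun u => lo f χ (-u)) (fun u => hn (-u)) hη (by linarith only [hη1])
      (fun u hu => hb.zero (-u) (hu.trans_le (by rw [abs_neg]; exact le_abs_self u))) 1 hθ,
    sm_of_dom hP (θ := 3 / 4) (by norm_num) hρ, eventually_ge_atTop 0] with T h1 h2 h3 h4 hT
  have m1 : Measurable fun t => ‖Psum (lo f χ) T t‖ ^ (2 * 1) :=
    ((continuous_Psum _ T).norm.pow _).measurable
  have m2 : Measurable fun t => ‖Psum (fun u => lo f χ (-u)) T (-t)‖ ^ (2 * 1) :=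
    (((continuous_Psum _ T).comp continuous_neg).norm.pow _).measurable
  have s := (h4 _ _ m1 h2.1).add (h4 _ _ m2 h3.2) hT m2.ennreal_ofReal (by positivity)
    (by positivity)
  refine (measure_mono fun t ht => ?_).trans
    ((s.markov (m1.ennreal_ofReal.add m2.ennreal_ofReal) ha).trans
      (ENNReal.ofReal_le_ofReal (mul_le_mul_of_nonneg_right ?_ hT)))
  · refine ⟨ht.1, ?_⟩
    have hρT := mul_nonneg hρ.le hT
    have h5 := h1 t ⟨by linarith only [ht.1.1, hρT, hT], by linarith only [ht.1.2, hρT, hT]⟩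
    rw [pw_self, h0] at h5
    rw [← ENNReal.ofReal_add (by positivity) (by positivity),
      ENNReal.ofReal_lt_ofReal_iff_of_nonneg ha.le]
    have h6 := ht.2
    generalize stat μ (iF (lo f χ)) T t - 2 * π * c = x at h5 h6
    generalize Psum (lo f χ) T t = p at h5
    generalize Psum (fun u => lo f χ (-u)) T (-t) = q at h5
    have h7 : ‖x‖ ≤ ‖x + p + q‖ + ‖q‖ + ‖p‖ := by
      have e : x = x + p + q - q - p := by ring
      calc ‖x‖ = ‖x + p + q - q - p‖ := by rw [← e]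
        _ ≤ _ := (norm_sub_le _ _).trans (add_le_add_left (norm_sub_le _ _) _)
    have h8 : 2 * ξ / 3 < ‖p‖ + ‖q‖ := by linarith only [h5, h6, h7]
    nlinarith only [h8, hξ, sq_nonneg (‖p‖ - ‖q‖)]
  · rw [div_le_iff₀ ha]
    simp only [Nat.cast_one, mul_one, pow_one]
    have h9 : B ^ 2 * η ^ 2 ≤ (B ^ 2 + 1) * η :=
      mul_le_mul (by linarith only) (by nlinarith only [hη, hη1]) (by positivity) (by positivity)
    rw [mul_pow]
    linarith only [h9, hη2]

end Pool.Agent.P.MP_7eacff_nt.Rig
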