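import Pool.Agent.P.MP_7eacff_nt.Rig.Defs

/-!
Among many prime sums with disjoint supports one has a large real part.
-/

open Complex Filter Topology MeasureTheory Set
open scoped Real ENNReal ComplexConjugate

namespace Pool.Agent.P.MP_7eacff_nt.Rig

namespace WalkAux

/-- Continuous and bounded. -/
def Bd (f : ℝ → ℂ) : Prop := Continuous f ∧ ∃ C, ∀ v, ‖f v‖ ≤ C

theorem Bd.integrable {P : Measure ℝ} [IsFiniteMeasure P] {f : ℝ → ℂ} (h : Bd f) :
    Integrable f P := by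
  obtain ⟨hc, C, hC⟩ := h
  exact integrable_of_bdd hc C hC

theorem Bd.mul {f g : ℝ → ℂ} (hf : Bd f) (hg : Bd g) : Bd fun v => f v * g v := by
  obtain ⟨hc, C, hC⟩ := hf
  obtain ⟨hd, D, hD⟩ := hg
  refine ⟨hc.mul hd, C * D, fun v => ?_⟩
  rw [norm_mul]
  exact mul_le_mul (hC v) (hD v) (norm_nonneg _) ((norm_nonneg _).trans (hC v))

theorem Bd.cj {f : ℝ → ℂ} (hf : Bd f) : Bd fun v => conj (f v) := by
  obtain ⟨hc, C, hC⟩ := hf
  exact ⟨continuous_conj.comp hc, C, fun v => by rw [RCLike.norm_conj]; exact hC v⟩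

theorem Bd.add {f g : ℝ → ℂ} (hf : Bd f) (hg : Bd g) : Bd fun v => f v + g v := by
  obtain ⟨hc, C, hC⟩ := hf
  obtain ⟨hd, D, hD⟩ := hg
  exact ⟨hc.add hd, C + D, fun v => (norm_add_le _ _).trans (add_le_add (hC v) (hD v))⟩

theorem Bd.sub {f g : ℝ → ℂ} (hf : Bd f) (hg : Bd g) : Bd fun v => f v - g v := by
  obtain ⟨hc, C, hC⟩ := hf
  obtain ⟨hd, D, hD⟩ := hg
  exact ⟨hc.sub hd, C + D, fun v => (norm_sub_le _ _).trans (add_le_add (hC v) (hD v))⟩

theorem bd_const (c : ℂ) : Bd fun _ => c := ⟨continuous_const, ‖c‖, fun _ => le_rfl⟩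

theorem bd_sum {ι : Type*} (s : Finset ι) {f : ι → ℝ → ℂ} (hf : ∀ i ∈ s, Bd (f i)) :
    Bd fun v => ∑ i ∈ s, f i v := by
  classical
  induction s using Finset.induction_on with
  | empty => simpa using bd_const 0
  | insert a s ha ih =>
    simp_rw [Finset.sum_insert ha]
    exact (hf a (Finset.mem_insert_self a s)).add
      (ih fun i hi => hf i (Finset.mem_insert_of_mem hi))

theorem Bd.int_sq {P : Measure ℝ} [IsFiniteMeasure P] {f : ℝ → ℂ} (h : Bd f) :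
    Integrable (fun v => ‖f v‖ ^ 2) P := by
  obtain ⟨hc, C, hC⟩ := h
  refine integrable_of_bdd (by fun_prop) (C ^ 2) fun v => ?_
  rw [Real.norm_of_nonneg (by positivity)]
  exact pow_le_pow_left₀ (norm_nonneg _) (hC v) 2

theorem int_mul_conj (P : Measure ℝ) (f : ℝ → ℂ) :
    ∫ v, f v * conj (f v) ∂P = ((∫ v, ‖f v‖ ^ 2 ∂P : ℝ) : ℂ) := by
  simp_rw [Complex.mul_conj', ← ofReal_pow]
  rw [integral_complex_ofReal]

theorem orth {P : Measure ℝ} [IsFiniteMeasure P] {k : ℕ} {F : Fin k → ℝ → ℂ} {C : ℝ}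
    (hF : ∀ j, Bd (F j)) (ho : ∀ i j, i ≠ j → ∫ v, F i v * conj (F j v) ∂P = 0)
    (hC : ∀ j, ∫ v, ‖F j v‖ ^ 2 ∂P ≤ C) : ∫ v, ‖∑ j, F j v‖ ^ 2 ∂P ≤ k * C := by
  have e : ((∫ v, ‖∑ j, F j v‖ ^ 2 ∂P : ℝ) : ℂ) = ((∑ j, ∫ v, ‖F j v‖ ^ 2 ∂P : ℝ) : ℂ) := by
    rw [← int_mul_conj P fun v => ∑ j, F j v]
    simp_rw [map_sum, Finset.sum_mul_sum]
    rw [integral_finsetSum _ fun i _ =>
      integrable_finsetSum _ fun j _ => ((hF i).mul (hF j).cj).integrable, ofReal_sum]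
    refine Finset.sum_congr rfl fun i _ => ?_
    rw [integral_finsetSum _ fun j _ => ((hF i).mul (hF j).cj).integrable,
      Finset.sum_eq_single i (fun j _ hj => ho i j hj.symm) (by simp), int_mul_conj]
  rw [ofReal_injective e]
  calc _ ≤ ∑ _j : Fin k, C := Finset.sum_le_sum fun j _ => hC j
    _ = _ := by simp

theorem pt_one {x δ K : ℝ} (hK : 0 < K) (hδ : 0 ≤ δ) (hx : x ≤ δ) :
    x ^ 2 ≤ K * (δ - x) + δ ^ 2 + x ^ 4 / K ^ 2 := by
  have h1 : 0 ≤ K * (δ - x) := mul_nonneg hK.le (by linarith)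
  have h2 : 0 ≤ x ^ 4 / K ^ 2 := by positivity
  have h3 : 0 ≤ δ ^ 2 := sq_nonneg δ
  rcases le_total 0 x with h | h
  · have : x ^ 2 ≤ δ ^ 2 := pow_le_pow_left₀ h hx 2
    linarith
  · rcases le_total x (-K) with h' | h'
    · have h4 : K ^ 2 ≤ x ^ 2 := by nlinarith
      have h5 : x ^ 2 ≤ x ^ 4 / K ^ 2 := by
        rw [le_div_iff₀ (by positivity)]
        nlinarith [sq_nonneg x]
      linarith
    · have h4 : x ^ 2 ≤ K * (-x) := by nlinarith
      have h5 : K * (-x) ≤ K * (δ - x) := mul_le_mul_of_nonneg_left (by linarith) hK.le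
      linarith

theorem pt_sum {k : ℕ} (hk : 0 < k) {S : Fin k → ℂ} {δ K : ℝ} (hK : 0 < K) (hδ : 0 ≤ δ)
    (hKδ : K * δ + δ ^ 2 ≤ 1 / 8) (hS : ∀ j, (S j).re ≤ δ) :
    1 ≤ 8 / (k * K ^ 2) * ∑ j, ‖S j * S j‖ ^ 2 + 48 / k ^ 2 *
      (‖∑ j, (S j * conj (S j) - 1)‖ ^ 2 + ‖∑ j, S j * S j‖ ^ 2 + K ^ 2 * ‖∑ j, S j‖ ^ 2) := by
  have hk' : (0 : ℝ) < k := by exact_mod_cast hk
  obtain ⟨W, hW⟩ : ∃ W, W = ∑ j, ‖S j * S j‖ ^ 2 := ⟨_, rfl⟩
  obtain ⟨a, ha⟩ : ∃ a, a = ∑ j, (S j * conj (S j) - 1) := ⟨_, rfl⟩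
  obtain ⟨b, hb⟩ : ∃ b, b = ∑ j, S j * S j := ⟨_, rfl⟩
  obtain ⟨c, hc⟩ : ∃ c, c = ∑ j, S j := ⟨_, rfl⟩
  rw [← hW, ← ha, ← hb, ← hc]
  have hW0 : 0 ≤ W := hW ▸ Finset.sum_nonneg fun j _ => by positivity
  have h1 : ∀ j, ((S j * conj (S j) - 1).re + (S j * S j).re) / 2 + K * (S j).re ≤
      -(3 / 8) + ‖S j * S j‖ ^ 2 / K ^ 2 := by
    intro j
    have e1 := pt_one hK hδ (hS j)
    have e2 : (S j).re ^ 4 ≤ ‖S j * S j‖ ^ 2 := by
      rw [norm_mul, ← sq, ← pow_mul, ← Even.pow_abs (by decide : Even 4)]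
      exact pow_le_pow_left₀ (abs_nonneg _) (abs_re_le_norm _) 4
    have e3 : (S j).re ^ 4 / K ^ 2 ≤ ‖S j * S j‖ ^ 2 / K ^ 2 := by gcongr
    have e4 : ((S j * conj (S j) - 1).re + (S j * S j).re) / 2 = (S j).re ^ 2 - 1 / 2 := by
      simp only [sub_re, mul_re, conj_re, conj_im, one_re]; ring
    rw [e4]
    linarith
  have h2 : (a.re + b.re) / 2 + K * c.re ≤ -(3 / 8) * k + W / K ^ 2 := by
    have := Finset.sum_le_sum fun j (_ : j ∈ Finset.univ) => h1 j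
    rw [Finset.sum_add_distrib, Finset.sum_add_distrib, ← Finset.sum_div, ← Finset.sum_div,
      Finset.sum_add_distrib, ← Finset.mul_sum, ← hW, ← re_sum, ← re_sum, ← re_sum, ← ha, ← hb,
      ← hc] at this
    simpa [mul_comm] using this
  have hn : 0 ≤ ‖a‖ ^ 2 + ‖b‖ ^ 2 + K ^ 2 * ‖c‖ ^ 2 := by positivity
  rcases le_total ((k : ℝ) / 8) (W / K ^ 2) with h | h
  · have e1 : 1 ≤ 8 / (k * K ^ 2) * W := by
      rw [le_div_iff₀ (by positivity)] at h
      rw [div_mul_eq_mul_div, le_div_iff₀ (by positivity)]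
      linarith
    have e2 : 0 ≤ 48 / (k : ℝ) ^ 2 * (‖a‖ ^ 2 + ‖b‖ ^ 2 + K ^ 2 * ‖c‖ ^ 2) := by positivity
    linarith
  · have e1 : (k : ℝ) / 4 ≤ ‖a‖ + ‖b‖ + K * ‖c‖ := by
      have f1 := (abs_le.1 (abs_re_le_norm a)).1
      have f2 := (abs_le.1 (abs_re_le_norm b)).1
      have f3 := mul_le_mul_of_nonneg_left (abs_le.1 (abs_re_le_norm c)).1 hK.le
      have f4 := norm_nonneg a
      have f5 := norm_nonneg b
      linarith
    have e2 : ((k : ℝ) / 4) ^ 2 ≤ 3 * (‖a‖ ^ 2 + ‖b‖ ^ 2 + K ^ 2 * ‖c‖ ^ 2) := by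
      refine (pow_le_pow_left₀ (by positivity) e1 2).trans ?_
      nlinarith only [sq_nonneg (‖a‖ - ‖b‖), sq_nonneg (‖a‖ - K * ‖c‖), sq_nonneg (‖b‖ - K * ‖c‖)]
    have e3 : 1 ≤ 48 / (k : ℝ) ^ 2 * (‖a‖ ^ 2 + ‖b‖ ^ 2 + K ^ 2 * ‖c‖ ^ 2) := by
      rw [div_mul_eq_mul_div, le_div_iff₀ (by positivity)]
      linarith
    have e4 : 0 ≤ 8 / (k * K ^ 2) * W := by positivity
    linarith

theorem abstract {P : Measure ℝ} [IsProbabilityMeasure P] {k : ℕ} (hk : 0 < k)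
    {S : Fin k → ℝ → ℂ} {δ K : ℝ} (hK : 0 < K) (hδ : 0 ≤ δ) (hKδ : K * δ + δ ^ 2 ≤ 1 / 8)
    (hB : ∀ j, Bd (S j)) (h2 : ∀ i j, ∫ v, S i v * conj (S j v) ∂P = if i = j then 1 else 0)
    (h4a : ∀ j, ∫ v, ‖S j v * S j v‖ ^ 2 ∂P ≤ 2)
    (h4b : ∀ i j, i ≠ j → ∫ v, S i v * S j v * conj (S i v * S j v) ∂P = 1)
    (h4c : ∀ i j, i ≠ j → ∫ v, S i v * S i v * conj (S j v * S j v) ∂P = 0) :
    P.real {v | ∀ j, (S j v).re ≤ δ} ≤ 16 / K ^ 2 + 48 * (5 + K ^ 2) / k := by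
  have hk' : (0 : ℝ) < k := by exact_mod_cast hk
  have hB2 : ∀ j, Bd fun v => S j v * S j v := fun j => (hB j).mul (hB j)
  have hB3 : ∀ j, Bd fun v => S j v * conj (S j v) - 1 := fun j =>
    ((hB j).mul (hB j).cj).sub (bd_const 1)
  have hsq : ∀ j, ∫ v, ‖S j v‖ ^ 2 ∂P ≤ 1 := fun j => by
    have := h2 j j
    rw [if_pos rfl, int_mul_conj] at this
    exact (ofReal_eq_one.1 this).le
  have o1 := orth hB (fun i j hij => by rw [h2, if_neg hij]) hsq
  have o2 := orth hB2 h4c h4a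
  have o3 := orth (P := P) (C := 3) hB3 (fun i j hij => by
      have e : ∀ v, (S i v * conj (S i v) - 1) * conj (S j v * conj (S j v) - 1) =
          S i v * S j v * conj (S i v * S j v) - S i v * conj (S i v) - S j v * conj (S j v) + 1 := by
        intro v
        simp only [map_sub, map_mul, conj_conj, map_one]; ring
      simp_rw [e]
      have i1 : Integrable (fun v => S i v * S j v * conj (S i v * S j v)) P :=
        (((hB i).mul (hB j)).mul ((hB i).mul (hB j)).cj).integrable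
      have i2 : ∀ l, Integrable (fun v => S l v * conj (S l v)) P := fun l =>
        ((hB l).mul (hB l).cj).integrable
      have i3 : Integrable (fun v => S i v * S j v * conj (S i v * S j v) -
          S i v * conj (S i v)) P := i1.sub (i2 i)
      have i4 : Integrable (fun v => S i v * S j v * conj (S i v * S j v) -
          S i v * conj (S i v) - S j v * conj (S j v)) P := i3.sub (i2 j)
      rw [integral_add i4 (integrable_const _), integral_sub i3 (i2 j), integral_sub i1 (i2 i),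
        h4b i j hij, h2, h2]
      simp) (fun j => by
      calc _ ≤ ∫ v, (‖S j v * S j v‖ ^ 2 + 1) ∂P := by
            refine integral_mono (hB3 j).int_sq ((hB2 j).int_sq.add (integrable_const _))
              fun v => ?_
            simp only
            rw [Complex.mul_conj', ← ofReal_pow, ← ofReal_one, ← ofReal_sub, norm_real,
              Real.norm_eq_abs, sq_abs, norm_mul]
            nlinarith only [sq_nonneg ‖S j v‖]
        _ ≤ 3 := by
            rw [integral_add (hB2 j).int_sq (integrable_const _)]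
            have := h4a j
            simp only [integral_const, probReal_univ, smul_eq_mul, mul_one]
            linarith)
  have i0 : Integrable (fun v => ∑ j, ‖S j v * S j v‖ ^ 2) P :=
    integrable_finsetSum _ fun j _ => (hB2 j).int_sq
  have i1 := (bd_sum Finset.univ fun j _ => hB j).int_sq (P := P)
  have i2 := (bd_sum Finset.univ fun j _ => hB2 j).int_sq (P := P)
  have i3 := (bd_sum Finset.univ fun j _ => hB3 j).int_sq (P := P)
  have o0 : ∫ v, ∑ j, ‖S j v * S j v‖ ^ 2 ∂P ≤ k * 2 := by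
    rw [integral_finsetSum _ fun j _ => (hB2 j).int_sq]
    calc _ ≤ ∑ _j : Fin k, (2 : ℝ) := Finset.sum_le_sum fun j _ => h4a j
      _ = _ := by simp
  have i4 : Integrable (fun v => ‖∑ j, (S j v * conj (S j v) - 1)‖ ^ 2 +
      ‖∑ j, S j v * S j v‖ ^ 2) P := i3.add i2
  have i5 : Integrable (fun v => ‖∑ j, (S j v * conj (S j v) - 1)‖ ^ 2 +
      ‖∑ j, S j v * S j v‖ ^ 2 + K ^ 2 * ‖∑ j, S j v‖ ^ 2) P := i4.add (i1.const_mul _)
  have hM := mul_meas_ge_le_integral_of_nonneg (μ := P)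
    (f := fun v => 8 / (k * K ^ 2) * ∑ j, ‖S j v * S j v‖ ^ 2 + 48 / k ^ 2 *
      (‖∑ j, (S j v * conj (S j v) - 1)‖ ^ 2 + ‖∑ j, S j v * S j v‖ ^ 2 +
        K ^ 2 * ‖∑ j, S j v‖ ^ 2))
    (ae_of_all _ fun v => by simp only [Pi.zero_apply]; positivity)
    ((i0.const_mul _).add (i5.const_mul _)) 1
  rw [one_mul, integral_add (i0.const_mul _) (i5.const_mul _), integral_const_mul,
    integral_const_mul, integral_add i4 (i1.const_mul _), integral_add i3 i2,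
    integral_const_mul] at hM
  refine (measureReal_mono (fun v hv => pt_sum hk hK hδ hKδ hv)).trans (hM.trans ?_)
  calc _ ≤ 8 / (k * K ^ 2) * (k * 2) + 48 / k ^ 2 * (k * 3 + k * 2 + K ^ 2 * (k * 1)) := by gcongr
    _ = _ := by field_simp; ring

theorem ite_primes {p q r s : ℕ} (hp : p.Prime) (hr : r.Prime) (hs : s.Prime) (z : ℂ) :
    (if p * q = r * s then z else 0) = (if (p, q) = (r, s) then z else 0) +
      (if (q, p) = (r, s) then z else 0) - if (p, q) = (r, s) then (if p = q then z else 0) else 0 := by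
  by_cases h : p * q = r * s
  · have hd : p ∣ r * s := h ▸ dvd_mul_right p q
    rcases (Nat.Prime.dvd_mul hp).1 hd with h1 | h1
    · obtain rfl := (Nat.prime_dvd_prime_iff_eq hp hr).1 h1
      obtain rfl := Nat.eq_of_mul_eq_mul_left hp.pos h
      by_cases hpq : p = q
      · simp [hpq]
      · simp [hpq]
    · obtain rfl := (Nat.prime_dvd_prime_iff_eq hp hs).1 h1
      rw [mul_comm r p] at h
      obtain rfl := Nat.eq_of_mul_eq_mul_left hp.pos h
      by_cases hpq : p = q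
      · simp [hpq]
      · simp [hpq, mul_comm]
  · have h1 : (p, q) ≠ (r, s) := fun e => h (by
      obtain ⟨rfl, rfl⟩ := Prod.mk.inj e; rfl)
    have h2 : (q, p) ≠ (r, s) := fun e => h (by
      obtain ⟨rfl, rfl⟩ := Prod.mk.inj e; exact mul_comm _ _)
    simp [h, h1, h2]

theorem fourth {P : Measure ℝ} (hP : Win P) (B : Finset ℕ) {Y T0 : ℝ}
    (hB : ∀ p ∈ B, p.Prime ∧ (p : ℝ) ≤ Y) (hT : 2 * π * (Y ^ 2 + 1) ≤ T0) (X : ℝ)
    (a b c d : ℕ → ℂ) :
    ∫ v, (∑ p ∈ B, a p * ch p (X + T0 * v)) * (∑ p ∈ B, b p * ch p (X + T0 * v)) *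
      conj ((∑ p ∈ B, c p * ch p (X + T0 * v)) * ∑ p ∈ B, d p * ch p (X + T0 * v)) ∂P =
      (∑ p ∈ B, a p * conj (c p)) * (∑ p ∈ B, b p * conj (d p)) +
      (∑ p ∈ B, a p * conj (d p)) * (∑ p ∈ B, b p * conj (c p)) -
      ∑ p ∈ B, a p * b p * conj (c p * d p) := by
  have e : ∀ (a b : ℕ → ℂ) (t : ℝ), (∑ p ∈ B, a p * ch p t) * (∑ p ∈ B, b p * ch p t) =
      ∑ x ∈ B ×ˢ B, a x.1 * b x.2 * ch (x.1 * x.2) t := by
    intro a b t
    rw [Finset.sum_mul_sum, Finset.sum_product]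
    refine Finset.sum_congr rfl fun p hp => Finset.sum_congr rfl fun q hq => ?_
    rw [ch_mul (hB p hp).1.ne_zero (hB q hq).1.ne_zero]; ring
  have hm : ∀ x ∈ B ×ˢ B, 1 ≤ x.1 * x.2 ∧ ((x.1 * x.2 : ℕ) : ℝ) ≤ Y ^ 2 := by
    intro x hx
    obtain ⟨h1, h2⟩ := Finset.mem_product.1 hx
    refine ⟨Nat.mul_pos (hB _ h1).1.pos (hB _ h2).1.pos, ?_⟩
    rw [Nat.cast_mul, sq]
    exact mul_le_mul (hB _ h1).2 (hB _ h2).2 (Nat.cast_nonneg _)
      ((Nat.cast_nonneg _).trans (hB _ h1).2)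
  simp_rw [e]
  rw [hP.mean_value (B ×ˢ B) (B ×ˢ B) (fun x => a x.1 * b x.2) (fun x => c x.1 * d x.2)
    (fun x => x.1 * x.2) (fun x => x.1 * x.2) (fun x hx => (hm x hx).1) hm hT X]
  have e2 : ∀ x ∈ B ×ˢ B, (∑ y ∈ B ×ˢ B, if x.1 * x.2 = y.1 * y.2 then
      a x.1 * b x.2 * conj (c y.1 * d y.2) else 0) =
      a x.1 * conj (c x.1) * (b x.2 * conj (d x.2)) + a x.1 * conj (d x.1) * (b x.2 * conj (c x.2)) -
        if x.1 = x.2 then a x.1 * b x.1 * conj (c x.1 * d x.1) else 0 := by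
    intro x hx
    obtain ⟨h1, h2⟩ := Finset.mem_product.1 hx
    rw [Finset.sum_congr rfl fun y hy => ite_primes (hB _ h1).1
      (hB _ (Finset.mem_product.1 hy).1).1 (hB _ (Finset.mem_product.1 hy).2).1 _]
    simp only [Prod.mk.eta]
    rw [Finset.sum_sub_distrib, Finset.sum_add_distrib, Finset.sum_ite_eq, Finset.sum_ite_eq,
      Finset.sum_ite_eq, if_pos hx, if_pos hx, if_pos (Finset.mem_product.2 ⟨h2, h1⟩)]
    simp only [map_mul]
    split_ifs with h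
    · rw [← h]; ring
    · ring
  rw [Finset.sum_congr rfl e2, Finset.sum_sub_distrib, Finset.sum_add_distrib, Finset.sum_mul_sum,
    Finset.sum_mul_sum, Finset.sum_product, Finset.sum_product, Finset.sum_product]
  congr 1
  refine Finset.sum_congr rfl fun p hp => ?_
  simp only
  rw [Finset.sum_ite_eq, if_pos hp]

theorem second {P : Measure ℝ} (hP : Win P) (B : Finset ℕ) {Y T0 : ℝ}
    (hB : ∀ p ∈ B, p.Prime ∧ (p : ℝ) ≤ Y) (hT : 2 * π * (Y ^ 2 + 1) ≤ T0) (X : ℝ)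
    (a c : ℕ → ℂ) :
    ∫ v, (∑ p ∈ B, a p * ch p (X + T0 * v)) * conj (∑ p ∈ B, c p * ch p (X + T0 * v)) ∂P =
      ∑ p ∈ B, a p * conj (c p) := by
  rw [hP.mean_value B B a c (fun x => x) (fun x => x) (fun p hp => (hB p hp).1.pos)
    (fun p hp => ⟨(hB p hp).1.pos, ?_⟩) hT X]
  · refine Finset.sum_congr rfl fun p hp => ?_
    rw [Finset.sum_ite_eq, if_pos hp]
  · have h1 : (1 : ℝ) ≤ p := by exact_mod_cast (hB p hp).1.pos
    have h2 := (hB p hp).2
    nlinarith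

end WalkAux

open WalkAux in
theorem walk {ε : ℝ} (hε : 0 < ε) : ∃ (k : ℕ) (δ : ℝ), 0 < k ∧ 0 < δ ∧ ∀ P, Win P →
    ∀ (A : Fin k → Finset ℕ) (a : Fin k → ℕ → ℂ) (Y T0 X : ℝ),
      (∀ j, ∀ p ∈ A j, p.Prime ∧ (p : ℝ) ≤ Y) → (Pairwise fun i j => Disjoint (A i) (A j)) →
      (∀ j, ∑ p ∈ A j, ‖a j p‖ ^ 2 = 1) → 2 * π * (Y ^ 2 + 1) ≤ T0 →
      P.real {v | ∀ j, (∑ p ∈ A j, a j p * ch p (X + T0 * v)).re ≤ δ} ≤ ε := by
  obtain ⟨K, hK⟩ : ∃ K : ℝ, K = 32 / ε + 1 := ⟨_, rfl⟩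
  have hK0 : 0 < 32 / ε := by positivity
  have hK1 : 1 ≤ K := by linarith
  have hKp : 0 < K := by linarith
  obtain ⟨k, hk⟩ := exists_nat_gt (96 * (5 + K ^ 2) / ε)
  have hk' : (0 : ℝ) < k := lt_trans (by positivity) hk
  have hk0 : 0 < k := by exact_mod_cast hk'
  refine ⟨k, 1 / (16 * K), hk0, by positivity, fun P hP A a Y T0 X hA hd h1 hT => ?_⟩
  have := hP.prob
  obtain ⟨B, hBd⟩ : ∃ B : Finset ℕ, B = Finset.univ.biUnion A := ⟨_, rfl⟩
  have hAB : ∀ j, A j ⊆ B := fun j => hBd ▸ Finset.subset_biUnion_of_mem A (Finset.mem_univ j)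
  have hB : ∀ p ∈ B, p.Prime ∧ (p : ℝ) ≤ Y := fun p hp => by
    rw [hBd] at hp
    obtain ⟨j, _, hj⟩ := Finset.mem_biUnion.1 hp
    exact hA j p hj
  obtain ⟨b, hb⟩ : ∃ b : Fin k → ℕ → ℂ, b = fun j p => if p ∈ A j then a j p else 0 := ⟨_, rfl⟩
  have hsum : ∀ j t, ∑ p ∈ A j, a j p * ch p t = ∑ p ∈ B, b j p * ch p t := by
    intro j t
    rw [← Finset.sum_subset (hAB j) fun p _ hp => by simp [hb, hp]]
    exact Finset.sum_congr rfl fun p hp => by simp [hb, hp]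
  have hz : ∀ i j, i ≠ j → ∀ p, b i p = 0 ∨ b j p = 0 := by
    intro i j hij p
    by_cases hp : p ∈ A i
    · right; simp [hb, Finset.disjoint_left.1 (hd hij) hp]
    · left; simp [hb, hp]
  have hin : ∀ i j, ∑ p ∈ B, b i p * conj (b j p) = if i = j then 1 else 0 := by
    intro i j
    split_ifs with h
    · subst h
      rw [← Finset.sum_subset (hAB i) fun p _ hp => by simp [hb, hp], ← ofReal_one, ← h1 i,
        ofReal_sum]
      exact Finset.sum_congr rfl fun p hp => by simp [hb, hp, Complex.mul_conj']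
    · exact Finset.sum_eq_zero fun p _ => by rcases hz i j h p with e | e <;> simp [e]
  simp_rw [hsum]
  have hmain := abstract (P := P) hk0 (S := fun j v => ∑ p ∈ B, b j p * ch p (X + T0 * v))
    (δ := 1 / (16 * K)) hKp (by positivity) ?_ ?_ ?_ ?_ ?_ ?_
  · refine hmain.trans ?_
    have e1 : 16 / K ^ 2 ≤ ε / 2 := by
      rw [div_le_iff₀ (by positivity)]
      have f1 : ε * K = 32 + ε := by rw [hK]; field_simp
      nlinarith
    have e2 : 48 * (5 + K ^ 2) / k ≤ ε / 2 := by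
      rw [div_lt_iff₀ hε] at hk
      rw [div_le_iff₀ hk']
      linarith
    linarith
  · have e1 : K * (1 / (16 * K)) = 1 / 16 := by field_simp
    have e2 : 1 / (16 * K) ≤ 1 / 16 := one_div_le_one_div_of_le (by norm_num) (by linarith)
    have e3 : 0 ≤ 1 / (16 * K) := by positivity
    nlinarith
  · exact fun j => bd_sum B fun p _ => (bd_const _).mul ⟨by fun_prop, 1, fun v => by simp⟩
  · intro i j
    rw [second hP B hB hT, hin]
  · intro j
    have e := fourth hP B hB hT X (b j) (b j) (b j) (b j)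
    rw [int_mul_conj, hin, if_pos rfl] at e
    simp_rw [Complex.mul_conj', ← ofReal_pow] at e
    have e2 := congrArg re e
    rw [ofReal_re, ← ofReal_sum] at e2
    rw [e2]
    have : 0 ≤ ∑ p ∈ B, ‖b j p * b j p‖ ^ 2 := Finset.sum_nonneg fun p _ => by positivity
    simp only [mul_one, sub_re, add_re, one_re, ofReal_re]
    linarith
  · intro i j hij
    rw [fourth hP B hB hT, hin, hin, hin, hin, Finset.sum_eq_zero fun p _ => by
      rcases hz i j hij p with e | e <;> simp [e]]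
    simp [hij]
  · intro i j hij
    rw [fourth hP B hB hT, hin, Finset.sum_eq_zero fun p _ => by
      rcases hz i j hij p with e | e <;> simp [e]]
    simp [hij]

end Pool.Agent.P.MP_7eacff_nt.Rig
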